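import Pool.Agent.Helper32.KS.Defs

/-!
# The abstract wave packet system (helper32)
-/

set_option autoImplicit false

open MeasureTheory
open scoped BigOperators Real

namespace Pool.Agent.Helper32.KS

noncomputable section

/-- the cell `q` of side `1/D` (corner `(q₁/D, q₂/D)`) -/
def cell (D : ℕ) (q : ℤ × ℤ) : Set (ℝ × ℝ) :=
  {x | (q.1 : ℝ) ≤ D * x.1 ∧ D * x.1 < q.1 + 1 ∧ (q.2 : ℝ) ≤ D * x.2 ∧ D * x.2 < q.2 + 1}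

/-- the tile of direction `k` which contains the corner of the cell `q`:
`(⌊x₁⌋, ⌊D x₂ - k x₁⌋)` at `x = (q₁/D, q₂/D)` -/
def tile (D : ℕ) (k : ℤ) (q : ℤ × ℤ) : ℤ × ℤ := (q.1 / D, q.2 + (-k * q.1) / D)

/-- the `D` cells of the tile `T` of direction `k` -/
def cells (D : ℕ) (k : ℤ) (T : ℤ × ℤ) : Finset (ℤ × ℤ) :=
  (Finset.range D).image fun i : ℕ =>
    ((D : ℤ) * T.1 + i, T.2 - (-k * ((D : ℤ) * T.1 + i)) / D)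

/-- the reference point of the tile `T` of direction `k` -/
def xT (D : ℕ) (k : ℤ) (T : ℤ × ℤ) : ℝ × ℝ := (T.1, (T.2 + k * T.1) / D)

/-- the wave packet weight of direction `k`: `D (1+|z₁|)^{-r} (1+|D z₂ - k z₁|)^{-r}` -/
def wk (D : ℕ) (k : ℤ) (r : ℕ) (z : ℝ × ℝ) : ℝ := D * hw r z.1 * hw r (D * z.2 - k * z.1)

/-- the Nikodym majorant of direction `k` -/
def MM (D : ℕ) (k : ℤ) (Δ : ℝ × ℝ) : ℝ :=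
  D * hw 2 Δ.1 * ((1 + |D * Δ.2 - k * Δ.1|) * (1 + |Δ.2 - k / D * Δ.1|))⁻¹

/-- the directions -/
def Ks (D : ℕ) : Finset ℤ := Finset.Icc (-9 * D : ℤ) (9 * D)

/-- the position of the corner of the cell `q` relative to the tile `T` (tile coordinates) -/
def cw (D : ℕ) (k : ℤ) (r : ℕ) (q T : ℤ × ℤ) : ℝ :=
  hw r ((q.1 : ℝ) / D - T.1) * hw r (q.2 - k * q.1 / D - T.2)

/-- Abstract wave packet system with constant `C` at scale `D = 2^d`. -/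
structure Sys (C : ℝ) (d : ℕ) where
  /-- the packets -/
  F : ℕ → ℤ → ℝ × ℝ → ℂ
  /-- the function -/
  g : ℝ × ℝ → ℂ
  /-- the disjoint sets -/
  E : ℕ → Set (ℝ × ℝ)
  /-- tile masses -/
  μ : ℤ → ℤ × ℤ → ℕ → ℝ
  /-- tile masses with a slowly decaying weight -/
  μ' : ℤ → ℤ × ℤ → ℕ → ℝ
  /-- cell masses -/
  cm : ℤ × ℤ → ℤ → Finset ℕ → ℝ
  hC : 1 ≤ C
  Fcont : ∀ l k, Continuous (F l k)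
  gbcs : BCS g
  Emeas : ∀ l, MeasurableSet (E l)
  Edisj : ∀ i j, i ≠ j → Disjoint (E i) (E j)
  μ_nonneg : ∀ k T l, 0 ≤ μ k T l
  μ_le : ∀ k T l, μ k T l ≤ μ' k T l
  cm_nonneg : ∀ q k A, 0 ≤ cm q k A
  /-- orthogonality of the directions on a cell -/
  A1 : ∀ (q : ℤ × ℤ) (A : ℤ → Finset ℕ),
    ∫ x in cell (2 ^ d) q, ‖∑ k ∈ Ks (2 ^ d), ∑ l ∈ A k, F l k x‖ ^ 2
      ≤ C * ∑ k ∈ Ks (2 ^ d), cm q k (A k)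
  /-- orthogonality of the windows on a tile -/
  A2 : ∀ k ∈ Ks (2 ^ d), ∀ (T : ℤ × ℤ) (A : Finset ℕ),
    ∑ q ∈ cells (2 ^ d) k T, cm q k A ≤ C * ∑ l ∈ A, μ k T l
  /-- the mass of one packet is spread over its tile -/
  A3 : ∀ k ∈ Ks (2 ^ d), ∀ (q : ℤ × ℤ) (l : ℕ),
    cm q k {l} ≤ C / 2 ^ d * μ k (tile (2 ^ d) k q) l
  /-- Cauchy-Schwarz -/
  A3' : ∀ k ∈ Ks (2 ^ d), ∀ (q : ℤ × ℤ) (I : Finset ℕ) (A : ℕ → Finset ℕ),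
    (∀ i ∈ I, ∀ j ∈ I, i ≠ j → Disjoint (A i) (A j)) →
    cm q k (I.biUnion A) ≤ I.card * ∑ i ∈ I, cm q k (A i)
  /-- total mass -/
  A4 : ∀ (l : ℕ) (S : Finset (ℤ × (ℤ × ℤ))), (∀ P ∈ S, P.1 ∈ Ks (2 ^ d)) →
    ∑ P ∈ S, μ' P.1 P.2 l ≤ C * ∫ x in E l, ‖g x‖ ^ 2
  /-- dual functions -/
  A5 : ∀ (l : ℕ) (S : Finset (ℤ × (ℤ × ℤ))), (∀ P ∈ S, P.1 ∈ Ks (2 ^ d)) →
    ∃ G : ℝ × ℝ → ℂ, Continuous G ∧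
      ∑ P ∈ S, μ P.1 P.2 l ≤ ∫ x in E l, ‖g x‖ * ‖G x‖ ∧
      (∀ q : ℤ × ℤ, ∫ x in cell (2 ^ d) q, ‖G x‖ ^ 2
        ≤ C / 2 ^ d * ∑ P ∈ S, μ' P.1 P.2 l * cw (2 ^ d) P.1 6 q P.2) ∧
      Integrable (fun x => ‖G x‖ ^ 4) ∧
      ∫ x, ‖G x‖ ^ 4 ≤ C * ∑ P ∈ S, ∑ P' ∈ S, μ' P.1 P.2 l * μ' P'.1 P'.2 l *
        ∫ y : ℝ × ℝ, wk (2 ^ d) P.1 4 (y - xT (2 ^ d) P.1 P.2) *
          wk (2 ^ d) P'.1 4 (y - xT (2 ^ d) P'.1 P'.2)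

/-- the abstract key proposition -/
def KPabs : Prop :=
  ∀ C : ℝ, ∃ C' : ℝ, 0 < C' ∧ ∀ n d : ℕ, d ≤ n → ∀ s : Sys C d,
    ∀ Q : Finset (ℤ × ℤ), (Q.card : ℝ) ≤ 2 ^ (20 * (n + 1)) →
    ∀ m : ℝ × ℝ → ℕ, Measurable m → (∀ x, m x ≤ 64 * 4 ^ n) →
    ∑ q ∈ Q, ∫ x in cell (2 ^ d) q,
        ‖∑ l ∈ Finset.range (m x), ∑ k ∈ Ks (2 ^ d), s.F l k x‖ ^ 2
      ≤ C' * lg n ^ 4 * ∫ x, ‖s.g x‖ ^ 2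

/-- energy density of window `l` at the cell `q`: `D ∑_k μ(k, T_k(q), l)` -/
def Sys.sig {C : ℝ} {d : ℕ} (s : Sys C d) (l : ℕ) (q : ℤ × ℤ) : ℝ :=
  2 ^ d * ∑ k ∈ Ks (2 ^ d), s.μ k (tile (2 ^ d) k q) l

/-- total energy density (windows `l < M`) -/
def Sys.sigT {C : ℝ} {d : ℕ} (s : Sys C d) (M : ℕ) (q : ℤ × ℤ) : ℝ :=
  ∑ l ∈ Finset.range M, s.sig l q

open Classical in
/-- the cells `q` of the tile with `K σ_l(q) < σ(q)` -/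
def Sys.low {C : ℝ} {d : ℕ} (s : Sys C d) (M : ℕ) (K : ℝ) (k : ℤ) (T : ℤ × ℤ) (l : ℕ) :
    Finset (ℤ × ℤ) :=
  (cells (2 ^ d) k T).filter fun q => K * s.sig l q < s.sigT M q

/-- **Tail claim.**  Regular packets `(k, T, l)` whose window is small compared with the total
energy density on a fraction `β` of the tile have small total mass. -/
def TailClaim : Prop :=
  ∀ C : ℝ, ∃ C₁ : ℝ, 1 ≤ C₁ ∧ ∀ n d : ℕ, d ≤ n → ∀ s : Sys C d, ∀ M : ℕ, M ≤ 64 * 4 ^ n →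
    ∀ (P : Finset (ℤ × (ℤ × ℤ) × ℕ)), (P.card : ℝ) ≤ 2 ^ (40 * (n + 1)) →
    (∀ p ∈ P, p.1 ∈ Ks (2 ^ d) ∧ p.2.2 < M) →
    ∀ K β K' ε : ℝ, 0 < β → β ≤ 1 → 1 ≤ K' → 0 < ε → ε ≤ 1 → 1 / (n + 1 : ℝ) ^ 2 ≤ ε →
    C₁ * (n + 1 : ℝ) ^ 7 * K' ^ 4 / (β ^ 3 * ε ^ 5) ≤ K →
    (∀ p ∈ P, s.μ' p.1 p.2.1 p.2.2 ≤ K' * s.μ p.1 p.2.1 p.2.2) →
    (∀ p ∈ P, β * 2 ^ d ≤ ((s.low M K p.1 p.2.1 p.2.2).card : ℝ)) →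
    ∑ p ∈ P, s.μ p.1 p.2.1 p.2.2 ≤ ε * ∫ x, ‖s.g x‖ ^ 2

/-- the kernel bound behind the Nikodym maximal estimate -/
def KBound : Prop :=
  ∃ C : ℝ, 1 ≤ C ∧ ∀ D : ℕ, 1 ≤ D → ∀ k ∈ Ks D, ∀ k' ∈ Ks D, ∀ x x' : ℝ × ℝ,
    Integrable (fun y : ℝ × ℝ => wk D k 4 (y - x) * wk D k' 4 (y - x')) ∧
    ∫ y : ℝ × ℝ, wk D k 4 (y - x) * wk D k' 4 (y - x') ≤ C * MM D k (x' - x)

/-- sums of the Nikodym majorant over cells -/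
def MMSum : Prop :=
  ∃ C : ℝ, 1 ≤ C ∧ ∀ d : ℕ, ∀ k ∈ Ks (2 ^ d), ∀ (y : ℝ × ℝ) (S : Finset (ℤ × ℤ)),
    ∑ q ∈ S, MM (2 ^ d) k (((q.1 : ℝ) / 2 ^ d, (q.2 : ℝ) / 2 ^ d) - y)
      ≤ C * (d + 1) * 4 ^ d

/-- discrete Nikodym maximal estimate: if every cell `q ∈ X` has a direction `k` with
`∑_{v ∈ V} D^{-2} w_k(c_q - c_v) ≥ δ` then `#X ≤ C (d+1) δ^{-2} #V` -/
def NikClaim : Prop :=
  ∃ C : ℝ, 1 ≤ C ∧ ∀ d : ℕ, ∀ (X V : Finset (ℤ × ℤ)) (δ : ℝ), 0 < δ →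
    (∀ q ∈ X, ∃ k ∈ Ks (2 ^ d), δ * 4 ^ d ≤ ∑ v ∈ V,
      wk (2 ^ d) k 4 (((q.1 - v.1 : ℤ) : ℝ) / 2 ^ d, ((q.2 - v.2 : ℤ) : ℝ) / 2 ^ d)) →
    (X.card : ℝ) ≤ C * (d + 1) / δ ^ 2 * V.card

end

end Pool.Agent.Helper32.KS
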