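import Pool.Agent.Helper32.KS.Tail

/-!
# Module 3: the assembly
-/

set_option autoImplicit false

open MeasureTheory
open scoped BigOperators Real

namespace Pool.Agent.Helper32.KS

noncomputable section

/-! ### dyadic blocks -/

/-- the elements of `G` with `a ≤ ρ l < b` -/
def asBl (G : Finset ℕ) (ρ : ℕ → ℕ) (a b : ℕ) : Finset ℕ := G.filter fun l => a ≤ ρ l ∧ ρ l < b

lemma as_mem_bl (G : Finset ℕ) (ρ : ℕ → ℕ) (a b l : ℕ) :
    l ∈ asBl G ρ a b ↔ l ∈ G ∧ a ≤ ρ l ∧ ρ l < b := Finset.mem_filter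

lemma as_bl_disj (G : Finset ℕ) (ρ : ℕ → ℕ) (a b c e : ℕ) (h : b ≤ c ∨ e ≤ a) :
    Disjoint (asBl G ρ a b) (asBl G ρ c e) := by
  rw [Finset.disjoint_left]
  intro l h1 h2
  rw [as_mem_bl] at h1 h2
  omega

/-- the sum over one level of dyadic blocks -/
lemma as_blsum (G : Finset ℕ) (ρ : ℕ → ℕ) (w : ℕ → ℝ) (hw : ∀ l, 0 ≤ w l) (j N : ℕ) :
    ∑ i ∈ Finset.range N, ∑ l ∈ asBl G ρ (i * 2 ^ j) ((i + 1) * 2 ^ j), w l ≤ ∑ l ∈ G, w l := by
  rw [← Finset.sum_biUnion]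
  · refine Finset.sum_le_sum_of_subset_of_nonneg ?_ fun l _ _ => hw l
    intro l hl
    obtain ⟨i, _, hl⟩ := Finset.mem_biUnion.1 hl
    exact ((as_mem_bl _ _ _ _ _).1 hl).1
  · intro i _ i' _ h
    refine as_bl_disj _ _ _ _ _ _ ?_
    rcases lt_or_gt_of_ne h with h | h
    · left
      exact Nat.mul_le_mul_right _ h
    · right
      exact Nat.mul_le_mul_right _ h

/-- Rademacher–Menshov -/
lemma as_RM (G : Finset ℕ) (ρ : ℕ → ℕ) (f : ℕ → ℂ) (J r : ℕ) (hr : r ≤ 2 ^ J) :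
    ‖∑ l ∈ G.filter (fun l => ρ l < r), f l‖ ^ 2 ≤ (J + 1) * ∑ j ∈ Finset.range (J + 1),
      ∑ i ∈ Finset.range (2 ^ J), ‖∑ l ∈ asBl G ρ (i * 2 ^ j) ((i + 1) * 2 ^ j), f l‖ ^ 2 := by
  set S : ℕ → ℂ := fun x => ∑ l ∈ G.filter (fun l => ρ l < x), f l with hS
  have hsub : ∀ x y, x ≤ y → S y - S x = ∑ l ∈ asBl G ρ x y, f l := by
    intro x y hxy
    rw [sub_eq_iff_eq_add, hS]
    simp only
    have e : G.filter (fun l => ρ l < y) = asBl G ρ x y ∪ G.filter (fun l => ρ l < x) := by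
      ext l
      simp only [Finset.mem_union, as_mem_bl, Finset.mem_filter]
      constructor
      · rintro ⟨a, b⟩
        by_cases h : ρ l < x
        · exact Or.inr ⟨a, h⟩
        · exact Or.inl ⟨a, by omega, b⟩
      · rintro (⟨a, b, c⟩ | ⟨a, b⟩)
        · exact ⟨a, c⟩
        · exact ⟨a, by omega⟩
    rw [e, Finset.sum_union]
    rw [Finset.disjoint_left]
    intro l h1 h2
    rw [as_mem_bl] at h1
    have := (Finset.mem_filter.1 h2).2
    omega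
  have h0 : S 0 = 0 := by simp [hS]
  set R : ℕ → ℕ := fun j => r / 2 ^ j * 2 ^ j with hR
  have hR0 : R 0 = r := by simp [hR]
  have hRJ : R (J + 1) = 0 := by
    have : r / 2 ^ (J + 1) = 0 := by
      apply Nat.div_eq_of_lt
      calc r ≤ 2 ^ J := hr
        _ < 2 ^ (J + 1) := Nat.pow_lt_pow_right (by norm_num) (by omega)
    simp [hR, this]
  have htel : S r = ∑ j ∈ Finset.range (J + 1), (S (R j) - S (R (j + 1))) := by
    rw [Finset.sum_range_sub' (fun j => S (R j)), hR0, hRJ, h0, sub_zero]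
  have hone : ∀ j ∈ Finset.range (J + 1), ‖S (R j) - S (R (j + 1))‖ ^ 2 ≤
      ∑ i ∈ Finset.range (2 ^ J), ‖∑ l ∈ asBl G ρ (i * 2 ^ j) ((i + 1) * 2 ^ j), f l‖ ^ 2 := by
    intro j _
    have hnn : ∀ i ∈ Finset.range (2 ^ J),
        0 ≤ ‖∑ l ∈ asBl G ρ (i * 2 ^ j) ((i + 1) * 2 ^ j), f l‖ ^ 2 := fun i _ => by positivity
    set u := r / 2 ^ j with hu
    have e1 : R (j + 1) = (2 * (u / 2)) * 2 ^ j := by
      show r / 2 ^ (j + 1) * 2 ^ (j + 1) = _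
      rw [pow_succ, ← Nat.div_div_eq_div_mul, ← hu]
      ring
    have e2 : R j = u * 2 ^ j := rfl
    rcases Nat.even_or_odd' u with ⟨v, hv | hv⟩
    · have : R (j + 1) = R j := by
        rw [e1, e2, hv]
        simp
      rw [this, sub_self]
      simpa using Finset.sum_nonneg hnn
    · have e3 : R (j + 1) = (2 * v) * 2 ^ j := by
        rw [e1, hv]
        congr 2
        omega
      have e4 : R j = (2 * v + 1) * 2 ^ j := by rw [e2, hv]
      rw [e3, e4, hsub _ _ (Nat.mul_le_mul_right _ (by omega))]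
      refine Finset.single_le_sum hnn (Finset.mem_range.2 ?_)
      have : u ≤ r := Nat.div_le_self _ _
      omega
  calc ‖S r‖ ^ 2 ≤ (∑ j ∈ Finset.range (J + 1), ‖S (R j) - S (R (j + 1))‖) ^ 2 := by
        rw [htel]
        exact pow_le_pow_left₀ (norm_nonneg _) (norm_sum_le _ _) 2
    _ ≤ ((Finset.range (J + 1)).card : ℝ) *
          ∑ j ∈ Finset.range (J + 1), ‖S (R j) - S (R (j + 1))‖ ^ 2 := sq_sum_le_card_mul_sum_sq
    _ ≤ _ := by
        rw [Finset.card_range]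
        push_cast
        exact mul_le_mul_of_nonneg_left (Finset.sum_le_sum hone) (by positivity)

/-- decomposition of an interval into dyadic intervals -/
lemma as_dec (J : ℕ) : ∀ a b : ℕ, a ≤ b → b ≤ 2 ^ J → ∃ I : Finset (ℕ × ℕ),
    I.card ≤ 2 * (J + 1) ∧
    (∀ p ∈ I, a ≤ p.2 * 2 ^ p.1 ∧ (p.2 + 1) * 2 ^ p.1 ≤ b ∧ p.1 ≤ J) ∧
    (∀ x, a ≤ x → x < b → ∃ p ∈ I, p.2 * 2 ^ p.1 ≤ x ∧ x < (p.2 + 1) * 2 ^ p.1) ∧
    (∀ p ∈ I, ∀ p' ∈ I, p ≠ p' →
      (p.2 + 1) * 2 ^ p.1 ≤ p'.2 * 2 ^ p'.1 ∨ (p'.2 + 1) * 2 ^ p'.1 ≤ p.2 * 2 ^ p.1) := by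
  induction J with
  | zero =>
    intro a b hab hb
    rcases Nat.eq_zero_or_pos b with h | h
    · subst h
      exact ⟨∅, by simp, by simp, fun x h1 h2 => by omega, by simp⟩
    · have hb1 : b = 1 := by simp at hb; omega
      subst hb1
      rcases Nat.eq_zero_or_pos a with ha | ha
      · subst ha
        refine ⟨{(0, 0)}, by simp, ?_, ?_, ?_⟩
        · intro p hp
          rw [Finset.mem_singleton.1 hp]
          simp
        · intro x _ h2
          exact ⟨(0, 0), by simp, by simp, by simpa using h2⟩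
        · intro p hp p' hp' hne
          rw [Finset.mem_singleton.1 hp, Finset.mem_singleton.1 hp'] at hne
          exact absurd rfl hne
      · exact ⟨∅, by simp, by simp, fun x h1 h2 => by omega, by simp⟩
  | succ J ih =>
    intro a b hab hb
    by_cases hc : (a + 1) / 2 ≤ b / 2
    · obtain ⟨I, hI1, hI2, hI3, hI4⟩ := ih ((a + 1) / 2) (b / 2) hc (by
        rw [pow_succ] at hb
        omega)
      set φ : ℕ × ℕ → ℕ × ℕ := fun p => (p.1 + 1, p.2) with hφ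
      set I1 := I.image φ with hI1'
      set IL : Finset (ℕ × ℕ) := if a % 2 = 1 then {(0, a)} else ∅ with hIL
      set IR : Finset (ℕ × ℕ) := if b % 2 = 1 then {(0, b - 1)} else ∅ with hIR
      have m1 : ∀ p ∈ I1, a ≤ p.2 * 2 ^ p.1 ∧ (p.2 + 1) * 2 ^ p.1 ≤ b ∧ p.1 ≤ J + 1 ∧
          2 * ((a + 1) / 2) ≤ p.2 * 2 ^ p.1 ∧ (p.2 + 1) * 2 ^ p.1 ≤ 2 * (b / 2) := by
        intro p hp
        obtain ⟨p0, hp0, rfl⟩ := Finset.mem_image.1 hp
        obtain ⟨h1, h2, h3⟩ := hI2 p0 hp0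
        simp only [hφ, pow_succ]
        have h4 : p0.2 * (2 ^ p0.1 * 2) = 2 * (p0.2 * 2 ^ p0.1) := by ring
        have h5 : (p0.2 + 1) * (2 ^ p0.1 * 2) = 2 * ((p0.2 + 1) * 2 ^ p0.1) := by ring
        rw [h4, h5]
        omega
      have mL : ∀ p ∈ IL, p = (0, a) ∧ a % 2 = 1 := by
        intro p hp
        rw [hIL] at hp
        split_ifs at hp with h
        · exact ⟨Finset.mem_singleton.1 hp, h⟩
        · simp at hp
      have mR : ∀ p ∈ IR, p = (0, b - 1) ∧ b % 2 = 1 := by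
        intro p hp
        rw [hIR] at hp
        split_ifs at hp with h
        · exact ⟨Finset.mem_singleton.1 hp, h⟩
        · simp at hp
      have cL : IL.card ≤ 1 := by
        rw [hIL]; split_ifs <;> simp
      have cR : IR.card ≤ 1 := by
        rw [hIR]; split_ifs <;> simp
      refine ⟨I1 ∪ (IL ∪ IR), ?_, ?_, ?_, ?_⟩
      · have h1 : (I1 ∪ (IL ∪ IR)).card ≤ I1.card + (IL.card + IR.card) :=
          (Finset.card_union_le _ _).trans (Nat.add_le_add_left (Finset.card_union_le _ _) _)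
        have h2 : I1.card ≤ I.card := Finset.card_image_le
        omega
      · intro p hp
        rcases Finset.mem_union.1 hp with hp | hp
        · obtain ⟨h1, h2, h3, -, -⟩ := m1 p hp
          exact ⟨h1, h2, h3⟩
        · rcases Finset.mem_union.1 hp with hp | hp
          · obtain ⟨rfl, h⟩ := mL p hp
            simp only [pow_zero, mul_one]
            omega
          · obtain ⟨rfl, h⟩ := mR p hp
            simp only [pow_zero, mul_one]
            omega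
      · intro x h1 h2
        by_cases hx1 : x < 2 * ((a + 1) / 2)
        · have hxa : x = a ∧ a % 2 = 1 := by omega
          refine ⟨(0, a), ?_, by simp [hxa.1], by simp [hxa.1]⟩
          refine Finset.mem_union_right _ (Finset.mem_union_left _ ?_)
          rw [hIL, if_pos hxa.2]
          simp
        · by_cases hx2 : 2 * (b / 2) ≤ x
          · have hxb : x = b - 1 ∧ b % 2 = 1 := by omega
            refine ⟨(0, b - 1), ?_, by simp [hxb.1], by simp [hxb.1]⟩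
            refine Finset.mem_union_right _ (Finset.mem_union_right _ ?_)
            rw [hIR, if_pos hxb.2]
            simp
          · obtain ⟨p, hp, h3, h4⟩ := hI3 (x / 2) (by omega) (by omega)
            refine ⟨φ p, Finset.mem_union_left _ (Finset.mem_image_of_mem _ hp), ?_, ?_⟩
            · simp only [hφ, pow_succ]
              have h5 : p.2 * (2 ^ p.1 * 2) = 2 * (p.2 * 2 ^ p.1) := by ring
              rw [h5]
              omega
            · simp only [hφ, pow_succ]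
              have h5 : (p.2 + 1) * (2 ^ p.1 * 2) = 2 * ((p.2 + 1) * 2 ^ p.1) := by ring
              rw [h5]
              omega
      · intro p hp p' hp' hne
        rcases Finset.mem_union.1 hp with hp | hp
        · rcases Finset.mem_union.1 hp' with hp' | hp'
          · obtain ⟨p0, hp0, rfl⟩ := Finset.mem_image.1 hp
            obtain ⟨p1, hp1, rfl⟩ := Finset.mem_image.1 hp'
            have := hI4 p0 hp0 p1 hp1 (fun h => hne (by rw [h]))
            simp only [hφ, pow_succ]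
            have h4 : p0.2 * (2 ^ p0.1 * 2) = 2 * (p0.2 * 2 ^ p0.1) := by ring
            have h5 : (p0.2 + 1) * (2 ^ p0.1 * 2) = 2 * ((p0.2 + 1) * 2 ^ p0.1) := by ring
            have h6 : p1.2 * (2 ^ p1.1 * 2) = 2 * (p1.2 * 2 ^ p1.1) := by ring
            have h7 : (p1.2 + 1) * (2 ^ p1.1 * 2) = 2 * ((p1.2 + 1) * 2 ^ p1.1) := by ring
            rw [h4, h5, h6, h7]
            omega
          · obtain ⟨-, -, -, h4, h5⟩ := m1 p hp
            rcases Finset.mem_union.1 hp' with hp' | hp'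
            · obtain ⟨rfl, h⟩ := mL p' hp'
              simp only [pow_zero, mul_one]
              omega
            · obtain ⟨rfl, h⟩ := mR p' hp'
              simp only [pow_zero, mul_one]
              omega
        · rcases Finset.mem_union.1 hp' with hp' | hp'
          · obtain ⟨-, -, -, h4, h5⟩ := m1 p' hp'
            rcases Finset.mem_union.1 hp with hp | hp
            · obtain ⟨rfl, h⟩ := mL p hp
              simp only [pow_zero, mul_one]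
              omega
            · obtain ⟨rfl, h⟩ := mR p hp
              simp only [pow_zero, mul_one]
              omega
          · rcases Finset.mem_union.1 hp with hp | hp
            · rcases Finset.mem_union.1 hp' with hp' | hp'
              · exact absurd ((mL p hp).1.trans (mL p' hp').1.symm) hne
              · obtain ⟨rfl, h⟩ := mL p hp
                obtain ⟨rfl, h'⟩ := mR p' hp'
                simp only [pow_zero, mul_one]
                omega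
            · rcases Finset.mem_union.1 hp' with hp' | hp'
              · obtain ⟨rfl, h⟩ := mR p hp
                obtain ⟨rfl, h'⟩ := mL p' hp'
                simp only [pow_zero, mul_one]
                omega
              · exact absurd ((mR p hp).1.trans (mR p' hp').1.symm) hne
    · have : a = b := by omega
      subst this
      exact ⟨∅, by simp, by simp, fun x h1 h2 => by omega, by simp⟩

/-- the rank in `G` -/
def asRk (G : Finset ℕ) (l : ℕ) : ℕ := (G.filter fun l' => l' < l).card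

lemma as_rk_mono (G : Finset ℕ) : Monotone (asRk G) := by
  intro a b h
  refine Finset.card_le_card fun l hl => ?_
  rw [Finset.mem_filter] at hl ⊢
  exact ⟨hl.1, hl.2.trans_le h⟩

lemma as_rk_lt (G : Finset ℕ) (l t : ℕ) (hl : l ∈ G) : l < t ↔ asRk G l < asRk G t := by
  constructor
  · intro h
    refine Finset.card_lt_card ⟨fun x hx => ?_, fun hcon => ?_⟩
    · rw [Finset.mem_filter] at hx ⊢
      exact ⟨hx.1, hx.2.trans h⟩
    · have := hcon (Finset.mem_filter.2 ⟨hl, h⟩)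
      exact absurd (Finset.mem_filter.1 this).2 (lt_irrefl _)
  · intro h
    by_contra hcon
    have := as_rk_mono G (not_lt.1 hcon)
    omega

lemma as_rk_le (G : Finset ℕ) (l : ℕ) : asRk G l ≤ G.card := Finset.card_filter_le _ _

/-- blocks for a monotone `ρ` are blocks for the rank -/
lemma as_rank (A : Finset ℕ) (ρ : ℕ → ℕ) (hρ : Monotone ρ) (x y : ℕ) :
    asBl A ρ x y = asBl A (asRk A) ((A.filter fun l => ρ l < x).card)
      ((A.filter fun l => ρ l < y).card) := by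
  have key : ∀ l ∈ A, ∀ t, t ≤ ρ l ↔ (A.filter fun l => ρ l < t).card ≤ asRk A l := by
    intro l hl t
    constructor
    · intro h
      refine Finset.card_le_card fun l' hl' => ?_
      rw [Finset.mem_filter] at hl' ⊢
      refine ⟨hl'.1, ?_⟩
      by_contra hcon
      have := hρ (not_lt.1 hcon)
      omega
    · intro h
      by_contra hcon
      rw [not_le] at hcon
      have h1 : (A.filter fun l' => l' < l).card < (A.filter fun l => ρ l < t).card := by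
        refine Finset.card_lt_card ⟨fun l' hl' => ?_, fun hc => ?_⟩
        · rw [Finset.mem_filter] at hl' ⊢
          exact ⟨hl'.1, (hρ hl'.2.le).trans_lt hcon⟩
        · have := hc (Finset.mem_filter.2 ⟨hl, hcon⟩)
          exact absurd (Finset.mem_filter.1 this).2 (lt_irrefl _)
      unfold asRk at h
      omega
  ext l
  rw [as_mem_bl, as_mem_bl]
  constructor
  · rintro ⟨h1, h2, h3⟩
    refine ⟨h1, (key l h1 x).1 h2, ?_⟩
    by_contra hcon
    have := (key l h1 y).2 (not_lt.1 hcon)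
    omega
  · rintro ⟨h1, h2, h3⟩
    refine ⟨h1, (key l h1 x).2 h2, ?_⟩
    by_contra hcon
    have := (key l h1 y).1 (not_lt.1 hcon)
    omega

section sys

variable {C : ℝ} {d : ℕ} (s : Sys C d)

lemma as_cm_empty (k : ℤ) (hk : k ∈ Ks (2 ^ d)) (q : ℤ × ℤ) : s.cm q k ∅ = 0 := by
  have h1 := s.A2 k hk (tile (2 ^ d) k q) ∅
  rw [Finset.sum_empty, mul_zero] at h1
  have h2 : s.cm q k ∅ ≤ ∑ q' ∈ cells (2 ^ d) k (tile (2 ^ d) k q), s.cm q' k ∅ :=
    Finset.single_le_sum (f := fun q' => s.cm q' k ∅) (fun q' _ => s.cm_nonneg _ _ _)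
      ((tl_mem_cells (2 ^ d) Nat.one_le_two_pow k _ q).2 rfl)
  exact le_antisymm (h2.trans h1) (s.cm_nonneg _ _ _)

lemma as_CS (k : ℤ) (hk : k ∈ Ks (2 ^ d)) (q : ℤ × ℤ) (G : Finset ℕ) (ρ : ℕ → ℕ) (J a b : ℕ)
    (hab : a ≤ b) (hb : b ≤ 2 ^ J) : ∃ I : Finset (ℕ × ℕ),
    (∀ p ∈ I, p ∈ Finset.range (J + 1) ×ˢ Finset.range (2 ^ J)) ∧
    (∀ p ∈ I, a ≤ p.2 * 2 ^ p.1 ∧ (p.2 + 1) * 2 ^ p.1 ≤ b) ∧
    s.cm q k (asBl G ρ a b) ≤ 2 * (J + 1) *
      ∑ p ∈ I, s.cm q k (asBl G ρ (p.2 * 2 ^ p.1) ((p.2 + 1) * 2 ^ p.1)) := by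
  classical
  obtain ⟨I, h1, h2, h3, h4⟩ := as_dec J a b hab hb
  refine ⟨I, ?_, fun p hp => ⟨(h2 p hp).1, (h2 p hp).2.1⟩, ?_⟩
  · intro p hp
    obtain ⟨a1, a2, a3⟩ := h2 p hp
    rw [Finset.mem_product, Finset.mem_range, Finset.mem_range]
    refine ⟨by omega, ?_⟩
    have : (p.2 + 1) * 1 ≤ (p.2 + 1) * 2 ^ p.1 :=
      Nat.mul_le_mul_left _ Nat.one_le_two_pow
    omega
  set code : ℕ × ℕ → ℕ := fun p => Nat.pair p.1 p.2 with hcode
  set A : ℕ → Finset ℕ := fun n => asBl G ρ ((Nat.unpair n).2 * 2 ^ (Nat.unpair n).1)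
    (((Nat.unpair n).2 + 1) * 2 ^ (Nat.unpair n).1) with hA
  have hAc : ∀ p, A (code p) = asBl G ρ (p.2 * 2 ^ p.1) ((p.2 + 1) * 2 ^ p.1) := by
    intro p
    simp only [hA, hcode, Nat.unpair_pair]
  have hinj : Function.Injective code := by
    intro p p' h
    have := congrArg Nat.unpair h
    simp only [hcode, Nat.unpair_pair] at this
    exact this
  have hU : (I.image code).biUnion A = asBl G ρ a b := by
    ext l
    rw [Finset.mem_biUnion, as_mem_bl]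
    constructor
    · rintro ⟨n, hn, hl⟩
      obtain ⟨p, hp, rfl⟩ := Finset.mem_image.1 hn
      rw [hAc, as_mem_bl] at hl
      obtain ⟨a1, a2, -⟩ := h2 p hp
      exact ⟨hl.1, by omega, by omega⟩
    · rintro ⟨c1, c2, c3⟩
      obtain ⟨p, hp, a1, a2⟩ := h3 (ρ l) c2 c3
      refine ⟨code p, Finset.mem_image_of_mem _ hp, ?_⟩
      rw [hAc, as_mem_bl]
      exact ⟨c1, a1, a2⟩
  have h5 := s.A3' k hk q (I.image code) A (by
    intro n hn n' hn' hne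
    obtain ⟨p, hp, rfl⟩ := Finset.mem_image.1 hn
    obtain ⟨p', hp', rfl⟩ := Finset.mem_image.1 hn'
    rw [hAc, hAc]
    exact as_bl_disj _ _ _ _ _ _ (h4 p hp p' hp' fun h => hne (by rw [h])))
  rw [hU, Finset.card_image_of_injective _ hinj, Finset.sum_image (fun _ _ _ _ h => hinj h)] at h5
  simp only [hAc] at h5
  refine h5.trans (mul_le_mul_of_nonneg_right ?_ (Finset.sum_nonneg fun p _ => s.cm_nonneg _ _ _))
  exact_mod_cast h1

lemma as_mono (k : ℤ) (hk : k ∈ Ks (2 ^ d)) (q : ℤ × ℤ) (G : Finset ℕ) (ρ : ℕ → ℕ) (J N : ℕ)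
    (α : ℕ → ℕ) (hα : Monotone α) (hb : ∀ i, α i ≤ 2 ^ J) :
    ∑ i ∈ Finset.range N, s.cm q k (asBl G ρ (α i) (α (i + 1))) ≤
      2 * (J + 1) * ∑ j ∈ Finset.range (J + 1), ∑ i ∈ Finset.range (2 ^ J),
        s.cm q k (asBl G ρ (i * 2 ^ j) ((i + 1) * 2 ^ j)) := by
  classical
  choose I h1 h2 h3 using fun i => as_CS s k hk q G ρ J (α i) (α (i + 1)) (hα (Nat.le_succ i))
    (hb (i + 1))
  calc _ ≤ ∑ i ∈ Finset.range N, 2 * (J + 1) *
        ∑ p ∈ I i, s.cm q k (asBl G ρ (p.2 * 2 ^ p.1) ((p.2 + 1) * 2 ^ p.1)) :=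
        Finset.sum_le_sum fun i _ => h3 i
    _ = 2 * (J + 1) * ∑ p ∈ (Finset.range N).biUnion I,
          s.cm q k (asBl G ρ (p.2 * 2 ^ p.1) ((p.2 + 1) * 2 ^ p.1)) := by
        rw [← Finset.mul_sum, Finset.sum_biUnion]
        have key : ∀ i i', i < i' → Disjoint (I i) (I i') := by
          intro i i' h
          rw [Finset.disjoint_left]
          intro p hp hp'
          have a1 := (h2 i p hp).2
          have a2 := (h2 i' p hp').1
          have a3 := hα (Nat.succ_le_of_lt h)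
          have a4 : p.2 * 2 ^ p.1 < (p.2 + 1) * 2 ^ p.1 :=
            Nat.mul_lt_mul_of_pos_right (Nat.lt_succ_self _) (by positivity)
          have a5 : i.succ = i + 1 := rfl
          rw [a5] at a3
          omega
        intro i _ i' _ h
        rcases lt_or_gt_of_ne h with h | h
        · exact key i i' h
        · exact (key i' i h).symm
    _ ≤ 2 * (J + 1) * ∑ p ∈ Finset.range (J + 1) ×ˢ Finset.range (2 ^ J),
          s.cm q k (asBl G ρ (p.2 * 2 ^ p.1) ((p.2 + 1) * 2 ^ p.1)) := by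
        refine mul_le_mul_of_nonneg_left ?_ (by positivity)
        refine Finset.sum_le_sum_of_subset_of_nonneg ?_ fun p _ _ => s.cm_nonneg _ _ _
        intro p hp
        obtain ⟨i, _, hp⟩ := Finset.mem_biUnion.1 hp
        exact h1 i p hp
    _ = _ := by rw [Finset.sum_product]

/-- passage from the blocks of a monotone function to the dyadic rank blocks -/
lemma as_pass (k : ℤ) (hk : k ∈ Ks (2 ^ d)) (q : ℤ × ℤ) (A : Finset ℕ) (ρ : ℕ → ℕ)
    (hρ : Monotone ρ) (J : ℕ) (hA : A.card ≤ 2 ^ J) (j N : ℕ) :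
    ∑ i ∈ Finset.range N, s.cm q k (asBl A ρ (i * 2 ^ j) ((i + 1) * 2 ^ j)) ≤
      2 * (J + 1) * ∑ j' ∈ Finset.range (J + 1), ∑ i ∈ Finset.range (2 ^ J),
        s.cm q k (asBl A (asRk A) (i * 2 ^ j') ((i + 1) * 2 ^ j')) := by
  have h := as_mono s k hk q A (asRk A) J N (fun i => (A.filter fun l => ρ l < i * 2 ^ j).card)
    (by
      intro i i' h
      refine Finset.card_le_card fun l hl => ?_
      rw [Finset.mem_filter] at hl ⊢
      exact ⟨hl.1, hl.2.trans_le (Nat.mul_le_mul_right _ h)⟩)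
    (fun i => (Finset.card_filter_le _ _).trans hA)
  refine le_trans (le_of_eq (Finset.sum_congr rfl fun i _ => ?_)) h
  rw [as_rank A ρ hρ]

/-! ### the dominating functions -/

/-- the sum of the squares of the blocks -/
def asPhi (A : ℤ → Finset ℕ) (ρ : ℕ → ℕ) (J : ℕ) (x : ℝ × ℝ) : ℝ :=
  (J + 1) * ∑ j ∈ Finset.range (J + 1), ∑ i ∈ Finset.range (2 ^ J),
    ‖∑ k ∈ Ks (2 ^ d), ∑ l ∈ asBl (A k) ρ (i * 2 ^ j) ((i + 1) * 2 ^ j), s.F l k x‖ ^ 2

lemma as_phi_cont (A : ℤ → Finset ℕ) (ρ : ℕ → ℕ) (J : ℕ) : Continuous (asPhi s A ρ J) := by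
  unfold asPhi
  refine continuous_const.mul (continuous_finsetSum _ fun j _ => continuous_finsetSum _ fun i _ =>
    (Continuous.norm ?_).pow 2)
  exact continuous_finsetSum _ fun k _ => continuous_finsetSum _ fun l _ => s.Fcont l k

lemma as_phi_int (A : ℤ → Finset ℕ) (ρ : ℕ → ℕ) (J : ℕ) (q : ℤ × ℤ) :
    ∫ x in cell (2 ^ d) q, asPhi s A ρ J x ≤ (J + 1) * ∑ j ∈ Finset.range (J + 1),
      ∑ i ∈ Finset.range (2 ^ J), C * ∑ k ∈ Ks (2 ^ d),
        s.cm q k (asBl (A k) ρ (i * 2 ^ j) ((i + 1) * 2 ^ j)) := by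
  have hD : 1 ≤ 2 ^ d := Nat.one_le_two_pow
  have hint : ∀ j i, IntegrableOn (fun x => ‖∑ k ∈ Ks (2 ^ d),
      ∑ l ∈ asBl (A k) ρ (i * 2 ^ j) ((i + 1) * 2 ^ j), s.F l k x‖ ^ 2) (cell (2 ^ d) q) := by
    intro j i
    refine tl_cell_int (2 ^ d) hD q ((Continuous.norm ?_).pow 2)
    exact continuous_finsetSum _ fun k _ => continuous_finsetSum _ fun l _ => s.Fcont l k
  unfold asPhi
  rw [integral_const_mul]
  refine mul_le_mul_of_nonneg_left ?_ (by positivity)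
  rw [integral_finsetSum _ fun j _ => integrable_finsetSum _ fun i _ => hint j i]
  refine Finset.sum_le_sum fun j _ => ?_
  rw [integral_finsetSum _ fun i _ => hint j i]
  exact Finset.sum_le_sum fun i _ =>
    s.A1 q fun k => asBl (A k) ρ (i * 2 ^ j) ((i + 1) * 2 ^ j)

lemma as_phi_bd (A : ℤ → Finset ℕ) (G : Finset ℕ) (hAG : ∀ k ∈ Ks (2 ^ d), A k ⊆ G)
    (ρ : ℕ → ℕ) (J t r : ℕ) (hρ : ∀ l ∈ G, l < t ↔ ρ l < r) (hr : r ≤ 2 ^ J) (x : ℝ × ℝ) :
    ‖∑ k ∈ Ks (2 ^ d), ∑ l ∈ (A k).filter (fun l => l < t), s.F l k x‖ ^ 2 ≤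
      asPhi s A ρ J x := by
  classical
  set f : ℕ → ℂ := fun l => ∑ k ∈ Ks (2 ^ d), if l ∈ A k then s.F l k x else 0 with hf
  have key : ∀ (P : ℕ → Prop) [DecidablePred P], ∑ l ∈ G.filter P, f l =
      ∑ k ∈ Ks (2 ^ d), ∑ l ∈ (A k).filter P, s.F l k x := by
    intro P _
    rw [hf, Finset.sum_comm]
    refine Finset.sum_congr rfl fun k hk => ?_
    rw [← Finset.sum_filter]
    refine Finset.sum_congr ?_ fun _ _ => rfl
    ext l
    simp only [Finset.mem_filter]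
    constructor
    · rintro ⟨⟨_, b⟩, c⟩
      exact ⟨c, b⟩
    · rintro ⟨c, b⟩
      exact ⟨⟨hAG k hk c, b⟩, c⟩
  have h1 : ∑ k ∈ Ks (2 ^ d), ∑ l ∈ (A k).filter (fun l => l < t), s.F l k x =
      ∑ l ∈ G.filter (fun l => ρ l < r), f l := by
    rw [← key]
    refine Finset.sum_congr (Finset.filter_congr fun l hl => hρ l hl) fun _ _ => rfl
  rw [h1]
  refine (as_RM G ρ f J r hr).trans (le_of_eq ?_)
  unfold asPhi
  congr 1
  refine Finset.sum_congr rfl fun j _ => Finset.sum_congr rfl fun i _ => ?_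
  unfold asBl
  rw [key]

/-! ### summation over the tiles -/

lemma as_tileSum (d : ℕ) (k : ℤ) (Q TT : Finset (ℤ × ℤ))
    (hTT : ∀ q ∈ Q, tile (2 ^ d) k q ∈ TT) (h : ℤ × ℤ → ℤ × ℤ → ℝ) (hh : ∀ T q, 0 ≤ h T q) :
    ∑ q ∈ Q, h (tile (2 ^ d) k q) q ≤ ∑ T ∈ TT, ∑ q ∈ cells (2 ^ d) k T, h T q := by
  rw [← Finset.sum_fiberwise_of_maps_to (g := fun q => tile (2 ^ d) k q) (t := TT) hTT]
  refine Finset.sum_le_sum fun T _ => ?_
  have e : ∑ q ∈ Q.filter (fun q => tile (2 ^ d) k q = T), h (tile (2 ^ d) k q) q =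
      ∑ q ∈ Q.filter (fun q => tile (2 ^ d) k q = T), h T q :=
    Finset.sum_congr rfl fun q hq => by rw [(Finset.mem_filter.1 hq).2]
  rw [e]
  refine Finset.sum_le_sum_of_subset_of_nonneg ?_ fun q _ _ => hh T q
  intro q hq
  exact (tl_mem_cells (2 ^ d) Nat.one_le_two_pow k T q).2 (Finset.mem_filter.1 hq).2

lemma as_tileCm (k : ℤ) (hk : k ∈ Ks (2 ^ d)) (Q TT : Finset (ℤ × ℤ))
    (hTT : ∀ q ∈ Q, tile (2 ^ d) k q ∈ TT) (B : ℤ × ℤ → Finset ℕ) :
    ∑ q ∈ Q, s.cm q k (B (tile (2 ^ d) k q)) ≤ C * ∑ T ∈ TT, ∑ l ∈ B T, s.μ k T l := by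
  refine (as_tileSum d k Q TT hTT (fun T q => s.cm q k (B T))
    fun _ _ => s.cm_nonneg _ _ _).trans ?_
  rw [Finset.mul_sum]
  exact Finset.sum_le_sum fun T _ => s.A2 k hk T (B T)

/-- the total of the blocks of sets which only depend on the tile -/
lemma as_tot (Q TT : Finset (ℤ × ℤ)) (hTT : ∀ k ∈ Ks (2 ^ d), ∀ q ∈ Q, tile (2 ^ d) k q ∈ TT)
    (B : ℤ → ℤ × ℤ → Finset ℕ) (ρ : ℤ → ℤ × ℤ → ℕ → ℕ) (J : ℕ) :
    ∑ q ∈ Q, ∑ j ∈ Finset.range (J + 1), ∑ i ∈ Finset.range (2 ^ J), ∑ k ∈ Ks (2 ^ d),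
        s.cm q k (asBl (B k (tile (2 ^ d) k q)) (ρ k (tile (2 ^ d) k q)) (i * 2 ^ j)
          ((i + 1) * 2 ^ j)) ≤
      (J + 1) * C * ∑ k ∈ Ks (2 ^ d), ∑ T ∈ TT, ∑ l ∈ B k T, s.μ k T l := by
  have hC := s.hC
  rw [Finset.sum_comm]
  calc _ ≤ ∑ j ∈ Finset.range (J + 1), C * ∑ k ∈ Ks (2 ^ d), ∑ T ∈ TT, ∑ l ∈ B k T, s.μ k T l := by
        refine Finset.sum_le_sum fun j _ => ?_
        rw [Finset.sum_comm]
        have e : ∀ i, ∑ q ∈ Q, ∑ k ∈ Ks (2 ^ d), s.cm q k (asBl (B k (tile (2 ^ d) k q))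
            (ρ k (tile (2 ^ d) k q)) (i * 2 ^ j) ((i + 1) * 2 ^ j)) ≤
            C * ∑ k ∈ Ks (2 ^ d), ∑ T ∈ TT, ∑ l ∈ asBl (B k T) (ρ k T) (i * 2 ^ j)
              ((i + 1) * 2 ^ j), s.μ k T l := by
          intro i
          rw [Finset.sum_comm, Finset.mul_sum]
          exact Finset.sum_le_sum fun k hk => as_tileCm s k hk Q TT (hTT k hk)
            fun T => asBl (B k T) (ρ k T) (i * 2 ^ j) ((i + 1) * 2 ^ j)
        refine (Finset.sum_le_sum fun i _ => e i).trans ?_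
        rw [← Finset.mul_sum]
        refine mul_le_mul_of_nonneg_left ?_ (by linarith)
        rw [Finset.sum_comm]
        refine Finset.sum_le_sum fun k _ => ?_
        rw [Finset.sum_comm]
        refine Finset.sum_le_sum fun T _ => ?_
        exact as_blsum (B k T) (ρ k T) _ (fun l => s.μ_nonneg _ _ _) j _
    _ = _ := by
        rw [Finset.sum_const, Finset.card_range, nsmul_eq_mul]
        push_cast
        ring

/-! ### the classes of windows -/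

open Classical in
/-- the main windows of a tile -/
def asMain (M : ℕ) (K' Ka Kb βb : ℝ) (k : ℤ) (T : ℤ × ℤ) : Finset ℕ :=
  (Finset.range M).filter fun l => 0 < s.μ k T l ∧ s.μ' k T l ≤ K' * s.μ k T l ∧
    ((s.low M Ka k T l).card : ℝ) < 1 / 2 * 2 ^ d ∧ ((s.low M Kb k T l).card : ℝ) < βb * 2 ^ d

open Classical in
/-- the bad cells of a tile -/
def asBad (M : ℕ) (K' Ka Kb βb : ℝ) (k : ℤ) (T : ℤ × ℤ) : Finset (ℤ × ℤ) :=
  (cells (2 ^ d) k T).filter fun q => ∃ l ∈ asMain s M K' Ka Kb βb k T,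
    Kb * s.sig l q < s.sigT M q

open Classical in
/-- the large windows of a cell -/
def asGood (M : ℕ) (Kb : ℝ) (q : ℤ × ℤ) : Finset ℕ :=
  (Finset.range M).filter fun l => 0 < s.sigT M q ∧ s.sigT M q ≤ Kb * s.sig l q

lemma as_mem_main (M : ℕ) (K' Ka Kb βb : ℝ) (k : ℤ) (T : ℤ × ℤ) (l : ℕ) :
    l ∈ asMain s M K' Ka Kb βb k T ↔ l ∈ Finset.range M ∧ 0 < s.μ k T l ∧
      s.μ' k T l ≤ K' * s.μ k T l ∧ ((s.low M Ka k T l).card : ℝ) < 1 / 2 * 2 ^ d ∧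
      ((s.low M Kb k T l).card : ℝ) < βb * 2 ^ d := by
  unfold asMain
  rw [Finset.mem_filter]

lemma as_mem_bad (M : ℕ) (K' Ka Kb βb : ℝ) (k : ℤ) (T q : ℤ × ℤ) :
    q ∈ asBad s M K' Ka Kb βb k T ↔ q ∈ cells (2 ^ d) k T ∧
      ∃ l ∈ asMain s M K' Ka Kb βb k T, Kb * s.sig l q < s.sigT M q := by
  unfold asBad
  rw [Finset.mem_filter]

lemma as_mem_good (M : ℕ) (Kb : ℝ) (q : ℤ × ℤ) (l : ℕ) :
    l ∈ asGood s M Kb q ↔ l ∈ Finset.range M ∧ 0 < s.sigT M q ∧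
      s.sigT M q ≤ Kb * s.sig l q := by
  unfold asGood
  rw [Finset.mem_filter]

lemma as_mem_low (M : ℕ) (K : ℝ) (k : ℤ) (T : ℤ × ℤ) (l : ℕ) (q : ℤ × ℤ) :
    q ∈ s.low M K k T l ↔ q ∈ cells (2 ^ d) k T ∧ K * s.sig l q < s.sigT M q := by
  unfold Sys.low
  rw [Finset.mem_filter]

lemma as_count (M : ℕ) (K : ℝ) (hK : 0 ≤ K) (q : ℤ × ℤ) (A : Finset ℕ) (hA : A ⊆ Finset.range M)
    (h : ∀ l ∈ A, 0 < s.sigT M q ∧ s.sigT M q ≤ K * s.sig l q) : (A.card : ℝ) ≤ K := by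
  rcases A.eq_empty_or_nonempty with h0 | ⟨l₀, hl₀⟩
  · rw [h0]
    simpa using hK
  · have hpos := (h l₀ hl₀).1
    have h1 : (A.card : ℝ) * s.sigT M q ≤ K * s.sigT M q := by
      calc _ = ∑ l ∈ A, s.sigT M q := by rw [Finset.sum_const, nsmul_eq_mul]
        _ ≤ ∑ l ∈ A, K * s.sig l q := Finset.sum_le_sum fun l hl => (h l hl).2
        _ = K * ∑ l ∈ A, s.sig l q := by rw [Finset.mul_sum]
        _ ≤ K * s.sigT M q := by
            refine mul_le_mul_of_nonneg_left ?_ hK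
            unfold Sys.sigT
            exact Finset.sum_le_sum_of_subset_of_nonneg hA fun _ _ _ => tl_sig_nonneg s _ _
    exact le_of_mul_le_mul_right h1 hpos

lemma as_good_card (M : ℕ) (Kb : ℝ) (hK : 0 ≤ Kb) (q : ℤ × ℤ) :
    ((asGood s M Kb q).card : ℝ) ≤ Kb := by
  refine as_count s M Kb hK q _ (fun l hl => ((as_mem_good s M Kb q l).1 hl).1) ?_
  intro l hl
  exact ((as_mem_good s M Kb q l).1 hl).2

lemma as_card_cells (D : ℕ) (k : ℤ) (T : ℤ × ℤ) : (cells D k T).card = D := by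
  unfold cells
  rw [Finset.card_image_of_injective, Finset.card_range]
  intro i i' h
  have := congrArg Prod.fst h
  simp only at this
  omega

/-- `sigT` is positive on the cells of a tile with a main window -/
lemma as_sigT_pos (M : ℕ) (K' Ka Kb βb : ℝ) (k : ℤ) (hk : k ∈ Ks (2 ^ d)) (T q : ℤ × ℤ)
    (hq : q ∈ cells (2 ^ d) k T) (l : ℕ) (hl : l ∈ asMain s M K' Ka Kb βb k T) :
    0 < s.sigT M q := by
  rw [as_mem_main] at hl
  have h1 := tl_sig_ge s k hk T q hq l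
  have h2 : s.sig l q ≤ s.sigT M q :=
    Finset.single_le_sum (f := fun l => s.sig l q) (fun l _ => tl_sig_nonneg s l q) hl.1
  have h3 : 0 < 2 ^ d * s.μ k T l := mul_pos (by positivity) hl.2.1
  linarith

lemma as_main_card (M : ℕ) (K' Ka Kb βb : ℝ) (hKa : 0 ≤ Ka) (k : ℤ) (hk : k ∈ Ks (2 ^ d))
    (T : ℤ × ℤ) : ((asMain s M K' Ka Kb βb k T).card : ℝ) ≤ 2 * Ka := by
  classical
  set A := asMain s M K' Ka Kb βb k T with hA
  set Cc := cells (2 ^ d) k T with hCc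
  have hcard : (Cc.card : ℝ) = 2 ^ d := by
    rw [hCc, as_card_cells]
    push_cast
    rfl
  have h1 : ∀ l ∈ A, (1 / 2 : ℝ) * 2 ^ d ≤
      ((Cc.filter fun q => s.sigT M q ≤ Ka * s.sig l q).card : ℝ) := by
    intro l hl
    obtain ⟨-, -, -, h3, -⟩ := (as_mem_main s M K' Ka Kb βb k T l).1 hl
    have h4 := Finset.card_filter_add_card_filter_not (s := Cc)
      (fun q => s.sigT M q ≤ Ka * s.sig l q)
    have h5 : (Cc.filter fun q => ¬ s.sigT M q ≤ Ka * s.sig l q) = s.low M Ka k T l := by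
      ext q
      rw [as_mem_low, Finset.mem_filter, not_le]
    rw [h5] at h4
    have h6 : ((Cc.filter fun q => s.sigT M q ≤ Ka * s.sig l q).card : ℝ) +
        ((s.low M Ka k T l).card : ℝ) = 2 ^ d := by
      rw [← hcard]
      exact_mod_cast h4
    linarith
  have h2 : ∀ q ∈ Cc, ((A.filter fun l => s.sigT M q ≤ Ka * s.sig l q).card : ℝ) ≤ Ka := by
    intro q hq
    refine as_count s M Ka hKa q _ ?_ ?_
    · intro l hl
      exact ((as_mem_main s M K' Ka Kb βb k T l).1 (Finset.mem_filter.1 hl).1).1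
    · intro l hl
      obtain ⟨a, b⟩ := Finset.mem_filter.1 hl
      exact ⟨as_sigT_pos s M K' Ka Kb βb k hk T q hq l a, b⟩
  have h3 : ∑ l ∈ A, ((Cc.filter fun q => s.sigT M q ≤ Ka * s.sig l q).card : ℝ) =
      ∑ q ∈ Cc, ((A.filter fun l => s.sigT M q ≤ Ka * s.sig l q).card : ℝ) := by
    simp only [Finset.card_filter, Nat.cast_sum]
    rw [Finset.sum_comm]
  have h4 : (A.card : ℝ) * (1 / 2 * 2 ^ d) ≤ 2 ^ d * Ka := by
    calc _ = ∑ l ∈ A, (1 / 2 : ℝ) * 2 ^ d := by rw [Finset.sum_const, nsmul_eq_mul]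
      _ ≤ _ := Finset.sum_le_sum h1
      _ = _ := h3
      _ ≤ ∑ q ∈ Cc, Ka := Finset.sum_le_sum h2
      _ = _ := by rw [Finset.sum_const, nsmul_eq_mul, hcard]
  have h5 : (0 : ℝ) < 2 ^ d := by positivity
  have h6 : (A.card : ℝ) * 2 ^ d ≤ (2 * Ka) * 2 ^ d := by linarith
  exact le_of_mul_le_mul_right h6 h5

lemma as_bad_card (M : ℕ) (K' Ka Kb βb : ℝ) (k : ℤ) (T : ℤ × ℤ) :
    ((asBad s M K' Ka Kb βb k T).card : ℝ) ≤
      (asMain s M K' Ka Kb βb k T).card * (βb * 2 ^ d) := by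
  classical
  have h1 : asBad s M K' Ka Kb βb k T ⊆
      (asMain s M K' Ka Kb βb k T).biUnion fun l => s.low M Kb k T l := by
    intro q hq
    obtain ⟨a, l, hl, b⟩ := (as_mem_bad s M K' Ka Kb βb k T q).1 hq
    exact Finset.mem_biUnion.2 ⟨l, hl, (as_mem_low s M Kb k T l q).2 ⟨a, b⟩⟩
  have h2 : ((asBad s M K' Ka Kb βb k T).card : ℝ) ≤
      ∑ l ∈ asMain s M K' Ka Kb βb k T, ((s.low M Kb k T l).card : ℝ) := by
    exact_mod_cast (Finset.card_le_card h1).trans Finset.card_biUnion_le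
  refine h2.trans ?_
  rw [← nsmul_eq_mul, ← Finset.sum_const]
  exact Finset.sum_le_sum fun l hl => ((as_mem_main s M K' Ka Kb βb k T l).1 hl).2.2.2.2.le

/-! ### the bad part -/

open Classical in
/-- main windows if the cell is bad -/
def asAB (M : ℕ) (K' Ka Kb βb : ℝ) (q : ℤ × ℤ) (k : ℤ) : Finset ℕ :=
  if q ∈ asBad s M K' Ka Kb βb k (tile (2 ^ d) k q) then
    asMain s M K' Ka Kb βb k (tile (2 ^ d) k q) else ∅

open Classical in
/-- main windows if the cell is not bad -/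
def asAG (M : ℕ) (K' Ka Kb βb : ℝ) (q : ℤ × ℤ) (k : ℤ) : Finset ℕ :=
  if q ∈ asBad s M K' Ka Kb βb k (tile (2 ^ d) k q) then ∅ else
    asMain s M K' Ka Kb βb k (tile (2 ^ d) k q)

lemma as_bl_empty (ρ : ℕ → ℕ) (a b : ℕ) : asBl ∅ ρ a b = ∅ := by simp [asBl]

lemma as_totB (M : ℕ) (K' Ka Kb βb : ℝ) (hKa : 0 ≤ Ka) (hβb : 0 ≤ βb) (Q TT : Finset (ℤ × ℤ))
    (hTT : ∀ k ∈ Ks (2 ^ d), ∀ q ∈ Q, tile (2 ^ d) k q ∈ TT) (ρ : ℕ → ℕ) (J : ℕ) :
    ∑ q ∈ Q, ∑ j ∈ Finset.range (J + 1), ∑ i ∈ Finset.range (2 ^ J), ∑ k ∈ Ks (2 ^ d),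
        s.cm q k (asBl (asAB s M K' Ka Kb βb q k) ρ (i * 2 ^ j) ((i + 1) * 2 ^ j)) ≤
      (J + 1) * (C * (4 * Ka ^ 2 * βb)) * ∑ k ∈ Ks (2 ^ d), ∑ T ∈ TT,
        ∑ l ∈ asMain s M K' Ka Kb βb k T, s.μ k T l := by
  classical
  have hC := s.hC
  set Mn := asMain s M K' Ka Kb βb with hMn
  set h : ℤ → ℤ × ℤ → ℤ × ℤ → ℝ := fun k T q => if q ∈ asBad s M K' Ka Kb βb k T then
    ((Mn k T).card : ℝ) * (C / 2 ^ d * ∑ l ∈ Mn k T, s.μ k T l) else 0 with hh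
  have hsum0 : ∀ k T, 0 ≤ ∑ l ∈ Mn k T, s.μ k T l :=
    fun k T => Finset.sum_nonneg fun l _ => s.μ_nonneg _ _ _
  have hh0 : ∀ k T q, 0 ≤ h k T q := by
    intro k T q
    rw [hh]
    simp only
    have := hsum0 k T
    split_ifs <;> positivity
  have h1 : ∀ q, ∀ k ∈ Ks (2 ^ d), ∀ j, ∑ i ∈ Finset.range (2 ^ J),
      s.cm q k (asBl (asAB s M K' Ka Kb βb q k) ρ (i * 2 ^ j) ((i + 1) * 2 ^ j)) ≤
      h k (tile (2 ^ d) k q) q := by
    intro q k hk j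
    by_cases hb : q ∈ asBad s M K' Ka Kb βb k (tile (2 ^ d) k q)
    · have e1 : asAB s M K' Ka Kb βb q k = Mn k (tile (2 ^ d) k q) := by
        unfold asAB
        rw [if_pos hb]
      have e2 : h k (tile (2 ^ d) k q) q = ((Mn k (tile (2 ^ d) k q)).card : ℝ) *
          (C / 2 ^ d * ∑ l ∈ Mn k (tile (2 ^ d) k q), s.μ k (tile (2 ^ d) k q) l) := by
        rw [hh]
        simp only
        rw [if_pos hb]
      rw [e1, e2]
      set T := tile (2 ^ d) k q with hT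
      have h2 : ∀ a b, s.cm q k (asBl (Mn k T) ρ a b) ≤
          ((Mn k T).card : ℝ) * (C / 2 ^ d * ∑ l ∈ asBl (Mn k T) ρ a b, s.μ k T l) := by
        intro a b
        have h3 := s.A3' k hk q (asBl (Mn k T) ρ a b) (fun l => {l}) (by
          intro l _ l' _ hne
          exact Finset.disjoint_singleton.2 hne)
        rw [Finset.biUnion_singleton_eq_self] at h3
        refine h3.trans ?_
        have h4 : ((asBl (Mn k T) ρ a b).card : ℝ) ≤ ((Mn k T).card : ℝ) := by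
          exact_mod_cast Finset.card_filter_le _ _
        refine mul_le_mul h4 ?_ (Finset.sum_nonneg fun _ _ => s.cm_nonneg _ _ _) (by positivity)
        rw [Finset.mul_sum]
        exact Finset.sum_le_sum fun l _ => s.A3 k hk q l
      refine (Finset.sum_le_sum fun i _ => h2 _ _).trans ?_
      rw [← Finset.mul_sum, ← Finset.mul_sum]
      have h5 := as_blsum (Mn k T) ρ (fun l => s.μ k T l) (fun l => s.μ_nonneg _ _ _) j (2 ^ J)
      gcongr
    · have e1 : asAB s M K' Ka Kb βb q k = ∅ := by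
        unfold asAB
        rw [if_neg hb]
      have e2 : ∀ i ∈ Finset.range (2 ^ J), s.cm q k (asBl (asAB s M K' Ka Kb βb q k) ρ (i * 2 ^ j)
          ((i + 1) * 2 ^ j)) = 0 := by
        intro i _
        rw [e1, as_bl_empty, as_cm_empty s k hk q]
      rw [Finset.sum_eq_zero e2]
      exact hh0 _ _ _
  have h2 : ∀ k ∈ Ks (2 ^ d), ∑ q ∈ Q, h k (tile (2 ^ d) k q) q ≤
      C * (4 * Ka ^ 2 * βb) * ∑ T ∈ TT, ∑ l ∈ Mn k T, s.μ k T l := by
    intro k hk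
    refine (as_tileSum d k Q TT (hTT k hk) (h k) (hh0 k)).trans ?_
    rw [Finset.mul_sum]
    refine Finset.sum_le_sum fun T _ => ?_
    have e1 : ∑ q ∈ cells (2 ^ d) k T, h k T q = ((asBad s M K' Ka Kb βb k T).card : ℝ) *
        (((Mn k T).card : ℝ) * (C / 2 ^ d * ∑ l ∈ Mn k T, s.μ k T l)) := by
      rw [hh]
      simp only
      rw [← Finset.sum_filter, Finset.sum_const, nsmul_eq_mul]
      congr 2
      congr 1
      ext q
      rw [Finset.mem_filter]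
      constructor
      · exact fun h => h.2
      · exact fun h => ⟨((as_mem_bad s M K' Ka Kb βb k T q).1 h).1, h⟩
    rw [e1]
    have b1 := as_bad_card s M K' Ka Kb βb k T
    have b2 := as_main_card s M K' Ka Kb βb hKa k hk T
    rw [← hMn] at b1 b2
    have b0 := hsum0 k T
    calc _ ≤ ((2 * Ka) * (βb * 2 ^ d)) * ((2 * Ka) * (C / 2 ^ d * ∑ l ∈ Mn k T, s.μ k T l)) := by
          refine mul_le_mul (b1.trans ?_) ?_ (by positivity) (by positivity)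
          · gcongr
          · gcongr
      _ = _ := by
          field_simp
          ring
  calc _ = ∑ q ∈ Q, ∑ j ∈ Finset.range (J + 1), ∑ k ∈ Ks (2 ^ d), ∑ i ∈ Finset.range (2 ^ J),
        s.cm q k (asBl (asAB s M K' Ka Kb βb q k) ρ (i * 2 ^ j) ((i + 1) * 2 ^ j)) := by
        refine Finset.sum_congr rfl fun q _ => Finset.sum_congr rfl fun j _ => ?_
        rw [Finset.sum_comm]
    _ ≤ ∑ q ∈ Q, ∑ j ∈ Finset.range (J + 1), ∑ k ∈ Ks (2 ^ d), h k (tile (2 ^ d) k q) q :=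
        Finset.sum_le_sum fun q _ => Finset.sum_le_sum fun j _ => Finset.sum_le_sum fun k hk =>
          h1 q k hk j
    _ = (J + 1) * ∑ k ∈ Ks (2 ^ d), ∑ q ∈ Q, h k (tile (2 ^ d) k q) q := by
        rw [Finset.sum_comm]
        simp only [Finset.sum_const, Finset.card_range, nsmul_eq_mul]
        rw [Finset.sum_comm]
        push_cast
        rfl
    _ ≤ (J + 1) * ∑ k ∈ Ks (2 ^ d), C * (4 * Ka ^ 2 * βb) * ∑ T ∈ TT, ∑ l ∈ Mn k T, s.μ k T l :=
        mul_le_mul_of_nonneg_left (Finset.sum_le_sum h2) (by positivity)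
    _ = _ := by
        rw [← Finset.mul_sum]
        ring

/-! ### the good part -/

lemma as_totG (M : ℕ) (K' Ka Kb βb : ℝ) (Q TT : Finset (ℤ × ℤ))
    (hTT : ∀ k ∈ Ks (2 ^ d), ∀ q ∈ Q, tile (2 ^ d) k q ∈ TT) (Ja Jb : ℕ)
    (hJa : ∀ k ∈ Ks (2 ^ d), ∀ T, (asMain s M K' Ka Kb βb k T).card ≤ 2 ^ Ja) :
    ∑ q ∈ Q, ∑ j ∈ Finset.range (Jb + 1), ∑ i ∈ Finset.range (2 ^ Jb), ∑ k ∈ Ks (2 ^ d),
        s.cm q k (asBl (asAG s M K' Ka Kb βb q k) (asRk (asGood s M Kb q)) (i * 2 ^ j)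
          ((i + 1) * 2 ^ j)) ≤
      (Jb + 1) * (2 * (Ja + 1) * ((Ja + 1) * C)) * ∑ k ∈ Ks (2 ^ d), ∑ T ∈ TT,
        ∑ l ∈ asMain s M K' Ka Kb βb k T, s.μ k T l := by
  classical
  have hC := s.hC
  set Mn := asMain s M K' Ka Kb βb with hMn
  have h1 : ∀ q, ∀ k ∈ Ks (2 ^ d), ∀ j, ∑ i ∈ Finset.range (2 ^ Jb),
      s.cm q k (asBl (asAG s M K' Ka Kb βb q k) (asRk (asGood s M Kb q)) (i * 2 ^ j)
        ((i + 1) * 2 ^ j)) ≤
      2 * (Ja + 1) * ∑ j' ∈ Finset.range (Ja + 1), ∑ i ∈ Finset.range (2 ^ Ja),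
        s.cm q k (asBl (Mn k (tile (2 ^ d) k q)) (asRk (Mn k (tile (2 ^ d) k q))) (i * 2 ^ j')
          ((i + 1) * 2 ^ j')) := by
    intro q k hk j
    by_cases hb : q ∈ asBad s M K' Ka Kb βb k (tile (2 ^ d) k q)
    · have e1 : asAG s M K' Ka Kb βb q k = ∅ := by
        unfold asAG
        rw [if_pos hb]
      have e2 : ∀ i ∈ Finset.range (2 ^ Jb), s.cm q k (asBl (asAG s M K' Ka Kb βb q k)
          (asRk (asGood s M Kb q)) (i * 2 ^ j) ((i + 1) * 2 ^ j)) = 0 := by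
        intro i _
        rw [e1, as_bl_empty, as_cm_empty s k hk q]
      rw [Finset.sum_eq_zero e2]
      exact mul_nonneg (by positivity) (Finset.sum_nonneg fun _ _ => Finset.sum_nonneg fun _ _ =>
        s.cm_nonneg _ _ _)
    · have e1 : asAG s M K' Ka Kb βb q k = Mn k (tile (2 ^ d) k q) := by
        unfold asAG
        rw [if_neg hb]
      rw [e1]
      exact as_pass s k hk q _ _ (as_rk_mono _) Ja (hJa k hk _) j _
  calc _ = ∑ q ∈ Q, ∑ j ∈ Finset.range (Jb + 1), ∑ k ∈ Ks (2 ^ d), ∑ i ∈ Finset.range (2 ^ Jb),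
        s.cm q k (asBl (asAG s M K' Ka Kb βb q k) (asRk (asGood s M Kb q)) (i * 2 ^ j)
          ((i + 1) * 2 ^ j)) := by
        refine Finset.sum_congr rfl fun q _ => Finset.sum_congr rfl fun j _ => ?_
        rw [Finset.sum_comm]
    _ ≤ ∑ q ∈ Q, ∑ j ∈ Finset.range (Jb + 1), ∑ k ∈ Ks (2 ^ d),
          2 * (Ja + 1) * ∑ j' ∈ Finset.range (Ja + 1), ∑ i ∈ Finset.range (2 ^ Ja),
          s.cm q k (asBl (Mn k (tile (2 ^ d) k q)) (asRk (Mn k (tile (2 ^ d) k q))) (i * 2 ^ j')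
            ((i + 1) * 2 ^ j')) :=
        Finset.sum_le_sum fun q _ => Finset.sum_le_sum fun j _ => Finset.sum_le_sum fun k hk =>
          h1 q k hk j
    _ = (Jb + 1) * (2 * (Ja + 1) * ∑ q ∈ Q, ∑ j' ∈ Finset.range (Ja + 1),
          ∑ i ∈ Finset.range (2 ^ Ja), ∑ k ∈ Ks (2 ^ d),
          s.cm q k (asBl (Mn k (tile (2 ^ d) k q)) (asRk (Mn k (tile (2 ^ d) k q))) (i * 2 ^ j')
            ((i + 1) * 2 ^ j'))) := by
        rw [Finset.mul_sum, Finset.mul_sum]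
        refine Finset.sum_congr rfl fun q _ => ?_
        rw [Finset.sum_const, Finset.card_range, nsmul_eq_mul, ← Finset.mul_sum]
        push_cast
        congr 2
        rw [Finset.sum_comm]
        refine Finset.sum_congr rfl fun j' _ => ?_
        rw [Finset.sum_comm]
    _ ≤ (Jb + 1) * (2 * (Ja + 1) * ((Ja + 1) * C * ∑ k ∈ Ks (2 ^ d), ∑ T ∈ TT,
          ∑ l ∈ Mn k T, s.μ k T l)) := by
        have := as_tot s Q TT hTT Mn (fun k T => asRk (Mn k T)) Ja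
        gcongr
    _ = _ := by ring

/-! ### one cell -/

open Classical in
/-- the other windows -/
def asRest (M : ℕ) (K' Ka Kb βb : ℝ) (k : ℤ) (T : ℤ × ℤ) : Finset ℕ :=
  Finset.range M \ asMain s M K' Ka Kb βb k T

lemma as_cell (M : ℕ) (K' Ka Kb βb : ℝ) (q : ℤ × ℤ) (J Jb : ℕ) (hJ : M ≤ 2 ^ J)
    (hJb : (asGood s M Kb q).card ≤ 2 ^ Jb) (m : ℝ × ℝ → ℕ) (hm : ∀ x, m x ≤ M) :
    ∫ x in cell (2 ^ d) q, ‖∑ l ∈ Finset.range (m x), ∑ k ∈ Ks (2 ^ d), s.F l k x‖ ^ 2 ≤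
      3 * ((J + 1) * ∑ j ∈ Finset.range (J + 1), ∑ i ∈ Finset.range (2 ^ J),
        C * ∑ k ∈ Ks (2 ^ d), s.cm q k (asBl (asRest s M K' Ka Kb βb k (tile (2 ^ d) k q)) id
          (i * 2 ^ j) ((i + 1) * 2 ^ j))) +
      3 * ((J + 1) * ∑ j ∈ Finset.range (J + 1), ∑ i ∈ Finset.range (2 ^ J),
        C * ∑ k ∈ Ks (2 ^ d), s.cm q k (asBl (asAB s M K' Ka Kb βb q k) id
          (i * 2 ^ j) ((i + 1) * 2 ^ j))) +
      3 * ((Jb + 1) * ∑ j ∈ Finset.range (Jb + 1), ∑ i ∈ Finset.range (2 ^ Jb),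
        C * ∑ k ∈ Ks (2 ^ d), s.cm q k (asBl (asAG s M K' Ka Kb βb q k) (asRk (asGood s M Kb q))
          (i * 2 ^ j) ((i + 1) * 2 ^ j))) := by
  classical
  have hD : 1 ≤ 2 ^ d := Nat.one_le_two_pow
  set AR : ℤ → Finset ℕ := fun k => asRest s M K' Ka Kb βb k (tile (2 ^ d) k q) with hAR
  set AB : ℤ → Finset ℕ := asAB s M K' Ka Kb βb q with hAB
  set AG : ℤ → Finset ℕ := asAG s M K' Ka Kb βb q with hAG
  set Mn := asMain s M K' Ka Kb βb with hMn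
  have hMnr : ∀ k T, Mn k T ⊆ Finset.range M := fun k T => Finset.filter_subset _ _
  have cR := as_phi_cont s AR id J
  have cB := as_phi_cont s AB id J
  have cG := as_phi_cont s AG (asRk (asGood s M Kb q)) Jb
  have iR := tl_cell_int (2 ^ d) hD q (cR.const_mul 3)
  have iB := tl_cell_int (2 ^ d) hD q (cB.const_mul 3)
  have iG := tl_cell_int (2 ^ d) hD q (cG.const_mul 3)
  have key : ∀ x, ‖∑ l ∈ Finset.range (m x), ∑ k ∈ Ks (2 ^ d), s.F l k x‖ ^ 2 ≤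
      3 * asPhi s AR id J x + 3 * asPhi s AB id J x +
        3 * asPhi s AG (asRk (asGood s M Kb q)) Jb x := by
    intro x
    have h1 := as_phi_bd s AR (Finset.range M) (fun k _ => Finset.sdiff_subset) id J (m x) (m x)
      (fun l _ => Iff.rfl) ((hm x).trans hJ) x
    have h2 := as_phi_bd s AB (Finset.range M) (fun k _ => by
      rw [hAB]
      unfold asAB
      split_ifs
      · exact hMnr _ _
      · exact Finset.empty_subset _) id J (m x) (m x)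
      (fun l _ => Iff.rfl) ((hm x).trans hJ) x
    have h3 := as_phi_bd s AG (asGood s M Kb q) (fun k hk => by
      rw [hAG]
      unfold asAG
      split_ifs with hb
      · exact Finset.empty_subset _
      · intro l hl
        have hq : q ∈ cells (2 ^ d) k (tile (2 ^ d) k q) :=
          (tl_mem_cells (2 ^ d) hD k _ q).2 rfl
        rw [as_mem_good]
        refine ⟨hMnr _ _ hl, as_sigT_pos s M K' Ka Kb βb k hk _ q hq l hl, ?_⟩
        by_contra hcon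
        exact hb ((as_mem_bad s M K' Ka Kb βb k _ q).2 ⟨hq, l, hl, not_le.1 hcon⟩))
      (asRk (asGood s M Kb q)) Jb (m x) (asRk (asGood s M Kb q) (m x))
      (fun l hl => as_rk_lt _ l (m x) hl) ((as_rk_le _ _).trans hJb) x
    have h4 : ∑ l ∈ Finset.range (m x), ∑ k ∈ Ks (2 ^ d), s.F l k x =
        ∑ k ∈ Ks (2 ^ d), ∑ l ∈ (AR k).filter (fun l => l < m x), s.F l k x +
        ∑ k ∈ Ks (2 ^ d), ∑ l ∈ (AB k).filter (fun l => l < m x), s.F l k x +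
        ∑ k ∈ Ks (2 ^ d), ∑ l ∈ (AG k).filter (fun l => l < m x), s.F l k x := by
      rw [Finset.sum_comm, ← Finset.sum_add_distrib, ← Finset.sum_add_distrib]
      refine Finset.sum_congr rfl fun k _ => ?_
      have h5 : ∑ l ∈ (AB k).filter (fun l => l < m x), s.F l k x +
          ∑ l ∈ (AG k).filter (fun l => l < m x), s.F l k x =
          ∑ l ∈ (Mn k (tile (2 ^ d) k q)).filter (fun l => l < m x), s.F l k x := by
        rw [hAB, hAG]
        unfold asAB asAG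
        split_ifs
        · simp
          rfl
        · simp
          rfl
      rw [add_assoc, h5, ← Finset.sum_union]
      · refine Finset.sum_congr ?_ fun _ _ => rfl
        ext l
        simp only [hAR, asRest, Finset.mem_range, Finset.mem_union, Finset.mem_filter,
          Finset.mem_sdiff]
        have h6 := hm x
        have h7 : l ∈ Mn k (tile (2 ^ d) k q) → l < M := fun h => Finset.mem_range.1 (hMnr _ _ h)
        constructor
        · intro h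
          by_cases h8 : l ∈ Mn k (tile (2 ^ d) k q)
          · exact Or.inr ⟨h8, h⟩
          · exact Or.inl ⟨⟨by omega, h8⟩, h⟩
        · rintro (⟨-, h⟩ | ⟨-, h⟩) <;> exact h
      · rw [Finset.disjoint_left]
        intro l h6 h7
        have h8 := (Finset.mem_sdiff.1 (Finset.mem_filter.1 h6).1).2
        exact h8 (Finset.mem_filter.1 h7).1
    rw [h4]
    set a := ∑ k ∈ Ks (2 ^ d), ∑ l ∈ (AR k).filter (fun l => l < m x), s.F l k x
    set b := ∑ k ∈ Ks (2 ^ d), ∑ l ∈ (AB k).filter (fun l => l < m x), s.F l k x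
    set c := ∑ k ∈ Ks (2 ^ d), ∑ l ∈ (AG k).filter (fun l => l < m x), s.F l k x
    have h5 : ‖a + b + c‖ ≤ ‖a‖ + ‖b‖ + ‖c‖ := norm_add₃_le
    have h6 : ‖a + b + c‖ ^ 2 ≤ (‖a‖ + ‖b‖ + ‖c‖) ^ 2 := pow_le_pow_left₀ (norm_nonneg _) h5 2
    nlinarith [sq_nonneg (‖a‖ - ‖b‖), sq_nonneg (‖b‖ - ‖c‖), sq_nonneg (‖a‖ - ‖c‖)]
  have hI : IntegrableOn (fun x => 3 * asPhi s AR id J x + 3 * asPhi s AB id J x +
        3 * asPhi s AG (asRk (asGood s M Kb q)) Jb x) (cell (2 ^ d) q) := (iR.add iB).add iG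
  calc _ ≤ ∫ x in cell (2 ^ d) q, (3 * asPhi s AR id J x + 3 * asPhi s AB id J x +
        3 * asPhi s AG (asRk (asGood s M Kb q)) Jb x) :=
        integral_mono_of_nonneg (Filter.Eventually.of_forall fun x => by positivity) hI
          (Filter.Eventually.of_forall key)
    _ = 3 * (∫ x in cell (2 ^ d) q, asPhi s AR id J x) +
        3 * (∫ x in cell (2 ^ d) q, asPhi s AB id J x) +
        3 * (∫ x in cell (2 ^ d) q, asPhi s AG (asRk (asGood s M Kb q)) Jb x) := by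
        have hI2 : IntegrableOn (fun x => 3 * asPhi s AR id J x + 3 * asPhi s AB id J x)
          (cell (2 ^ d) q) := iR.add iB
        rw [integral_add hI2 iG, integral_add iR iB, integral_const_mul,
          integral_const_mul, integral_const_mul]
    _ ≤ _ := by
        have e1 := as_phi_int s AR id J q
        have e2 := as_phi_int s AB id J q
        have e3 := as_phi_int s AG (asRk (asGood s M Kb q)) Jb q
        gcongr

/-! ### the rest -/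

lemma as_rest (M : ℕ) (K' Ka Kb βb ε : ℝ) (hK' : 0 < K') (TT : Finset (ℤ × ℤ))
    (ha : ∀ P : Finset (ℤ × (ℤ × ℤ) × ℕ), P ⊆ Ks (2 ^ d) ×ˢ (TT ×ˢ Finset.range M) →
      (∀ p ∈ P, s.μ' p.1 p.2.1 p.2.2 ≤ K' * s.μ p.1 p.2.1 p.2.2) →
      (∀ p ∈ P, 1 / 2 * 2 ^ d ≤ ((s.low M Ka p.1 p.2.1 p.2.2).card : ℝ)) →
      ∑ p ∈ P, s.μ p.1 p.2.1 p.2.2 ≤ ε * ∫ x, ‖s.g x‖ ^ 2)
    (hb : ∀ P : Finset (ℤ × (ℤ × ℤ) × ℕ), P ⊆ Ks (2 ^ d) ×ˢ (TT ×ˢ Finset.range M) →
      (∀ p ∈ P, s.μ' p.1 p.2.1 p.2.2 ≤ K' * s.μ p.1 p.2.1 p.2.2) →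
      (∀ p ∈ P, βb * 2 ^ d ≤ ((s.low M Kb p.1 p.2.1 p.2.2).card : ℝ)) →
      ∑ p ∈ P, s.μ p.1 p.2.1 p.2.2 ≤ ε * ∫ x, ‖s.g x‖ ^ 2) :
    ∑ k ∈ Ks (2 ^ d), ∑ T ∈ TT, ∑ l ∈ asRest s M K' Ka Kb βb k T, s.μ k T l ≤
      (C / K' + 2 * ε) * ∫ x, ‖s.g x‖ ^ 2 := by
  classical
  have hC := s.hC
  set G2 := ∫ x, ‖s.g x‖ ^ 2 with hG2
  set P0 : Finset (ℤ × (ℤ × ℤ) × ℕ) := Ks (2 ^ d) ×ˢ (TT ×ˢ Finset.range M) with hP0
  set Pa := P0.filter fun p => s.μ' p.1 p.2.1 p.2.2 ≤ K' * s.μ p.1 p.2.1 p.2.2 ∧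
    1 / 2 * 2 ^ d ≤ ((s.low M Ka p.1 p.2.1 p.2.2).card : ℝ) with hPa
  set Pb := P0.filter fun p => s.μ' p.1 p.2.1 p.2.2 ≤ K' * s.μ p.1 p.2.1 p.2.2 ∧
    βb * 2 ^ d ≤ ((s.low M Kb p.1 p.2.1 p.2.2).card : ℝ) with hPb
  have h1 := ha Pa (Finset.filter_subset _ _) (fun p hp => (Finset.mem_filter.1 hp).2.1)
    (fun p hp => (Finset.mem_filter.1 hp).2.2)
  have h2 := hb Pb (Finset.filter_subset _ _) (fun p hp => (Finset.mem_filter.1 hp).2.1)
    (fun p hp => (Finset.mem_filter.1 hp).2.2)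
  have h3 : ∑ p ∈ P0, s.μ' p.1 p.2.1 p.2.2 ≤ C * G2 := by
    have := tl_A4sum s M (fun _ => Ks (2 ^ d) ×ˢ TT) (fun l _ P hP => (Finset.mem_product.1 hP).1)
    refine le_trans (le_of_eq ?_) this
    calc ∑ p ∈ P0, s.μ' p.1 p.2.1 p.2.2 = ∑ k ∈ Ks (2 ^ d), ∑ T ∈ TT, ∑ l ∈ Finset.range M,
          s.μ' k T l := by simp only [hP0, Finset.sum_product]
      _ = ∑ k ∈ Ks (2 ^ d), ∑ l ∈ Finset.range M, ∑ T ∈ TT, s.μ' k T l :=
          Finset.sum_congr rfl fun k _ => Finset.sum_comm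
      _ = ∑ l ∈ Finset.range M, ∑ k ∈ Ks (2 ^ d), ∑ T ∈ TT, s.μ' k T l := Finset.sum_comm
      _ = _ := by simp only [Finset.sum_product]
  have h4 : ∑ k ∈ Ks (2 ^ d), ∑ T ∈ TT, ∑ l ∈ asRest s M K' Ka Kb βb k T, s.μ k T l =
      ∑ p ∈ P0, if p.2.2 ∈ asRest s M K' Ka Kb βb p.1 p.2.1 then s.μ p.1 p.2.1 p.2.2 else 0 := by
    simp only [hP0, Finset.sum_product]
    refine Finset.sum_congr rfl fun k _ => Finset.sum_congr rfl fun T _ => ?_
    rw [← Finset.sum_filter]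
    refine Finset.sum_congr ?_ fun _ _ => rfl
    ext l
    rw [Finset.mem_filter]
    constructor
    · intro h
      exact ⟨(Finset.mem_sdiff.1 h).1, h⟩
    · exact fun h => h.2
  have h5 : ∀ p ∈ P0, (if p.2.2 ∈ asRest s M K' Ka Kb βb p.1 p.2.1 then
      s.μ p.1 p.2.1 p.2.2 else 0) ≤ 1 / K' * s.μ' p.1 p.2.1 p.2.2 +
      (if s.μ' p.1 p.2.1 p.2.2 ≤ K' * s.μ p.1 p.2.1 p.2.2 ∧
        1 / 2 * 2 ^ d ≤ ((s.low M Ka p.1 p.2.1 p.2.2).card : ℝ) then s.μ p.1 p.2.1 p.2.2 else 0) +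
      (if s.μ' p.1 p.2.1 p.2.2 ≤ K' * s.μ p.1 p.2.1 p.2.2 ∧
        βb * 2 ^ d ≤ ((s.low M Kb p.1 p.2.1 p.2.2).card : ℝ) then s.μ p.1 p.2.1 p.2.2 else 0) := by
    intro p _
    have n1 := s.μ_nonneg p.1 p.2.1 p.2.2
    have n2 := tl_mu'_nonneg s p.1 p.2.1 p.2.2
    have n3 : 0 ≤ 1 / K' * s.μ' p.1 p.2.1 p.2.2 := by positivity
    have n4 : 0 ≤ (if s.μ' p.1 p.2.1 p.2.2 ≤ K' * s.μ p.1 p.2.1 p.2.2 ∧
        1 / 2 * 2 ^ d ≤ ((s.low M Ka p.1 p.2.1 p.2.2).card : ℝ) then s.μ p.1 p.2.1 p.2.2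
        else 0) := by split_ifs; exacts [n1, le_rfl]
    have n5 : 0 ≤ (if s.μ' p.1 p.2.1 p.2.2 ≤ K' * s.μ p.1 p.2.1 p.2.2 ∧
        βb * 2 ^ d ≤ ((s.low M Kb p.1 p.2.1 p.2.2).card : ℝ) then s.μ p.1 p.2.1 p.2.2
        else 0) := by split_ifs; exacts [n1, le_rfl]
    by_cases hr : p.2.2 ∈ asRest s M K' Ka Kb βb p.1 p.2.1
    · rw [if_pos hr]
      obtain ⟨r1, r2⟩ := Finset.mem_sdiff.1 hr
      rw [as_mem_main] at r2
      rcases n1.eq_or_lt with h0 | hpos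
      · rw [← h0] at n4 n5 ⊢
        linarith
      · by_cases hreg : s.μ' p.1 p.2.1 p.2.2 ≤ K' * s.μ p.1 p.2.1 p.2.2
        · by_cases hA : 1 / 2 * 2 ^ d ≤ ((s.low M Ka p.1 p.2.1 p.2.2).card : ℝ)
          · rw [if_pos (⟨hreg, hA⟩ : _ ∧ _)]
            linarith
          · by_cases hB : βb * 2 ^ d ≤ ((s.low M Kb p.1 p.2.1 p.2.2).card : ℝ)
            · rw [if_pos (⟨hreg, hB⟩ : s.μ' p.1 p.2.1 p.2.2 ≤ K' * s.μ p.1 p.2.1 p.2.2 ∧
                βb * 2 ^ d ≤ ((s.low M Kb p.1 p.2.1 p.2.2).card : ℝ))]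
              linarith
            · exact absurd ⟨r1, hpos, hreg, not_le.1 hA, not_le.1 hB⟩ r2
        · have h6 : s.μ p.1 p.2.1 p.2.2 ≤ 1 / K' * s.μ' p.1 p.2.1 p.2.2 := by
            rw [not_le] at hreg
            rw [one_div, ← div_eq_inv_mul, le_div_iff₀ hK']
            linarith
          linarith
    · rw [if_neg hr]
      linarith
  rw [h4]
  refine (Finset.sum_le_sum h5).trans ?_
  rw [Finset.sum_add_distrib, Finset.sum_add_distrib, ← Finset.mul_sum, ← Finset.sum_filter,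
    ← Finset.sum_filter]
  have h6 : 1 / K' * ∑ p ∈ P0, s.μ' p.1 p.2.1 p.2.2 ≤ 1 / K' * (C * G2) :=
    mul_le_mul_of_nonneg_left h3 (by positivity)
  calc _ ≤ 1 / K' * (C * G2) + ε * G2 + ε * G2 := add_le_add (add_le_add h6 h1) h2
    _ = _ := by ring

end sys

/-! ### numbers -/

lemma as_lg_one (n : ℕ) : 1 ≤ lg n := by
  unfold lg
  rw [Real.le_log_iff_exp_le (by positivity)]
  have := Real.exp_one_lt_d9
  have h : (0 : ℝ) ≤ n := by positivity
  linarith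

lemma as_pow2 (c₀ : ℝ) (hc : 1 ≤ c₀) (e : ℕ) : ∃ c : ℝ, 0 < c ∧ ∀ n : ℕ, ∃ J : ℕ,
    c₀ * (n + 1 : ℝ) ^ e ≤ 2 ^ J ∧ (J : ℝ) + 1 ≤ c * lg n := by
  have hl2 : 0 < Real.log 2 := Real.log_pos (by norm_num)
  have hlc : 0 ≤ Real.log c₀ := Real.log_nonneg hc
  refine ⟨(Real.log c₀ + e) / Real.log 2 + 2, by positivity, fun n => ?_⟩
  have hn : (0 : ℝ) ≤ n := by positivity
  set X := c₀ * (n + 1 : ℝ) ^ e with hX
  have hX0 : 0 < X := by positivity
  have hX1 : 1 ≤ X := by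
    have : (1 : ℝ) ≤ (n + 1 : ℝ) ^ e := one_le_pow₀ (by linarith)
    nlinarith
  have hlX : 0 ≤ Real.log X := Real.log_nonneg hX1
  refine ⟨⌈Real.log X / Real.log 2⌉₊, ?_, ?_⟩
  · have h1 := Nat.le_ceil (Real.log X / Real.log 2)
    rw [div_le_iff₀ hl2, ← Real.log_pow] at h1
    exact (Real.log_le_log_iff hX0 (by positivity)).1 h1
  · have h1 := Nat.ceil_lt_add_one (div_nonneg hlX hl2.le)
    have h2 : Real.log X ≤ Real.log c₀ + e * lg n := by
      rw [hX, Real.log_mul (by positivity) (by positivity), Real.log_pow]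
      have h3 : Real.log (n + 1 : ℝ) ≤ lg n := by
        unfold lg
        exact Real.log_le_log (by positivity) (by linarith)
      gcongr
    have h3 := as_lg_one n
    have h4 : Real.log X / Real.log 2 ≤ (Real.log c₀ + e) / Real.log 2 * lg n := by
      rw [div_mul_eq_mul_div]
      gcongr
      have : Real.log c₀ ≤ Real.log c₀ * lg n := le_mul_of_one_le_right hlc h3
      linarith
    calc (⌈Real.log X / Real.log 2⌉₊ : ℝ) + 1 ≤ Real.log X / Real.log 2 + 2 := by linarith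
      _ ≤ (Real.log c₀ + e) / Real.log 2 * lg n + 2 * lg n := by linarith
      _ = _ := by ring

lemma as_card_Ks (n d : ℕ) (hd : d ≤ n) : ((Ks (2 ^ d)).card : ℝ) ≤ 2 ^ (n + 5) := by
  have h1 : (Ks (2 ^ d)).card = 18 * 2 ^ d + 1 := by
    unfold Ks
    rw [Int.card_Icc]
    generalize (2 : ℕ) ^ d = D
    omega
  have h2 : 2 ^ d ≤ 2 ^ n := Nat.pow_le_pow_right (by norm_num) hd
  have h3 : 18 * 2 ^ d + 1 ≤ 2 ^ (n + 5) := by
    rw [pow_add]
    have : 1 ≤ 2 ^ n := Nat.one_le_two_pow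
    omega
  rw [h1]
  exact_mod_cast h3

lemma as_condA (C₁ N : ℝ) (hN : 0 < N) :
    C₁ * N ^ 7 * (N ^ 2) ^ 4 / ((1 / 2) ^ 3 * (1 / N ^ 2) ^ 5) ≤ 8 * C₁ * N ^ 25 := by
  refine le_of_eq ?_
  field_simp
  ring

lemma as_condB (C₁ N Ka : ℝ) (hN : 0 < N) (hKa : 0 < Ka) :
    C₁ * N ^ 7 * (N ^ 2) ^ 4 / ((1 / (N ^ 2 * Ka ^ 2)) ^ 3 * (1 / N ^ 2) ^ 5) ≤
      C₁ * N ^ 31 * Ka ^ 6 := by
  refine le_of_eq ?_
  field_simp

lemma as_final {C : ℝ} {d : ℕ} (s : Sys C d) (M : ℕ) (K' Ka Kb βb : ℝ) (hKa : 0 ≤ Ka)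
    (hβb : 0 ≤ βb) (Q TT : Finset (ℤ × ℤ))
    (hTT : ∀ k ∈ Ks (2 ^ d), ∀ q ∈ Q, tile (2 ^ d) k q ∈ TT) (J Ja Jb : ℕ) (hJ : M ≤ 2 ^ J)
    (hJa : ∀ k ∈ Ks (2 ^ d), ∀ T, (asMain s M K' Ka Kb βb k T).card ≤ 2 ^ Ja)
    (hJb : ∀ q, (asGood s M Kb q).card ≤ 2 ^ Jb) (m : ℝ × ℝ → ℕ) (hm : ∀ x, m x ≤ M) (rest : ℝ)
    (hrest : ∑ k ∈ Ks (2 ^ d), ∑ T ∈ TT, ∑ l ∈ asRest s M K' Ka Kb βb k T, s.μ k T l ≤ rest) :
    ∑ q ∈ Q, ∫ x in cell (2 ^ d) q,
        ‖∑ l ∈ Finset.range (m x), ∑ k ∈ Ks (2 ^ d), s.F l k x‖ ^ 2 ≤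
      3 * ((J + 1) * (C * ((J + 1) * C * rest))) +
      3 * ((J + 1) * (C * ((J + 1) * (C * (4 * Ka ^ 2 * βb)) * (C * ∫ x, ‖s.g x‖ ^ 2)))) +
      3 * ((Jb + 1) * (C * ((Jb + 1) * (2 * (Ja + 1) * ((Ja + 1) * C)) *
        (C * ∫ x, ‖s.g x‖ ^ 2)))) := by
  classical
  have hC := s.hC
  set G2 := ∫ x, ‖s.g x‖ ^ 2 with hG2
  have hG20 : 0 ≤ G2 := integral_nonneg fun x => by positivity
  have h1 := Finset.sum_le_sum fun q (_ : q ∈ Q) =>
    as_cell s M K' Ka Kb βb q J Jb hJ (hJb q) m hm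
  refine h1.trans ?_
  rw [Finset.sum_add_distrib, Finset.sum_add_distrib]
  have hmain : ∑ k ∈ Ks (2 ^ d), ∑ T ∈ TT, ∑ l ∈ asMain s M K' Ka Kb βb k T, s.μ k T l ≤
      C * G2 := by
    have h2 := tl_A4sum s M (fun _ => Ks (2 ^ d) ×ˢ TT)
      (fun l _ P hP => (Finset.mem_product.1 hP).1)
    refine le_trans ?_ h2
    calc _ ≤ ∑ k ∈ Ks (2 ^ d), ∑ T ∈ TT, ∑ l ∈ Finset.range M, s.μ' k T l := by
          refine Finset.sum_le_sum fun k _ => Finset.sum_le_sum fun T _ => ?_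
          calc _ ≤ ∑ l ∈ asMain s M K' Ka Kb βb k T, s.μ' k T l :=
                Finset.sum_le_sum fun l _ => s.μ_le _ _ _
            _ ≤ _ := Finset.sum_le_sum_of_subset_of_nonneg (Finset.filter_subset _ _)
                fun _ _ _ => tl_mu'_nonneg s _ _ _
      _ = ∑ k ∈ Ks (2 ^ d), ∑ l ∈ Finset.range M, ∑ T ∈ TT, s.μ' k T l :=
          Finset.sum_congr rfl fun k _ => Finset.sum_comm
      _ = ∑ l ∈ Finset.range M, ∑ k ∈ Ks (2 ^ d), ∑ T ∈ TT, s.μ' k T l := Finset.sum_comm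
      _ = _ := by simp only [Finset.sum_product]
  -- pull out the constants
  have hpull : ∀ (J : ℕ) (f : ℤ × ℤ → ℕ → ℕ → ℤ → ℝ) (B : ℝ),
      ∑ q ∈ Q, ∑ j ∈ Finset.range (J + 1), ∑ i ∈ Finset.range (2 ^ J), ∑ k ∈ Ks (2 ^ d),
        f q j i k ≤ B →
      ∑ q ∈ Q, 3 * ((J + 1 : ℝ) * ∑ j ∈ Finset.range (J + 1), ∑ i ∈ Finset.range (2 ^ J),
        C * ∑ k ∈ Ks (2 ^ d), f q j i k) ≤ 3 * ((J + 1) * (C * B)) := by
    intro J f B hB
    have e : ∑ q ∈ Q, 3 * ((J + 1 : ℝ) * ∑ j ∈ Finset.range (J + 1), ∑ i ∈ Finset.range (2 ^ J),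
        C * ∑ k ∈ Ks (2 ^ d), f q j i k) = 3 * ((J + 1) * (C * ∑ q ∈ Q,
        ∑ j ∈ Finset.range (J + 1), ∑ i ∈ Finset.range (2 ^ J), ∑ k ∈ Ks (2 ^ d),
        f q j i k)) := by
      simp only [← Finset.mul_sum]
    rw [e]
    gcongr
  refine add_le_add (add_le_add ?_ ?_) ?_
  · refine hpull J (fun q j i k => s.cm q k (asBl (asRest s M K' Ka Kb βb k (tile (2 ^ d) k q)) id
      (i * 2 ^ j) ((i + 1) * 2 ^ j))) _ ?_
    refine (as_tot s Q TT hTT (asRest s M K' Ka Kb βb) (fun _ _ => id) J).trans ?_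
    gcongr
  · refine hpull J (fun q j i k => s.cm q k (asBl (asAB s M K' Ka Kb βb q k) id
      (i * 2 ^ j) ((i + 1) * 2 ^ j))) _ ?_
    refine (as_totB s M K' Ka Kb βb hKa hβb Q TT hTT id J).trans ?_
    gcongr
  · refine hpull Jb (fun q j i k => s.cm q k (asBl (asAG s M K' Ka Kb βb q k)
      (asRk (asGood s M Kb q)) (i * 2 ^ j) ((i + 1) * 2 ^ j))) _ ?_
    refine (as_totG s M K' Ka Kb βb Q TT hTT Ja Jb hJa).trans ?_
    gcongr

lemma as_cardP (n d : ℕ) (hdn : d ≤ n) (Q TT : Finset (ℤ × ℤ))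
    (hQ : (Q.card : ℝ) ≤ 2 ^ (20 * (n + 1)))
    (hTT : TT = (Ks (2 ^ d)).biUnion fun k => Q.image (tile (2 ^ d) k))
    (P : Finset (ℤ × (ℤ × ℤ) × ℕ))
    (hP : P ⊆ Ks (2 ^ d) ×ˢ (TT ×ˢ Finset.range (64 * 4 ^ n))) :
    (P.card : ℝ) ≤ 2 ^ (40 * (n + 1)) := by
  classical
  have hMpow : ((64 * 4 ^ n : ℕ) : ℝ) = 2 ^ (2 * n + 6) := by
    push_cast
    rw [pow_add, pow_mul]
    norm_num
    ring
  have h1 : (P.card : ℝ) ≤ (Ks (2 ^ d)).card * (TT.card * ((64 * 4 ^ n : ℕ) : ℝ)) := by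
    have := Finset.card_le_card hP
    rw [Finset.card_product, Finset.card_product, Finset.card_range] at this
    exact_mod_cast this
  have h2 : (TT.card : ℝ) ≤ (Ks (2 ^ d)).card * Q.card := by
    have h3 : TT.card ≤ ∑ k ∈ Ks (2 ^ d), (Q.image (tile (2 ^ d) k)).card := by
      rw [hTT]
      exact Finset.card_biUnion_le
    have h4 : ∑ k ∈ Ks (2 ^ d), (Q.image (tile (2 ^ d) k)).card ≤ ∑ k ∈ Ks (2 ^ d), Q.card :=
      Finset.sum_le_sum fun k _ => Finset.card_image_le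
    rw [Finset.sum_const, smul_eq_mul] at h4
    exact_mod_cast h3.trans h4
  have h3 := as_card_Ks n d hdn
  calc (P.card : ℝ) ≤ (Ks (2 ^ d)).card * (TT.card * ((64 * 4 ^ n : ℕ) : ℝ)) := h1
    _ ≤ 2 ^ (n + 5) * ((2 ^ (n + 5) * 2 ^ (20 * (n + 1))) * 2 ^ (2 * n + 6)) := by
        rw [hMpow]
        gcongr
        exact h2.trans (by gcongr)
    _ = 2 ^ (24 * n + 36) := by
        rw [← pow_add, ← pow_add, ← pow_add]
        congr 1
        ring
    _ ≤ _ := pow_le_pow_right₀ (by norm_num) (by omega)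

/-- the final computation -/
lemma as_numbers (C ca cb N lgn G2 Ka βb J Ja Jb rest : ℝ) (hC : 1 ≤ C) (hN : 1 ≤ N)
    (hl : 1 ≤ lgn) (hG : 0 ≤ G2) (hKa : 0 < Ka) (hβ : βb = 1 / (N ^ 2 * Ka ^ 2))
    (hJ0 : 0 ≤ J) (hJa0 : 0 ≤ Ja) (hJb0 : 0 ≤ Jb) (hca : 0 < ca) (hcb : 0 < cb)
    (hJ : J ≤ 7 * N) (hJa : Ja ≤ ca * lgn) (hJb : Jb ≤ cb * lgn)
    (hrest : rest = (C / N ^ 2 + 2 * (1 / N ^ 2)) * G2) :
    3 * (J * (C * (J * C * rest))) + 3 * (J * (C * (J * (C * (4 * Ka ^ 2 * βb)) * (C * G2)))) +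
      3 * (Jb * (C * (Jb * (2 * Ja * (Ja * C)) * (C * G2)))) ≤
    3 * (49 * C ^ 2 * (C + 2) + 196 * C ^ 3 + 2 * C ^ 3 * ca ^ 2 * cb ^ 2) * lgn ^ 4 * G2 := by
  have hN0 : 0 < N := by linarith
  have hC0 : 0 < C := by linarith
  have hJ2 : J ^ 2 ≤ 49 * N ^ 2 := by
    calc J ^ 2 ≤ (7 * N) ^ 2 := pow_le_pow_left₀ hJ0 hJ 2
      _ = _ := by ring
  have hl4 : 1 ≤ lgn ^ 4 := one_le_pow₀ hl
  have t1 : 3 * (J * (C * (J * C * rest))) ≤ 3 * (49 * C ^ 2 * (C + 2)) * G2 := by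
    have e : 3 * (J * (C * (J * C * rest))) = 3 * C ^ 2 * (C + 2) * (J ^ 2 / N ^ 2) * G2 := by
      rw [hrest]
      field_simp
    have e2 : J ^ 2 / N ^ 2 ≤ 49 := by
      rw [div_le_iff₀ (by positivity)]
      exact hJ2
    rw [e]
    calc _ ≤ 3 * C ^ 2 * (C + 2) * 49 * G2 := by gcongr
      _ = _ := by ring
  have t2 : 3 * (J * (C * (J * (C * (4 * Ka ^ 2 * βb)) * (C * G2)))) ≤
      3 * (196 * C ^ 3) * G2 := by
    have e : 3 * (J * (C * (J * (C * (4 * Ka ^ 2 * βb)) * (C * G2)))) =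
        12 * C ^ 3 * (J ^ 2 / N ^ 2) * G2 := by
      rw [hβ]
      field_simp
      ring
    have e2 : J ^ 2 / N ^ 2 ≤ 49 := by
      rw [div_le_iff₀ (by positivity)]
      exact hJ2
    rw [e]
    calc _ ≤ 12 * C ^ 3 * 49 * G2 := by gcongr
      _ = _ := by ring
  have t3 : 3 * (Jb * (C * (Jb * (2 * Ja * (Ja * C)) * (C * G2)))) ≤
      3 * (2 * C ^ 3 * ca ^ 2 * cb ^ 2) * lgn ^ 4 * G2 := by
    have e : 3 * (Jb * (C * (Jb * (2 * Ja * (Ja * C)) * (C * G2)))) =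
        6 * C ^ 3 * (Ja ^ 2 * Jb ^ 2) * G2 := by ring
    rw [e]
    calc _ ≤ 6 * C ^ 3 * ((ca * lgn) ^ 2 * (cb * lgn) ^ 2) * G2 := by gcongr
      _ = _ := by ring
  have u1 : 3 * (49 * C ^ 2 * (C + 2)) * G2 ≤ 3 * (49 * C ^ 2 * (C + 2)) * G2 * lgn ^ 4 :=
    le_mul_of_one_le_right (by positivity) hl4
  have u2 : 3 * (196 * C ^ 3) * G2 ≤ 3 * (196 * C ^ 3) * G2 * lgn ^ 4 :=
    le_mul_of_one_le_right (by positivity) hl4
  calc _ ≤ 3 * (49 * C ^ 2 * (C + 2)) * G2 * lgn ^ 4 + 3 * (196 * C ^ 3) * G2 * lgn ^ 4 +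
        3 * (2 * C ^ 3 * ca ^ 2 * cb ^ 2) * lgn ^ 4 * G2 :=
        add_le_add (add_le_add (t1.trans u1) (t2.trans u2)) t3
    _ = _ := by ring

/-- **Module 3.** -/
theorem kpabs (h : TailClaim) : KPabs := by
  classical
  intro C
  by_cases hC1 : 1 ≤ C
  swap
  · exact ⟨1, one_pos, fun n d _ s => absurd s.hC hC1⟩
  obtain ⟨C₁, hC₁, hT⟩ := h C
  have hC₁0 : 0 < C₁ := by linarith
  have hC6 : (1 : ℝ) ≤ (8 * C₁) ^ 6 := one_le_pow₀ (by linarith)
  -- the two constants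
  obtain ⟨ca, hca, hJa⟩ := as_pow2 (2 * (8 * C₁)) (by linarith) 25
  obtain ⟨cb, hcb, hJb⟩ := as_pow2 (C₁ * (8 * C₁) ^ 6)
    (one_le_mul_of_one_le_of_one_le hC₁ hC6) 181
  refine ⟨3 * (49 * C ^ 2 * (C + 2) + 196 * C ^ 3 + 2 * C ^ 3 * ca ^ 2 * cb ^ 2), by positivity, ?_⟩
  intro n d hdn s Q hQ m _ hmM
  obtain ⟨Ja, hJa1, hJa2⟩ := hJa n
  obtain ⟨Jb, hJb1, hJb2⟩ := hJb n
  have hn0 : (0 : ℝ) ≤ n := by positivity
  have hN1p : (1 : ℝ) ≤ (n : ℝ) + 1 := by linarith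
  have hN10 : (0 : ℝ) < (n : ℝ) + 1 := by linarith
  obtain ⟨Ka, hKa⟩ : ∃ Ka : ℝ, Ka = 8 * C₁ * ((n : ℝ) + 1) ^ 25 := ⟨_, rfl⟩
  obtain ⟨βb, hβb⟩ : ∃ βb : ℝ, βb = 1 / (((n : ℝ) + 1) ^ 2 * Ka ^ 2) := ⟨_, rfl⟩
  obtain ⟨Kb, hKb⟩ : ∃ Kb : ℝ, Kb = C₁ * ((n : ℝ) + 1) ^ 31 * Ka ^ 6 := ⟨_, rfl⟩
  have hKa1 : 1 ≤ Ka := by
    rw [hKa]
    exact one_le_mul_of_one_le_of_one_le (by linarith) (one_le_pow₀ hN1p)
  have hKa0 : 0 < Ka := by linarith
  have hKb0 : 0 < Kb := by rw [hKb]; positivity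
  have hβb0 : 0 < βb := by rw [hβb]; positivity
  have hβb1 : βb ≤ 1 := by
    rw [hβb, div_le_one (by positivity)]
    exact one_le_mul_of_one_le_of_one_le (one_le_pow₀ hN1p) (one_le_pow₀ hKa1)
  obtain ⟨TT, hTTdef⟩ : ∃ TT : Finset (ℤ × ℤ),
      TT = (Ks (2 ^ d)).biUnion fun k => Q.image (tile (2 ^ d) k) := ⟨_, rfl⟩
  have hTT : ∀ k ∈ Ks (2 ^ d), ∀ q ∈ Q, tile (2 ^ d) k q ∈ TT := fun k hk q hq => by
    rw [hTTdef]
    exact Finset.mem_biUnion.2 ⟨k, hk, Finset.mem_image_of_mem _ hq⟩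
  have hPk : ∀ P : Finset (ℤ × (ℤ × ℤ) × ℕ),
      P ⊆ Ks (2 ^ d) ×ˢ (TT ×ˢ Finset.range (64 * 4 ^ n)) →
      ∀ p ∈ P, p.1 ∈ Ks (2 ^ d) ∧ p.2.2 < 64 * 4 ^ n := by
    intro P hP p hp
    have := hP hp
    rw [Finset.mem_product, Finset.mem_product, Finset.mem_range] at this
    exact ⟨this.1, this.2.2⟩
  have hε0 : (0 : ℝ) < 1 / ((n : ℝ) + 1) ^ 2 := by positivity
  have hε1 : 1 / ((n : ℝ) + 1) ^ 2 ≤ 1 := by
    rw [div_le_one (by positivity)]
    exact one_le_pow₀ hN1p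
  have hK'1 : (1 : ℝ) ≤ ((n : ℝ) + 1) ^ 2 := one_le_pow₀ hN1p
  have hrest := as_rest s (64 * 4 ^ n) (((n : ℝ) + 1) ^ 2) Ka Kb βb (1 / ((n : ℝ) + 1) ^ 2)
    (by positivity) TT
    (fun P hP hreg hlow => hT n d hdn s (64 * 4 ^ n) le_rfl P
      (as_cardP n d hdn Q TT hQ hTTdef P hP) (hPk P hP) Ka (1 / 2) _ _
      (by norm_num) (by norm_num) hK'1 hε0 hε1 le_rfl
      ((as_condA C₁ ((n : ℝ) + 1) hN10).trans (le_of_eq hKa.symm)) hreg hlow)
    (fun P hP hreg hlow => hT n d hdn s (64 * 4 ^ n) le_rfl P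
      (as_cardP n d hdn Q TT hQ hTTdef P hP) (hPk P hP) Kb βb _ _
      hβb0 hβb1 hK'1 hε0 hε1 le_rfl (by
        rw [hβb]
        exact (as_condB C₁ ((n : ℝ) + 1) Ka hN10 hKa0).trans (le_of_eq hKb.symm)) hreg hlow)
  have hfin := as_final s (64 * 4 ^ n) (((n : ℝ) + 1) ^ 2) Ka Kb βb hKa0.le hβb0.le Q TT hTT
    (2 * n + 6) Ja Jb (by
      rw [pow_add, pow_mul]
      norm_num
      rw [mul_comm])
    (fun k hk T => by
      have h1 := as_main_card s (64 * 4 ^ n) (((n : ℝ) + 1) ^ 2) Ka Kb βb hKa0.le k hk T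
      have h2 : 2 * Ka ≤ 2 ^ Ja := by
        refine le_trans (le_of_eq ?_) hJa1
        rw [hKa]
        ring
      exact_mod_cast h1.trans h2)
    (fun q => by
      have h1 := as_good_card s (64 * 4 ^ n) Kb hKb0.le q
      have h2 : Kb ≤ 2 ^ Jb := by
        refine le_trans (le_of_eq ?_) hJb1
        rw [hKb, hKa]
        ring
      exact_mod_cast h1.trans h2) m hmM _ hrest
  refine hfin.trans ?_
  exact as_numbers C ca cb ((n : ℝ) + 1) (lg n) _ Ka βb _ _ _ _ hC1 hN1p (as_lg_one n)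
    (integral_nonneg fun x => by positivity) hKa0 hβb (by positivity) (by positivity)
    (by positivity) hca hcb (by push_cast; linarith) hJa2 hJb2 rfl

end

end Pool.Agent.Helper32.KS
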