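import Pool.Agent.Helper32.KS.Four

/-!
# The reduction of the dual block estimate: elementary lemmas (helper64)
-/

set_option autoImplicit false

open MeasureTheory
open scoped BigOperators Real

namespace Pool.Agent.Helper32.KS

noncomputable section

/-! ### the step function and the window -/

lemma bd_Th_zero {s : ℝ} (h : s ≤ 1) : Th s = 0 :=
  Real.smoothTransition.zero_of_nonpos (by linarith)

lemma bd_Th_one {s : ℝ} (h : 2 ≤ s) : Th s = 1 :=
  Real.smoothTransition.one_of_one_le (by linarith)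

lemma bd_Th_nonneg (s : ℝ) : 0 ≤ Th s := Real.smoothTransition.nonneg _

lemma bd_Th_le (s : ℝ) : Th s ≤ 1 := Real.smoothTransition.le_one _

lemma bd_Th_contDiff : ContDiff ℝ 1 Th := by
  unfold Th
  exact Real.smoothTransition.contDiff.comp (contDiff_id.sub contDiff_const)

@[fun_prop]
lemma bd_Th_cont : Continuous Th := bd_Th_contDiff.continuous

lemma bd_ph_contDiff : ContDiff ℝ 1 ph := by
  unfold ph
  exact bd_Th_contDiff.sub (bd_Th_contDiff.comp (contDiff_id.div_const 4))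

@[fun_prop]
lemma bd_ph_cont : Continuous ph := bd_ph_contDiff.continuous

lemma bd_dph_cont : Continuous (deriv ph) := bd_ph_contDiff.continuous_deriv le_rfl

lemma bd_ph_zero_left {s : ℝ} (h : s ≤ 1) : ph s = 0 := by
  unfold ph
  rw [bd_Th_zero h, bd_Th_zero (by linarith), sub_zero]

lemma bd_ph_zero_right {s : ℝ} (h : 8 ≤ s) : ph s = 0 := by
  unfold ph
  rw [bd_Th_one (by linarith), bd_Th_one (by linarith), sub_self]

lemma bd_ph_abs (s : ℝ) : |ph s| ≤ 1 := by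
  unfold ph
  rw [abs_le]
  have h1 := bd_Th_nonneg s
  have h2 := bd_Th_le s
  have h3 := bd_Th_nonneg (s / 4)
  have h4 := bd_Th_le (s / 4)
  constructor <;> linarith

/-- the derivative of the window is bounded -/
lemma bd_dph_bdd : ∃ K : ℝ, 0 < K ∧ ∀ s, |deriv ph s| ≤ K := by
  have h1 : HasCompactSupport (deriv ph) := by
    apply HasCompactSupport.deriv
    apply HasCompactSupport.of_support_subset_isCompact (isCompact_Icc (a := (1 : ℝ)) (b := 8))
    intro s hs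
    by_contra hcon
    rw [Set.mem_Icc, not_and_or, not_le, not_le] at hcon
    rcases hcon with h | h
    · exact hs (bd_ph_zero_left h.le)
    · exact hs (bd_ph_zero_right h.le)
  obtain ⟨C, hC⟩ := h1.exists_bound_of_continuous bd_dph_cont
  exact ⟨|C| + 1, by positivity, fun s => (hC s).trans (by linarith [le_abs_self C])⟩

lemma bd_dTh_bdd : ∃ K : ℝ, 0 < K ∧ ∀ s, |deriv Th s| ≤ K := by
  have hc : Continuous (deriv Th) := bd_Th_contDiff.continuous_deriv le_rfl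
  obtain ⟨C, hC⟩ := (isCompact_Icc (a := (1 : ℝ)) (b := 2)).exists_bound_of_continuousOn hc.continuousOn
  refine ⟨|C| + 1, by positivity, fun s => ?_⟩
  by_cases hs : s ∈ Set.Icc (1 : ℝ) 2
  · exact (hC s hs).trans (by linarith [le_abs_self C])
  · rw [Set.mem_Icc, not_and_or, not_le, not_le] at hs
    have h0 : deriv Th s = 0 := by
      rcases hs with h | h
      · have : Th =ᶠ[nhds s] fun _ => 0 := by
          filter_upwards [isOpen_Iio.mem_nhds h] with x hx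
          exact bd_Th_zero (le_of_lt hx)
        rw [this.deriv_eq, deriv_const]
      · have : Th =ᶠ[nhds s] fun _ => 1 := by
          filter_upwards [isOpen_Ioi.mem_nhds h] with x hx
          exact bd_Th_one (le_of_lt hx)
        rw [this.deriv_eq, deriv_const]
    rw [h0, abs_zero]
    positivity

/-- Lipschitz functions from a bounded derivative -/
lemma bd_lip {f : ℝ → ℝ} (hf : ContDiff ℝ 1 f) {K : ℝ} (hK : ∀ s, |deriv f s| ≤ K) (a b : ℝ) :
    |f a - f b| ≤ K * |a - b| := by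
  have h := Convex.norm_image_sub_le_of_norm_deriv_le (s := Set.univ) (f := f) (C := K)
    (fun x _ => (hf.differentiable one_ne_zero).differentiableAt) (fun x _ => hK x) convex_univ
    (Set.mem_univ b) (Set.mem_univ a)
  simpa [Real.norm_eq_abs] using h

/-! ### the cut-off -/

lemma bd_cutA_cont : Continuous cutA := by
  unfold cutA
  exact (Real.smoothTransition.continuous.comp (by fun_prop)).mul
    (Real.smoothTransition.continuous.comp (by fun_prop))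

lemma bd_cutB_cont : Continuous cutB := by
  unfold cutB
  exact (Real.smoothTransition.continuous.comp (by fun_prop)).mul
    (Real.smoothTransition.continuous.comp (by fun_prop))

@[fun_prop]
lemma bd_cut_cont (D : ℝ) : Continuous (cut D) := by
  unfold cut
  exact (bd_cutA_cont.comp (by fun_prop)).mul (bd_cutB_cont.comp (by fun_prop))

@[fun_prop]
lemma bd_pp_cont (D : ℝ) : Continuous (pp D) := by
  unfold pp
  fun_prop

lemma bd_pp_nonneg (D : ℝ) (ξ : ℝ × ℝ) : 0 ≤ pp D ξ := by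
  unfold pp
  positivity

lemma bd_cut_nonneg (D : ℝ) (ξ : ℝ × ℝ) : 0 ≤ cut D ξ := by
  unfold cut cutA cutB
  have h := Real.smoothTransition.nonneg
  exact mul_nonneg (mul_nonneg (h _) (h _)) (mul_nonneg (h _) (h _))

lemma bd_cut_le (D : ℝ) (ξ : ℝ × ℝ) : cut D ξ ≤ 1 := by
  unfold cut cutA cutB
  have h := Real.smoothTransition.nonneg
  have h' := Real.smoothTransition.le_one
  exact mul_le_one₀ (mul_le_one₀ (h' _) (h _) (h' _)) (mul_nonneg (h _) (h _))
    (mul_le_one₀ (h' _) (h _) (h' _))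

lemma bd_cut_supp {D : ℝ} (hD : 0 < D) {ξ : ℝ × ℝ} (h : cut D ξ ≠ 0) :
    |ξ.1| ≤ 5 * D ^ 2 ∧ |ξ.2| ≤ 5 * D ^ 2 := by
  have hD2 : 0 < D ^ 2 := by positivity
  unfold cut cutA cutB at h
  have h1 := left_ne_zero_of_mul (left_ne_zero_of_mul h)
  have h2 := right_ne_zero_of_mul (left_ne_zero_of_mul h)
  have h3 := left_ne_zero_of_mul (right_ne_zero_of_mul h)
  have h4 := right_ne_zero_of_mul (right_ne_zero_of_mul h)
  have k1 : 0 < 5 * (ξ.1 / D ^ 2) - 5 / 2 := by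
    by_contra hc
    exact h1 (Real.smoothTransition.zero_of_nonpos (not_lt.1 hc))
  have k2 : 0 < 5 - ξ.1 / D ^ 2 := by
    by_contra hc
    exact h2 (Real.smoothTransition.zero_of_nonpos (not_lt.1 hc))
  have k3 : 0 < 4 - ξ.2 / D ^ 2 := by
    by_contra hc
    exact h3 (Real.smoothTransition.zero_of_nonpos (not_lt.1 hc))
  have k4 : 0 < 4 + ξ.2 / D ^ 2 := by
    by_contra hc
    exact h4 (Real.smoothTransition.zero_of_nonpos (not_lt.1 hc))
  have e1 : ξ.1 = (ξ.1 / D ^ 2) * D ^ 2 := by field_simp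
  have e2 : ξ.2 = (ξ.2 / D ^ 2) * D ^ 2 := by field_simp
  constructor
  · rw [abs_le]
    constructor
    · rw [e1]; nlinarith
    · rw [e1]; nlinarith
  · rw [abs_le]
    constructor
    · rw [e2]; nlinarith
    · rw [e2]; nlinarith

/-! ### integral operators -/

/-- `∫ w(ξ, y) g(y) e(-y·ξ) dy` -/
def bdop (w : ℝ × ℝ → ℝ × ℝ → ℝ) (g : ℝ × ℝ → ℂ) (ξ : ℝ × ℝ) : ℂ :=
  ∫ y : ℝ × ℝ, (w ξ y : ℂ) * (g y * e (-(y.1 * ξ.1 + y.2 * ξ.2)))

lemma bdop_one (g : ℝ × ℝ → ℂ) (ξ : ℝ × ℝ) : bdop (fun _ _ => 1) g ξ = fwd g ξ := by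
  unfold bdop fwd
  congr 1
  funext y
  simp

lemma bdop_integrable {w : ℝ × ℝ → ℝ × ℝ → ℝ} (hw : Measurable (Function.uncurry w)) {B : ℝ}
    (hB : ∀ ξ y, |w ξ y| ≤ B) {g : ℝ × ℝ → ℂ} (hg : BCS g) (ξ : ℝ × ℝ) :
    Integrable (fun y : ℝ × ℝ => (w ξ y : ℂ) * (g y * e (-(y.1 * ξ.1 + y.2 * ξ.2)))) := by
  refine (hg.integrable.norm.const_mul B).mono' ?_ (Filter.Eventually.of_forall fun y => ?_)
  · have h1 : Measurable fun y => w ξ y := hw.comp (measurable_const.prodMk measurable_id)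
    have h2 := hg.meas
    exact (by fun_prop : Measurable fun y : ℝ × ℝ =>
      (w ξ y : ℂ) * (g y * e (-(y.1 * ξ.1 + y.2 * ξ.2)))).aestronglyMeasurable
  · rw [norm_mul, norm_mul, e_norm, mul_one, Complex.norm_real, Real.norm_eq_abs]
    exact mul_le_mul_of_nonneg_right (hB ξ y) (norm_nonneg _)

lemma bdop_meas {w : ℝ × ℝ → ℝ × ℝ → ℝ} (hw : Measurable (Function.uncurry w))
    {g : ℝ × ℝ → ℂ} (hg : BCS g) : Measurable (bdop w g) := by
  unfold bdop
  have h2 := hg.meas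
  have h3 : Measurable (fun p : (ℝ × ℝ) × (ℝ × ℝ) => w p.1 p.2) := hw
  have h1 : StronglyMeasurable (fun p : (ℝ × ℝ) × (ℝ × ℝ) =>
      (w p.1 p.2 : ℂ) * (g p.2 * e (-(p.2.1 * p.1.1 + p.2.2 * p.1.2)))) := by
    apply Measurable.stronglyMeasurable
    fun_prop
  exact (h1.integral_prod_right (ν := (volume : Measure (ℝ × ℝ)))).measurable

lemma bdop_norm_le {w : ℝ × ℝ → ℝ × ℝ → ℝ} {B : ℝ}
    (hB : ∀ ξ y, |w ξ y| ≤ B) {g : ℝ × ℝ → ℂ} (hg : BCS g) (ξ : ℝ × ℝ) :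
    ‖bdop w g ξ‖ ≤ B * ∫ y, ‖g y‖ := by
  unfold bdop
  refine (norm_integral_le_integral_norm _).trans ?_
  rw [← integral_const_mul]
  apply integral_mono_of_nonneg
  · exact Filter.Eventually.of_forall fun y => norm_nonneg _
  · exact hg.integrable.norm.const_mul B
  · refine Filter.Eventually.of_forall fun y => ?_
    simp only
    rw [norm_mul, norm_mul, e_norm, mul_one, Complex.norm_real, Real.norm_eq_abs]
    exact mul_le_mul_of_nonneg_right (hB ξ y) (norm_nonneg _)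

/-- a cut-off of the operator is a bounded function of bounded support -/
lemma bdop_BCS {w : ℝ × ℝ → ℝ × ℝ → ℝ} (hw : Measurable (Function.uncurry w)) {B : ℝ}
    (hB : ∀ ξ y, |w ξ y| ≤ B) {g : ℝ × ℝ → ℂ} (hg : BCS g) {D : ℝ} (hD : 0 < D) :
    BCS (fun ξ => (cut D ξ : ℂ) * bdop w g ξ) := by
  refine ⟨?_, ⟨B * ∫ y, ‖g y‖, fun ξ => ?_⟩, ⟨5 * D ^ 2, fun ξ hξ => ?_⟩⟩
  · have h1 := bdop_meas hw hg
    fun_prop
  · rw [norm_mul, Complex.norm_real, Real.norm_eq_abs, abs_of_nonneg (bd_cut_nonneg D ξ)]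
    calc cut D ξ * ‖bdop w g ξ‖ ≤ 1 * ‖bdop w g ξ‖ :=
          mul_le_mul_of_nonneg_right (bd_cut_le D ξ) (norm_nonneg _)
      _ = ‖bdop w g ξ‖ := one_mul _
      _ ≤ _ := bdop_norm_le hB hg ξ
  · exact bd_cut_supp hD (fun h0 => hξ (by rw [h0]; simp))

/-- pointwise control of the operator with weight `ψ(c(ξ) + k(y)/Q)` -/
lemma bdop_formula {ψ : ℝ → ℝ} (c : ℝ) (Q M : ℕ) {k : ℝ × ℝ → ℕ}
    (hk : Measurable k) {G : ℝ × ℝ → ℂ} (hG : BCS G) (hkM : ∀ y, G y ≠ 0 → k y ≤ M)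
    {w : ℝ × ℝ → ℝ × ℝ → ℝ} (ξ : ℝ × ℝ) (hw : ∀ y, G y ≠ 0 → w ξ y = ψ (c + (k y : ℝ) / Q)) :
    bdop w G ξ = (ψ c : ℂ) * fwd G ξ + ∑ i ∈ Finset.range M,
      ((ψ (c + ((i : ℝ) + 1) / Q) - ψ (c + (i : ℝ) / Q) : ℝ) : ℂ) * fwd ({y | i < k y}.indicator G) ξ := by
  have hset : ∀ i : ℕ, MeasurableSet {y | i < k y} := fun i => hk (measurableSet_Ioi)
  have e1 : ∀ y, (w ξ y : ℂ) * (G y * e (-(y.1 * ξ.1 + y.2 * ξ.2))) =
      (ψ c : ℂ) * (G y * e (-(y.1 * ξ.1 + y.2 * ξ.2))) + ∑ i ∈ Finset.range M,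
      ((ψ (c + ((i : ℝ) + 1) / Q) - ψ (c + (i : ℝ) / Q) : ℝ) : ℂ) *
        (({y | i < k y}.indicator G) y * e (-(y.1 * ξ.1 + y.2 * ξ.2))) := by
    intro y
    by_cases hy : G y = 0
    · have : ∀ i : ℕ, ({y | i < k y}.indicator G) y = 0 := by
        intro i
        by_cases h : y ∈ {y | i < k y}
        · rw [Set.indicator_of_mem h, hy]
        · rw [Set.indicator_of_notMem h]
      simp [hy, this]
    · rw [hw y hy]
      have h1 : ∑ i ∈ Finset.range M,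
          ((ψ (c + ((i : ℝ) + 1) / Q) - ψ (c + (i : ℝ) / Q) : ℝ) : ℂ) *
          (({y | i < k y}.indicator G) y * e (-(y.1 * ξ.1 + y.2 * ξ.2))) =
          (∑ i ∈ Finset.range (k y), ((ψ (c + ((i : ℝ) + 1) / Q) - ψ (c + (i : ℝ) / Q) : ℝ) : ℂ)) *
          (G y * e (-(y.1 * ξ.1 + y.2 * ξ.2))) := by
        rw [Finset.sum_mul]
        have hsub : Finset.range (k y) ⊆ Finset.range M := Finset.range_mono (hkM y hy)
        rw [← Finset.sum_subset hsub]
        · refine Finset.sum_congr rfl fun i hi => ?_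
          have hi' : y ∈ {y | i < k y} := Finset.mem_range.1 hi
          rw [Set.indicator_of_mem hi']
        · intro i _ hi
          have hi' : y ∉ {y | i < k y} := fun h => hi (Finset.mem_range.2 h)
          rw [Set.indicator_of_notMem hi', zero_mul, mul_zero]
      rw [h1, ← add_mul]
      congr 1
      have h2 := Finset.sum_range_sub (fun i : ℕ => ψ (c + (i : ℝ) / Q)) (k y)
      have h3 : ∑ i ∈ Finset.range (k y), (ψ (c + ((i : ℝ) + 1) / Q) - ψ (c + (i : ℝ) / Q)) =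
          ψ (c + (k y : ℝ) / Q) - ψ c := by
        have h4 : ∀ i : ℕ, ψ (c + ((i : ℝ) + 1) / Q) - ψ (c + (i : ℝ) / Q) =
            ψ (c + ((i + 1 : ℕ) : ℝ) / Q) - ψ (c + (i : ℝ) / Q) := by
          intro i; push_cast; rfl
        simp only [h4]
        rw [h2]
        simp
      rw [← Complex.ofReal_sum, h3]
      push_cast
      ring
  unfold bdop
  simp only [e1]
  rw [integral_add, integral_const_mul, integral_finsetSum]
  · congr 1
    refine Finset.sum_congr rfl fun i _ => ?_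
    rw [integral_const_mul]
    rfl
  · intro i _
    exact (integrable_mul_e (hG.indicator (hset i)).integrable (by fun_prop)).const_mul _
  · exact (integrable_mul_e hG.integrable (by fun_prop)).const_mul _
  · exact integrable_finsetSum _ fun i _ =>
      (integrable_mul_e (hG.indicator (hset i)).integrable (by fun_prop)).const_mul _

lemma bd_sq_add (a b : ℂ) : ‖a + b‖ ^ 2 ≤ 2 * ‖a‖ ^ 2 + 2 * ‖b‖ ^ 2 := by
  have h1 := norm_add_le a b
  have h2 : ‖a + b‖ ^ 2 ≤ (‖a‖ + ‖b‖) ^ 2 := by gcongr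
  nlinarith [sq_nonneg (‖a‖ - ‖b‖)]

lemma bd_sq_sum {ι : Type*} (s : Finset ι) (a : ι → ℂ) :
    ‖∑ i ∈ s, a i‖ ^ 2 ≤ s.card * ∑ i ∈ s, ‖a i‖ ^ 2 := by
  calc ‖∑ i ∈ s, a i‖ ^ 2 ≤ (∑ i ∈ s, ‖a i‖) ^ 2 := by
        gcongr
        exact norm_sum_le _ _
    _ ≤ s.card * ∑ i ∈ s, ‖a i‖ ^ 2 := sq_sum_le_card_mul_sum_sq

/-- `L²` bound of the operator with weight `ψ(c(ξ) + k(y)/Q)` -/
lemma bdop_L2 {ψ : ℝ → ℝ} {B K : ℝ} (hB : ∀ s, |ψ s| ≤ B) (hB0 : 0 ≤ B) (hK0 : 0 ≤ K)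
    (hK : ∀ a b, |ψ a - ψ b| ≤ K * |a - b|) (c : ℝ × ℝ → ℝ) {Q : ℕ} (hQ : 0 < Q) {U : ℕ}
    {k : ℝ × ℝ → ℕ} (hk : Measurable k) {G : ℝ × ℝ → ℂ} (hG : BCS G)
    (hkM : ∀ y, G y ≠ 0 → k y ≤ U * Q)
    {w : ℝ × ℝ → ℝ × ℝ → ℝ} (hwm : Measurable (Function.uncurry w))
    (hw : ∀ ξ y, G y ≠ 0 → w ξ y = ψ (c ξ + (k y : ℝ) / Q)) :
    Integrable (fun ξ => ‖bdop w G ξ‖ ^ 2) ∧
    ∫ ξ, ‖bdop w G ξ‖ ^ 2 ≤ 2 * (B ^ 2 + (K * U) ^ 2) * ∫ x, ‖G x‖ ^ 2 := by
  have hset : ∀ i : ℕ, MeasurableSet {y | i < k y} := fun i => hk (measurableSet_Ioi)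
  have hQ0 : (0 : ℝ) < Q := by exact_mod_cast hQ
  set F : ℝ × ℝ → ℝ := fun ξ => 2 * (B ^ 2 * ‖fwd G ξ‖ ^ 2) + 2 * ((U * Q : ℕ) *
    ∑ i ∈ Finset.range (U * Q), (K / Q) ^ 2 * ‖fwd ({y | i < k y}.indicator G) ξ‖ ^ 2) with hF
  have hpt : ∀ ξ, ‖bdop w G ξ‖ ^ 2 ≤ F ξ := by
    intro ξ
    rw [bdop_formula (c ξ) Q (U * Q) hk hG hkM ξ (hw ξ), hF]
    refine (bd_sq_add _ _).trans (add_le_add (mul_le_mul_of_nonneg_left ?_ (by norm_num))
      (mul_le_mul_of_nonneg_left ?_ (by norm_num)))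
    · rw [norm_mul, mul_pow, Complex.norm_real, Real.norm_eq_abs]
      gcongr
      exact hB _
    · refine (bd_sq_sum _ _).trans ?_
      rw [Finset.card_range]
      gcongr with i _
      rw [norm_mul, mul_pow, Complex.norm_real, Real.norm_eq_abs]
      gcongr
      refine (hK _ _).trans (le_of_eq ?_)
      have : c ξ + ((i : ℝ) + 1) / Q - (c ξ + (i : ℝ) / Q) = 1 / Q := by ring
      rw [this, abs_of_pos (by positivity)]
      ring
  have hGi : ∀ i : ℕ, BCS ({y | i < k y}.indicator G) := fun i => hG.indicator (hset i)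
  have hFint : Integrable F := by
    rw [hF]
    refine (((planch_fwd hG).1.const_mul _).const_mul _).add
      (((integrable_finsetSum _ fun i _ => ((planch_fwd (hGi i)).1.const_mul _)).const_mul _).const_mul _)
  have hm := bdop_meas hwm hG
  have hint : Integrable (fun ξ => ‖bdop w G ξ‖ ^ 2) := by
    refine hFint.mono' (hm.norm.pow_const 2).aestronglyMeasurable
      (Filter.Eventually.of_forall fun ξ => ?_)
    rw [Real.norm_of_nonneg (by positivity)]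
    exact hpt ξ
  refine ⟨hint, ?_⟩
  refine (integral_mono hint hFint hpt).trans ?_
  have hGle : ∀ i : ℕ, ∫ x, ‖({y | i < k y}.indicator G) x‖ ^ 2 ≤ ∫ x, ‖G x‖ ^ 2 := by
    intro i
    apply integral_mono (hGi i).sq_integrable hG.sq_integrable
    intro x
    exact pow_le_pow_left₀ (norm_nonneg _) (norm_indicator_le_norm_self _ _) 2
  have e1 : ∫ ξ, F ξ = 2 * (B ^ 2 * ∫ ξ, ‖fwd G ξ‖ ^ 2) + 2 * ((U * Q : ℕ) *
      ∑ i ∈ Finset.range (U * Q), (K / Q) ^ 2 * ∫ ξ, ‖fwd ({y | i < k y}.indicator G) ξ‖ ^ 2) := by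
    rw [hF, integral_add, integral_const_mul, integral_const_mul, integral_const_mul,
      integral_const_mul, integral_finsetSum]
    · simp only [integral_const_mul]
    · intro i _
      exact (planch_fwd (hGi i)).1.const_mul _
    · exact ((planch_fwd hG).1.const_mul _).const_mul _
    · exact ((integrable_finsetSum _ fun i _ =>
        ((planch_fwd (hGi i)).1.const_mul _)).const_mul _).const_mul _
  rw [e1, (planch_fwd hG).2]
  have h5 : ∑ i ∈ Finset.range (U * Q), (K / Q) ^ 2 * ∫ ξ, ‖fwd ({y | i < k y}.indicator G) ξ‖ ^ 2 ≤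
      (U * Q : ℕ) * ((K / Q) ^ 2 * ∫ x, ‖G x‖ ^ 2) := by
    calc ∑ i ∈ Finset.range (U * Q), (K / Q) ^ 2 * ∫ ξ, ‖fwd ({y | i < k y}.indicator G) ξ‖ ^ 2
        ≤ ∑ i ∈ Finset.range (U * Q), (K / Q) ^ 2 * ∫ x, ‖G x‖ ^ 2 := by
          refine Finset.sum_le_sum fun i _ => ?_
          rw [(planch_fwd (hGi i)).2]
          exact mul_le_mul_of_nonneg_left (hGle i) (by positivity)
      _ = _ := by rw [Finset.sum_const, Finset.card_range, nsmul_eq_mul]
  have h6 : ((U * Q : ℕ) : ℝ) * ((U * Q : ℕ) * ((K / Q) ^ 2 * ∫ x, ‖G x‖ ^ 2)) =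
      (K * U) ^ 2 * ∫ x, ‖G x‖ ^ 2 := by
    push_cast
    field_simp
  have h7 : ((U * Q : ℕ) : ℝ) * ∑ i ∈ Finset.range (U * Q), (K / Q) ^ 2 *
      ∫ ξ, ‖fwd ({y | i < k y}.indicator G) ξ‖ ^ 2 ≤ (K * U) ^ 2 * ∫ x, ‖G x‖ ^ 2 := by
    rw [← h6]
    gcongr
  linarith

/-- at most `K` terms are live -/
lemma bd_few {L K : ℕ} (a : ℕ → ℂ) {P : ℝ} (hP : 0 ≤ P)
    (ha : ∀ l : ℕ, ¬ (P < l ∧ (l : ℝ) < P + K) → a l = 0) :
    ‖∑ l ∈ Finset.range L, a l‖ ^ 2 ≤ K * ∑ l ∈ Finset.range L, ‖a l‖ ^ 2 := by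
  classical
  set S := (Finset.range L).filter (fun l : ℕ => P < l ∧ (l : ℝ) < P + K) with hS
  have h1 : ∑ l ∈ Finset.range L, a l = ∑ l ∈ S, a l := by
    rw [hS, Finset.sum_filter]
    refine Finset.sum_congr rfl fun l _ => ?_
    split_ifs with h
    · rfl
    · exact ha l h
  have h2 : S ⊆ Finset.Icc (⌊P⌋₊ + 1) (⌊P⌋₊ + K) := by
    intro l hl
    obtain ⟨_, hl1, hl2⟩ := Finset.mem_filter.1 hl
    rw [Finset.mem_Icc]
    constructor
    · exact (Nat.floor_lt hP).2 hl1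
    · have h3 : P < ⌊P⌋₊ + 1 := Nat.lt_floor_add_one P
      have h4 : (l : ℝ) < (⌊P⌋₊ : ℝ) + 1 + K := by linarith
      have h5 : l < ⌊P⌋₊ + 1 + K := by exact_mod_cast h4
      omega
  have h3 : S.card ≤ K := by
    refine (Finset.card_le_card h2).trans ?_
    rw [Nat.card_Icc]
    omega
  rw [h1]
  refine (bd_sq_sum S a).trans ?_
  have h4 : ∑ l ∈ S, ‖a l‖ ^ 2 ≤ ∑ l ∈ Finset.range L, ‖a l‖ ^ 2 :=
    Finset.sum_le_sum_of_subset_of_nonneg (Finset.filter_subset _ _) fun _ _ _ => by positivity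
  have h5 : 0 ≤ ∑ l ∈ S, ‖a l‖ ^ 2 := Finset.sum_nonneg fun _ _ => by positivity
  have h6 : (S.card : ℝ) ≤ K := by exact_mod_cast h3
  nlinarith

/-- `L²` norms of the pieces of a partition -/
lemma bd_part {g : ℝ × ℝ → ℂ} (hg : BCS g) {r : ℝ × ℝ → ℕ} (hr : Measurable r) {L : ℕ}
    (hL : ∀ y, r y < L) :
    ∑ l ∈ Finset.range L, ∫ x, ‖({y | r y = l}.indicator g) x‖ ^ 2 = ∫ x, ‖g x‖ ^ 2 := by
  classical
  rw [← integral_finsetSum]
  · congr 1
    funext x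
    rw [Finset.sum_eq_single (r x)]
    · rw [Set.indicator_of_mem (show x ∈ {y | r y = r x} from rfl)]
    · intro l _ hl
      rw [Set.indicator_of_notMem (show x ∉ {y | r y = l} from fun h => hl h.symm)]
      simp
    · intro h
      exact absurd (Finset.mem_range.2 (hL x)) h
  · intro l _
    exact (hg.indicator (hr (measurableSet_singleton l))).sq_integrable

end

end Pool.Agent.Helper32.KS
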