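import Pool.Agent.Helper32.KS.BDa

/-!
# The reduction of the dual block estimate: dilation and pairing (helper64)
-/

set_option autoImplicit false

open MeasureTheory
open scoped BigOperators Real Pointwise

namespace Pool.Agent.Helper32.KS

noncomputable section

/-! ### dilations -/

lemma bd_finrank : Module.finrank ℝ (ℝ × ℝ) = 2 := by simp

lemma bd_int_smul {G : Type*} [NormedAddCommGroup G] [NormedSpace ℝ G] (f : ℝ × ℝ → G) {r : ℝ} (hr : 0 < r) :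
    ∫ x, f x = (r ^ 2) • ∫ x, f (r • x) := by
  have h := Measure.integral_comp_smul (volume : Measure (ℝ × ℝ)) f r
  rw [bd_finrank] at h
  rw [h, abs_of_pos (by positivity), smul_smul, mul_inv_cancel₀ (by positivity), one_smul]

/-- the multiplier of scale `4^j` -/
def mulj (ψ : ℝ → ℝ) (n j : ℕ) (u : ℝ) (l : ℕ) (ξ : ℝ × ℝ) : ℝ :=
  ψ (l + u - pp (2 ^ n) ξ / 4 ^ j) * cut (2 ^ n) ξ ^ 2

lemma bd_scale (n j : ℕ) (hj : j ≤ n) : ((2 : ℝ) ^ n) ^ 2 = (2 ^ (n - j)) ^ 2 * 4 ^ j := by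
  have h1 : (4 : ℝ) ^ j = (2 ^ j) ^ 2 := by
    rw [show (4 : ℝ) = 2 ^ 2 by norm_num, ← pow_mul, ← pow_mul, mul_comm]
  rw [h1, ← mul_pow, ← pow_add, Nat.sub_add_cancel hj]

lemma mulj_smul (ψ : ℝ → ℝ) {n j : ℕ} (hj : j ≤ n) (u : ℝ) (l : ℕ) (ξ : ℝ × ℝ) :
    mulj ψ n j u l (((4 : ℝ) ^ j) • ξ) = mulw ψ (2 ^ (n - j)) u l ξ := by
  have h1 : (0 : ℝ) < 4 ^ j := by positivity
  have h2 : (0 : ℝ) < 2 ^ (n - j) := by positivity
  unfold mulj mulw pp cut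
  simp only [Prod.smul_fst, Prod.smul_snd, smul_eq_mul]
  rw [bd_scale n j hj]
  have e1 : (4 : ℝ) ^ j * ξ.1 / ((2 ^ (n - j)) ^ 2 * 4 ^ j) = ξ.1 / (2 ^ (n - j)) ^ 2 := by
    field_simp
  have e2 : (4 : ℝ) ^ j * ξ.2 / ((2 ^ (n - j)) ^ 2 * 4 ^ j) = ξ.2 / (2 ^ (n - j)) ^ 2 := by
    field_simp
  have e3 : (((4 : ℝ) ^ j * ξ.1) ^ 2 + ((4 : ℝ) ^ j * ξ.2) ^ 2) / (2 * ((2 ^ (n - j)) ^ 2 * 4 ^ j)) / 4 ^ j =
      (ξ.1 ^ 2 + ξ.2 ^ 2) / (2 * (2 ^ (n - j)) ^ 2) := by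
    field_simp
  rw [e1, e2, e3]

lemma fwd_smul (g : ℝ × ℝ → ℂ) (E : Set (ℝ × ℝ)) {r : ℝ} (hr : 0 < r) (ξ : ℝ × ℝ) :
    fwd (E.indicator g) (r • ξ) = ((r⁻¹ ^ 2 : ℝ) : ℂ) *
      fwd ({y | r⁻¹ • y ∈ E}.indicator fun y => g (r⁻¹ • y)) ξ := by
  unfold fwd
  rw [bd_int_smul _ (inv_pos.2 hr), Complex.real_smul]
  congr 2
  funext y
  have h1 : (E.indicator g) (r⁻¹ • y) = ({y | r⁻¹ • y ∈ E}.indicator fun y => g (r⁻¹ • y)) y := by
    by_cases h : r⁻¹ • y ∈ E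
    · rw [Set.indicator_of_mem h, Set.indicator_of_mem (show y ∈ {y | r⁻¹ • y ∈ E} from h)]
    · rw [Set.indicator_of_notMem h, Set.indicator_of_notMem (show y ∉ {y | r⁻¹ • y ∈ E} from h)]
  rw [h1]
  congr 2
  simp only [Prod.smul_fst, Prod.smul_snd, smul_eq_mul]
  field_simp

lemma bd_dil (ψ : ℝ → ℝ) {n j : ℕ} (hj : j ≤ n) (u : ℝ) (l : ℕ) (g : ℝ × ℝ → ℂ) (E : ℕ → Set (ℝ × ℝ))
    (x : ℝ × ℝ) :
    inv (fun ξ => (mulj ψ n j u l ξ : ℂ) * fwd ((E l).indicator g) ξ) x =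
      Fl ψ (2 ^ (n - j)) u (fun y => g (((4 : ℝ) ^ j)⁻¹ • y)) (fun l => {y | ((4 : ℝ) ^ j)⁻¹ • y ∈ E l}) l
        (((4 : ℝ) ^ j) • x) := by
  have h1 : (0 : ℝ) < 4 ^ j := by positivity
  unfold Fl inv
  rw [bd_int_smul _ h1, Complex.real_smul, ← integral_const_mul]
  congr 1
  funext ξ
  beta_reduce
  rw [mulj_smul ψ hj, fwd_smul g (E l) h1]
  have e1 : e (x.1 * (((4 : ℝ) ^ j) • ξ).1 + x.2 * (((4 : ℝ) ^ j) • ξ).2) =
      e ((((4 : ℝ) ^ j) • x).1 * ξ.1 + (((4 : ℝ) ^ j) • x).2 * ξ.2) := by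
    congr 1
    simp only [Prod.smul_fst, Prod.smul_snd, smul_eq_mul]
    ring
  rw [e1]
  push_cast
  field_simp

lemma bd_Sq_smul {r : ℝ} (hr : 0 < r) : r • Sq 1 = Sq r := by
  ext x
  rw [Set.mem_smul_set_iff_inv_smul_mem₀ hr.ne']
  simp only [Sq, Set.mem_ofPred_eq, Prod.smul_fst, Prod.smul_snd, smul_eq_mul, abs_mul,
    abs_of_pos (inv_pos.2 hr)]
  rw [inv_mul_le_iff₀ hr, inv_mul_le_iff₀ hr, mul_one]

/-- sums up to a measurable bound -/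
lemma bd_sum_meas {F : ℕ → ℝ × ℝ → ℂ} (hF : ∀ l, Measurable (F l)) {m : ℝ × ℝ → ℕ} (hm : Measurable m)
    {L : ℕ} (hL : ∀ x, m x ≤ L) : Measurable (fun x => ∑ l ∈ Finset.range (m x), F l x) := by
  have e : (fun x => ∑ l ∈ Finset.range (m x), F l x) =
      fun x => ∑ l ∈ Finset.range L, ({y | l < m y}.indicator (F l)) x := by
    funext x
    have hsub : Finset.range (m x) ⊆ Finset.range L := Finset.range_mono (hL x)
    rw [← Finset.sum_subset hsub]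
    · refine Finset.sum_congr rfl fun l hl => ?_
      rw [Set.indicator_of_mem (show x ∈ {y | l < m y} from Finset.mem_range.1 hl)]
    · intro l _ hl
      rw [Set.indicator_of_notMem (show x ∉ {y | l < m y} from fun h => hl (Finset.mem_range.2 h))]
  rw [e]
  refine Finset.measurable_fun_sum _ fun l _ => ?_
  exact (hF l).indicator (hm measurableSet_Ioi)

lemma bd_lg_one (n : ℕ) : 1 ≤ lg n := by
  unfold lg
  rw [Real.le_log_iff_exp_le (by positivity)]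
  have h1 := Real.exp_one_lt_d9
  have h2 : (0 : ℝ) ≤ n := Nat.cast_nonneg n
  linarith

lemma mulj_cont {ψ : ℝ → ℝ} (hψ : Continuous ψ) (n j : ℕ) (u : ℝ) (l : ℕ) : Continuous (mulj ψ n j u l) := by
  unfold mulj
  fun_prop

/-- the functions `mulj · f` with `f` continuous are bounded with bounded support -/
lemma mulj_BCS {ψ : ℝ → ℝ} (hψ : Continuous ψ) {K : ℝ} (hK : ∀ s, |ψ s| ≤ K) (n j : ℕ) (u : ℝ) (l : ℕ)
    {f : ℝ × ℝ → ℂ} (hf : Continuous f) {C : ℝ} (hC : ∀ ξ, ‖f ξ‖ ≤ C) :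
    BCS (fun ξ => (mulj ψ n j u l ξ : ℂ) * f ξ) := by
  have hc := mulj_cont hψ n j u l
  refine ⟨by fun_prop, ⟨K * C, fun ξ => ?_⟩, ⟨5 * (2 ^ n) ^ 2, fun ξ hξ => ?_⟩⟩
  · rw [norm_mul, Complex.norm_real, Real.norm_eq_abs]
    have h0 : 0 ≤ K := (abs_nonneg _).trans (hK 0)
    refine mul_le_mul ?_ (hC ξ) (norm_nonneg _) h0
    unfold mulj
    rw [abs_mul, abs_of_nonneg (by positivity : 0 ≤ cut (2 ^ n) ξ ^ 2)]
    calc |ψ (l + u - pp (2 ^ n) ξ / 4 ^ j)| * cut (2 ^ n) ξ ^ 2 ≤ K * 1 :=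
          mul_le_mul (hK _) (pow_le_one₀ (bd_cut_nonneg _ _) (bd_cut_le _ _)) (by positivity) h0
      _ = K := mul_one K
  · refine bd_cut_supp (by positivity) (fun h0 => hξ ?_)
    unfold mulj
    rw [h0]
    simp

/-- the key proposition in the form of a pairing -/
lemma bd_kp {ψ : ℝ → ℝ} (hψ : Continuous ψ) {K : ℝ} (hK : ∀ s, |ψ s| ≤ K) (h : KP ψ) :
    ∃ C : ℝ, 0 < C ∧ ∀ n j : ℕ, j ≤ n → ∀ u : ℝ, 0 ≤ u → u ≤ 1 → ∀ g : ℝ × ℝ → ℂ, BCS g →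
      (∀ x, g x ≠ 0 → x ∈ Sq 1) → ∀ E : ℕ → Set (ℝ × ℝ), (∀ l, MeasurableSet (E l)) →
      (∀ i j, i ≠ j → Disjoint (E i) (E j)) → ∀ m : ℝ × ℝ → ℕ, Measurable m → (∀ x, m x ≤ 16 * 4 ^ n) →
      ‖∫ x, starRingEnd ℂ (g x) * ∑ l ∈ Finset.range (m x),
        inv (fun ξ => (mulj ψ n j u l ξ : ℂ) * fwd ((E l).indicator g) ξ) x‖ ≤
        C * lg n ^ 2 * ∫ x, ‖g x‖ ^ 2 := by
  obtain ⟨C, hC, hkp⟩ := h
  refine ⟨Real.sqrt C, Real.sqrt_pos.2 hC, ?_⟩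
  intro n j hj u hu0 hu1 g hg hgs E hE hdisj m hm hmn
  classical
  set F : ℕ → ℝ × ℝ → ℂ := fun l => inv (fun ξ => (mulj ψ n j u l ξ : ℂ) * fwd ((E l).indicator g) ξ) with hF
  set S : ℝ × ℝ → ℂ := fun x => ∑ l ∈ Finset.range (m x), F l x with hS
  have hlam : (0 : ℝ) < 4 ^ j := by positivity
  set r : ℝ := (4 : ℝ) ^ j with hr
  have hBCSl : ∀ l, BCS (fun ξ => (mulj ψ n j u l ξ : ℂ) * fwd ((E l).indicator g) ξ) := fun l =>
    mulj_BCS hψ hK n j u l (fwd_cont (hg.indicator (hE l)).integrable) (fun ξ => fwd_norm_le _ ξ)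
  have hFc : ∀ l, Continuous (F l) := fun l => inv_cont (hBCSl l).integrable
  have hSm : Measurable S := bd_sum_meas (fun l => (hFc l).measurable) hm hmn
  -- the square function estimate
  have hmain : ∫ x in Sq 1, ‖S x‖ ^ 2 ≤ C * lg n ^ 4 * ∫ x, ‖g x‖ ^ 2 := by
    set g' : ℝ × ℝ → ℂ := fun y => g (r⁻¹ • y) with hg'
    set E' : ℕ → Set (ℝ × ℝ) := fun l => {y | r⁻¹ • y ∈ E l} with hE'
    set m' : ℝ × ℝ → ℕ := fun x => if x ∈ Sq r then m (r⁻¹ • x) else 0 with hm'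
    have hrm : Measurable (fun y : ℝ × ℝ => r⁻¹ • y) := by fun_prop
    have hg'B : BCS g' := by
      obtain ⟨B, hB⟩ := hg.bdd
      obtain ⟨R, hR⟩ := hg.supp
      refine ⟨hg.meas.comp hrm, ⟨B, fun x => hB _⟩, ⟨r * R, fun x hx => ?_⟩⟩
      have h1 := hR _ hx
      simp only [Prod.smul_fst, Prod.smul_snd, smul_eq_mul, abs_mul, abs_of_pos (inv_pos.2 hlam)] at h1
      rw [inv_mul_le_iff₀ hlam, inv_mul_le_iff₀ hlam] at h1
      exact h1
    have hm'm : Measurable m' := Measurable.ite (Sq_meas r) (hm.comp hrm) measurable_const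
    have h1 := hkp n (n - j) (Nat.sub_le n j) u hu0 hu1 g' hg'B E' (fun l => hrm (hE l))
      (fun i j hij => (hdisj i j hij).preimage _) m' hm'm (fun x => by
        simp only [hm']
        split_ifs
        · exact (hmn _).trans (by gcongr; norm_num)
        · exact Nat.zero_le _)
    have h2 : ∫ x, ‖g' x‖ ^ 2 = r ^ 2 * ∫ x, ‖g x‖ ^ 2 := by
      have h3 := bd_int_smul (fun x => ‖g' x‖ ^ 2) hlam
      rw [h3, smul_eq_mul]
      congr 2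
      funext x
      simp only [hg']
      rw [smul_smul, inv_mul_cancel₀ hlam.ne', one_smul]
    have h3 : ∫ x in Sq (4 ^ n), ‖∑ l ∈ Finset.range (m' x), Fl ψ (2 ^ (n - j)) u g' E' l x‖ ^ 2 =
        ∫ x in Sq r, ‖∑ l ∈ Finset.range (m (r⁻¹ • x)), Fl ψ (2 ^ (n - j)) u g' E' l x‖ ^ 2 := by
      have hsub : Sq r ⊆ Sq (4 ^ n) := by
        intro x hx
        have h4 : r ≤ 4 ^ n := pow_le_pow_right₀ (by norm_num) hj
        exact ⟨hx.1.trans h4, hx.2.trans h4⟩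
      refine (setIntegral_eq_of_subset_of_forall_sdiff_eq_zero (Sq_meas _) hsub ?_).trans ?_
      · intro x hx
        simp only [hm', if_neg hx.2]
        simp
      · refine setIntegral_congr_fun (Sq_meas r) fun x hx => ?_
        simp only [hm', if_pos hx]
    have h4 : ∫ x in Sq 1, ‖S x‖ ^ 2 = (r ^ 2)⁻¹ *
        ∫ x in Sq r, ‖∑ l ∈ Finset.range (m (r⁻¹ • x)), Fl ψ (2 ^ (n - j)) u g' E' l x‖ ^ 2 := by
      have h5 := Measure.setIntegral_comp_smul_of_pos (volume : Measure (ℝ × ℝ))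
        (fun x => ‖∑ l ∈ Finset.range (m (r⁻¹ • x)), Fl ψ (2 ^ (n - j)) u g' E' l x‖ ^ 2) (Sq 1) hlam
      rw [bd_Sq_smul hlam, bd_finrank, smul_eq_mul] at h5
      rw [← h5]
      refine setIntegral_congr_fun (Sq_meas 1) fun x _ => ?_
      simp only [hS, hF]
      rw [smul_smul, inv_mul_cancel₀ hlam.ne', one_smul]
      congr 2
      exact Finset.sum_congr rfl fun l _ => bd_dil ψ hj u l g E x
    rw [h4, ← h3]
    rw [h2] at h1
    have h5 : (r ^ 2)⁻¹ * (C * lg n ^ 4 * (r ^ 2 * ∫ x, ‖g x‖ ^ 2)) = C * lg n ^ 4 * ∫ x, ‖g x‖ ^ 2 := by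
      field_simp
    rw [← h5]
    exact mul_le_mul_of_nonneg_left h1 (by positivity)
  -- the pairing
  have hSint : IntegrableOn (fun x => ‖S x‖ ^ 2) (Sq 1) := by
    set B : ℝ := ∑ l ∈ Finset.range (16 * 4 ^ n), ∫ ξ, ‖(mulj ψ n j u l ξ : ℂ) * fwd ((E l).indicator g) ξ‖ with hB
    refine Measure.integrableOn_of_bounded (M := B ^ 2) (Sq_finite 1).ne
      (hSm.norm.pow_const 2).aestronglyMeasurable (Filter.Eventually.of_forall fun x => ?_)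
    rw [Real.norm_of_nonneg (by positivity)]
    refine pow_le_pow_left₀ (norm_nonneg _) ?_ 2
    refine (norm_sum_le _ _).trans ?_
    refine (Finset.sum_le_sum fun l _ => inv_norm_le _ _).trans ?_
    exact Finset.sum_le_sum_of_subset_of_nonneg (Finset.range_mono (hmn x)) fun l _ _ =>
      integral_nonneg fun ξ => norm_nonneg _
  set t : ℝ := Real.sqrt C * lg n ^ 2 with ht
  have hlg := bd_lg_one n
  have hsC : 0 < Real.sqrt C := Real.sqrt_pos.2 hC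
  have ht0 : 0 < t := by positivity
  have hind : Integrable ((Sq 1).indicator fun x => ‖S x‖ ^ 2) :=
    (integrable_indicator_iff (Sq_meas 1)).2 hSint
  have hb : ∀ x, ‖starRingEnd ℂ (g x) * S x‖ ≤
      t / 2 * ‖g x‖ ^ 2 + (2 * t)⁻¹ * ((Sq 1).indicator fun x => ‖S x‖ ^ 2) x := by
    intro x
    by_cases hx : g x = 0
    · rw [hx]
      simp only [map_zero, zero_mul, norm_zero]
      have : 0 ≤ ((Sq 1).indicator fun x => ‖S x‖ ^ 2) x :=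
        Set.indicator_nonneg (fun _ _ => by positivity) x
      positivity
    · rw [Set.indicator_of_mem (hgs x hx), norm_mul, RCLike.norm_conj]
      have e1 : t / 2 * ‖g x‖ ^ 2 + (2 * t)⁻¹ * ‖S x‖ ^ 2 - ‖g x‖ * ‖S x‖ =
          (2 * t)⁻¹ * (t * ‖g x‖ - ‖S x‖) ^ 2 := by
        field_simp
        ring
      have e2 : 0 ≤ (2 * t)⁻¹ * (t * ‖g x‖ - ‖S x‖) ^ 2 := by positivity
      linarith
  refine (norm_integral_le_of_norm_le ((hg.sq_integrable.const_mul _).add (hind.const_mul _))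
    (Filter.Eventually.of_forall hb)).trans ?_
  simp only [Pi.add_apply]
  rw [integral_add (hg.sq_integrable.const_mul _) (hind.const_mul _), integral_const_mul,
    integral_const_mul, integral_indicator (Sq_meas 1)]
  have e3 : (2 * t)⁻¹ * ∫ x in Sq 1, ‖S x‖ ^ 2 ≤ (2 * t)⁻¹ * (C * lg n ^ 4 * ∫ x, ‖g x‖ ^ 2) :=
    mul_le_mul_of_nonneg_left hmain (by positivity)
  have e4 : C * lg n ^ 4 = t ^ 2 := by
    rw [ht, mul_pow, Real.sq_sqrt hC.le]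
    ring
  rw [e4] at e3
  have e5 : (2 * t)⁻¹ * (t ^ 2 * ∫ x, ‖g x‖ ^ 2) = t / 2 * ∫ x, ‖g x‖ ^ 2 := by
    field_simp
  rw [e5] at e3
  linarith

/-! ### the pairing on the frequency side -/

/-- the pairing functional -/
def PR (ψ : ℝ → ℝ) (n j L : ℕ) (g : ℝ × ℝ → ℂ) (E : ℕ → Set (ℝ × ℝ)) (m : ℝ × ℝ → ℕ) (u : ℝ) : ℂ :=
  ∑ l ∈ Finset.range L, ∫ ξ, (mulj ψ n j u l ξ : ℂ) *
    (fwd ((E l).indicator g) ξ * starRingEnd ℂ (fwd ({x | l < m x}.indicator g) ξ))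

lemma PR_eq {ψ : ℝ → ℝ} (hψ : Continuous ψ) {K : ℝ} (hK : ∀ s, |ψ s| ≤ K) (n j : ℕ) {L : ℕ}
    {g : ℝ × ℝ → ℂ} (hg : BCS g) {E : ℕ → Set (ℝ × ℝ)} (hE : ∀ l, MeasurableSet (E l))
    {m : ℝ × ℝ → ℕ} (hm : Measurable m) (hL : ∀ x, m x ≤ L) (u : ℝ) :
    PR ψ n j L g E m u = ∫ x, starRingEnd ℂ (g x) * ∑ l ∈ Finset.range (m x),
        inv (fun ξ => (mulj ψ n j u l ξ : ℂ) * fwd ((E l).indicator g) ξ) x := by
  have hset : ∀ l : ℕ, MeasurableSet {x | l < m x} := fun l => hm measurableSet_Ioi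
  have hBCSl : ∀ l, BCS (fun ξ => (mulj ψ n j u l ξ : ℂ) * fwd ((E l).indicator g) ξ) := fun l =>
    mulj_BCS hψ hK n j u l (fwd_cont (hg.indicator (hE l)).integrable) (fun ξ => fwd_norm_le _ ξ)
  have h1 : ∀ l, ∫ ξ, (mulj ψ n j u l ξ : ℂ) *
      (fwd ((E l).indicator g) ξ * starRingEnd ℂ (fwd ({x | l < m x}.indicator g) ξ)) =
      ∫ x, starRingEnd ℂ (({x | l < m x}.indicator g) x) *
        inv (fun ξ => (mulj ψ n j u l ξ : ℂ) * fwd ((E l).indicator g) ξ) x := by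
    intro l
    have h2 := pair_conj (g := {x | l < m x}.indicator g)
      (a := fun ξ => (mulj ψ n j u l ξ : ℂ) * fwd ((E l).indicator g) ξ)
      (hg.indicator (hset l)).integrable (hBCSl l).integrable
    have h3 := congrArg (starRingEnd ℂ) h2
    rw [← integral_conj, ← integral_conj] at h3
    simp only [map_mul, Complex.conj_conj] at h3
    rw [h3]
    congr 1
    funext ξ
    ring
  unfold PR
  simp only [h1]
  rw [← integral_finsetSum]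
  · congr 1
    funext x
    rw [Finset.mul_sum]
    have hsub : Finset.range (m x) ⊆ Finset.range L := Finset.range_mono (hL x)
    rw [← Finset.sum_subset hsub]
    · refine Finset.sum_congr rfl fun l hl => ?_
      rw [Set.indicator_of_mem (show x ∈ {y | l < m y} from Finset.mem_range.1 hl)]
    · intro l _ hl
      rw [Set.indicator_of_notMem (show x ∉ {y | l < m y} from fun h => hl (Finset.mem_range.2 h)),
        map_zero, zero_mul]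
  · intro l _
    have h4 := (hg.indicator (hset l)).conj
    have h5 := inv_cont (hBCSl l).integrable
    exact (h4.mul_meas h5.measurable (fun x => inv_norm_le _ x)).integrable

lemma PR_bound {ψ : ℝ → ℝ} (hψ : Continuous ψ) {K : ℝ} (hK : ∀ s, |ψ s| ≤ K) (h : KP ψ) :
    ∃ C : ℝ, 0 < C ∧ ∀ n j : ℕ, j ≤ n → ∀ u : ℝ, 0 ≤ u → u ≤ 1 → ∀ g : ℝ × ℝ → ℂ, BCS g →
      (∀ x, g x ≠ 0 → x ∈ Sq 1) → ∀ E : ℕ → Set (ℝ × ℝ), (∀ l, MeasurableSet (E l)) →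
      (∀ i j, i ≠ j → Disjoint (E i) (E j)) → ∀ m : ℝ × ℝ → ℕ, Measurable m → (∀ x, m x ≤ 16 * 4 ^ n) →
      ∀ L : ℕ, (∀ x, m x ≤ L) →
      ‖PR ψ n j L g E m u‖ ≤ C * lg n ^ 2 * ∫ x, ‖g x‖ ^ 2 := by
  obtain ⟨C, hC, hkp⟩ := bd_kp hψ hK h
  refine ⟨C, hC, ?_⟩
  intro n j hj u hu0 hu1 g hg hgs E hE hdisj m hm hmn L hL
  rw [PR_eq hψ hK n j hg hE hm hL]
  exact hkp n j hj u hu0 hu1 g hg hgs E hE hdisj m hm hmn

lemma PR_deriv {K : ℝ} (hK : ∀ s, |deriv ph s| ≤ K) (n j L : ℕ) {g : ℝ × ℝ → ℂ} (hg : BCS g)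
    {E : ℕ → Set (ℝ × ℝ)} (hE : ∀ l, MeasurableSet (E l)) {m : ℝ × ℝ → ℕ} (hm : Measurable m) (u : ℝ) :
    HasDerivAt (PR ph n j L g E m) (PR (deriv ph) n j L g E m u) u := by
  have hset : ∀ l : ℕ, MeasurableSet {x | l < m x} := fun l => hm measurableSet_Ioi
  unfold PR
  refine HasDerivAt.fun_sum fun l _ => ?_
  set f : ℝ × ℝ → ℂ := fun ξ => fwd ((E l).indicator g) ξ *
    starRingEnd ℂ (fwd ({x | l < m x}.indicator g) ξ) with hf
  have hc1 := fwd_cont (hg.indicator (hE l)).integrable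
  have hc2 := fwd_cont (hg.indicator (hset l)).integrable
  have hfc : Continuous f := hc1.mul (Complex.continuous_conj.comp hc2)
  have hfb : ∀ ξ, ‖f ξ‖ ≤ (∫ x, ‖((E l).indicator g) x‖) * ∫ x, ‖({x | l < m x}.indicator g) x‖ := by
    intro ξ
    have e1 : ‖f ξ‖ = ‖fwd ((E l).indicator g) ξ‖ * ‖fwd ({x | l < m x}.indicator g) ξ‖ := by
      rw [hf]
      simp only
      rw [norm_mul, RCLike.norm_conj]
    rw [e1]
    exact mul_le_mul (fwd_norm_le _ _) (fwd_norm_le _ _) (norm_nonneg _)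
      (integral_nonneg fun _ => norm_nonneg _)
  have hb1 : BCS (fun ξ => (mulj (fun _ => 1) n j u l ξ : ℂ) * f ξ) :=
    mulj_BCS continuous_const (K := 1) (by simp) n j u l hfc hfb
  refine (hasDerivAt_integral_of_dominated_loc_of_deriv_le (μ := (volume : Measure (ℝ × ℝ)))
    (F := fun (v : ℝ) ξ => (mulj ph n j v l ξ : ℂ) * f ξ)
    (F' := fun (v : ℝ) ξ => (mulj (deriv ph) n j v l ξ : ℂ) * f ξ) (x₀ := u) (s := Set.univ) Filter.univ_mem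
    (bound := fun ξ => K * ‖(mulj (fun _ => 1) n j u l ξ : ℂ) * f ξ‖) ?_ ?_ ?_ ?_ ?_ ?_).2
  · refine Filter.Eventually.of_forall fun v => ?_
    exact (mulj_BCS bd_ph_cont bd_ph_abs n j v l hfc hfb).meas.aestronglyMeasurable
  · exact (mulj_BCS bd_ph_cont bd_ph_abs n j u l hfc hfb).integrable
  · exact (mulj_BCS bd_dph_cont hK n j u l hfc hfb).meas.aestronglyMeasurable
  · refine Filter.Eventually.of_forall fun ξ v _ => ?_
    have e0 : ∀ a b : ℂ, ‖a * b‖ = ‖a‖ * ‖b‖ := fun a b => norm_mul a b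
    show ‖(mulj (deriv ph) n j v l ξ : ℂ) * f ξ‖ ≤ K * ‖(mulj (fun _ => 1) n j u l ξ : ℂ) * f ξ‖
    rw [e0 _ (f ξ), e0 _ (f ξ), ← mul_assoc]
    have hk : ‖(mulj (deriv ph) n j v l ξ : ℂ)‖ ≤ K * ‖(mulj (fun _ => 1) n j u l ξ : ℂ)‖ := by
      unfold mulj
      simp only [Complex.norm_real, Real.norm_eq_abs, abs_mul, one_mul]
      exact mul_le_mul_of_nonneg_right (hK _) (abs_nonneg _)
    exact mul_le_mul_of_nonneg_right hk (norm_nonneg (f ξ))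
  · exact hb1.integrable.norm.const_mul K
  · refine Filter.Eventually.of_forall fun ξ v _ => ?_
    have h1 : HasDerivAt (fun v : ℝ => (l : ℝ) + v - pp (2 ^ n) ξ / 4 ^ j) 1 v := by
      exact ((hasDerivAt_id v).const_add (l : ℝ)).sub_const (pp (2 ^ n) ξ / 4 ^ j)
    have h2 : HasDerivAt ph (deriv ph ((l : ℝ) + v - pp (2 ^ n) ξ / 4 ^ j))
        ((l : ℝ) + v - pp (2 ^ n) ξ / 4 ^ j) :=
      ((bd_ph_contDiff.differentiable one_ne_zero) _).hasDerivAt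
    have h3 := (h2.comp v h1).mul_const (cut (2 ^ n) ξ ^ 2)
    have h4 : HasDerivAt (fun v : ℝ => ((ph ((l : ℝ) + v - pp (2 ^ n) ξ / 4 ^ j) * cut (2 ^ n) ξ ^ 2 : ℝ) : ℂ))
        ((deriv ph ((l : ℝ) + v - pp (2 ^ n) ξ / 4 ^ j) * 1 * cut (2 ^ n) ξ ^ 2 : ℝ) : ℂ) v := h3.ofReal_comp
    refine (h4.mul_const (f ξ)).congr_deriv ?_
    unfold mulj
    simp

end

end Pool.Agent.Helper32.KS
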