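import Pool.Agent.Helper32.KS.BDb

/-!
# The reduction of the dual block estimate: one scale (helper64)
-/

set_option autoImplicit false

open MeasureTheory
open scoped BigOperators Real

namespace Pool.Agent.Helper32.KS

noncomputable section

lemma bdop_part {w : ℝ × ℝ → ℝ × ℝ → ℝ} (hw : Measurable (Function.uncurry w)) {B : ℝ}
    (hB : ∀ ξ y, |w ξ y| ≤ B) {g : ℝ × ℝ → ℂ} (hg : BCS g) {r : ℝ × ℝ → ℕ} (hr : Measurable r) {L : ℕ}
    (hL : ∀ y, r y < L) (ξ : ℝ × ℝ) :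
    bdop w g ξ = ∑ l ∈ Finset.range L, bdop w ({y | r y = l}.indicator g) ξ := by
  classical
  unfold bdop
  rw [← integral_finsetSum]
  · congr 1
    funext y
    rw [Finset.sum_eq_single (r y)]
    · rw [Set.indicator_of_mem (show y ∈ {x | r x = r y} from rfl)]
    · intro l _ hl
      rw [Set.indicator_of_notMem (show y ∉ {x | r x = l} from fun h => hl h.symm)]
      simp
    · intro h
      exact absurd (Finset.mem_range.2 (hL y)) h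
  · intro l _
    exact bdop_integrable hw hB (hg.indicator (hr (measurableSet_singleton l))) ξ

lemma bdop_zero {w : ℝ × ℝ → ℝ × ℝ → ℝ} {g : ℝ × ℝ → ℂ} {ξ : ℝ × ℝ} (h : ∀ y, g y ≠ 0 → w ξ y = 0) :
    bdop w g ξ = 0 := by
  unfold bdop
  rw [← integral_zero (ℝ × ℝ) ℂ]
  congr 1
  funext y
  by_cases hy : g y = 0
  · rw [hy]; simp
  · rw [h y hy]; simp

/-- the weights -/
def wT (n : ℕ) (r : ℝ × ℝ → ℕ) (j : ℕ) (ξ y : ℝ × ℝ) : ℝ := Th (((r y : ℝ) - pp (2 ^ n) ξ) / 4 ^ j)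

/-- the weights of one scale -/
def wH (n : ℕ) (r : ℝ × ℝ → ℕ) (j : ℕ) (ξ y : ℝ × ℝ) : ℝ := ph (((r y : ℝ) - pp (2 ^ n) ξ) / 4 ^ j)

lemma wT_meas (n : ℕ) {r : ℝ × ℝ → ℕ} (hr : Measurable r) (j : ℕ) :
    Measurable (Function.uncurry (wT n r j)) := by
  have h1 : Measurable (fun p : (ℝ × ℝ) × (ℝ × ℝ) => ((r p.2 : ℝ) - pp (2 ^ n) p.1) / 4 ^ j) := by
    have h2 : Measurable (fun p : (ℝ × ℝ) × (ℝ × ℝ) => (r p.2 : ℝ)) :=
      measurable_from_nat.comp (hr.comp measurable_snd)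
    have h3 : Measurable (fun p : (ℝ × ℝ) × (ℝ × ℝ) => pp (2 ^ n) p.1) :=
      (bd_pp_cont _).measurable.comp measurable_fst
    exact (h2.sub h3).div_const _
  exact bd_Th_cont.measurable.comp h1

lemma wH_meas (n : ℕ) {r : ℝ × ℝ → ℕ} (hr : Measurable r) (j : ℕ) :
    Measurable (Function.uncurry (wH n r j)) := by
  have h1 : Measurable (fun p : (ℝ × ℝ) × (ℝ × ℝ) => ((r p.2 : ℝ) - pp (2 ^ n) p.1) / 4 ^ j) := by
    have h2 : Measurable (fun p : (ℝ × ℝ) × (ℝ × ℝ) => (r p.2 : ℝ)) :=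
      measurable_from_nat.comp (hr.comp measurable_snd)
    have h3 : Measurable (fun p : (ℝ × ℝ) × (ℝ × ℝ) => pp (2 ^ n) p.1) :=
      (bd_pp_cont _).measurable.comp measurable_fst
    exact (h2.sub h3).div_const _
  exact bd_ph_cont.measurable.comp h1

lemma wT_abs (n : ℕ) (r : ℝ × ℝ → ℕ) (j : ℕ) (ξ y : ℝ × ℝ) : |wT n r j ξ y| ≤ 1 := by
  unfold wT
  rw [abs_of_nonneg (bd_Th_nonneg _)]
  exact bd_Th_le _

lemma wH_abs (n : ℕ) (r : ℝ × ℝ → ℕ) (j : ℕ) (ξ y : ℝ × ℝ) : |wH n r j ξ y| ≤ 1 := bd_ph_abs _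

lemma wT_split (n : ℕ) (r : ℝ × ℝ → ℕ) (j : ℕ) (ξ y : ℝ × ℝ) :
    wT n r j ξ y = wH n r j ξ y + wT n r (j + 1) ξ y := by
  unfold wT wH ph
  have : ((r y : ℝ) - pp (2 ^ n) ξ) / 4 ^ j / 4 = ((r y : ℝ) - pp (2 ^ n) ξ) / 4 ^ (j + 1) := by
    rw [pow_succ, div_div]
  rw [this]
  ring

lemma bdop_add {w w1 w2 : ℝ × ℝ → ℝ × ℝ → ℝ} (h1 : Measurable (Function.uncurry w1))
    (h2 : Measurable (Function.uncurry w2)) {B1 B2 : ℝ} (hB1 : ∀ ξ y, |w1 ξ y| ≤ B1)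
    (hB2 : ∀ ξ y, |w2 ξ y| ≤ B2) (h : ∀ ξ y, w ξ y = w1 ξ y + w2 ξ y) {g : ℝ × ℝ → ℂ} (hg : BCS g)
    (ξ : ℝ × ℝ) : bdop w g ξ = bdop w1 g ξ + bdop w2 g ξ := by
  unfold bdop
  rw [← integral_add (bdop_integrable h1 hB1 hg ξ) (bdop_integrable h2 hB2 hg ξ)]
  congr 1
  funext y
  rw [h]
  push_cast
  ring

/-- division with remainder, in the reals -/
lemma bd_divmod (a : ℕ) {Q : ℕ} (hQ : 0 < Q) : (a : ℝ) / Q = ((a / Q : ℕ) : ℝ) + ((a % Q : ℕ) : ℝ) / Q := by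
  have h0 : (Q : ℝ) ≠ 0 := by exact_mod_cast hQ.ne'
  have h1 : (a : ℝ) = Q * ((a / Q : ℕ) : ℝ) + ((a % Q : ℕ) : ℝ) := by exact_mod_cast (Nat.div_add_mod a Q).symm
  rw [div_eq_iff h0, add_mul, div_mul_cancel₀ _ h0]
  linarith

lemma bd_div_lb (a : ℕ) {Q : ℕ} (hQ : 0 < Q) : ((a / Q : ℕ) : ℝ) ≤ (a : ℝ) / Q := by
  rw [bd_divmod a hQ]
  have : 0 ≤ ((a % Q : ℕ) : ℝ) / Q := by positivity
  linarith

lemma bd_div_ub (a : ℕ) {Q : ℕ} (hQ : 0 < Q) : (a : ℝ) / Q < ((a / Q : ℕ) : ℝ) + 1 := by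
  rw [bd_divmod a hQ]
  have h0 : (0 : ℝ) < Q := by exact_mod_cast hQ
  have h1 : ((a % Q : ℕ) : ℝ) < Q := by exact_mod_cast Nat.mod_lt a hQ
  have : ((a % Q : ℕ) : ℝ) / Q < 1 := (div_lt_one h0).2 h1
  linarith

section scale

variable {n j : ℕ} {r : ℝ × ℝ → ℕ} {g : ℝ × ℝ → ℂ}

lemma bd_arg (n j : ℕ) (r : ℝ × ℝ → ℕ) (ξ y : ℝ × ℝ) :
    ((r y : ℝ) - pp (2 ^ n) ξ) / 4 ^ j = (r y : ℝ) / ((4 ^ j : ℕ) : ℝ) - pp (2 ^ n) ξ / 4 ^ j := by
  push_cast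
  rw [sub_div]

/-- the pieces of one scale -/
def AA (n : ℕ) (r : ℝ × ℝ → ℕ) (g : ℝ × ℝ → ℂ) (j l : ℕ) (ξ : ℝ × ℝ) : ℂ :=
  bdop (wH n r j) ({y | r y / 4 ^ j = l}.indicator g) ξ

lemma bd_div_meas (hr : Measurable r) (Q : ℕ) : Measurable (fun y => r y / Q) :=
  (measurable_from_nat (f := fun a : ℕ => a / Q)).comp hr

lemma bd_mod_meas (hr : Measurable r) (Q : ℕ) : Measurable (fun y => r y % Q) :=
  (measurable_from_nat (f := fun a : ℕ => a % Q)).comp hr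

lemma AA_zero (l : ℕ) (ξ : ℝ × ℝ)
    (h : ¬ (pp (2 ^ n) ξ / 4 ^ j < l ∧ (l : ℝ) < pp (2 ^ n) ξ / 4 ^ j + (8 : ℕ))) : AA n r g j l ξ = 0 := by
  unfold AA
  refine bdop_zero fun y hy => ?_
  have hyl : r y / 4 ^ j = l := by
    by_contra hc
    exact hy (Set.indicator_of_notMem (show y ∉ {y | r y / 4 ^ j = l} from hc) _)
  have hQ : 0 < 4 ^ j := by positivity
  have h1 := bd_div_lb (r y) hQ
  have h2 := bd_div_ub (r y) hQ
  rw [hyl] at h1 h2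
  unfold wH
  rw [bd_arg]
  push_cast at h
  rw [not_and_or, not_lt, not_lt] at h
  rcases h with h | h
  · exact bd_ph_zero_left (by linarith)
  · exact bd_ph_zero_right (by linarith)

lemma AA_L2 {K : ℝ} (hK0 : 0 ≤ K) (hK : ∀ s, |deriv ph s| ≤ K) (hr : Measurable r) (hg : BCS g) (l : ℕ) :
    Integrable (fun ξ => ‖AA n r g j l ξ‖ ^ 2) ∧
    ∫ ξ, ‖AA n r g j l ξ‖ ^ 2 ≤ 2 * (1 + K ^ 2) * ∫ x, ‖({y | r y / 4 ^ j = l}.indicator g) x‖ ^ 2 := by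
  have hQ : 0 < 4 ^ j := by positivity
  have hset : MeasurableSet {y | r y / 4 ^ j = l} := bd_div_meas hr _ (measurableSet_singleton l)
  have h := bdop_L2 (ψ := ph) (B := 1) (K := K) bd_ph_abs zero_le_one hK0 (bd_lip bd_ph_contDiff hK)
    (fun ξ => (l : ℝ) - pp (2 ^ n) ξ / 4 ^ j) hQ (U := 1) (k := fun y => r y % 4 ^ j) (bd_mod_meas hr _)
    (hg.indicator hset) (fun y _ => by rw [one_mul]; exact (Nat.mod_lt _ hQ).le) (wH_meas n hr j)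
    (fun ξ y hy => by
      have hyl : r y / 4 ^ j = l := by
        by_contra hc
        exact hy (Set.indicator_of_notMem (show y ∉ {y | r y / 4 ^ j = l} from hc) _)
      unfold wH
      rw [bd_arg, bd_divmod (r y) hQ, hyl]
      congr 1
      ring)
  refine ⟨h.1, h.2.trans (le_of_eq ?_)⟩
  push_cast
  ring

lemma AA_sum (hr : Measurable r) (hg : BCS g) {L : ℕ} (hL : ∀ y, r y < L) (ξ : ℝ × ℝ) :
    bdop (wH n r j) g ξ = ∑ l ∈ Finset.range L, AA n r g j l ξ :=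
  bdop_part (wH_meas n hr j) (wH_abs n r j) hg (bd_div_meas hr _)
    (fun y => lt_of_le_of_lt (Nat.div_le_self _ _) (hL y)) ξ

/-- the sum of the squares of the pieces -/
lemma AA_sum_L2 {K : ℝ} (hK0 : 0 ≤ K) (hK : ∀ s, |deriv ph s| ≤ K) (hr : Measurable r) (hg : BCS g) {L : ℕ}
    (hL : ∀ y, r y < L) :
    ∑ l ∈ Finset.range L, ∫ ξ, ‖AA n r g j l ξ‖ ^ 2 ≤ 2 * (1 + K ^ 2) * ∫ x, ‖g x‖ ^ 2 := by
  rw [← bd_part hg (bd_div_meas hr (4 ^ j)) (L := L) (fun y => lt_of_le_of_lt (Nat.div_le_self _ _) (hL y)),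
    Finset.mul_sum]
  exact Finset.sum_le_sum fun l _ => (AA_L2 hK0 hK hr hg l).2

/-- one scale is bounded -/
lemma HH_L2 {K : ℝ} (hK0 : 0 ≤ K) (hK : ∀ s, |deriv ph s| ≤ K) (hr : Measurable r) (hg : BCS g) {L : ℕ}
    (hL : ∀ y, r y < L) :
    ∫ ξ, ‖(cut (2 ^ n) ξ : ℂ) * bdop (wH n r j) g ξ‖ ^ 2 ≤ 16 * (1 + K ^ 2) * ∫ x, ‖g x‖ ^ 2 := by
  have hD : (0 : ℝ) < 2 ^ n := by positivity
  have hint : Integrable (fun ξ => (8 : ℝ) * ∑ l ∈ Finset.range L, ‖AA n r g j l ξ‖ ^ 2) :=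
    (integrable_finsetSum _ fun l _ => (AA_L2 hK0 hK hr hg l).1).const_mul _
  refine (integral_mono (bdop_BCS (wH_meas n hr j) (wH_abs n r j) hg hD).sq_integrable hint ?_).trans ?_
  · intro ξ
    simp only
    have h1 := bd_few (L := L) (K := 8) (fun l => AA n r g j l ξ)
      (div_nonneg (bd_pp_nonneg (2 ^ n) ξ) (by positivity : (0 : ℝ) ≤ 4 ^ j)) (fun l hl => AA_zero l ξ hl)
    rw [← AA_sum hr hg hL ξ] at h1
    rw [norm_mul, mul_pow, Complex.norm_real, Real.norm_eq_abs, abs_of_nonneg (bd_cut_nonneg _ ξ)]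
    have h2 : cut (2 ^ n) ξ ^ 2 ≤ 1 := pow_le_one₀ (bd_cut_nonneg _ _) (bd_cut_le _ _)
    have h3 : 0 ≤ ‖bdop (wH n r j) g ξ‖ ^ 2 := by positivity
    push_cast at h1
    nlinarith
  · rw [integral_const_mul, integral_finsetSum _ fun l _ => (AA_L2 hK0 hK hr hg l).1]
    have := AA_sum_L2 (n := n) (j := j) hK0 hK hr hg hL
    linarith

/-! ### the near part -/

/-- the near part of the later scales -/
def RR (n : ℕ) (r : ℝ × ℝ → ℕ) (g : ℝ × ℝ → ℂ) (j l : ℕ) (ξ : ℝ × ℝ) : ℂ :=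
  bdop (wT n r (j + 1)) ({y | l ≤ r y / 4 ^ j + 4 ∧ r y / 4 ^ j ≤ l + 8}.indicator g) ξ

lemma near_meas (hr : Measurable r) (j l : ℕ) :
    MeasurableSet {y | l ≤ r y / 4 ^ j + 4 ∧ r y / 4 ^ j ≤ l + 8} := by
  have h : {y | l ≤ r y / 4 ^ j + 4 ∧ r y / 4 ^ j ≤ l + 8} =
      (fun y => r y / 4 ^ j) ⁻¹' {a | l ≤ a + 4 ∧ a ≤ l + 8} := rfl
  rw [h]
  exact bd_div_meas hr _ trivial

lemma RR_L2 {K : ℝ} (hK0 : 0 ≤ K) (hK : ∀ s, |deriv Th s| ≤ K) (hr : Measurable r) (hg : BCS g) (l : ℕ) :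
    Integrable (fun ξ => ‖RR n r g j l ξ‖ ^ 2) ∧
    ∫ ξ, ‖RR n r g j l ξ‖ ^ 2 ≤ 2 * (1 + (13 * K) ^ 2) *
      ∫ x, ‖({y | l ≤ r y / 4 ^ j + 4 ∧ r y / 4 ^ j ≤ l + 8}.indicator g) x‖ ^ 2 := by
  have hQ : 0 < 4 ^ j := by positivity
  have hlip : ∀ a b : ℝ, |Th (a / 4) - Th (b / 4)| ≤ K * |a - b| := by
    intro a b
    refine (bd_lip bd_Th_contDiff hK _ _).trans ?_
    rw [← sub_div, abs_div]
    have : |a - b| / |(4 : ℝ)| ≤ |a - b| := by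
      rw [abs_of_pos (by norm_num : (0 : ℝ) < 4)]
      have := abs_nonneg (a - b)
      linarith
    exact mul_le_mul_of_nonneg_left this hK0
  have hmem : ∀ y, ({y | l ≤ r y / 4 ^ j + 4 ∧ r y / 4 ^ j ≤ l + 8}.indicator g) y ≠ 0 →
      l ≤ r y / 4 ^ j + 4 ∧ r y / 4 ^ j ≤ l + 8 := by
    intro y hy
    by_contra hc
    exact hy (Set.indicator_of_notMem (show y ∉ {y | l ≤ r y / 4 ^ j + 4 ∧ r y / 4 ^ j ≤ l + 8} from hc) _)
  have hsub : ∀ y, l ≤ r y / 4 ^ j + 4 → 4 ^ j * (l - 4) ≤ r y := by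
    intro y hy
    have h1 : l - 4 ≤ r y / 4 ^ j := Nat.sub_le_iff_le_add.2 hy
    calc 4 ^ j * (l - 4) ≤ 4 ^ j * (r y / 4 ^ j) := Nat.mul_le_mul_left _ h1
      _ ≤ r y := Nat.mul_div_le _ _
  have h := bdop_L2 (ψ := fun s => Th (s / 4)) (B := 1) (K := K) (fun s => by
      rw [abs_of_nonneg (bd_Th_nonneg _)]; exact bd_Th_le _) zero_le_one hK0 hlip
    (fun ξ => ((l - 4 : ℕ) : ℝ) - pp (2 ^ n) ξ / 4 ^ j) hQ (U := 13)
    (k := fun y => r y - 4 ^ j * (l - 4))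
    ((measurable_from_nat (f := fun a : ℕ => a - 4 ^ j * (l - 4))).comp hr)
    (hg.indicator (near_meas hr j l)) (fun y hy => by
      obtain ⟨h1, h2⟩ := hmem y hy
      have h3 : r y < 4 ^ j * (r y / 4 ^ j + 1) := Nat.lt_mul_div_succ _ hQ
      have h4 : 4 ^ j * (r y / 4 ^ j + 1) ≤ 4 ^ j * ((l - 4) + 13) := Nat.mul_le_mul_left _ (by omega)
      have h5 : 4 ^ j * ((l - 4) + 13) = 4 ^ j * (l - 4) + 13 * 4 ^ j := by ring
      show r y - 4 ^ j * (l - 4) ≤ 13 * 4 ^ j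
      omega) (wT_meas n hr (j + 1))
    (fun ξ y hy => by
      obtain ⟨h1, h2⟩ := hmem y hy
      have h3 := hsub y h1
      have h4 : ((r y - 4 ^ j * (l - 4) : ℕ) : ℝ) = (r y : ℝ) - ((4 ^ j : ℕ) : ℝ) * ((l - 4 : ℕ) : ℝ) := by
        rw [Nat.cast_sub h3]
        push_cast
        ring
      unfold wT
      rw [h4]
      congr 1
      have h5 : ((4 ^ j : ℕ) : ℝ) = 4 ^ j := by push_cast; ring
      rw [h5, pow_succ]
      have h6 : (4 : ℝ) ^ j ≠ 0 := by positivity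
      field_simp
      ring)
  refine ⟨h.1, h.2.trans (le_of_eq ?_)⟩
  push_cast
  ring

/-- overlap of the near sets -/
lemma near_sum (hr : Measurable r) (hg : BCS g) (j L : ℕ) :
    ∑ l ∈ Finset.range L, ∫ x, ‖({y | l ≤ r y / 4 ^ j + 4 ∧ r y / 4 ^ j ≤ l + 8}.indicator g) x‖ ^ 2 ≤
      13 * ∫ x, ‖g x‖ ^ 2 := by
  classical
  rw [← integral_finsetSum _ fun l _ => (hg.indicator (near_meas hr j l)).sq_integrable,
    ← integral_const_mul]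
  refine integral_mono (integrable_finsetSum _ fun l _ => (hg.indicator (near_meas hr j l)).sq_integrable)
    (hg.sq_integrable.const_mul _) fun x => ?_
  simp only
  have h1 : ∀ l : ℕ, ‖({y | l ≤ r y / 4 ^ j + 4 ∧ r y / 4 ^ j ≤ l + 8}.indicator g) x‖ ^ 2 =
      if l ≤ r x / 4 ^ j + 4 ∧ r x / 4 ^ j ≤ l + 8 then ‖g x‖ ^ 2 else 0 := by
    intro l
    split_ifs with h
    · rw [Set.indicator_of_mem (show x ∈ {y | l ≤ r y / 4 ^ j + 4 ∧ r y / 4 ^ j ≤ l + 8} from h)]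
    · rw [Set.indicator_of_notMem (show x ∉ {y | l ≤ r y / 4 ^ j + 4 ∧ r y / 4 ^ j ≤ l + 8} from h)]
      simp
  simp only [h1]
  rw [← Finset.sum_filter, Finset.sum_const, nsmul_eq_mul]
  have h2 : ((Finset.range L).filter fun l => l ≤ r x / 4 ^ j + 4 ∧ r x / 4 ^ j ≤ l + 8).card ≤ 13 := by
    have h3 : ((Finset.range L).filter fun l => l ≤ r x / 4 ^ j + 4 ∧ r x / 4 ^ j ≤ l + 8) ⊆
        Finset.Icc (r x / 4 ^ j - 8) (r x / 4 ^ j + 4) := by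
      intro l hl
      obtain ⟨_, h4, h5⟩ := Finset.mem_filter.1 hl
      rw [Finset.mem_Icc]
      constructor <;> omega
    refine (Finset.card_le_card h3).trans ?_
    rw [Nat.card_Icc]
    omega
  have h3 : (((Finset.range L).filter fun l => l ≤ r x / 4 ^ j + 4 ∧ r x / 4 ^ j ≤ l + 8).card : ℝ) ≤ 13 := by
    exact_mod_cast h2
  exact mul_le_mul_of_nonneg_right h3 (by positivity)

lemma RR_sum_L2 {K : ℝ} (hK0 : 0 ≤ K) (hK : ∀ s, |deriv Th s| ≤ K) (hr : Measurable r) (hg : BCS g) (L : ℕ) :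
    ∑ l ∈ Finset.range L, ∫ ξ, ‖RR n r g j l ξ‖ ^ 2 ≤ 26 * (1 + (13 * K) ^ 2) * ∫ x, ‖g x‖ ^ 2 := by
  calc ∑ l ∈ Finset.range L, ∫ ξ, ‖RR n r g j l ξ‖ ^ 2
      ≤ ∑ l ∈ Finset.range L, 2 * (1 + (13 * K) ^ 2) *
        ∫ x, ‖({y | l ≤ r y / 4 ^ j + 4 ∧ r y / 4 ^ j ≤ l + 8}.indicator g) x‖ ^ 2 :=
        Finset.sum_le_sum fun l _ => (RR_L2 hK0 hK hr hg l).2
    _ = 2 * (1 + (13 * K) ^ 2) * ∑ l ∈ Finset.range L,
        ∫ x, ‖({y | l ≤ r y / 4 ^ j + 4 ∧ r y / 4 ^ j ≤ l + 8}.indicator g) x‖ ^ 2 := by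
        rw [Finset.mul_sum]
    _ ≤ 2 * (1 + (13 * K) ^ 2) * (13 * ∫ x, ‖g x‖ ^ 2) :=
        mul_le_mul_of_nonneg_left (near_sum hr hg j L) (by positivity)
    _ = _ := by ring

/-- on the support of a piece the later scales split into a near and a far part -/
lemma split_near (hr : Measurable r) (hg : BCS g) (l : ℕ) (ξ : ℝ × ℝ) (h : AA n r g j l ξ ≠ 0) :
    bdop (wT n r (j + 1)) g ξ = fwd ({y | l < r y / 4 ^ j - 8}.indicator g) ξ + RR n r g j l ξ := by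
  have hP : pp (2 ^ n) ξ / 4 ^ j < l ∧ (l : ℝ) < pp (2 ^ n) ξ / 4 ^ j + (8 : ℕ) := by
    by_contra hc
    exact h (AA_zero l ξ hc)
  obtain ⟨hP1, hP2⟩ := hP
  push_cast at hP2
  have hQ : 0 < 4 ^ j := by positivity
  have hfar : MeasurableSet {y | l < r y / 4 ^ j - 8} :=
    (measurable_from_nat (f := fun a : ℕ => a / 4 ^ j - 8)).comp hr measurableSet_Ioi
  have hG := (hg.indicator hfar).integrable
  unfold RR
  rw [← bdop_one]
  unfold bdop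
  rw [← integral_add]
  · congr 1
    funext y
    have h1 := bd_div_lb (r y) hQ
    have h2 := bd_div_ub (r y) hQ
    have harg : ((r y : ℝ) - pp (2 ^ n) ξ) / 4 ^ (j + 1) =
        ((r y : ℝ) / ((4 ^ j : ℕ) : ℝ) - pp (2 ^ n) ξ / 4 ^ j) / 4 := by
      rw [← bd_arg, pow_succ, div_div]
    by_cases c1 : l < r y / 4 ^ j - 8
    · have hn : ¬ (l ≤ r y / 4 ^ j + 4 ∧ r y / 4 ^ j ≤ l + 8) := by omega
      rw [Set.indicator_of_mem (show y ∈ {y | l < r y / 4 ^ j - 8} from c1),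
        Set.indicator_of_notMem (show y ∉ {y | l ≤ r y / 4 ^ j + 4 ∧ r y / 4 ^ j ≤ l + 8} from hn)]
      have h3 : l + 9 ≤ r y / 4 ^ j := by omega
      have h4 : (l : ℝ) + 9 ≤ ((r y / 4 ^ j : ℕ) : ℝ) := by exact_mod_cast h3
      have h5 : wT n r (j + 1) ξ y = 1 := by
        unfold wT
        rw [harg]
        exact bd_Th_one (by linarith)
      rw [h5]
      simp
    · rw [Set.indicator_of_notMem (show y ∉ {y | l < r y / 4 ^ j - 8} from c1)]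
      by_cases c2 : l ≤ r y / 4 ^ j + 4
      · have hn : l ≤ r y / 4 ^ j + 4 ∧ r y / 4 ^ j ≤ l + 8 := ⟨c2, by omega⟩
        rw [Set.indicator_of_mem (show y ∈ {y | l ≤ r y / 4 ^ j + 4 ∧ r y / 4 ^ j ≤ l + 8} from hn)]
        simp
      · rw [Set.indicator_of_notMem (show y ∉ {y | l ≤ r y / 4 ^ j + 4 ∧ r y / 4 ^ j ≤ l + 8} from
          fun h => c2 h.1)]
        have h3 : r y / 4 ^ j + 5 ≤ l := by omega
        have h4 : ((r y / 4 ^ j : ℕ) : ℝ) + 5 ≤ l := by exact_mod_cast h3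
        have h5 : wT n r (j + 1) ξ y = 0 := by
          unfold wT
          rw [harg]
          exact bd_Th_zero (by linarith)
        rw [h5]
        simp
  · have := integrable_mul_e hG (f := fun y => -(y.1 * ξ.1 + y.2 * ξ.2)) (by fun_prop)
    simpa using this
  · exact bdop_integrable (wT_meas n hr (j + 1)) (wT_abs n r (j + 1)) (hg.indicator (near_meas hr j l)) ξ

end scale

end

end Pool.Agent.Helper32.KS
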