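import Pool.Agent.Helper32.KS.BDc

/-!
# The reduction of the dual block estimate to the key proposition (helper64)
-/

set_option autoImplicit false

open MeasureTheory
open scoped BigOperators Real ComplexConjugate

namespace Pool.Agent.Helper32.KS

noncomputable section

section scale

variable {n j : ℕ} {r : ℝ × ℝ → ℕ} {g : ℝ × ℝ → ℂ}

lemma far_meas (hr : Measurable r) (j l : ℕ) : MeasurableSet {y | l < r y / 4 ^ j - 8} :=
  (measurable_from_nat (f := fun a : ℕ => a / 4 ^ j - 8)).comp hr measurableSet_Ioi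

/-- the formula for a piece -/
lemma AA_formula (hr : Measurable r) (hg : BCS g) (l : ℕ) (ξ : ℝ × ℝ) :
    (cut (2 ^ n) ξ : ℂ) ^ 2 * AA n r g j l ξ =
      (mulj ph n j 0 l ξ : ℂ) * fwd ({y | r y / 4 ^ j = l}.indicator g) ξ +
      ∑ i ∈ Finset.range (4 ^ j), ((mulj ph n j (((i : ℝ) + 1) / (4 ^ j : ℕ)) l ξ : ℂ) -
        (mulj ph n j ((i : ℝ) / (4 ^ j : ℕ)) l ξ : ℂ)) *
        fwd (({y | i < r y % 4 ^ j} ∩ {y | r y / 4 ^ j = l}).indicator g) ξ := by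
  have hQ : 0 < 4 ^ j := by positivity
  have hset : MeasurableSet {y | r y / 4 ^ j = l} := bd_div_meas hr _ (measurableSet_singleton l)
  have h := bdop_formula (ψ := ph) ((l : ℝ) - pp (2 ^ n) ξ / 4 ^ j) (4 ^ j) (4 ^ j)
    (k := fun y => r y % 4 ^ j) (bd_mod_meas hr _) (hg.indicator hset) (fun y _ => (Nat.mod_lt _ hQ).le)
    (w := wH n r j) ξ (fun y hy => by
      have hyl : r y / 4 ^ j = l := by
        by_contra hc
        exact hy (Set.indicator_of_notMem (show y ∉ {y | r y / 4 ^ j = l} from hc) _)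
      unfold wH
      rw [bd_arg, bd_divmod (r y) hQ, hyl]
      congr 1
      ring)
  unfold AA
  rw [h, mul_add, Finset.mul_sum]
  congr 1
  · unfold mulj
    push_cast
    rw [add_zero]
    ring
  · refine Finset.sum_congr rfl fun i _ => ?_
    rw [Set.indicator_indicator]
    unfold mulj
    have e1 : (l : ℝ) - pp (2 ^ n) ξ / 4 ^ j + ((i : ℝ) + 1) / ((4 ^ j : ℕ) : ℝ) =
        l + ((i : ℝ) + 1) / ((4 ^ j : ℕ) : ℝ) - pp (2 ^ n) ξ / 4 ^ j := by ring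
    have e2 : (l : ℝ) - pp (2 ^ n) ξ / 4 ^ j + (i : ℝ) / ((4 ^ j : ℕ) : ℝ) =
        l + (i : ℝ) / ((4 ^ j : ℕ) : ℝ) - pp (2 ^ n) ξ / 4 ^ j := by ring
    rw [e1, e2]
    simp only [Complex.ofReal_sub, Complex.ofReal_mul, Complex.ofReal_pow]
    ring

/-- the far part of the cross term -/
lemma far_eq (hr : Measurable r) (hg : BCS g) (L : ℕ) :
    ∑ l ∈ Finset.range L, ∫ ξ, ((cut (2 ^ n) ξ : ℂ) ^ 2 * AA n r g j l ξ) *
      conj (fwd ({y | l < r y / 4 ^ j - 8}.indicator g) ξ) =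
    PR ph n j L g (fun l => {y | r y / 4 ^ j = l}) (fun y => r y / 4 ^ j - 8) 0 +
    ∑ i ∈ Finset.range (4 ^ j),
      (PR ph n j L g (fun l => {y | i < r y % 4 ^ j} ∩ {y | r y / 4 ^ j = l}) (fun y => r y / 4 ^ j - 8)
        (((i : ℝ) + 1) / (4 ^ j : ℕ)) -
      PR ph n j L g (fun l => {y | i < r y % 4 ^ j} ∩ {y | r y / 4 ^ j = l}) (fun y => r y / 4 ^ j - 8)
        ((i : ℝ) / (4 ^ j : ℕ))) := by
  have hset : ∀ l, MeasurableSet {y | r y / 4 ^ j = l} := fun l => bd_div_meas hr _ (measurableSet_singleton l)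
  have hset2 : ∀ i l, MeasurableSet ({y | i < r y % 4 ^ j} ∩ {y | r y / 4 ^ j = l}) := fun i l =>
    (bd_mod_meas hr (4 ^ j) measurableSet_Ioi).inter (hset l)
  have hint : ∀ (u : ℝ) (l : ℕ) (E : Set (ℝ × ℝ)), MeasurableSet E → Integrable fun ξ =>
      (mulj ph n j u l ξ : ℂ) * (fwd (E.indicator g) ξ * conj (fwd ({y | l < r y / 4 ^ j - 8}.indicator g) ξ)) := by
    intro u l E hE
    have hc1 := fwd_cont (hg.indicator hE).integrable
    have hc2 := fwd_cont (hg.indicator (far_meas hr j l)).integrable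
    refine (mulj_BCS bd_ph_cont bd_ph_abs n j u l (hc1.mul (Complex.continuous_conj.comp hc2))
      (C := (∫ x, ‖(E.indicator g) x‖) * ∫ x, ‖({y | l < r y / 4 ^ j - 8}.indicator g) x‖)
      fun ξ => ?_).integrable
    have e1 : ‖fwd (E.indicator g) ξ * conj (fwd ({y | l < r y / 4 ^ j - 8}.indicator g) ξ)‖ =
        ‖fwd (E.indicator g) ξ‖ * ‖fwd ({y | l < r y / 4 ^ j - 8}.indicator g) ξ‖ := by
      rw [norm_mul, RCLike.norm_conj]
    exact e1.le.trans (mul_le_mul (fwd_norm_le _ _) (fwd_norm_le _ _) (norm_nonneg _)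
      (integral_nonneg fun _ => norm_nonneg _))
  have h1 : ∀ l, ∫ ξ, ((cut (2 ^ n) ξ : ℂ) ^ 2 * AA n r g j l ξ) *
      conj (fwd ({y | l < r y / 4 ^ j - 8}.indicator g) ξ) =
      (∫ ξ, (mulj ph n j 0 l ξ : ℂ) * (fwd ({y | r y / 4 ^ j = l}.indicator g) ξ *
        conj (fwd ({y | l < r y / 4 ^ j - 8}.indicator g) ξ))) +
      ∑ i ∈ Finset.range (4 ^ j),
      ((∫ ξ, (mulj ph n j (((i : ℝ) + 1) / (4 ^ j : ℕ)) l ξ : ℂ) *
        (fwd (({y | i < r y % 4 ^ j} ∩ {y | r y / 4 ^ j = l}).indicator g) ξ *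
        conj (fwd ({y | l < r y / 4 ^ j - 8}.indicator g) ξ))) -
      ∫ ξ, (mulj ph n j ((i : ℝ) / (4 ^ j : ℕ)) l ξ : ℂ) *
        (fwd (({y | i < r y % 4 ^ j} ∩ {y | r y / 4 ^ j = l}).indicator g) ξ *
        conj (fwd ({y | l < r y / 4 ^ j - 8}.indicator g) ξ))) := by
    intro l
    have h2 : ∀ i : ℕ, ((∫ ξ, (mulj ph n j (((i : ℝ) + 1) / (4 ^ j : ℕ)) l ξ : ℂ) *
        (fwd (({y | i < r y % 4 ^ j} ∩ {y | r y / 4 ^ j = l}).indicator g) ξ *
        conj (fwd ({y | l < r y / 4 ^ j - 8}.indicator g) ξ))) -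
      ∫ ξ, (mulj ph n j ((i : ℝ) / (4 ^ j : ℕ)) l ξ : ℂ) *
        (fwd (({y | i < r y % 4 ^ j} ∩ {y | r y / 4 ^ j = l}).indicator g) ξ *
        conj (fwd ({y | l < r y / 4 ^ j - 8}.indicator g) ξ))) =
      ∫ ξ, ((mulj ph n j (((i : ℝ) + 1) / (4 ^ j : ℕ)) l ξ : ℂ) *
        (fwd (({y | i < r y % 4 ^ j} ∩ {y | r y / 4 ^ j = l}).indicator g) ξ *
        conj (fwd ({y | l < r y / 4 ^ j - 8}.indicator g) ξ)) -
        (mulj ph n j ((i : ℝ) / (4 ^ j : ℕ)) l ξ : ℂ) *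
        (fwd (({y | i < r y % 4 ^ j} ∩ {y | r y / 4 ^ j = l}).indicator g) ξ *
        conj (fwd ({y | l < r y / 4 ^ j - 8}.indicator g) ξ))) := fun i =>
      (integral_sub (hint _ l _ (hset2 i l)) (hint _ l _ (hset2 i l))).symm
    simp only [h2]
    have hsub : ∀ i : ℕ, Integrable fun ξ => ((mulj ph n j (((i : ℝ) + 1) / (4 ^ j : ℕ)) l ξ : ℂ) *
        (fwd (({y | i < r y % 4 ^ j} ∩ {y | r y / 4 ^ j = l}).indicator g) ξ *
        conj (fwd ({y | l < r y / 4 ^ j - 8}.indicator g) ξ)) -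
        (mulj ph n j ((i : ℝ) / (4 ^ j : ℕ)) l ξ : ℂ) *
        (fwd (({y | i < r y % 4 ^ j} ∩ {y | r y / 4 ^ j = l}).indicator g) ξ *
        conj (fwd ({y | l < r y / 4 ^ j - 8}.indicator g) ξ))) := fun i =>
      (hint _ l _ (hset2 i l)).sub (hint _ l _ (hset2 i l))
    rw [← integral_finsetSum _ fun i _ => hsub i,
      ← integral_add (hint 0 l _ (hset l)) (integrable_finsetSum _ fun i _ => hsub i)]
    congr 1
    funext ξ
    rw [AA_formula hr hg l ξ, add_mul, Finset.sum_mul]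
    congr 1
    · ring
    · refine Finset.sum_congr rfl fun i _ => ?_
      ring
  simp only [h1]
  rw [Finset.sum_add_distrib, Finset.sum_comm]
  unfold PR
  congr 1
  refine Finset.sum_congr rfl fun i _ => ?_
  rw [← Finset.sum_sub_distrib]

/-- the far part is small -/
lemma far_bound (h0 : KP ph) (h1 : KP (deriv ph)) : ∃ C : ℝ, 0 < C ∧ ∀ (n j : ℕ), j ≤ n →
    ∀ (r : ℝ × ℝ → ℕ), Measurable r → (∀ y, r y ≤ 16 * 4 ^ n) → ∀ g : ℝ × ℝ → ℂ, BCS g →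
    (∀ x, g x ≠ 0 → x ∈ Sq 1) → ∀ L : ℕ, (∀ y, r y < L) →
    ‖∑ l ∈ Finset.range L, ∫ ξ, ((cut (2 ^ n) ξ : ℂ) ^ 2 * AA n r g j l ξ) *
      conj (fwd ({y | l < r y / 4 ^ j - 8}.indicator g) ξ)‖ ≤ C * lg n ^ 2 * ∫ x, ‖g x‖ ^ 2 := by
  obtain ⟨K, hK0, hK⟩ := bd_dph_bdd
  obtain ⟨C0, hC0, hp0⟩ := PR_bound bd_ph_cont bd_ph_abs h0
  obtain ⟨C1, hC1, hp1⟩ := PR_bound bd_dph_cont hK h1
  refine ⟨C0 + C1, by positivity, ?_⟩
  intro n j hj r hr hrn g hg hgs L hL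
  have hQ : 0 < 4 ^ j := by positivity
  have hQ0 : (0 : ℝ) < ((4 ^ j : ℕ) : ℝ) := by exact_mod_cast hQ
  have hset : ∀ l, MeasurableSet {y | r y / 4 ^ j = l} := fun l => bd_div_meas hr _ (measurableSet_singleton l)
  have hset2 : ∀ i l, MeasurableSet ({y | i < r y % 4 ^ j} ∩ {y | r y / 4 ^ j = l}) := fun i l =>
    (bd_mod_meas hr (4 ^ j) measurableSet_Ioi).inter (hset l)
  have hmm : Measurable (fun y => r y / 4 ^ j - 8) :=
    (measurable_from_nat (f := fun a : ℕ => a / 4 ^ j - 8)).comp hr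
  have hmle : ∀ y, r y / 4 ^ j - 8 ≤ r y := fun y => (Nat.sub_le _ _).trans (Nat.div_le_self _ _)
  have hd1 : ∀ a b : ℕ, a ≠ b → Disjoint {y | r y / 4 ^ j = a} {y | r y / 4 ^ j = b} := by
    intro a b hab
    rw [Set.disjoint_left]
    intro y hy1 hy2
    exact hab (hy1.symm.trans hy2)
  rw [far_eq hr hg L]
  refine (norm_add_le _ _).trans ?_
  have hG : 0 ≤ ∫ x, ‖g x‖ ^ 2 := integral_nonneg fun _ => by positivity
  have b0 := hp0 n j hj 0 le_rfl zero_le_one g hg hgs (fun l => {y | r y / 4 ^ j = l}) hset hd1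
    (fun y => r y / 4 ^ j - 8) hmm (fun y => (hmle y).trans (hrn y)) L (fun y => (hmle y).trans (hL y).le)
  have b1 : ∀ i ∈ Finset.range (4 ^ j),
      ‖PR ph n j L g (fun l => {y | i < r y % 4 ^ j} ∩ {y | r y / 4 ^ j = l}) (fun y => r y / 4 ^ j - 8)
        (((i : ℝ) + 1) / (4 ^ j : ℕ)) -
      PR ph n j L g (fun l => {y | i < r y % 4 ^ j} ∩ {y | r y / 4 ^ j = l}) (fun y => r y / 4 ^ j - 8)
        ((i : ℝ) / (4 ^ j : ℕ))‖ ≤ (C1 * lg n ^ 2 * ∫ x, ‖g x‖ ^ 2) * (1 / (4 ^ j : ℕ)) := by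
    intro i hi
    have hi' : (i : ℝ) + 1 ≤ (4 ^ j : ℕ) := by exact_mod_cast Finset.mem_range.1 hi
    have hE := hset2 i
    have hdisj : ∀ a b : ℕ, a ≠ b → Disjoint ({y | i < r y % 4 ^ j} ∩ {y | r y / 4 ^ j = a})
        ({y | i < r y % 4 ^ j} ∩ {y | r y / 4 ^ j = b}) := fun a b hab =>
      (hd1 a b hab).mono Set.inter_subset_right Set.inter_subset_right
    have m1 := Convex.norm_image_sub_le_of_norm_hasDerivWithin_le (s := Set.Icc (0 : ℝ) 1)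
      (f := PR ph n j L g (fun l => {y | i < r y % 4 ^ j} ∩ {y | r y / 4 ^ j = l}) (fun y => r y / 4 ^ j - 8))
      (f' := PR (deriv ph) n j L g (fun l => {y | i < r y % 4 ^ j} ∩ {y | r y / 4 ^ j = l})
        (fun y => r y / 4 ^ j - 8))
      (C := C1 * lg n ^ 2 * ∫ x, ‖g x‖ ^ 2) (x := (i : ℝ) / (4 ^ j : ℕ)) (y := ((i : ℝ) + 1) / (4 ^ j : ℕ))
      (fun u _ => (PR_deriv hK n j L hg hE hmm u).hasDerivWithinAt)
      (fun u hu => hp1 n j hj u hu.1 hu.2 g hg hgs _ hE hdisj _ hmm (fun y => (hmle y).trans (hrn y)) L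
        (fun y => (hmle y).trans (hL y).le)) (convex_Icc 0 1)
      ⟨by positivity, by rw [div_le_one hQ0]; linarith⟩ ⟨by positivity, by rw [div_le_one hQ0]; exact hi'⟩
    refine m1.trans (le_of_eq ?_)
    congr 1
    have : ((i : ℝ) + 1) / ((4 ^ j : ℕ) : ℝ) - (i : ℝ) / ((4 ^ j : ℕ) : ℝ) = 1 / ((4 ^ j : ℕ) : ℝ) := by ring
    rw [this, Real.norm_of_nonneg (by positivity)]
  have b2 := (norm_sum_le _ _).trans (Finset.sum_le_sum b1)
  rw [Finset.sum_const, Finset.card_range, nsmul_eq_mul] at b2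
  have e1 : ((4 ^ j : ℕ) : ℝ) * ((C1 * lg n ^ 2 * ∫ x, ‖g x‖ ^ 2) * (1 / ((4 ^ j : ℕ) : ℝ))) =
      C1 * lg n ^ 2 * ∫ x, ‖g x‖ ^ 2 := by
    field_simp
  rw [e1] at b2
  calc _ ≤ C0 * lg n ^ 2 * (∫ x, ‖g x‖ ^ 2) + C1 * lg n ^ 2 * ∫ x, ‖g x‖ ^ 2 := add_le_add b0 b2
    _ = _ := by ring

/-- the near part of the cross term -/
lemma near_bound {K : ℝ} (hK0 : 0 ≤ K) (hK : ∀ s, |deriv ph s| ≤ K) (hK' : ∀ s, |deriv Th s| ≤ K)
    (hr : Measurable r) (hg : BCS g) {L : ℕ} (hL : ∀ y, r y < L) :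
    ‖∑ l ∈ Finset.range L, ∫ ξ, ((cut (2 ^ n) ξ : ℂ) ^ 2 * AA n r g j l ξ) * conj (RR n r g j l ξ)‖ ≤
      (1 + K ^ 2 + 13 * (1 + (13 * K) ^ 2)) * ∫ x, ‖g x‖ ^ 2 := by
  have h1 : ∀ l ∈ Finset.range L, ‖∫ ξ, ((cut (2 ^ n) ξ : ℂ) ^ 2 * AA n r g j l ξ) * conj (RR n r g j l ξ)‖ ≤
      (1 / 2) * (∫ ξ, ‖AA n r g j l ξ‖ ^ 2) + (1 / 2) * ∫ ξ, ‖RR n r g j l ξ‖ ^ 2 := by
    intro l _
    have i1 := (AA_L2 (n := n) (j := j) hK0 hK hr hg l).1
    have i2 := (RR_L2 (n := n) (j := j) hK0 hK' hr hg l).1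
    refine (norm_integral_le_of_norm_le ((i1.const_mul (1 / 2)).add (i2.const_mul (1 / 2)))
      (Filter.Eventually.of_forall fun ξ => ?_)).trans (le_of_eq ?_)
    · simp only [Pi.add_apply]
      have e1 : ‖((cut (2 ^ n) ξ : ℂ) ^ 2 * AA n r g j l ξ) * conj (RR n r g j l ξ)‖ =
          cut (2 ^ n) ξ ^ 2 * (‖AA n r g j l ξ‖ * ‖RR n r g j l ξ‖) := by
        rw [norm_mul, norm_mul, norm_pow, RCLike.norm_conj, Complex.norm_real, Real.norm_eq_abs,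
          abs_of_nonneg (bd_cut_nonneg _ ξ)]
        ring
      rw [e1]
      have h2 : cut (2 ^ n) ξ ^ 2 ≤ 1 := pow_le_one₀ (bd_cut_nonneg _ _) (bd_cut_le _ _)
      have h3 : 0 ≤ ‖AA n r g j l ξ‖ * ‖RR n r g j l ξ‖ := by positivity
      nlinarith [sq_nonneg (‖AA n r g j l ξ‖ - ‖RR n r g j l ξ‖)]
    · simp only [Pi.add_apply]
      rw [integral_add (i1.const_mul _) (i2.const_mul _), integral_const_mul, integral_const_mul]
  refine (norm_sum_le _ _).trans ((Finset.sum_le_sum h1).trans ?_)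
  rw [Finset.sum_add_distrib, ← Finset.mul_sum, ← Finset.mul_sum]
  have h2 := AA_sum_L2 (n := n) (j := j) hK0 hK hr hg hL
  have h3 := RR_sum_L2 (n := n) (j := j) hK0 hK' hr hg L
  linarith

/-- the cross term -/
lemma cross_eq (hr : Measurable r) (hg : BCS g) {L : ℕ} (hL : ∀ y, r y < L) :
    ∫ ξ, ((cut (2 ^ n) ξ : ℂ) * bdop (wH n r j) g ξ) *
      conj ((cut (2 ^ n) ξ : ℂ) * bdop (wT n r (j + 1)) g ξ) =
    (∑ l ∈ Finset.range L, ∫ ξ, ((cut (2 ^ n) ξ : ℂ) ^ 2 * AA n r g j l ξ) *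
      conj (fwd ({y | l < r y / 4 ^ j - 8}.indicator g) ξ)) +
    ∑ l ∈ Finset.range L, ∫ ξ, ((cut (2 ^ n) ξ : ℂ) ^ 2 * AA n r g j l ξ) * conj (RR n r g j l ξ) := by
  have hD : (0 : ℝ) < 2 ^ n := by positivity
  have hset : ∀ l, MeasurableSet {y | r y / 4 ^ j = l} := fun l => bd_div_meas hr _ (measurableSet_singleton l)
  have hb : ∀ l, BCS (fun ξ => (cut (2 ^ n) ξ : ℂ) * AA n r g j l ξ) := fun l =>
    bdop_BCS (wH_meas n hr j) (wH_abs n r j) (hg.indicator (hset l)) hD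
  have hcn : ∀ ξ, ‖(cut (2 ^ n) ξ : ℂ)‖ ≤ 1 := by
    intro ξ
    rw [Complex.norm_real, Real.norm_eq_abs, abs_of_nonneg (bd_cut_nonneg _ ξ)]
    exact bd_cut_le _ _
  have hcm : Measurable (fun ξ => (cut (2 ^ n) ξ : ℂ)) := by fun_prop
  have i0 : ∀ l (f : ℝ × ℝ → ℂ) (C : ℝ), Measurable f → (∀ ξ, ‖f ξ‖ ≤ C) →
      Integrable (fun ξ => ((cut (2 ^ n) ξ : ℂ) ^ 2 * AA n r g j l ξ) * conj (f ξ)) := by
    intro l f C hf hC
    have h1 := ((hb l).mul_meas (g := fun ξ => (cut (2 ^ n) ξ : ℂ) * conj (f ξ)) (C := 1 * C)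
      (hcm.mul (Complex.continuous_conj.measurable.comp hf)) (fun ξ => by
        have e1 : ‖(cut (2 ^ n) ξ : ℂ) * conj (f ξ)‖ = ‖(cut (2 ^ n) ξ : ℂ)‖ * ‖f ξ‖ := by
          rw [norm_mul, RCLike.norm_conj]
        exact e1.le.trans (mul_le_mul (hcn ξ) (hC ξ) (norm_nonneg _) zero_le_one))).integrable
    refine h1.congr (Filter.Eventually.of_forall fun ξ => ?_)
    simp only
    ring
  have hGc : ∀ l, Continuous (fwd ({y | l < r y / 4 ^ j - 8}.indicator g)) := fun l =>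
    fwd_cont (hg.indicator (far_meas hr j l)).integrable
  have i1 : ∀ l, Integrable (fun ξ => ((cut (2 ^ n) ξ : ℂ) ^ 2 * AA n r g j l ξ) *
      conj (fwd ({y | l < r y / 4 ^ j - 8}.indicator g) ξ)) := fun l =>
    i0 l _ _ (hGc l).measurable (fun ξ => fwd_norm_le _ ξ)
  have i2 : ∀ l, Integrable (fun ξ => ((cut (2 ^ n) ξ : ℂ) ^ 2 * AA n r g j l ξ) * conj (RR n r g j l ξ)) :=
    fun l => i0 l _ _ (bdop_meas (wT_meas n hr (j + 1)) (hg.indicator (near_meas hr j l)))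
      (fun ξ => bdop_norm_le (wT_abs n r (j + 1)) (hg.indicator (near_meas hr j l)) ξ)
  have i12 : ∀ l, Integrable (fun ξ => ((cut (2 ^ n) ξ : ℂ) ^ 2 * AA n r g j l ξ) *
      conj (fwd ({y | l < r y / 4 ^ j - 8}.indicator g) ξ) +
      ((cut (2 ^ n) ξ : ℂ) ^ 2 * AA n r g j l ξ) * conj (RR n r g j l ξ)) := fun l => (i1 l).add (i2 l)
  rw [← Finset.sum_add_distrib]
  simp only [← integral_add (i1 _) (i2 _)]
  rw [← integral_finsetSum _ fun l _ => i12 l]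
  congr 1
  funext ξ
  rw [AA_sum hr hg hL ξ, map_mul, Complex.conj_ofReal]
  have h1 : ∀ l, ((cut (2 ^ n) ξ : ℂ) ^ 2 * AA n r g j l ξ) *
      conj (fwd ({y | l < r y / 4 ^ j - 8}.indicator g) ξ) +
      ((cut (2 ^ n) ξ : ℂ) ^ 2 * AA n r g j l ξ) * conj (RR n r g j l ξ) =
      ((cut (2 ^ n) ξ : ℂ) ^ 2 * AA n r g j l ξ) * conj (bdop (wT n r (j + 1)) g ξ) := by
    intro l
    by_cases h : AA n r g j l ξ = 0
    · rw [h]; ring
    · rw [split_near hr hg l ξ h, map_add]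
      ring
  simp only [h1]
  rw [← Finset.sum_mul, ← Finset.mul_sum]
  ring

end scale

/-- one step of the recursion -/
lemma bd_step (h0 : KP ph) (h1 : KP (deriv ph)) : ∃ C : ℝ, 0 < C ∧ ∀ (n : ℕ) (r : ℝ × ℝ → ℕ), Measurable r →
    (∀ y, r y ≤ 16 * 4 ^ n) → ∀ g : ℝ × ℝ → ℂ, BCS g → (∀ x, g x ≠ 0 → x ∈ Sq 1) →
    ∀ j : ℕ, j ≤ n + 1 →
    ∫ ξ, ‖(cut (2 ^ n) ξ : ℂ) * bdop (wT n r j) g ξ‖ ^ 2 ≤
      (∫ ξ, ‖(cut (2 ^ n) ξ : ℂ) * bdop (wT n r (j + 1)) g ξ‖ ^ 2) + C * lg n ^ 2 * ∫ x, ‖g x‖ ^ 2 := by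
  obtain ⟨K1, hK10, hK1⟩ := bd_dph_bdd
  obtain ⟨K2, hK20, hK2⟩ := bd_dTh_bdd
  obtain ⟨C, hC, hfar⟩ := far_bound h0 h1
  set K := max K1 K2 with hK
  have hK0 : 0 ≤ K := hK10.le.trans (le_max_left _ _)
  have hKa : ∀ s, |deriv ph s| ≤ K := fun s => (hK1 s).trans (le_max_left _ _)
  have hKb : ∀ s, |deriv Th s| ≤ K := fun s => (hK2 s).trans (le_max_right _ _)
  refine ⟨16 * (1 + K ^ 2) + 2 * (C + (1 + K ^ 2 + 13 * (1 + (13 * K) ^ 2))), by positivity, ?_⟩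
  intro n r hr hrn g hg hgs j hj
  have hD : (0 : ℝ) < 2 ^ n := by positivity
  have hlg := bd_lg_one n
  have hlg2 : 1 ≤ lg n ^ 2 := one_le_pow₀ hlg
  have hG : 0 ≤ ∫ x, ‖g x‖ ^ 2 := integral_nonneg fun _ => by positivity
  set H : ℝ × ℝ → ℂ := fun ξ => (cut (2 ^ n) ξ : ℂ) * bdop (wH n r j) g ξ with hH
  set T : ℝ × ℝ → ℂ := fun ξ => (cut (2 ^ n) ξ : ℂ) * bdop (wT n r (j + 1)) g ξ with hT
  have hHB : BCS H := bdop_BCS (wH_meas n hr j) (wH_abs n r j) hg hD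
  have hTB : BCS T := bdop_BCS (wT_meas n hr (j + 1)) (wT_abs n r (j + 1)) hg hD
  have hsplit : ∀ ξ, (cut (2 ^ n) ξ : ℂ) * bdop (wT n r j) g ξ = H ξ + T ξ := by
    intro ξ
    rw [hH, hT]
    simp only
    rw [bdop_add (wH_meas n hr j) (wT_meas n hr (j + 1)) (wH_abs n r j) (wT_abs n r (j + 1))
      (wT_split n r j) hg ξ]
    ring
  have hL : ∀ y, r y < 16 * 4 ^ n + 1 := fun y => Nat.lt_succ_of_le (hrn y)
  have hcross : Integrable (fun ξ => H ξ * conj (T ξ)) := by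
    obtain ⟨B, hB⟩ := hTB.bdd
    exact (hHB.mul_meas (g := fun ξ => conj (T ξ)) (C := B)
      (Complex.continuous_conj.measurable.comp hTB.meas) (fun ξ => by
        rw [RCLike.norm_conj]; exact hB ξ)).integrable
  have hcrossb : ‖∫ ξ, H ξ * conj (T ξ)‖ ≤ (C + (1 + K ^ 2 + 13 * (1 + (13 * K) ^ 2))) * lg n ^ 2 *
      ∫ x, ‖g x‖ ^ 2 := by
    by_cases hjn : j ≤ n
    · rw [hH, hT, cross_eq hr hg hL]
      refine (norm_add_le _ _).trans ?_
      have a1 := hfar n j hjn r hr hrn g hg hgs _ hL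
      have a2 := near_bound (n := n) (j := j) hK0 hKa hKb hr hg hL
      have a3 : (1 + K ^ 2 + 13 * (1 + (13 * K) ^ 2)) * ∫ x, ‖g x‖ ^ 2 ≤
          (1 + K ^ 2 + 13 * (1 + (13 * K) ^ 2)) * lg n ^ 2 * ∫ x, ‖g x‖ ^ 2 := by
        refine mul_le_mul_of_nonneg_right ?_ hG
        have : 0 ≤ 1 + K ^ 2 + 13 * (1 + (13 * K) ^ 2) := by positivity
        nlinarith
      linarith
    · have hj1 : j = n + 1 := by omega
      have hT0 : ∀ ξ, T ξ = 0 := by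
        intro ξ
        have : bdop (wT n r (j + 1)) g ξ = 0 := by
          refine bdop_zero fun y _ => ?_
          unfold wT
          refine bd_Th_zero ?_
          rw [div_le_one (by positivity), hj1]
          have h2 := bd_pp_nonneg (2 ^ n) ξ
          have h3 : (r y : ℝ) ≤ 16 * 4 ^ n := by exact_mod_cast hrn y
          have h4 : (4 : ℝ) ^ (n + 1 + 1) = 16 * 4 ^ n := by ring
          linarith
        rw [hT]
        simp only
        rw [this, mul_zero]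
      have : (fun ξ => H ξ * conj (T ξ)) = fun _ => 0 := by
        funext ξ
        rw [hT0 ξ]
        simp
      rw [this]
      simp only [integral_zero, norm_zero]
      positivity
  have hHL := HH_L2 (n := n) (j := j) hK0 hKa hr hg hL
  have e1 : ∀ ξ, ‖(cut (2 ^ n) ξ : ℂ) * bdop (wT n r j) g ξ‖ ^ 2 =
      ‖H ξ‖ ^ 2 + ‖T ξ‖ ^ 2 + 2 * (H ξ * conj (T ξ)).re := by
    intro ξ
    rw [hsplit ξ, ← Complex.normSq_eq_norm_sq, ← Complex.normSq_eq_norm_sq, ← Complex.normSq_eq_norm_sq,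
      Complex.normSq_add]
  simp only [e1]
  have hre : Integrable (fun ξ => (H ξ * conj (T ξ)).re) := hcross.re
  have hs : Integrable (fun ξ => ‖H ξ‖ ^ 2 + ‖T ξ‖ ^ 2) := hHB.sq_integrable.add hTB.sq_integrable
  rw [integral_add hs (hre.const_mul 2),
    integral_add hHB.sq_integrable hTB.sq_integrable, integral_const_mul]
  have e2 : ∫ ξ, (H ξ * conj (T ξ)).re = (∫ ξ, H ξ * conj (T ξ)).re := integral_re hcross
  rw [e2]
  have e3 : (∫ ξ, H ξ * conj (T ξ)).re ≤ ‖∫ ξ, H ξ * conj (T ξ)‖ := Complex.re_le_norm _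
  have e4 : 16 * (1 + K ^ 2) * ∫ x, ‖g x‖ ^ 2 ≤ 16 * (1 + K ^ 2) * lg n ^ 2 * ∫ x, ‖g x‖ ^ 2 := by
    refine mul_le_mul_of_nonneg_right ?_ hG
    have : 0 ≤ 16 * (1 + K ^ 2) := by positivity
    nlinarith
  have e5 : ∫ ξ, ‖H ξ‖ ^ 2 ≤ 16 * (1 + K ^ 2) * ∫ x, ‖g x‖ ^ 2 := hHL
  linarith

/-- the error of the smooth decomposition -/
lemma bd_omega {n : ℕ} {r : ℝ × ℝ → ℕ} (hr : Measurable r) {L : ℕ} (hL : ∀ y, r y < L) {g : ℝ × ℝ → ℂ}
    (hg : BCS g) (w : ℝ × ℝ → ℝ × ℝ → ℝ)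
    (hw : ∀ ξ y, w ξ y = (if pp (2 ^ n) ξ < r y then 1 else 0) - wT n r 0 ξ y)
    (hwm : Measurable (Function.uncurry w)) :
    BCS (fun ξ => (cut (2 ^ n) ξ : ℂ) * bdop w g ξ) ∧
    ∫ ξ, ‖(cut (2 ^ n) ξ : ℂ) * bdop w g ξ‖ ^ 2 ≤ 2 * ∫ x, ‖g x‖ ^ 2 := by
  have hD : (0 : ℝ) < 2 ^ n := by positivity
  have hwa : ∀ ξ y, |w ξ y| ≤ 1 := by
    intro ξ y
    rw [hw]
    have h1 : 0 ≤ wT n r 0 ξ y := bd_Th_nonneg _
    have h2 : wT n r 0 ξ y ≤ 1 := bd_Th_le _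
    split_ifs <;> rw [abs_le] <;> constructor <;> linarith
  have hB := bdop_BCS hwm hwa hg hD
  refine ⟨hB, ?_⟩
  have hset : ∀ l : ℕ, MeasurableSet {y | r y = l} := fun l => hr (measurableSet_singleton l)
  have hpiece : ∀ l ξ, bdop w ({y | r y = l}.indicator g) ξ =
      (((if pp (2 ^ n) ξ < l then (1 : ℝ) else 0) - Th ((l : ℝ) - pp (2 ^ n) ξ) : ℝ) : ℂ) *
        fwd ({y | r y = l}.indicator g) ξ := by
    intro l ξ
    unfold bdop fwd
    rw [← integral_const_mul]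
    congr 1
    funext y
    by_cases hy : r y = l
    · rw [hw]
      unfold wT
      rw [hy]
      simp
    · rw [Set.indicator_of_notMem (show y ∉ {y | r y = l} from hy)]
      simp
  have hint : Integrable (fun ξ => (2 : ℝ) * ∑ l ∈ Finset.range L, ‖fwd ({y | r y = l}.indicator g) ξ‖ ^ 2) :=
    (integrable_finsetSum _ fun l _ => (planch_fwd (hg.indicator (hset l))).1).const_mul _
  refine (integral_mono hB.sq_integrable hint ?_).trans ?_
  · intro ξ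
    simp only
    have h1 := bd_few (L := L) (K := 2) (fun l => bdop w ({y | r y = l}.indicator g) ξ)
      (bd_pp_nonneg (2 ^ n) ξ) (fun l hl => by
        rw [hpiece l ξ]
        push_cast at hl
        rw [not_and_or, not_lt, not_lt] at hl
        have : (if pp (2 ^ n) ξ < l then (1 : ℝ) else 0) - Th ((l : ℝ) - pp (2 ^ n) ξ) = 0 := by
          rcases hl with h | h
          · rw [if_neg (not_lt.2 h), bd_Th_zero (by linarith), sub_zero]
          · rw [if_pos (by linarith), bd_Th_one (by linarith), sub_self]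
        rw [this]
        simp)
    rw [← bdop_part hwm hwa hg hr hL ξ] at h1
    push_cast at h1
    rw [norm_mul, mul_pow, Complex.norm_real, Real.norm_eq_abs, abs_of_nonneg (bd_cut_nonneg _ ξ)]
    have h2 : cut (2 ^ n) ξ ^ 2 ≤ 1 := pow_le_one₀ (bd_cut_nonneg _ _) (bd_cut_le _ _)
    have h3 : 0 ≤ ‖bdop w g ξ‖ ^ 2 := by positivity
    have h4 : ∑ l ∈ Finset.range L, ‖bdop w ({y | r y = l}.indicator g) ξ‖ ^ 2 ≤
        ∑ l ∈ Finset.range L, ‖fwd ({y | r y = l}.indicator g) ξ‖ ^ 2 := by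
      refine Finset.sum_le_sum fun l _ => ?_
      rw [hpiece l ξ, norm_mul, mul_pow, Complex.norm_real, Real.norm_eq_abs]
      have h5 : |(if pp (2 ^ n) ξ < l then (1 : ℝ) else 0) - Th ((l : ℝ) - pp (2 ^ n) ξ)| ≤ 1 := by
        have h1 : 0 ≤ Th ((l : ℝ) - pp (2 ^ n) ξ) := bd_Th_nonneg _
        have h2 : Th ((l : ℝ) - pp (2 ^ n) ξ) ≤ 1 := bd_Th_le _
        split_ifs <;> rw [abs_le] <;> constructor <;> linarith
      have h6 := pow_le_one₀ (n := 2) (abs_nonneg _) h5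
      have h7 : 0 ≤ ‖fwd ({y | r y = l}.indicator g) ξ‖ ^ 2 := by positivity
      nlinarith
    nlinarith
  · rw [integral_const_mul, integral_finsetSum _ fun l _ => (planch_fwd (hg.indicator (hset l))).1]
    have h1 : ∀ l ∈ Finset.range L, ∫ ξ, ‖fwd ({y | r y = l}.indicator g) ξ‖ ^ 2 =
        ∫ x, ‖({y | r y = l}.indicator g) x‖ ^ 2 := fun l _ => (planch_fwd (hg.indicator (hset l))).2
    rw [Finset.sum_congr rfl h1, bd_part hg hr hL]

/-- **The dual block estimate follows from the key proposition.** -/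
theorem bd_of_kp (h0 : KP ph) (h1 : KP (deriv ph)) : BD := by
  obtain ⟨C, hC, hstep⟩ := bd_step h0 h1
  refine ⟨4 + 4 * C, by positivity, ?_⟩
  intro n g hg hgs r hr hrn
  have hD : (0 : ℝ) < 2 ^ n := by positivity
  have hlg := bd_lg_one n
  have hlg2 : 1 ≤ lg n ^ 2 := one_le_pow₀ hlg
  have hG : 0 ≤ ∫ x, ‖g x‖ ^ 2 := integral_nonneg fun _ => by positivity
  have hL : ∀ y, r y < 16 * 4 ^ n + 1 := fun y => Nat.lt_succ_of_le (hrn y)
  -- the recursion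
  have hlast : ∫ ξ, ‖(cut (2 ^ n) ξ : ℂ) * bdop (wT n r (n + 2)) g ξ‖ ^ 2 = 0 := by
    have hT0 : ∀ ξ, bdop (wT n r (n + 2)) g ξ = 0 := by
      intro ξ
      refine bdop_zero fun y _ => ?_
      unfold wT
      refine bd_Th_zero ?_
      rw [div_le_one (by positivity)]
      have h2 := bd_pp_nonneg (2 ^ n) ξ
      have h3 : (r y : ℝ) ≤ 16 * 4 ^ n := by exact_mod_cast hrn y
      have h4 : (4 : ℝ) ^ (n + 2) = 16 * 4 ^ n := by ring
      linarith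
    simp [hT0]
  have hrec : ∀ k : ℕ, k ≤ n + 2 → ∫ ξ, ‖(cut (2 ^ n) ξ : ℂ) * bdop (wT n r (n + 2 - k)) g ξ‖ ^ 2 ≤
      k * (C * lg n ^ 2 * ∫ x, ‖g x‖ ^ 2) := by
    intro k
    induction k with
    | zero =>
      intro _
      rw [Nat.sub_zero, hlast]
      simp
    | succ k ih =>
      intro hk
      have h2 := ih (by omega)
      have h3 := hstep n r hr hrn g hg hgs (n + 2 - (k + 1)) (by omega)
      have h4 : n + 2 - (k + 1) + 1 = n + 2 - k := by omega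
      rw [h4] at h3
      have h5 : ((k + 1 : ℕ) : ℝ) = k + 1 := by push_cast; ring
      rw [h5]
      linarith
  have hT := hrec (n + 2) le_rfl
  rw [Nat.sub_self] at hT
  -- the error term
  set w : ℝ × ℝ → ℝ × ℝ → ℝ := fun ξ y => (if pp (2 ^ n) ξ < r y then 1 else 0) - wT n r 0 ξ y with hw
  set w1 : ℝ × ℝ → ℝ × ℝ → ℝ := fun ξ y => (if pp (2 ^ n) ξ < r y then 1 else 0) with hw1
  have hw1m : Measurable (Function.uncurry w1) := by
    have h2 : Measurable (fun p : (ℝ × ℝ) × (ℝ × ℝ) => (r p.2 : ℝ)) :=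
      measurable_from_nat.comp (hr.comp measurable_snd)
    have h3 : Measurable (fun p : (ℝ × ℝ) × (ℝ × ℝ) => pp (2 ^ n) p.1) :=
      (bd_pp_cont _).measurable.comp measurable_fst
    exact Measurable.ite (measurableSet_lt h3 h2) measurable_const measurable_const
  have hwm : Measurable (Function.uncurry w) := hw1m.sub (wT_meas n hr 0)
  obtain ⟨hΩB, hΩ⟩ := bd_omega hr hL hg w (fun _ _ => rfl) hwm
  have hTB : BCS (fun ξ => (cut (2 ^ n) ξ : ℂ) * bdop (wT n r 0) g ξ) :=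
    bdop_BCS (wT_meas n hr 0) (wT_abs n r 0) hg hD
  have hwa : ∀ ξ y, |w ξ y| ≤ 1 := by
    intro ξ y
    have h1 : 0 ≤ wT n r 0 ξ y := bd_Th_nonneg _
    have h2 : wT n r 0 ξ y ≤ 1 := bd_Th_le _
    simp only [hw]
    split_ifs <;> rw [abs_le] <;> constructor <;> linarith
  have hsplit : ∀ ξ, Hb n g r ξ = (cut (2 ^ n) ξ : ℂ) * bdop w g ξ + (cut (2 ^ n) ξ : ℂ) * bdop (wT n r 0) g ξ := by
    intro ξ
    have h2 : bdop w1 g ξ = bdop w g ξ + bdop (wT n r 0) g ξ :=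
      bdop_add hwm (wT_meas n hr 0) hwa (wT_abs n r 0) (fun ξ y => by simp [hw, hw1]) hg ξ
    have h3 : bdop w1 g ξ = fwd ({y | pp (2 ^ n) ξ < r y}.indicator g) ξ := by
      unfold bdop fwd
      congr 1
      funext y
      by_cases hy : pp (2 ^ n) ξ < r y
      · rw [Set.indicator_of_mem (show y ∈ {y | pp (2 ^ n) ξ < r y} from hy)]
        simp [hw1, hy]
      · rw [Set.indicator_of_notMem (show y ∉ {y | pp (2 ^ n) ξ < r y} from hy)]
        simp [hw1, hy]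
    unfold Hb
    rw [← h3, h2]
    ring
  have hfin : ∫ ξ, ‖Hb n g r ξ‖ ^ 2 ≤ 2 * (∫ ξ, ‖(cut (2 ^ n) ξ : ℂ) * bdop w g ξ‖ ^ 2) +
      2 * ∫ ξ, ‖(cut (2 ^ n) ξ : ℂ) * bdop (wT n r 0) g ξ‖ ^ 2 := by
    rw [← integral_const_mul, ← integral_const_mul, ← integral_add (hΩB.sq_integrable.const_mul 2)
      (hTB.sq_integrable.const_mul 2)]
    refine integral_mono_of_nonneg (Filter.Eventually.of_forall fun ξ => by positivity)
      ((hΩB.sq_integrable.const_mul 2).add (hTB.sq_integrable.const_mul 2))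
      (Filter.Eventually.of_forall fun ξ => ?_)
    simp only
    rw [hsplit ξ]
    exact bd_sq_add _ _
  refine hfin.trans ?_
  have e1 : ((n + 2 : ℕ) : ℝ) = (n : ℝ) + 2 := by push_cast; ring
  rw [e1] at hT
  set A := lg n ^ 2 with hA
  set I := ∫ x, ‖g x‖ ^ 2 with hI
  have hn0 : (0 : ℝ) ≤ n := Nat.cast_nonneg n
  have hAI : 0 ≤ A * I := by positivity
  have e2 : I ≤ A * I := by nlinarith
  have e3 : A * I ≤ (n + 1) * (A * I) := by nlinarith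
  have e4 : ((n : ℝ) + 2) * (C * A * I) ≤ 2 * ((n + 1) * (C * A * I)) := by
    have : 0 ≤ (n : ℝ) * (C * A * I) := by positivity
    nlinarith
  calc 2 * (∫ ξ, ‖(cut (2 ^ n) ξ : ℂ) * bdop w g ξ‖ ^ 2) +
      2 * ∫ ξ, ‖(cut (2 ^ n) ξ : ℂ) * bdop (wT n r 0) g ξ‖ ^ 2
      ≤ 4 * ((n + 1) * (A * I)) + 4 * ((n + 1) * (C * A * I)) := by linarith
    _ = (4 + 4 * C) * (n + 1) * A * I := by ring

end

end Pool.Agent.Helper32.KS
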