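import Pool.Agent.Helper32.KS.Four

/-!
# Band-limited functions and finite overlap (helper32)
-/

set_option autoImplicit false

open MeasureTheory FourierTransform
open scoped BigOperators Real ContDiff

namespace Pool.Agent.Helper32.KS

noncomputable section

/-- inverse transforms of BCS functions vanishing off `S` -/
def Band (S : Set (ℝ × ℝ)) (F : ℝ × ℝ → ℂ) : Prop :=
  ∃ f, BCS f ∧ (∀ ξ, f ξ ≠ 0 → ξ ∈ S) ∧ F = inv f

lemma Band.cont {S : Set (ℝ × ℝ)} {F : ℝ × ℝ → ℂ} (h : Band S F) : Continuous F := by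
  obtain ⟨f, hf, -, rfl⟩ := h
  exact inv_cont hf.integrable

lemma Band.bdd {S : Set (ℝ × ℝ)} {F : ℝ × ℝ → ℂ} (h : Band S F) :
    ∃ C : ℝ, 0 ≤ C ∧ ∀ x, ‖F x‖ ≤ C := by
  obtain ⟨f, hf, -, rfl⟩ := h
  exact ⟨∫ x, ‖f x‖, integral_nonneg fun x => norm_nonneg _, fun x => inv_norm_le f x⟩

lemma Band.sq_integrable {S : Set (ℝ × ℝ)} {F : ℝ × ℝ → ℂ} (h : Band S F) :
    Integrable fun x => ‖F x‖ ^ 2 := by
  obtain ⟨f, hf, -, rfl⟩ := h
  exact (planch_inv hf).1

lemma Band.mono {S S' : Set (ℝ × ℝ)} {F : ℝ × ℝ → ℂ} (h : Band S F) (hS : S ⊆ S') :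
    Band S' F := by
  obtain ⟨f, hf, h1, rfl⟩ := h
  exact ⟨f, hf, fun ξ hξ => hS (h1 ξ hξ), rfl⟩

lemma Band.zero (S : Set (ℝ × ℝ)) : Band S (fun _ => 0) :=
  ⟨fun _ => 0, BCS.zero, fun ξ hξ => absurd rfl hξ, by funext x; simp [inv]⟩

lemma Band.add {S : Set (ℝ × ℝ)} {F G : ℝ × ℝ → ℂ} (h : Band S F) (h' : Band S G) :
    Band S (fun x => F x + G x) := by
  obtain ⟨f, hf, h1, rfl⟩ := h
  obtain ⟨g, hg, h2, rfl⟩ := h'
  refine ⟨fun ξ => f ξ + g ξ, hf.add hg, fun ξ hξ => ?_, ?_⟩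
  · by_cases h : f ξ = 0
    · apply h2
      intro h'
      exact hξ (by simp only; rw [h, h', add_zero])
    · exact h1 ξ h
  · funext x
    rw [inv_add hf.integrable hg.integrable]

lemma Band.sum {ι : Type*} {S : Set (ℝ × ℝ)} (s : Finset ι) {F : ι → ℝ × ℝ → ℂ}
    (h : ∀ i ∈ s, Band S (F i)) : Band S (fun x => ∑ i ∈ s, F i x) := by
  classical
  induction s using Finset.induction_on with
  | empty => simpa using Band.zero S
  | insert i s hi ih =>
    simp only [Finset.sum_insert hi]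
    exact (h i (Finset.mem_insert_self i s)).add
      (ih fun j hj => h j (Finset.mem_insert_of_mem hj))

/-- the sinc function `∫_{-1/2}^{1/2} e(ts) ds` -/
def sc (t : ℝ) : ℂ := ∫ s in Set.Icc (-1/2 : ℝ) (1/2), e (t * s)

/-- multiplication by `sc(w·x - τ)` enlarges the band by `[-1/2,1/2]w` -/
lemma Band.mul_sc {S : Set (ℝ × ℝ)} {F : ℝ × ℝ → ℂ} (h : Band S F) (w : ℝ × ℝ) (τ : ℝ) :
    Band {ξ | ∃ s : ℝ, |s| ≤ 1/2 ∧ ξ - s • w ∈ S}
      (fun x => sc (w.1 * x.1 + w.2 * x.2 - τ) * F x) := by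
  obtain ⟨f, hf, h1, rfl⟩ := h
  obtain ⟨C, hC0, hC⟩ := hf.bdd'
  obtain ⟨R, hR0, hR⟩ := hf.supp'
  set ft : ℝ × ℝ → ℂ := fun ξ => ∫ s in Set.Icc (-1/2 : ℝ) (1/2), f (ξ - s • w) * e (-(s * τ))
    with hft
  have hmeas2 : Measurable fun p : (ℝ × ℝ) × ℝ => f (p.1 - p.2 • w) * e (-(p.2 * τ)) := by
    apply Measurable.mul
    · exact hf.meas.comp (by fun_prop)
    · exact e_meas' (by fun_prop)
  have hmeas : Measurable ft := by
    have := (StronglyMeasurable.integral_prod_right (ν := volume.restrict (Set.Icc (-1/2 : ℝ) (1/2)))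
      (f := fun (ξ : ℝ × ℝ) (s : ℝ) => f (ξ - s • w) * e (-(s * τ)))
      hmeas2.stronglyMeasurable).measurable
    exact this
  have hne : ∀ ξ, ft ξ ≠ 0 → ∃ s : ℝ, |s| ≤ 1/2 ∧ f (ξ - s • w) ≠ 0 := by
    intro ξ hξ
    by_contra hcon
    push Not at hcon
    apply hξ
    simp only [hft]
    rw [setIntegral_eq_zero_of_forall_eq_zero]
    intro s hs
    rw [hcon s (by rw [abs_le]; constructor <;> linarith [hs.1, hs.2]), zero_mul]
  have hb : BCS ft := by
    refine ⟨hmeas, ⟨C, fun ξ => ?_⟩, ⟨R + (|w.1| + |w.2|), fun ξ hξ => ?_⟩⟩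
    · simp only [hft]
      refine (norm_setIntegral_le_of_norm_le_const (C := C) (by simp) fun s hs => ?_).trans ?_
      · rw [norm_mul, e_norm, mul_one]
        exact hC _
      · simp only [measureReal_def, Real.volume_Icc]
        rw [ENNReal.toReal_ofReal (by norm_num)]
        linarith
    · obtain ⟨s, hs, hs'⟩ := hne ξ hξ
      obtain ⟨k1, k2⟩ := hR _ hs'
      simp only [Prod.fst_sub, Prod.snd_sub, Prod.smul_fst, Prod.smul_snd, smul_eq_mul] at k1 k2
      have a1 : |s * w.1| ≤ |w.1| := by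
        rw [abs_mul]
        have := abs_nonneg w.1
        nlinarith
      have a2 : |s * w.2| ≤ |w.2| := by
        rw [abs_mul]
        have := abs_nonneg w.2
        nlinarith
      constructor
      · have := abs_sub_abs_le_abs_sub ξ.1 (s * w.1)
        have := abs_nonneg w.2
        linarith
      · have := abs_sub_abs_le_abs_sub ξ.2 (s * w.2)
        have := abs_nonneg w.1
        linarith
  refine ⟨ft, hb, fun ξ hξ => ?_, ?_⟩
  · obtain ⟨s, hs, hs'⟩ := hne ξ hξ
    exact ⟨s, hs, h1 _ hs'⟩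
  · funext x
    -- Fubini
    have hL : sc (w.1 * x.1 + w.2 * x.2 - τ) * inv f x =
        ∫ s in Set.Icc (-1/2 : ℝ) (1/2), ∫ ξ : ℝ × ℝ,
          f (ξ - s • w) * e (-(s * τ)) * e (x.1 * ξ.1 + x.2 * ξ.2) := by
      unfold sc
      rw [← integral_mul_const]
      apply setIntegral_congr_fun measurableSet_Icc
      intro s hs
      simp only
      rw [← integral_add_right_eq_self (μ := volume) (fun ξ : ℝ × ℝ =>
        f (ξ - s • w) * e (-(s * τ)) * e (x.1 * ξ.1 + x.2 * ξ.2)) (s • w)]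
      unfold inv
      rw [← integral_const_mul]
      congr 1
      funext ξ
      simp only [add_sub_cancel_right, Prod.fst_add, Prod.snd_add, Prod.smul_fst, Prod.smul_snd,
        smul_eq_mul]
      have : e ((w.1 * x.1 + w.2 * x.2 - τ) * s) * e (x.1 * ξ.1 + x.2 * ξ.2) =
          e (-(s * τ)) * e (x.1 * (ξ.1 + s * w.1) + x.2 * (ξ.2 + s * w.2)) := by
        rw [← e_add, ← e_add]
        congr 1
        ring
      calc e ((w.1 * x.1 + w.2 * x.2 - τ) * s) * (f ξ * e (x.1 * ξ.1 + x.2 * ξ.2))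
          = f ξ * (e ((w.1 * x.1 + w.2 * x.2 - τ) * s) * e (x.1 * ξ.1 + x.2 * ξ.2)) := by ring
        _ = _ := by rw [this]; ring
    rw [hL]
    unfold inv
    rw [integral_integral_swap]
    · congr 1
      funext ξ
      rw [← integral_mul_const]
    · -- integrability on the product
      have hsupp : ∀ p : ℝ × (ℝ × ℝ), |p.1| ≤ 1/2 → f (p.2 - p.1 • w) ≠ 0 →
          p.2 ∈ Sq (R + (|w.1| + |w.2|)) := by
        rintro ⟨s, ξ⟩ hs hs'
        simp only at hs hs'
        obtain ⟨k1, k2⟩ := hR _ hs'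
        simp only [Prod.fst_sub, Prod.snd_sub, Prod.smul_fst, Prod.smul_snd, smul_eq_mul] at k1 k2
        have a1 : |s * w.1| ≤ |w.1| := by
          rw [abs_mul]
          have := abs_nonneg w.1
          nlinarith
        have a2 : |s * w.2| ≤ |w.2| := by
          rw [abs_mul]
          have := abs_nonneg w.2
          nlinarith
        constructor
        · have := abs_sub_abs_le_abs_sub ξ.1 (s * w.1)
          have := abs_nonneg w.2
          simp only
          linarith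
        · have := abs_sub_abs_le_abs_sub ξ.2 (s * w.2)
          have := abs_nonneg w.1
          simp only
          linarith
      have hm3 : Measurable (Function.uncurry fun (s : ℝ) (ξ : ℝ × ℝ) =>
          f (ξ - s • w) * e (-(s * τ)) * e (x.1 * ξ.1 + x.2 * ξ.2)) := by
        apply Measurable.mul
        · apply Measurable.mul
          · exact hf.meas.comp (by fun_prop)
          · exact e_meas' (by fun_prop)
        · exact e_meas' (by fun_prop)
      have hK : Integrable (fun p : ℝ × (ℝ × ℝ) =>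
          (Sq (R + (|w.1| + |w.2|))).indicator (fun _ => C) p.2)
          ((volume.restrict (Set.Icc (-1/2 : ℝ) (1/2))).prod volume) := by
        have h1 : Integrable (fun _ : ℝ => (1 : ℝ)) (volume.restrict (Set.Icc (-1/2 : ℝ) (1/2))) :=
          integrable_const 1
        have h2 : Integrable ((Sq (R + (|w.1| + |w.2|))).indicator (fun _ => C)) volume := by
          rw [integrable_indicator_iff (Sq_meas _)]
          exact integrableOn_const (Sq_finite _).ne
        have := h1.mul_prod h2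
        simpa using this
      have hind : (fun p : ℝ × (ℝ × ℝ) => p.1 ∈ Set.Icc (-1/2 : ℝ) (1/2)) = 
          fun p => p.1 ∈ Set.Icc (-1/2 : ℝ) (1/2) := rfl
      refine hK.mono' hm3.aestronglyMeasurable ?_
      have hae : ∀ᵐ p : ℝ × (ℝ × ℝ) ∂((volume.restrict (Set.Icc (-1/2 : ℝ) (1/2))).prod volume),
          p.1 ∈ Set.Icc (-1/2 : ℝ) (1/2) := by
        have h0 : ∀ᵐ s : ℝ ∂(volume.restrict (Set.Icc (-1/2 : ℝ) (1/2))),
            s ∈ Set.Icc (-1/2 : ℝ) (1/2) := ae_restrict_mem measurableSet_Icc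
        exact (Measure.quasiMeasurePreserving_fst (μ := volume.restrict (Set.Icc (-1/2 : ℝ) (1/2)))
          (ν := (volume : Measure (ℝ × ℝ)))).ae h0
      filter_upwards [hae] with p hp
      simp only [Function.uncurry]
      rw [norm_mul, norm_mul, e_norm, e_norm, mul_one, mul_one]
      by_cases hz : f (p.2 - p.1 • w) = 0
      · rw [hz, norm_zero]
        exact Set.indicator_nonneg (fun _ _ => hC0.le) _
      · have := hsupp p (by rw [abs_le]; constructor <;> linarith [hp.1, hp.2]) hz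
        rw [Set.indicator_of_mem this]
        exact hC _

open Classical in
/-- finite overlap -/
lemma band_overlap {ι : Type*} (s : Finset ι) (S : ι → Set (ℝ × ℝ)) (F : ι → ℝ × ℝ → ℂ)
    (h : ∀ i ∈ s, Band (S i) (F i)) (C : ℕ)
    (hC : ∀ ξ, (s.filter fun i => ξ ∈ S i).card ≤ C) :
    ∫ x, ‖∑ i ∈ s, F i x‖ ^ 2 ≤ C * ∑ i ∈ s, ∫ x, ‖F i x‖ ^ 2 := by
  choose! f hf h1 h2 using h
  have e1 : ∀ x, ∑ i ∈ s, F i x = inv (fun ξ => ∑ i ∈ s, f i ξ) x := by
    intro x
    rw [inv_sum s fun i hi => (hf i hi).integrable]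
    exact Finset.sum_congr rfl fun i hi => by rw [h2 i hi]
  have hb : BCS fun ξ => ∑ i ∈ s, f i ξ := BCS.sum s hf
  have e2 : ∫ x, ‖∑ i ∈ s, F i x‖ ^ 2 = ∫ ξ, ‖∑ i ∈ s, f i ξ‖ ^ 2 := by
    simp_rw [e1]
    exact (planch_inv hb).2
  have e3 : ∑ i ∈ s, ∫ x, ‖F i x‖ ^ 2 = ∫ ξ, ∑ i ∈ s, ‖f i ξ‖ ^ 2 := by
    rw [integral_finsetSum s fun i hi => (hf i hi).sq_integrable]
    refine Finset.sum_congr rfl fun i hi => ?_
    rw [h2 i hi]
    exact (planch_inv (hf i hi)).2
  rw [e2, e3, ← integral_const_mul]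
  apply integral_mono hb.sq_integrable
  · exact (integrable_finsetSum s fun i hi => (hf i hi).sq_integrable).const_mul _
  · intro ξ
    simp only
    have k1 : ∑ i ∈ s, f i ξ = ∑ i ∈ s.filter (fun i => ξ ∈ S i), f i ξ := by
      rw [Finset.sum_filter]
      refine Finset.sum_congr rfl fun i hi => ?_
      split_ifs with hh
      · rfl
      · by_contra hne
        exact hh (h1 i hi ξ hne)
    rw [k1]
    calc ‖∑ i ∈ s.filter (fun i => ξ ∈ S i), f i ξ‖ ^ 2
        ≤ (∑ i ∈ s.filter (fun i => ξ ∈ S i), ‖f i ξ‖) ^ 2 := by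
          gcongr
          exact norm_sum_le _ _
      _ ≤ (s.filter (fun i => ξ ∈ S i)).card * ∑ i ∈ s.filter (fun i => ξ ∈ S i), ‖f i ξ‖ ^ 2 :=
          sq_sum_le_card_mul_sum_sq
      _ ≤ C * ∑ i ∈ s, ‖f i ξ‖ ^ 2 := by
          apply mul_le_mul
          · exact_mod_cast hC ξ
          · exact Finset.sum_le_sum_of_subset_of_nonneg (Finset.filter_subset _ _)
              fun i _ _ => by positivity
          · exact Finset.sum_nonneg fun i _ => by positivity
          · positivity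

end

end Pool.Agent.Helper32.KS
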