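import Pool.Agent.Helper32.KS.Band

/-!
# Band-limited functions: powers of sinc, products, sup bounds (helper32)
-/

set_option autoImplicit false

open MeasureTheory FourierTransform
open scoped BigOperators Real

namespace Pool.Agent.Helper32.KS

noncomputable section

lemma Band.mul_sc_pow {S : Set (ℝ × ℝ)} {F : ℝ × ℝ → ℂ} (h : Band S F) (w : ℝ × ℝ) (τ : ℝ)
    (m : ℕ) :
    Band {ξ | ∃ s : ℝ, |s| ≤ m/2 ∧ ξ - s • w ∈ S}
      (fun x => sc (w.1 * x.1 + w.2 * x.2 - τ) ^ m * F x) := by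
  induction m with
  | zero =>
    simp only [pow_zero, one_mul]
    refine h.mono fun ξ hξ => ⟨0, by simp, by simpa using hξ⟩
  | succ m ih =>
    have h1 := ih.mul_sc w τ
    have h2 : (fun x : ℝ × ℝ => sc (w.1 * x.1 + w.2 * x.2 - τ) ^ (m + 1) * F x) =
        fun x => sc (w.1 * x.1 + w.2 * x.2 - τ) *
          (sc (w.1 * x.1 + w.2 * x.2 - τ) ^ m * F x) := by
      funext x
      ring
    rw [h2]
    refine h1.mono ?_
    rintro ξ ⟨s, hs, t, ht, h3⟩
    refine ⟨s + t, ?_, ?_⟩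
    · calc |s + t| ≤ |s| + |t| := abs_add_le _ _
        _ ≤ 1/2 + m/2 := add_le_add hs ht
        _ = ((m + 1 : ℕ) : ℝ)/2 := by push_cast; ring
    · rw [add_smul]
      convert! h3 using 1
      abel

/-- products -/
lemma Band.mul {S S' : Set (ℝ × ℝ)} {F G : ℝ × ℝ → ℂ} (h : Band S F) (h' : Band S' G) :
    Band {ξ | ∃ η, η ∈ S ∧ ξ - η ∈ S'} (fun x => F x * G x) := by
  obtain ⟨f, hf, h1, rfl⟩ := h
  obtain ⟨g, hg, h2, rfl⟩ := h'
  obtain ⟨C, hC0, hC⟩ := hg.bdd'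
  obtain ⟨R, hR0, hR⟩ := hf.supp'
  obtain ⟨R', hR0', hR'⟩ := hg.supp'
  set ft : ℝ × ℝ → ℂ := fun ζ => ∫ ξ : ℝ × ℝ, f ξ * g (ζ - ξ) with hft
  have hm2 : Measurable fun p : (ℝ × ℝ) × (ℝ × ℝ) => f p.2 * g (p.1 - p.2) :=
    (hf.meas.comp measurable_snd).mul (hg.meas.comp (by fun_prop))
  have hmeas : Measurable ft := by
    have := (StronglyMeasurable.integral_prod_right (ν := (volume : Measure (ℝ × ℝ)))
      (f := fun (ζ : ℝ × ℝ) (ξ : ℝ × ℝ) => f ξ * g (ζ - ξ))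
      hm2.stronglyMeasurable).measurable
    exact this
  have hne : ∀ ζ, ft ζ ≠ 0 → ∃ ξ, f ξ ≠ 0 ∧ g (ζ - ξ) ≠ 0 := by
    intro ζ hζ
    by_contra hcon
    push Not at hcon
    apply hζ
    simp only [hft]
    have : (fun ξ : ℝ × ℝ => f ξ * g (ζ - ξ)) = fun _ => 0 := by
      funext ξ
      by_cases hh : f ξ = 0
      · rw [hh, zero_mul]
      · rw [hcon ξ hh, mul_zero]
    rw [this]
    simp
  have hb : BCS ft := by
    refine ⟨hmeas, ⟨(∫ x, ‖f x‖) * C, fun ζ => ?_⟩, ⟨R + R', fun ζ hζ => ?_⟩⟩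
    · simp only [hft]
      refine (norm_integral_le_integral_norm _).trans ?_
      rw [← integral_mul_const]
      refine integral_mono_of_nonneg (Filter.Eventually.of_forall fun x => norm_nonneg _)
        (hf.integrable.norm.mul_const C) (Filter.Eventually.of_forall fun x => ?_)
      simp only
      rw [norm_mul]
      exact mul_le_mul_of_nonneg_left (hC _) (norm_nonneg _)
    · obtain ⟨ξ, h3, h4⟩ := hne ζ hζ
      obtain ⟨k1, k2⟩ := hR ξ h3
      obtain ⟨k3, k4⟩ := hR' _ h4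
      simp only [Prod.fst_sub, Prod.snd_sub] at k3 k4
      constructor
      · have := abs_sub_abs_le_abs_sub ζ.1 ξ.1
        linarith
      · have := abs_sub_abs_le_abs_sub ζ.2 ξ.2
        linarith
  refine ⟨ft, hb, fun ζ hζ => ?_, ?_⟩
  · obtain ⟨ξ, h3, h4⟩ := hne ζ hζ
    exact ⟨ξ, h1 ξ h3, h2 _ h4⟩
  · funext x
    have hL : inv f x * inv g x = ∫ ξ : ℝ × ℝ, ∫ ζ : ℝ × ℝ,
        f ξ * g (ζ - ξ) * e (x.1 * ζ.1 + x.2 * ζ.2) := by
      conv_lhs => unfold inv
      rw [← integral_mul_const]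
      congr 1
      funext ξ
      rw [← integral_add_right_eq_self (μ := volume) (fun ζ : ℝ × ℝ =>
        f ξ * g (ζ - ξ) * e (x.1 * ζ.1 + x.2 * ζ.2)) ξ, ← integral_const_mul]
      congr 1
      funext ζ
      simp only [add_sub_cancel_right, Prod.fst_add, Prod.snd_add]
      have : e (x.1 * ξ.1 + x.2 * ξ.2) * e (x.1 * ζ.1 + x.2 * ζ.2) =
          e (x.1 * (ζ.1 + ξ.1) + x.2 * (ζ.2 + ξ.2)) := by
        rw [← e_add]
        congr 1
        ring
      rw [← this]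
      ring
    have hR : inv ft x = ∫ ζ : ℝ × ℝ, ∫ ξ : ℝ × ℝ,
        f ξ * g (ζ - ξ) * e (x.1 * ζ.1 + x.2 * ζ.2) := by
      conv_lhs => unfold inv
      congr 1
      funext ζ
      rw [← integral_mul_const]
    rw [hL, hR, integral_integral_swap]
    have hi : Integrable (fun p : (ℝ × ℝ) × (ℝ × ℝ) => f p.1 * g p.2)
        ((volume : Measure (ℝ × ℝ)).prod volume) := hf.integrable.mul_prod hg.integrable
    have hi2 : Integrable (fun p : (ℝ × ℝ) × (ℝ × ℝ) => f p.1 * g (p.2 - p.1))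
        ((volume : Measure (ℝ × ℝ)).prod volume) := by
      have hmp : MeasurePreserving (fun p : (ℝ × ℝ) × (ℝ × ℝ) => (p.1, p.2 - p.1))
          (volume.prod volume) (volume.prod volume) :=
        measurePreserving_prod_sub _ _
      exact hmp.integrable_comp_of_integrable hi
    refine hi2.norm.mono' ?_ (Filter.Eventually.of_forall fun p => ?_)
    · exact hi2.aestronglyMeasurable.mul (e_meas' (by fun_prop)).aestronglyMeasurable
    · simp only [Function.uncurry]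
      rw [norm_mul, e_norm, mul_one]

/-- Cauchy-Schwarz for integrals of norms on a set -/
lemma integral_norm_sq_le {X : Type*} [MeasurableSpace X] {ν : Measure X} {f : X → ℂ}
    {S : Set X} (hS : MeasurableSet S) {V : ℝ} (hfin : ν S ≠ ⊤) (hV : (ν S).toReal ≤ V)
    (hf : AEStronglyMeasurable f ν) (h2 : Integrable (fun x => ‖f x‖ ^ 2) ν)
    (hs : ∀ x, f x ≠ 0 → x ∈ S) :
    (∫ x, ‖f x‖ ∂ν) ^ 2 ≤ V * ∫ x, ‖f x‖ ^ 2 ∂ν := by
  have h1 : ∀ x, ‖f x‖ = S.indicator (fun _ => (1 : ℝ)) x * ‖f x‖ := by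
    intro x
    by_cases h : x ∈ S
    · rw [Set.indicator_of_mem h, one_mul]
    · rw [Set.indicator_of_notMem h, zero_mul]
      by_contra hh
      exact h (hs x fun h0 => hh (by rw [h0, norm_zero]))
  have hi1 : Integrable (S.indicator (fun _ => (1 : ℝ))) ν := by
    rw [integrable_indicator_iff hS]
    exact integrableOn_const hfin
  have m1 : MemLp (S.indicator (fun _ => (1 : ℝ))) 2 ν := by
    rw [memLp_two_iff_integrable_sq hi1.aestronglyMeasurable]
    have : (fun x => S.indicator (fun _ => (1 : ℝ)) x ^ 2) = S.indicator (fun _ => (1 : ℝ)) := by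
      funext x
      by_cases h : x ∈ S
      · rw [Set.indicator_of_mem h]; norm_num
      · rw [Set.indicator_of_notMem h]; norm_num
    rw [this]
    exact hi1
  have m2 : MemLp (fun x => ‖f x‖) 2 ν := by
    rw [memLp_two_iff_integrable_sq hf.norm]
    exact h2
  have h3 : ∫ x, ‖f x‖ ∂ν = ∫ x, S.indicator (fun _ => (1 : ℝ)) x * ‖f x‖ ∂ν := by
    congr 1
    funext x
    exact h1 x
  have hn : 0 ≤ ∫ x, S.indicator (fun _ => (1 : ℝ)) x * ‖f x‖ ∂ν := by
    rw [← h3]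
    exact integral_nonneg fun x => norm_nonneg _
  have key := integral_mul_le_Lp_mul_Lq_of_nonneg (μ := ν) (p := 2) (q := 2)
    (Real.HolderConjugate.two_two)
    (f := S.indicator (fun _ => (1 : ℝ))) (g := fun x => ‖f x‖)
    (Filter.Eventually.of_forall fun x => Set.indicator_nonneg (fun _ _ => zero_le_one) x)
    (Filter.Eventually.of_forall fun x => norm_nonneg _) (by simpa using m1) (by simpa using m2)
  have e1 : ∫ x, S.indicator (fun _ => (1 : ℝ)) x ^ (2 : ℝ) ∂ν = (ν S).toReal := by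
    have : (fun x => S.indicator (fun _ => (1 : ℝ)) x ^ (2 : ℝ)) =
        S.indicator (fun _ => (1 : ℝ)) := by
      funext x
      by_cases h : x ∈ S
      · rw [Set.indicator_of_mem h]; norm_num
      · rw [Set.indicator_of_notMem h]; norm_num
    rw [this, integral_indicator hS, setIntegral_const]
    simp [measureReal_def]
  have e2 : ∫ x, ‖f x‖ ^ (2 : ℝ) ∂ν = ∫ x, ‖f x‖ ^ 2 ∂ν := by
    congr 1
    funext x
    exact Real.rpow_two _
  rw [e1, e2] at key
  rw [h3]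
  have n1 : 0 ≤ (ν S).toReal := ENNReal.toReal_nonneg
  have n2 : 0 ≤ ∫ x, ‖f x‖ ^ 2 ∂ν := integral_nonneg fun x => by positivity
  calc (∫ x, S.indicator (fun _ => (1 : ℝ)) x * ‖f x‖ ∂ν) ^ 2
      ≤ ((ν S).toReal ^ ((1 : ℝ) / 2) * (∫ x, ‖f x‖ ^ 2 ∂ν) ^ ((1 : ℝ) / 2)) ^ 2 := by
        gcongr
    _ = (ν S).toReal * ∫ x, ‖f x‖ ^ 2 ∂ν := by
        rw [mul_pow, ← Real.sqrt_eq_rpow, ← Real.sqrt_eq_rpow, Real.sq_sqrt n1, Real.sq_sqrt n2]
    _ ≤ V * ∫ x, ‖f x‖ ^ 2 ∂ν := by gcongr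

/-- sup bound -/
lemma Band.sup_le {S S' : Set (ℝ × ℝ)} {F : ℝ × ℝ → ℂ} (h : Band S F) (hS' : MeasurableSet S')
    (hSS : S ⊆ S') {V : ℝ} (hfin : volume S' ≠ ⊤) (hV : (volume S').toReal ≤ V) (x : ℝ × ℝ) :
    ‖F x‖ ^ 2 ≤ V * ∫ y, ‖F y‖ ^ 2 := by
  obtain ⟨f, hf, h1, rfl⟩ := h
  rw [(planch_inv hf).2]
  refine le_trans ?_ (integral_norm_sq_le hS' hfin hV hf.meas.aestronglyMeasurable
    hf.sq_integrable fun x hx => hSS (h1 x hx))
  gcongr
  exact inv_norm_le f x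

end

end Pool.Agent.Helper32.KS
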