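import Pool.Agent.Helper32.KS.Wave3

/-!
# The Córdoba-Fefferman `L⁴` inequality for the sectors of one window (helper32)
-/

set_option autoImplicit false

open MeasureTheory
open scoped BigOperators Real ContDiff

namespace Pool.Agent.Helper32.KS

noncomputable section

/-- two ways of writing `ζ` as a sum of two points of the thin annulus -/
lemma cf_core {D : ℝ} (hD : 1 ≤ D) {ξ ξ' η η' : ℝ × ℝ}
    (h1 : |(ξ.1 ^ 2 + ξ.2 ^ 2) - (ξ'.1 ^ 2 + ξ'.2 ^ 2)| ≤ 16 * D ^ 2)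
    (h2 : |(η.1 ^ 2 + η.2 ^ 2) - (η'.1 ^ 2 + η'.2 ^ 2)| ≤ 16 * D ^ 2)
    (h3 : |(ξ.1 ^ 2 + ξ.2 ^ 2) - (η.1 ^ 2 + η.2 ^ 2)| ≤ 16 * D ^ 2)
    (h4 : |(ξ'.1 ^ 2 + ξ'.2 ^ 2) - (η'.1 ^ 2 + η'.2 ^ 2)| ≤ 16 * D ^ 2)
    (e1 : ξ.1 + ξ'.1 = η.1 + η'.1) (e2 : ξ.2 + ξ'.2 = η.2 + η'.2)
    (p1 : D ^ 2 ≤ ξ.1 + ξ'.1) (p2 : ξ.1 + ξ'.1 ≤ 10 * D ^ 2) (p3 : |ξ.2 + ξ'.2| ≤ 8 * D ^ 2) :
    ((ξ.1 - η.1) ^ 2 + (ξ.2 - η.2) ^ 2 ≤ (55 * D) ^ 2) ∨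
    ((ξ.1 - η'.1) ^ 2 + (ξ.2 - η'.2) ^ 2 ≤ (55 * D) ^ 2) := by
  have hD0 : 0 < D := by linarith
  have hD2 : 1 ≤ D ^ 2 := one_le_pow₀ hD
  -- names
  obtain ⟨x1, x2⟩ := ξ
  obtain ⟨y1, y2⟩ := ξ'
  obtain ⟨a1, a2⟩ := η
  obtain ⟨b1, b2⟩ := η'
  simp only at *
  set z1 := x1 + y1 with hz1
  set z2 := x2 + y2 with hz2
  set v1 := x1 - y1 with hv1
  set v2 := x2 - y2 with hv2
  set w1 := a1 - b1 with hw1
  set w2 := a2 - b2 with hw2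
  set Z := z1 ^ 2 + z2 ^ 2 with hZ
  have hZ1 : D ^ 4 ≤ Z := by
    have : (D ^ 2) ^ 2 ≤ z1 ^ 2 := by gcongr
    nlinarith [sq_nonneg z2]
  have hZ2 : Z ≤ 164 * D ^ 4 := by
    have q1 : z1 ^ 2 ≤ (10 * D ^ 2) ^ 2 := by
      have : 0 ≤ z1 := by linarith
      gcongr
    have q2 : z2 ^ 2 ≤ (8 * D ^ 2) ^ 2 := by
      rw [← sq_abs z2]
      gcongr
    nlinarith
  have hZ0 : 0 < Z := lt_of_lt_of_le (by positivity) hZ1
  -- dot products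
  have hvz : v1 * z1 + v2 * z2 = (x1 ^ 2 + x2 ^ 2) - (y1 ^ 2 + y2 ^ 2) := by
    rw [hv1, hv2, hz1, hz2]; ring
  have hwz : w1 * z1 + w2 * z2 = (a1 ^ 2 + a2 ^ 2) - (b1 ^ 2 + b2 ^ 2) := by
    rw [hw1, hw2, e1, e2]; ring
  have hvw : (v1 ^ 2 + v2 ^ 2) - (w1 ^ 2 + w2 ^ 2) =
      2 * (((x1 ^ 2 + x2 ^ 2) - (a1 ^ 2 + a2 ^ 2)) + ((y1 ^ 2 + y2 ^ 2) - (b1 ^ 2 + b2 ^ 2))) := by
    have i1 : v1 ^ 2 + v2 ^ 2 = 2 * (x1 ^ 2 + x2 ^ 2) + 2 * (y1 ^ 2 + y2 ^ 2) - (z1 ^ 2 + z2 ^ 2) := by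
      rw [hv1, hv2, hz1, hz2]; ring
    have i2 : w1 ^ 2 + w2 ^ 2 = 2 * (a1 ^ 2 + a2 ^ 2) + 2 * (b1 ^ 2 + b2 ^ 2) - (z1 ^ 2 + z2 ^ 2) := by
      rw [hw1, hw2, e1, e2]; ring
    rw [i1, i2]; ring
  have c1 : |v1 * z1 + v2 * z2| ≤ 16 * D ^ 2 := by rw [hvz]; exact h1
  have c2 : |w1 * z1 + w2 * z2| ≤ 16 * D ^ 2 := by rw [hwz]; exact h2
  have c3 : |(v1 ^ 2 + v2 ^ 2) - (w1 ^ 2 + w2 ^ 2)| ≤ 64 * D ^ 2 := by
    rw [hvw, abs_mul, abs_of_pos (by norm_num : (0:ℝ) < 2)]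
    have := abs_add_le ((x1 ^ 2 + x2 ^ 2) - (a1 ^ 2 + a2 ^ 2)) ((y1 ^ 2 + y2 ^ 2) - (b1 ^ 2 + b2 ^ 2))
    linarith
  set p := v1 * z2 - v2 * z1 with hp
  set q := w1 * z2 - w2 * z1 with hq
  have i1 : (v1 ^ 2 + v2 ^ 2) * Z = (v1 * z1 + v2 * z2) ^ 2 + p ^ 2 := by
    rw [hZ, hp]; ring
  have i2 : (w1 ^ 2 + w2 ^ 2) * Z = (w1 * z1 + w2 * z2) ^ 2 + q ^ 2 := by
    rw [hZ, hq]; ring
  have hpq : |p - q| * |p + q| ≤ 10816 * D ^ 6 := by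
    rw [← abs_mul]
    have j1 : (p - q) * (p + q) = ((v1 ^ 2 + v2 ^ 2) - (w1 ^ 2 + w2 ^ 2)) * Z -
        (v1 * z1 + v2 * z2) ^ 2 + (w1 * z1 + w2 * z2) ^ 2 := by
      linear_combination i2 - i1
    rw [j1]
    have k1 : |((v1 ^ 2 + v2 ^ 2) - (w1 ^ 2 + w2 ^ 2)) * Z| ≤ 64 * D ^ 2 * (164 * D ^ 4) := by
      rw [abs_mul, abs_of_pos hZ0]
      gcongr
    have k2 : (v1 * z1 + v2 * z2) ^ 2 ≤ (16 * D ^ 2) ^ 2 := by
      rw [← sq_abs]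
      gcongr
    have k3 : (w1 * z1 + w2 * z2) ^ 2 ≤ (16 * D ^ 2) ^ 2 := by
      rw [← sq_abs]
      gcongr
    have k4 : D ^ 4 ≤ D ^ 6 := by
      apply pow_le_pow_right₀ hD
      norm_num
    have k5 := abs_le.1 k1
    have k6 : (64 * D ^ 2 * (164 * D ^ 4) : ℝ) = 10496 * D ^ 6 := by ring
    have k7 : ((16 * D ^ 2) ^ 2 : ℝ) = 256 * D ^ 4 := by ring
    rw [k6] at k5
    rw [k7] at k2 k3
    have k8 := sq_nonneg (v1 * z1 + v2 * z2)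
    have k9 := sq_nonneg (w1 * z1 + w2 * z2)
    rw [abs_le]
    constructor <;> linarith [k5.1, k5.2]
  have hmin : |p - q| ≤ 104 * D ^ 3 ∨ |p + q| ≤ 104 * D ^ 3 := by
    by_contra hcon
    push Not at hcon
    have : (104 * D ^ 3) * (104 * D ^ 3) < |p - q| * |p + q| := by
      apply mul_lt_mul'' hcon.1 hcon.2 <;> positivity
    have : (104 * D ^ 3) * (104 * D ^ 3) = 10816 * D ^ 6 := by ring
    linarith
  have k4 : D ^ 4 ≤ D ^ 6 := by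
    apply pow_le_pow_right₀ hD
    norm_num
  rcases hmin with hm | hm
  · left
    have s1 : ((v1 - w1) ^ 2 + (v2 - w2) ^ 2) * Z =
        ((v1 * z1 + v2 * z2) - (w1 * z1 + w2 * z2)) ^ 2 + (p - q) ^ 2 := by
      rw [hZ, hp, hq]; ring
    have s2 : ((v1 * z1 + v2 * z2) - (w1 * z1 + w2 * z2)) ^ 2 ≤ (32 * D ^ 2) ^ 2 := by
      rw [← sq_abs]
      have := abs_sub (v1 * z1 + v2 * z2) (w1 * z1 + w2 * z2)
      gcongr
      linarith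
    have s3 : (p - q) ^ 2 ≤ (104 * D ^ 3) ^ 2 := by
      rw [← sq_abs]
      gcongr
    have s4 : ((v1 - w1) ^ 2 + (v2 - w2) ^ 2) * Z ≤ 11840 * D ^ 2 * Z := by
      rw [s1]
      calc ((v1 * z1 + v2 * z2) - (w1 * z1 + w2 * z2)) ^ 2 + (p - q) ^ 2
          ≤ (32 * D ^ 2) ^ 2 + (104 * D ^ 3) ^ 2 := add_le_add s2 s3
        _ = 1024 * D ^ 4 + 10816 * D ^ 6 := by ring
        _ ≤ 11840 * D ^ 6 := by linarith
        _ = 11840 * D ^ 2 * D ^ 4 := by ring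
        _ ≤ 11840 * D ^ 2 * Z := by gcongr
    have s5 := le_of_mul_le_mul_right s4 hZ0
    have s6 : v1 - w1 = 2 * (x1 - a1) := by rw [hv1, hw1]; linear_combination -e1
    have s7 : v2 - w2 = 2 * (x2 - a2) := by rw [hv2, hw2]; linear_combination -e2
    rw [s6, s7] at s5
    nlinarith [sq_nonneg D]
  · right
    have s1 : ((v1 + w1) ^ 2 + (v2 + w2) ^ 2) * Z =
        ((v1 * z1 + v2 * z2) + (w1 * z1 + w2 * z2)) ^ 2 + (p + q) ^ 2 := by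
      rw [hZ, hp, hq]; ring
    have s2 : ((v1 * z1 + v2 * z2) + (w1 * z1 + w2 * z2)) ^ 2 ≤ (32 * D ^ 2) ^ 2 := by
      rw [← sq_abs]
      have := abs_add_le (v1 * z1 + v2 * z2) (w1 * z1 + w2 * z2)
      gcongr
      linarith
    have s3 : (p + q) ^ 2 ≤ (104 * D ^ 3) ^ 2 := by
      rw [← sq_abs]
      gcongr
    have s4 : ((v1 + w1) ^ 2 + (v2 + w2) ^ 2) * Z ≤ 11840 * D ^ 2 * Z := by
      rw [s1]
      calc ((v1 * z1 + v2 * z2) + (w1 * z1 + w2 * z2)) ^ 2 + (p + q) ^ 2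
          ≤ (32 * D ^ 2) ^ 2 + (104 * D ^ 3) ^ 2 := add_le_add s2 s3
        _ = 1024 * D ^ 4 + 10816 * D ^ 6 := by ring
        _ ≤ 11840 * D ^ 6 := by linarith
        _ = 11840 * D ^ 2 * D ^ 4 := by ring
        _ ≤ 11840 * D ^ 2 * Z := by gcongr
    have s5 := le_of_mul_le_mul_right s4 hZ0
    have s6 : v1 + w1 = 2 * (x1 - b1) := by rw [hv1, hw1]; linear_combination -e1
    have s7 : v2 + w2 = 2 * (x2 - b2) := by rw [hv2, hw2]; linear_combination -e2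
    rw [s6, s7] at s5
    nlinarith [sq_nonneg D]

lemma abs_le_of_sq_sum {a b c : ℝ} (hc : 0 ≤ c) (h : a ^ 2 + b ^ 2 ≤ c ^ 2) :
    |a| ≤ c ∧ |b| ≤ c := by
  constructor
  · apply abs_le_of_sq_le_sq _ hc
    nlinarith [sq_nonneg b]
  · apply abs_le_of_sq_le_sq _ hc
    nlinarith [sq_nonneg a]

/-- the overlap statement -/
lemma cf_overlap {D u₀ : ℝ} (hD : 1 ≤ D) {l : ℕ} {k k' j j' : ℤ} {ξ ξ' η η' : ℝ × ℝ}
    (h1 : ξ ∈ Slk D u₀ l k) (h2 : ξ' ∈ Slk D u₀ l k') (h3 : η ∈ Slk D u₀ l j)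
    (h4 : η' ∈ Slk D u₀ l j') (e1 : ξ.1 + ξ'.1 = η.1 + η'.1) (e2 : ξ.2 + ξ'.2 = η.2 + η'.2) :
    (|k - j| ≤ 992 ∧ |k' - j'| ≤ 992) ∨ (|k - j'| ≤ 992 ∧ |k' - j| ≤ 992) := by
  have hD0 : 0 < D := by linarith
  have pd : ∀ {a b : ℝ × ℝ} {r s : ℤ}, a ∈ Slk D u₀ l r → b ∈ Slk D u₀ l s →
      |(a.1 ^ 2 + a.2 ^ 2) - (b.1 ^ 2 + b.2 ^ 2)| ≤ 16 * D ^ 2 := by
    intro a b r s ha hb
    obtain ⟨-, a1, a2⟩ := ha
    obtain ⟨-, b1, b2⟩ := hb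
    unfold pp at a1 a2 b1 b2
    rw [div_le_iff₀ (by positivity)] at a2 b2
    rw [le_div_iff₀ (by positivity)] at a1 b1
    rw [abs_le]
    constructor <;> nlinarith
  have main := cf_core hD (pd h1 h2) (pd h3 h4) (pd h1 h3) (pd h2 h4) e1 e2
    (by linarith [h1.1.1, h2.1.1]) (by linarith [h1.1.2.1, h2.1.2.1])
    (by
      refine (abs_add_le _ _).trans ?_
      linarith [h1.1.2.2.1, h2.1.2.2.1])
  have tr : ∀ {a b : ℝ × ℝ} {r s : ℤ}, a ∈ Slk D u₀ l r → b ∈ Slk D u₀ l s →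
      |a.1 - b.1| ≤ 55 * D → |a.2 - b.2| ≤ 55 * D → |r - s| ≤ 992 := by
    intro a b r s ha hb g1 g2
    have := sector_overlap (m := 55) hD0 (by norm_num) ha.1 hb.1 g1 g2
    have h5 : ((|r - s| : ℤ) : ℝ) ≤ 992 := by
      push_cast
      linarith
    exact_mod_cast h5
  rcases main with hm | hm
  · left
    obtain ⟨g1, g2⟩ := abs_le_of_sq_sum (by positivity) hm
    refine ⟨tr h1 h3 g1 g2, tr h2 h4 ?_ ?_⟩
    · rw [show ξ'.1 - η'.1 = -(ξ.1 - η.1) by linear_combination e1, abs_neg]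
      exact g1
    · rw [show ξ'.2 - η'.2 = -(ξ.2 - η.2) by linear_combination e2, abs_neg]
      exact g2
  · right
    obtain ⟨g1, g2⟩ := abs_le_of_sq_sum (by positivity) hm
    refine ⟨tr h1 h4 g1 g2, tr h2 h3 ?_ ?_⟩
    · rw [show ξ'.1 - η.1 = -(ξ.1 - η'.1) by linear_combination e1, abs_neg]
      exact g1
    · rw [show ξ'.2 - η.2 = -(ξ.2 - η'.2) by linear_combination e2, abs_neg]
      exact g2

/-- **the `L⁴` inequality** -/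
lemma cf_ineq {D u₀ : ℝ} (hD : 1 ≤ D) (l : ℕ) (K : Finset ℤ) (G : ℤ → ℝ × ℝ → ℂ)
    (hG : ∀ k ∈ K, Band (Slk D u₀ l k) (G k)) :
    Integrable (fun x => ‖∑ k ∈ K, G k x‖ ^ 4) ∧
    Integrable (fun x => (∑ k ∈ K, ‖G k x‖ ^ 2) ^ 2) ∧
    ∫ x, ‖∑ k ∈ K, G k x‖ ^ 4 ≤ 7880450 * ∫ x, (∑ k ∈ K, ‖G k x‖ ^ 2) ^ 2 := by
  classical
  set S : ℤ × ℤ → Set (ℝ × ℝ) := fun P => {ξ | ∃ η, η ∈ Slk D u₀ l P.1 ∧
    ξ - η ∈ Slk D u₀ l P.2} with hS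
  have hB : ∀ P ∈ K ×ˢ K, Band (S P) (fun x => G P.1 x * G P.2 x) := by
    intro P hP
    rw [Finset.mem_product] at hP
    exact (hG _ hP.1).mul (hG _ hP.2)
  have hcard : ∀ ζ, ((K ×ˢ K).filter fun P => ζ ∈ S P).card ≤ 7880450 := by
    intro ζ
    rcases ((K ×ˢ K).filter fun P => ζ ∈ S P).eq_empty_or_nonempty with h | ⟨P, hP⟩
    · rw [h]; simp
    · have hP' := (Finset.mem_filter.1 hP).2
      have hsub : ((K ×ˢ K).filter fun P => ζ ∈ S P) ⊆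
          (Finset.Icc (P.1 - 992) (P.1 + 992) ×ˢ Finset.Icc (P.2 - 992) (P.2 + 992)) ∪
          (Finset.Icc (P.2 - 992) (P.2 + 992) ×ˢ Finset.Icc (P.1 - 992) (P.1 + 992)) := by
        intro Q hQ
        have hQ' := (Finset.mem_filter.1 hQ).2
        obtain ⟨η, h1, h2⟩ := hP'
        obtain ⟨η', h3, h4⟩ := hQ'
        have h5 := cf_overlap hD h1 h2 h3 h4 (by simp) (by simp)
        rw [Finset.mem_union, Finset.mem_product, Finset.mem_product, Finset.mem_Icc,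
          Finset.mem_Icc, Finset.mem_Icc, Finset.mem_Icc]
        simp only [abs_le] at h5
        omega
      refine (Finset.card_le_card hsub).trans ((Finset.card_union_le _ _).trans ?_)
      simp only [Finset.card_product, Int.card_Icc]
      have e1 : (P.1 + 992 + 1 - (P.1 - 992)).toNat = 1985 := by omega
      have e2 : (P.2 + 992 + 1 - (P.2 - 992)).toNat = 1985 := by omega
      rw [e1, e2]
  have hov := band_overlap (K ×ˢ K) S (fun P x => G P.1 x * G P.2 x) hB 7880450 hcard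
  have e1 : ∀ x, ‖∑ P ∈ K ×ˢ K, G P.1 x * G P.2 x‖ ^ 2 = ‖∑ k ∈ K, G k x‖ ^ 4 := by
    intro x
    rw [Finset.sum_product]
    simp only
    rw [← Finset.sum_mul_sum, norm_mul]
    ring
  have hint : ∀ P ∈ K ×ˢ K, Integrable fun x => ‖G P.1 x * G P.2 x‖ ^ 2 := fun P hP =>
    (hB P hP).sq_integrable
  have e2 : ∀ x, ∑ P ∈ K ×ˢ K, ‖G P.1 x * G P.2 x‖ ^ 2 = (∑ k ∈ K, ‖G k x‖ ^ 2) ^ 2 := by
    intro x
    rw [Finset.sum_product, sq, Finset.sum_mul_sum]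
    refine Finset.sum_congr rfl fun i _ => Finset.sum_congr rfl fun j _ => ?_
    rw [norm_mul, mul_pow]
  have hsB : Band (⋃ P ∈ K ×ˢ K, S P) (fun x => ∑ P ∈ K ×ˢ K, G P.1 x * G P.2 x) := by
    apply Band.sum
    intro P hP
    refine (hB P hP).mono ?_
    intro ξ hξ
    simp only [Set.mem_iUnion]
    exact ⟨P, hP, hξ⟩
  refine ⟨?_, ?_, ?_⟩
  · have := hsB.sq_integrable
    simpa only [e1] using this
  · have := integrable_finsetSum _ hint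
    simpa only [e2] using this
  · rw [← integral_finsetSum _ hint] at hov
    simp only [e1, e2] at hov
    exact_mod_cast hov

end

end Pool.Agent.Helper32.KS
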