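import Mathlib

/-!
# Definitions for the plane maximal disc multiplier project (helper32)

`D = 2^d`, `N = D²`; `pp D ξ = |ξ|²/(2D²)`.
-/

set_option autoImplicit false

open MeasureTheory
open scoped BigOperators Real

namespace Pool.Agent.Helper32.KS

noncomputable section

/-- `e(t) = exp(2πit)` -/
def e (t : ℝ) : ℂ := Complex.exp (2 * π * Complex.I * t)

/-- bounded measurable functions of bounded support on the plane -/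
structure BCS (f : ℝ × ℝ → ℂ) : Prop where
  meas : Measurable f
  bdd : ∃ C : ℝ, ∀ x, ‖f x‖ ≤ C
  supp : ∃ R : ℝ, ∀ x, f x ≠ 0 → |x.1| ≤ R ∧ |x.2| ≤ R

/-- `ĝ(ξ) = ∫ g(y) e(-y·ξ) dy` -/
def fwd (g : ℝ × ℝ → ℂ) (ξ : ℝ × ℝ) : ℂ :=
  ∫ y : ℝ × ℝ, g y * e (-(y.1 * ξ.1 + y.2 * ξ.2))

/-- `(inv a)(x) = ∫ a(ξ) e(x·ξ) dξ` -/
def inv (a : ℝ × ℝ → ℂ) (x : ℝ × ℝ) : ℂ :=
  ∫ ξ : ℝ × ℝ, a ξ * e (x.1 * ξ.1 + x.2 * ξ.2)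

/-- the weight `(1+|s|)^{-p}` -/
def hw (p : ℕ) (s : ℝ) : ℝ := ((1 + |s|) ^ p)⁻¹

/-- `|ξ|²/(2D²)` -/
def pp (D : ℝ) (ξ : ℝ × ℝ) : ℝ := (ξ.1 ^ 2 + ξ.2 ^ 2) / (2 * D ^ 2)

/-- smooth, equal to `1` on `[7/10, 4]`, zero off `(1/2, 5)` -/
def cutA (t : ℝ) : ℝ := Real.smoothTransition (5 * t - 5 / 2) * Real.smoothTransition (5 - t)

/-- smooth, equal to `1` on `[-3, 3]`, zero off `(-4, 4)` -/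
def cutB (t : ℝ) : ℝ := Real.smoothTransition (4 - t) * Real.smoothTransition (4 + t)

/-- the cut-off to the block `ξ/D² ∈ [7/10, 4] × [-3, 3]` -/
def cut (D : ℝ) (ξ : ℝ × ℝ) : ℝ := cutA (ξ.1 / D ^ 2) * cutB (ξ.2 / D ^ 2)

/-- partition of unity `∑_k bet (s - k) = 1`, supported in `[-1, 1]` -/
def bet (s : ℝ) : ℝ := Real.smoothTransition (s + 1) - Real.smoothTransition s

/-- the multiplier of window `l`: `φ(l + u₀ - |ξ|²/(2D²)) cut(ξ)²` -/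
def mulw (φ : ℝ → ℝ) (D u₀ : ℝ) (l : ℕ) (ξ : ℝ × ℝ) : ℝ :=
  φ (l + u₀ - pp D ξ) * cut D ξ ^ 2

/-- the multiplier of window `l` and sector `k` -/
def mulk (φ : ℝ → ℝ) (D u₀ : ℝ) (l : ℕ) (k : ℤ) (ξ : ℝ × ℝ) : ℝ :=
  mulw φ D u₀ l ξ * bet (D * ξ.2 / ξ.1 - k)

/-- `F_l = P_l (g 1_{E_l})` -/
def Fl (φ : ℝ → ℝ) (D u₀ : ℝ) (g : ℝ × ℝ → ℂ) (E : ℕ → Set (ℝ × ℝ)) (l : ℕ)
    (x : ℝ × ℝ) : ℂ :=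
  inv (fun ξ => (mulw φ D u₀ l ξ : ℂ) * fwd ((E l).indicator g) ξ) x

/-- `F_{l,k} = P_{l,k} (g 1_{E_l})` -/
def Flk (φ : ℝ → ℝ) (D u₀ : ℝ) (g : ℝ × ℝ → ℂ) (E : ℕ → Set (ℝ × ℝ)) (l : ℕ) (k : ℤ)
    (x : ℝ × ℝ) : ℂ :=
  inv (fun ξ => (mulk φ D u₀ l k ξ : ℂ) * fwd ((E l).indicator g) ξ) x

/-- the square `[-r, r]²` -/
def Sq (r : ℝ) : Set (ℝ × ℝ) := {x | |x.1| ≤ r ∧ |x.2| ≤ r}

/-- `log(n+3) ≥ 1` -/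
def lg (n : ℕ) : ℝ := Real.log (n + 3)

/-- **The key proposition.**  Maximal sums of windows: for disjoint `E_l`, `D = 2^d`, `d ≤ n`,
and any measurable choice `m(x) ≤ M ≤ 64·4^n`,
`∫_{[-4^n,4^n]²} |∑_{l<m(x)} F_l(x)|² dx ≤ C log(n+3)^4 ∫ |g|²`. -/
def KP (φ : ℝ → ℝ) : Prop :=
  ∃ C : ℝ, 0 < C ∧ ∀ n d : ℕ, d ≤ n → ∀ u₀ : ℝ, 0 ≤ u₀ → u₀ ≤ 1 →
    ∀ g : ℝ × ℝ → ℂ, BCS g → ∀ E : ℕ → Set (ℝ × ℝ), (∀ l, MeasurableSet (E l)) →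
    (∀ i j, i ≠ j → Disjoint (E i) (E j)) → ∀ m : ℝ × ℝ → ℕ, Measurable m →
    (∀ x, m x ≤ 64 * 4 ^ n) →
    ∫ x in Sq (4 ^ n), ‖∑ l ∈ Finset.range (m x), Fl φ (2 ^ d) u₀ g E l x‖ ^ 2
      ≤ C * lg n ^ 4 * ∫ x, ‖g x‖ ^ 2

/-- the step function `Θ`: `0` for `s ≤ 1`, `1` for `s ≥ 2` -/
def Th (s : ℝ) : ℝ := Real.smoothTransition (s - 1)

/-- the window `φ₀(s) = Θ(s) - Θ(s/4)`, supported in `[1, 8]` -/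
def ph (s : ℝ) : ℝ := Th s - Th (s / 4)

/-- the dual block function: `H(ξ) = cut(ξ) ∫ 1_{|ξ|²/(2·4^n) < ϱ(y)} g(y) e(-y·ξ) dy` -/
def Hb (n : ℕ) (g : ℝ × ℝ → ℂ) (ϱ : ℝ × ℝ → ℕ) (ξ : ℝ × ℝ) : ℂ :=
  (cut (2 ^ n) ξ : ℂ) * fwd ({y | pp (2 ^ n) ξ < ϱ y}.indicator g) ξ

/-- **The dual block estimate.** -/
def BD : Prop :=
  ∃ C : ℝ, 0 < C ∧ ∀ n : ℕ, ∀ g : ℝ × ℝ → ℂ, BCS g → (∀ x, g x ≠ 0 → x ∈ Sq 1) →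
    ∀ ϱ : ℝ × ℝ → ℕ, Measurable ϱ → (∀ y, ϱ y ≤ 16 * 4 ^ n) →
    ∫ ξ, ‖Hb n g ϱ ξ‖ ^ 2 ≤ C * (n + 1) * lg n ^ 2 * ∫ x, ‖g x‖ ^ 2

end

end Pool.Agent.Helper32.KS
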