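import Pool.Agent.Helper32.KS.CF

/-!
# Dual functions (helper32): A5
-/

set_option autoImplicit false

open MeasureTheory
open scoped BigOperators Real ContDiff

namespace Pool.Agent.Helper32.KS

noncomputable section

/-- kernel bound with constant `C` -/
def KerB (φ : ℝ → ℝ) (C : ℝ) : Prop :=
  0 < C ∧ ∀ d : ℕ, ∀ u₀ : ℝ, 0 ≤ u₀ → u₀ ≤ 1 → ∀ l : ℕ, ∀ k ∈ Ks (2 ^ d), ∀ z : ℝ × ℝ,
      ‖inv (fun ξ => (mulk φ (2 ^ d) u₀ l k ξ : ℂ)) z‖ ≤ C * wk (2 ^ d) k 6 z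

variable {φ : ℝ → ℝ} {d : ℕ}

/-! ### integrability of the weights -/

lemma wk6_int (D : ℕ) (hD : 1 ≤ D) (k : ℤ) (x : ℝ × ℝ) :
    Integrable (fun y : ℝ × ℝ => wk D k 6 (x - y)) ∧
    ∫ y : ℝ × ℝ, wk D k 6 (x - y) ≤ nkc ^ 2 := by
  have hDr : (1 : ℝ) ≤ D := by exact_mod_cast hD
  have hD0 : (0 : ℝ) < D := by linarith
  have hcont : Continuous (wk D k 2) := nk_wk_cont D k 2
  -- integrability of wk 2 through the shear
  have h0 : Integrable (fun y : ℝ × ℝ => hw 2 y.1 * hw 2 y.2) := nk_hw2_int.mul_prod nk_hw2_int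
  have key : ∫⁻ y : ℝ × ℝ, ENNReal.ofReal (wk D k 2 y) = ENNReal.ofReal (nkc ^ 2) := by
    rw [Measure.volume_eq_prod, lintegral_prod _
      (hcont.measurable.ennreal_ofReal.aemeasurable)]
    have e1 : ∀ s : ℝ, ∫⁻ t : ℝ, ENNReal.ofReal (wk D k 2 (s, t)) =
        ENNReal.ofReal (nkc * hw 2 s) := by
      intro s
      unfold wk
      simp only
      have e2 : ∀ t : ℝ, ENNReal.ofReal (D * hw 2 s * hw 2 (D * t - k * s)) =
          ENNReal.ofReal (D * hw 2 s) * ENNReal.ofReal (hw 2 (D * t - k * s)) := fun t =>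
        ENNReal.ofReal_mul (mul_nonneg hD0.le (hw_nonneg _ _))
      simp_rw [e2]
      rw [lintegral_const_mul _ (by fun_prop), nk_lint (D : ℝ) (k * s) hD0.ne', abs_of_pos hD0,
        ← ENNReal.ofReal_mul (mul_nonneg hD0.le (hw_nonneg _ _))]
      congr 1
      field_simp
    simp_rw [e1]
    have e3 : ∀ s : ℝ, ENNReal.ofReal (nkc * hw 2 s) =
        ENNReal.ofReal nkc * ENNReal.ofReal (hw 2 (1 * s - 0)) := by
      intro s
      rw [one_mul, sub_zero]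
      exact ENNReal.ofReal_mul nkc_nonneg
    simp_rw [e3]
    rw [lintegral_const_mul _ (by fun_prop), nk_lint 1 0 one_ne_zero, abs_one, div_one,
      ← ENNReal.ofReal_mul nkc_nonneg]
    congr 1
    ring
  have hi2 : Integrable (wk D k 2) := by
    refine ⟨hcont.aestronglyMeasurable, ?_⟩
    rw [hasFiniteIntegral_iff_ofReal (Filter.Eventually.of_forall fun y => nk_wk_nonneg D k 2 y),
      key]
    exact ENNReal.ofReal_lt_top
  have hv2 : ∫ y : ℝ × ℝ, wk D k 2 y = nkc ^ 2 := by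
    rw [integral_eq_lintegral_of_nonneg_ae (Filter.Eventually.of_forall fun y =>
      nk_wk_nonneg D k 2 y) hcont.aestronglyMeasurable, key,
      ENNReal.toReal_ofReal (by positivity)]
  have hle : ∀ y : ℝ × ℝ, wk D k 6 y ≤ wk D k 2 y := by
    intro y
    unfold wk
    have := hw_anti (show 2 ≤ 6 by norm_num) y.1
    have := hw_anti (show 2 ≤ 6 by norm_num) (D * y.2 - k * y.1)
    have := hw_nonneg 6 (D * y.2 - k * y.1)
    have := hw_nonneg 2 y.1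
    have := hw_nonneg 6 y.1
    gcongr
  have hi6 : Integrable (wk D k 6) := by
    refine hi2.mono' (nk_wk_cont D k 6).aestronglyMeasurable
      (Filter.Eventually.of_forall fun y => ?_)
    rw [Real.norm_of_nonneg (nk_wk_nonneg D k 6 y)]
    exact hle y
  refine ⟨hi6.comp_sub_left x, ?_⟩
  rw [integral_sub_left_eq_self (fun y => wk D k 6 y) volume x, ← hv2]
  exact integral_mono hi6 hi2 hle

lemma tileH_integrable (D : ℕ) (hD : 1 ≤ D) (k : ℤ) (T : ℤ × ℤ) :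
    Integrable (tileH 12 D k T) := by
  have hDr : (1 : ℝ) ≤ D := by exact_mod_cast hD
  have hD0 : (0 : ℝ) < D := by linarith
  have h1 := (wk6_int D hD k (xT D k T)).1
  refine (h1.const_mul ((D : ℝ)⁻¹)).mono' (tileH_cont 12 D k T).aestronglyMeasurable
    (Filter.Eventually.of_forall fun x => ?_)
  rw [Real.norm_of_nonneg (tileH_nonneg _ _ _ _ _)]
  refine (tileH_anti (show 6 ≤ 12 by norm_num) _ _ _ _).trans (le_of_eq ?_)
  unfold tileH wk xT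
  simp only [Prod.fst_sub, Prod.snd_sub]
  rw [hw_sub_comm 6 (x.1) T.1, ← hw_neg 6 (D * x.2 - k * x.1 - T.2)]
  rw [← mul_assoc, ← mul_assoc, inv_mul_cancel₀ hD0.ne', one_mul]
  congr 2
  field_simp
  ring

lemma wk_tile {D : ℕ} (hD : 1 ≤ D) (k : ℤ) (r : ℕ) (T : ℤ × ℤ) (x : ℝ × ℝ) :
    wk D k r (x - xT D k T) = D * (hw r (x.1 - T.1) * hw r (D * x.2 - k * x.1 - T.2)) := by
  have hDr : (1 : ℝ) ≤ D := by exact_mod_cast hD
  have hD0 : (0 : ℝ) < D := by linarith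
  unfold wk xT
  simp only [Prod.fst_sub, Prod.snd_sub]
  rw [mul_assoc]
  congr 3
  field_simp
  ring

/-! ### the convolution formula -/

/-- `inv (m · fwd H) (x) = ∫ H(y) (inv m)(x-y) dy` -/
lemma inv_mul_fwd {m H : ℝ × ℝ → ℂ} (hm : Integrable m) (hH : Integrable H) (x : ℝ × ℝ) :
    inv (fun ξ => m ξ * fwd H ξ) x = ∫ y, H y * inv m (x - y) := by
  have ha : Integrable (fun ξ : ℝ × ℝ => m (-ξ) * e (-(x.1 * ξ.1 + x.2 * ξ.2))) :=
    integrable_mul_e hm.comp_neg (by fun_prop)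
  have h1 := pair_inv hH ha
  have h2 : ∀ y, inv (fun ξ : ℝ × ℝ => m (-ξ) * e (-(x.1 * ξ.1 + x.2 * ξ.2))) y =
      inv m (x - y) := by
    intro y
    unfold inv
    rw [← integral_neg_eq_self]
    congr 1
    funext ξ
    simp only [neg_neg, Prod.fst_neg, Prod.snd_neg, Prod.fst_sub, Prod.snd_sub]
    rw [mul_assoc, ← e_add]
    congr 2
    ring
  simp only [h2] at h1
  rw [h1]
  conv_lhs => unfold inv
  rw [← integral_neg_eq_self]
  congr 1
  funext ξ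
  rw [inv_eq_fwd H ξ]
  simp only [Prod.fst_neg, Prod.snd_neg]
  rw [mul_assoc, mul_left_comm]
  congr 3
  ring

/-- `m` times a bounded measurable function -/
lemma mulk_bcs (hφ : Win φ) (u₀ : ℝ) (l : ℕ) (k : ℤ) :
    BCS (fun ξ => (mulk φ (2 ^ d) u₀ l k ξ : ℂ)) := by
  obtain ⟨C, hC1, hC⟩ := hφ.bdd
  refine ⟨?_, ⟨C, fun ξ => ?_⟩, ⟨5 * (2 ^ d) ^ 2, fun ξ hξ => ?_⟩⟩
  · exact Complex.continuous_ofReal.measurable.comp (mulk_meas hφ _ _ _ _)
  · rw [Complex.norm_real, Real.norm_eq_abs]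
    exact mulk_le' hC (by linarith) _ _ _ _ _
  · have h2 : mulk φ (2 ^ d) u₀ l k ξ ≠ 0 := by exact_mod_cast hξ
    exact Slk_supp (mulk_supp hφ (twod_pos d) h2)

/-- the dual piece in direction `k` -/
def Cfg.W (_c : Cfg φ d) (k : ℤ) (S : Finset (ℤ × ℤ)) (x : ℝ × ℝ) : ℝ :=
  ∑ T ∈ S, tileH 12 (2 ^ d) k T x

/-- the dual piece in direction `k` -/
def Cfg.Gk (c : Cfg φ d) (l : ℕ) (k : ℤ) (S : Finset (ℤ × ℤ)) : ℝ × ℝ → ℂ :=
  inv (fun ξ => (mulk φ (2 ^ d) c.u₀ l k ξ : ℂ) *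
    fwd (fun y => (c.W k S y : ℂ) * c.F l k y) ξ)

lemma Cfg.W_nonneg (c : Cfg φ d) (k : ℤ) (S : Finset (ℤ × ℤ)) (x : ℝ × ℝ) : 0 ≤ c.W k S x :=
  Finset.sum_nonneg fun _ _ => tileH_nonneg _ _ _ _ _

lemma Cfg.W_le (c : Cfg φ d) (k : ℤ) (S : Finset (ℤ × ℤ)) (x : ℝ × ℝ) : c.W k S x ≤ 256 :=
  (Finset.sum_le_sum fun _ _ => tileH_anti (by norm_num) _ _ _ _).trans (sum_tileH _ k S x)

lemma Cfg.W_cont (c : Cfg φ d) (k : ℤ) (S : Finset (ℤ × ℤ)) : Continuous (c.W k S) := by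
  unfold Cfg.W
  exact continuous_finsetSum _ fun T _ => tileH_cont _ _ _ _

lemma cast_pow2 (d : ℕ) : (((2 ^ d : ℕ) : ℕ) : ℝ) = (2 : ℝ) ^ d := by push_cast; ring

lemma one_le_pow2 (d : ℕ) : 1 ≤ 2 ^ d := Nat.one_le_two_pow

lemma Cfg.W_int (c : Cfg φ d) (k : ℤ) (S : Finset (ℤ × ℤ)) : Integrable (c.W k S) := by
  unfold Cfg.W
  apply integrable_finsetSum
  intro T _
  have := tileH_integrable (2 ^ d) (one_le_pow2 d) k T
  rwa [cast_pow2] at this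

lemma Cfg.WF_int (c : Cfg φ d) (hφ : Win φ) (l : ℕ) (k : ℤ) (S : Finset (ℤ × ℤ)) :
    Integrable (fun y => (c.W k S y : ℂ) * c.F l k y) := by
  obtain ⟨C, hC0, hC⟩ := (c.F_band hφ l k).bdd
  refine ((c.W_int k S).mul_const C).mono' ?_ (Filter.Eventually.of_forall fun x => ?_)
  · exact ((Complex.continuous_ofReal.comp (c.W_cont k S)).mul
      (c.F_band hφ l k).cont).aestronglyMeasurable
  · rw [norm_mul, Complex.norm_real, Real.norm_of_nonneg (c.W_nonneg k S x)]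
    exact mul_le_mul_of_nonneg_left (hC x) (c.W_nonneg k S x)

lemma Cfg.Gk_bcs (c : Cfg φ d) (hφ : Win φ) (l : ℕ) (k : ℤ) (S : Finset (ℤ × ℤ)) :
    BCS (fun ξ => (mulk φ (2 ^ d) c.u₀ l k ξ : ℂ) *
      fwd (fun y => (c.W k S y : ℂ) * c.F l k y) ξ) := by
  have h := mulk_bcs (d := d) hφ c.u₀ l k
  have hc := fwd_cont (c.WF_int hφ l k S)
  exact h.mul_meas hc.measurable (fun ξ => fwd_norm_le _ ξ)

lemma Cfg.Gk_band (c : Cfg φ d) (hφ : Win φ) (l : ℕ) (k : ℤ) (S : Finset (ℤ × ℤ)) :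
    Band (Slk (2 ^ d) c.u₀ l k) (c.Gk l k S) := by
  refine ⟨_, c.Gk_bcs hφ l k S, fun ξ hξ => ?_, rfl⟩
  have h1 := left_ne_zero_of_mul hξ
  have h2 : mulk φ (2 ^ d) c.u₀ l k ξ ≠ 0 := by exact_mod_cast h1
  exact mulk_supp hφ (twod_pos d) h2

/-- duality: `∫ conj(g_l) G_k = ∫ W |F|²` (up to conjugation) -/
lemma Cfg.duality (c : Cfg φ d) (hφ : Win φ) (l : ℕ) (k : ℤ) (S : Finset (ℤ × ℤ)) :
    ∫ x, (c.E l).indicator c.g x * starRingEnd ℂ (c.Gk l k S x) =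
      ((∫ x, c.W k S x * ‖c.F l k x‖ ^ 2 : ℝ) : ℂ) := by
  have hg := (c.hg.indicator (c.hE l)).integrable
  have hG := (c.Gk_bcs hφ l k S).integrable
  have hF := (c.a_bcs hφ l k).integrable
  have hW := c.WF_int hφ l k S
  have h1 := pair_conj hg hG
  have h2 := pair_conj hW hF
  have h3 : ∫ x, (c.E l).indicator c.g x * starRingEnd ℂ (c.Gk l k S x) =
      ∫ ξ, fwd ((c.E l).indicator c.g) ξ * starRingEnd ℂ ((mulk φ (2 ^ d) c.u₀ l k ξ : ℂ) *
      fwd (fun y => (c.W k S y : ℂ) * c.F l k y) ξ) := h1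
  have h4 : ∫ x, ((c.W k S x : ℂ) * c.F l k x) * starRingEnd ℂ (c.F l k x) =
      ∫ ξ, fwd (fun y => (c.W k S y : ℂ) * c.F l k y) ξ * starRingEnd ℂ (c.a l k ξ) := h2
  have h5 : ∫ x, ((c.W k S x : ℂ) * c.F l k x) * starRingEnd ℂ (c.F l k x) =
      ((∫ x, c.W k S x * ‖c.F l k x‖ ^ 2 : ℝ) : ℂ) := by
    rw [← integral_complex_ofReal]
    congr 1
    funext x
    rw [mul_assoc, Complex.mul_conj, Complex.normSq_eq_norm_sq]
    push_cast
    ring
  -- compare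
  have h6 : starRingEnd ℂ (∫ ξ, fwd (fun y => (c.W k S y : ℂ) * c.F l k y) ξ *
      starRingEnd ℂ (c.a l k ξ)) =
      ∫ ξ, fwd ((c.E l).indicator c.g) ξ * starRingEnd ℂ ((mulk φ (2 ^ d) c.u₀ l k ξ : ℂ) *
      fwd (fun y => (c.W k S y : ℂ) * c.F l k y) ξ) := by
    rw [← integral_conj]
    congr 1
    funext ξ
    unfold Cfg.a
    simp only [map_mul, Complex.conj_conj, Complex.conj_ofReal]
    ring
  rw [h3, ← h6, ← h4, h5, Complex.conj_ofReal]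

end

end Pool.Agent.Helper32.KS
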