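import Pool.Agent.Helper32.KS.Dual

/-!
# Dual functions: pointwise, cell and `L⁴` bounds (helper32)
-/

set_option autoImplicit false

open MeasureTheory
open scoped BigOperators Real ContDiff

namespace Pool.Agent.Helper32.KS

noncomputable section

/-- weighted Cauchy-Schwarz -/
lemma cs_weight {X : Type*} [MeasurableSpace X] {ν : Measure X} {ρ f : X → ℝ}
    (hρ : Integrable ρ ν) (h0 : ∀ x, 0 ≤ ρ x) (hf2 : Integrable (fun x => ρ x * f x ^ 2) ν)
    (hm : AEStronglyMeasurable (fun x => ρ x * f x) ν) :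
    (∫ x, ρ x * f x ∂ν) ^ 2 ≤ (∫ x, ρ x ∂ν) * ∫ x, ρ x * f x ^ 2 ∂ν := by
  have hf1 : Integrable (fun x => ρ x * f x) ν := by
    refine (hρ.add hf2).mono' hm (Filter.Eventually.of_forall fun x => ?_)
    simp only [Pi.add_apply]
    rw [Real.norm_eq_abs, abs_mul, abs_of_nonneg (h0 x)]
    have : |f x| ≤ 1 + f x ^ 2 := by
      rw [← sq_abs]
      nlinarith [abs_nonneg (f x), sq_nonneg (|f x| - 1)]
    have := mul_le_mul_of_nonneg_left this (h0 x)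
    linarith
  have key : ∀ t : ℝ, 0 ≤ (∫ x, ρ x ∂ν) * (t * t) + (-2 * ∫ x, ρ x * f x ∂ν) * t +
      ∫ x, ρ x * f x ^ 2 ∂ν := by
    intro t
    have h1 : (∫ x, ρ x ∂ν) * (t * t) + (-2 * ∫ x, ρ x * f x ∂ν) * t +
      ∫ x, ρ x * f x ^ 2 ∂ν = ∫ x, (ρ x * (t * t) + (ρ x * f x) * (-2 * t) + ρ x * f x ^ 2) ∂ν := by
      have hA : Integrable (fun x => ρ x * (t * t) + ρ x * f x * (-2 * t)) ν :=
        (hρ.mul_const _).add (hf1.mul_const _)
      rw [integral_add hA hf2,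
        integral_add (hρ.mul_const _) (hf1.mul_const _), integral_mul_const, integral_mul_const]
      ring
    rw [h1]
    apply integral_nonneg
    intro x
    simp only [Pi.zero_apply]
    have : ρ x * (t * t) + (ρ x * f x) * (-2 * t) + ρ x * f x ^ 2 = ρ x * (f x - t) ^ 2 := by ring
    rw [this]
    exact mul_nonneg (h0 x) (sq_nonneg _)
  have h2 := discrim_le_zero key
  unfold discrim at h2
  nlinarith

variable {φ : ℝ → ℝ} {d : ℕ}

/-- tile masses with the slowly decaying weight -/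
def Cfg.mu' (c : Cfg φ d) (k : ℤ) (T : ℤ × ℤ) (l : ℕ) : ℝ :=
  ∫ x, tileH 6 (2 ^ d) k T x * ‖c.F l k x‖ ^ 2

/-- tile masses -/
def Cfg.mu (c : Cfg φ d) (k : ℤ) (T : ℤ × ℤ) (l : ℕ) : ℝ :=
  ∫ x, tileH 12 (2 ^ d) k T x * ‖c.F l k x‖ ^ 2

lemma Cfg.mu'_nonneg (c : Cfg φ d) (k : ℤ) (T : ℤ × ℤ) (l : ℕ) : 0 ≤ c.mu' k T l :=
  integral_nonneg fun x => mul_nonneg (tileH_nonneg _ _ _ _ _) (by positivity)

lemma Cfg.mu_nonneg (c : Cfg φ d) (k : ℤ) (T : ℤ × ℤ) (l : ℕ) : 0 ≤ c.mu k T l :=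
  integral_nonneg fun x => mul_nonneg (tileH_nonneg _ _ _ _ _) (by positivity)

lemma Cfg.mu_le (c : Cfg φ d) (hφ : Win φ) (k : ℤ) (T : ℤ × ℤ) (l : ℕ) :
    c.mu k T l ≤ c.mu' k T l := by
  apply integral_mono (tileH_int (c.F_band hφ l k) _ _ _ _) (tileH_int (c.F_band hφ l k) _ _ _ _)
  intro x
  simp only
  gcongr
  exact tileH_anti (by norm_num) _ _ _ _

/-- the pointwise bound -/
lemma Cfg.G_pt (c : Cfg φ d) (hφ : Win φ) {CK : ℝ} (hK : KerB φ CK) (l : ℕ) {k : ℤ}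
    (hk : k ∈ Ks (2 ^ d)) (S : Finset (ℤ × ℤ)) (x : ℝ × ℝ) :
    ‖c.Gk l k S x‖ ^ 2 ≤ (CK ^ 2 * (256 * nkc ^ 2)) *
      ∑ T ∈ S, c.mu' k T l * wk (2 ^ d) k 6 (x - xT (2 ^ d) k T) := by
  obtain ⟨hCK, hker⟩ := hK
  have hF := c.F_band hφ l k
  have hconv : c.Gk l k S x = ∫ y, ((c.W k S y : ℂ) * c.F l k y) *
      inv (fun ξ => (mulk φ (2 ^ d) c.u₀ l k ξ : ℂ)) (x - y) :=
    inv_mul_fwd (mulk_bcs hφ c.u₀ l k).integrable (c.WF_int hφ l k S) x
  obtain ⟨w1, w2⟩ := wk6_int (2 ^ d) (one_le_pow2 d) k x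
  have hwc : Continuous fun y : ℝ × ℝ => wk (2 ^ d) k 6 (x - y) :=
    (nk_wk_cont (2 ^ d) k 6).comp (by fun_prop)
  have hwn : ∀ y : ℝ × ℝ, 0 ≤ wk (2 ^ d) k 6 (x - y) := fun y => nk_wk_nonneg _ _ _ _
  obtain ⟨CF, hCF0, hCF⟩ := hF.bdd
  -- the weight ρ = W(y) wk(x-y)
  set ρ : ℝ × ℝ → ℝ := fun y => c.W k S y * wk (2 ^ d) k 6 (x - y) with hρ
  have hρc : Continuous ρ := (c.W_cont k S).mul hwc
  have hρ0 : ∀ y, 0 ≤ ρ y := fun y => mul_nonneg (c.W_nonneg k S y) (hwn y)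
  have hρi : Integrable ρ := by
    refine (w1.const_mul 256).mono' hρc.aestronglyMeasurable (Filter.Eventually.of_forall fun y => ?_)
    rw [Real.norm_of_nonneg (hρ0 y)]
    exact mul_le_mul_of_nonneg_right (c.W_le k S y) (hwn y)
  have hρv : ∫ y, ρ y ≤ 256 * nkc ^ 2 := by
    calc ∫ y, ρ y ≤ ∫ y : ℝ × ℝ, 256 * wk (2 ^ d) k 6 (x - y) :=
          integral_mono hρi (w1.const_mul 256) fun y =>
            mul_le_mul_of_nonneg_right (c.W_le k S y) (hwn y)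
      _ ≤ 256 * nkc ^ 2 := by
          rw [integral_const_mul]
          gcongr
  have hρ2 : Integrable fun y => ρ y * ‖c.F l k y‖ ^ 2 := by
    refine (hρi.mul_const (CF ^ 2)).mono' (hρc.mul (hF.cont.norm.pow 2)).aestronglyMeasurable
      (Filter.Eventually.of_forall fun y => ?_)
    rw [Real.norm_of_nonneg (mul_nonneg (hρ0 y) (by positivity))]
    have := hCF y
    have := hρ0 y
    gcongr
  have hρ1 : Integrable fun y => ρ y * ‖c.F l k y‖ := by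
    refine (hρi.mul_const CF).mono' (hρc.mul hF.cont.norm).aestronglyMeasurable
      (Filter.Eventually.of_forall fun y => ?_)
    rw [Real.norm_of_nonneg (mul_nonneg (hρ0 y) (by positivity))]
    have := hCF y
    have := hρ0 y
    gcongr
  have h1 : ‖c.Gk l k S x‖ ≤ CK * ∫ y, ρ y * ‖c.F l k y‖ := by
    rw [hconv, ← integral_const_mul]
    refine norm_integral_le_of_norm_le (hρ1.const_mul CK) (Filter.Eventually.of_forall fun y => ?_)
    rw [norm_mul, norm_mul, Complex.norm_real, Real.norm_of_nonneg (c.W_nonneg k S y)]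
    have h2 := hker d c.u₀ c.hu0 c.hu1 l k hk (x - y)
    simp only [hρ]
    calc c.W k S y * ‖c.F l k y‖ * ‖inv (fun ξ => (mulk φ (2 ^ d) c.u₀ l k ξ : ℂ)) (x - y)‖
        ≤ c.W k S y * ‖c.F l k y‖ * (CK * wk (2 ^ d) k 6 (x - y)) := by
          apply mul_le_mul_of_nonneg_left h2
          exact mul_nonneg (c.W_nonneg k S y) (norm_nonneg _)
      _ = _ := by ring
  have h2 := cs_weight hρi hρ0 hρ2 (hρc.mul hF.cont.norm).aestronglyMeasurable
  have h3 : ∫ y, ρ y * ‖c.F l k y‖ ^ 2 ≤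
      ∑ T ∈ S, c.mu' k T l * wk (2 ^ d) k 6 (x - xT (2 ^ d) k T) := by
    have e1 : ∀ T ∈ S, Integrable fun y =>
        (wk (2 ^ d) k 6 (x - xT (2 ^ d) k T)) * (tileH 6 (2 ^ d) k T y * ‖c.F l k y‖ ^ 2) :=
      fun T _ => (tileH_int hF 6 (2 ^ d) k T).const_mul _
    have e2 : ∑ T ∈ S, c.mu' k T l * wk (2 ^ d) k 6 (x - xT (2 ^ d) k T) =
        ∫ y, ∑ T ∈ S, (wk (2 ^ d) k 6 (x - xT (2 ^ d) k T)) *
          (tileH 6 (2 ^ d) k T y * ‖c.F l k y‖ ^ 2) := by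
      rw [integral_finsetSum S e1]
      refine Finset.sum_congr rfl fun T _ => ?_
      rw [integral_const_mul, mul_comm]
      rfl
    rw [e2]
    apply integral_mono hρ2 (integrable_finsetSum S e1)
    intro y
    simp only [hρ]
    unfold Cfg.W
    rw [Finset.sum_mul, Finset.sum_mul]
    apply Finset.sum_le_sum
    intro T _
    have hwt := wk_tile (one_le_pow2 d) k 6 T x
    rw [hwt, cast_pow2]
    have hD0 : (0 : ℝ) < 2 ^ d := by positivity
    have f0 : wk (2 ^ d) k 6 (x - y) =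
        2 ^ d * (hw 6 (x.1 - y.1) * hw 6 ((2 ^ d * x.2 - k * x.1) - (2 ^ d * y.2 - k * y.1))) := by
      unfold wk
      simp only [Prod.fst_sub, Prod.snd_sub]
      rw [cast_pow2, mul_assoc]
      congr 3
      ring
    rw [f0]
    have f1 : tileH 12 (2 ^ d) k T y = (hw 6 (y.1 - T.1) * hw 6 (2 ^ d * y.2 - k * y.1 - T.2)) *
        tileH 6 (2 ^ d) k T y := by
      unfold tileH
      rw [show (12 : ℕ) = 6 + 6 by norm_num, hw_add, hw_add]
      ring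
    rw [f1]
    have f2 := hw_mul_le 6 (x.1 - y.1) (y.1 - T.1)
    rw [sub_add_sub_cancel] at f2
    have f3 := hw_mul_le 6 ((2 ^ d * x.2 - k * x.1) - (2 ^ d * y.2 - k * y.1))
      (2 ^ d * y.2 - k * y.1 - T.2)
    rw [sub_add_sub_cancel] at f3
    have n0 : 0 ≤ tileH 6 (2 ^ d) k T y * ‖c.F l k y‖ ^ 2 :=
      mul_nonneg (tileH_nonneg _ _ _ _ _) (by positivity)
    have f4 : (hw 6 (x.1 - y.1) * hw 6 (y.1 - T.1)) *
        (hw 6 ((2 ^ d * x.2 - k * x.1) - (2 ^ d * y.2 - k * y.1)) *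
          hw 6 (2 ^ d * y.2 - k * y.1 - T.2)) ≤
        hw 6 (x.1 - T.1) * hw 6 (2 ^ d * x.2 - k * x.1 - T.2) :=
      mul_le_mul f2 f3 (mul_nonneg (hw_nonneg _ _) (hw_nonneg _ _)) (hw_nonneg _ _)
    calc (hw 6 (y.1 - T.1) * hw 6 (2 ^ d * y.2 - k * y.1 - T.2)) * tileH 6 (2 ^ d) k T y *
        (2 ^ d * (hw 6 (x.1 - y.1) * hw 6 ((2 ^ d * x.2 - k * x.1) - (2 ^ d * y.2 - k * y.1)))) *
          ‖c.F l k y‖ ^ 2
        = (2 ^ d * ((hw 6 (x.1 - y.1) * hw 6 (y.1 - T.1)) *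
        (hw 6 ((2 ^ d * x.2 - k * x.1) - (2 ^ d * y.2 - k * y.1)) *
          hw 6 (2 ^ d * y.2 - k * y.1 - T.2)))) * (tileH 6 (2 ^ d) k T y * ‖c.F l k y‖ ^ 2) := by ring
      _ ≤ (2 ^ d * (hw 6 (x.1 - T.1) * hw 6 (2 ^ d * x.2 - k * x.1 - T.2))) *
          (tileH 6 (2 ^ d) k T y * ‖c.F l k y‖ ^ 2) := by
          apply mul_le_mul_of_nonneg_right _ n0
          exact mul_le_mul_of_nonneg_left f4 hD0.le
  have h4 : 0 ≤ ∫ y, ρ y * ‖c.F l k y‖ ^ 2 :=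
    integral_nonneg fun y => mul_nonneg (hρ0 y) (by positivity)
  calc ‖c.Gk l k S x‖ ^ 2 ≤ (CK * ∫ y, ρ y * ‖c.F l k y‖) ^ 2 := by gcongr
    _ = CK ^ 2 * (∫ y, ρ y * ‖c.F l k y‖) ^ 2 := by ring
    _ ≤ CK ^ 2 * ((∫ y, ρ y) * ∫ y, ρ y * ‖c.F l k y‖ ^ 2) := by gcongr
    _ ≤ CK ^ 2 * ((256 * nkc ^ 2) * ∑ T ∈ S, c.mu' k T l * wk (2 ^ d) k 6 (x - xT (2 ^ d) k T)) := by
        gcongr
    _ = _ := by ring

/-- cell weight against a wave packet weight -/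
lemma cell_wk {D : ℕ} (hD : 1 ≤ D) {k : ℤ} (hk : k ∈ Ks D) (T q : ℤ × ℤ) :
    Integrable (fun x => cellW D q x * wk D k 6 (x - xT D k T)) ∧
    ∫ x, cellW D q x * wk D k 6 (x - xT D k T) ≤
      (9 ^ 14 * 9 ^ 14 * 9 ^ 6) * nkc ^ 2 / D * cw D k 6 q T := by
  have hDr : (1 : ℝ) ≤ D := by exact_mod_cast hD
  have hD0 : (0 : ℝ) < D := by linarith
  have hk' := abs_k_le hk
  have hκ : |(k : ℝ) / D| ≤ 9 := by
    rw [abs_div, abs_of_pos hD0, div_le_iff₀ hD0]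
    exact hk'
  obtain ⟨i1, i2⟩ := int_cell_hw hD0 (q.1 : ℝ) (q.2 : ℝ)
  have hcw : 0 ≤ cw D k 6 q T := mul_nonneg (hw_nonneg _ _) (hw_nonneg _ _)
  have hpt : ∀ x : ℝ × ℝ, cellW D q x * wk D k 6 (x - xT D k T) ≤
      ((9 ^ 14 * 9 ^ 14 * 9 ^ 6) * D * cw D k 6 q T) *
        (hw 2 (D * x.1 - q.1) * hw 2 (D * x.2 - q.2)) := by
    intro x
    rw [wk_tile hD]
    set A : ℝ := D * x.1 - q.1 with hA
    set B : ℝ := D * x.2 - q.2 with hB
    have e1 : D * x.2 - k * x.1 - T.2 = (B - k / D * A) + (q.2 - k * q.1 / D - T.2) := by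
      rw [hA, hB]
      field_simp
      ring
    have e2 : x.1 - T.1 = A / D + (q.1 / D - T.1) := by
      rw [hA]
      field_simp
      ring
    have b1 : 1 + |A / D| ≤ 1 + |A| := by
      rw [abs_div, abs_of_pos hD0]
      have := div_le_self (abs_nonneg A) hDr
      linarith
    have b2 : 1 + |B - k / D * A| ≤ 9 * ((1 + |A|) * (1 + |B|)) := by
      have t1 : |B - k / D * A| ≤ |B| + 9 * |A| := by
        refine (abs_sub _ _).trans ?_
        rw [abs_mul]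
        gcongr
      nlinarith [abs_nonneg A, abs_nonneg B, mul_nonneg (abs_nonneg A) (abs_nonneg B)]
    have h1 : hw 6 (x.1 - T.1) ≤ (1 + |A|) ^ 6 * hw 6 ((q.1 : ℝ) / D - T.1) := by
      have := hw_slow 6 (x.1 - T.1) (-(A / D))
      rw [e2, show A / D + ((q.1 : ℝ) / D - T.1) + -(A / D) = (q.1 : ℝ) / D - T.1 by ring,
        abs_neg] at this
      rw [e2]
      refine this.trans ?_
      have n := hw_nonneg 6 ((q.1 : ℝ) / D - T.1)
      gcongr
    have h2 : hw 6 (D * x.2 - k * x.1 - T.2) ≤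
        (9 * ((1 + |A|) * (1 + |B|))) ^ 6 * hw 6 ((q.2 : ℝ) - k * q.1 / D - T.2) := by
      have := hw_slow 6 (D * x.2 - k * x.1 - T.2) (-(B - k / D * A))
      rw [e1, show (B - k / D * A) + ((q.2 : ℝ) - k * q.1 / D - T.2) + -(B - k / D * A) =
        (q.2 : ℝ) - k * q.1 / D - T.2 by ring, abs_neg] at this
      rw [e1]
      refine this.trans ?_
      have n := hw_nonneg 6 ((q.2 : ℝ) - k * q.1 / D - T.2)
      gcongr
    have b4 : hw 28 A * (1 + |A|) ^ 12 ≤ hw 2 A := by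
      have : hw 28 A * (1 + |A|) ^ 12 = hw 16 A := by
        unfold hw
        rw [show (28 : ℕ) = 16 + 12 by norm_num, pow_add, mul_inv, mul_assoc, inv_mul_cancel₀,
          mul_one]
        positivity
      rw [this]
      exact hw_anti (by norm_num) A
    have b5 : hw 28 B * (1 + |B|) ^ 6 ≤ hw 2 B := by
      have : hw 28 B * (1 + |B|) ^ 6 = hw 22 B := by
        unfold hw
        rw [show (28 : ℕ) = 22 + 6 by norm_num, pow_add, mul_inv, mul_assoc, inv_mul_cancel₀,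
          mul_one]
        positivity
      rw [this]
      exact hw_anti (by norm_num) B
    have n1 := hw_nonneg 28 A
    have n2 := hw_nonneg 28 B
    have n3 := hw_nonneg 6 (x.1 - T.1)
    have n4 := hw_nonneg 6 (D * x.2 - k * x.1 - T.2)
    have n5 := hw_nonneg 6 ((q.1 : ℝ) / D - T.1)
    have n6 := hw_nonneg 6 ((q.2 : ℝ) - k * q.1 / D - T.2)
    have s1 : cellW D q x * (D * (hw 6 (x.1 - T.1) * hw 6 (D * x.2 - k * x.1 - T.2))) ≤
        (9 ^ 14 * 9 ^ 14 * (hw 28 A * hw 28 B)) *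
        (D * (((1 + |A|) ^ 6 * hw 6 ((q.1 : ℝ) / D - T.1)) *
          ((9 * ((1 + |A|) * (1 + |B|))) ^ 6 * hw 6 ((q.2 : ℝ) - k * q.1 / D - T.2)))) := by
      apply mul_le_mul (cellW_le D q x) _ (by positivity)
        (mul_nonneg (by norm_num) (mul_nonneg n1 n2))
      exact mul_le_mul_of_nonneg_left (mul_le_mul h1 h2 n4 (by positivity)) hD0.le
    refine s1.trans ?_
    have s2 : (9 ^ 14 * 9 ^ 14 * (hw 28 A * hw 28 B)) *
        (D * (((1 + |A|) ^ 6 * hw 6 ((q.1 : ℝ) / D - T.1)) *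
          ((9 * ((1 + |A|) * (1 + |B|))) ^ 6 * hw 6 ((q.2 : ℝ) - k * q.1 / D - T.2)))) =
        ((9 ^ 14 * 9 ^ 14 * 9 ^ 6) * D * cw D k 6 q T) *
          ((hw 28 A * (1 + |A|) ^ 12) * (hw 28 B * (1 + |B|) ^ 6)) := by
      unfold cw
      generalize hw 28 A = a
      generalize hw 28 B = b
      generalize hw 6 ((q.1 : ℝ) / D - T.1) = c'
      generalize hw 6 ((q.2 : ℝ) - k * q.1 / D - T.2) = d'
      generalize 1 + |A| = α
      generalize 1 + |B| = β'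
      ring
    rw [s2]
    apply mul_le_mul_of_nonneg_left _ (by positivity)
    exact mul_le_mul b4 b5 (by positivity) (hw_nonneg _ _)
  have hc : Continuous fun x => cellW D q x * wk D k 6 (x - xT D k T) :=
    (cellW_cont D q).mul ((nk_wk_cont D k 6).comp (by fun_prop))
  have hn : ∀ x, 0 ≤ cellW D q x * wk D k 6 (x - xT D k T) := fun x =>
    mul_nonneg (cellW_nonneg D q x) (nk_wk_nonneg _ _ _ _)
  have hi : Integrable fun x => cellW D q x * wk D k 6 (x - xT D k T) := by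
    refine (i1.const_mul ((9 ^ 14 * 9 ^ 14 * 9 ^ 6) * D * cw D k 6 q T)).mono'
      hc.aestronglyMeasurable (Filter.Eventually.of_forall fun x => ?_)
    rw [Real.norm_of_nonneg (hn x)]
    exact hpt x
  refine ⟨hi, ?_⟩
  refine (integral_mono hi (i1.const_mul _) hpt).trans (le_of_eq ?_)
  rw [integral_const_mul, i2]
  field_simp

/-- fibres over the directions -/
def fib (S : Finset (ℤ × (ℤ × ℤ))) (k : ℤ) : Finset (ℤ × ℤ) := (S.filter fun P => P.1 = k).image Prod.snd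

lemma sum_fib (S : Finset (ℤ × (ℤ × ℤ))) (K : Finset ℤ) (hS : ∀ P ∈ S, P.1 ∈ K)
    (f : ℤ → ℤ × ℤ → ℝ) : ∑ P ∈ S, f P.1 P.2 = ∑ k ∈ K, ∑ T ∈ fib S k, f k T := by
  classical
  rw [← Finset.sum_fiberwise_of_maps_to hS]
  refine Finset.sum_congr rfl fun k _ => ?_
  unfold fib
  rw [Finset.sum_image]
  · refine Finset.sum_congr rfl fun P hP => ?_
    rw [(Finset.mem_filter.1 hP).2]
  · intro P hP Q hQ h
    simp only [Finset.coe_filter, Set.mem_ofPred_eq] at hP hQ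
    ext
    · rw [hP.2, hQ.2]
    · rw [h]
    · rw [h]

end

end Pool.Agent.Helper32.KS
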