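import Pool.Agent.Helper32.KS.FinB

/-!
# The final theorems from the dual block estimate (helper80)
-/

set_option autoImplicit false

open MeasureTheory Filter Topology FourierTransform SchwartzMap
open scoped BigOperators Real ENNReal RealInnerProductSpace NNReal ContDiff

namespace Pool.Agent.Helper32.KS

noncomputable section

/-! ### the inverse transform on `L²` -/

lemma fn_inv_ae (f : fnV → ℂ) (h1 : Integrable f) (h2 : MemLp f 2 (volume : Measure fnV)) :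
    ((𝓕⁻ (h2.toLp f) : Lp ℂ 2 (volume : Measure fnV)) : fnV → ℂ) =ᵐ[volume]
      fun x => 𝓕 f (-x) := by
  have hcont : Continuous (fun x => 𝓕 f (-x)) := (four_cont f h1).comp continuous_neg
  apply ae_eq_of_integral_contDiff_smul_eq
  · exact (Lp.memLp _).locallyIntegrable (by norm_num)
  · exact hcont.locallyIntegrable
  · intro g g_smooth g_cpt
    have hg₁ : HasCompactSupport (Complex.ofRealCLM ∘ g) := g_cpt.comp_left rfl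
    have hg₂ : ContDiff ℝ ∞ (Complex.ofRealCLM ∘ g) := by fun_prop
    set gS : 𝓢(fnV, ℂ) := hg₁.toSchwartzMap hg₂ with hgS
    have hgx : ∀ x, gS x = (g x : ℂ) := fun x => rfl
    have e1 : ∫ x, g x • ((𝓕⁻ (h2.toLp f) : Lp ℂ 2 (volume : Measure fnV)) : fnV → ℂ) x =
        ((𝓕⁻ (h2.toLp f) : Lp ℂ 2 (volume : Measure fnV)) : 𝓢'(fnV, ℂ)) gS := by
      rw [Lp.toTemperedDistribution_apply]
      simp [hgx]
    rw [e1, ← Lp.fourierInv_toTemperedDistribution_eq, TemperedDistribution.fourierInv_apply,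
      Lp.toTemperedDistribution_apply]
    have e2 : ∫ x, (𝓕⁻ gS) x • (h2.toLp f : fnV → ℂ) x = ∫ x, (𝓕⁻ gS) x • f x := by
      apply integral_congr_ae
      filter_upwards [h2.coeFn_toLp] with x hx
      rw [hx]
    rw [e2]
    have e3 := VectorFourier.integral_fourierIntegral_smul_eq_flip (L := innerₗ fnV)
      Real.continuous_fourierChar continuous_inner gS.integrable h1.comp_neg
      (μ := volume) (ν := volume)
    simp only [flip_innerₗ] at e3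
    have e5 : ∀ x, (𝓕⁻ gS) x = 𝓕 (gS : fnV → ℂ) (-x) := by
      intro x
      rw [SchwartzMap.fourierInv_coe]
      exact Real.fourierInv_eq_fourier_neg _ _
    have e6 : ∀ x, 𝓕 (fun y => f (-y)) x = 𝓕 f (-x) := by
      intro x
      rw [← Real.fourierInv_eq_fourier_neg, Real.fourierInv_eq_fourier_comp_neg]
    have e4 : ∫ x, (𝓕⁻ gS) x • f x = ∫ x, gS x • 𝓕 f (-x) := by
      rw [← integral_neg_eq_self]
      simp only [e5, neg_neg]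
      have e7 : ∫ x, 𝓕 (gS : fnV → ℂ) x • f (-x) = ∫ x, gS x • 𝓕 (fun y => f (-y)) x := e3
      rw [e7]
      simp only [e6]
    rw [e4]
    simp [hgx]

lemma fn_eLp (F : fnV → ℂ) : ∫⁻ x, ‖F x‖ₑ ^ 2 = eLpNorm F 2 volume ^ 2 := by
  rw [eLpNorm_eq_lintegral_rpow_enorm_toReal (by norm_num) (by norm_num), ← ENNReal.rpow_natCast,
    ← ENNReal.rpow_mul]
  norm_num

lemma fn_tail (f : Lp ℂ 2 (volume : Measure fnV)) (R : ℝ) :
    ∫⁻ x, ‖(f : fnV → ℂ) x -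
      V11160.SPS.ballSum ((𝓕 f : Lp ℂ 2 (volume : Measure fnV)) : fnV → ℂ) R x‖ₑ ^ 2
      = ∫⁻ ξ in (Metric.closedBall (0 : fnV) R)ᶜ,
        ‖((𝓕 f : Lp ℂ 2 (volume : Measure fnV)) : fnV → ℂ) ξ‖ₑ ^ 2 := by
  set g : Lp ℂ 2 (volume : Measure fnV) := 𝓕 f with hg
  set s : Set fnV := Metric.closedBall (0 : fnV) R with hs
  have hsm : MeasurableSet s := Metric.isClosed_closedBall.measurableSet
  have h1 : Integrable (s.indicator (g : fnV → ℂ)) := fn_cut_int (Lp.memLp g) R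
  have h2 : MemLp (s.indicator (g : fnV → ℂ)) 2 volume := (Lp.memLp g).indicator hsm
  set H : Lp ℂ 2 (volume : Measure fnV) := h2.toLp _ with hH
  have h3 := fn_inv_ae _ h1 h2
  have h4 : (𝓕⁻ g : Lp ℂ 2 (volume : Measure fnV)) = f := by
    rw [hg]
    exact fourierInv_fourier_eq f
  have h5 : f - 𝓕⁻ H = 𝓕⁻ (g - H) := by
    have : 𝓕⁻ (g - H) = 𝓕⁻ g - 𝓕⁻ H := (Lp.fourierTransformₗᵢ fnV ℂ).symm.map_sub g H
    rw [this, h4]
  have h6 : ‖f - 𝓕⁻ H‖ = ‖g - H‖ := by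
    rw [h5]
    exact (Lp.fourierTransformₗᵢ fnV ℂ).symm.norm_map (g - H)
  have h7 : ‖f - 𝓕⁻ H‖ₑ = ‖g - H‖ₑ := by
    rw [← ofReal_norm, h6, ofReal_norm]
  rw [Lp.enorm_def, Lp.enorm_def] at h7
  have h8 : ∫⁻ x, ‖(f : fnV → ℂ) x - V11160.SPS.ballSum (g : fnV → ℂ) R x‖ₑ ^ 2
      = ∫⁻ x, ‖((f - 𝓕⁻ H : Lp ℂ 2 (volume : Measure fnV)) : fnV → ℂ) x‖ₑ ^ 2 := by
    apply lintegral_congr_ae
    filter_upwards [Lp.coeFn_sub f (𝓕⁻ H), h3] with x hx1 hx2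
    rw [hx1, Pi.sub_apply, hx2, fn_ballSum_eq]
  have h9 : ∫⁻ ξ in sᶜ, ‖(g : fnV → ℂ) ξ‖ₑ ^ 2
      = ∫⁻ ξ, ‖((g - H : Lp ℂ 2 (volume : Measure fnV)) : fnV → ℂ) ξ‖ₑ ^ 2 := by
    rw [← lintegral_indicator hsm.compl]
    apply lintegral_congr_ae
    filter_upwards [Lp.coeFn_sub g H, h2.coeFn_toLp] with x hx1 hx2
    rw [hx1, Pi.sub_apply, hx2]
    by_cases hx : x ∈ s
    · rw [Set.indicator_of_mem hx, Set.indicator_of_notMem (by simpa using hx)]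
      simp
    · rw [Set.indicator_of_notMem hx, Set.indicator_of_mem (by simpa using hx)]
      simp
  rw [h8, h9, fn_eLp, fn_eLp, h7]

/-! ### the maximal estimate -/

/-- **(A)** -/
theorem fin_A (hBD : BD) : ∃ C : ℝ, 0 < C ∧ ∀ N : ℝ, 2 ≤ N → ∀ g : fnV → ℂ, Measurable g →
    MemLp g 2 volume → ∀ z : fnV,
    ∫⁻ x in Metric.closedBall z 1,
        (⨆ R ∈ Set.Ioc (0 : ℝ) N, ‖V11160.SPS.ballSum g R x‖ₑ) ^ 2 ≤
      ENNReal.ofReal (C * Real.log N * Real.log (2 + Real.log N) ^ 2) *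
        ∫⁻ ξ, ‖g ξ‖ₑ ^ 2 := by
  obtain ⟨C, hC0, hC⟩ := hBD
  have hKK := V11160.SPS.KK_nonneg 1 1
  refine ⟨16 * (2 + 16 * C + 5 * V11160.SPS.KK 1 1), by positivity, fun N hN g hm h2 z => ?_⟩
  have hl2 : 0.6931471803 < Real.log 2 := Real.log_two_gt_d9
  have hl4 : Real.log 4 = 2 * Real.log 2 := by
    rw [show (4 : ℝ) = 2 ^ 2 by norm_num, Real.log_pow]
    norm_num
  have hN0 : (0 : ℝ) < N := by linarith
  have hLN : Real.log 2 ≤ Real.log N := Real.log_le_log (by norm_num) hN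
  set L := Real.log N with hL
  set m := ⌈L / Real.log 4⌉₊ with hm'
  have hm1 : (m : ℝ) < L / Real.log 4 + 1 := Nat.ceil_lt_add_one (div_nonneg (by linarith) (by linarith))
  have hm2 : L / Real.log 4 ≤ m := Nat.le_ceil _
  have hNm : N ≤ 4 ^ m := by
    rw [div_le_iff₀ (by linarith)] at hm2
    rw [← Real.log_le_log_iff hN0 (by positivity), Real.log_pow]
    exact hm2
  obtain ⟨M, hM1, hM2, hM3⟩ := fn_F4z hC0 hC m z hm h2
  have key : ∀ x, (⨆ R ∈ Set.Ioc (0 : ℝ) N, ‖V11160.SPS.ballSum g R x‖ₑ) ^ 2 ≤ M x := by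
    intro x
    have k1 : (⨆ R ∈ Set.Ioc (0 : ℝ) N, ‖V11160.SPS.ballSum g R x‖ₑ) ≤ M x ^ (1 / 2 : ℝ) := by
      refine iSup₂_le fun R hR => ?_
      have := hM2 x R hR.1.le (hR.2.trans hNm)
      calc ‖V11160.SPS.ballSum g R x‖ₑ = (‖V11160.SPS.ballSum g R x‖ₑ ^ 2) ^ (1 / 2 : ℝ) := by
            rw [← ENNReal.rpow_natCast, ← ENNReal.rpow_mul]
            norm_num
        _ ≤ M x ^ (1 / 2 : ℝ) := by gcongr
    calc (⨆ R ∈ Set.Ioc (0 : ℝ) N, ‖V11160.SPS.ballSum g R x‖ₑ) ^ 2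
        ≤ (M x ^ (1 / 2 : ℝ)) ^ 2 := by gcongr
      _ = M x := by
          rw [← ENNReal.rpow_natCast, ← ENNReal.rpow_mul]
          norm_num
  refine (lintegral_mono fun x => key x).trans (hM3.trans ?_)
  gcongr ENNReal.ofReal ?_ * _
  have q1 : (m : ℝ) + 1 ≤ 4 * L := by
    have : L / Real.log 4 ≤ L := div_le_self (by linarith) (by linarith)
    nlinarith
  have q2 : lg m ≤ 2 * Real.log (2 + L) := by
    unfold lg
    rw [← Nat.cast_ofNat (n := 2), ← Real.log_pow]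
    apply Real.log_le_log (by positivity)
    push_cast
    have : L / Real.log 4 ≤ L := div_le_self (by linarith) (by linarith)
    nlinarith
  have q3 := fn_lg_one m
  have hL0 : 0 ≤ L := by linarith
  calc (2 + 16 * C + 5 * V11160.SPS.KK 1 1) * ((m + 1) * lg m ^ 2)
      ≤ (2 + 16 * C + 5 * V11160.SPS.KK 1 1) * ((4 * L) * (2 * Real.log (2 + L)) ^ 2) := by
        gcongr
    _ = 16 * (2 + 16 * C + 5 * V11160.SPS.KK 1 1) * L * Real.log (2 + L) ^ 2 := by ring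

/-! ### almost everywhere convergence -/

/-- the weight -/
def fn_w (ξ : fnV) : ℝ :=
  Real.log (2 + ‖ξ‖) * Real.log (2 + Real.log (2 + ‖ξ‖)) ^ 2

lemma fn_w_meas : Measurable fn_w := by
  unfold fn_w
  fun_prop

lemma fn_w_aux (i : ℕ) (ξ : fnV) (h : (4 : ℝ) ^ (2 ^ i) < ‖ξ‖) :
    2 ^ i ≤ Real.log (2 + ‖ξ‖) := by
  have hl2 : 0.6931471803 < Real.log 2 := Real.log_two_gt_d9
  have hl4 : Real.log 4 = 2 * Real.log 2 := by
    rw [show (4 : ℝ) = 2 ^ 2 by norm_num, Real.log_pow]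
    norm_num
  have h1 : Real.log ((4 : ℝ) ^ (2 ^ i)) ≤ Real.log (2 + ‖ξ‖) :=
    Real.log_le_log (by positivity) (by linarith)
  rw [Real.log_pow] at h1
  push_cast at h1
  have h2 : (0 : ℝ) < 2 ^ i := by positivity
  nlinarith

lemma fn_w_lower (i : ℕ) (ξ : fnV) (h : (4 : ℝ) ^ (2 ^ i) < ‖ξ‖) :
    2 ^ i ≤ fn_w ξ := by
  have h1 := fn_w_aux i ξ h
  have h2 : (1 : ℝ) ≤ 2 ^ i := one_le_pow₀ (by norm_num)
  set L := Real.log (2 + ‖ξ‖) with hL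
  have h3 : 1 ≤ Real.log (2 + L) := by
    rw [Real.le_log_iff_exp_le (by linarith)]
    have := Real.exp_one_lt_d9
    linarith
  unfold fn_w
  rw [← hL]
  have h4 : 1 ≤ Real.log (2 + L) ^ 2 := one_le_pow₀ h3
  nlinarith

lemma fn_w_block (i : ℕ) (ξ : fnV) (h : (4 : ℝ) ^ (2 ^ i) < ‖ξ‖) :
    (((2 ^ (i + 1) : ℕ) : ℝ) + 1) * lg (2 ^ (i + 1)) ^ 2 ≤ 12 * fn_w ξ := by
  have h1 := fn_w_aux i ξ h
  have h2 : (1 : ℝ) ≤ 2 ^ i := one_le_pow₀ (by norm_num)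
  unfold fn_w
  set L := Real.log (2 + ‖ξ‖) with hL
  have q2 : lg (2 ^ (i + 1)) ≤ 2 * Real.log (2 + L) := by
    have e0 : 2 * Real.log (2 + L) = Real.log ((2 + L) ^ 2) := by
      rw [Real.log_pow]
      norm_num
    unfold lg
    rw [e0]
    apply Real.log_le_log (by positivity)
    push_cast
    rw [pow_succ]
    nlinarith
  have q3 := fn_lg_one (2 ^ (i + 1))
  have q4 : ((2 ^ (i + 1) : ℕ) : ℝ) + 1 ≤ 3 * L := by
    push_cast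
    rw [pow_succ]
    linarith
  have hL0 : 0 ≤ L := by linarith
  calc (((2 ^ (i + 1) : ℕ) : ℝ) + 1) * lg (2 ^ (i + 1)) ^ 2
      ≤ (3 * L) * (2 * Real.log (2 + L)) ^ 2 := by gcongr
    _ = 12 * (L * Real.log (2 + L) ^ 2) := by ring

lemma fn_mono4 : Monotone fun i : ℕ => (4 : ℝ) ^ (2 ^ i) := fun i j hij =>
  pow_le_pow_right₀ (by norm_num) (Nat.pow_le_pow_right (by norm_num) hij)

lemma fn_super (hBD : BD) {g : fnV → ℂ} (hm : Measurable g) (h2 : MemLp g 2 volume)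
    (hw : ∫⁻ ξ, ‖g ξ‖ₑ ^ 2 * ENNReal.ofReal (fn_w ξ) ≠ ⊤) :
    ∀ᵐ x : fnV, ∃ u : ℕ → ℝ≥0∞, Tendsto u atTop (𝓝 0) ∧ ∀ (i : ℕ) (R : ℝ),
      4 ^ (2 ^ i) ≤ R → R ≤ 4 ^ (2 ^ (i + 1)) →
      ‖V11160.SPS.ballSum g R x - V11160.SPS.ballSum g (4 ^ (2 ^ i)) x‖ₑ ^ 2 ≤ u i := by
  obtain ⟨C, hC0, hC⟩ := hBD
  have hKK := V11160.SPS.KK_nonneg 1 1
  set K : ℝ := 2 + 16 * C + 5 * V11160.SPS.KK 1 1 with hK
  have hK0 : 0 < K := by positivity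
  have key : ∀ z : fnV, ∀ᵐ x ∂volume.restrict (Metric.closedBall z 1),
      ∃ u : ℕ → ℝ≥0∞, Tendsto u atTop (𝓝 0) ∧ ∀ (i : ℕ) (R : ℝ),
      4 ^ (2 ^ i) ≤ R → R ≤ 4 ^ (2 ^ (i + 1)) →
      ‖V11160.SPS.ballSum g R x - V11160.SPS.ballSum g (4 ^ (2 ^ i)) x‖ₑ ^ 2 ≤ u i := by
    intro z
    choose M hM1 hM2 hM3 using fun i : ℕ => fn_F4z hC0 hC (2 ^ (i + 1)) z
      (fn_bl_meas hm (4 ^ (2 ^ i)) (4 ^ (2 ^ (i + 1)))) (fn_bl_mem h2 _ _)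
    have s1 : ∀ i, ∫⁻ x in Metric.closedBall z 1, M i x
        ≤ ENNReal.ofReal (K * 12) * ∫⁻ ξ in (V11160.SPS.ann (4 ^ (2 ^ i)) (4 ^ (2 ^ (i + 1))) :
          Set fnV), ‖g ξ‖ₑ ^ 2 * ENNReal.ofReal (fn_w ξ) := by
      intro i
      refine (hM3 i).trans ?_
      rw [fn_bl_lint, ← lintegral_const_mul' _ _ ENNReal.ofReal_ne_top,
        ← lintegral_const_mul' _ _ ENNReal.ofReal_ne_top]
      refine setLIntegral_mono' (V11160.SPS.meas_ann _ _) fun ξ hξ => ?_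
      have h4 := fn_w_block i ξ hξ.1
      calc ENNReal.ofReal (K * ((((2 ^ (i + 1) : ℕ) : ℝ) + 1) * lg (2 ^ (i + 1)) ^ 2)) *
            ‖g ξ‖ₑ ^ 2
          ≤ ENNReal.ofReal (K * (12 * fn_w ξ)) * ‖g ξ‖ₑ ^ 2 := by gcongr
        _ = ENNReal.ofReal (K * 12) * (‖g ξ‖ₑ ^ 2 * ENNReal.ofReal (fn_w ξ)) := by
            rw [← mul_assoc, ENNReal.ofReal_mul (by positivity)]
            ring
    have s2 : ∫⁻ x in Metric.closedBall z 1, ∑' i, M i x ≠ ⊤ := by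
      rw [lintegral_tsum fun i => (hM1 i).aemeasurable]
      refine ne_top_of_le_ne_top ?_ (ENNReal.tsum_le_tsum s1)
      rw [ENNReal.tsum_mul_left]
      refine ENNReal.mul_ne_top ENNReal.ofReal_ne_top (ne_top_of_le_ne_top hw ?_)
      exact fn_tsum_ann _ fn_mono4 _
    filter_upwards [ae_lt_top (Measurable.tsum fun i => hM1 i) s2] with x hx
    refine ⟨fun i => M i x, ENNReal.tendsto_atTop_zero_of_tsum_ne_top hx.ne, fun i R h3 h4 => ?_⟩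
    rw [V11160.SPS.ballSum_sub h2 h3, ← fn_bl_sum g h4 x]
    exact hM2 i x R (le_trans (by positivity) h3) h4
  have key2 : ∀ᵐ x : fnV, ∀ n : ℕ, x ∈ Metric.closedBall (TopologicalSpace.denseSeq fnV n) 1 →
      ∃ u : ℕ → ℝ≥0∞, Tendsto u atTop (𝓝 0) ∧ ∀ (i : ℕ) (R : ℝ),
      4 ^ (2 ^ i) ≤ R → R ≤ 4 ^ (2 ^ (i + 1)) →
      ‖V11160.SPS.ballSum g R x - V11160.SPS.ballSum g (4 ^ (2 ^ i)) x‖ₑ ^ 2 ≤ u i := by
    rw [ae_all_iff]
    intro n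
    exact (ae_restrict_iff' measurableSet_closedBall).1 (key _)
  filter_upwards [key2] with x hx
  obtain ⟨n, hn⟩ := (TopologicalSpace.denseRange_denseSeq fnV).exists_dist_lt x
    (by norm_num : (0 : ℝ) < 1)
  exact hx n (by simpa using hn.le)

lemma fn_radii (f : Lp ℂ 2 (volume : Measure fnV))
    (hw : ∫⁻ ξ, ‖((𝓕 f : Lp ℂ 2 (volume : Measure fnV)) : fnV → ℂ) ξ‖ₑ ^ 2 *
      ENNReal.ofReal (fn_w ξ) ≠ ⊤) :
    ∀ᵐ x : fnV, Tendsto (fun i : ℕ => ‖(f : fnV → ℂ) x - V11160.SPS.ballSum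
      ((𝓕 f : Lp ℂ 2 (volume : Measure fnV)) : fnV → ℂ) (4 ^ (2 ^ i)) x‖ₑ ^ 2) atTop (𝓝 0) := by
  set g : fnV → ℂ := ((𝓕 f : Lp ℂ 2 (volume : Measure fnV)) : fnV → ℂ) with hg
  have hm : Measurable g := (Lp.stronglyMeasurable _).measurable
  have s1 : ∀ i : ℕ, ∫⁻ x, ‖(f : fnV → ℂ) x - V11160.SPS.ballSum g (4 ^ (2 ^ i)) x‖ₑ ^ 2
      ≤ (2 : ℝ≥0∞)⁻¹ ^ i * ∫⁻ ξ, ‖g ξ‖ₑ ^ 2 * ENNReal.ofReal (fn_w ξ) := by
    intro i
    rw [fn_tail f, ← lintegral_const_mul' _ _ (by simp)]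
    refine (setLIntegral_mono' Metric.isClosed_closedBall.measurableSet.compl
      (g := fun ξ => (2 : ℝ≥0∞)⁻¹ ^ i * (‖g ξ‖ₑ ^ 2 * ENNReal.ofReal (fn_w ξ)))
      fun ξ hξ => ?_).trans (setLIntegral_le_lintegral _ _)
    have h1 : (4 : ℝ) ^ (2 ^ i) < ‖ξ‖ := by simpa using hξ
    have h2 := fn_w_lower i ξ h1
    have h3 : (1 : ℝ≥0∞) ≤ (2 : ℝ≥0∞)⁻¹ ^ i * ENNReal.ofReal (fn_w ξ) := by
      calc (1 : ℝ≥0∞) = (2 : ℝ≥0∞)⁻¹ ^ i * 2 ^ i := by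
            rw [← mul_pow, ENNReal.inv_mul_cancel (by norm_num) (by norm_num), one_pow]
        _ = (2 : ℝ≥0∞)⁻¹ ^ i * ENNReal.ofReal (2 ^ i) := by
            rw [ENNReal.ofReal_pow (by norm_num)]
            norm_num
        _ ≤ (2 : ℝ≥0∞)⁻¹ ^ i * ENNReal.ofReal (fn_w ξ) := by gcongr
    calc ‖g ξ‖ₑ ^ 2 = ‖g ξ‖ₑ ^ 2 * 1 := (mul_one _).symm
      _ ≤ ‖g ξ‖ₑ ^ 2 * ((2 : ℝ≥0∞)⁻¹ ^ i * ENNReal.ofReal (fn_w ξ)) := by gcongr
      _ = (2 : ℝ≥0∞)⁻¹ ^ i * (‖g ξ‖ₑ ^ 2 * ENNReal.ofReal (fn_w ξ)) := by ring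
  have hmi : ∀ i : ℕ, Measurable fun x =>
      ‖(f : fnV → ℂ) x - V11160.SPS.ballSum g (4 ^ (2 ^ i)) x‖ₑ ^ 2 := fun i =>
    ((((Lp.stronglyMeasurable f).measurable).sub (V11160.SPS.ballSum_meas hm _)).enorm).pow_const 2
  have s2 : ∫⁻ x, ∑' i : ℕ, ‖(f : fnV → ℂ) x - V11160.SPS.ballSum g (4 ^ (2 ^ i)) x‖ₑ ^ 2 ≠ ⊤ := by
    rw [lintegral_tsum fun i => (hmi i).aemeasurable]
    refine ne_top_of_le_ne_top ?_ (ENNReal.tsum_le_tsum s1)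
    rw [ENNReal.tsum_mul_right]
    refine ENNReal.mul_ne_top ?_ hw
    rw [ENNReal.tsum_geometric]
    norm_num
  filter_upwards [ae_lt_top (Measurable.tsum fun i => hmi i) s2] with x hx
  exact ENNReal.tendsto_atTop_zero_of_tsum_ne_top hx.ne

lemma fn_find (i₀ : ℕ) (R : ℝ) (hR : 4 ^ (2 ^ i₀) ≤ R) :
    ∃ i ≥ i₀, (4 : ℝ) ^ (2 ^ i) ≤ R ∧ R ≤ 4 ^ (2 ^ (i + 1)) := by
  have h1 : (1 : ℝ) ≤ 4 ^ (2 ^ i₀) := one_le_pow₀ (by norm_num)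
  obtain ⟨k, hk1, hk2⟩ := exists_nat_pow_near (h1.trans hR) (by norm_num : (1 : ℝ) < 4)
  have h2 : 2 ^ i₀ ≤ k := by
    by_contra hc
    push Not at hc
    have : (4 : ℝ) ^ (k + 1) ≤ 4 ^ (2 ^ i₀) := pow_le_pow_right₀ (by norm_num) hc
    linarith
  have hk0 : k ≠ 0 := by
    have : 0 < 2 ^ i₀ := by positivity
    omega
  refine ⟨Nat.log 2 k, Nat.le_log_of_pow_le (by norm_num) h2, ?_, ?_⟩
  · refine le_trans ?_ hk1
    exact pow_le_pow_right₀ (by norm_num) (Nat.pow_log_le_self 2 hk0)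
  · refine hk2.le.trans ?_
    exact pow_le_pow_right₀ (by norm_num) (Nat.lt_pow_succ_log_self (by norm_num) k)

/-- **(B)** -/
theorem fin_B (hBD : BD) (f : Lp ℂ 2 (volume : Measure fnV))
    (hw : ∫⁻ ξ, ‖((𝓕 f : Lp ℂ 2 (volume : Measure fnV)) : fnV → ℂ) ξ‖ₑ ^ 2 *
      ENNReal.ofReal (Real.log (2 + ‖ξ‖) * Real.log (2 + Real.log (2 + ‖ξ‖)) ^ 2) < ⊤) :
    ∀ᵐ x : fnV, Tendsto (fun R : ℝ => V11160.SPS.ballSum
      ((𝓕 f : Lp ℂ 2 (volume : Measure fnV)) : fnV → ℂ) R x) atTop (𝓝 ((f : fnV → ℂ) x)) := by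
  have hw' : ∫⁻ ξ, ‖((𝓕 f : Lp ℂ 2 (volume : Measure fnV)) : fnV → ℂ) ξ‖ₑ ^ 2 *
      ENNReal.ofReal (fn_w ξ) ≠ ⊤ := hw.ne
  have hm : Measurable ((𝓕 f : Lp ℂ 2 (volume : Measure fnV)) : fnV → ℂ) :=
    (Lp.stronglyMeasurable _).measurable
  filter_upwards [fn_super hBD hm (Lp.memLp _) hw', fn_radii f hw'] with x hx1 hx2
  obtain ⟨u, hu1, hu2⟩ := hx1
  set g : fnV → ℂ := ((𝓕 f : Lp ℂ 2 (volume : Measure fnV)) : fnV → ℂ) with hg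
  rw [Metric.tendsto_atTop]
  intro ε hε
  have hε2 : (0 : ℝ≥0∞) < ENNReal.ofReal ((ε / 2) ^ 2) := by
    rw [ENNReal.ofReal_pos]
    positivity
  have k1 : ∀ᶠ i in atTop, u i < ENNReal.ofReal ((ε / 2) ^ 2) := hu1.eventually_lt_const hε2
  have k2 := hx2.eventually_lt_const hε2
  obtain ⟨i₀, hi₀⟩ := eventually_atTop.1 (k1.and k2)
  refine ⟨4 ^ (2 ^ i₀), fun R hR => ?_⟩
  obtain ⟨i, hi, hi1, hi2⟩ := fn_find i₀ R hR
  obtain ⟨k3, k4⟩ := hi₀ i hi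
  have conv : ∀ c : ℂ, ‖c‖ₑ ^ 2 < ENNReal.ofReal ((ε / 2) ^ 2) → ‖c‖ < ε / 2 := by
    intro c hc
    rw [← ofReal_norm, ← ENNReal.ofReal_pow (norm_nonneg _),
      ENNReal.ofReal_lt_ofReal_iff (by positivity)] at hc
    exact lt_of_pow_lt_pow_left₀ 2 (by positivity) hc
  have k5 := conv _ ((hu2 i R hi1 hi2).trans_lt k3)
  have k6 := conv _ k4
  calc dist (V11160.SPS.ballSum g R x) ((f : fnV → ℂ) x)
      ≤ dist (V11160.SPS.ballSum g R x) (V11160.SPS.ballSum g (4 ^ (2 ^ i)) x)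
        + dist (V11160.SPS.ballSum g (4 ^ (2 ^ i)) x) ((f : fnV → ℂ) x) := dist_triangle _ _ _
    _ < ε / 2 + ε / 2 := by
        rw [dist_eq_norm, dist_comm, dist_eq_norm]
        exact add_lt_add k5 k6
    _ = ε := by ring

end

end Pool.Agent.Helper32.KS

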