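import Pool.Agent.Helper32.KS.Four

/-!
# The maximal estimate on one block from the dual block estimate (helper80)
-/

set_option autoImplicit false

open MeasureTheory Filter Topology
open scoped BigOperators Real ENNReal

namespace Pool.Agent.Helper32.KS

noncomputable section

/-! ### the sector where the cut-off is one -/

/-- the block `4^n < |ξ| ≤ 4^{n+1}` -/
def fn_B (n : ℕ) : Set (ℝ × ℝ) :=
  {ξ | ((4 : ℝ) ^ n) ^ 2 < ξ.1 ^ 2 + ξ.2 ^ 2 ∧ ξ.1 ^ 2 + ξ.2 ^ 2 ≤ ((4 : ℝ) ^ (n + 1)) ^ 2}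

/-- the sector `|ξ₂| ≤ ξ₁` -/
def fn_S0 : Set (ℝ × ℝ) := {ξ | |ξ.2| ≤ ξ.1}

lemma fn_B_meas (n : ℕ) : MeasurableSet (fn_B n) := by
  unfold fn_B
  have h : Measurable fun ξ : ℝ × ℝ => ξ.1 ^ 2 + ξ.2 ^ 2 := by fun_prop
  exact (measurableSet_lt measurable_const h).inter (measurableSet_le h measurable_const)

lemma fn_S0_meas : MeasurableSet fn_S0 := by
  unfold fn_S0
  exact measurableSet_le (by fun_prop) (by fun_prop)

lemma fn_four (n : ℕ) : ((2 : ℝ) ^ n) ^ 2 = 4 ^ n := by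
  rw [← pow_mul, mul_comm, pow_mul]
  norm_num

lemma fn_cut_one (n : ℕ) (ξ : ℝ × ℝ) (h1 : ξ ∈ fn_B n) (h2 : ξ ∈ fn_S0) :
    cut (2 ^ n) ξ = 1 := by
  unfold cut cutA cutB
  rw [fn_four]
  obtain ⟨h3, h4⟩ := h1
  have h5 : |ξ.2| ≤ ξ.1 := h2
  have hp : (0 : ℝ) < 4 ^ n := by positivity
  have hξ1 : 0 ≤ ξ.1 := (abs_nonneg _).trans h5
  have h6 : ξ.2 ^ 2 ≤ ξ.1 ^ 2 := by
    rw [← sq_abs ξ.2]
    exact pow_le_pow_left₀ (abs_nonneg _) h5 2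
  rw [pow_succ (4 : ℝ) n] at h4
  have a1 : (7 / 10) * 4 ^ n ≤ ξ.1 := by
    by_contra h
    push Not at h
    nlinarith
  have a2 : ξ.1 ≤ 4 * 4 ^ n := by
    by_contra h
    push Not at h
    nlinarith [sq_nonneg ξ.2]
  have a3 : |ξ.2| ≤ 3 * 4 ^ n := by
    by_contra h
    push Not at h
    have : ξ.2 ^ 2 > (3 * 4 ^ n) ^ 2 := by
      rw [← sq_abs ξ.2]
      exact pow_lt_pow_left₀ h (by positivity) (by norm_num)
    nlinarith
  obtain ⟨a4, a5⟩ := abs_le.1 a3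
  have b1 : 7 / 10 ≤ ξ.1 / 4 ^ n := by rw [le_div_iff₀ hp]; exact a1
  have b2 : ξ.1 / 4 ^ n ≤ 4 := by rw [div_le_iff₀ hp]; exact a2
  have b3 : -3 ≤ ξ.2 / 4 ^ n := by rw [le_div_iff₀ hp]; linarith
  have b4 : ξ.2 / 4 ^ n ≤ 3 := by rw [div_le_iff₀ hp]; exact a5
  rw [Real.smoothTransition.one_of_one_le (by linarith),
    Real.smoothTransition.one_of_one_le (by linarith),
    Real.smoothTransition.one_of_one_le (by linarith),
    Real.smoothTransition.one_of_one_le (by linarith)]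
  norm_num

lemma fn_cut_nonneg (D : ℝ) (ξ : ℝ × ℝ) : 0 ≤ cut D ξ := by
  unfold cut cutA cutB
  exact mul_nonneg (mul_nonneg (Real.smoothTransition.nonneg _) (Real.smoothTransition.nonneg _))
    (mul_nonneg (Real.smoothTransition.nonneg _) (Real.smoothTransition.nonneg _))

lemma fn_cut_le_one (D : ℝ) (ξ : ℝ × ℝ) : cut D ξ ≤ 1 := by
  unfold cut cutA cutB
  have h := Real.smoothTransition.le_one
  have h0 := Real.smoothTransition.nonneg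
  refine mul_le_one₀ (mul_le_one₀ (h _) (h0 _) (h _)) (mul_nonneg (h0 _) (h0 _))
    (mul_le_one₀ (h _) (h0 _) (h _))

lemma fn_cut_supp (n : ℕ) (ξ : ℝ × ℝ) (h : cut (2 ^ n) ξ ≠ 0) :
    |ξ.1| ≤ 5 * 4 ^ n ∧ |ξ.2| ≤ 5 * 4 ^ n := by
  unfold cut cutA cutB at h
  rw [fn_four] at h
  have hp : (0 : ℝ) < 4 ^ n := by positivity
  have h1 : Real.smoothTransition (5 * (ξ.1 / 4 ^ n) - 5 / 2) ≠ 0 := by
    intro h'; exact h (by rw [h']; ring)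
  have h2 : Real.smoothTransition (5 - ξ.1 / 4 ^ n) ≠ 0 := by
    intro h'; exact h (by rw [h']; ring)
  have h3 : Real.smoothTransition (4 - ξ.2 / 4 ^ n) ≠ 0 := by
    intro h'; exact h (by rw [h']; ring)
  have h4 : Real.smoothTransition (4 + ξ.2 / 4 ^ n) ≠ 0 := by
    intro h'; exact h (by rw [h']; ring)
  have key : ∀ x : ℝ, Real.smoothTransition x ≠ 0 → 0 < x := by
    intro x hx
    by_contra hx'
    exact hx (Real.smoothTransition.zero_of_nonpos (not_lt.1 hx'))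
  have k1 := key _ h1
  have k2 := key _ h2
  have k3 := key _ h3
  have k4 := key _ h4
  have e1 : 0 < ξ.1 / 4 ^ n := by linarith
  have e2 : ξ.1 / 4 ^ n < 5 := by linarith
  have e3 : ξ.2 / 4 ^ n < 4 := by linarith
  have e4 : -4 < ξ.2 / 4 ^ n := by linarith
  rw [lt_div_iff₀ hp] at e1 e4
  rw [div_lt_iff₀ hp] at e2 e3
  constructor
  · rw [abs_le]; constructor <;> nlinarith
  · rw [abs_le]; constructor <;> nlinarith

lemma fn_cut_meas (D : ℝ) : Measurable (cut D) := by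
  unfold cut cutA cutB
  have h : Measurable Real.smoothTransition := Real.smoothTransition.continuous.measurable
  refine Measurable.mul (Measurable.mul ?_ ?_) (Measurable.mul ?_ ?_) <;>
  exact h.comp (by fun_prop)

/-! ### the dual function -/

/-- `J(ξ) = ∫ 1_{pp ξ < ρ(y)} g(y) e(-y·ξ) dy` -/
def fn_J (n : ℕ) (g : ℝ × ℝ → ℂ) (ρ : ℝ × ℝ → ℕ) (ξ : ℝ × ℝ) : ℂ :=
  fwd ({y | pp (2 ^ n) ξ < ρ y}.indicator g) ξ

lemma fn_pp_meas (D : ℝ) : Measurable (pp D) := by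
  unfold pp
  fun_prop

lemma fn_joint (n : ℕ) {ρ : ℝ × ℝ → ℕ} (hρ : Measurable ρ) :
    MeasurableSet {p : (ℝ × ℝ) × (ℝ × ℝ) | pp (2 ^ n) p.1 < ρ p.2} := by
  refine measurableSet_lt ((fn_pp_meas _).comp measurable_fst) ?_
  exact (measurable_from_top (f := fun k : ℕ => (k : ℝ))).comp (hρ.comp measurable_snd)

lemma fn_J_meas (n : ℕ) {g : ℝ × ℝ → ℂ} (hg : Measurable g) {ρ : ℝ × ℝ → ℕ} (hρ : Measurable ρ) :
    Measurable (fn_J n g ρ) := by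
  have h0 : StronglyMeasurable (fun p : (ℝ × ℝ) × (ℝ × ℝ) =>
      ({p : (ℝ × ℝ) × (ℝ × ℝ) | pp (2 ^ n) p.1 < ρ p.2}.indicator
        (fun p => g p.2) p) * e (-(p.2.1 * p.1.1 + p.2.2 * p.1.2))) := by
    apply Measurable.stronglyMeasurable
    refine Measurable.mul (Measurable.indicator (hg.comp measurable_snd) (fn_joint n hρ)) ?_
    fun_prop
  exact (h0.integral_prod_right' (ν := (volume : Measure (ℝ × ℝ)))).measurable

lemma fn_J_bdd (n : ℕ) {g : ℝ × ℝ → ℂ} (hg : BCS g) (ρ : ℝ × ℝ → ℕ) (ξ : ℝ × ℝ) :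
    ‖fn_J n g ρ ξ‖ ≤ ∫ x, ‖g x‖ := by
  unfold fn_J
  refine (fwd_norm_le _ _).trans ?_
  refine integral_mono_of_nonneg (Eventually.of_forall fun x => norm_nonneg _)
    hg.integrable.norm (Eventually.of_forall fun x => ?_)
  exact norm_indicator_le_norm_self _ _

lemma fn_Hb_BCS (n : ℕ) {g : ℝ × ℝ → ℂ} (hg : BCS g) {ρ : ℝ × ℝ → ℕ} (hρ : Measurable ρ) :
    BCS (Hb n g ρ) := by
  refine ⟨?_, ⟨∫ x, ‖g x‖, fun x => ?_⟩, ⟨5 * 4 ^ n, fun x hx => ?_⟩⟩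
  · exact (Complex.measurable_ofReal.comp (fn_cut_meas _)).mul (fn_J_meas n hg.meas hρ)
  · unfold Hb
    rw [norm_mul, Complex.norm_real, Real.norm_of_nonneg (fn_cut_nonneg _ _)]
    have h1 := fn_J_bdd n hg ρ x
    have h2 := fn_cut_le_one (2 ^ n) x
    have h3 := fn_cut_nonneg (2 ^ n) x
    calc cut (2 ^ n) x * ‖fwd ({y | pp (2 ^ n) x < ρ y}.indicator g) x‖
        ≤ 1 * ∫ x, ‖g x‖ := mul_le_mul h2 h1 (norm_nonneg _) (by norm_num)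
      _ = _ := one_mul _
  · apply fn_cut_supp n x
    intro h
    apply hx
    unfold Hb
    rw [h]
    simp

lemma fn_lint {f : ℝ × ℝ → ℂ} (hf : BCS f) :
    ∫⁻ x, ‖f x‖ₑ ^ 2 = ENNReal.ofReal (∫ x, ‖f x‖ ^ 2) := by
  rw [ofReal_integral_eq_lintegral_ofReal hf.sq_integrable
    (Eventually.of_forall fun x => by positivity)]
  congr 1
  funext x
  rw [ENNReal.ofReal_pow (norm_nonneg _), ofReal_norm]

/-- the estimate provided by `BD`, with its constant -/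
def fn_BDc (C : ℝ) : Prop :=
  ∀ n : ℕ, ∀ g : ℝ × ℝ → ℂ, BCS g → (∀ x, g x ≠ 0 → x ∈ Sq 1) →
    ∀ ϱ : ℝ × ℝ → ℕ, Measurable ϱ → (∀ y, ϱ y ≤ 16 * 4 ^ n) →
    ∫ ξ, ‖Hb n g ϱ ξ‖ ^ 2 ≤ C * (n + 1) * lg n ^ 2 * ∫ x, ‖g x‖ ^ 2

lemma fn_lg_pos (n : ℕ) : 0 < lg n := by
  unfold lg
  apply Real.log_pos
  have : (0 : ℝ) ≤ n := by positivity
  linarith

lemma fn_sector {C : ℝ} (hC0 : 0 < C) (hC : fn_BDc C) (n : ℕ) {g : ℝ × ℝ → ℂ} (hg : BCS g)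
    (hs : ∀ x, g x ≠ 0 → x ∈ Sq 1) {ρ : ℝ × ℝ → ℕ} (hρ : Measurable ρ)
    (hρb : ∀ y, ρ y ≤ 16 * 4 ^ n) :
    ∫⁻ ξ in fn_B n ∩ fn_S0, ‖fn_J n g ρ ξ‖ₑ ^ 2
      ≤ ENNReal.ofReal (C * (n + 1) * lg n ^ 2) * ∫⁻ x, ‖g x‖ₑ ^ 2 := by
  have h1 : ∫⁻ ξ in fn_B n ∩ fn_S0, ‖fn_J n g ρ ξ‖ₑ ^ 2
      = ∫⁻ ξ in fn_B n ∩ fn_S0, ‖Hb n g ρ ξ‖ₑ ^ 2 := by
    refine setLIntegral_congr_fun ((fn_B_meas n).inter fn_S0_meas) fun ξ hξ => ?_
    simp only [Hb]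
    rw [fn_cut_one n ξ hξ.1 hξ.2, Complex.ofReal_one, one_mul]
    rfl
  rw [h1]
  calc ∫⁻ ξ in fn_B n ∩ fn_S0, ‖Hb n g ρ ξ‖ₑ ^ 2 ≤ ∫⁻ ξ, ‖Hb n g ρ ξ‖ₑ ^ 2 :=
        setLIntegral_le_lintegral _ _
    _ = ENNReal.ofReal (∫ ξ, ‖Hb n g ρ ξ‖ ^ 2) := fn_lint (fn_Hb_BCS n hg hρ)
    _ ≤ ENNReal.ofReal (C * (n + 1) * lg n ^ 2 * ∫ x, ‖g x‖ ^ 2) :=
        ENNReal.ofReal_le_ofReal (hC n g hg hs ρ hρ hρb)
    _ = _ := by
        rw [ENNReal.ofReal_mul (by positivity), fn_lint hg]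

/-! ### the symmetries -/

/-- symmetric isometric involutions of the plane -/
structure fn_Sym (T : ℝ × ℝ → ℝ × ℝ) : Prop where
  mp : MeasurePreserving T volume volume
  invo : ∀ y, T (T y) = y
  adj : ∀ y ξ, y.1 * (T ξ).1 + y.2 * (T ξ).2 = (T y).1 * ξ.1 + (T y).2 * ξ.2
  sq1 : ∀ y, y ∈ Sq 1 → T y ∈ Sq 1

lemma fn_Sym.nrm {T : ℝ × ℝ → ℝ × ℝ} (hT : fn_Sym T) (ξ : ℝ × ℝ) :
    (T ξ).1 ^ 2 + (T ξ).2 ^ 2 = ξ.1 ^ 2 + ξ.2 ^ 2 := by
  have := hT.adj (T ξ) ξ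
  rw [hT.invo] at this
  nlinarith

lemma fn_Sym_id : fn_Sym (fun x => x) :=
  ⟨MeasurePreserving.id _, fun _ => rfl, fun _ _ => rfl, fun _ h => h⟩

lemma fn_Sym_neg : fn_Sym (fun x => -x) := by
  refine ⟨Measure.measurePreserving_neg _, fun y => neg_neg y, fun y ξ => ?_, fun y h => ?_⟩
  · simp
  · simpa [Sq] using h

lemma fn_Sym_swap : fn_Sym (fun x => (x.2, x.1)) := by
  refine ⟨?_, fun y => rfl, fun y ξ => ?_, fun y h => ?_⟩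
  · exact Measure.measurePreserving_swap
  · simp only
    ring
  · exact ⟨h.2, h.1⟩

lemma fn_Sym_nswap : fn_Sym (fun x => (-x.2, -x.1)) := by
  refine ⟨?_, fun y => ?_, fun y ξ => ?_, fun y h => ?_⟩
  · exact fn_Sym_neg.mp.comp fn_Sym_swap.mp
  · simp
  · simp only
    ring
  · have : |y.1| ≤ 1 ∧ |y.2| ≤ 1 := h
    exact ⟨by simpa using this.2, by simpa using this.1⟩

/-- the equivalence -/
def fn_Sym.equiv {T : ℝ × ℝ → ℝ × ℝ} (hT : fn_Sym T) : (ℝ × ℝ) ≃ᵐ (ℝ × ℝ) :=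
  MeasurableEquiv.ofInvolutive T hT.invo hT.mp.measurable

lemma fn_Sym.J {T : ℝ × ℝ → ℝ × ℝ} (hT : fn_Sym T) (n : ℕ) (g : ℝ × ℝ → ℂ) (ρ : ℝ × ℝ → ℕ)
    (ξ : ℝ × ℝ) : fn_J n g ρ (T ξ) = fn_J n (fun y => g (T y)) (fun y => ρ (T y)) ξ := by
  unfold fn_J fwd
  rw [← hT.mp.integral_comp hT.equiv.measurableEmbedding]
  congr 1
  funext y
  have h1 : pp (2 ^ n) (T ξ) = pp (2 ^ n) ξ := by
    unfold pp
    rw [hT.nrm]
  rw [h1, hT.adj, hT.invo]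
  congr 1

lemma fn_Sym.BCS {T : ℝ × ℝ → ℝ × ℝ} (hT : fn_Sym T) {g : ℝ × ℝ → ℂ} (hg : BCS g)
    (hs : ∀ x, g x ≠ 0 → x ∈ Sq 1) :
    KS.BCS (fun y => g (T y)) ∧ ∀ x, g (T x) ≠ 0 → x ∈ Sq 1 := by
  have h : ∀ x, g (T x) ≠ 0 → x ∈ Sq 1 := by
    intro x hx
    have := hT.sq1 _ (hs _ hx)
    rwa [hT.invo] at this
  obtain ⟨C, hC⟩ := hg.bdd
  exact ⟨⟨hg.meas.comp hT.mp.measurable, ⟨C, fun x => hC _⟩, ⟨1, h⟩⟩, h⟩

lemma fn_Sym.sector {T : ℝ × ℝ → ℝ × ℝ} (hT : fn_Sym T) {C : ℝ} (hC0 : 0 < C) (hC : fn_BDc C)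
    (n : ℕ) {g : ℝ × ℝ → ℂ} (hg : KS.BCS g)
    (hs : ∀ x, g x ≠ 0 → x ∈ Sq 1) {ρ : ℝ × ℝ → ℕ} (hρ : Measurable ρ)
    (hρb : ∀ y, ρ y ≤ 16 * 4 ^ n) :
    ∫⁻ ξ in fn_B n ∩ T ⁻¹' fn_S0, ‖fn_J n g ρ ξ‖ₑ ^ 2
      ≤ ENNReal.ofReal (C * (n + 1) * lg n ^ 2) * ∫⁻ x, ‖g x‖ₑ ^ 2 := by
  obtain ⟨h1, h2⟩ := hT.BCS hg hs
  have h3 := fn_sector hC0 hC n h1 h2 (hρ.comp hT.mp.measurable) (fun y => hρb (T y))
  have h4 : ∫⁻ x, ‖g (T x)‖ₑ ^ 2 = ∫⁻ x, ‖g x‖ₑ ^ 2 :=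
    hT.mp.lintegral_comp_emb hT.equiv.measurableEmbedding (fun x => ‖g x‖ₑ ^ 2)
  rw [h4] at h3
  refine le_trans (le_of_eq ?_) h3
  have h5 : fn_B n ∩ T ⁻¹' fn_S0 = T ⁻¹' (fn_B n ∩ fn_S0) := by
    ext ξ
    simp only [fn_B, Set.mem_inter_iff, Set.mem_preimage, Set.mem_ofPred_eq, hT.nrm]
  have h6 := hT.mp.setLIntegral_comp_preimage_emb hT.equiv.measurableEmbedding
    (fun ξ => ‖fn_J n g ρ (T ξ)‖ₑ ^ 2) (fn_B n ∩ fn_S0)
  simp only [hT.invo] at h6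
  rw [h5, h6]
  simp only [hT.J]
  rfl

lemma fn_cover (n : ℕ) : fn_B n ⊆ (fn_B n ∩ (fun x : ℝ × ℝ => x) ⁻¹' fn_S0 ∪
    fn_B n ∩ (fun x : ℝ × ℝ => -x) ⁻¹' fn_S0) ∪
    (fn_B n ∩ (fun x : ℝ × ℝ => (x.2, x.1)) ⁻¹' fn_S0 ∪
    fn_B n ∩ (fun x : ℝ × ℝ => (-x.2, -x.1)) ⁻¹' fn_S0) := by
  intro ξ hξ
  simp only [Set.mem_union, Set.mem_inter_iff, Set.mem_preimage, fn_S0, Set.mem_ofPred_eq, hξ,
    true_and, Prod.fst_neg, Prod.snd_neg, abs_neg]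
  rcases le_total |ξ.2| |ξ.1| with h | h
  · left
    rcases le_total 0 ξ.1 with h' | h'
    · left; rwa [abs_of_nonneg h'] at h
    · right; rwa [abs_of_nonpos h'] at h
  · right
    rcases le_total 0 ξ.2 with h' | h'
    · left; rwa [abs_of_nonneg h'] at h
    · right; rwa [abs_of_nonpos h'] at h

/-- the dual estimate on the full block -/
lemma fn_F1 {C : ℝ} (hC0 : 0 < C) (hC : fn_BDc C)
    (n : ℕ) {g : ℝ × ℝ → ℂ} (hg : BCS g)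
    (hs : ∀ x, g x ≠ 0 → x ∈ Sq 1) {ρ : ℝ × ℝ → ℕ} (hρ : Measurable ρ)
    (hρb : ∀ y, ρ y ≤ 16 * 4 ^ n) :
    ∫⁻ ξ in fn_B n, ‖fn_J n g ρ ξ‖ₑ ^ 2
      ≤ (4 * ENNReal.ofReal (C * (n + 1) * lg n ^ 2)) * ∫⁻ x, ‖g x‖ₑ ^ 2 := by
  have h1 := fn_Sym_id.sector hC0 hC n hg hs hρ hρb
  have h2 := fn_Sym_neg.sector hC0 hC n hg hs hρ hρb
  have h3 := fn_Sym_swap.sector hC0 hC n hg hs hρ hρb
  have h4 := fn_Sym_nswap.sector hC0 hC n hg hs hρ hρb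
  refine (lintegral_mono_set (fn_cover n)).trans ?_
  refine (lintegral_union_le _ _ _).trans ?_
  refine (add_le_add (lintegral_union_le _ _ _) (lintegral_union_le _ _ _)).trans ?_
  refine (add_le_add (add_le_add h1 h2) (add_le_add h3 h4)).trans (le_of_eq ?_)
  ring

/-! ### duality -/

/-- `A_k(x) = ∫_{pp ξ < k} h(ξ) e(x·ξ) dξ` -/
def fn_A (n : ℕ) (h : ℝ × ℝ → ℂ) (k : ℕ) (x : ℝ × ℝ) : ℂ :=
  inv ({ξ | pp (2 ^ n) ξ < k}.indicator h) x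

lemma fn_argmax (K : ℕ) (A : ℕ → ℝ × ℝ → ℂ) (hA : ∀ k, Measurable (A k)) :
    ∃ r : ℝ × ℝ → ℕ, Measurable r ∧ (∀ x, r x ≤ K) ∧ ∀ x, ∀ k ≤ K, ‖A k x‖ ≤ ‖A (r x) x‖ := by
  classical
  set p : ℝ × ℝ → ℕ → Prop := fun x k => k ≤ K ∧ ∀ j ≤ K, ‖A j x‖ ≤ ‖A k x‖ with hp
  have h1 : ∀ x, ∃ k, p x k := by
    intro x
    obtain ⟨k, hk, hk'⟩ := Finset.exists_max_image (Finset.range (K + 1)) (fun k => ‖A k x‖)
      ⟨0, by simp⟩
    refine ⟨k, by simpa [Nat.lt_succ_iff] using hk, fun j hj => hk' j (by simpa [Nat.lt_succ_iff] using hj)⟩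
  have h2 : ∀ k, MeasurableSet {x | p x k} := by
    intro k
    have : {x | p x k} = {x | k ≤ K} ∩ ⋂ j ∈ Set.Iic K, {x | ‖A j x‖ ≤ ‖A k x‖} := by
      ext x
      simp [hp]
    rw [this]
    refine (MeasurableSet.const _).inter (MeasurableSet.biInter (Set.to_countable _) fun j _ => ?_)
    exact measurableSet_le (hA j).norm (hA k).norm
  refine ⟨fun x => Nat.find (h1 x), measurable_find h1 h2, fun x => (Nat.find_spec (h1 x)).1,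
    fun x k hk => (Nat.find_spec (h1 x)).2 k hk⟩

lemma fn_comp_meas (A : ℕ → ℝ × ℝ → ℂ) (hA : ∀ k, Measurable (A k)) {r : ℝ × ℝ → ℕ}
    (hr : Measurable r) : Measurable (fun x => A (r x) x) := by
  have k1 : Measurable (fun p : (ℝ × ℝ) × ℕ => A p.2 p.1) :=
    measurable_from_prod_countable_left fun k => hA k
  have k2 : Measurable (fun x : ℝ × ℝ => (x, r x)) := measurable_id'.prodMk hr
  exact k1.comp k2

lemma fn_enn {a b K : ℝ≥0∞} (ha : a ≠ ⊤)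
    (h : a ≤ b ^ (1 / 2 : ℝ) * (K * a) ^ (1 / 2 : ℝ)) : a ≤ K * b := by
  by_cases h0 : a = 0
  · simp [h0]
  have h2 : a * a ≤ (K * b) * a := by
    calc a * a ≤ (b ^ (1 / 2 : ℝ) * (K * a) ^ (1 / 2 : ℝ)) *
          (b ^ (1 / 2 : ℝ) * (K * a) ^ (1 / 2 : ℝ)) := mul_le_mul' h h
      _ = (b ^ (1 / 2 : ℝ) * b ^ (1 / 2 : ℝ)) *
          ((K * a) ^ (1 / 2 : ℝ) * (K * a) ^ (1 / 2 : ℝ)) := by ring
      _ = b * (K * a) := by
          rw [← ENNReal.rpow_add_of_nonneg _ _ (by norm_num) (by norm_num),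
            ← ENNReal.rpow_add_of_nonneg _ _ (by norm_num) (by norm_num)]
          norm_num
      _ = (K * b) * a := by ring
  exact (ENNReal.mul_le_mul_iff_left h0 ha).1 h2

lemma fn_F2 {C : ℝ} (hC0 : 0 < C) (hC : fn_BDc C) (n : ℕ) {h : ℝ × ℝ → ℂ} (hm : Measurable h)
    (h2 : MemLp h 2) (hs : ∀ ξ, h ξ ≠ 0 → ξ ∈ fn_B n) :
    ∃ r : ℝ × ℝ → ℕ, Measurable (fun x => fn_A n h (r x) x) ∧
      (∀ x, ∀ k ≤ 16 * 4 ^ n, ‖fn_A n h k x‖ ≤ ‖fn_A n h (r x) x‖) ∧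
      ∫⁻ x in Sq 1, ‖fn_A n h (r x) x‖ₑ ^ 2
        ≤ (4 * ENNReal.ofReal (C * (n + 1) * lg n ^ 2)) * ∫⁻ ξ, ‖h ξ‖ₑ ^ 2 := by
  classical
  -- `h` is integrable
  have hsub : fn_B n ⊆ Sq (4 ^ (n + 1)) := by
    intro ξ hξ
    have h4 : (0 : ℝ) ≤ 4 ^ (n + 1) := by positivity
    refine ⟨abs_le_of_sq_le_sq ?_ h4, abs_le_of_sq_le_sq ?_ h4⟩
    · nlinarith [hξ.2, sq_nonneg ξ.2]
    · nlinarith [hξ.2, sq_nonneg ξ.1]
  have hint : Integrable h := by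
    have e1 : IntegrableOn h (Sq (4 ^ (n + 1))) := by
      have : IsFiniteMeasure (volume.restrict (Sq (4 ^ (n + 1)))) :=
        ⟨by rw [Measure.restrict_apply_univ]; exact Sq_finite _⟩
      exact (h2.restrict _).integrable (by norm_num)
    have e2 : h = (Sq (4 ^ (n + 1))).indicator h := by
      funext ξ
      by_cases hx : ξ ∈ Sq (4 ^ (n + 1))
      · rw [Set.indicator_of_mem hx]
      · rw [Set.indicator_of_notMem hx]
        by_contra h'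
        exact hx (hsub (hs ξ h'))
    rw [e2]
    exact e1.integrable_indicator (Sq_meas _)
  have hint' : ∀ s : Set (ℝ × ℝ), MeasurableSet s → Integrable (s.indicator h) :=
    fun s hs => hint.indicator hs
  have hset : ∀ k : ℕ, MeasurableSet {ξ : ℝ × ℝ | pp (2 ^ n) ξ < k} :=
    fun k => measurableSet_lt (fn_pp_meas _) measurable_const
  have hAc : ∀ k, Measurable (fn_A n h k) := fun k =>
    (inv_cont (hint' _ (hset k))).measurable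
  have hAb : ∀ k x, ‖fn_A n h k x‖ ≤ ∫ ξ, ‖h ξ‖ := by
    intro k x
    refine (inv_norm_le _ _).trans ?_
    refine integral_mono_of_nonneg (Eventually.of_forall fun x => norm_nonneg _)
      hint.norm (Eventually.of_forall fun x => ?_)
    exact norm_indicator_le_norm_self _ _
  obtain ⟨r, hr, hrK, hrmax⟩ := fn_argmax (16 * 4 ^ n) (fn_A n h) hAc
  have hAr : Measurable (fun x => fn_A n h (r x) x) := by
    exact fn_comp_meas (fn_A n h) hAc hr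
  refine ⟨r, hAr, hrmax, ?_⟩
  set g : ℝ × ℝ → ℂ := (Sq 1).indicator (fun x => fn_A n h (r x) x) with hg
  have hgB : BCS g := by
    refine ⟨hAr.indicator (Sq_meas 1), ⟨∫ ξ, ‖h ξ‖, fun x => ?_⟩, ⟨1, fun x hx => ?_⟩⟩
    · exact (norm_indicator_le_norm_self _ _).trans (hAb _ _)
    · by_contra h'
      have h'' : x ∉ Sq 1 := h'
      exact hx (Set.indicator_of_notMem h'' _)
  have hgs : ∀ x, g x ≠ 0 → x ∈ Sq 1 := by
    intro x hx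
    by_contra h'
    exact hx (Set.indicator_of_notMem h' _)
  have hF1 := fn_F1 hC0 hC n hgB hgs hr hrK
  have e1 : ∫⁻ x in Sq 1, ‖fn_A n h (r x) x‖ₑ ^ 2 = ∫⁻ x, ‖g x‖ₑ ^ 2 := by
    rw [← lintegral_indicator (Sq_meas 1)]
    congr 1
    funext x
    by_cases hx : x ∈ Sq 1
    · rw [hg, Set.indicator_of_mem hx, Set.indicator_of_mem hx]
    · rw [hg, Set.indicator_of_notMem hx, Set.indicator_of_notMem hx]
      simp
  rw [e1]
  -- Fubini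
  have key : ((∫ x, ‖g x‖ ^ 2 : ℝ) : ℂ) = ∫ ξ, h ξ * starRingEnd ℂ (fn_J n g r ξ) := by
    set F : ℝ × ℝ → ℝ × ℝ → ℂ := fun x ξ =>
      ({p : (ℝ × ℝ) × (ℝ × ℝ) | pp (2 ^ n) p.2 < r p.1}.indicator
        (fun p => starRingEnd ℂ (g p.1) * h p.2) (x, ξ)) * e (x.1 * ξ.1 + x.2 * ξ.2) with hF
    have hmset : MeasurableSet {p : (ℝ × ℝ) × (ℝ × ℝ) | pp (2 ^ n) p.2 < r p.1} := by
      refine measurableSet_lt ((fn_pp_meas _).comp measurable_snd) ?_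
      exact (measurable_from_top (f := fun k : ℕ => (k : ℝ))).comp (hr.comp measurable_fst)
    have hFi : Integrable (Function.uncurry F) (volume.prod volume) := by
      have a1 : Integrable (fun p : (ℝ × ℝ) × (ℝ × ℝ) => starRingEnd ℂ (g p.1) * h p.2)
          (volume.prod volume) := hgB.conj.integrable.mul_prod hint
      have a2 := a1.indicator hmset
      refine a2.norm.mono' ?_ (Eventually.of_forall fun p => ?_)
      · exact a2.aestronglyMeasurable.mul (e_meas' (by fun_prop)).aestronglyMeasurable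
      · simp only [Function.uncurry, hF]
        rw [norm_mul, e_norm, mul_one]
    have s1 : ((∫ x, ‖g x‖ ^ 2 : ℝ) : ℂ) = ∫ x, ∫ ξ, F x ξ := by
      rw [← integral_complex_ofReal]
      congr 1
      funext x
      by_cases hx : x ∈ Sq 1
      · have b1 : g x = inv ({ξ | pp (2 ^ n) ξ < r x}.indicator h) x := by
          rw [hg, Set.indicator_of_mem hx]
          rfl
        have b2 : ((‖g x‖ ^ 2 : ℝ) : ℂ) = starRingEnd ℂ (g x) * g x := by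
          rw [mul_comm, Complex.mul_conj, Complex.normSq_eq_norm_sq]
        have b3 : starRingEnd ℂ (g x) * g x
            = ∫ ξ, starRingEnd ℂ (g x) * ({ξ | pp (2 ^ n) ξ < r x}.indicator h ξ
                * e (x.1 * ξ.1 + x.2 * ξ.2)) := by
          rw [integral_const_mul]
          congr 1
        rw [b2, b3]
        congr 1
        funext ξ
        simp only [hF, Set.indicator_apply, Set.mem_ofPred_eq]
        split_ifs <;> ring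
      · have b1 : g x = 0 := by
          rw [hg, Set.indicator_of_notMem hx]
        simp [hF, b1, Set.indicator_apply]
    have s2 : ∫ ξ, h ξ * starRingEnd ℂ (fn_J n g r ξ) = ∫ ξ, ∫ x, F x ξ := by
      congr 1
      funext ξ
      unfold fn_J
      rw [fwd_conj]
      unfold inv
      rw [← integral_const_mul]
      congr 1
      funext x
      simp only [hF, Set.indicator_apply, Set.mem_ofPred_eq]
      split_ifs
      · rw [show ξ.1 * x.1 + ξ.2 * x.2 = x.1 * ξ.1 + x.2 * ξ.2 by ring]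
        ring
      · simp
    rw [s1, s2]
    exact integral_integral_swap hFi
  have hL : ∫⁻ x, ‖g x‖ₑ ^ 2 = ENNReal.ofReal (∫ x, ‖g x‖ ^ 2) := fn_lint hgB
  have hLt : ∫⁻ x, ‖g x‖ₑ ^ 2 ≠ ⊤ := by rw [hL]; exact ENNReal.ofReal_ne_top
  apply fn_enn hLt
  have c1 : ∫⁻ x, ‖g x‖ₑ ^ 2 ≤ ∫⁻ ξ, ‖h ξ‖ₑ * ((fn_B n).indicator (fun ξ => ‖fn_J n g r ξ‖ₑ) ξ) := by
    rw [hL]
    have : ENNReal.ofReal (∫ x, ‖g x‖ ^ 2) = ‖((∫ x, ‖g x‖ ^ 2 : ℝ) : ℂ)‖ₑ := by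
      rw [← ofReal_norm, Complex.norm_real, Real.norm_of_nonneg
        (integral_nonneg fun x => by positivity)]
    rw [this, key]
    refine (enorm_integral_le_lintegral_enorm _).trans (lintegral_mono fun ξ => ?_)
    simp only
    rw [enorm_mul]
    by_cases hξ : ξ ∈ fn_B n
    · rw [Set.indicator_of_mem hξ]
      gcongr
      rw [← ofReal_norm, ← ofReal_norm, RCLike.norm_conj]
    · have : h ξ = 0 := by
        by_contra h'
        exact hξ (hs ξ h')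
      simp [this]
  refine c1.trans ?_
  have c2 := ENNReal.lintegral_mul_le_Lp_mul_Lq (volume : Measure (ℝ × ℝ))
    (Real.HolderConjugate.two_two) (f := fun ξ => ‖h ξ‖ₑ)
    (g := (fn_B n).indicator (fun ξ => ‖fn_J n g r ξ‖ₑ)) hm.enorm.aemeasurable
    (((fn_J_meas n hgB.meas hr).enorm.indicator (fn_B_meas n)).aemeasurable)
  refine c2.trans ?_
  have c3 : ∫⁻ ξ, ‖h ξ‖ₑ ^ (2 : ℝ) = ∫⁻ ξ, ‖h ξ‖ₑ ^ 2 := by
    congr 1
    funext ξ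
    exact ENNReal.rpow_natCast _ 2
  have c4 : ∫⁻ ξ, ((fn_B n).indicator (fun ξ => ‖fn_J n g r ξ‖ₑ) ξ) ^ (2 : ℝ)
      = ∫⁻ ξ in fn_B n, ‖fn_J n g r ξ‖ₑ ^ 2 := by
    rw [← lintegral_indicator (fn_B_meas n)]
    congr 1
    funext ξ
    by_cases hξ : ξ ∈ fn_B n
    · rw [Set.indicator_of_mem hξ, Set.indicator_of_mem hξ]
      exact ENNReal.rpow_natCast _ 2
    · rw [Set.indicator_of_notMem hξ, Set.indicator_of_notMem hξ]
      simp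
  rw [c3, c4]
  gcongr

end

end Pool.Agent.Helper32.KS
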