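import Pool.Agent.Helper32.KS.FinA
import Pool.Graph.R_pool_sql_team_seeded_843ab51a.V11160.SPS.N

/-!
# Local maximal estimate for ball partial sums up to `4^m` (helper80)
-/

set_option autoImplicit false

open MeasureTheory Filter Topology FourierTransform
open scoped BigOperators Real ENNReal RealInnerProductSpace NNReal

namespace Pool.Agent.Helper32.KS

noncomputable section

/-- the Euclidean plane -/
abbrev fnV := EuclideanSpace ℝ (Fin 2)

/-- the identification of `ℝ × ℝ` with the Euclidean plane -/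
def fn_V : (ℝ × ℝ) ≃ᵐ fnV :=
  MeasurableEquiv.finTwoArrow.symm.trans (MeasurableEquiv.toLp 2 (Fin 2 → ℝ))

lemma fn_V_mp : MeasurePreserving fn_V volume volume := by
  have h1 : MeasurePreserving (MeasurableEquiv.finTwoArrow (α := ℝ)).symm volume volume :=
    (volume_preserving_finTwoArrow ℝ).symm
  have h2 : MeasurePreserving (MeasurableEquiv.toLp 2 (Fin 2 → ℝ)) volume volume :=
    (EuclideanSpace.volume_preserving_symm_measurableEquiv_toLp (Fin 2)).symm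
  exact h2.comp h1

lemma fn_V_zero (x : ℝ × ℝ) : fn_V x 0 = x.1 := rfl
lemma fn_V_one (x : ℝ × ℝ) : fn_V x 1 = x.2 := rfl

lemma fn_V_inner (x ξ : ℝ × ℝ) : ⟪fn_V x, fn_V ξ⟫ = x.1 * ξ.1 + x.2 * ξ.2 := by
  simp [PiLp.inner_apply, Fin.sum_univ_two, fn_V_zero, fn_V_one]
  ring

lemma fn_V_norm (x : ℝ × ℝ) : ‖fn_V x‖ ^ 2 = x.1 ^ 2 + x.2 ^ 2 := by
  rw [← real_inner_self_eq_norm_sq, fn_V_inner]
  ring

lemma fn_V_ball (x : ℝ × ℝ) (h : fn_V x ∈ Metric.closedBall (0 : fnV) 1) : x ∈ Sq 1 := by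
  have h1 : ‖fn_V x‖ ≤ 1 := by simpa using h
  have h2 := fn_V_norm x
  have h3 : ‖fn_V x‖ ^ 2 ≤ 1 := by
    have := norm_nonneg (fn_V x)
    nlinarith
  refine ⟨abs_le_of_sq_le_sq ?_ (by norm_num), abs_le_of_sq_le_sq ?_ (by norm_num)⟩
  · nlinarith [sq_nonneg x.2]
  · nlinarith [sq_nonneg x.1]

/-! ### the discrete radii -/

/-- `√(2·4^n·k)` -/
def fn_rad (n k : ℕ) : ℝ := √(2 * 4 ^ n * k)

lemma fn_rad_lt (n k : ℕ) (ξ : ℝ × ℝ) : ‖fn_V ξ‖ < fn_rad n k ↔ pp (2 ^ n) ξ < k := by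
  unfold fn_rad pp
  rw [Real.lt_sqrt (norm_nonneg _), fn_V_norm, fn_four, div_lt_iff₀ (by positivity)]
  constructor <;> intro h <;> linarith

lemma fn_bridge (n k : ℕ) (h : fnV → ℂ) (x : ℝ × ℝ) :
    V11160.SPS.ballSum h (fn_rad n k) (fn_V x) = fn_A n (fun p => h (fn_V p)) k x := by
  unfold V11160.SPS.ballSum fn_A inv
  have h1 : (Metric.closedBall (0 : fnV) (fn_rad n k)) =ᵐ[volume]
      (Metric.ball (0 : fnV) (fn_rad n k) : Set fnV) := by
    rw [← Metric.ball_union_sphere]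
    exact union_ae_eq_left_of_ae_eq_empty (ae_eq_empty.2 (Measure.addHaar_sphere _ _ _))
  rw [setIntegral_congr_set h1, ← integral_indicator Metric.isOpen_ball.measurableSet,
    ← fn_V_mp.integral_comp fn_V.measurableEmbedding]
  congr 1
  funext ξ
  by_cases hξ : pp (2 ^ n) ξ < k
  · rw [Set.indicator_of_mem (by simpa using (fn_rad_lt n k ξ).2 hξ),
      Set.indicator_of_mem (by exact hξ), fn_V_inner]
    congr 1
  · have hξ' : fn_V ξ ∉ Metric.ball (0 : fnV) (fn_rad n k) := by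
      rw [mem_ball_zero_iff, fn_rad_lt]
      exact hξ
    rw [Set.indicator_of_notMem hξ', Set.indicator_of_notMem (by exact hξ)]
    simp

lemma fn_next (n : ℕ) (R : ℝ) (h1 : 4 ^ n ≤ R) (h2 : R ≤ 4 ^ (n + 1)) :
    ∃ k : ℕ, k ≤ 16 * 4 ^ n ∧ R ≤ fn_rad n k ∧ fn_rad n k ≤ R + 1 := by
  have hp : (0 : ℝ) < 4 ^ n := by positivity
  have hp1 : (1 : ℝ) ≤ 4 ^ n := one_le_pow₀ (by norm_num)
  rw [pow_succ] at h2
  have hR : 0 < R := lt_of_lt_of_le hp h1
  have hceil : R ^ 2 / (2 * 4 ^ n) ≤ (⌈R ^ 2 / (2 * 4 ^ n)⌉₊ : ℝ) := Nat.le_ceil _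
  have hceil' : (⌈R ^ 2 / (2 * 4 ^ n)⌉₊ : ℝ) < R ^ 2 / (2 * 4 ^ n) + 1 :=
    Nat.ceil_lt_add_one (by positivity)
  refine ⟨⌈R ^ 2 / (2 * 4 ^ n)⌉₊, ?_, ?_, ?_⟩
  · rw [Nat.ceil_le]
    push_cast
    rw [div_le_iff₀ (by positivity)]
    nlinarith
  · unfold fn_rad
    apply Real.le_sqrt_of_sq_le
    rw [div_le_iff₀ (by positivity)] at hceil
    linarith
  · unfold fn_rad
    rw [Real.sqrt_le_left (by linarith)]
    have h3 : 2 * 4 ^ n * (⌈R ^ 2 / (2 * 4 ^ n)⌉₊ : ℝ) ≤ 2 * 4 ^ n * (R ^ 2 / (2 * 4 ^ n) + 1) :=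
      mul_le_mul_of_nonneg_left hceil'.le (by positivity)
    have h4 : 2 * 4 ^ n * (R ^ 2 / (2 * 4 ^ n) + 1) = R ^ 2 + 2 * 4 ^ n := by
      field_simp
    nlinarith

/-! ### increments -/

lemma fn_E {g : fnV → ℂ} (hm : Measurable g) (hg : MemLp g 2 volume) :
    ∫⁻ x in Metric.closedBall (0 : fnV) 1, ∑' k : ℕ, V11160.SPS.EK g k x
      ≤ ENNReal.ofReal (V11160.SPS.KK 1 1) * ∫⁻ ξ, ‖g ξ‖ₑ ^ 2 :=
  V11160.SPS.lint_EK 1 hm hg 0 1

lemma fn_E_meas {g : fnV → ℂ} (hm : Measurable g) :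
    Measurable fun x => ∑' k : ℕ, V11160.SPS.EK g k x :=
  Measurable.tsum fun k => V11160.SPS.EK_meas hm k

lemma fn_inc {g : fnV → ℂ} (hg : MemLp g 2 volume) (x : fnV) (R R' : ℝ) (h0 : 0 ≤ R)
    (h1 : R ≤ R') (h2 : R' ≤ R + 1) :
    ‖V11160.SPS.ballSum g R' x - V11160.SPS.ballSum g R x‖ₑ ^ 2
      ≤ ∑' k : ℕ, V11160.SPS.EK g k x := by
  rcases h1.eq_or_lt with h | h
  · rw [h]
    simp
  · have h3 := V11160.SPS.part_real hg x 0 (fun j => if j = 0 then R else R') (by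
      intro i j hij
      simp only
      split_ifs with hi hj hj
      · exact le_rfl
      · exact h1
      · omega
      · exact le_rfl) (by simpa using h0) 1
    simp only [Finset.sum_range_one, zero_add, one_ne_zero, if_true, if_false, add_zero] at h3
    refine le_trans ?_ h3
    rw [ENNReal.le_div_iff_mul_le (Or.inl (by simpa using h)) (Or.inl ENNReal.ofReal_ne_top)]
    calc ‖V11160.SPS.ballSum g R' x - V11160.SPS.ballSum g R x‖ₑ ^ 2 * ENNReal.ofReal (R' - R)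
        ≤ ‖V11160.SPS.ballSum g R' x - V11160.SPS.ballSum g R x‖ₑ ^ 2 * 1 := by
          gcongr
          rw [ENNReal.ofReal_le_one]
          linarith
      _ = _ := mul_one _

/-! ### one block -/

/-- the part of `h` in the block `4^n < |ξ| ≤ 4^{n+1}` -/
def fn_bl (h : fnV → ℂ) (a b : ℝ) : fnV → ℂ := (V11160.SPS.ann a b).indicator h

lemma fn_bl_meas {h : fnV → ℂ} (hm : Measurable h) (a b : ℝ) : Measurable (fn_bl h a b) :=
  hm.indicator (V11160.SPS.meas_ann a b)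

lemma fn_bl_mem {h : fnV → ℂ} (h2 : MemLp h 2 volume) (a b : ℝ) :
    MemLp (fn_bl h a b) 2 volume := h2.indicator (V11160.SPS.meas_ann a b)

lemma fn_bl_lint (h : fnV → ℂ) (a b : ℝ) :
    ∫⁻ ξ, ‖fn_bl h a b ξ‖ₑ ^ 2 = ∫⁻ ξ in (V11160.SPS.ann a b : Set fnV), ‖h ξ‖ₑ ^ 2 := by
  rw [← lintegral_indicator (V11160.SPS.meas_ann a b)]
  congr 1
  funext ξ
  unfold fn_bl
  by_cases hξ : ξ ∈ (V11160.SPS.ann a b : Set fnV)
  · rw [Set.indicator_of_mem hξ, Set.indicator_of_mem hξ]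
  · rw [Set.indicator_of_notMem hξ, Set.indicator_of_notMem hξ]
    simp

lemma fn_bl_sum (h : fnV → ℂ) {a b R : ℝ} (h2 : R ≤ b) (x : fnV) :
    V11160.SPS.ballSum (fn_bl h a b) R x = V11160.SPS.piece h a R x := by
  unfold V11160.SPS.ballSum V11160.SPS.piece
  rw [← integral_indicator (V11160.SPS.meas_ann a R),
    ← integral_indicator Metric.isClosed_closedBall.measurableSet]
  congr 1
  funext ξ
  unfold fn_bl
  by_cases h3 : ‖ξ‖ ≤ R
  · rw [Set.indicator_of_mem (by simpa using h3)]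
    by_cases h4 : a < ‖ξ‖
    · rw [Set.indicator_of_mem (s := V11160.SPS.ann a b) ⟨h4, h3.trans h2⟩,
        Set.indicator_of_mem (s := V11160.SPS.ann a R) ⟨h4, h3⟩]
    · rw [Set.indicator_of_notMem (s := V11160.SPS.ann a b) (fun h' => h4 h'.1),
        Set.indicator_of_notMem (s := V11160.SPS.ann a R) (fun h' => h4 h'.1)]
      simp
  · rw [Set.indicator_of_notMem (by simpa using h3),
      Set.indicator_of_notMem (s := V11160.SPS.ann a R) (fun h' => h3 h'.2)]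

lemma fn_lg_one (n : ℕ) : 1 ≤ lg n := by
  unfold lg
  rw [Real.le_log_iff_exp_le (by positivity)]
  have := Real.exp_one_lt_d9
  have h0 : (0 : ℝ) ≤ n := by positivity
  linarith

lemma fn_F3 {C : ℝ} (hC0 : 0 < C) (hC : fn_BDc C) (n : ℕ) {h : fnV → ℂ} (hm : Measurable h)
    (h2 : MemLp h 2 volume) :
    ∃ M : fnV → ℝ≥0∞, Measurable M ∧
      (∀ x, ∀ R : ℝ, 4 ^ n ≤ R → R ≤ 4 ^ (n + 1) →
        ‖V11160.SPS.piece h (4 ^ n) R x‖ₑ ^ 2 ≤ M x) ∧
      ∫⁻ x in Metric.closedBall (0 : fnV) 1, M x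
        ≤ ENNReal.ofReal ((8 * C + 2 * V11160.SPS.KK 1 1) * ((n + 1) * lg n ^ 2)) *
          ∫⁻ ξ in (V11160.SPS.ann (4 ^ n) (4 ^ (n + 1)) : Set fnV), ‖h ξ‖ₑ ^ 2 := by
  set h' : fnV → ℂ := fn_bl h (4 ^ n) (4 ^ (n + 1)) with hh'
  have hm' : Measurable h' := fn_bl_meas hm _ _
  have h2' : MemLp h' 2 volume := fn_bl_mem h2 _ _
  have hk2 : MemLp (fun p => h' (fn_V p)) 2 volume := h2'.comp_measurePreserving fn_V_mp
  have hsupp : ∀ ξ, h' (fn_V ξ) ≠ 0 → ξ ∈ fn_B n := by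
    intro ξ hξ
    have h3 : fn_V ξ ∈ (V11160.SPS.ann (4 ^ n) (4 ^ (n + 1)) : Set fnV) := by
      by_contra h4
      exact hξ (Set.indicator_of_notMem h4 _)
    have h5 : (4 : ℝ) ^ n < ‖fn_V ξ‖ := h3.1
    have h6 : ‖fn_V ξ‖ ≤ 4 ^ (n + 1) := h3.2
    unfold fn_B
    rw [Set.mem_ofPred_eq, ← fn_V_norm]
    exact ⟨pow_lt_pow_left₀ h5 (by positivity) (by norm_num),
      pow_le_pow_left₀ (norm_nonneg _) h6 2⟩
  obtain ⟨r, hr1, hr2, hr3⟩ := fn_F2 hC0 hC n (h := fun p => h' (fn_V p))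
    (hm'.comp fn_V.measurable) hk2 hsupp
  set A : ℝ × ℝ → ℂ := fun x => fn_A n (fun p => h' (fn_V p)) (r x) x with hA
  set E : fnV → ℝ≥0∞ := fun x => ∑' k : ℕ, V11160.SPS.EK h' k x with hE
  have hEm : Measurable E := fn_E_meas hm'
  have hAm : Measurable fun x => ‖A (fn_V.symm x)‖ₑ ^ 2 :=
    ((hr1.comp fn_V.symm.measurable).enorm).pow_const 2
  refine ⟨fun x => 2 * ‖A (fn_V.symm x)‖ₑ ^ 2 + 2 * E x,
    (hAm.const_mul _).add (hEm.const_mul _), ?_, ?_⟩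
  · intro x R hR1 hR2
    rw [← fn_bl_sum h hR2 x]
    obtain ⟨k, hk1, hk2, hk3⟩ := fn_next n R hR1 hR2
    refine (V11160.SPS.enorm_sq_le _ (V11160.SPS.ballSum h' (fn_rad n k) x)).trans ?_
    have h3 : ‖V11160.SPS.ballSum h' (fn_rad n k) x‖ₑ ^ 2 ≤ ‖A (fn_V.symm x)‖ₑ ^ 2 := by
      have h4 := fn_bridge n k h' (fn_V.symm x)
      rw [fn_V.apply_symm_apply] at h4
      rw [h4]
      gcongr
      rw [← ofReal_norm, ← ofReal_norm]
      exact ENNReal.ofReal_le_ofReal (hr2 _ k hk1)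
    have h5 : ‖V11160.SPS.ballSum h' R x - V11160.SPS.ballSum h' (fn_rad n k) x‖ₑ ^ 2 ≤ E x := by
      have h6 := fn_inc h2' x R (fn_rad n k) (le_trans (by positivity) hR1) hk2 hk3
      rwa [← enorm_neg, neg_sub] at h6
    show _ ≤ 2 * ‖A (fn_V.symm x)‖ₑ ^ 2 + 2 * E x
    gcongr
  · rw [← fn_bl_lint]
    show ∫⁻ x in Metric.closedBall (0 : fnV) 1, (2 * ‖A (fn_V.symm x)‖ₑ ^ 2 + 2 * E x) ≤ _
    rw [lintegral_add_left (hAm.const_mul _), lintegral_const_mul _ hAm,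
      lintegral_const_mul _ hEm]
    have h3 : ∫⁻ x in Metric.closedBall (0 : fnV) 1, ‖A (fn_V.symm x)‖ₑ ^ 2
        ≤ ∫⁻ x in Sq 1, ‖A x‖ₑ ^ 2 := by
      have h4 := fn_V_mp.setLIntegral_comp_preimage_emb fn_V.measurableEmbedding
        (fun x => ‖A (fn_V.symm x)‖ₑ ^ 2) (Metric.closedBall (0 : fnV) 1)
      rw [← h4]
      simp only [fn_V.symm_apply_apply]
      exact lintegral_mono_set fun x hx => fn_V_ball x hx
    have h4 : ∫⁻ p, ‖h' (fn_V p)‖ₑ ^ 2 = ∫⁻ ξ, ‖h' ξ‖ₑ ^ 2 :=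
      fn_V_mp.lintegral_comp_emb fn_V.measurableEmbedding (fun ξ => ‖h' ξ‖ₑ ^ 2)
    rw [h4] at hr3
    have h5 := fn_E hm' h2'
    have hKK := V11160.SPS.KK_nonneg 1 1
    have hlg := fn_lg_one n
    have hn1 : (1 : ℝ) ≤ (n + 1) * lg n ^ 2 := by
      have : (0 : ℝ) ≤ n := by positivity
      nlinarith
    calc 2 * (∫⁻ x in Metric.closedBall (0 : fnV) 1, ‖A (fn_V.symm x)‖ₑ ^ 2)
          + 2 * (∫⁻ x in Metric.closedBall (0 : fnV) 1, E x)
        ≤ 2 * ((4 * ENNReal.ofReal (C * (n + 1) * lg n ^ 2)) * ∫⁻ ξ, ‖h' ξ‖ₑ ^ 2)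
          + 2 * (ENNReal.ofReal (V11160.SPS.KK 1 1) * ∫⁻ ξ, ‖h' ξ‖ₑ ^ 2) := by
          gcongr
          exact h3.trans hr3
      _ = (ENNReal.ofReal (8 * (C * (n + 1) * lg n ^ 2) + 2 * V11160.SPS.KK 1 1))
          * ∫⁻ ξ, ‖h' ξ‖ₑ ^ 2 := by
          rw [ENNReal.ofReal_add (by positivity) (by positivity),
            ENNReal.ofReal_mul (by norm_num : (0 : ℝ) ≤ 8),
            ENNReal.ofReal_mul (by norm_num : (0 : ℝ) ≤ 2)]
          norm_num
          ring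
      _ ≤ ENNReal.ofReal ((8 * C + 2 * V11160.SPS.KK 1 1) * ((n + 1) * lg n ^ 2)) *
          ∫⁻ ξ, ‖h' ξ‖ₑ ^ 2 := by
          gcongr
          nlinarith

/-! ### all radii up to `4^m` -/

lemma fn_ballSum_eq (h : fnV → ℂ) (R : ℝ) (x : fnV) :
    V11160.SPS.ballSum h R x = 𝓕 ((Metric.closedBall (0 : fnV) R).indicator h) (-x) := by
  unfold V11160.SPS.ballSum
  rw [← integral_indicator Metric.isClosed_closedBall.measurableSet, Real.fourier_eq']
  congr 1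
  funext ξ
  by_cases hξ : ξ ∈ Metric.closedBall (0 : fnV) R
  · rw [Set.indicator_of_mem hξ, Set.indicator_of_mem hξ, smul_eq_mul, mul_comm]
    congr 2
    rw [inner_neg_right, real_inner_comm]
    push_cast
    ring
  · rw [Set.indicator_of_notMem hξ, Set.indicator_of_notMem hξ]
    simp

lemma fn_cut_int {h : fnV → ℂ} (h2 : MemLp h 2 volume) (R : ℝ) :
    Integrable ((Metric.closedBall (0 : fnV) R).indicator h) := by
  have : IsFiniteMeasure (volume.restrict (Metric.closedBall (0 : fnV) R)) :=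
    ⟨by rw [Measure.restrict_apply_univ]; exact measure_closedBall_lt_top⟩
  have h1 : IntegrableOn h (Metric.closedBall (0 : fnV) R) :=
    (h2.restrict _).integrable (by norm_num)
  exact h1.integrable_indicator Metric.isClosed_closedBall.measurableSet

lemma fn_lintV {f : fnV → ℂ} (hf : Integrable fun x => ‖f x‖ ^ 2) :
    ∫⁻ x, ‖f x‖ₑ ^ 2 = ENNReal.ofReal (∫ x, ‖f x‖ ^ 2) := by
  rw [ofReal_integral_eq_lintegral_ofReal hf
    (Eventually.of_forall fun x => by positivity)]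
  congr 1
  funext x
  rw [ENNReal.ofReal_pow (norm_nonneg _), ofReal_norm]

lemma fn_planch {f : fnV → ℂ} (h1 : Integrable f) (h2 : MemLp f 2 volume) :
    ∫⁻ x, ‖𝓕 f (-x)‖ₑ ^ 2 = ∫⁻ ξ, ‖f ξ‖ₑ ^ 2 := by
  obtain ⟨k1, k2⟩ := plancherel_gen f h1 h2
  have k3 : Integrable fun x => ‖f x‖ ^ 2 :=
    (memLp_two_iff_integrable_sq_norm h1.aestronglyMeasurable).1 h2
  rw [fn_lintV k3, ← k2, ← fn_lintV k1]
  exact (Measure.measurePreserving_neg (volume : Measure fnV)).lintegral_comp_emb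
    (MeasurableEquiv.neg fnV).measurableEmbedding (fun x => ‖𝓕 f x‖ₑ ^ 2)

lemma fn_ball_planch {h : fnV → ℂ} (h2 : MemLp h 2 volume) (R : ℝ) :
    ∫⁻ x, ‖V11160.SPS.ballSum h R x‖ₑ ^ 2 ≤ ∫⁻ ξ, ‖h ξ‖ₑ ^ 2 := by
  simp only [fn_ballSum_eq]
  rw [fn_planch (fn_cut_int h2 R) (h2.indicator Metric.isClosed_closedBall.measurableSet)]
  refine lintegral_mono fun ξ => ?_
  gcongr
  exact enorm_indicator_le_enorm_self _ _

lemma fn_disj (a : ℕ → ℝ) (ha : Monotone a) :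
    Pairwise (Function.onFun Disjoint fun j => (V11160.SPS.ann (a j) (a (j + 1)) : Set fnV)) := by
  have key : ∀ i j : ℕ, i < j → Disjoint (V11160.SPS.ann (a i) (a (i + 1)) : Set fnV)
      (V11160.SPS.ann (a j) (a (j + 1))) := by
    intro i j hij
    rw [Set.disjoint_left]
    intro ξ h1 h2
    have h3 : ‖ξ‖ ≤ a (i + 1) := h1.2
    have h4 : a j < ‖ξ‖ := h2.1
    have h5 : a (i + 1) ≤ a j := ha hij
    linarith
  intro i j hij
  rcases lt_or_gt_of_ne hij with h | h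
  · exact key i j h
  · exact (key j i h).symm

lemma fn_tsum_ann (a : ℕ → ℝ) (ha : Monotone a) (F : fnV → ℝ≥0∞) :
    ∑' j, ∫⁻ ξ in (V11160.SPS.ann (a j) (a (j + 1)) : Set fnV), F ξ ≤ ∫⁻ ξ, F ξ := by
  rw [← lintegral_iUnion (fun j => V11160.SPS.meas_ann _ _) (fn_disj a ha)]
  exact setLIntegral_le_lintegral _ _

lemma fn_lg_mono {j m : ℕ} (h : j ≤ m) : lg j ≤ lg m := by
  unfold lg
  apply Real.log_le_log (by positivity)
  have : (j : ℝ) ≤ m := by exact_mod_cast h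
  linarith

lemma fn_F4 {C : ℝ} (hC0 : 0 < C) (hC : fn_BDc C) (m : ℕ) {h : fnV → ℂ} (hm : Measurable h)
    (h2 : MemLp h 2 volume) :
    ∃ M : fnV → ℝ≥0∞, Measurable M ∧
      (∀ x, ∀ R : ℝ, 0 ≤ R → R ≤ 4 ^ m → ‖V11160.SPS.ballSum h R x‖ₑ ^ 2 ≤ M x) ∧
      ∫⁻ x in Metric.closedBall (0 : fnV) 1, M x
        ≤ ENNReal.ofReal ((2 + 16 * C + 5 * V11160.SPS.KK 1 1) * ((m + 1) * lg m ^ 2)) *
          ∫⁻ ξ, ‖h ξ‖ₑ ^ 2 := by
  choose M hM1 hM2 hM3 using fun j => fn_F3 hC0 hC j hm h2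
  set E : fnV → ℝ≥0∞ := fun x => ∑' k : ℕ, V11160.SPS.EK h k x with hE
  have hEm : Measurable E := fn_E_meas hm
  have hBm : ∀ j : ℕ, Measurable fun x => ‖V11160.SPS.ballSum h (4 ^ j) x‖ₑ ^ 2 := fun j =>
    ((V11160.SPS.ballSum_meas hm _).enorm).pow_const 2
  set G : ℕ → fnV → ℝ≥0∞ := fun j x => 2 * ‖V11160.SPS.ballSum h (4 ^ j) x‖ₑ ^ 2 + 2 * M j x
    with hG
  have hGm : ∀ j, Measurable (G j) := fun j => ((hBm j).const_mul _).add ((hM1 j).const_mul _)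
  refine ⟨fun x => E x + ∑ j ∈ Finset.range (m + 1), G j x,
    hEm.add (Finset.measurable_fun_sum _ fun j _ => hGm j), ?_, ?_⟩
  · intro x R hR0 hRm
    rcases le_or_gt R 1 with hR1 | hR1
    · have h3 := fn_inc h2 x 0 R le_rfl hR0 (by linarith)
      have h4 : V11160.SPS.ballSum h 0 x = 0 := V11160.SPS.ballSum_zero 1 h x
      rw [h4, sub_zero] at h3
      exact h3.trans le_self_add
    · obtain ⟨j, hj1, hj2⟩ := exists_nat_pow_near hR1.le (by norm_num : (1 : ℝ) < 4)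
      have hjm : j < m + 1 := by
        by_contra hc
        push Not at hc
        have h3 : (4 : ℝ) ^ m < 4 ^ j := pow_lt_pow_right₀ (by norm_num) (by omega)
        linarith
      have h3 : ‖V11160.SPS.ballSum h R x‖ₑ ^ 2 ≤ G j x := by
        refine (V11160.SPS.enorm_sq_le _ (V11160.SPS.ballSum h (4 ^ j) x)).trans ?_
        rw [V11160.SPS.ballSum_sub h2 hj1]
        have h4 := hM2 j x R hj1 hj2.le
        show _ ≤ 2 * ‖V11160.SPS.ballSum h (4 ^ j) x‖ₑ ^ 2 + 2 * M j x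
        gcongr
      exact h3.trans ((Finset.single_le_sum (f := fun j => G j x) (fun i _ => zero_le)
        (Finset.mem_range.2 hjm)).trans le_add_self)
  · have hH0 := fn_E hm h2
    set H : ℝ≥0∞ := ∫⁻ ξ, ‖h ξ‖ₑ ^ 2 with hH
    have hKK := V11160.SPS.KK_nonneg 1 1
    have hlg := fn_lg_one m
    have hm0 : (0 : ℝ) ≤ m := by positivity
    have hlg2 : 1 ≤ lg m ^ 2 := one_le_pow₀ hlg
    have hn1 : ((m : ℝ) + 1) ≤ (m + 1) * lg m ^ 2 := le_mul_of_one_le_right (by positivity) hlg2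
    have hn2 : (1 : ℝ) ≤ (m + 1) * lg m ^ 2 := by linarith
    have s1 : ∫⁻ x in Metric.closedBall (0 : fnV) 1, (E x + ∑ j ∈ Finset.range (m + 1), G j x)
        = (∫⁻ x in Metric.closedBall (0 : fnV) 1, E x) + ∑ j ∈ Finset.range (m + 1),
          ∫⁻ x in Metric.closedBall (0 : fnV) 1, G j x := by
      rw [lintegral_add_left hEm, lintegral_finsetSum _ fun j _ => hGm j]
    have s2 : ∀ j, ∫⁻ x in Metric.closedBall (0 : fnV) 1, G j x
        = 2 * (∫⁻ x in Metric.closedBall (0 : fnV) 1, ‖V11160.SPS.ballSum h (4 ^ j) x‖ₑ ^ 2)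
          + 2 * (∫⁻ x in Metric.closedBall (0 : fnV) 1, M j x) := by
      intro j
      simp only [hG]
      rw [lintegral_add_left ((hBm j).const_mul _), lintegral_const_mul _ (hBm j),
        lintegral_const_mul _ (hM1 j)]
    have s3 : ∀ j ∈ Finset.range (m + 1), ∫⁻ x in Metric.closedBall (0 : fnV) 1, G j x
        ≤ 2 * H + 2 * (ENNReal.ofReal ((8 * C + 2 * V11160.SPS.KK 1 1) * ((m + 1) * lg m ^ 2)) *
          ∫⁻ ξ in (V11160.SPS.ann (4 ^ j) (4 ^ (j + 1)) : Set fnV), ‖h ξ‖ₑ ^ 2) := by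
      intro j hj
      rw [s2 j]
      have hjm : j ≤ m := by
        have := Finset.mem_range.1 hj
        omega
      have h3 : (j : ℝ) ≤ m := by exact_mod_cast hjm
      have h4 := fn_lg_mono hjm
      have h5 := fn_lg_one j
      have h6 := hM3 j
      gcongr
      · exact (setLIntegral_le_lintegral _ _).trans (fn_ball_planch h2 _)
      · refine h6.trans ?_
        gcongr
    have s4 : ∑ j ∈ Finset.range (m + 1),
        ∫⁻ ξ in (V11160.SPS.ann (4 ^ j) (4 ^ (j + 1)) : Set fnV), ‖h ξ‖ₑ ^ 2 ≤ H := by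
      refine (ENNReal.sum_le_tsum _).trans (fn_tsum_ann (fun j => (4 : ℝ) ^ j) ?_ _)
      exact fun i j hij => pow_le_pow_right₀ (by norm_num) hij
    show ∫⁻ x in Metric.closedBall (0 : fnV) 1, (E x + ∑ j ∈ Finset.range (m + 1), G j x) ≤ _
    rw [s1]
    calc (∫⁻ x in Metric.closedBall (0 : fnV) 1, E x) + ∑ j ∈ Finset.range (m + 1),
          ∫⁻ x in Metric.closedBall (0 : fnV) 1, G j x
        ≤ ENNReal.ofReal (V11160.SPS.KK 1 1) * H + ∑ j ∈ Finset.range (m + 1),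
          (2 * H + 2 * (ENNReal.ofReal ((8 * C + 2 * V11160.SPS.KK 1 1) * ((m + 1) * lg m ^ 2)) *
          ∫⁻ ξ in (V11160.SPS.ann (4 ^ j) (4 ^ (j + 1)) : Set fnV), ‖h ξ‖ₑ ^ 2)) := by
          gcongr with j hj
          exact s3 j hj
      _ = ENNReal.ofReal (V11160.SPS.KK 1 1) * H + ((m + 1) * (2 * H) +
          2 * (ENNReal.ofReal ((8 * C + 2 * V11160.SPS.KK 1 1) * ((m + 1) * lg m ^ 2)) *
          ∑ j ∈ Finset.range (m + 1),
          ∫⁻ ξ in (V11160.SPS.ann (4 ^ j) (4 ^ (j + 1)) : Set fnV), ‖h ξ‖ₑ ^ 2)) := by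
          rw [Finset.sum_add_distrib, Finset.sum_const, Finset.card_range, ← Finset.mul_sum,
            ← Finset.mul_sum, nsmul_eq_mul]
          push_cast
          ring
      _ ≤ ENNReal.ofReal (V11160.SPS.KK 1 1) * H + ((m + 1) * (2 * H) +
          2 * (ENNReal.ofReal ((8 * C + 2 * V11160.SPS.KK 1 1) * ((m + 1) * lg m ^ 2)) * H)) := by
          gcongr
      _ = ENNReal.ofReal (V11160.SPS.KK 1 1 + ((m + 1) * 2 +
          2 * ((8 * C + 2 * V11160.SPS.KK 1 1) * ((m + 1) * lg m ^ 2)))) * H := by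
          have hq : 0 ≤ (8 * C + 2 * V11160.SPS.KK 1 1) * ((m + 1) * lg m ^ 2) := by positivity
          generalize (8 * C + 2 * V11160.SPS.KK 1 1) * ((m + 1) * lg m ^ 2) = q at hq
          have e1 : ENNReal.ofReal (((m : ℝ) + 1) * 2) = (m + 1) * 2 := by
            rw [ENNReal.ofReal_mul (by positivity), ENNReal.ofReal_add hm0 (by norm_num),
              ENNReal.ofReal_natCast]
            norm_num
          rw [ENNReal.ofReal_add hKK (by positivity), ENNReal.ofReal_add (by positivity)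
            (by positivity), e1, ENNReal.ofReal_mul (by norm_num : (0 : ℝ) ≤ 2)]
          norm_num
          ring
      _ ≤ ENNReal.ofReal ((2 + 16 * C + 5 * V11160.SPS.KK 1 1) * ((m + 1) * lg m ^ 2)) * H := by
          gcongr
          nlinarith

/-! ### other centres -/

/-- the modulation -/
def fn_mod (z : fnV) (h : fnV → ℂ) (ξ : fnV) : ℂ :=
  h ξ * Complex.exp (2 * π * Complex.I * ⟪z, ξ⟫)

lemma fn_mod_meas (z : fnV) {h : fnV → ℂ} (hm : Measurable h) : Measurable (fn_mod z h) := by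
  unfold fn_mod
  fun_prop

lemma fn_mod_norm (z : fnV) (h : fnV → ℂ) (ξ : fnV) : ‖fn_mod z h ξ‖ = ‖h ξ‖ := by
  unfold fn_mod
  rw [norm_mul, V11160.SPS.norm_char, mul_one]

lemma fn_mod_mem (z : fnV) {h : fnV → ℂ} (hm : Measurable h) (h2 : MemLp h 2 volume) :
    MemLp (fn_mod z h) 2 volume :=
  h2.of_le (fn_mod_meas z hm).aestronglyMeasurable
    (Eventually.of_forall fun ξ => (fn_mod_norm z h ξ).le)

lemma fn_mod_sum (z : fnV) (h : fnV → ℂ) (R : ℝ) (x : fnV) :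
    V11160.SPS.ballSum (fn_mod z h) R x = V11160.SPS.ballSum h R (x + z) := by
  unfold V11160.SPS.ballSum fn_mod
  congr 1
  funext ξ
  rw [inner_add_left, mul_assoc, ← Complex.exp_add]
  congr 2
  push_cast
  ring

lemma fn_F4z {C : ℝ} (hC0 : 0 < C) (hC : fn_BDc C) (m : ℕ) (z : fnV) {h : fnV → ℂ}
    (hm : Measurable h) (h2 : MemLp h 2 volume) :
    ∃ M : fnV → ℝ≥0∞, Measurable M ∧
      (∀ x, ∀ R : ℝ, 0 ≤ R → R ≤ 4 ^ m → ‖V11160.SPS.ballSum h R x‖ₑ ^ 2 ≤ M x) ∧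
      ∫⁻ x in Metric.closedBall z 1, M x
        ≤ ENNReal.ofReal ((2 + 16 * C + 5 * V11160.SPS.KK 1 1) * ((m + 1) * lg m ^ 2)) *
          ∫⁻ ξ, ‖h ξ‖ₑ ^ 2 := by
  obtain ⟨M, hM1, hM2, hM3⟩ := fn_F4 hC0 hC m (fn_mod_meas z hm) (fn_mod_mem z hm h2)
  refine ⟨fun x => M (x - z), hM1.comp (measurable_sub_const z), fun x R hR0 hRm => ?_, ?_⟩
  · have h3 := hM2 (x - z) R hR0 hRm
    rwa [fn_mod_sum, sub_add_cancel] at h3
  · have h3 : ∫⁻ ξ, ‖fn_mod z h ξ‖ₑ ^ 2 = ∫⁻ ξ, ‖h ξ‖ₑ ^ 2 := by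
      congr 1
      funext ξ
      rw [← ofReal_norm, fn_mod_norm, ofReal_norm]
    rw [h3] at hM3
    refine le_trans (le_of_eq ?_) hM3
    have h4 := (measurePreserving_sub_right (volume : Measure fnV) z).setLIntegral_comp_preimage_emb
      (MeasurableEquiv.subRight z).measurableEmbedding M (Metric.closedBall (0 : fnV) 1)
    rw [← h4]
    congr 2
    ext x
    simp [dist_eq_norm]

end

end Pool.Agent.Helper32.KS
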