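import Pool.Agent.Helper32.KS.Defs

/-!
# Fourier transforms of bounded functions of bounded support on the plane (helper32)
-/

set_option autoImplicit false

open MeasureTheory FourierTransform SchwartzMap
open scoped BigOperators Real ContDiff

namespace Pool.Agent.Helper32.KS

noncomputable section

/-! ### the character -/

lemma e_norm (t : ℝ) : ‖e t‖ = 1 := by
  unfold e
  rw [show (2 * π * Complex.I * t : ℂ) = ((2 * π * t : ℝ) : ℂ) * Complex.I by push_cast; ring]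
  exact Complex.norm_exp_ofReal_mul_I _

lemma e_add (s t : ℝ) : e (s + t) = e s * e t := by
  unfold e
  rw [← Complex.exp_add]
  congr 1
  push_cast
  ring

lemma e_zero : e 0 = 1 := by simp [e]

lemma e_neg (t : ℝ) : e (-t) = starRingEnd ℂ (e t) := by
  unfold e
  rw [← Complex.exp_conj]
  congr 1
  have : (starRingEnd ℂ) 2 = 2 := Complex.conj_ofNat 2
  simp [this]

lemma e_cont : Continuous e := by
  unfold e
  fun_prop

@[fun_prop]
lemma e_cont' {X : Type*} [TopologicalSpace X] {f : X → ℝ} (hf : Continuous f) :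
    Continuous fun x => e (f x) := e_cont.comp hf

@[fun_prop]
lemma e_meas' {X : Type*} [MeasurableSpace X] {f : X → ℝ} (hf : Measurable f) :
    Measurable fun x => e (f x) := e_cont.measurable.comp hf

/-! ### general Plancherel for integrable square integrable functions -/

section General

variable {V : Type*} [NormedAddCommGroup V] [InnerProductSpace ℝ V] [FiniteDimensional ℝ V]
  [MeasurableSpace V] [BorelSpace V]

lemma four_cont (f : V → ℂ) (h1 : Integrable f) : Continuous (𝓕 f) :=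
  VectorFourier.fourierIntegral_continuous (L := innerₗ V) Real.continuous_fourierChar
      continuous_inner h1

lemma fourier_ae_eq (f : V → ℂ) (h1 : Integrable f) (h2 : MemLp f 2) :
    ((𝓕 (h2.toLp f) : Lp ℂ 2 (volume : Measure V)) : V → ℂ) =ᵐ[volume] 𝓕 f := by
  have hcont : Continuous (𝓕 f) := four_cont f h1
  apply ae_eq_of_integral_contDiff_smul_eq
  · exact (Lp.memLp _).locallyIntegrable (by norm_num)
  · exact hcont.locallyIntegrable
  · intro g g_smooth g_cpt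
    have hg₁ : HasCompactSupport (Complex.ofRealCLM ∘ g) := g_cpt.comp_left rfl
    have hg₂ : ContDiff ℝ ∞ (Complex.ofRealCLM ∘ g) := by fun_prop
    set gS : 𝓢(V, ℂ) := hg₁.toSchwartzMap hg₂ with hgS
    have hgx : ∀ x, gS x = (g x : ℂ) := fun x => rfl
    have e1 : ∫ x, g x • ((𝓕 (h2.toLp f) : Lp ℂ 2 (volume : Measure V)) : V → ℂ) x =
        ((𝓕 (h2.toLp f) : Lp ℂ 2 (volume : Measure V)) : 𝓢'(V, ℂ)) gS := by
      rw [Lp.toTemperedDistribution_apply]
      simp [hgx]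
    rw [e1, ← Lp.fourier_toTemperedDistribution_eq, TemperedDistribution.fourier_apply,
      Lp.toTemperedDistribution_apply]
    have e2 : ∫ x, (𝓕 gS) x • (h2.toLp f : V → ℂ) x = ∫ x, (𝓕 gS) x • f x := by
      apply integral_congr_ae
      filter_upwards [h2.coeFn_toLp] with x hx
      rw [hx]
    rw [e2]
    have e3 := VectorFourier.integral_fourierIntegral_smul_eq_flip (L := innerₗ V)
      Real.continuous_fourierChar continuous_inner gS.integrable h1 (μ := volume) (ν := volume)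
    simp only [flip_innerₗ] at e3
    have e4 : ∫ x, (𝓕 gS) x • f x = ∫ x, gS x • (𝓕 f) x := by
      rw [SchwartzMap.fourier_coe]
      exact e3
    rw [e4]
    simp [hgx]

lemma plancherel_gen (f : V → ℂ) (h1 : Integrable f) (h2 : MemLp f 2) :
    Integrable (fun ξ => ‖𝓕 f ξ‖ ^ 2) ∧ ∫ ξ, ‖𝓕 f ξ‖ ^ 2 = ∫ x, ‖f x‖ ^ 2 := by
  have hae := fourier_ae_eq f h1 h2
  have hmem : MemLp (𝓕 f) 2 := (memLp_congr_ae hae).mp (Lp.memLp _)
  refine ⟨(memLp_two_iff_integrable_sq_norm hmem.1).1 hmem, ?_⟩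
  have hn : ‖(𝓕 (h2.toLp f) : Lp ℂ 2 (volume : Measure V))‖ = ‖h2.toLp f‖ := Lp.norm_fourier_eq _
  have e1 : eLpNorm (𝓕 f) 2 volume = eLpNorm f 2 volume := by
    rw [← eLpNorm_congr_ae hae]
    have a1 := Lp.norm_def (𝓕 (h2.toLp f) : Lp ℂ 2 (volume : Measure V))
    have a2 := Lp.norm_def (h2.toLp f)
    rw [hn, a2] at a1
    have a3 : eLpNorm (h2.toLp f) 2 volume = eLpNorm f 2 volume := eLpNorm_congr_ae h2.coeFn_toLp
    rw [← a3]
    exact ((ENNReal.toReal_eq_toReal_iff' (Lp.memLp _).eLpNorm_lt_top.ne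
      (Lp.memLp _).eLpNorm_lt_top.ne).mp a1).symm
  have b1 := hmem.eLpNorm_eq_integral_rpow_norm (by norm_num) (by norm_num)
  have b2 := h2.eLpNorm_eq_integral_rpow_norm (by norm_num) (by norm_num)
  rw [e1, b2] at b1
  have n1 : 0 ≤ ∫ ξ, ‖𝓕 f ξ‖ ^ (2 : ENNReal).toReal := integral_nonneg (fun x => by positivity)
  have n2 : 0 ≤ ∫ ξ, ‖f ξ‖ ^ (2 : ENNReal).toReal := integral_nonneg (fun x => by positivity)
  rw [ENNReal.ofReal_eq_ofReal_iff (by positivity) (by positivity)] at b1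
  have b3 := Real.rpow_left_injOn (x := (2 : ENNReal).toReal⁻¹) (by norm_num) n2 n1 b1
  simp at b3
  exact b3.symm

end General

/-! ### transfer to the plane -/

lemma integral_withLp {G : Type*} [NormedAddCommGroup G] [NormedSpace ℝ G]
    (f : WithLp 2 (ℝ × ℝ) → G) :
    ∫ z, f z = ∫ p : ℝ × ℝ, f (WithLp.toLp 2 p) := by
  rw [← (WithLp.volume_preserving_symm_measurableEquiv_toLp_prod ℝ ℝ).symm.integral_comp']
  rfl

lemma integrable_withLp {G : Type*} [NormedAddCommGroup G]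
    (f : WithLp 2 (ℝ × ℝ) → G) :
    Integrable f ↔ Integrable (fun p : ℝ × ℝ => f (WithLp.toLp 2 p)) := by
  rw [← (WithLp.volume_preserving_symm_measurableEquiv_toLp_prod ℝ ℝ).symm.integrable_comp_emb
    (MeasurableEquiv.measurableEmbedding _)]
  rfl

lemma fwd_eq (g : ℝ × ℝ → ℂ) (ξ : ℝ × ℝ) :
    fwd g ξ = 𝓕 (fun z : WithLp 2 (ℝ × ℝ) => g (WithLp.ofLp z)) (WithLp.toLp 2 ξ) := by
  rw [Real.fourier_eq', integral_withLp]
  unfold fwd
  congr 1
  funext y
  simp only [WithLp.prod_inner_apply, smul_eq_mul]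
  rw [mul_comm]
  congr 1
  unfold e
  congr 1
  simp
  ring

lemma inv_eq_fwd (a : ℝ × ℝ → ℂ) (x : ℝ × ℝ) : inv a x = fwd a (-x) := by
  unfold inv fwd
  congr 1
  funext y
  congr 2
  simp
  ring

lemma inv_conj (a : ℝ × ℝ → ℂ) (x : ℝ × ℝ) :
    starRingEnd ℂ (inv a x) = fwd (fun ξ => starRingEnd ℂ (a ξ)) x := by
  unfold inv fwd
  rw [← integral_conj]
  congr 1
  funext y
  rw [map_mul, ← e_neg]
  congr 3
  ring

lemma fwd_conj (a : ℝ × ℝ → ℂ) (x : ℝ × ℝ) :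
    starRingEnd ℂ (fwd a x) = inv (fun ξ => starRingEnd ℂ (a ξ)) x := by
  unfold inv fwd
  rw [← integral_conj]
  congr 1
  funext y
  rw [map_mul, ← e_neg]
  congr 3
  ring

/-! ### BCS functions -/

lemma Sq_eq (r : ℝ) : Sq r = Set.Icc (-r) r ×ˢ Set.Icc (-r) r := by
  ext x
  simp only [Sq, abs_le, Set.mem_ofPred_eq, Set.mem_prod, Set.mem_Icc]

lemma Sq_meas (r : ℝ) : MeasurableSet (Sq r) := by
  rw [Sq_eq]
  exact measurableSet_Icc.prod measurableSet_Icc

lemma Sq_finite (r : ℝ) : volume (Sq r) < ⊤ := by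
  rw [Sq_eq]
  exact (isCompact_Icc.prod isCompact_Icc).measure_lt_top

lemma integrable_of_bdd {f : ℝ × ℝ → ℂ} (hm : AEStronglyMeasurable f volume) {C R : ℝ}
    (hC : ∀ x, ‖f x‖ ≤ C) (hR : ∀ x, f x ≠ 0 → |x.1| ≤ R ∧ |x.2| ≤ R) : Integrable f := by
  have h1 : IntegrableOn f (Sq R) := by
    apply Measure.integrableOn_of_bounded (M := C) (Sq_finite R).ne hm
    exact Filter.Eventually.of_forall hC
  have h2 : f = (Sq R).indicator f := by
    funext x
    by_cases hx : x ∈ Sq R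
    · rw [Set.indicator_of_mem hx]
    · rw [Set.indicator_of_notMem hx]
      by_contra h
      exact hx (hR x h)
  rw [h2]
  exact h1.integrable_indicator (Sq_meas R)

lemma BCS.bdd' {f : ℝ × ℝ → ℂ} (hf : BCS f) : ∃ C : ℝ, 0 < C ∧ ∀ x, ‖f x‖ ≤ C := by
  obtain ⟨C, hC⟩ := hf.bdd
  exact ⟨|C| + 1, by positivity, fun x => (hC x).trans (by linarith [le_abs_self C])⟩

lemma BCS.supp' {f : ℝ × ℝ → ℂ} (hf : BCS f) :
    ∃ R : ℝ, 0 < R ∧ ∀ x, f x ≠ 0 → |x.1| ≤ R ∧ |x.2| ≤ R := by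
  obtain ⟨C, hC⟩ := hf.supp
  refine ⟨|C| + 1, by positivity, fun x hx => ?_⟩
  have := hC x hx
  have := le_abs_self C
  constructor <;> linarith [this, (hC x hx).1, (hC x hx).2]

lemma BCS.integrable {f : ℝ × ℝ → ℂ} (hf : BCS f) : Integrable f := by
  obtain ⟨C, hC⟩ := hf.bdd
  obtain ⟨R, hR⟩ := hf.supp
  exact integrable_of_bdd hf.meas.aestronglyMeasurable hC hR

lemma BCS.memLp {f : ℝ × ℝ → ℂ} (hf : BCS f) : MemLp f 2 := by
  obtain ⟨C, hC⟩ := hf.bdd
  rw [memLp_two_iff_integrable_sq_norm hf.meas.aestronglyMeasurable]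
  refine (hf.integrable.norm.const_mul C).mono'
    ((hf.meas.norm.pow_const 2).aestronglyMeasurable) (Filter.Eventually.of_forall fun x => ?_)
  rw [Real.norm_of_nonneg (by positivity), sq]
  exact mul_le_mul_of_nonneg_right (hC x) (norm_nonneg _)

lemma BCS.sq_integrable {f : ℝ × ℝ → ℂ} (hf : BCS f) : Integrable fun x => ‖f x‖ ^ 2 :=
  (memLp_two_iff_integrable_sq_norm hf.meas.aestronglyMeasurable).1 hf.memLp

lemma BCS.zero : BCS (fun _ => 0) := ⟨measurable_const, ⟨0, by simp⟩, ⟨0, by simp⟩⟩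

lemma BCS.add {f g : ℝ × ℝ → ℂ} (hf : BCS f) (hg : BCS g) : BCS (fun x => f x + g x) := by
  obtain ⟨C, hC⟩ := hf.bdd
  obtain ⟨R, hR0, hR⟩ := hf.supp'
  obtain ⟨C', hC'⟩ := hg.bdd
  obtain ⟨R', hR0', hR'⟩ := hg.supp'
  refine ⟨hf.meas.add hg.meas, ⟨C + C', fun x => (norm_add_le _ _).trans
    (add_le_add (hC x) (hC' x))⟩, ⟨R + R', fun x hx => ?_⟩⟩
  by_cases h : f x = 0
  · have h' : g x ≠ 0 := by
      intro h'
      exact hx (by rw [h, h', add_zero])
    have := hR' x h'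
    constructor <;> linarith [this.1, this.2]
  · have := hR x h
    constructor <;> linarith [this.1, this.2]

lemma BCS.sum {ι : Type*} (s : Finset ι) {f : ι → ℝ × ℝ → ℂ} (hf : ∀ i ∈ s, BCS (f i)) :
    BCS (fun x => ∑ i ∈ s, f i x) := by
  classical
  induction s using Finset.induction_on with
  | empty => simpa using BCS.zero
  | insert i s hi ih =>
    simp only [Finset.sum_insert hi]
    exact (hf i (Finset.mem_insert_self i s)).add
      (ih fun j hj => hf j (Finset.mem_insert_of_mem hj))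

/-- multiplication by a bounded measurable function -/
lemma BCS.mul_bdd {f g : ℝ × ℝ → ℂ} (hg : Measurable g) {C : ℝ} (hC : ∀ x, ‖g x‖ ≤ C)
    (hf : BCS f) : BCS (fun x => g x * f x) := by
  obtain ⟨C', hC'⟩ := hf.bdd
  obtain ⟨R, hR⟩ := hf.supp
  refine ⟨hg.mul hf.meas, ⟨C * C', fun x => ?_⟩, ⟨R, fun x hx => hR x (right_ne_zero_of_mul hx)⟩⟩
  rw [norm_mul]
  have h0 : 0 ≤ C := (norm_nonneg _).trans (hC x)
  exact mul_le_mul (hC x) (hC' x) (norm_nonneg _) h0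

/-- a BCS function times a function measurable and bounded, given pointwise bounds on the support -/
lemma BCS.mul_meas {f g : ℝ × ℝ → ℂ} (hf : BCS f) (hg : Measurable g) {C : ℝ}
    (hC : ∀ x, ‖g x‖ ≤ C) : BCS (fun x => f x * g x) := by
  have := BCS.mul_bdd hg hC hf
  simpa only [mul_comm] using this

lemma BCS.indicator {f : ℝ × ℝ → ℂ} (hf : BCS f) {s : Set (ℝ × ℝ)} (hs : MeasurableSet s) :
    BCS (s.indicator f) := by
  obtain ⟨C', hC0, hC'⟩ := hf.bdd'
  obtain ⟨R, hR⟩ := hf.supp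
  refine ⟨hf.meas.indicator hs, ⟨C', fun x => ?_⟩, ⟨R, fun x hx => hR x ?_⟩⟩
  · by_cases h : x ∈ s
    · rw [Set.indicator_of_mem h]; exact hC' x
    · rw [Set.indicator_of_notMem h, norm_zero]; exact hC0.le
  · intro h
    apply hx
    by_cases h' : x ∈ s
    · rw [Set.indicator_of_mem h', h]
    · rw [Set.indicator_of_notMem h']

lemma BCS.conj {f : ℝ × ℝ → ℂ} (hf : BCS f) : BCS (fun x => starRingEnd ℂ (f x)) := by
  obtain ⟨C', hC'⟩ := hf.bdd
  obtain ⟨R, hR⟩ := hf.supp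
  refine ⟨Complex.continuous_conj.measurable.comp hf.meas, ⟨C', fun x => ?_⟩,
    ⟨R, fun x hx => hR x ?_⟩⟩
  · rw [RCLike.norm_conj]; exact hC' x
  · intro h
    exact hx (by simp [h])

/-! ### transforms -/

lemma fwd_cont {g : ℝ × ℝ → ℂ} (hg : Integrable g) : Continuous (fwd g) := by
  have h1 : Integrable (fun z : WithLp 2 (ℝ × ℝ) => g (WithLp.ofLp z)) := by
    rw [integrable_withLp]
    exact hg
  have h2 := four_cont _ h1
  have h3 : fwd g = fun ξ => 𝓕 (fun z : WithLp 2 (ℝ × ℝ) => g (WithLp.ofLp z))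
      (WithLp.toLp 2 ξ) := by
    funext ξ
    exact fwd_eq g ξ
  rw [h3]
  exact h2.comp (WithLp.prod_continuous_toLp 2 ℝ ℝ)

lemma inv_cont {g : ℝ × ℝ → ℂ} (hg : Integrable g) : Continuous (inv g) := by
  have h : inv g = fun x => fwd g (-x) := by
    funext x
    exact inv_eq_fwd g x
  rw [h]
  exact (fwd_cont hg).comp continuous_neg

lemma fwd_norm_le (g : ℝ × ℝ → ℂ) (ξ : ℝ × ℝ) : ‖fwd g ξ‖ ≤ ∫ x, ‖g x‖ := by
  unfold fwd
  refine (norm_integral_le_integral_norm _).trans (le_of_eq ?_)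
  congr 1
  funext x
  rw [norm_mul, e_norm, mul_one]

lemma inv_norm_le (g : ℝ × ℝ → ℂ) (ξ : ℝ × ℝ) : ‖inv g ξ‖ ≤ ∫ x, ‖g x‖ := by
  rw [inv_eq_fwd]
  exact fwd_norm_le g _

lemma integrable_mul_e {g : ℝ × ℝ → ℂ} (hg : Integrable g) {f : ℝ × ℝ → ℝ} (hf : Measurable f) :
    Integrable fun x => g x * e (f x) := by
  refine hg.norm.mono' ?_ (Filter.Eventually.of_forall fun x => ?_)
  · exact hg.aestronglyMeasurable.mul (e_meas' hf).aestronglyMeasurable
  · rw [norm_mul, e_norm, mul_one]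

lemma inv_add {a b : ℝ × ℝ → ℂ} (ha : Integrable a) (hb : Integrable b) (x : ℝ × ℝ) :
    inv (fun ξ => a ξ + b ξ) x = inv a x + inv b x := by
  unfold inv
  rw [← integral_add (integrable_mul_e ha (by fun_prop)) (integrable_mul_e hb (by fun_prop))]
  congr 1
  funext ξ
  ring

lemma inv_sum {ι : Type*} (s : Finset ι) {a : ι → ℝ × ℝ → ℂ} (ha : ∀ i ∈ s, Integrable (a i))
    (x : ℝ × ℝ) : inv (fun ξ => ∑ i ∈ s, a i ξ) x = ∑ i ∈ s, inv (a i) x := by
  unfold inv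
  rw [← integral_finsetSum]
  · congr 1
    funext ξ
    rw [Finset.sum_mul]
  · intro i hi
    exact integrable_mul_e (ha i hi) (by fun_prop)

lemma fwd_sum {ι : Type*} (s : Finset ι) {a : ι → ℝ × ℝ → ℂ} (ha : ∀ i ∈ s, Integrable (a i))
    (x : ℝ × ℝ) : fwd (fun ξ => ∑ i ∈ s, a i ξ) x = ∑ i ∈ s, fwd (a i) x := by
  unfold fwd
  rw [← integral_finsetSum]
  · congr 1
    funext ξ
    rw [Finset.sum_mul]
  · intro i hi
    exact integrable_mul_e (ha i hi) (by fun_prop)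

/-- Plancherel -/
lemma planch_fwd' {g : ℝ × ℝ → ℂ} (h1 : Integrable g) (h2 : MemLp g 2) :
    Integrable (fun ξ => ‖fwd g ξ‖ ^ 2) ∧ ∫ ξ, ‖fwd g ξ‖ ^ 2 = ∫ x, ‖g x‖ ^ 2 := by
  have k1 : Integrable (fun z : WithLp 2 (ℝ × ℝ) => g (WithLp.ofLp z)) := by
    rw [integrable_withLp]
    exact h1
  have k2 : MemLp (fun z : WithLp 2 (ℝ × ℝ) => g (WithLp.ofLp z)) 2 := by
    rw [memLp_two_iff_integrable_sq_norm k1.aestronglyMeasurable, integrable_withLp]
    exact (memLp_two_iff_integrable_sq_norm h1.aestronglyMeasurable).1 h2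
  obtain ⟨k3, k4⟩ := plancherel_gen _ k1 k2
  rw [integrable_withLp] at k3
  rw [integral_withLp, integral_withLp] at k4
  have k5 : (fun p : ℝ × ℝ => ‖𝓕 (fun z : WithLp 2 (ℝ × ℝ) => g (WithLp.ofLp z))
      (WithLp.toLp 2 p)‖ ^ 2) = fun p => ‖fwd g p‖ ^ 2 := by
    funext p
    rw [fwd_eq]
  rw [k5] at k3 k4
  exact ⟨k3, k4⟩

lemma planch_inv' {g : ℝ × ℝ → ℂ} (h1 : Integrable g) (h2 : MemLp g 2) :
    Integrable (fun ξ => ‖inv g ξ‖ ^ 2) ∧ ∫ ξ, ‖inv g ξ‖ ^ 2 = ∫ x, ‖g x‖ ^ 2 := by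
  obtain ⟨k1, k2⟩ := planch_fwd' h1 h2
  have h : (fun x => ‖inv g x‖ ^ 2) = fun x => (fun y => ‖fwd g y‖ ^ 2) (-x) := by
    funext x
    simp only [inv_eq_fwd g x]
  constructor
  · rw [h]
    exact k1.comp_neg
  · rw [h, integral_neg_eq_self (fun y => ‖fwd g y‖ ^ 2)]
    exact k2

lemma planch_fwd {g : ℝ × ℝ → ℂ} (hg : BCS g) :
    Integrable (fun ξ => ‖fwd g ξ‖ ^ 2) ∧ ∫ ξ, ‖fwd g ξ‖ ^ 2 = ∫ x, ‖g x‖ ^ 2 :=
  planch_fwd' hg.integrable hg.memLp

lemma planch_inv {g : ℝ × ℝ → ℂ} (hg : BCS g) :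
    Integrable (fun ξ => ‖inv g ξ‖ ^ 2) ∧ ∫ ξ, ‖inv g ξ‖ ^ 2 = ∫ x, ‖g x‖ ^ 2 :=
  planch_inv' hg.integrable hg.memLp

/-- the Fubini pairing -/
lemma pair_inv {g a : ℝ × ℝ → ℂ} (hg : Integrable g) (ha : Integrable a) :
    ∫ x, g x * inv a x = ∫ ξ, inv g ξ * a ξ := by
  have hF : Integrable (Function.uncurry fun (x ξ : ℝ × ℝ) =>
      (g x * a ξ) * e (x.1 * ξ.1 + x.2 * ξ.2)) (volume.prod volume) := by
    refine (hg.mul_prod ha).norm.mono' ?_ (Filter.Eventually.of_forall fun p => ?_)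
    · refine (hg.mul_prod ha).aestronglyMeasurable.mul ?_
      exact (e_meas' (by fun_prop)).aestronglyMeasurable
    · simp only [Function.uncurry]
      rw [norm_mul, e_norm, mul_one]
  have h1 : ∫ x, g x * inv a x = ∫ x, ∫ ξ, (g x * a ξ) * e (x.1 * ξ.1 + x.2 * ξ.2) := by
    congr 1
    funext x
    unfold inv
    rw [← integral_const_mul]
    congr 1
    funext ξ
    ring
  have h2 : ∫ ξ, inv g ξ * a ξ = ∫ ξ, ∫ x, (g x * a ξ) * e (x.1 * ξ.1 + x.2 * ξ.2) := by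
    congr 1
    funext ξ
    unfold inv
    rw [← integral_mul_const]
    congr 1
    funext x
    rw [show ξ.1 * x.1 + ξ.2 * x.2 = x.1 * ξ.1 + x.2 * ξ.2 by ring]
    ring
  rw [h1, h2]
  exact integral_integral_swap hF

/-- the pairing `∫ g conj(inv a) = ∫ fwd g conj a` -/
lemma pair_conj {g a : ℝ × ℝ → ℂ} (hg : Integrable g) (ha : Integrable a) :
    ∫ x, g x * starRingEnd ℂ (inv a x) = ∫ ξ, fwd g ξ * starRingEnd ℂ (a ξ) := by
  have hac : Integrable fun ξ => starRingEnd ℂ (a ξ) := by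
    have := (Complex.conjCLE : ℂ ≃L[ℝ] ℂ).toContinuousLinearMap.integrable_comp ha
    simpa using this
  have h1 := pair_inv (g := g) (a := fun ξ => starRingEnd ℂ (a (-ξ))) hg hac.comp_neg
  have h2 : ∀ x, inv (fun ξ => starRingEnd ℂ (a (-ξ))) x = starRingEnd ℂ (inv a x) := by
    intro x
    rw [inv_conj]
    unfold inv fwd
    rw [← integral_neg_eq_self]
    congr 1
    funext ξ
    simp only [neg_neg, Prod.fst_neg, Prod.snd_neg]
    congr 2
    ring
  simp only [h2] at h1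
  rw [h1, ← integral_neg_eq_self]
  congr 1
  funext ξ
  rw [neg_neg, inv_eq_fwd, neg_neg]

end

end Pool.Agent.Helper32.KS
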