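import Pool.Agent.Helper32.KS.Abs

/-!
# Geometry of the frequency supports (helper32)
-/

set_option autoImplicit false

open MeasureTheory
open scoped BigOperators Real ContDiff

namespace Pool.Agent.Helper32.KS

noncomputable section

/-- windows -/
structure Win (φ : ℝ → ℝ) : Prop where
  smooth : ContDiff ℝ ∞ φ
  supp : ∀ s, φ s ≠ 0 → 1 ≤ s ∧ s ≤ 8

/-- sector `k` -/
def Sk (D : ℝ) (k : ℤ) : Set (ℝ × ℝ) :=
  {ξ | D ^ 2 / 2 ≤ ξ.1 ∧ ξ.1 ≤ 5 * D ^ 2 ∧ |ξ.2| ≤ 4 * D ^ 2 ∧ |D * ξ.2 - k * ξ.1| ≤ ξ.1}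

/-- window `l` and sector `k` -/
def Slk (D u₀ : ℝ) (l : ℕ) (k : ℤ) : Set (ℝ × ℝ) :=
  {ξ | ξ ∈ Sk D k ∧ l + u₀ - 8 ≤ pp D ξ ∧ pp D ξ ≤ l + u₀}

lemma st_zero {t : ℝ} (h : Real.smoothTransition t ≠ 0) : 0 < t := by
  by_contra hcon
  push Not at hcon
  exact h (Real.smoothTransition.zero_of_nonpos hcon)

lemma cutA_supp {t : ℝ} (h : cutA t ≠ 0) : 1/2 < t ∧ t < 5 := by
  unfold cutA at h
  have h1 := st_zero (left_ne_zero_of_mul h)
  have h2 := st_zero (right_ne_zero_of_mul h)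
  constructor <;> linarith

lemma cutB_supp {t : ℝ} (h : cutB t ≠ 0) : -4 < t ∧ t < 4 := by
  unfold cutB at h
  have h1 := st_zero (left_ne_zero_of_mul h)
  have h2 := st_zero (right_ne_zero_of_mul h)
  constructor <;> linarith

lemma bet_supp {s : ℝ} (h : bet s ≠ 0) : -1 < s ∧ s < 1 := by
  unfold bet at h
  constructor
  · by_contra hcon
    push Not at hcon
    apply h
    rw [Real.smoothTransition.zero_of_nonpos (by linarith),
      Real.smoothTransition.zero_of_nonpos (by linarith), sub_zero]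
  · by_contra hcon
    push Not at hcon
    apply h
    rw [Real.smoothTransition.one_of_one_le (by linarith),
      Real.smoothTransition.one_of_one_le (by linarith), sub_self]

lemma cut_supp {D : ℝ} (hD : 0 < D) {ξ : ℝ × ℝ} (h : cut D ξ ≠ 0) :
    D ^ 2 / 2 < ξ.1 ∧ ξ.1 < 5 * D ^ 2 ∧ |ξ.2| < 4 * D ^ 2 := by
  unfold cut at h
  have h1 := cutA_supp (left_ne_zero_of_mul h)
  have h2 := cutB_supp (right_ne_zero_of_mul h)
  have hD2 : 0 < D ^ 2 := by positivity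
  rw [lt_div_iff₀ hD2, div_lt_iff₀ hD2] at h1 h2
  refine ⟨by linarith, by linarith, ?_⟩
  rw [abs_lt]
  constructor <;> linarith

lemma mulk_supp {φ : ℝ → ℝ} (hφ : Win φ) {D u₀ : ℝ} (hD : 0 < D) {l : ℕ} {k : ℤ} {ξ : ℝ × ℝ}
    (h : mulk φ D u₀ l k ξ ≠ 0) : ξ ∈ Slk D u₀ l k := by
  unfold mulk mulw at h
  have h1 := hφ.supp _ (left_ne_zero_of_mul (left_ne_zero_of_mul h))
  have h2 := cut_supp hD (ne_zero_pow (two_ne_zero) (right_ne_zero_of_mul (left_ne_zero_of_mul h)))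
  have h3 := bet_supp (right_ne_zero_of_mul h)
  have hξ : 0 < ξ.1 := lt_trans (by positivity) h2.1
  refine ⟨⟨h2.1.le, h2.2.1.le, h2.2.2.le, ?_⟩, by linarith, by linarith⟩
  have h4 : D * ξ.2 - k * ξ.1 = (D * ξ.2 / ξ.1 - k) * ξ.1 := by field_simp
  rw [h4, abs_mul, abs_of_pos hξ]
  have h5 : |D * ξ.2 / ξ.1 - k| ≤ 1 := by
    rw [abs_le]
    constructor <;> linarith
  nlinarith

/-- sets of integers of diameter `≤ c` -/
lemma card_le_of_diam {s : Finset ℤ} {c : ℕ} (h : ∀ a ∈ s, ∀ b ∈ s, |a - b| ≤ (c : ℤ)) :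
    s.card ≤ c + 1 := by
  rcases s.eq_empty_or_nonempty with rfl | hne
  · simp
  · set a := s.min' hne
    have hsub : s ⊆ Finset.Icc a (a + c) := by
      intro b hb
      rw [Finset.mem_Icc]
      refine ⟨s.min'_le b hb, ?_⟩
      have := h b hb a (s.min'_mem hne)
      have := le_abs_self (b - a)
      linarith
    refine (Finset.card_le_card hsub).trans ?_
    rw [Int.card_Icc]
    omega

lemma card_le_of_diam' {s : Finset ℕ} {c : ℕ} (h : ∀ a ∈ s, ∀ b ∈ s, |(a : ℝ) - b| ≤ (c : ℝ)) :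
    s.card ≤ c + 1 := by
  rcases s.eq_empty_or_nonempty with rfl | hne
  · simp
  · set a := s.min' hne
    have hsub : s ⊆ Finset.Icc a (a + c) := by
      intro b hb
      rw [Finset.mem_Icc]
      refine ⟨s.min'_le b hb, ?_⟩
      have := h b hb a (s.min'_mem hne)
      have h2 := le_abs_self ((b : ℝ) - a)
      have : (b : ℝ) ≤ a + c := by linarith
      exact_mod_cast this
    refine (Finset.card_le_card hsub).trans ?_
    rw [Nat.card_Icc]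
    omega

/-- overlap of the sectors enlarged by squares of side `mD` -/
lemma sector_overlap {D : ℝ} (hD : 0 < D) {k k' : ℤ} {ξ ξ' : ℝ × ℝ} {m : ℝ} (hm : 0 ≤ m)
    (h : ξ ∈ Sk D k) (h' : ξ' ∈ Sk D k') (h1 : |ξ.1 - ξ'.1| ≤ m * D)
    (h2 : |ξ.2 - ξ'.2| ≤ m * D) : |(k : ℝ) - k'| ≤ 2 + 18 * m := by
  obtain ⟨a1, a2, a3, a4⟩ := h
  obtain ⟨b1, b2, b3, b4⟩ := h'
  have hD2 : 0 < D ^ 2 := by positivity
  have p1 : 0 < ξ.1 := by linarith
  have p2 : 0 < ξ'.1 := by linarith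
  have e1 : ((k : ℝ) - k') * (ξ.1 * ξ'.1) =
      -(D * ξ.2 - k * ξ.1) * ξ'.1 + (D * ξ'.2 - k' * ξ'.1) * ξ.1
        + D * (ξ.2 * (ξ'.1 - ξ.1) + ξ.1 * (ξ.2 - ξ'.2)) := by ring
  have e2 : |((k : ℝ) - k') * (ξ.1 * ξ'.1)| ≤
      ξ.1 * ξ'.1 + ξ'.1 * ξ.1 + D * (9 * ξ.1 * (m * D)) := by
    rw [e1]
    refine (abs_add_le _ _).trans (add_le_add ((abs_add_le _ _).trans (add_le_add ?_ ?_)) ?_)
    · rw [abs_mul, abs_neg, abs_of_pos p2]
      gcongr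
    · rw [abs_mul, abs_of_pos p1]
      gcongr
    · rw [abs_mul, abs_of_pos hD]
      gcongr
      refine (abs_add_le _ _).trans ?_
      rw [abs_mul, abs_mul, abs_of_pos p1]
      have c1 : |ξ'.1 - ξ.1| ≤ m * D := by rwa [abs_sub_comm]
      have c2 : |ξ.2| ≤ 8 * ξ.1 := by linarith
      have c3 : 0 ≤ m * D := by positivity
      calc |ξ.2| * |ξ'.1 - ξ.1| + ξ.1 * |ξ.2 - ξ'.2| ≤ 8 * ξ.1 * (m * D) + ξ.1 * (m * D) := by
            gcongr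
        _ = 9 * ξ.1 * (m * D) := by ring
  rw [abs_mul, abs_of_pos (mul_pos p1 p2)] at e2
  have e3 : D * (9 * ξ.1 * (m * D)) ≤ 18 * m * (ξ.1 * ξ'.1) := by
    have : D ^ 2 ≤ 2 * ξ'.1 := by linarith
    calc D * (9 * ξ.1 * (m * D)) = 9 * m * ξ.1 * D ^ 2 := by ring
      _ ≤ 9 * m * ξ.1 * (2 * ξ'.1) := by gcongr
      _ = 18 * m * (ξ.1 * ξ'.1) := by ring
  have e4 : |(k : ℝ) - k'| * (ξ.1 * ξ'.1) ≤ (2 + 18 * m) * (ξ.1 * ξ'.1) := by linarith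
  exact le_of_mul_le_mul_right e4 (mul_pos p1 p2)

/-- overlap of the windows of one sector enlarged by tile duals -/
lemma window_overlap {D u₀ : ℝ} (hD : 1 ≤ D) {l l' : ℕ} {k : ℤ} (hk : |(k : ℝ)| ≤ 9 * D)
    {ξ ξ' : ℝ × ℝ} {m s t : ℝ} (hm : 0 ≤ m) (h : ξ ∈ Slk D u₀ l k) (h' : ξ' ∈ Slk D u₀ l' k)
    (hs : |s| ≤ m) (ht : |t| ≤ m)
    (h1 : ξ'.1 = ξ.1 + s - k * t) (h2 : ξ'.2 = ξ.2 + D * t) :
    |(l : ℝ) - l'| ≤ 8 + 10 * m + 83 * m ^ 2 := by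
  obtain ⟨⟨a1, a2, a3, a4⟩, a5, a6⟩ := h
  obtain ⟨-, b5, b6⟩ := h'
  have hD0 : 0 < D := by linarith
  have hD2 : 1 ≤ D ^ 2 := one_le_pow₀ hD
  have p1 : 0 < ξ.1 := by linarith
  have e1 : pp D ξ' - pp D ξ =
      (2 * (ξ.1 * s + t * (D * ξ.2 - k * ξ.1)) + ((s - k * t) ^ 2 + (D * t) ^ 2)) /
        (2 * D ^ 2) := by
    unfold pp
    rw [h1, h2]
    field_simp
    ring
  have e2 : |2 * (ξ.1 * s + t * (D * ξ.2 - k * ξ.1)) + ((s - k * t) ^ 2 + (D * t) ^ 2)| ≤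
      (10 * m + 83 * m ^ 2) * (2 * D ^ 2) := by
    refine (abs_add_le _ _).trans ?_
    have c1 : |2 * (ξ.1 * s + t * (D * ξ.2 - k * ξ.1))| ≤ 20 * m * D ^ 2 := by
      rw [abs_mul, abs_of_pos (by norm_num : (0:ℝ) < 2)]
      have : |ξ.1 * s + t * (D * ξ.2 - k * ξ.1)| ≤ 10 * m * D ^ 2 := by
        refine (abs_add_le _ _).trans ?_
        rw [abs_mul, abs_mul, abs_of_pos p1]
        have d1 : |D * ξ.2 - k * ξ.1| ≤ 5 * D ^ 2 := by linarith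
        calc ξ.1 * |s| + |t| * |D * ξ.2 - k * ξ.1| ≤ 5 * D ^ 2 * m + m * (5 * D ^ 2) := by
              gcongr
          _ = 10 * m * D ^ 2 := by ring
      linarith
    have c2 : |(s - k * t) ^ 2 + (D * t) ^ 2| ≤ 165 * m ^ 2 * D ^ 2 := by
      rw [abs_of_nonneg (by positivity)]
      have d1 : (s - k * t) ^ 2 ≤ 2 * s ^ 2 + 2 * (k * t) ^ 2 := by
        nlinarith [sq_nonneg (s + k * t)]
      have d2 : s ^ 2 ≤ m ^ 2 := by
        rw [← sq_abs s]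
        gcongr
      have d3 : t ^ 2 ≤ m ^ 2 := by
        rw [← sq_abs t]
        gcongr
      have d4 : (k : ℝ) ^ 2 ≤ 81 * D ^ 2 := by
        rw [← sq_abs (k : ℝ)]
        calc |(k : ℝ)| ^ 2 ≤ (9 * D) ^ 2 := by gcongr
          _ = 81 * D ^ 2 := by ring
      have d5 : (k * t : ℝ) ^ 2 ≤ 81 * D ^ 2 * m ^ 2 := by
        rw [mul_pow]
        gcongr
      have d6 : (D * t) ^ 2 ≤ D ^ 2 * m ^ 2 := by
        rw [mul_pow]
        gcongr
      have d7 : m ^ 2 ≤ m ^ 2 * D ^ 2 := by nlinarith [sq_nonneg m]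
      nlinarith
    calc |2 * (ξ.1 * s + t * (D * ξ.2 - k * ξ.1))| + |(s - k * t) ^ 2 + (D * t) ^ 2|
        ≤ 20 * m * D ^ 2 + 165 * m ^ 2 * D ^ 2 := add_le_add c1 c2
      _ ≤ (10 * m + 83 * m ^ 2) * (2 * D ^ 2) := by nlinarith [sq_nonneg m, sq_nonneg D]
  have e3 : |pp D ξ' - pp D ξ| ≤ 10 * m + 83 * m ^ 2 := by
    rw [e1, abs_div, abs_of_pos (by positivity : (0:ℝ) < 2 * D ^ 2), div_le_iff₀ (by positivity)]
    exact e2
  rw [abs_le] at e3 ⊢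
  constructor <;> linarith [e3.1, e3.2]

/-- a sector-window lies in a parallelogram of size `1 × D` -/
lemma Slk_box {D u₀ : ℝ} (hD : 1 ≤ D) {l : ℕ} {k : ℤ} (hk : |(k : ℝ)| ≤ 9 * D)
    {ξ η : ℝ × ℝ} (h : ξ ∈ Slk D u₀ l k) (h' : η ∈ Slk D u₀ l k) :
    |(ξ.1 + k / D * ξ.2) - (η.1 + k / D * η.2)| ≤ 2800 ∧ |ξ.2 - η.2| ≤ 25300 * D := by
  obtain ⟨⟨a1, a2, a3, a4⟩, a5, a6⟩ := h
  obtain ⟨⟨b1, b2, b3, b4⟩, b5, b6⟩ := h'
  have hD0 : 0 < D := by linarith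
  have hD2 : 1 ≤ D ^ 2 := one_le_pow₀ hD
  have p1 : 0 < ξ.1 := by linarith
  have p2 : 0 < η.1 := by linarith
  have hκ : |(k : ℝ) / D| ≤ 9 := by
    rw [abs_div, abs_of_pos hD0, div_le_iff₀ hD0]
    exact hk
  -- positivity of e
  have epos : ∀ ζ : ℝ × ℝ, D ^ 2 / 2 ≤ ζ.1 → |D * ζ.2 - k * ζ.1| ≤ ζ.1 →
      D ^ 2 / 4 ≤ ζ.1 + k / D * ζ.2 := by
    intro ζ h1 h2
    have hζ : 0 < ζ.1 := by linarith [sq_nonneg D]
    -- k/D ζ₂ ζ₁ = ζ₂ (D ζ₂ - w)/D ... with w = Dζ₂ - kζ₁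
    have e1 : (ζ.1 + k / D * ζ.2) * ζ.1 = ζ.1 ^ 2 + ζ.2 ^ 2 - ζ.2 * ((D * ζ.2 - k * ζ.1) / D) := by
      field_simp
      ring
    have e2 : |(D * ζ.2 - k * ζ.1) / D| ≤ ζ.1 := by
      rw [abs_div, abs_of_pos hD0, div_le_iff₀ hD0]
      nlinarith
    have e3 : ζ.2 * ((D * ζ.2 - k * ζ.1) / D) ≤ |ζ.2| * ζ.1 := by
      refine (le_abs_self _).trans ?_
      rw [abs_mul]
      gcongr
    have e4 : |ζ.2| * ζ.1 ≤ (ζ.1 ^ 2 + ζ.2 ^ 2) / 2 := by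
      have := sq_nonneg (|ζ.2| - ζ.1)
      rw [← sq_abs ζ.2]
      nlinarith
    have e5 : (ζ.1 / 2) * ζ.1 ≤ (ζ.1 + k / D * ζ.2) * ζ.1 := by
      rw [e1]
      nlinarith [sq_nonneg ζ.2]
    have e6 := le_of_mul_le_mul_right e5 hζ
    linarith
  have ep1 := epos ξ a1 a4
  have ep2 := epos η b1 b4
  -- e² identity
  have esq : ∀ ζ : ℝ × ℝ, (ζ.1 + k / D * ζ.2) ^ 2 =
      (1 + (k / D) ^ 2) * (2 * D ^ 2 * pp D ζ) - ((D * ζ.2 - k * ζ.1) / D) ^ 2 := by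
    intro ζ
    unfold pp
    field_simp
    ring
  have c1 : ((D * ξ.2 - k * ξ.1) / D) ^ 2 ≤ 25 * D ^ 2 := by
    rw [div_pow, div_le_iff₀ (by positivity), ← sq_abs]
    calc |D * ξ.2 - k * ξ.1| ^ 2 ≤ (5 * D ^ 2) ^ 2 := by
          gcongr
          linarith
      _ = 25 * D ^ 2 * D ^ 2 := by ring
  have c2 : ((D * η.2 - k * η.1) / D) ^ 2 ≤ 25 * D ^ 2 := by
    rw [div_pow, div_le_iff₀ (by positivity), ← sq_abs]
    calc |D * η.2 - k * η.1| ^ 2 ≤ (5 * D ^ 2) ^ 2 := by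
          gcongr
          linarith
      _ = 25 * D ^ 2 * D ^ 2 := by ring
  have hκ2 : (k / D : ℝ) ^ 2 ≤ 81 := by
    rw [← sq_abs]
    calc |(k : ℝ) / D| ^ 2 ≤ 9 ^ 2 := by gcongr
      _ = 81 := by norm_num
  have hpp : |pp D ξ - pp D η| ≤ 8 := by
    rw [abs_le]
    constructor <;> linarith
  have c3 : |(ξ.1 + k / D * ξ.2) ^ 2 - (η.1 + k / D * η.2) ^ 2| ≤ 1400 * D ^ 2 := by
    rw [esq ξ, esq η]
    have : (1 + ((k:ℝ) / D) ^ 2) * (2 * D ^ 2 * pp D ξ) - ((D * ξ.2 - k * ξ.1) / D) ^ 2 -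
        ((1 + ((k:ℝ) / D) ^ 2) * (2 * D ^ 2 * pp D η) - ((D * η.2 - k * η.1) / D) ^ 2) =
        (1 + ((k:ℝ) / D) ^ 2) * (2 * D ^ 2) * (pp D ξ - pp D η) +
        (((D * η.2 - k * η.1) / D) ^ 2 - ((D * ξ.2 - k * ξ.1) / D) ^ 2) := by ring
    rw [this]
    refine (abs_add_le _ _).trans ?_
    have d1 : |(1 + ((k:ℝ) / D) ^ 2) * (2 * D ^ 2) * (pp D ξ - pp D η)| ≤
        82 * (2 * D ^ 2) * 8 := by
      rw [abs_mul, abs_of_nonneg (by positivity : 0 ≤ (1 + ((k:ℝ) / D) ^ 2) * (2 * D ^ 2))]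
      gcongr
      linarith
    have d2 : |((D * η.2 - k * η.1) / D) ^ 2 - ((D * ξ.2 - k * ξ.1) / D) ^ 2| ≤ 25 * D ^ 2 := by
      rw [abs_le]
      constructor <;> nlinarith [sq_nonneg ((D * η.2 - k * η.1) / D),
        sq_nonneg ((D * ξ.2 - k * ξ.1) / D)]
    nlinarith
  have c4 : |(ξ.1 + k / D * ξ.2) - (η.1 + k / D * η.2)| ≤ 2800 := by
    have f1 : (ξ.1 + k / D * ξ.2) ^ 2 - (η.1 + k / D * η.2) ^ 2 =
        ((ξ.1 + k / D * ξ.2) - (η.1 + k / D * η.2)) *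
          ((ξ.1 + k / D * ξ.2) + (η.1 + k / D * η.2)) := by ring
    have f2 : D ^ 2 / 2 ≤ (ξ.1 + k / D * ξ.2) + (η.1 + k / D * η.2) := by linarith
    rw [f1, abs_mul, abs_of_pos (lt_of_lt_of_le (by positivity) f2)] at c3
    have f3 : |(ξ.1 + k / D * ξ.2) - (η.1 + k / D * η.2)| * (D ^ 2 / 2) ≤ 2800 * (D ^ 2 / 2) := by
      calc |(ξ.1 + k / D * ξ.2) - (η.1 + k / D * η.2)| * (D ^ 2 / 2)
          ≤ |(ξ.1 + k / D * ξ.2) - (η.1 + k / D * η.2)| *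
            ((ξ.1 + k / D * ξ.2) + (η.1 + k / D * η.2)) := by gcongr
        _ ≤ 1400 * D ^ 2 := c3
        _ = 2800 * (D ^ 2 / 2) := by ring
    exact le_of_mul_le_mul_right f3 (by positivity)
  refine ⟨c4, ?_⟩
  -- second coordinate
  have g1 : (ξ.2 - η.2) * (1 + (k / D) ^ 2) =
      ((D * ξ.2 - k * ξ.1) / D - (D * η.2 - k * η.1) / D) +
      k / D * ((ξ.1 + k / D * ξ.2) - (η.1 + k / D * η.2)) := by
    field_simp
    ring
  have g2 : |(ξ.2 - η.2) * (1 + (k / D) ^ 2)| ≤ 10 * D + 9 * 2800 := by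
    rw [g1]
    refine (abs_add_le _ _).trans ?_
    have i1 : |(D * ξ.2 - k * ξ.1) / D - (D * η.2 - k * η.1) / D| ≤ 10 * D := by
      rw [← sub_div, abs_div, abs_of_pos hD0, div_le_iff₀ hD0]
      refine (abs_sub _ _).trans ?_
      nlinarith
    have i2 : |(k : ℝ) / D * ((ξ.1 + k / D * ξ.2) - (η.1 + k / D * η.2))| ≤ 9 * 2800 := by
      rw [abs_mul]
      gcongr
    linarith
  rw [abs_mul, abs_of_pos (by positivity : 0 < 1 + ((k:ℝ) / D) ^ 2)] at g2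
  have g3 : |ξ.2 - η.2| ≤ |ξ.2 - η.2| * (1 + (k / D) ^ 2) := by
    have := abs_nonneg (ξ.2 - η.2)
    nlinarith [sq_nonneg ((k : ℝ) / D)]
  linarith

/-- the parallelogram -/
def Par (D : ℝ) (k : ℤ) (c : ℝ × ℝ) (A B : ℝ) : Set (ℝ × ℝ) :=
  {ξ | |ξ.1 + k / D * ξ.2 - c.1| ≤ A ∧ |ξ.2 - c.2| ≤ B}

lemma Par_meas (D : ℝ) (k : ℤ) (c : ℝ × ℝ) (A B : ℝ) : MeasurableSet (Par D k c A B) := by
  apply MeasurableSet.inter
  · exact measurableSet_le (f := fun ξ : ℝ × ℝ => |ξ.1 + k / D * ξ.2 - c.1|) (by fun_prop)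
      measurable_const
  · exact measurableSet_le (f := fun ξ : ℝ × ℝ => |ξ.2 - c.2|) (by fun_prop) measurable_const

lemma Par_vol (D : ℝ) (k : ℤ) (c : ℝ × ℝ) {A B : ℝ} (hA : 0 ≤ A) (hB : 0 ≤ B) :
    volume (Par D k c A B) ≠ ⊤ ∧ (volume (Par D k c A B)).toReal ≤ 4 * A * B := by
  have h1 : volume (Par D k c A B) ≤ ENNReal.ofReal (4 * A * B) := by
    rw [Measure.volume_eq_prod, Measure.prod_apply_symm (Par_meas D k c A B)]
    have h2 : ∀ y : ℝ, volume ((fun x : ℝ => (x, y)) ⁻¹' (Par D k c A B)) ≤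
        (Set.Icc (c.2 - B) (c.2 + B)).indicator (fun _ => ENNReal.ofReal (2 * A)) y := by
      intro y
      by_cases hy : y ∈ Set.Icc (c.2 - B) (c.2 + B)
      · rw [Set.indicator_of_mem hy]
        have : ((fun x : ℝ => (x, y)) ⁻¹' (Par D k c A B)) ⊆
            Set.Icc (c.1 - k / D * y - A) (c.1 - k / D * y + A) := by
          intro x hx
          have := hx.1
          simp only [abs_le] at this
          constructor <;> linarith [this.1, this.2]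
        refine (measure_mono this).trans ?_
        rw [Real.volume_Icc]
        apply ENNReal.ofReal_le_ofReal
        linarith
      · have : ((fun x : ℝ => (x, y)) ⁻¹' (Par D k c A B)) = ∅ := by
          ext x
          simp only [Set.mem_preimage, Set.mem_empty_iff_false, iff_false]
          intro hx
          apply hy
          have := hx.2
          simp only [abs_le] at this
          constructor <;> linarith [this.1, this.2]
        rw [this]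
        simp
    refine (lintegral_mono h2).trans ?_
    rw [lintegral_indicator measurableSet_Icc, setLIntegral_const, Real.volume_Icc,
      ← ENNReal.ofReal_mul (by positivity)]
    apply ENNReal.ofReal_le_ofReal
    nlinarith
  have h3 : volume (Par D k c A B) ≠ ⊤ := (h1.trans_lt ENNReal.ofReal_lt_top).ne
  exact ⟨h3, ENNReal.toReal_le_of_le_ofReal (by positivity) h1⟩

end

end Pool.Agent.Helper32.KS
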