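import Pool.Agent.Helper32.KS.Inst

/-!
# From the abstract key proposition to `KP` (helper32)
-/

set_option autoImplicit false

open MeasureTheory
open scoped BigOperators Real ContDiff

namespace Pool.Agent.Helper32.KS

noncomputable section

variable {φ : ℝ → ℝ} {d : ℕ}

/-- the partition of unity over the sectors -/
lemma mulw_eq_sum (φ : ℝ → ℝ) (d : ℕ) (u₀ : ℝ) (l : ℕ) (ξ : ℝ × ℝ) :
    mulw φ (2 ^ d) u₀ l ξ = ∑ k ∈ Ks (2 ^ d), mulk φ (2 ^ d) u₀ l k ξ := by
  unfold mulk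
  rw [← Finset.mul_sum]
  by_cases h : mulw φ (2 ^ d) u₀ l ξ = 0
  · rw [h, zero_mul]
  · have h1 : cut (2 ^ d) ξ ≠ 0 := by
      unfold mulw at h
      exact ne_zero_pow two_ne_zero (right_ne_zero_of_mul h)
    obtain ⟨c1, c2, c3⟩ := cut_supp (twod_pos d) h1
    have hD : (0 : ℝ) < 2 ^ d := twod_pos d
    have hξ : 0 < ξ.1 := lt_trans (by positivity) c1
    have h2 : |(2 : ℝ) ^ d * ξ.2 / ξ.1| ≤ ((9 * 2 ^ d : ℕ) : ℝ) := by
      rw [abs_div, abs_mul, abs_of_pos hD, abs_of_pos hξ, div_le_iff₀ hξ]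
      push_cast
      have : |ξ.2| ≤ 9 * ξ.1 := by nlinarith [sq_nonneg ((2:ℝ) ^ d)]
      nlinarith
    have h3 := bet_sum (2 ^ d * ξ.2 / ξ.1) (9 * 2 ^ d) h2
    have h4 : Ks (2 ^ d) = Finset.Icc (-((9 * 2 ^ d : ℕ) : ℤ)) ((9 * 2 ^ d : ℕ) : ℤ) := by
      unfold Ks
      push_cast
      congr 1
    rw [h4, h3, mul_one]

lemma Fl_eq (c : Cfg φ d) (hφ : Win φ) (l : ℕ) (x : ℝ × ℝ) :
    Fl φ (2 ^ d) c.u₀ c.g c.E l x = ∑ k ∈ Ks (2 ^ d), c.F l k x := by
  unfold Fl Cfg.F
  rw [← inv_sum _ fun k _ => (c.a_bcs hφ l k).integrable]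
  congr 1
  funext ξ
  unfold Cfg.a
  rw [← Finset.sum_mul]
  congr 1
  rw [mulw_eq_sum]
  push_cast
  rfl

lemma Fl_cont (c : Cfg φ d) (hφ : Win φ) (l : ℕ) :
    Continuous (Fl φ (2 ^ d) c.u₀ c.g c.E l) := by
  have : Fl φ (2 ^ d) c.u₀ c.g c.E l = fun x => ∑ k ∈ Ks (2 ^ d), c.F l k x := by
    funext x
    exact Fl_eq c hφ l x
  rw [this]
  exact continuous_finsetSum _ fun k _ => (c.F_band hφ l k).cont

theorem kp_of (hφ : Win φ) {CK : ℝ} (hK : KerB φ CK) (habs : KPabs) : KP φ := by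
  classical
  obtain ⟨Cφ, -, hCφ⟩ := hφ.bdd
  obtain ⟨C', hC', h⟩ := habs (sysC Cφ CK)
  refine ⟨C', hC', ?_⟩
  intro n d hd u₀ hu0 hu1 g hg E hE hEd m hm hmM
  set c : Cfg φ d := ⟨u₀, hu0, hu1, g, hg, E, hE, hEd⟩ with hc
  set B : ℤ := 2 ^ d * 4 ^ n with hB
  set Q : Finset (ℤ × ℤ) := Finset.Icc (-B) B ×ˢ Finset.Icc (-B) B with hQ
  have hB1 : (1 : ℤ) ≤ B := by
    rw [hB]
    exact one_le_mul_of_one_le_of_one_le (one_le_pow₀ (by norm_num)) (one_le_pow₀ (by norm_num))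
  have hcard : (Q.card : ℝ) ≤ 2 ^ (20 * (n + 1)) := by
    have h1 : Q.card = (2 * B + 1).toNat * (2 * B + 1).toNat := by
      rw [hQ, Finset.card_product, Int.card_Icc]
      congr 2 <;> omega
    have h2 : (((2 * B + 1).toNat : ℕ) : ℝ) ≤ 2 ^ (3 * n + 2) := by
      have h3 : (((2 * B + 1).toNat : ℕ) : ℝ) = ((2 * B + 1 : ℤ) : ℝ) := by
        have : (((2 * B + 1).toNat : ℕ) : ℤ) = 2 * B + 1 := Int.toNat_of_nonneg (by linarith)
        exact_mod_cast this
      rw [h3]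
      have h4 : (B : ℝ) ≤ 2 ^ (3 * n) := by
        rw [hB]
        push_cast
        calc (2 : ℝ) ^ d * 4 ^ n ≤ 2 ^ n * 4 ^ n := by
              gcongr
              norm_num
          _ = 2 ^ (3 * n) := by
              rw [show (4:ℝ) = 2 ^ 2 by norm_num, ← pow_mul, ← pow_add]
              congr 1
              ring
      have h5 : (1 : ℝ) ≤ 2 ^ (3 * n) := one_le_pow₀ (by norm_num)
      push_cast
      rw [pow_add]
      linarith
    rw [h1]
    push_cast
    calc (((2 * B + 1).toNat : ℕ) : ℝ) * (((2 * B + 1).toNat : ℕ) : ℝ)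
        ≤ 2 ^ (3 * n + 2) * 2 ^ (3 * n + 2) := by gcongr
      _ = 2 ^ (6 * n + 4) := by rw [← pow_add]; congr 1; ring
      _ ≤ 2 ^ (20 * (n + 1)) := by
          apply pow_le_pow_right₀ (by norm_num)
          omega
  have key := h n d hd (c.sys hφ hCφ hK) Q hcard m hm hmM
  have e1 : ∀ x, ∑ l ∈ Finset.range (m x), Fl φ (2 ^ d) u₀ g E l x =
      ∑ l ∈ Finset.range (m x), ∑ k ∈ Ks (2 ^ d), (c.sys hφ hCφ hK).F l k x := by
    intro x
    exact Finset.sum_congr rfl fun l _ => Fl_eq c hφ l x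
  set f : ℝ × ℝ → ℝ := fun x => ‖∑ l ∈ Finset.range (m x), Fl φ (2 ^ d) u₀ g E l x‖ ^ 2 with hf
  have hfm : Measurable f := by
    have h1 : ∀ x, ∑ l ∈ Finset.range (m x), Fl φ (2 ^ d) u₀ g E l x =
        ∑ l ∈ Finset.range (64 * 4 ^ n), if l < m x then Fl φ (2 ^ d) u₀ g E l x else 0 := by
      intro x
      rw [← Finset.sum_filter]
      congr 1
      ext l
      simp only [Finset.mem_range, Finset.mem_filter]
      constructor
      · intro hl
        exact ⟨lt_of_lt_of_le hl (hmM x), hl⟩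
      · exact fun hl => hl.2
    have h2 : f = fun x => ‖∑ l ∈ Finset.range (64 * 4 ^ n),
        if l < m x then Fl φ (2 ^ d) u₀ g E l x else 0‖ ^ 2 := by
      funext x
      simp only [hf]
      rw [h1]
    rw [h2]
    apply Measurable.pow_const
    apply Measurable.norm
    apply Finset.measurable_sum
    intro l _
    apply Measurable.ite
    · exact measurableSet_lt measurable_const hm
    · exact (Fl_cont c hφ l).measurable
    · exact measurable_const
  have hf0 : ∀ x, 0 ≤ f x := fun x => by positivity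
  -- bound of f
  have hfb : ∃ K : ℝ, ∀ x, f x ≤ K := by
    have hb : ∀ l k, ∃ C : ℝ, 0 ≤ C ∧ ∀ x, ‖c.F l k x‖ ≤ C := fun l k => (c.F_band hφ l k).bdd
    choose Cb hCb0 hCb using hb
    refine ⟨(∑ l ∈ Finset.range (64 * 4 ^ n), ∑ k ∈ Ks (2 ^ d), Cb l k) ^ 2, fun x => ?_⟩
    simp only [hf]
    gcongr
    refine (norm_sum_le _ _).trans ?_
    have h1 : ∀ l ∈ Finset.range (m x), ‖Fl φ (2 ^ d) u₀ g E l x‖ ≤ ∑ k ∈ Ks (2 ^ d), Cb l k := by
      intro l _
      have := Fl_eq c hφ l x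
      simp only [hc] at this
      rw [this]
      exact (norm_sum_le _ _).trans (Finset.sum_le_sum fun k _ => hCb l k x)
    refine (Finset.sum_le_sum h1).trans ?_
    apply Finset.sum_le_sum_of_subset_of_nonneg
    · intro l hl
      rw [Finset.mem_range] at hl ⊢
      exact lt_of_lt_of_le hl (hmM x)
    · intro l _ _
      exact Finset.sum_nonneg fun k _ => hCb0 l k
  obtain ⟨K, hK'⟩ := hfb
  have hD : 1 ≤ 2 ^ d := one_le_pow2 d
  have hcell_int : ∀ q, IntegrableOn f (cell (2 ^ d) q) := by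
    intro q
    apply Measure.integrableOn_of_bounded (M := K)
    · rw [(nk_cell_vol (2 ^ d) hD q).1]
      exact ENNReal.ofReal_ne_top
    · exact hfm.aestronglyMeasurable
    · exact Filter.Eventually.of_forall fun x => by
        rw [Real.norm_of_nonneg (hf0 x)]
        exact hK' x
  have hmem : ∀ x ∈ Sq (4 ^ n), ∃ q ∈ Q, x ∈ cell (2 ^ d) q := by
    intro x hx
    refine ⟨(⌊((2 ^ d : ℕ) : ℝ) * x.1⌋, ⌊((2 ^ d : ℕ) : ℝ) * x.2⌋), ?_, ?_⟩
    · have hb : ∀ t : ℝ, |t| ≤ 4 ^ n → -B ≤ ⌊((2 ^ d : ℕ) : ℝ) * t⌋ ∧ ⌊((2 ^ d : ℕ) : ℝ) * t⌋ ≤ B := by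
        intro t ht
        rw [abs_le] at ht
        have hD0 : (0 : ℝ) < ((2 ^ d : ℕ) : ℝ) := by positivity
        constructor
        · rw [Int.le_floor, hB]
          push_cast
          have := mul_le_mul_of_nonneg_left ht.1 (twod_pos d).le
          linarith
        · have h1 : ((2 ^ d : ℕ) : ℝ) * t < ((B + 1 : ℤ) : ℝ) := by
            rw [hB]
            push_cast
            have := mul_le_mul_of_nonneg_left ht.2 (twod_pos d).le
            linarith
          have := Int.floor_lt.2 h1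
          omega
      rw [hQ, Finset.mem_product, Finset.mem_Icc, Finset.mem_Icc]
      exact ⟨hb x.1 hx.1, hb x.2 hx.2⟩
    · refine ⟨Int.floor_le _, Int.lt_floor_add_one _, Int.floor_le _, Int.lt_floor_add_one _⟩
  have hle : ∫ x in Sq (4 ^ n), f x ≤ ∑ q ∈ Q, ∫ x in cell (2 ^ d) q, f x := by
    have hms : ∀ q, MeasurableSet (cell (2 ^ d) q) := fun q => (nk_cell_vol (2 ^ d) hD q).2
    rw [← integral_indicator (Sq_meas _)]
    have h1 : ∑ q ∈ Q, ∫ x in cell (2 ^ d) q, f x =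
        ∫ x, ∑ q ∈ Q, (cell (2 ^ d) q).indicator f x := by
      rw [integral_finsetSum _ fun q _ => (hcell_int q).integrable_indicator (hms q)]
      exact Finset.sum_congr rfl fun q _ => (integral_indicator (hms q)).symm
    rw [h1]
    apply integral_mono_of_nonneg (Filter.Eventually.of_forall fun x =>
      Set.indicator_nonneg (fun y _ => hf0 y) x)
      (integrable_finsetSum _ fun q _ => (hcell_int q).integrable_indicator (hms q))
    refine Filter.Eventually.of_forall fun x => ?_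
    simp only
    by_cases hx : x ∈ Sq (4 ^ n)
    · rw [Set.indicator_of_mem hx]
      obtain ⟨q, hq, hxq⟩ := hmem x hx
      calc f x = (cell (2 ^ d) q).indicator f x := (Set.indicator_of_mem hxq f).symm
        _ ≤ _ := Finset.single_le_sum (f := fun q => (cell (2 ^ d) q).indicator f x)
          (fun q _ => Set.indicator_nonneg (fun y _ => hf0 y) x) hq
    · rw [Set.indicator_of_notMem hx]
      exact Finset.sum_nonneg fun q _ => Set.indicator_nonneg (fun y _ => hf0 y) x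
  refine hle.trans ?_
  simp only [hf, e1]
  exact key

end

end Pool.Agent.Helper32.KS
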