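import Pool.Agent.Helper32.KS.Dual2

/-!
# The wave packet system of a configuration, and the key proposition (helper32)
-/

set_option autoImplicit false

open MeasureTheory
open scoped BigOperators Real ContDiff

namespace Pool.Agent.Helper32.KS

noncomputable section

variable {φ : ℝ → ℝ} {d : ℕ}

/-- the dual function of window `l` -/
def Cfg.G (c : Cfg φ d) (l : ℕ) (S : Finset (ℤ × (ℤ × ℤ))) (x : ℝ × ℝ) : ℂ :=
  ∑ k ∈ Ks (2 ^ d), c.Gk l k (fib S k) x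

lemma Cfg.G_cont (c : Cfg φ d) (hφ : Win φ) (l : ℕ) (S : Finset (ℤ × (ℤ × ℤ))) :
    Continuous (c.G l S) :=
  continuous_finsetSum _ fun k _ => (c.Gk_band hφ l k (fib S k)).cont

lemma Cfg.A5a (c : Cfg φ d) (hφ : Win φ) (l : ℕ) (S : Finset (ℤ × (ℤ × ℤ)))
    (hS : ∀ P ∈ S, P.1 ∈ Ks (2 ^ d)) :
    ∑ P ∈ S, c.mu P.1 P.2 l ≤ ∫ x in c.E l, ‖c.g x‖ * ‖c.G l S x‖ := by
  have hgb := c.hg.indicator (c.hE l)
  have h1 : ((∑ P ∈ S, c.mu P.1 P.2 l : ℝ) : ℂ) =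
      ∫ x, (c.E l).indicator c.g x * starRingEnd ℂ (c.G l S x) := by
    rw [sum_fib S (Ks (2 ^ d)) hS (fun k T => c.mu k T l)]
    have e1 : ∀ k ∈ Ks (2 ^ d), ((∑ T ∈ fib S k, c.mu k T l : ℝ) : ℂ) =
        ∫ x, (c.E l).indicator c.g x * starRingEnd ℂ (c.Gk l k (fib S k) x) := by
      intro k _
      rw [c.duality hφ l k (fib S k)]
      congr 1
      have : ∀ x, c.W k (fib S k) x * ‖c.F l k x‖ ^ 2 =
          ∑ T ∈ fib S k, tileH 12 (2 ^ d) k T x * ‖c.F l k x‖ ^ 2 := by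
        intro x
        unfold Cfg.W
        rw [Finset.sum_mul]
      simp_rw [this]
      rw [integral_finsetSum _ fun T _ => tileH_int (c.F_band hφ l k) 12 (2 ^ d) k T]
      rfl
    push_cast at e1 ⊢
    rw [Finset.sum_congr rfl e1, ← integral_finsetSum]
    · congr 1
      funext x
      unfold Cfg.G
      rw [map_sum, Finset.mul_sum]
    · intro k _
      obtain ⟨C, hC0, hC⟩ := (c.Gk_band hφ l k (fib S k)).bdd
      refine (hgb.integrable.norm.mul_const C).mono' ?_ (Filter.Eventually.of_forall fun x => ?_)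
      · exact hgb.integrable.aestronglyMeasurable.mul
          (Complex.continuous_conj.comp (c.Gk_band hφ l k (fib S k)).cont).aestronglyMeasurable
      · rw [norm_mul, RCLike.norm_conj]
        exact mul_le_mul_of_nonneg_left (hC x) (norm_nonneg _)
  have h2 : ‖((∑ P ∈ S, c.mu P.1 P.2 l : ℝ) : ℂ)‖ = ∑ P ∈ S, c.mu P.1 P.2 l := by
    rw [Complex.norm_real, Real.norm_of_nonneg]
    exact Finset.sum_nonneg fun P _ => c.mu_nonneg _ _ _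
  rw [← h2, h1]
  refine (norm_integral_le_integral_norm _).trans (le_of_eq ?_)
  rw [← integral_indicator (c.hE l)]
  congr 1
  funext x
  by_cases hx : x ∈ c.E l
  · rw [Set.indicator_of_mem hx, Set.indicator_of_mem hx, norm_mul, RCLike.norm_conj]
  · rw [Set.indicator_of_notMem hx, Set.indicator_of_notMem hx, zero_mul, norm_zero]

lemma Cfg.A5b (c : Cfg φ d) (hφ : Win φ) {CK : ℝ} (hK : KerB φ CK) (l : ℕ)
    (S : Finset (ℤ × (ℤ × ℤ))) (hS : ∀ P ∈ S, P.1 ∈ Ks (2 ^ d)) (q : ℤ × ℤ) :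
    ∫ x in cell (2 ^ d) q, ‖c.G l S x‖ ^ 2 ≤
      (2 ^ 56 * 507 * (CK ^ 2 * (256 * nkc ^ 2)) * ((9 ^ 14 * 9 ^ 14 * 9 ^ 6) * nkc ^ 2)) / 2 ^ d *
        ∑ P ∈ S, c.mu' P.1 P.2 l * cw (2 ^ d) P.1 6 q P.2 := by
  have h1 := cell_orth (one_le_pow2 d) q (Ks (2 ^ d)) (fun k => c.Gk l k (fib S k))
    (fun k _ => by
      have := c.Gk_band hφ l k (fib S k)
      rw [cast_pow2]
      exact this.mono fun ξ hξ => hξ.1)
  have h2 : ∀ k ∈ Ks (2 ^ d), ∫ x, cellW ((2 ^ d : ℕ) : ℝ) q x * ‖c.Gk l k (fib S k) x‖ ^ 2 ≤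
      (CK ^ 2 * (256 * nkc ^ 2)) * ∑ T ∈ fib S k, c.mu' k T l *
        ((9 ^ 14 * 9 ^ 14 * 9 ^ 6) * nkc ^ 2 / (2 ^ d : ℕ) * cw (2 ^ d) k 6 q T) := by
    intro k hk
    have hi : ∀ T ∈ fib S k, Integrable fun x =>
        c.mu' k T l * (cellW ((2 ^ d : ℕ) : ℝ) q x * wk (2 ^ d) k 6 (x - xT (2 ^ d) k T)) :=
      fun T _ => ((cell_wk (one_le_pow2 d) hk T q).1).const_mul _
    calc ∫ x, cellW ((2 ^ d : ℕ) : ℝ) q x * ‖c.Gk l k (fib S k) x‖ ^ 2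
        ≤ ∫ x, (CK ^ 2 * (256 * nkc ^ 2)) * ∑ T ∈ fib S k,
          c.mu' k T l * (cellW ((2 ^ d : ℕ) : ℝ) q x * wk (2 ^ d) k 6 (x - xT (2 ^ d) k T)) := by
          apply integral_mono (cellW_int (c.Gk_band hφ l k (fib S k)) _ q)
            ((integrable_finsetSum _ hi).const_mul _)
          intro x
          simp only
          have := c.G_pt hφ hK l hk (fib S k) x
          calc cellW ((2 ^ d : ℕ) : ℝ) q x * ‖c.Gk l k (fib S k) x‖ ^ 2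
              ≤ cellW ((2 ^ d : ℕ) : ℝ) q x * ((CK ^ 2 * (256 * nkc ^ 2)) *
                ∑ T ∈ fib S k, c.mu' k T l * wk (2 ^ d) k 6 (x - xT (2 ^ d) k T)) := by
                gcongr
                exact cellW_nonneg _ q x
            _ = _ := by
                rw [mul_left_comm]
                congr 1
                rw [Finset.mul_sum]
                refine Finset.sum_congr rfl fun T _ => ?_
                ring
      _ = (CK ^ 2 * (256 * nkc ^ 2)) * ∑ T ∈ fib S k, c.mu' k T l *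
          ∫ x, cellW ((2 ^ d : ℕ) : ℝ) q x * wk (2 ^ d) k 6 (x - xT (2 ^ d) k T) := by
          rw [integral_const_mul, integral_finsetSum _ hi]
          congr 1
          refine Finset.sum_congr rfl fun T _ => ?_
          rw [integral_const_mul]
      _ ≤ _ := by
          apply mul_le_mul_of_nonneg_left _ (by positivity)
          refine Finset.sum_le_sum fun T _ => ?_
          exact mul_le_mul_of_nonneg_left (cell_wk (one_le_pow2 d) hk T q).2 (c.mu'_nonneg _ _ _)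
  refine h1.trans ?_
  refine (mul_le_mul_of_nonneg_left (Finset.sum_le_sum h2) (by norm_num)).trans (le_of_eq ?_)
  rw [sum_fib S (Ks (2 ^ d)) hS (fun k T => c.mu' k T l * cw (2 ^ d) k 6 q T)]
  rw [Finset.mul_sum, Finset.mul_sum]
  refine Finset.sum_congr rfl fun k _ => ?_
  rw [Finset.mul_sum, Finset.mul_sum, Finset.mul_sum]
  refine Finset.sum_congr rfl fun T _ => ?_
  rw [cast_pow2]
  generalize c.mu' k T l = m
  generalize cw (2 ^ d) k 6 q T = w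
  generalize (2 : ℝ) ^ 56 * 507 = a1
  generalize (9 : ℝ) ^ 14 * 9 ^ 14 * 9 ^ 6 = a2
  ring

lemma Cfg.A5c (c : Cfg φ d) (hφ : Win φ) {CK : ℝ} (hK : KerB φ CK) (l : ℕ)
    (S : Finset (ℤ × (ℤ × ℤ))) (hS : ∀ P ∈ S, P.1 ∈ Ks (2 ^ d)) :
    Integrable (fun x => ‖c.G l S x‖ ^ 4) ∧
    ∫ x, ‖c.G l S x‖ ^ 4 ≤ (7880450 * (CK ^ 2 * (256 * nkc ^ 2)) ^ 2) *
      ∑ P ∈ S, ∑ P' ∈ S, c.mu' P.1 P.2 l * c.mu' P'.1 P'.2 l *
        ∫ y : ℝ × ℝ, wk (2 ^ d) P.1 4 (y - xT (2 ^ d) P.1 P.2) *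
          wk (2 ^ d) P'.1 4 (y - xT (2 ^ d) P'.1 P'.2) := by
  obtain ⟨KC, hKC1, hKC⟩ := kbound
  have hD1 : (1 : ℝ) ≤ 2 ^ d := one_le_pow₀ (by norm_num)
  obtain ⟨h1, h2, h3⟩ := cf_ineq hD1 l (Ks (2 ^ d)) (fun k => c.Gk l k (fib S k))
    (fun k _ => c.Gk_band hφ l k (fib S k))
  refine ⟨h1, h3.trans ?_⟩
  rw [mul_assoc]
  apply mul_le_mul_of_nonneg_left _ (by norm_num)
  -- pointwise
  set C1 := CK ^ 2 * (256 * nkc ^ 2) with hC1
  have hC10 : 0 ≤ C1 := by positivity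
  have hpt : ∀ x, ∑ k ∈ Ks (2 ^ d), ‖c.Gk l k (fib S k) x‖ ^ 2 ≤
      C1 * ∑ P ∈ S, c.mu' P.1 P.2 l * wk (2 ^ d) P.1 4 (x - xT (2 ^ d) P.1 P.2) := by
    intro x
    rw [sum_fib S (Ks (2 ^ d)) hS
      (fun k T => c.mu' k T l * wk (2 ^ d) k 4 (x - xT (2 ^ d) k T)), Finset.mul_sum]
    refine Finset.sum_le_sum fun k hk => ?_
    refine (c.G_pt hφ hK l hk (fib S k) x).trans ?_
    apply mul_le_mul_of_nonneg_left _ hC10
    refine Finset.sum_le_sum fun T _ => ?_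
    apply mul_le_mul_of_nonneg_left _ (c.mu'_nonneg _ _ _)
    unfold wk
    have a1 := hw_anti (show 4 ≤ 6 by norm_num) (x - xT (2 ^ d) k T).1
    have a2 := hw_anti (show 4 ≤ 6 by norm_num)
      (((2 ^ d : ℕ) : ℝ) * (x - xT (2 ^ d) k T).2 - k * (x - xT (2 ^ d) k T).1)
    have a3 := hw_nonneg 6 (((2 ^ d : ℕ) : ℝ) * (x - xT (2 ^ d) k T).2 -
      k * (x - xT (2 ^ d) k T).1)
    have a4 := hw_nonneg 4 (x - xT (2 ^ d) k T).1
    gcongr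
  have hexp : ∀ x, (∑ P ∈ S, c.mu' P.1 P.2 l * wk (2 ^ d) P.1 4 (x - xT (2 ^ d) P.1 P.2)) ^ 2 =
      ∑ P ∈ S, ∑ P' ∈ S, (c.mu' P.1 P.2 l * c.mu' P'.1 P'.2 l) *
        (wk (2 ^ d) P.1 4 (x - xT (2 ^ d) P.1 P.2) *
          wk (2 ^ d) P'.1 4 (x - xT (2 ^ d) P'.1 P'.2)) := by
    intro x
    rw [sq, Finset.sum_mul_sum]
    refine Finset.sum_congr rfl fun P _ => Finset.sum_congr rfl fun P' _ => ?_
    ring
  have hi : ∀ P ∈ S, ∀ P' ∈ S, Integrable fun x : ℝ × ℝ => (c.mu' P.1 P.2 l * c.mu' P'.1 P'.2 l) *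
        (wk (2 ^ d) P.1 4 (x - xT (2 ^ d) P.1 P.2) *
          wk (2 ^ d) P'.1 4 (x - xT (2 ^ d) P'.1 P'.2)) := by
    intro P hP P' hP'
    exact (hKC (2 ^ d) (one_le_pow2 d) P.1 (hS P hP) P'.1 (hS P' hP') _ _).1.const_mul _
  have hi2 : Integrable fun x => (∑ P ∈ S, c.mu' P.1 P.2 l *
      wk (2 ^ d) P.1 4 (x - xT (2 ^ d) P.1 P.2)) ^ 2 := by
    simp_rw [hexp]
    exact integrable_finsetSum _ fun P hP => integrable_finsetSum _ fun P' hP' => hi P hP P' hP'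
  calc ∫ x, (∑ k ∈ Ks (2 ^ d), ‖c.Gk l k (fib S k) x‖ ^ 2) ^ 2
      ≤ ∫ x, C1 ^ 2 * (∑ P ∈ S, c.mu' P.1 P.2 l *
        wk (2 ^ d) P.1 4 (x - xT (2 ^ d) P.1 P.2)) ^ 2 := by
        apply integral_mono h2 (hi2.const_mul _)
        intro x
        simp only
        rw [← mul_pow]
        have := hpt x
        have h0 : 0 ≤ ∑ k ∈ Ks (2 ^ d), ‖c.Gk l k (fib S k) x‖ ^ 2 :=
          Finset.sum_nonneg fun _ _ => by positivity
        gcongr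
    _ = C1 ^ 2 * ∑ P ∈ S, ∑ P' ∈ S, c.mu' P.1 P.2 l * c.mu' P'.1 P'.2 l *
        ∫ y : ℝ × ℝ, wk (2 ^ d) P.1 4 (y - xT (2 ^ d) P.1 P.2) *
          wk (2 ^ d) P'.1 4 (y - xT (2 ^ d) P'.1 P'.2) := by
        rw [integral_const_mul]
        congr 1
        simp_rw [hexp]
        rw [integral_finsetSum _ fun P hP => integrable_finsetSum _ fun P' hP' => hi P hP P' hP']
        refine Finset.sum_congr rfl fun P hP => ?_
        rw [integral_finsetSum _ fun P' hP' => hi P hP P' hP']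
        refine Finset.sum_congr rfl fun P' hP' => ?_
        rw [integral_const_mul]

/-- the constant of the system -/
def sysC (Cφ CK : ℝ) : ℝ :=
  1 + 2 ^ 56 * 507 +
  ((9 ^ 14 * 9 ^ 14 * 20 ^ 14 * 16) * (4 * 25 ^ 6 * 25 ^ 6 * 13000 * 9 ^ 6 * 9 ^ 6)) +
  ((4 * 2803 * 25303 * 4 ^ 12) * (9 ^ 14 * 9 ^ 14 * 20 ^ 12) * nkc ^ 2) +
  256 * (3 * Cφ ^ 2) +
  (2 ^ 56 * 507 * (CK ^ 2 * (256 * nkc ^ 2)) * ((9 ^ 14 * 9 ^ 14 * 9 ^ 6) * nkc ^ 2)) +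
  (7880450 * (CK ^ 2 * (256 * nkc ^ 2)) ^ 2)

lemma le_sysC_aux {a b c' e' f g' : ℝ} (h1 : 0 ≤ a) (h2 : 0 ≤ b) (h3 : 0 ≤ c') (h4 : 0 ≤ e')
    (h5 : 0 ≤ f) (h6 : 0 ≤ g') :
    (1 ≤ 1 + a + b + c' + e' + f + g') ∧ (a ≤ 1 + a + b + c' + e' + f + g') ∧
    (b ≤ 1 + a + b + c' + e' + f + g') ∧ (c' ≤ 1 + a + b + c' + e' + f + g') ∧
    (e' ≤ 1 + a + b + c' + e' + f + g') ∧ (f ≤ 1 + a + b + c' + e' + f + g') ∧
    (g' ≤ 1 + a + b + c' + e' + f + g') := by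
  refine ⟨?_, ?_, ?_, ?_, ?_, ?_, ?_⟩ <;> linarith

lemma le_sysC (Cφ CK : ℝ) :
    (1 ≤ sysC Cφ CK) ∧ (2 ^ 56 * 507 ≤ sysC Cφ CK) ∧
    ((9 ^ 14 * 9 ^ 14 * 20 ^ 14 * 16) * (4 * 25 ^ 6 * 25 ^ 6 * 13000 * 9 ^ 6 * 9 ^ 6)
      ≤ sysC Cφ CK) ∧
    ((4 * 2803 * 25303 * 4 ^ 12) * (9 ^ 14 * 9 ^ 14 * 20 ^ 12) * nkc ^ 2 ≤ sysC Cφ CK) ∧
    (256 * (3 * Cφ ^ 2) ≤ sysC Cφ CK) ∧
    (2 ^ 56 * 507 * (CK ^ 2 * (256 * nkc ^ 2)) * ((9 ^ 14 * 9 ^ 14 * 9 ^ 6) * nkc ^ 2)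
      ≤ sysC Cφ CK) ∧
    (7880450 * (CK ^ 2 * (256 * nkc ^ 2)) ^ 2 ≤ sysC Cφ CK) := by
  have h1 : (0:ℝ) ≤ 2 ^ 56 * 507 := by positivity
  have h2 : (0:ℝ) ≤ (9 ^ 14 * 9 ^ 14 * 20 ^ 14 * 16) *
    (4 * 25 ^ 6 * 25 ^ 6 * 13000 * 9 ^ 6 * 9 ^ 6) := by positivity
  have h3 : (0:ℝ) ≤ (4 * 2803 * 25303 * 4 ^ 12) * (9 ^ 14 * 9 ^ 14 * 20 ^ 12) * nkc ^ 2 := by
    positivity
  have h4 : (0:ℝ) ≤ 256 * (3 * Cφ ^ 2) := by positivity
  have h5 : (0:ℝ) ≤ 2 ^ 56 * 507 * (CK ^ 2 * (256 * nkc ^ 2)) *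
    ((9 ^ 14 * 9 ^ 14 * 9 ^ 6) * nkc ^ 2) := by
    apply mul_nonneg
    · apply mul_nonneg
      · norm_num
      · exact mul_nonneg (sq_nonneg _) (mul_nonneg (by norm_num) (sq_nonneg _))
    · exact mul_nonneg (by norm_num) (sq_nonneg _)
  have h6 : (0:ℝ) ≤ 7880450 * (CK ^ 2 * (256 * nkc ^ 2)) ^ 2 :=
    mul_nonneg (by norm_num) (sq_nonneg _)
  unfold sysC
  exact le_sysC_aux h1 h2 h3 h4 h5 h6

/-- **the wave packet system** -/
def Cfg.sys (c : Cfg φ d) (hφ : Win φ) {Cφ : ℝ} (hC : ∀ s, |φ s| ≤ Cφ) {CK : ℝ}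
    (hK : KerB φ CK) : Sys (sysC Cφ CK) d where
  F := c.F
  g := c.g
  E := c.E
  μ := c.mu
  μ' := c.mu'
  cm := fun q k A => ∫ x, cellW (2 ^ d) q x * ‖∑ l ∈ A, c.F l k x‖ ^ 2
  hC := (le_sysC Cφ CK).1
  Fcont := fun l k => (c.F_band hφ l k).cont
  gbcs := c.hg
  Emeas := c.hE
  Edisj := c.hEd
  μ_nonneg := c.mu_nonneg
  μ_le := c.mu_le hφ
  cm_nonneg := fun q k A => integral_nonneg fun x => mul_nonneg (cellW_nonneg _ _ _) (by positivity)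
  A1 := by
    intro q A
    have hB : ∀ k ∈ Ks (2 ^ d), Band (Sk ((2 ^ d : ℕ) : ℝ) k) (fun x => ∑ l ∈ A k, c.F l k x) := by
      intro k _
      apply Band.sum
      intro l _
      have := c.F_band hφ l k
      rw [cast_pow2]
      exact this.mono fun ξ hξ => hξ.1
    have h1 := cell_orth (one_le_pow2 d) q (Ks (2 ^ d)) (fun k x => ∑ l ∈ A k, c.F l k x) hB
    rw [cast_pow2] at h1
    refine h1.trans ?_
    apply mul_le_mul_of_nonneg_right (le_sysC Cφ CK).2.1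
    exact Finset.sum_nonneg fun k _ => integral_nonneg fun x =>
      mul_nonneg (cellW_nonneg _ _ _) (by positivity)
  A2 := by
    intro k hk T A
    have hF : ∀ l, Band (Slk ((2 ^ d : ℕ) : ℝ) c.u₀ l k) (c.F l k) := by
      intro l
      rw [cast_pow2]
      exact c.F_band hφ l k
    have hs : Band (⋃ l ∈ A, Slk ((2 ^ d : ℕ) : ℝ) c.u₀ l k) (fun x => ∑ l ∈ A, c.F l k x) := by
      apply Band.sum
      intro l hl
      refine (hF l).mono ?_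
      intro ξ hξ
      simp only [Set.mem_iUnion]
      exact ⟨l, hl, hξ⟩
    have h1 := tile_orth (one_le_pow2 d) hk T A (fun l => c.F l k) fun l _ => hF l
    have h2 : ∑ q ∈ cells (2 ^ d) k T, ∫ x, cellW (2 ^ d) q x * ‖∑ l ∈ A, c.F l k x‖ ^ 2 ≤
        (9 ^ 14 * 9 ^ 14 * 20 ^ 14 * 16) *
          ∫ x, tileH 12 (2 ^ d) k T x * ‖∑ l ∈ A, c.F l k x‖ ^ 2 := by
      rw [← integral_finsetSum _ fun q _ => cellW_int hs (2 ^ d) q, ← integral_const_mul]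
      apply integral_mono (integrable_finsetSum _ fun q _ => cellW_int hs (2 ^ d) q)
        ((tileH_int hs 12 (2 ^ d) k T).const_mul _)
      intro x
      simp only
      rw [← Finset.sum_mul, ← mul_assoc]
      have := sum_cellW (one_le_pow2 d) hk T x
      rw [cast_pow2] at this
      gcongr
    rw [cast_pow2] at h1
    have h3 : 0 ≤ ∑ l ∈ A, c.mu k T l := Finset.sum_nonneg fun l _ => c.mu_nonneg _ _ _
    calc ∑ q ∈ cells (2 ^ d) k T, ∫ x, cellW (2 ^ d) q x * ‖∑ l ∈ A, c.F l k x‖ ^ 2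
        ≤ (9 ^ 14 * 9 ^ 14 * 20 ^ 14 * 16) *
          ∫ x, tileH 12 (2 ^ d) k T x * ‖∑ l ∈ A, c.F l k x‖ ^ 2 := h2
      _ ≤ (9 ^ 14 * 9 ^ 14 * 20 ^ 14 * 16) *
          ((4 * 25 ^ 6 * 25 ^ 6 * 13000 * 9 ^ 6 * 9 ^ 6) * ∑ l ∈ A, c.mu k T l) :=
          mul_le_mul_of_nonneg_left h1 (by norm_num)
      _ = ((9 ^ 14 * 9 ^ 14 * 20 ^ 14 * 16) *
          (4 * 25 ^ 6 * 25 ^ 6 * 13000 * 9 ^ 6 * 9 ^ 6)) * ∑ l ∈ A, c.mu k T l :=
          (mul_assoc _ _ _).symm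
      _ ≤ _ := mul_le_mul_of_nonneg_right (le_sysC Cφ CK).2.2.1 h3
  A3 := by
    intro k hk q l
    have hF : Band (Slk ((2 ^ d : ℕ) : ℝ) c.u₀ l k) (c.F l k) := by
      rw [cast_pow2]
      exact c.F_band hφ l k
    have h1 := cell_mass_le (one_le_pow2 d) hk hF q
    rw [cast_pow2] at h1
    simp only [Finset.sum_singleton]
    refine h1.trans ?_
    have h3 := c.mu_nonneg k (tile (2 ^ d) k q) l
    apply mul_le_mul_of_nonneg_right _ h3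
    exact div_le_div_of_nonneg_right (le_sysC Cφ CK).2.2.2.1 (by positivity)
  A3' := by
    intro k _ q I A hd
    apply cell_cs (S := Sk (2 ^ d) k) _ _ _ _ _ hd
    intro l
    exact (c.F_band hφ l k).mono fun ξ hξ => hξ.1
  A4 := by
    intro l S _
    refine (c.total_mass hφ hC l (2 ^ d) S).trans ?_
    apply mul_le_mul_of_nonneg_right (le_sysC Cφ CK).2.2.2.2.1
    exact integral_nonneg fun x => by positivity
  A5 := by
    intro l S hS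
    refine ⟨c.G l S, c.G_cont hφ l S, c.A5a hφ l S hS, fun q => ?_, (c.A5c hφ hK l S hS).1, ?_⟩
    · refine (c.A5b hφ hK l S hS q).trans ?_
      apply mul_le_mul_of_nonneg_right
      · exact div_le_div_of_nonneg_right (le_sysC Cφ CK).2.2.2.2.2.1 (by positivity)
      · exact Finset.sum_nonneg fun P _ => mul_nonneg (c.mu'_nonneg _ _ _)
          (mul_nonneg (hw_nonneg _ _) (hw_nonneg _ _))
    · refine (c.A5c hφ hK l S hS).2.trans ?_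
      apply mul_le_mul_of_nonneg_right (le_sysC Cφ CK).2.2.2.2.2.2
      exact Finset.sum_nonneg fun P _ => Finset.sum_nonneg fun P' _ =>
        mul_nonneg (mul_nonneg (c.mu'_nonneg _ _ _) (c.mu'_nonneg _ _ _))
          (integral_nonneg fun y => mul_nonneg (nk_wk_nonneg _ _ _ _) (nk_wk_nonneg _ _ _ _))

end

end Pool.Agent.Helper32.KS
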