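import Pool.Agent.Helper32.KS.Wave2

/-!
# The kernels of the packets (helper64)
-/

set_option autoImplicit false

open MeasureTheory
open scoped BigOperators Real ContDiff

namespace Pool.Agent.Helper32.KS

noncomputable section

/-! ### change of variables -/

lemma kn_int_affine (h : ℝ → ℂ) (y₀ : ℝ) {D : ℝ} (hD : 0 < D) :
    ∫ t, h t = (D : ℂ) * ∫ b, h (y₀ + D * b) := by
  have h1 := Measure.integral_comp_mul_left (fun t => h (y₀ + t)) D
  rw [h1, integral_add_left_eq_self h y₀, abs_of_pos (inv_pos.2 hD), Complex.real_smul, ← mul_assoc,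
    ← Complex.ofReal_mul, mul_inv_cancel₀ hD.ne', Complex.ofReal_one, one_mul]

lemma kn_cov {F : ℝ × ℝ → ℂ} (hF : BCS F) (x₀ y₀ k : ℝ) {D : ℝ} (hD : 0 < D) :
    ∫ ξ, F ξ = (D : ℂ) * ∫ z : ℝ × ℝ, F (x₀ + z.1 - k * z.2, y₀ + D * z.2) := by
  have hG : BCS (fun z : ℝ × ℝ => F (x₀ + z.1 - k * z.2, y₀ + D * z.2)) := by
    obtain ⟨C, hC⟩ := hF.bdd
    obtain ⟨R, hR⟩ := hF.supp
    refine ⟨hF.meas.comp (by fun_prop), ⟨C, fun z => hC _⟩,
      ⟨R + |x₀| + |k| * ((R + |y₀|) / D) + (R + |y₀|) / D, fun z hz => ?_⟩⟩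
    obtain ⟨h1, h2⟩ := hR _ hz
    simp only at h1 h2
    have hR0 : 0 ≤ R := (abs_nonneg _).trans h1
    have hb : |z.2| ≤ (R + |y₀|) / D := by
      rw [le_div_iff₀ hD]
      have e1 : D * z.2 = (y₀ + D * z.2) - y₀ := by ring
      have e2 : |D * z.2| ≤ R + |y₀| := by
        rw [e1]
        exact (abs_sub _ _).trans (by linarith)
      rw [abs_mul, abs_of_pos hD] at e2
      linarith
    have hb0 : 0 ≤ (R + |y₀|) / D := by positivity
    have ha : |z.1| ≤ R + |x₀| + |k| * ((R + |y₀|) / D) := by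
      have e1 : z.1 = (x₀ + z.1 - k * z.2) - x₀ + k * z.2 := by ring
      rw [e1]
      refine (abs_add_le _ _).trans (add_le_add ((abs_sub _ _).trans (by linarith)) ?_)
      rw [abs_mul]
      exact mul_le_mul_of_nonneg_left hb (abs_nonneg k)
    have hk0 : 0 ≤ |k| * ((R + |y₀|) / D) := by positivity
    constructor
    · linarith
    · linarith [abs_nonneg x₀]
  have hFi : Integrable F (volume.prod volume) := hF.integrable
  have hGi : Integrable (fun z : ℝ × ℝ => F (x₀ + z.1 - k * z.2, y₀ + D * z.2))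
    (volume.prod volume) := hG.integrable
  rw [Measure.volume_eq_prod, integral_prod_symm _ hFi, integral_prod_symm _ hGi,
    kn_int_affine (fun t => ∫ x, F (x, t)) y₀ hD]
  congr 2
  funext b
  simp only
  have h1 := integral_add_left_eq_self (μ := (volume : Measure ℝ)) (fun x => F (x, y₀ + D * b)) (x₀ - k * b)
  rw [← h1]
  congr 1
  funext a
  congr 2
  ring

/-! ### the model function -/

/-- `1/q` cut off near zero -/
def kn_rho (q : ℝ) : ℝ := Real.smoothTransition (4 * q - 1) / q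

lemma kn_rho_eq {q : ℝ} (hq : 1 / 2 ≤ q) : kn_rho q = 1 / q := by
  unfold kn_rho
  rw [Real.smoothTransition.one_of_one_le (by linarith)]

lemma kn_rho_smooth : ContDiff ℝ ∞ kn_rho := by
  rw [contDiff_iff_contDiffAt]
  intro q
  by_cases hq : q < 1 / 4
  · have : kn_rho =ᶠ[nhds q] fun _ => 0 := by
      filter_upwards [isOpen_Iio.mem_nhds hq] with x hx
      unfold kn_rho
      rw [Real.smoothTransition.zero_of_nonpos (by
        have : x < 1 / 4 := hx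
        linarith), zero_div]
    exact contDiffAt_const.congr_of_eventuallyEq this
  · have h1 : q ≠ 0 := by
      intro h0
      rw [h0] at hq
      norm_num at hq
    unfold kn_rho
    refine ContDiffAt.div ?_ contDiffAt_id h1
    have h2 : ContDiff ℝ ∞ (fun q : ℝ => Real.smoothTransition (4 * q - 1)) :=
      Real.smoothTransition.contDiff.comp (by fun_prop)
    exact h2.contDiffAt

/-- a cut-off -/
def kn_chi (t : ℝ) : ℝ := Real.smoothTransition (30001 - t) * Real.smoothTransition (30001 + t)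

lemma kn_chi_one {t : ℝ} (h : |t| ≤ 30000) : kn_chi t = 1 := by
  unfold kn_chi
  rw [abs_le] at h
  rw [Real.smoothTransition.one_of_one_le (by linarith), Real.smoothTransition.one_of_one_le (by linarith),
    mul_one]

lemma kn_chi_supp {t : ℝ} (h : kn_chi t ≠ 0) : |t| ≤ 30001 := by
  unfold kn_chi at h
  have h1 := st_zero (left_ne_zero_of_mul h)
  have h2 := st_zero (right_ne_zero_of_mul h)
  rw [abs_le]
  constructor <;> linarith

lemma kn_chi_smooth : ContDiff ℝ ∞ kn_chi := by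
  unfold kn_chi
  exact (Real.smoothTransition.contDiff.comp (by fun_prop)).mul
    (Real.smoothTransition.contDiff.comp (by fun_prop))

lemma kn_cutA_smooth : ContDiff ℝ ∞ cutA := by
  unfold cutA
  exact (Real.smoothTransition.contDiff.comp (by fun_prop)).mul
    (Real.smoothTransition.contDiff.comp (by fun_prop))

lemma kn_cutB_smooth : ContDiff ℝ ∞ cutB := by
  unfold cutB
  exact (Real.smoothTransition.contDiff.comp (by fun_prop)).mul
    (Real.smoothTransition.contDiff.comp (by fun_prop))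

lemma kn_bet_smooth : ContDiff ℝ ∞ bet := by
  unfold bet
  exact (Real.smoothTransition.contDiff.comp (by fun_prop)).sub Real.smoothTransition.contDiff

/-- parameters `(t, x, y, w, κ, ε)` -/
abbrev KE : Type := ℝ × ℝ × ℝ × ℝ × ℝ × ℝ

/-- the model of the multiplier -/
def kn_Psi (φ : ℝ → ℝ) (p : ℝ × ℝ × KE) : ℝ :=
  φ (p.2.2.1 - p.2.2.2.1 * p.1 - p.2.2.2.2.2.1 * p.2.1 -
      ((p.2.2.2.2.2.2.2 * p.1 - p.2.2.2.2.2.2.1 * p.2.1) ^ 2 + p.2.1 ^ 2) / 2) *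
    (cutA (p.2.2.2.1 + p.2.2.2.2.2.2.2 ^ 2 * p.1 - p.2.2.2.2.2.2.1 * p.2.2.2.2.2.2.2 * p.2.1) *
      cutB (p.2.2.2.2.1 + p.2.2.2.2.2.2.2 * p.2.1)) ^ 2 *
    bet ((p.2.2.2.2.2.1 + (1 + p.2.2.2.2.2.2.1 ^ 2) * p.2.1 - p.2.2.2.2.2.2.1 * p.2.2.2.2.2.2.2 * p.1) *
      kn_rho (p.2.2.2.1 + p.2.2.2.2.2.2.2 ^ 2 * p.1 - p.2.2.2.2.2.2.1 * p.2.2.2.2.2.2.2 * p.2.1)) *
    (kn_chi p.1 * kn_chi p.2.1)

lemma kn_Psi_smooth {φ : ℝ → ℝ} (hφ : ContDiff ℝ ∞ φ) : ContDiff ℝ ∞ (kn_Psi φ) := by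
  have h1 := kn_rho_smooth
  have h2 := kn_chi_smooth
  have h3 := kn_cutA_smooth
  have h4 := kn_cutB_smooth
  have h5 := kn_bet_smooth
  unfold kn_Psi
  fun_prop

/-- the compact set of parameters -/
def kn_K : Set KE := Set.Icc 0 8 ×ˢ Set.Icc (1 / 2) 5 ×ˢ Set.Icc (-4) 4 ×ˢ Set.Icc (-5) 5 ×ˢ
  Set.Icc (-9) 9 ×ˢ Set.Icc 0 1

lemma kn_K_compact : IsCompact kn_K :=
  isCompact_Icc.prod (isCompact_Icc.prod (isCompact_Icc.prod (isCompact_Icc.prod
    (isCompact_Icc.prod isCompact_Icc))))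

lemma kn_Psi_supp (φ : ℝ → ℝ) (p : KE) (a b : ℝ) (h : kn_Psi φ (a, b, p) ≠ 0) :
    |a| ≤ 30001 ∧ |b| ≤ 30001 := by
  unfold kn_Psi at h
  have h1 := right_ne_zero_of_mul h
  exact ⟨kn_chi_supp (left_ne_zero_of_mul h1), kn_chi_supp (right_ne_zero_of_mul h1)⟩

/-- the model at the actual parameters -/
lemma kn_model {φ : ℝ → ℝ} (hφ : Win φ) {D u₀ : ℝ} (hD : 1 ≤ D) {l : ℕ} {k : ℤ} (hk : |(k : ℝ)| ≤ 9 * D)
    {η : ℝ × ℝ} (hη : η ∈ Slk D u₀ l k) (a b : ℝ) :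
    mulk φ D u₀ l k (η.1 + a - k * b, η.2 + D * b) =
      kn_Psi φ (a, b, (l + u₀ - pp D η, η.1 / D ^ 2, η.2 / D ^ 2, (D * η.2 - k * η.1) / D ^ 2, k / D, 1 / D)) := by
  have hD0 : 0 < D := by linarith
  have hD2 : 0 < D ^ 2 := by positivity
  set ξ : ℝ × ℝ := (η.1 + a - k * b, η.2 + D * b) with hξ
  have hx1 : ξ.1 = η.1 + a - k * b := rfl
  have hx2 : ξ.2 = η.2 + D * b := rfl
  -- the arguments
  have e1 : (l + u₀ - pp D η) - η.1 / D ^ 2 * a - (D * η.2 - k * η.1) / D ^ 2 * b -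
      ((1 / D * a - k / D * b) ^ 2 + b ^ 2) / 2 = l + u₀ - pp D ξ := by
    unfold pp
    rw [hx1, hx2]
    field_simp
    ring
  have e2 : η.1 / D ^ 2 + (1 / D) ^ 2 * a - k / D * (1 / D) * b = ξ.1 / D ^ 2 := by
    rw [hx1]
    field_simp
  have e3 : η.2 / D ^ 2 + 1 / D * b = ξ.2 / D ^ 2 := by
    rw [hx2]
    field_simp
  have e4 : (D * η.2 - k * η.1) / D ^ 2 + (1 + (k / D : ℝ) ^ 2) * b - k / D * (1 / D) * a =
      (D * ξ.2 - k * ξ.1) / D ^ 2 := by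
    rw [hx1, hx2]
    field_simp
    ring
  unfold kn_Psi
  simp only
  rw [e1, e2, e3, e4]
  have hcut : cutA (ξ.1 / D ^ 2) * cutB (ξ.2 / D ^ 2) = cut D ξ := rfl
  rw [hcut]
  by_cases hc : cut D ξ = 0
  · unfold mulk mulw
    rw [hc]
    ring
  · have hs := cut_supp hD0 hc
    have hξ1 : 0 < ξ.1 := lt_trans (by positivity) hs.1
    have hq : 1 / 2 ≤ ξ.1 / D ^ 2 := by
      rw [le_div_iff₀ hD2]
      linarith [hs.1]
    have e5 : (D * ξ.2 - k * ξ.1) / D ^ 2 * kn_rho (ξ.1 / D ^ 2) = D * ξ.2 / ξ.1 - k := by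
      rw [kn_rho_eq hq]
      field_simp
    rw [e5]
    have e6 : φ (l + u₀ - pp D ξ) * cut D ξ ^ 2 * bet (D * ξ.2 / ξ.1 - k) = mulk φ D u₀ l k ξ := rfl
    rw [e6]
    by_cases hm : mulk φ D u₀ l k ξ = 0
    · rw [hm, zero_mul]
    · have hξS := mulk_supp hφ hD0 hm
      obtain ⟨b1, b2⟩ := Slk_box hD hk hξS hη
      have c1 : (ξ.1 + k / D * ξ.2) - (η.1 + k / D * η.2) = a := by
        rw [hx1, hx2]
        field_simp
        ring
      have c2 : ξ.2 - η.2 = D * b := by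
        rw [hx2]; ring
      rw [c1] at b1
      rw [c2, abs_mul, abs_of_pos hD0] at b2
      have c3 : |b| ≤ 25300 := by
        by_contra hcon
        push Not at hcon
        nlinarith
      rw [kn_chi_one (by linarith), kn_chi_one (by linarith)]
      ring

/-- the parameters are in the compact set -/
lemma kn_mem {D u₀ : ℝ} (hD : 1 ≤ D) {l : ℕ} {k : ℤ} (hk : |(k : ℝ)| ≤ 9 * D)
    {η : ℝ × ℝ} (hη : η ∈ Slk D u₀ l k) :
    ((l + u₀ - pp D η, η.1 / D ^ 2, η.2 / D ^ 2, (D * η.2 - k * η.1) / D ^ 2, k / D, 1 / D) : KE) ∈ kn_K := by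
  obtain ⟨⟨h1, h2, h3, h4⟩, h5, h6⟩ := hη
  have hD0 : 0 < D := by linarith
  have hD2 : 0 < D ^ 2 := by positivity
  rw [abs_le] at h3 h4 hk
  have hη1 : 0 < η.1 := by linarith
  refine ⟨⟨?_, ?_⟩, ⟨?_, ?_⟩, ⟨?_, ?_⟩, ⟨?_, ?_⟩, ⟨?_, ?_⟩, ⟨?_, ?_⟩⟩
  · show 0 ≤ (l : ℝ) + u₀ - pp D η
    linarith
  · show (l : ℝ) + u₀ - pp D η ≤ 8
    linarith
  · show 1 / 2 ≤ η.1 / D ^ 2
    rw [le_div_iff₀ hD2]; linarith
  · show η.1 / D ^ 2 ≤ 5
    rw [div_le_iff₀ hD2]; linarith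
  · show -4 ≤ η.2 / D ^ 2
    rw [le_div_iff₀ hD2]; linarith
  · show η.2 / D ^ 2 ≤ 4
    rw [div_le_iff₀ hD2]; linarith
  · show -5 ≤ (D * η.2 - k * η.1) / D ^ 2
    rw [le_div_iff₀ hD2]; linarith
  · show (D * η.2 - k * η.1) / D ^ 2 ≤ 5
    rw [div_le_iff₀ hD2]; linarith
  · show -9 ≤ (k : ℝ) / D
    rw [le_div_iff₀ hD0]; linarith
  · show (k : ℝ) / D ≤ 9
    rw [div_le_iff₀ hD0]; linarith
  · show 0 ≤ 1 / D
    positivity
  · show 1 / D ≤ 1
    rw [div_le_one hD0]; exact hD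

/-- the oscillation estimate for the model -/
def OscS (Ψ : ℝ × ℝ × KE → ℝ) (K : Set KE) (P : ℕ) : Prop :=
  ∃ C : ℝ, 0 < C ∧ ∀ p ∈ K, ∀ u v : ℝ,
      ‖∫ z : ℝ × ℝ, (Ψ (z.1, z.2, p) : ℂ) * e (u * z.1 + v * z.2)‖ ≤ C * (hw P u * hw P v)

theorem kernel_bound_of {φ : ℝ → ℝ} (hφ : Win φ) (P : ℕ) (osc : OscS (kn_Psi φ) kn_K P) :
    ∃ C : ℝ, 0 < C ∧
    ∀ d : ℕ, ∀ u₀ : ℝ, 0 ≤ u₀ → u₀ ≤ 1 → ∀ l : ℕ, ∀ k ∈ Ks (2 ^ d), ∀ z : ℝ × ℝ,
      ‖inv (fun ξ => (mulk φ (2 ^ d) u₀ l k ξ : ℂ)) z‖ ≤ C * wk (2 ^ d) k P z := by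
  obtain ⟨C, hC, hosc⟩ := osc
  refine ⟨C, hC, ?_⟩
  intro d u₀ _ _ l k hk z
  have hk9 := abs_k_le hk
  push_cast at hk9
  set D : ℝ := 2 ^ d with hDdef
  have hD : 1 ≤ D := one_le_pow₀ (by norm_num)
  have hD0 : 0 < D := by linarith
  by_cases hz : ∃ η, mulk φ D u₀ l k η ≠ 0
  · obtain ⟨η, hη0⟩ := hz
    have hη := mulk_supp hφ hD0 hη0
    obtain ⟨B, hB1, hB⟩ := hφ.bdd
    have hF : BCS (fun ξ : ℝ × ℝ => (mulk φ D u₀ l k ξ : ℂ) * e (z.1 * ξ.1 + z.2 * ξ.2)) := by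
      refine ⟨?_, ⟨B, fun ξ => ?_⟩, ⟨5 * D ^ 2, fun ξ hξ => ?_⟩⟩
      · have h1 := mulk_meas hφ D u₀ l k
        fun_prop
      · rw [norm_mul, e_norm, mul_one, Complex.norm_real, Real.norm_eq_abs]
        exact mulk_le' hB (by linarith) _ _ _ _ _
      · have h1 := left_ne_zero_of_mul hξ
        have h2 : mulk φ D u₀ l k ξ ≠ 0 := by exact_mod_cast h1
        exact Slk_supp (mulk_supp hφ hD0 h2)
    have h1 : inv (fun ξ => (mulk φ D u₀ l k ξ : ℂ)) z = (D : ℂ) * (e (z.1 * η.1 + z.2 * η.2) *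
        ∫ y : ℝ × ℝ, (kn_Psi φ (y.1, y.2, (l + u₀ - pp D η, η.1 / D ^ 2, η.2 / D ^ 2,
          (D * η.2 - k * η.1) / D ^ 2, k / D, 1 / D)) : ℂ) *
          e (z.1 * y.1 + (D * z.2 - k * z.1) * y.2)) := by
      unfold inv
      rw [kn_cov hF η.1 η.2 k hD0]
      congr 1
      rw [← integral_const_mul]
      congr 1
      funext y
      simp only
      rw [kn_model hφ hD hk9 hη y.1 y.2]
      have e1 : z.1 * (η.1 + y.1 - k * y.2) + z.2 * (η.2 + D * y.2) =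
          (z.1 * η.1 + z.2 * η.2) + (z.1 * y.1 + (D * z.2 - k * z.1) * y.2) := by ring
      rw [e1, e_add]
      ring
    rw [h1, norm_mul, norm_mul, e_norm, one_mul, Complex.norm_real, Real.norm_eq_abs, abs_of_pos hD0]
    have h2 := hosc _ (kn_mem hD hk9 hη) z.1 (D * z.2 - k * z.1)
    have h3 : C * wk (2 ^ d) k P z = D * (C * (hw P z.1 * hw P (D * z.2 - k * z.1))) := by
      unfold wk
      push_cast
      ring
    rw [h3]
    exact mul_le_mul_of_nonneg_left h2 hD0.le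
  · push Not at hz
    have h1 : inv (fun ξ => (mulk φ D u₀ l k ξ : ℂ)) z = 0 := by
      unfold inv
      simp [hz]
    rw [h1, norm_zero]
    unfold wk
    have h2 := hw_nonneg P z.1
    have h3 := hw_nonneg P (((2 ^ d : ℕ) : ℝ) * z.2 - k * z.1)
    positivity

end

end Pool.Agent.Helper32.KS
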