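import Pool.Agent.Helper32.KS.Osc
import Pool.Agent.Helper32.KS.KernA
import Pool.Agent.Helper32.KS.Glue
import Pool.Agent.Helper32.KS.Asm
import Pool.Agent.Helper32.KS.BDred

/-!
# The dual block estimate, unconditionally (helper32)
-/

set_option autoImplicit false

open MeasureTheory
open scoped BigOperators ContDiff

namespace Pool.Agent.Helper32.KS

noncomputable section

theorem kernel_bound {φ : ℝ → ℝ} (hφ : Win φ) (P : ℕ) : ∃ C : ℝ, 0 < C ∧
    ∀ d : ℕ, ∀ u₀ : ℝ, 0 ≤ u₀ → u₀ ≤ 1 → ∀ l : ℕ, ∀ k ∈ Ks (2 ^ d), ∀ z : ℝ × ℝ,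
      ‖inv (fun ξ => (mulk φ (2 ^ d) u₀ l k ξ : ℂ)) z‖ ≤ C * wk (2 ^ d) k P z :=
  kernel_bound_of hφ P (osc_bound (kn_Psi φ) (kn_Psi_smooth hφ.smooth) kn_K kn_K_compact 30001
    (fun p _ a b h => kn_Psi_supp φ p a b h) P)

lemma st_smooth : ContDiff ℝ ∞ Real.smoothTransition := Real.smoothTransition.contDiff

lemma ph_smooth : ContDiff ℝ ∞ ph := by
  have h : ph = fun s => Real.smoothTransition (s - 1) - Real.smoothTransition (s / 4 - 1) := rfl
  rw [h]
  apply ContDiff.sub
  · exact st_smooth.comp (by fun_prop)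
  · exact st_smooth.comp (by fun_prop)

lemma ph_zero_left {s : ℝ} (h : s ≤ 1) : ph s = 0 := by
  unfold ph Th
  rw [Real.smoothTransition.zero_of_nonpos (by linarith),
    Real.smoothTransition.zero_of_nonpos (by linarith), sub_zero]

lemma ph_zero_right {s : ℝ} (h : 8 ≤ s) : ph s = 0 := by
  unfold ph Th
  rw [Real.smoothTransition.one_of_one_le (by linarith),
    Real.smoothTransition.one_of_one_le (by linarith), sub_self]

lemma win_ph : Win ph := by
  refine ⟨ph_smooth, fun s hs => ?_⟩
  constructor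
  · by_contra h
    push Not at h
    exact hs (ph_zero_left h.le)
  · by_contra h
    push Not at h
    exact hs (ph_zero_right h.le)

lemma win_dph : Win (deriv ph) := by
  refine ⟨?_, fun s hs => ?_⟩
  · have h := ph_smooth
    rw [contDiff_infty_iff_deriv] at h
    exact h.2
  · constructor
    · by_contra h
      push Not at h
      apply hs
      have : ph =ᶠ[nhds s] fun _ => 0 := by
        filter_upwards [Iio_mem_nhds h] with t ht
        exact ph_zero_left (le_of_lt ht)
      rw [this.deriv_eq]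
      simp
    · by_contra h
      push Not at h
      apply hs
      have : ph =ᶠ[nhds s] fun _ => 0 := by
        filter_upwards [Ioi_mem_nhds h] with t ht
        exact ph_zero_right (le_of_lt ht)
      rw [this.deriv_eq]
      simp

theorem kpabs_true : KPabs := kpabs (tail_claim kbound mmsum nik_claim)

theorem kp_true {φ : ℝ → ℝ} (hφ : Win φ) : KP φ := by
  obtain ⟨C, hC, h⟩ := kernel_bound hφ 6
  exact kp_of hφ (CK := C) ⟨hC, h⟩ kpabs_true

theorem bd_true : BD := bd_of_kp (kp_true win_ph) (kp_true win_dph)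

end

end Pool.Agent.Helper32.KS
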