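import Pool.Agent.Helper32.KS.Abs

/-!
# Module 1: the kernel bound and the discrete Nikodym estimate (helper80)
-/

set_option autoImplicit false

open MeasureTheory
open scoped BigOperators Real ENNReal

namespace Pool.Agent.Helper32.KS

/-! ### the weights -/

theorem nk_hw_pos (p : ℕ) (s : ℝ) : 0 < hw p s := by unfold hw; positivity

theorem nk_hw_nonneg (p : ℕ) (s : ℝ) : 0 ≤ hw p s := (nk_hw_pos p s).le

theorem nk_hw_le_one (p : ℕ) (s : ℝ) : hw p s ≤ 1 := by
  unfold hw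
  exact inv_le_one_of_one_le₀ (one_le_pow₀ (by linarith [abs_nonneg s]))

theorem nk_hw_cont (p : ℕ) : Continuous (hw p) := by
  unfold hw
  exact ((continuous_const.add continuous_abs).pow p).inv₀ fun s =>
    (pow_pos (by positivity : (0 : ℝ) < 1 + |s|) p).ne'

theorem nk_hw_neg (p : ℕ) (s : ℝ) : hw p (-s) = hw p s := by simp [hw]

theorem nk_hw_add (p q : ℕ) (s : ℝ) : hw (p + q) s = hw p s * hw q s := by
  simp only [hw, pow_add, mul_inv]

/-- if `1 + |s| ≤ c (1 + |t|)` then `hw p t ≤ c ^ p hw p s` -/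
theorem nk_hw_comp (p : ℕ) {c s t : ℝ} (_hc : 0 ≤ c) (h : 1 + |s| ≤ c * (1 + |t|)) :
    hw p t ≤ c ^ p * hw p s := by
  unfold hw
  rw [← div_eq_mul_inv, inv_eq_one_div, div_le_div_iff₀ (by positivity) (by positivity), one_mul,
    ← mul_pow]
  exact pow_le_pow_left₀ (by positivity) h p

theorem nk_hw_anti {p q : ℕ} (h : p ≤ q) (s : ℝ) : hw q s ≤ hw p s := by
  unfold hw
  exact inv_anti₀ (by positivity) (pow_le_pow_right₀ (by linarith [abs_nonneg s]) h)

theorem nk_hw_mul (p : ℕ) (a b : ℝ) : hw p a * hw p b ≤ hw p (a - b) := by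
  unfold hw
  rw [← mul_inv, ← mul_pow]
  apply inv_anti₀ (by positivity)
  apply pow_le_pow_left₀ (by positivity)
  have h1 := abs_sub a b
  nlinarith [abs_nonneg a, abs_nonneg b]

/-- the two bumps -/
theorem nk_bump (v w : ℝ) : hw 4 v * hw 4 (v + w) ≤ 16 * hw 4 w * (hw 2 v + hw 2 (v + w)) := by
  have h24 : ∀ s, hw 4 s ≤ hw 2 s := nk_hw_anti (by norm_num)
  have hw0 := nk_hw_nonneg
  rcases le_total (|w| / 2) |v| with h | h
  · have h1 : hw 4 v ≤ 2 ^ 4 * hw 4 w := nk_hw_comp 4 (by norm_num) (by linarith)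
    calc hw 4 v * hw 4 (v + w) ≤ (2 ^ 4 * hw 4 w) * hw 2 (v + w) :=
          mul_le_mul h1 (h24 _) (hw0 _ _) (by have := hw0 4 w; positivity)
      _ ≤ 16 * hw 4 w * (hw 2 v + hw 2 (v + w)) := by
          have := mul_nonneg (hw0 4 w) (hw0 2 v)
          nlinarith
  · have h2 : |w| / 2 ≤ |v + w| := by
      have h3 : |w| ≤ |v + w| + |v| := by
        have := abs_sub (v + w) v
        simpa using this
      linarith
    have h1 : hw 4 (v + w) ≤ 2 ^ 4 * hw 4 w := nk_hw_comp 4 (by norm_num) (by linarith)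
    calc hw 4 v * hw 4 (v + w) ≤ hw 2 v * (2 ^ 4 * hw 4 w) :=
          mul_le_mul (h24 _) h1 (hw0 _ _) (hw0 _ _)
      _ ≤ 16 * hw 4 w * (hw 2 v + hw 2 (v + w)) := by
          have := mul_nonneg (hw0 4 w) (hw0 2 (v + w))
          nlinarith

theorem nk_hw2_int : Integrable (hw 2) := by
  have h := integrable_one_add_norm (E := ℝ) (μ := volume) (r := 2) (by simp)
  refine h.congr (Filter.Eventually.of_forall fun s => ?_)
  simp only [hw, Real.norm_eq_abs]
  rw [Real.rpow_neg (by positivity)]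
  norm_num

/-- the constant `∫ (1+|s|)^{-2}` -/
noncomputable def nkc : ℝ := ∫ s, hw 2 s

theorem nkc_nonneg : 0 ≤ nkc := integral_nonneg fun s => nk_hw_nonneg 2 s

theorem nk_lint (c b : ℝ) (hc : c ≠ 0) :
    ∫⁻ s : ℝ, ENNReal.ofReal (hw 2 (c * s - b)) = ENNReal.ofReal (nkc / |c|) := by
  have h1 : Integrable fun s : ℝ => hw 2 (c * s - b) :=
    (nk_hw2_int.comp_sub_right b).comp_mul_left' hc
  rw [← ofReal_integral_eq_lintegral_ofReal h1 (Filter.Eventually.of_forall fun s =>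
    nk_hw_nonneg _ _)]
  congr 1
  have h2 := Measure.integral_comp_mul_left (fun s => hw 2 (s - b)) c
  rw [h2, integral_sub_right_eq_self (fun s => hw 2 s) b, smul_eq_mul, abs_inv]
  unfold nkc
  rw [div_eq_mul_inv, mul_comm]

/-- the Jacobian-free form of the kernel bound: a product majorant -/
theorem nk_tonelli (K c β D : ℝ) (β1 β2 : ℝ → ℝ) (h1 : Measurable β1) (h2 : Measurable β2)
    (hK : 0 ≤ K) (hc : c ≠ 0) (hD : 0 < D) :
    ∫⁻ y : ℝ × ℝ, ENNReal.ofReal (K * hw 2 (c * y.1 - β) *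
      (hw 2 (D * y.2 - β1 y.1) + hw 2 (D * y.2 - β2 y.1))) =
      ENNReal.ofReal (K * (nkc / |c|) * (2 * (nkc / D))) := by
  have mh : Measurable (hw 2) := (nk_hw_cont 2).measurable
  have m1 : Measurable fun y : ℝ × ℝ => hw 2 (D * y.2 - β1 y.1) :=
    mh.comp ((measurable_snd.const_mul D).sub (h1.comp measurable_fst))
  have m2 : Measurable fun y : ℝ × ℝ => hw 2 (D * y.2 - β2 y.1) :=
    mh.comp ((measurable_snd.const_mul D).sub (h2.comp measurable_fst))
  have m3 : Measurable fun y : ℝ × ℝ => hw 2 (c * y.1 - β) :=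
    mh.comp ((measurable_fst.const_mul c).sub_const β)
  have m4 : Measurable fun s : ℝ => hw 2 (c * s - β) :=
    mh.comp ((measurable_id.const_mul c).sub_const β)
  have mm : Measurable fun y : ℝ × ℝ => ENNReal.ofReal (K * hw 2 (c * y.1 - β) *
      (hw 2 (D * y.2 - β1 y.1) + hw 2 (D * y.2 - β2 y.1))) :=
    ((m3.const_mul K).mul (m1.add m2)).ennreal_ofReal
  rw [Measure.volume_eq_prod, lintegral_prod _ mm.aemeasurable]
  have inner : ∀ s : ℝ, ∫⁻ t : ℝ, ENNReal.ofReal (K * hw 2 (c * s - β) *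
      (hw 2 (D * t - β1 s) + hw 2 (D * t - β2 s))) =
      ENNReal.ofReal (hw 2 (c * s - β)) * ENNReal.ofReal (K * (2 * (nkc / D))) := by
    intro s
    have q1 : Measurable fun t : ℝ => ENNReal.ofReal (hw 2 (D * t - β1 s)) :=
      (mh.comp ((measurable_id.const_mul D).sub_const _)).ennreal_ofReal
    have q2 : Measurable fun t : ℝ => ENNReal.ofReal (hw 2 (D * t - β2 s)) :=
      (mh.comp ((measurable_id.const_mul D).sub_const _)).ennreal_ofReal
    have e1 : ∀ t : ℝ, ENNReal.ofReal (K * hw 2 (c * s - β) *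
      (hw 2 (D * t - β1 s) + hw 2 (D * t - β2 s))) = ENNReal.ofReal (K * hw 2 (c * s - β)) *
        (ENNReal.ofReal (hw 2 (D * t - β1 s)) + ENNReal.ofReal (hw 2 (D * t - β2 s))) := by
      intro t
      rw [ENNReal.ofReal_mul (mul_nonneg hK (nk_hw_nonneg _ _)),
        ENNReal.ofReal_add (nk_hw_nonneg _ _) (nk_hw_nonneg _ _)]
    simp only [e1]
    have q3 : Measurable fun t : ℝ => ENNReal.ofReal (hw 2 (D * t - β1 s)) +
        ENNReal.ofReal (hw 2 (D * t - β2 s)) := q1.add q2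
    rw [lintegral_const_mul _ q3, lintegral_add_left q1, nk_lint _ _ hD.ne',
      nk_lint _ _ hD.ne', abs_of_pos hD, ← ENNReal.ofReal_add (div_nonneg nkc_nonneg hD.le)
      (div_nonneg nkc_nonneg hD.le), ← ENNReal.ofReal_mul (mul_nonneg hK (nk_hw_nonneg _ _)),
      ← ENNReal.ofReal_mul (nk_hw_nonneg _ _)]
    congr 1
    ring
  simp only [inner]
  rw [lintegral_mul_const _ m4.ennreal_ofReal, nk_lint _ _ hc,
    ← ENNReal.ofReal_mul (div_nonneg nkc_nonneg (abs_nonneg c))]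
  congr 1
  ring

theorem nk_choice (D : ℕ) (hD : 1 ≤ D) (j : ℤ) (hj : |(j : ℝ)| ≤ 18 * D) (t x0 : ℝ) :
    ∃ A c β : ℝ, 0 ≤ A ∧ c ≠ 0 ∧
      (∀ s : ℝ, hw 2 (s - x0) * hw 4 (j * (s - x0) - t) ≤ A * hw 2 (c * s - β)) ∧
      A / |c| ≤ 18 * ((1 + |t|) * (1 + |t| / D))⁻¹ := by
  have hD1 : (1 : ℝ) ≤ D := by exact_mod_cast hD
  have hD0 : (0 : ℝ) < D := by linarith
  have hdiv : |t| / D ≤ |t| := div_le_self (abs_nonneg t) hD1
  have hdiv0 : 0 ≤ |t| / D := by positivity
  rcases eq_or_ne j 0 with rfl | h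
  · refine ⟨hw 4 t, 1, x0, nk_hw_nonneg _ _, one_ne_zero, fun s => ?_, ?_⟩
    · simp only [Int.cast_zero, zero_mul, zero_sub, one_mul, nk_hw_neg]
      rw [mul_comm]
    · simp only [abs_one, div_one]
      have h1 : hw 4 t ≤ hw 2 t := nk_hw_anti (by norm_num) t
      have h2 : hw 2 t ≤ ((1 + |t|) * (1 + |t| / D))⁻¹ := by
        unfold hw
        apply inv_anti₀ (by positivity)
        rw [sq]
        exact mul_le_mul_of_nonneg_left (by linarith) (by positivity)
      have h3 : 0 ≤ ((1 + |t|) * (1 + |t| / D))⁻¹ := by positivity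
      linarith
  · have hj0 : (j : ℝ) ≠ 0 := by exact_mod_cast h
    have hj1 : (1 : ℝ) ≤ |(j : ℝ)| := by
      have : (1 : ℤ) ≤ |j| := Int.one_le_abs h
      exact_mod_cast this
    refine ⟨hw 2 (t / j), j, j * x0 + t, nk_hw_nonneg _ _, hj0, fun s => ?_, ?_⟩
    · have e1 : (j : ℝ) * s - (j * x0 + t) = j * (s - x0) - t := by ring
      rw [e1]
      set b := s - x0
      have h1 : hw 2 b * hw 2 (j * b - t) ≤ hw 2 (t / j) := by
        unfold hw
        rw [← mul_inv, ← mul_pow]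
        apply inv_anti₀ (by positivity)
        apply pow_le_pow_left₀ (by positivity)
        have h2 : |t / j| ≤ |b| + |j * b - t| := by
          have e2 : t / j = b - (j * b - t) / j := by field_simp; ring
          have h3 : |(j * b - t) / j| ≤ |j * b - t| := by
            rw [abs_div]
            exact div_le_self (abs_nonneg _) hj1
          calc |t / j| = |b - (j * b - t) / j| := by rw [← e2]
            _ ≤ |b| + |(j * b - t) / j| := abs_sub _ _
            _ ≤ _ := by linarith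
        nlinarith [abs_nonneg b, abs_nonneg (j * b - t)]
      have h4 : hw 4 (j * b - t) = hw 2 (j * b - t) * hw 2 (j * b - t) := nk_hw_add 2 2 _
      rw [h4, ← mul_assoc]
      exact mul_le_mul_of_nonneg_right h1 (nk_hw_nonneg _ _)
    · unfold hw
      rw [abs_div, ← div_eq_mul_inv, inv_eq_one_div, div_div, div_le_div_iff₀ (by positivity)
        (by positivity), one_mul]
      set J := |(j : ℝ)|
      set T := |t| with hT
      have hT0 : 0 ≤ T := abs_nonneg t
      have e3 : (1 + T / J) ^ 2 * J = (J + T) ^ 2 / J := by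
        field_simp
      rw [e3]
      have e4 : (1 + T) * (1 + T / D) ≤ (J + T) * (18 * (J + T) / J) := by
        apply mul_le_mul (by linarith) _ (by positivity) (by positivity)
        rw [le_div_iff₀ (by positivity), add_mul, one_mul]
        have : T / D * J ≤ 18 * T := by
          rw [div_mul_eq_mul_div, div_le_iff₀ hD0]
          nlinarith
        linarith
      calc (1 + T) * (1 + T / D) ≤ (J + T) * (18 * (J + T) / J) := e4
        _ = _ := by ring

theorem nk_wk_nonneg (D : ℕ) (k : ℤ) (r : ℕ) (z : ℝ × ℝ) : 0 ≤ wk D k r z := by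
  unfold wk
  have := nk_hw_nonneg r z.1
  have := nk_hw_nonneg r (D * z.2 - k * z.1)
  positivity

theorem nk_wk_cont (D : ℕ) (k : ℤ) (r : ℕ) : Continuous (wk D k r) := by
  unfold wk
  exact (continuous_const.mul ((nk_hw_cont r).comp continuous_fst)).mul ((nk_hw_cont r).comp
    ((continuous_const.mul continuous_snd).sub (continuous_const.mul continuous_fst)))

theorem nk_lbound (D : ℕ) (hD : 1 ≤ D) (k k' : ℤ) (hk : k ∈ Ks D) (hk' : k' ∈ Ks D)
    (x x' : ℝ × ℝ) :
    ∫⁻ y : ℝ × ℝ, ENNReal.ofReal (wk D k 4 (y - x) * wk D k' 4 (y - x')) ≤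
      ENNReal.ofReal (576 * nkc ^ 2 * MM D k (x' - x)) := by
  have hD1 : (1 : ℝ) ≤ D := by exact_mod_cast hD
  have hD0 : (0 : ℝ) < D := by linarith
  set t : ℝ := D * (x'.2 - x.2) - k * (x'.1 - x.1) with ht
  have hj : |((k - k' : ℤ) : ℝ)| ≤ 18 * D := by
    have h1 := Finset.mem_Icc.mp hk
    have h2 := Finset.mem_Icc.mp hk'
    have h3 : |k - k'| ≤ 18 * (D : ℤ) := by
      rw [abs_le]
      constructor <;> linarith [h1.1, h1.2, h2.1, h2.2]
    exact_mod_cast h3
  obtain ⟨A, c, β, hA, hc, hp, hAc⟩ := nk_choice D hD (k - k') hj t x'.1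
  have hw0 := nk_hw_nonneg
  calc ∫⁻ y : ℝ × ℝ, ENNReal.ofReal (wk D k 4 (y - x) * wk D k' 4 (y - x'))
      ≤ ∫⁻ y : ℝ × ℝ, ENNReal.ofReal ((16 * D ^ 2 * hw 2 (x'.1 - x.1) * A) *
          hw 2 (c * y.1 - β) * (hw 2 (D * y.2 - (D * x.2 + k * (y.1 - x.1))) +
            hw 2 (D * y.2 - (D * x'.2 + k' * (y.1 - x'.1))))) := by
        apply lintegral_mono
        intro y
        apply ENNReal.ofReal_le_ofReal
        unfold wk
        simp only [Prod.fst_sub, Prod.snd_sub]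
        set a := y.1 - x.1 with ha
        set b := y.1 - x'.1 with hb
        set v := (D : ℝ) * (y.2 - x.2) - k * a with hv
        have e1 : (D : ℝ) * (y.2 - x'.2) - k' * b = v + (((k - k' : ℤ) : ℝ) * b - t) := by
          rw [hv, ht, ha, hb]; push_cast; ring
        have e2 : (D : ℝ) * y.2 - (D * x.2 + k * a) = v := by rw [hv]; ring
        have e3 : (D : ℝ) * y.2 - (D * x'.2 + k' * b) = v + (((k - k' : ℤ) : ℝ) * b - t) := by
          rw [← e1]; ring
        rw [e1, e2, e3]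
        set w := ((k - k' : ℤ) : ℝ) * b - t with hwdef
        have h1 := nk_bump v w
        have h2 : hw 4 a * hw 4 b ≤ hw 2 (x'.1 - x.1) * hw 2 b := by
          have e4 : hw 4 a * hw 4 b = (hw 2 a * hw 2 b) * (hw 2 a * hw 2 b) := by
            rw [nk_hw_add 2 2 a, nk_hw_add 2 2 b]; ring
          have e5 : a - b = x'.1 - x.1 := by rw [ha, hb]; ring
          rw [e4, ← e5]
          apply mul_le_mul (nk_hw_mul 2 a b) _ (mul_nonneg (hw0 _ _) (hw0 _ _)) (hw0 _ _)
          exact mul_le_of_le_one_left (hw0 _ _) (nk_hw_le_one _ _)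
        have h3 := hp y.1
        rw [← hb, ← hwdef] at h3
        have hS : 0 ≤ hw 2 v + hw 2 (v + w) := add_nonneg (hw0 _ _) (hw0 _ _)
        calc (D : ℝ) * hw 4 a * hw 4 v * (D * hw 4 b * hw 4 (v + w))
            = D ^ 2 * ((hw 4 a * hw 4 b) * (hw 4 v * hw 4 (v + w))) := by ring
          _ ≤ D ^ 2 * ((hw 2 (x'.1 - x.1) * hw 2 b) *
              (16 * hw 4 w * (hw 2 v + hw 2 (v + w)))) := by
              apply mul_le_mul_of_nonneg_left _ (by positivity)
              exact mul_le_mul h2 h1 (mul_nonneg (hw0 _ _) (hw0 _ _))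
                (mul_nonneg (hw0 _ _) (hw0 _ _))
          _ = 16 * D ^ 2 * hw 2 (x'.1 - x.1) * (hw 2 b * hw 4 w) *
              (hw 2 v + hw 2 (v + w)) := by ring
          _ ≤ 16 * D ^ 2 * hw 2 (x'.1 - x.1) * (A * hw 2 (c * y.1 - β)) *
              (hw 2 v + hw 2 (v + w)) := by
              apply mul_le_mul_of_nonneg_right _ hS
              apply mul_le_mul_of_nonneg_left h3
              have := hw0 2 (x'.1 - x.1)
              positivity
          _ = _ := by ring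
    _ = ENNReal.ofReal ((16 * D ^ 2 * hw 2 (x'.1 - x.1) * A) * (nkc / |c|) *
          (2 * (nkc / D))) := by
        have hpos : 0 ≤ 16 * (D : ℝ) ^ 2 * hw 2 (x'.1 - x.1) * A := by
          have := hw0 2 (x'.1 - x.1)
          positivity
        exact nk_tonelli (16 * (D : ℝ) ^ 2 * hw 2 (x'.1 - x.1) * A) c β D
          (fun s => D * x.2 + k * (s - x.1)) (fun s => D * x'.2 + k' * (s - x'.1))
          (by fun_prop) (by fun_prop) hpos hc hD0
    _ ≤ _ := by
        apply ENNReal.ofReal_le_ofReal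
        unfold MM
        simp only [Prod.fst_sub, Prod.snd_sub]
        have e1 : |x'.2 - x.2 - (k : ℝ) / D * (x'.1 - x.1)| = |t| / D := by
          rw [ht, ← abs_of_pos hD0, ← abs_div, abs_of_pos hD0]
          congr 1
          field_simp
        rw [e1, ← ht]
        have hh := hw0 2 (x'.1 - x.1)
        have hn := nkc_nonneg
        calc (16 * (D : ℝ) ^ 2 * hw 2 (x'.1 - x.1) * A) * (nkc / |c|) * (2 * (nkc / D))
            = 32 * nkc ^ 2 * (D * hw 2 (x'.1 - x.1)) * (A / |c|) := by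
              field_simp
              ring
          _ ≤ 32 * nkc ^ 2 * (D * hw 2 (x'.1 - x.1)) *
              (18 * ((1 + |t|) * (1 + |t| / D))⁻¹) :=
              mul_le_mul_of_nonneg_left hAc (by positivity)
          _ = _ := by ring

theorem nk_MM_nonneg (D : ℕ) (k : ℤ) (Δ : ℝ × ℝ) : 0 ≤ MM D k Δ := by
  unfold MM
  have := nk_hw_nonneg 2 Δ.1
  positivity

theorem kbound : KBound := by
  refine ⟨1 + 576 * nkc ^ 2, by nlinarith [sq_nonneg nkc], ?_⟩
  intro D hD k hk k' hk' x x'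
  have h := nk_lbound D hD k k' hk hk' x x'
  have hm : Continuous fun y : ℝ × ℝ => wk D k 4 (y - x) * wk D k' 4 (y - x') :=
    ((nk_wk_cont D k 4).comp (continuous_id.sub continuous_const)).mul
      ((nk_wk_cont D k' 4).comp (continuous_id.sub continuous_const))
  have h0 : ∀ y : ℝ × ℝ, 0 ≤ wk D k 4 (y - x) * wk D k' 4 (y - x') := fun y =>
    mul_nonneg (nk_wk_nonneg _ _ _ _) (nk_wk_nonneg _ _ _ _)
  have hint : Integrable (fun y : ℝ × ℝ => wk D k 4 (y - x) * wk D k' 4 (y - x')) := by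
    refine ⟨hm.aestronglyMeasurable, ?_⟩
    rw [hasFiniteIntegral_iff_ofReal (Filter.Eventually.of_forall h0)]
    exact lt_of_le_of_lt h ENNReal.ofReal_lt_top
  refine ⟨hint, ?_⟩
  rw [← ofReal_integral_eq_lintegral_ofReal hint (Filter.Eventually.of_forall h0)] at h
  have h2 := (ENNReal.ofReal_le_ofReal_iff (by
    have := nk_MM_nonneg D k (x' - x)
    positivity)).mp h
  have := nk_MM_nonneg D k (x' - x)
  linarith

/-! ### the sum over the cells -/

/-- the summand -/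
noncomputable def nkg (D : ℝ) (s : ℝ) : ℝ := ((1 + |s|) * (1 + |s| / D))⁻¹

theorem nkg_nonneg {D : ℝ} (hD : 0 < D) (s : ℝ) : 0 ≤ nkg D s := by unfold nkg; positivity

theorem nkg_shift {D : ℝ} (hD : 1 ≤ D) (s r : ℝ) (h : |s - r| ≤ 1) : nkg D s ≤ 4 * nkg D r := by
  have hD0 : 0 < D := by linarith
  have h1 : |r| ≤ |s| + 1 := by
    have : |r| ≤ |s| + |s - r| := by
      have := abs_sub s (s - r)
      simpa using this
    linarith
  unfold nkg
  rw [← div_eq_mul_inv, inv_eq_one_div, div_le_div_iff₀ (by positivity) (by positivity), one_mul]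
  have e1 : 1 + |r| ≤ 2 * (1 + |s|) := by linarith [abs_nonneg s]
  have e2 : 1 + |r| / D ≤ 2 * (1 + |s| / D) := by
    have h2 : |r| / D ≤ |s| / D + 1 := by
      rw [div_add_one hD0.ne', div_le_div_iff_of_pos_right hD0]
      linarith
    have : 0 ≤ |s| / D := by positivity
    linarith
  calc (1 + |r|) * (1 + |r| / D) ≤ (2 * (1 + |s|)) * (2 * (1 + |s| / D)) :=
        mul_le_mul e1 e2 (by positivity) (by positivity)
    _ = _ := by ring

theorem nk_hw2_shift {D : ℝ} (hD : 1 ≤ D) (s r : ℝ) (h : |s - r| ≤ 1) :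
    hw 2 (s / D) ≤ 4 * hw 2 (r / D) := by
  have hD0 : 0 < D := by linarith
  have h1 : |r| ≤ |s| + 1 := by
    have : |r| ≤ |s| + |s - r| := by
      have := abs_sub s (s - r)
      simpa using this
    linarith
  have h2 := nk_hw_comp 2 (c := 2) (s := r / D) (t := s / D) (by norm_num) (by
    rw [abs_div, abs_div, abs_of_pos hD0]
    have h2 : |r| / D ≤ |s| / D + 1 := by
      rw [div_add_one hD0.ne', div_le_div_iff_of_pos_right hD0]
      linarith
    have : 0 ≤ |s| / D := by positivity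
    linarith)
  linarith

/-- sums over finite sets of integers of an even function of `m - t₀` -/
theorem nk_int_sum (f : ℕ → ℝ) (hf : ∀ i, 0 ≤ f i) (t0 : ℤ) (S : Finset ℤ) (B : ℝ)
    (hB : ∀ N, ∑ i ∈ Finset.range N, f i ≤ B) :
    ∑ m ∈ S, f (m - t0).natAbs ≤ 2 * B := by
  classical
  have h1 : ∀ T : Finset ℤ, (∀ m ∈ T, t0 ≤ m) → ∑ m ∈ T, f (m - t0).natAbs ≤ B := by
    intro T hT
    have hinj : Set.InjOn (fun m : ℤ => (m - t0).natAbs) T := by
      intro a ha b hb hab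
      have ha' := hT a ha
      have hb' := hT b hb
      simp only at hab
      omega
    rw [← Finset.sum_image (g := fun m : ℤ => (m - t0).natAbs) (f := f) hinj]
    obtain ⟨N, hN⟩ := Finset.exists_nat_subset_range (T.image fun m : ℤ => (m - t0).natAbs)
    exact (Finset.sum_le_sum_of_subset_of_nonneg hN fun i _ _ => hf i).trans (hB N)
  have h2 : ∀ T : Finset ℤ, (∀ m ∈ T, m < t0) → ∑ m ∈ T, f (m - t0).natAbs ≤ B := by
    intro T hT
    have hinj : Set.InjOn (fun m : ℤ => (m - t0).natAbs) T := by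
      intro a ha b hb hab
      have ha' := hT a ha
      have hb' := hT b hb
      simp only at hab
      omega
    rw [← Finset.sum_image (g := fun m : ℤ => (m - t0).natAbs) (f := f) hinj]
    obtain ⟨N, hN⟩ := Finset.exists_nat_subset_range (T.image fun m : ℤ => (m - t0).natAbs)
    exact (Finset.sum_le_sum_of_subset_of_nonneg hN fun i _ _ => hf i).trans (hB N)
  rw [← Finset.sum_filter_add_sum_filter_not S (fun m => t0 ≤ m)]
  have h3 := h1 (S.filter fun m => t0 ≤ m) (fun m hm => (Finset.mem_filter.mp hm).2)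
  have h4 := h2 (S.filter fun m => ¬ t0 ≤ m) (fun m hm => not_le.mp (Finset.mem_filter.mp hm).2)
  linarith

theorem nk_partial1 (D : ℕ) (hD : 1 ≤ D) (N : ℕ) :
    ∑ i ∈ Finset.range N, nkg D i ≤ 2 + Real.log D := by
  have hD1 : (1 : ℝ) ≤ D := by exact_mod_cast hD
  have hD0 : (0 : ℝ) < D := by linarith
  have hlt : ∀ M : ℕ, M ≤ D → ∑ i ∈ Finset.range M, nkg D i ≤ 1 + Real.log D := by
    intro M hM
    have h1 : ∑ i ∈ Finset.range M, nkg D i ≤ ∑ i ∈ Finset.range D, ((i : ℝ) + 1)⁻¹ := by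
      refine le_trans (Finset.sum_le_sum_of_subset_of_nonneg (Finset.range_subset_range.mpr hM)
        fun i _ _ => nkg_nonneg hD0 _) (Finset.sum_le_sum fun i _ => ?_)
      unfold nkg
      rw [abs_of_nonneg (Nat.cast_nonneg i)]
      apply inv_anti₀ (by positivity)
      have : (0 : ℝ) ≤ i / D := by positivity
      nlinarith [(Nat.cast_nonneg i : (0 : ℝ) ≤ i)]
    have h2 : ∑ i ∈ Finset.range D, ((i : ℝ) + 1)⁻¹ = (harmonic D : ℝ) := by
      unfold harmonic
      push_cast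
      rfl
    have h3 := harmonic_le_one_add_log D
    rw [h2] at h1
    linarith
  rcases le_total N D with h | h
  · linarith [hlt N h]
  · have key : ∀ M : ℕ, D ≤ M → ∑ i ∈ Finset.range M, nkg D i ≤
        1 + Real.log D + (1 - D / M) := by
      intro M hM
      induction M, hM using Nat.le_induction with
      | base =>
        rw [div_self hD0.ne']
        have := hlt D le_rfl
        linarith
      | succ M hM ih =>
        rw [Finset.sum_range_succ]
        have hM0 : (0 : ℝ) < M := by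
          have : (D : ℝ) ≤ M := by exact_mod_cast hM
          linarith
        have h1 : nkg D M ≤ D / M - D / ((M + 1 : ℕ) : ℝ) := by
          unfold nkg
          rw [abs_of_nonneg hM0.le]
          have e1 : (D : ℝ) / M - D / ((M + 1 : ℕ) : ℝ) = ((1 + (M : ℝ)) * ((M : ℝ) / D))⁻¹ := by
            push_cast
            field_simp
            ring
          rw [e1]
          apply inv_anti₀ (by positivity)
          apply mul_le_mul_of_nonneg_left _ (by positivity)
          linarith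
        linarith
    have h1 := key N h
    have h2 : (0 : ℝ) ≤ D / N := by positivity
    linarith

theorem nk_partial2 (D : ℕ) (hD : 1 ≤ D) (N : ℕ) :
    ∑ i ∈ Finset.range N, hw 2 ((i : ℝ) / D) ≤ 2 * D := by
  have hD1 : (1 : ℝ) ≤ D := by exact_mod_cast hD
  have hD0 : (0 : ℝ) < D := by linarith
  have key : ∀ M : ℕ, ∑ i ∈ Finset.range (M + 1), hw 2 ((i : ℝ) / D) ≤
      1 + D - D ^ 2 / (D + M) := by
    intro M
    induction M with
    | zero =>
      simp only [zero_add, Finset.range_one, Finset.sum_singleton, Nat.cast_zero, add_zero,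
        zero_div]
      rw [sq, mul_div_assoc, div_self hD0.ne']
      simp [hw]
    | succ M ih =>
      rw [Finset.sum_range_succ]
      have h1 : hw 2 (((M + 1 : ℕ) : ℝ) / D) ≤
          D ^ 2 / (D + M) - D ^ 2 / (D + ((M + 1 : ℕ) : ℝ)) := by
        unfold hw
        rw [abs_of_nonneg (by positivity)]
        have e1 : (D : ℝ) ^ 2 / (D + M) - D ^ 2 / (D + ((M + 1 : ℕ) : ℝ)) =
            ((D + M) * (D + ((M + 1 : ℕ) : ℝ)) / D ^ 2)⁻¹ := by
          push_cast
          field_simp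
          ring
        rw [e1]
        apply inv_anti₀ (by positivity)
        rw [div_le_iff₀ (by positivity)]
        have e2 : (1 + ((M + 1 : ℕ) : ℝ) / D) ^ 2 * D ^ 2 = (D + ((M + 1 : ℕ) : ℝ)) ^ 2 := by
          field_simp
        rw [e2]
        push_cast
        nlinarith [(Nat.cast_nonneg M : (0 : ℝ) ≤ M)]
      linarith
  rcases N with _ | N
  · simp
  · have h1 := key N
    have h2 : (0 : ℝ) ≤ D ^ 2 / (D + N) := by positivity
    linarith

theorem mmsum : MMSum := by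
  refine ⟨256, by norm_num, ?_⟩
  intro d k hk y S
  classical
  have hD : 1 ≤ 2 ^ d := Nat.one_le_two_pow
  set D : ℕ := 2 ^ d with hDdef
  have hcast : ((2 : ℝ) ^ d) = (D : ℝ) := by rw [hDdef]; push_cast; rfl
  have hD1 : (1 : ℝ) ≤ D := by exact_mod_cast hD
  have hD0 : (0 : ℝ) < D := by linarith
  have hlog : 2 + Real.log D ≤ 2 * (d + 1) := by
    rw [hDdef]
    push_cast
    rw [Real.log_pow]
    have : Real.log 2 ≤ 1 := by
      have := Real.log_two_lt_d9; linarith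
    nlinarith [(Nat.cast_nonneg d : (0 : ℝ) ≤ d)]
  -- the terms
  set tt : ℤ → ℝ := fun q1 => D * y.2 + k * ((q1 : ℝ) / D - y.1) with htt
  have hterm : ∀ q : ℤ × ℤ, MM D k (((q.1 : ℝ) / D, (q.2 : ℝ) / D) - y) =
      D * (hw 2 (((q.1 : ℝ) - D * y.1) / D) * nkg D ((q.2 : ℝ) - tt q.1)) := by
    intro q
    unfold MM nkg
    simp only [Prod.fst_sub, Prod.snd_sub]
    have e1 : (q.1 : ℝ) / D - y.1 = ((q.1 : ℝ) - D * y.1) / D := by field_simp
    have e2 : (D : ℝ) * ((q.2 : ℝ) / D - y.2) - k * ((q.1 : ℝ) / D - y.1) =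
        (q.2 : ℝ) - tt q.1 := by
      simp only [htt]
      field_simp
      ring
    have e3 : (q.2 : ℝ) / D - y.2 - k / D * ((q.1 : ℝ) / D - y.1) = ((q.2 : ℝ) - tt q.1) / D := by
      rw [← e2]
      field_simp
    rw [e2, e3, e1, abs_div, abs_of_pos hD0]
    ring
  have hnn : ∀ q : ℤ × ℤ, 0 ≤ D * (hw 2 (((q.1 : ℝ) - D * y.1) / D) * nkg D ((q.2 : ℝ) - tt q.1)) :=
    fun q => mul_nonneg hD0.le (mul_nonneg (nk_hw_nonneg _ _) (nkg_nonneg hD0 _))
  have hround : ∀ (t : ℝ) (m : ℤ), |((m : ℝ) - t) - (((m - ⌊t⌋).natAbs : ℕ) : ℝ)| ≤ 1 ∨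
      |((m : ℝ) - t) - (-(((m - ⌊t⌋).natAbs : ℕ) : ℝ))| ≤ 1 := by
    intro t m
    have h1 := Int.floor_le t
    have h2 := Int.lt_floor_add_one t
    rcases le_total 0 (m - ⌊t⌋) with h | h
    · left
      have e : (((m - ⌊t⌋).natAbs : ℕ) : ℝ) = (m : ℝ) - ⌊t⌋ := by
        rw [← Int.cast_natCast, Int.natAbs_of_nonneg h]; push_cast; ring
      rw [e, abs_le]
      constructor <;> linarith
    · right
      have e : (((m - ⌊t⌋).natAbs : ℕ) : ℝ) = -((m : ℝ) - ⌊t⌋) := by
        have : (((m - ⌊t⌋).natAbs : ℕ) : ℤ) = -(m - ⌊t⌋) := by omega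
        rw [← Int.cast_natCast, this]; push_cast; ring
      rw [e, abs_le]
      constructor <;> linarith
  have inner : ∀ (t : ℝ) (B : Finset ℤ), ∑ m ∈ B, nkg D ((m : ℝ) - t) ≤ 16 * (d + 1) := by
    intro t B
    calc ∑ m ∈ B, nkg D ((m : ℝ) - t) ≤ ∑ m ∈ B, 4 * nkg D (((m - ⌊t⌋).natAbs : ℕ) : ℝ) := by
          apply Finset.sum_le_sum
          intro m _
          rcases hround t m with h | h
          · exact nkg_shift hD1 _ _ h
          · have := nkg_shift hD1 _ _ h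
            unfold nkg at this ⊢
            rwa [abs_neg] at this
      _ = 4 * ∑ m ∈ B, nkg D (((m - ⌊t⌋).natAbs : ℕ) : ℝ) := by rw [Finset.mul_sum]
      _ ≤ 4 * (2 * (2 + Real.log D)) := by
          apply mul_le_mul_of_nonneg_left _ (by norm_num)
          exact nk_int_sum (fun i => nkg D i) (fun i => nkg_nonneg hD0 _) ⌊t⌋ B _
            (nk_partial1 D hD)
      _ ≤ _ := by linarith
  have outer : ∀ (t : ℝ) (B : Finset ℤ), ∑ m ∈ B, hw 2 (((m : ℝ) - t) / D) ≤ 16 * D := by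
    intro t B
    calc ∑ m ∈ B, hw 2 (((m : ℝ) - t) / D) ≤
          ∑ m ∈ B, 4 * hw 2 ((((m - ⌊t⌋).natAbs : ℕ) : ℝ) / D) := by
          apply Finset.sum_le_sum
          intro m _
          rcases hround t m with h | h
          · exact nk_hw2_shift hD1 _ _ h
          · have := nk_hw2_shift hD1 _ _ h
            rwa [neg_div, nk_hw_neg] at this
      _ = 4 * ∑ m ∈ B, hw 2 ((((m - ⌊t⌋).natAbs : ℕ) : ℝ) / D) := by rw [Finset.mul_sum]
      _ ≤ 4 * (2 * (2 * D)) := by
          apply mul_le_mul_of_nonneg_left _ (by norm_num)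
          exact nk_int_sum (fun i => hw 2 ((i : ℝ) / D)) (fun i => nk_hw_nonneg _ _) ⌊t⌋ B _
            (nk_partial2 D hD)
      _ = _ := by ring
  rw [hcast]
  simp only [hterm]
  calc ∑ q ∈ S, (D : ℝ) * (hw 2 (((q.1 : ℝ) - D * y.1) / D) * nkg D ((q.2 : ℝ) - tt q.1))
      ≤ ∑ q ∈ (S.image Prod.fst) ×ˢ (S.image Prod.snd),
          (D : ℝ) * (hw 2 (((q.1 : ℝ) - D * y.1) / D) * nkg D ((q.2 : ℝ) - tt q.1)) := by
        apply Finset.sum_le_sum_of_subset_of_nonneg _ fun q _ _ => hnn q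
        intro q hq
        exact Finset.mem_product.mpr ⟨Finset.mem_image_of_mem _ hq, Finset.mem_image_of_mem _ hq⟩
    _ = ∑ q1 ∈ S.image Prod.fst, (D : ℝ) * hw 2 (((q1 : ℝ) - D * y.1) / D) *
          ∑ q2 ∈ S.image Prod.snd, nkg D ((q2 : ℝ) - tt q1) := by
        rw [Finset.sum_product]
        apply Finset.sum_congr rfl
        intro q1 _
        rw [Finset.mul_sum]
        exact Finset.sum_congr rfl fun q2 _ => by ring
    _ ≤ ∑ q1 ∈ S.image Prod.fst, (D : ℝ) * hw 2 (((q1 : ℝ) - D * y.1) / D) * (16 * (d + 1)) := by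
        apply Finset.sum_le_sum
        intro q1 _
        exact mul_le_mul_of_nonneg_left (inner _ _) (mul_nonneg hD0.le (nk_hw_nonneg _ _))
    _ = (D * (16 * (d + 1))) * ∑ q1 ∈ S.image Prod.fst, hw 2 (((q1 : ℝ) - D * y.1) / D) := by
        rw [Finset.mul_sum]
        exact Finset.sum_congr rfl fun q1 _ => by ring
    _ ≤ (D * (16 * (d + 1))) * (16 * D) :=
        mul_le_mul_of_nonneg_left (outer _ _) (by positivity)
    _ = 256 * (d + 1) * 4 ^ d := by
        have : (D : ℝ) * D = 4 ^ d := by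
          rw [← hcast, ← mul_pow]; norm_num
        calc (D : ℝ) * (16 * (d + 1)) * (16 * D) = 256 * (d + 1) * (D * D) := by ring
          _ = _ := by rw [this]

/-! ### the discrete Nikodym estimate -/

/-- the corner of the cell -/
noncomputable def nkcor (D : ℕ) (q : ℤ × ℤ) : ℝ × ℝ := ((q.1 : ℝ) / D, (q.2 : ℝ) / D)

theorem nk_cell_vol (D : ℕ) (hD : 1 ≤ D) (v : ℤ × ℤ) :
    volume (cell D v) = ENNReal.ofReal (1 / (D : ℝ) ^ 2) ∧ MeasurableSet (cell D v) := by
  have hD0 : (0 : ℝ) < D := by exact_mod_cast hD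
  have e : cell D v = (Set.Ico ((v.1 : ℝ) / D) (((v.1 : ℝ) + 1) / D)) ×ˢ
      (Set.Ico ((v.2 : ℝ) / D) (((v.2 : ℝ) + 1) / D)) := by
    ext x
    simp only [cell, Set.mem_ofPred_eq, Set.mem_prod, Set.mem_Ico]
    rw [div_le_iff₀ hD0, lt_div_iff₀ hD0, div_le_iff₀ hD0, lt_div_iff₀ hD0, mul_comm x.1,
      mul_comm x.2]
    tauto
  constructor
  · rw [e, Measure.volume_eq_prod, Measure.prod_prod, Real.volume_Ico, Real.volume_Ico,
      ← ENNReal.ofReal_mul]
    · congr 1
      field_simp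
      ring
    · rw [← sub_div]
      apply div_nonneg _ hD0.le
      linarith
  · rw [e]
    exact measurableSet_Ico.prod measurableSet_Ico

theorem nk_cell_disj (D : ℕ) (v v' : ℤ × ℤ) (h : v ≠ v') : Disjoint (cell D v) (cell D v') := by
  rw [Set.disjoint_left]
  intro x hx hx'
  apply h
  simp only [cell, Set.mem_ofPred_eq] at hx hx'
  obtain ⟨a1, a2, a3, a4⟩ := hx
  obtain ⟨b1, b2, b3, b4⟩ := hx'
  have c1 : v.1 < v'.1 + 1 := by exact_mod_cast lt_of_le_of_lt a1 b2
  have c2 : v'.1 < v.1 + 1 := by exact_mod_cast lt_of_le_of_lt b1 a2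
  have c3 : v.2 < v'.2 + 1 := by exact_mod_cast lt_of_le_of_lt a3 b4
  have c4 : v'.2 < v.2 + 1 := by exact_mod_cast lt_of_le_of_lt b3 a4
  exact Prod.ext (by omega) (by omega)

/-- the weight at the corner is controlled by the weight in the cell -/
theorem nk_wk_cell (D : ℕ) (hD : 1 ≤ D) (k : ℤ) (hk : k ∈ Ks D) (q v : ℤ × ℤ) (y : ℝ × ℝ)
    (hy : y ∈ cell D v) :
    wk D k 4 (((q.1 - v.1 : ℤ) : ℝ) / D, ((q.2 - v.2 : ℤ) : ℝ) / D) ≤
      234256 * wk D k 4 (y - nkcor D q) := by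
  have hD1 : (1 : ℝ) ≤ D := by exact_mod_cast hD
  have hD0 : (0 : ℝ) < D := by linarith
  obtain ⟨a1, a2, a3, a4⟩ := hy
  have hkabs : |(k : ℝ)| ≤ 9 * D := by
    have h1 := Finset.mem_Icc.mp hk
    have h3 : |k| ≤ 9 * (D : ℤ) := by
      rw [abs_le]
      constructor <;> linarith [h1.1, h1.2]
    exact_mod_cast h3
  unfold wk nkcor
  simp only [Prod.fst_sub, Prod.snd_sub]
  set s1 : ℝ := D * y.1 - v.1 with hs1
  set s2 : ℝ := D * y.2 - v.2 with hs2
  have hs1' : |s1| ≤ 1 := by rw [abs_le]; constructor <;> linarith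
  have hs2' : |s2| ≤ 1 := by rw [abs_le]; constructor <;> linarith
  have e1 : y.1 - (q.1 : ℝ) / D = -(((q.1 - v.1 : ℤ) : ℝ) / D) + s1 / D := by
    rw [hs1]; push_cast; field_simp; ring
  have e2 : (D : ℝ) * (y.2 - (q.2 : ℝ) / D) - k * (y.1 - (q.1 : ℝ) / D) =
      -((D : ℝ) * (((q.2 - v.2 : ℤ) : ℝ) / D) - k * (((q.1 - v.1 : ℤ) : ℝ) / D)) +
        (s2 - k * s1 / D) := by
    rw [e1, hs2]; push_cast; field_simp; ring
  have h1 : hw 4 (((q.1 - v.1 : ℤ) : ℝ) / D) ≤ 2 ^ 4 * hw 4 (y.1 - (q.1 : ℝ) / D) := by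
    apply nk_hw_comp 4 (by norm_num)
    rw [e1]
    have h2 := abs_add_le (-(((q.1 - v.1 : ℤ) : ℝ) / D)) (s1 / D)
    rw [abs_neg] at h2
    have h3 : |s1 / D| ≤ 1 := by
      rw [abs_div, abs_of_pos hD0, div_le_one hD0]; linarith
    have h4 := abs_nonneg (((q.1 - v.1 : ℤ) : ℝ) / D)
    linarith
  have h2 : hw 4 ((D : ℝ) * (((q.2 - v.2 : ℤ) : ℝ) / D) - k * (((q.1 - v.1 : ℤ) : ℝ) / D)) ≤
      11 ^ 4 * hw 4 ((D : ℝ) * (y.2 - (q.2 : ℝ) / D) - k * (y.1 - (q.1 : ℝ) / D)) := by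
    apply nk_hw_comp 4 (by norm_num)
    rw [e2]
    set U := (D : ℝ) * (((q.2 - v.2 : ℤ) : ℝ) / D) - k * (((q.1 - v.1 : ℤ) : ℝ) / D)
    have h2 := abs_add_le (-U) (s2 - k * s1 / D)
    rw [abs_neg] at h2
    have h3 : |s2 - k * s1 / D| ≤ 10 := by
      have h5 : |(k : ℝ) * s1 / D| ≤ 9 := by
        rw [abs_div, abs_mul, abs_of_pos hD0, div_le_iff₀ hD0]
        calc |(k : ℝ)| * |s1| ≤ (9 * D) * 1 :=
              mul_le_mul hkabs hs1' (abs_nonneg _) (by positivity)
          _ = _ := by ring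
      have := abs_sub s2 (k * s1 / D)
      linarith
    have h4 := abs_nonneg U
    linarith
  have hw0 := nk_hw_nonneg
  calc (D : ℝ) * hw 4 (((q.1 - v.1 : ℤ) : ℝ) / D) *
        hw 4 ((D : ℝ) * (((q.2 - v.2 : ℤ) : ℝ) / D) - k * (((q.1 - v.1 : ℤ) : ℝ) / D))
      ≤ (D : ℝ) * (2 ^ 4 * hw 4 (y.1 - (q.1 : ℝ) / D)) *
        (11 ^ 4 * hw 4 ((D : ℝ) * (y.2 - (q.2 : ℝ) / D) - k * (y.1 - (q.1 : ℝ) / D))) := by
        apply mul_le_mul (mul_le_mul_of_nonneg_left h1 hD0.le) h2 (hw0 _ _)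
        have := hw0 4 (y.1 - (q.1 : ℝ) / D)
        positivity
    _ = _ := by ring

theorem nik_claim : NikClaim := by
  obtain ⟨CK, hCK1, hCK⟩ := kbound
  obtain ⟨CM, hCM1, hCM⟩ := mmsum
  refine ⟨234256 ^ 2 * CK * CM, by nlinarith [mul_le_mul hCK1 hCM1 zero_le_one (by linarith)], ?_⟩
  intro d X V δ hδ hX
  classical
  have hD : 1 ≤ 2 ^ d := Nat.one_le_two_pow
  set D : ℕ := 2 ^ d with hDdef
  have hcast : ((2 : ℝ) ^ d) = (D : ℝ) := by rw [hDdef]; push_cast; rfl
  have h4 : ((4 : ℝ) ^ d) = (D : ℝ) ^ 2 := by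
    rw [← hcast, ← pow_mul, mul_comm, pow_mul]; norm_num
  have hD0 : (0 : ℝ) < D := by exact_mod_cast hD
  have hnn := nk_wk_nonneg
  choose! kk hk1 hk2 using hX
  rw [hcast] at hk2
  set z : ℤ × ℤ → ℤ × ℤ → ℝ × ℝ := fun q v =>
    (((q.1 - v.1 : ℤ) : ℝ) / D, ((q.2 - v.2 : ℤ) : ℝ) / D) with hz
  -- one pair
  have hpair : ∀ q ∈ X, ∀ q' ∈ X, ∑ v ∈ V, wk D (kk q) 4 (z q v) * wk D (kk q') 4 (z q' v) ≤
      234256 ^ 2 * D ^ 2 * (CK * MM D (kk q) (nkcor D q' - nkcor D q)) := by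
    intro q hq q' hq'
    obtain ⟨hint, hle⟩ := hCK D hD (kk q) (hk1 q hq) (kk q') (hk1 q' hq') (nkcor D q) (nkcor D q')
    set Fy : ℝ × ℝ → ℝ := fun y => wk D (kk q) 4 (y - nkcor D q) * wk D (kk q') 4 (y - nkcor D q')
    have hFy0 : ∀ y, 0 ≤ Fy y := fun y => mul_nonneg (hnn _ _ _ _) (hnn _ _ _ _)
    have hone : ∀ v ∈ V, wk D (kk q) 4 (z q v) * wk D (kk q') 4 (z q' v) ≤
        234256 ^ 2 * D ^ 2 * ∫ y in cell D v, Fy y := by
      intro v _
      obtain ⟨hvol, hmeas⟩ := nk_cell_vol D hD v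
      have h1 : ∀ y ∈ cell D v, (234256 ^ 2 : ℝ)⁻¹ *
          (wk D (kk q) 4 (z q v) * wk D (kk q') 4 (z q' v)) ≤ Fy y := by
        intro y hy
        have a1 := nk_wk_cell D hD (kk q) (hk1 q hq) q v y hy
        have a2 := nk_wk_cell D hD (kk q') (hk1 q' hq') q' v y hy
        rw [inv_mul_le_iff₀ (by norm_num)]
        calc wk D (kk q) 4 (z q v) * wk D (kk q') 4 (z q' v)
            ≤ (234256 * wk D (kk q) 4 (y - nkcor D q)) *
              (234256 * wk D (kk q') 4 (y - nkcor D q')) :=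
              mul_le_mul a1 a2 (hnn _ _ _ _) (mul_nonneg (by norm_num) (hnn _ _ _ _))
          _ = _ := by ring
      have h2 : ∫ y in cell D v, ((234256 ^ 2 : ℝ)⁻¹ *
          (wk D (kk q) 4 (z q v) * wk D (kk q') 4 (z q' v))) ≤ ∫ y in cell D v, Fy y := by
        apply setIntegral_mono_on _ hint.integrableOn hmeas h1
        exact integrableOn_const (by rw [hvol]; exact ENNReal.ofReal_ne_top) enorm_ne_top
      rw [setIntegral_const, smul_eq_mul, measureReal_def, hvol,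
        ENNReal.toReal_ofReal (by positivity)] at h2
      have h3 : (234256 : ℝ) ^ 2 * D ^ 2 * (1 / (D : ℝ) ^ 2 * ((234256 ^ 2 : ℝ)⁻¹ *
          (wk D (kk q) 4 (z q v) * wk D (kk q') 4 (z q' v)))) =
          wk D (kk q) 4 (z q v) * wk D (kk q') 4 (z q' v) := by
        field_simp
      calc _ = (234256 : ℝ) ^ 2 * D ^ 2 * (1 / (D : ℝ) ^ 2 * ((234256 ^ 2 : ℝ)⁻¹ *
          (wk D (kk q) 4 (z q v) * wk D (kk q') 4 (z q' v)))) := h3.symm
        _ ≤ _ := mul_le_mul_of_nonneg_left h2 (by positivity)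
    calc ∑ v ∈ V, wk D (kk q) 4 (z q v) * wk D (kk q') 4 (z q' v)
        ≤ ∑ v ∈ V, 234256 ^ 2 * (D : ℝ) ^ 2 * ∫ y in cell D v, Fy y := Finset.sum_le_sum hone
      _ = 234256 ^ 2 * (D : ℝ) ^ 2 * ∑ v ∈ V, ∫ y in cell D v, Fy y := by rw [Finset.mul_sum]
      _ = 234256 ^ 2 * (D : ℝ) ^ 2 * ∫ y in ⋃ v ∈ V, cell D v, Fy y := by
          rw [integral_biUnion_finset V (fun v _ => (nk_cell_vol D hD v).2)
            (fun v _ v' _ h => nk_cell_disj D v v' h) (fun v _ => hint.integrableOn)]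
      _ ≤ 234256 ^ 2 * (D : ℝ) ^ 2 * ∫ y, Fy y := by
          apply mul_le_mul_of_nonneg_left _ (by positivity)
          exact setIntegral_le_integral hint (Filter.Eventually.of_forall hFy0)
      _ ≤ _ := mul_le_mul_of_nonneg_left hle (by positivity)
  -- sum over the pairs
  set B : ℝ := 234256 ^ 2 * CK * CM * (d + 1) * (D : ℝ) ^ 4 with hB
  have hsq : ∑ v ∈ V, (∑ q ∈ X, wk D (kk q) 4 (z q v)) ^ 2 ≤ B * X.card := by
    calc ∑ v ∈ V, (∑ q ∈ X, wk D (kk q) 4 (z q v)) ^ 2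
        = ∑ q ∈ X, ∑ q' ∈ X, ∑ v ∈ V, wk D (kk q) 4 (z q v) * wk D (kk q') 4 (z q' v) := by
          simp only [sq, Finset.sum_mul_sum]
          rw [Finset.sum_comm]
          apply Finset.sum_congr rfl
          intro q _
          rw [Finset.sum_comm]
      _ ≤ ∑ q ∈ X, ∑ q' ∈ X, 234256 ^ 2 * (D : ℝ) ^ 2 *
          (CK * MM D (kk q) (nkcor D q' - nkcor D q)) :=
          Finset.sum_le_sum fun q hq => Finset.sum_le_sum fun q' hq' => hpair q hq q' hq'
      _ = ∑ q ∈ X, 234256 ^ 2 * (D : ℝ) ^ 2 * CK *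
          ∑ q' ∈ X, MM D (kk q) (nkcor D q' - nkcor D q) := by
          apply Finset.sum_congr rfl
          intro q _
          rw [Finset.mul_sum]
          exact Finset.sum_congr rfl fun q' _ => by ring
      _ ≤ ∑ q ∈ X, 234256 ^ 2 * (D : ℝ) ^ 2 * CK * (CM * (d + 1) * (D : ℝ) ^ 2) := by
          apply Finset.sum_le_sum
          intro q hq
          apply mul_le_mul_of_nonneg_left _ (by positivity)
          have := hCM d (kk q) (hk1 q hq) (nkcor D q) X
          rw [h4, hcast] at this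
          exact this
      _ = _ := by
          rw [Finset.sum_const, nsmul_eq_mul, hB]
          ring
  have hsum : δ * (D : ℝ) ^ 2 * X.card ≤ ∑ v ∈ V, ∑ q ∈ X, wk D (kk q) 4 (z q v) := by
    rw [Finset.sum_comm]
    calc δ * (D : ℝ) ^ 2 * X.card = ∑ q ∈ X, δ * (D : ℝ) ^ 2 := by
          rw [Finset.sum_const, nsmul_eq_mul]; ring
      _ ≤ _ := by
          apply Finset.sum_le_sum
          intro q hq
          have := hk2 q hq
          rw [h4] at this
          exact this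
  have hcs : (∑ v ∈ V, ∑ q ∈ X, wk D (kk q) 4 (z q v)) ^ 2 ≤
      V.card * ∑ v ∈ V, (∑ q ∈ X, wk D (kk q) 4 (z q v)) ^ 2 := sq_sum_le_card_mul_sum_sq
  rcases X.eq_empty_or_nonempty with hXe | hXe
  · rw [hXe]
    simp only [Finset.card_empty, Nat.cast_zero]
    positivity
  have hXc : (0 : ℝ) < X.card := by exact_mod_cast hXe.card_pos
  have h5 : (δ * (D : ℝ) ^ 2 * X.card) ^ 2 ≤ V.card * (B * X.card) :=
    calc (δ * (D : ℝ) ^ 2 * X.card) ^ 2 ≤ (∑ v ∈ V, ∑ q ∈ X, wk D (kk q) 4 (z q v)) ^ 2 :=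
          pow_le_pow_left₀ (by positivity) hsum 2
      _ ≤ _ := hcs
      _ ≤ _ := mul_le_mul_of_nonneg_left hsq (by positivity)
  have h6 : δ ^ 2 * (D : ℝ) ^ 4 * X.card ≤ V.card * B := by
    have : (δ ^ 2 * (D : ℝ) ^ 4 * X.card) * X.card ≤ (V.card * B) * X.card := by
      calc _ = (δ * (D : ℝ) ^ 2 * X.card) ^ 2 := by ring
        _ ≤ _ := h5
        _ = _ := by ring
    exact le_of_mul_le_mul_right this hXc
  rw [div_mul_eq_mul_div, le_div_iff₀ (by positivity)]
  have h7 : (X.card * δ ^ 2) * (D : ℝ) ^ 4 ≤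
      (234256 ^ 2 * CK * CM * (d + 1) * V.card) * (D : ℝ) ^ 4 := by
    calc _ = δ ^ 2 * (D : ℝ) ^ 4 * X.card := by ring
      _ ≤ _ := h6
      _ = _ := by rw [hB]; ring
  exact le_of_mul_le_mul_right h7 (by positivity)

end Pool.Agent.Helper32.KS
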