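import Pool.Agent.Helper32.KS.Four

/-!
# Module 6: uniform decay of the Fourier transforms of a smooth family
-/

set_option autoImplicit false
set_option linter.unusedSectionVars false

open MeasureTheory
open scoped BigOperators Real ContDiff Topology

namespace Pool.Agent.Helper32.KS

noncomputable section

section osc

variable {E : Type*} [NormedAddCommGroup E] [NormedSpace ℝ E]

/-- directional derivative -/
def osD (w : ℝ × ℝ) (Ψ : ℝ × ℝ × E → ℝ) (x : ℝ × ℝ × E) : ℝ := fderiv ℝ Ψ x (w.1, w.2, 0)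

/-- smooth and supported in `[-R, R]²` for the parameters in `K` -/
structure OsGood (K : Set E) (R : ℝ) (Ψ : ℝ × ℝ × E → ℝ) : Prop where
  smooth : ContDiff ℝ ∞ Ψ
  supp : ∀ p ∈ K, ∀ a b : ℝ, Ψ (a, b, p) ≠ 0 → |a| ≤ R ∧ |b| ≤ R

lemma os_line {Ψ : ℝ × ℝ × E → ℝ} (hΨ : ContDiff ℝ ∞ Ψ) (w : ℝ × ℝ) (a b : ℝ) (p : E) :
    HasDerivAt (fun t : ℝ => Ψ (a + t * w.1, b + t * w.2, p)) (osD w Ψ (a, b, p)) 0 := by
  have h1 : HasFDerivAt Ψ (fderiv ℝ Ψ (a, b, p)) (a, b, p) :=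
    (hΨ.differentiable (by simp)).differentiableAt.hasFDerivAt
  have h2 : HasDerivAt (fun t : ℝ => ((a + t * w.1, b + t * w.2, p) : ℝ × ℝ × E))
      (w.1, w.2, 0) 0 := by
    have e1 : HasDerivAt (fun t : ℝ => a + t * w.1) w.1 0 := by
      simpa using ((hasDerivAt_id (0 : ℝ)).mul_const w.1).const_add a
    have e2 : HasDerivAt (fun t : ℝ => b + t * w.2) w.2 0 := by
      simpa using ((hasDerivAt_id (0 : ℝ)).mul_const w.2).const_add b
    have e3 : HasDerivAt (fun _ : ℝ => p) 0 0 := hasDerivAt_const 0 p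
    exact e1.prodMk (e2.prodMk e3)
  have h3 : HasFDerivAt Ψ (fderiv ℝ Ψ (a, b, p))
      ((fun t : ℝ => ((a + t * w.1, b + t * w.2, p) : ℝ × ℝ × E)) 0) := by
    simpa using h1
  exact h3.comp_hasDerivAt 0 h2

lemma OsGood.deriv {K : Set E} {R : ℝ} {Ψ : ℝ × ℝ × E → ℝ} (h : OsGood K R Ψ) (w : ℝ × ℝ) :
    OsGood K R (osD w Ψ) := by
  refine ⟨?_, ?_⟩
  · unfold osD
    exact (h.smooth.fderiv_right (m := ∞) (by simp)).clm_apply contDiff_const
  · intro p hp a b hne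
    by_contra hcon
    apply hne
    have h1 := os_line h.smooth w a b p
    have hopen : IsOpen {t : ℝ | R < |a + t * w.1| ∨ R < |b + t * w.2|} := by
      refine IsOpen.union ?_ ?_
      · exact isOpen_lt continuous_const (by fun_prop : Continuous fun t : ℝ => |a + t * w.1|)
      · exact isOpen_lt continuous_const (by fun_prop : Continuous fun t : ℝ => |b + t * w.2|)
    have hmem : (0 : ℝ) ∈ {t : ℝ | R < |a + t * w.1| ∨ R < |b + t * w.2|} := by
      rw [not_and_or, not_le, not_le] at hcon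
      simpa using hcon
    have hz : (fun t : ℝ => Ψ (a + t * w.1, b + t * w.2, p)) =ᶠ[𝓝 0] fun _ => 0 := by
      filter_upwards [hopen.mem_nhds hmem] with t ht
      by_contra hc
      obtain ⟨c1, c2⟩ := h.supp p hp _ _ hc
      rcases ht with ht | ht <;> linarith
    have h2 : HasDerivAt (fun t : ℝ => Ψ (a + t * w.1, b + t * w.2, p)) 0 0 :=
      (hasDerivAt_const 0 (0 : ℝ)).congr_of_eventuallyEq hz
    exact h1.unique h2

lemma OsGood.bdd {K : Set E} (hK : IsCompact K) {R : ℝ} {Ψ : ℝ × ℝ × E → ℝ}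
    (h : OsGood K R Ψ) : ∃ C : ℝ, 0 ≤ C ∧ ∀ p ∈ K, ∀ a b : ℝ, |Ψ (a, b, p)| ≤ C := by
  have hc : IsCompact (Set.Icc (-R) R ×ˢ (Set.Icc (-R) R ×ˢ K)) :=
    isCompact_Icc.prod (isCompact_Icc.prod hK)
  obtain ⟨C, hC⟩ := hc.exists_bound_of_continuousOn h.smooth.continuous.continuousOn
  refine ⟨max C 0, le_max_right _ _, fun p hp a b => ?_⟩
  by_cases hz : Ψ (a, b, p) = 0
  · rw [hz, abs_zero]
    exact le_max_right _ _
  · obtain ⟨h1, h2⟩ := h.supp p hp a b hz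
    exact (hC (a, b, p) ⟨abs_le.1 h1, abs_le.1 h2, hp⟩).trans (le_max_left _ _)

/-- the integral -/
def osJ (Ψ : ℝ × ℝ × E → ℝ) (p : E) (u v : ℝ) : ℂ :=
  ∫ z : ℝ × ℝ, (Ψ (z.1, z.2, p) : ℂ) * e (u * z.1 + v * z.2)

lemma os_cont {Ψ : ℝ × ℝ × E → ℝ} (hΨ : Continuous Ψ) (p : E) :
    Continuous fun z : ℝ × ℝ => (Ψ (z.1, z.2, p) : ℂ) :=
  Complex.continuous_ofReal.comp (hΨ.comp (by fun_prop))

lemma OsGood.cs {K : Set E} {R : ℝ} {Ψ : ℝ × ℝ × E → ℝ} (h : OsGood K R Ψ) (p : E) (hp : p ∈ K)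
    {g : ℝ × ℝ → ℂ} (hg : Continuous g) :
    Integrable fun z : ℝ × ℝ => (Ψ (z.1, z.2, p) : ℂ) * g z := by
  refine ((os_cont h.smooth.continuous p).mul hg).integrable_of_hasCompactSupport ?_
  refine HasCompactSupport.intro (K := Set.Icc (-R) R ×ˢ Set.Icc (-R) R)
    (isCompact_Icc.prod isCompact_Icc) fun z hz => ?_
  have : Ψ (z.1, z.2, p) = 0 := by
    by_contra hc
    obtain ⟨c1, c2⟩ := h.supp p hp _ _ hc
    exact hz ⟨abs_le.1 c1, abs_le.1 c2⟩
  show ((Ψ (z.1, z.2, p) : ℝ) : ℂ) * g z = 0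
  rw [this]
  simp

lemma os_e_line (u v : ℝ) (w z : ℝ × ℝ) :
    HasLineDerivAt ℝ (fun z : ℝ × ℝ => e (u * z.1 + v * z.2))
      (2 * π * Complex.I * ((u * w.1 + v * w.2 : ℝ) : ℂ) * e (u * z.1 + v * z.2)) z w := by
  unfold HasLineDerivAt e
  have h1 : HasDerivAt (fun t : ℝ => ((u * (z + t • w).1 + v * (z + t • w).2 : ℝ) : ℂ))
      ((u * w.1 + v * w.2 : ℝ) : ℂ) 0 := by
    apply HasDerivAt.ofReal_comp
    have e1 : HasDerivAt (fun t : ℝ => u * (z.1 + t * w.1) + v * (z.2 + t * w.2))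
        (u * w.1 + v * w.2) 0 := by
      have a1 : HasDerivAt (fun t : ℝ => z.1 + t * w.1) w.1 0 := by
        simpa using ((hasDerivAt_id (0 : ℝ)).mul_const w.1).const_add z.1
      have a2 : HasDerivAt (fun t : ℝ => z.2 + t * w.2) w.2 0 := by
        simpa using ((hasDerivAt_id (0 : ℝ)).mul_const w.2).const_add z.2
      exact (a1.const_mul u).add (a2.const_mul v)
    exact e1
  have h2 := (h1.const_mul (2 * π * Complex.I)).cexp
  have h3 : HasDerivAt (fun t : ℝ => Complex.exp (2 * π * Complex.I *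
      ((u * (z + t • w).1 + v * (z + t • w).2 : ℝ) : ℂ)))
      (2 * π * Complex.I * ((u * w.1 + v * w.2 : ℝ) : ℂ) *
        Complex.exp (2 * π * Complex.I * ((u * z.1 + v * z.2 : ℝ) : ℂ))) 0 := by
    refine h2.congr_deriv ?_
    rw [zero_smul, add_zero, mul_comm]
  exact h3

lemma os_parts {K : Set E} {R : ℝ} {Ψ : ℝ × ℝ × E → ℝ} (h : OsGood K R Ψ) (p : E) (hp : p ∈ K)
    (u v : ℝ) (w : ℝ × ℝ) :
    2 * π * Complex.I * ((u * w.1 + v * w.2 : ℝ) : ℂ) * osJ Ψ p u v = - osJ (osD w Ψ) p u v := by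
  have hec : Continuous fun z : ℝ × ℝ => e (u * z.1 + v * z.2) := e_cont' (by fun_prop)
  have key := integral_bilinear_hasLineDerivAt_right_eq_neg_left_of_integrable
    (μ := (volume : Measure (ℝ × ℝ))) (B := ContinuousLinearMap.mul ℝ ℂ)
    (f := fun z : ℝ × ℝ => (Ψ (z.1, z.2, p) : ℂ))
    (f' := fun z : ℝ × ℝ => (osD w Ψ (z.1, z.2, p) : ℂ))
    (g := fun z : ℝ × ℝ => e (u * z.1 + v * z.2))
    (g' := fun z : ℝ × ℝ => 2 * π * Complex.I * ((u * w.1 + v * w.2 : ℝ) : ℂ) *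
      e (u * z.1 + v * z.2)) (v := w)
    (by simpa using (h.deriv w).cs p hp hec)
    (by simpa using h.cs p hp (continuous_const.mul hec))
    (by simpa using h.cs p hp hec)
    (by
      intro z _
      have h1 := os_line h.smooth w z.1 z.2 p
      have h2 := h1.ofReal_comp
      exact h2)
    (fun z _ => os_e_line u v w z)
  simp only [ContinuousLinearMap.mul_apply'] at key
  unfold osJ
  rw [← key, ← integral_const_mul]
  congr 1
  funext z
  ring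

lemma os_base {K : Set E} (hK : IsCompact K) {R : ℝ} {Ψ : ℝ × ℝ × E → ℝ}
    (h : OsGood K R Ψ) : ∃ C : ℝ, 0 ≤ C ∧ ∀ p ∈ K, ∀ u v : ℝ, ‖osJ Ψ p u v‖ ≤ C := by
  obtain ⟨C, hC0, hC⟩ := h.bdd hK
  set S : Set (ℝ × ℝ) := Set.Icc (-R) R ×ˢ Set.Icc (-R) R with hS
  have hSc : IsCompact S := isCompact_Icc.prod isCompact_Icc
  have hSm : MeasurableSet S := measurableSet_Icc.prod measurableSet_Icc
  refine ⟨∫ z, S.indicator (fun _ => C) z, integral_nonneg fun z =>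
    Set.indicator_nonneg (fun _ _ => hC0) z, fun p hp u v => ?_⟩
  unfold osJ
  refine norm_integral_le_of_norm_le ?_ (Filter.Eventually.of_forall fun z => ?_)
  · rw [integrable_indicator_iff hSm]
    exact integrableOn_const hSc.measure_lt_top.ne
  · rw [norm_mul, e_norm, mul_one, Complex.norm_real]
    by_cases hz : z ∈ S
    · rw [Set.indicator_of_mem hz]
      exact hC p hp _ _
    · rw [Set.indicator_of_notMem hz]
      have : Ψ (z.1, z.2, p) = 0 := by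
        by_contra hc
        obtain ⟨c1, c2⟩ := h.supp p hp _ _ hc
        exact hz ⟨abs_le.1 c1, abs_le.1 c2⟩
      rw [this, norm_zero]

lemma os_step {K : Set E} {R : ℝ} {Ψ : ℝ × ℝ × E → ℝ} (h : OsGood K R Ψ) (p : E) (hp : p ∈ K)
    (u v : ℝ) (w : ℝ × ℝ) :
    |u * w.1 + v * w.2| * ‖osJ Ψ p u v‖ ≤ ‖osJ (osD w Ψ) p u v‖ := by
  have h1 := congrArg norm (os_parts h p hp u v w)
  rw [norm_neg, norm_mul, norm_mul, norm_mul, norm_mul, Complex.norm_I, Complex.norm_real,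
    Complex.norm_real, Real.norm_of_nonneg Real.pi_pos.le, Complex.norm_two, Real.norm_eq_abs,
    mul_one] at h1
  rw [← h1]
  have h2 : 0 ≤ |u * w.1 + v * w.2| * ‖osJ Ψ p u v‖ := by positivity
  have h3 : (1 : ℝ) ≤ 2 * π := by
    have := Real.pi_gt_three
    linarith
  rw [mul_assoc (2 * π)]
  exact le_mul_of_one_le_left h2 h3

lemma os_all {K : Set E} (hK : IsCompact K) {R : ℝ} (i j : ℕ) : ∀ Ψ : ℝ × ℝ × E → ℝ,
    OsGood K R Ψ → ∃ C : ℝ, 0 ≤ C ∧ ∀ p ∈ K, ∀ u v : ℝ,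
      (1 + |u|) ^ i * (1 + |v|) ^ j * ‖osJ Ψ p u v‖ ≤ C := by
  induction i with
  | zero =>
    induction j with
    | zero =>
      intro Ψ h
      simpa using os_base hK h
    | succ j ih =>
      intro Ψ h
      obtain ⟨C, hC0, hC⟩ := ih Ψ h
      obtain ⟨C', hC'0, hC'⟩ := ih _ (h.deriv (0, 1))
      refine ⟨C + C', by positivity, fun p hp u v => ?_⟩
      have h1 := hC p hp u v
      have h2 := hC' p hp u v
      have h3 := os_step h p hp u v (0, 1)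
      simp only [mul_zero, mul_one, zero_add] at h3
      simp only [pow_zero, one_mul] at h1 h2 ⊢
      have h4 : (1 + |v|) ^ j * (|v| * ‖osJ Ψ p u v‖) ≤ C' :=
        (mul_le_mul_of_nonneg_left h3 (by positivity)).trans h2
      calc (1 + |v|) ^ (j + 1) * ‖osJ Ψ p u v‖ =
          (1 + |v|) ^ j * ‖osJ Ψ p u v‖ + (1 + |v|) ^ j * (|v| * ‖osJ Ψ p u v‖) := by ring
        _ ≤ _ := add_le_add h1 h4
  | succ i ih =>
    intro Ψ h
    obtain ⟨C, hC0, hC⟩ := ih Ψ h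
    obtain ⟨C', hC'0, hC'⟩ := ih _ (h.deriv (1, 0))
    refine ⟨C + C', by positivity, fun p hp u v => ?_⟩
    have h1 := hC p hp u v
    have h2 := hC' p hp u v
    have h3 := os_step h p hp u v (1, 0)
    simp only [mul_zero, mul_one, add_zero] at h3
    have h4 : (1 + |u|) ^ i * (1 + |v|) ^ j * (|u| * ‖osJ Ψ p u v‖) ≤ C' :=
      (mul_le_mul_of_nonneg_left h3 (by positivity)).trans h2
    calc (1 + |u|) ^ (i + 1) * (1 + |v|) ^ j * ‖osJ Ψ p u v‖ =
        (1 + |u|) ^ i * (1 + |v|) ^ j * ‖osJ Ψ p u v‖ +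
          (1 + |u|) ^ i * (1 + |v|) ^ j * (|u| * ‖osJ Ψ p u v‖) := by ring
      _ ≤ _ := add_le_add h1 h4

/-- **Module 6.** -/
theorem osc_bound (Ψ : ℝ × ℝ × E → ℝ) (hΨ : ContDiff ℝ ∞ Ψ) (K : Set E) (hK : IsCompact K) (R : ℝ)
    (hs : ∀ p ∈ K, ∀ a b : ℝ, Ψ (a, b, p) ≠ 0 → |a| ≤ R ∧ |b| ≤ R) (P : ℕ) :
    ∃ C : ℝ, 0 < C ∧ ∀ p ∈ K, ∀ u v : ℝ,
      ‖∫ z : ℝ × ℝ, (Ψ (z.1, z.2, p) : ℂ) * e (u * z.1 + v * z.2)‖ ≤ C * (hw P u * hw P v) := by
  obtain ⟨C, hC0, hC⟩ := os_all hK P P Ψ ⟨hΨ, hs⟩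
  refine ⟨C + 1, by positivity, fun p hp u v => ?_⟩
  have h1 := hC p hp u v
  have h2 : (0 : ℝ) < (1 + |u|) ^ P * (1 + |v|) ^ P := by positivity
  unfold hw
  rw [← mul_inv, ← div_eq_mul_inv, le_div_iff₀ h2]
  unfold osJ at h1
  linarith

end osc

end

end Pool.Agent.Helper32.KS
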