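import Pool.Agent.Helper32.KS.Abs

/-!
# Module 2: the tail claim
-/

set_option autoImplicit false

open MeasureTheory
open scoped BigOperators Real

namespace Pool.Agent.Helper32.KS

noncomputable section

/-! ### weights -/

lemma tl_hw_pos (p : ℕ) (s : ℝ) : 0 < hw p s := by unfold hw; positivity

lemma tl_hw_shift (p : ℕ) (s θ : ℝ) (h : |θ| ≤ 1) : hw p s ≤ 2 ^ p * hw p (s - θ) := by
  unfold hw
  have h1 : 1 + |s - θ| ≤ 2 * (1 + |s|) := by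
    have := abs_sub s θ
    have h0 := abs_nonneg s
    linarith [abs_sub_abs_le_abs_sub s θ, abs_sub s θ]
  have h2 : (1 + |s - θ|) ^ p ≤ 2 ^ p * (1 + |s|) ^ p := by
    rw [← mul_pow]
    exact pow_le_pow_left₀ (by positivity) h1 p
  have h3 : (0 : ℝ) < (1 + |s|) ^ p := by positivity
  have h4 : (0 : ℝ) < (1 + |s - θ|) ^ p := by positivity
  rw [← div_eq_mul_inv, inv_eq_one_div, div_le_div_iff₀ h3 h4]
  linarith

lemma tl_hw_mul (p r : ℕ) (s : ℝ) : hw (p + r) s = hw p s * hw r s := by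
  unfold hw
  rw [pow_add, mul_inv]

lemma tl_wk_nonneg (D : ℕ) (k : ℤ) (r : ℕ) (z : ℝ × ℝ) : 0 ≤ wk D k r z := by
  unfold wk
  have h1 := (tl_hw_pos r z.1).le
  have h2 := (tl_hw_pos r (D * z.2 - k * z.1)).le
  positivity

lemma tl_cw_nonneg (D : ℕ) (k : ℤ) (r : ℕ) (q T : ℤ × ℤ) : 0 ≤ cw D k r q T := by
  unfold cw
  exact mul_nonneg (tl_hw_pos _ _).le (tl_hw_pos _ _).le

lemma tl_MM_nonneg (D : ℕ) (k : ℤ) (z : ℝ × ℝ) : 0 ≤ MM D k z := by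
  unfold MM
  have h1 := (tl_hw_pos 2 z.1).le
  positivity

lemma tl_cw_mul (D : ℕ) (k : ℤ) (q T : ℤ × ℤ) : cw D k 6 q T = cw D k 4 q T * cw D k 2 q T := by
  unfold cw
  rw [show (6 : ℕ) = 4 + 2 from rfl, tl_hw_mul, tl_hw_mul]
  ring

/-! ### tiles -/

lemma tl_mem_cells (D : ℕ) (hD : 1 ≤ D) (k : ℤ) (T q : ℤ × ℤ) :
    q ∈ cells D k T ↔ tile D k q = T := by
  have hD' : (0 : ℤ) < D := by exact_mod_cast hD
  unfold cells tile
  rw [Finset.mem_image]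
  constructor
  · rintro ⟨i, hi, rfl⟩
    have hi' : (i : ℤ) < D := by exact_mod_cast Finset.mem_range.1 hi
    have h1 : ((D : ℤ) * T.1 + i) / D = T.1 := by
      rw [add_comm, Int.add_mul_ediv_left _ _ hD'.ne', Int.ediv_eq_zero_of_lt (by positivity) hi',
        zero_add]
    refine Prod.ext h1 ?_
    simp
  · intro h
    have h1 : q.1 / D = T.1 := congrArg Prod.fst h
    have h2 : q.2 + (-k * q.1) / D = T.2 := congrArg Prod.snd h
    refine ⟨(q.1 % D).toNat, ?_, ?_⟩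
    · rw [Finset.mem_range]
      have := Int.emod_lt_of_pos q.1 hD'
      have h0 := Int.emod_nonneg q.1 hD'.ne'
      omega
    · have h0 := Int.emod_nonneg q.1 hD'.ne'
      have h3 : (D : ℤ) * T.1 + ((q.1 % D).toNat : ℤ) = q.1 := by
        rw [Int.toNat_of_nonneg h0, ← h1]
        exact Int.mul_ediv_add_emod q.1 D
      refine Prod.ext h3 ?_
      show T.2 - (-k * ((D : ℤ) * T.1 + ((q.1 % D).toNat : ℤ))) / D = q.2
      rw [h3, ← h2]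
      ring

lemma tl_card_cells (D : ℕ) (k : ℤ) (T : ℤ × ℤ) : (cells D k T).card ≤ D := by
  unfold cells
  exact Finset.card_image_le.trans (by simp)

lemma tl_fl (D : ℕ) (hD : 1 ≤ D) (a : ℤ) :
    0 ≤ (a : ℝ) / D - ((a / (D : ℤ) : ℤ) : ℝ) ∧ (a : ℝ) / D - ((a / (D : ℤ) : ℤ) : ℝ) ≤ 1 := by
  have hD' : (0 : ℤ) < D := by exact_mod_cast hD
  have hD0 : (0 : ℝ) < D := by exact_mod_cast hD
  have h1 : (D : ℤ) * (a / (D : ℤ)) ≤ a := Int.mul_ediv_self_le hD'.ne'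
  have h2 : a < (D : ℤ) * (a / (D : ℤ)) + D := Int.lt_mul_ediv_self_add hD'
  have h1' : (D : ℝ) * ((a / (D : ℤ) : ℤ) : ℝ) ≤ a := by exact_mod_cast h1
  have h2' : (a : ℝ) < (D : ℝ) * ((a / (D : ℤ) : ℤ) : ℝ) + D := by exact_mod_cast h2
  constructor
  · rw [sub_nonneg, le_div_iff₀ hD0]
    linarith
  · rw [sub_le_iff_le_add, div_le_iff₀ hD0]
    nlinarith

/-- position of the cells of a tile -/
lemma tl_pos (D : ℕ) (hD : 1 ≤ D) (k : ℤ) (T q : ℤ × ℤ) (h : q ∈ cells D k T) :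
    |(q.1 : ℝ) / D - T.1| ≤ 1 ∧ |(q.2 : ℝ) - k * q.1 / D - T.2| ≤ 1 := by
  rw [tl_mem_cells D hD] at h
  have h1 : q.1 / D = T.1 := congrArg Prod.fst h
  have h2 : q.2 + (-k * q.1) / D = T.2 := congrArg Prod.snd h
  constructor
  · have := tl_fl D hD q.1
    rw [h1] at this
    rw [abs_le]
    constructor <;> linarith [this.1, this.2]
  · have h3 := tl_fl D hD (-k * q.1)
    have h4 : (T.2 : ℝ) = q.2 + (((-k * q.1) / (D : ℤ) : ℤ) : ℝ) := by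
      rw [← h2]
      push_cast
      rfl
    have h5 : (q.2 : ℝ) - k * q.1 / D - T.2 =
        ((-k * q.1 : ℤ) : ℝ) / D - (((-k * q.1) / (D : ℤ) : ℤ) : ℝ) := by
      rw [h4]
      push_cast
      ring
    rw [h5, abs_le]
    constructor <;> linarith [h3.1, h3.2]

/-- W1 -/
lemma tl_W1 (D : ℕ) (hD : 1 ≤ D) (k : ℤ) (T q : ℤ × ℤ) (h : q ∈ cells D k T) (y : ℝ × ℝ) :
    wk D k 4 (y - xT D k T) ≤ 2 ^ 8 * wk D k 4 (y - ((q.1 : ℝ) / D, (q.2 : ℝ) / D)) := by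
  have hD0 : (0 : ℝ) < D := by exact_mod_cast hD
  obtain ⟨h1, h2⟩ := tl_pos D hD k T q h
  unfold wk xT
  simp only [Prod.fst_sub, Prod.snd_sub]
  have e1 : y.1 - (q.1 : ℝ) / D = (y.1 - T.1) - ((q.1 : ℝ) / D - T.1) := by ring
  have e2 : (D : ℝ) * (y.2 - (q.2 : ℝ) / D) - k * (y.1 - (q.1 : ℝ) / D) =
      ((D : ℝ) * (y.2 - ((T.2 : ℝ) + k * T.1) / D) - k * (y.1 - T.1)) -
        ((q.2 : ℝ) - k * q.1 / D - T.2) := by
    field_simp
    ring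
  rw [e2, e1]
  have a1 := tl_hw_shift 4 (y.1 - T.1) _ h1
  have a2 := tl_hw_shift 4 ((D : ℝ) * (y.2 - ((T.2 : ℝ) + k * T.1) / D) - k * (y.1 - T.1)) _ h2
  have b1 := (tl_hw_pos 4 (y.1 - T.1)).le
  have b2 := (tl_hw_pos 4 ((D : ℝ) * (y.2 - ((T.2 : ℝ) + k * T.1) / D) - k * (y.1 - T.1))).le
  have b3 := mul_le_mul a1 a2 b2 (by
    have := (tl_hw_pos 4 (y.1 - T.1 - ((q.1 : ℝ) / D - T.1))).le
    positivity)
  calc _ = (D : ℝ) * (hw 4 (y.1 - T.1) *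
        hw 4 ((D : ℝ) * (y.2 - ((T.2 : ℝ) + k * T.1) / D) - k * (y.1 - T.1))) := by ring
    _ ≤ _ := mul_le_mul_of_nonneg_left b3 hD0.le
    _ = _ := by ring

/-- W2 -/
lemma tl_W2 (D : ℕ) (hD : 1 ≤ D) (k : ℤ) (T q v : ℤ × ℤ) (h : v ∈ cells D k T) :
    (D : ℝ) * cw D k 4 q T ≤
      2 ^ 8 * wk D k 4 (((q.1 - v.1 : ℤ) : ℝ) / D, ((q.2 - v.2 : ℤ) : ℝ) / D) := by
  have hD0 : (0 : ℝ) < D := by exact_mod_cast hD
  obtain ⟨h1, h2⟩ := tl_pos D hD k T v h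
  unfold wk cw
  simp only
  have e1 : ((q.1 - v.1 : ℤ) : ℝ) / D = ((q.1 : ℝ) / D - T.1) - ((v.1 : ℝ) / D - T.1) := by
    push_cast; ring
  have e2 : (D : ℝ) * (((q.2 - v.2 : ℤ) : ℝ) / D) - k * (((q.1 - v.1 : ℤ) : ℝ) / D) =
      ((q.2 : ℝ) - k * q.1 / D - T.2) - ((v.2 : ℝ) - k * v.1 / D - T.2) := by
    push_cast
    field_simp
    ring
  rw [e2, e1]
  have a1 := tl_hw_shift 4 ((q.1 : ℝ) / D - T.1) _ h1
  have a2 := tl_hw_shift 4 ((q.2 : ℝ) - k * q.1 / D - T.2) _ h2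
  have b2 := (tl_hw_pos 4 ((q.2 : ℝ) - k * q.1 / D - T.2)).le
  have b3 := mul_le_mul a1 a2 b2 (by
    have := (tl_hw_pos 4 ((q.1 : ℝ) / D - T.1 - ((v.1 : ℝ) / D - T.1))).le
    positivity)
  calc _ ≤ _ := mul_le_mul_of_nonneg_left b3 hD0.le
    _ = _ := by ring

/-! ### sums of weights -/

lemma tl_hw_summable : Summable fun i : ℤ => hw 2 (i : ℝ) := by
  have h0 : Summable fun n : ℕ => (((n + 1 : ℕ) : ℝ) ^ 2)⁻¹ :=
    (summable_nat_add_iff 1).2 (Real.summable_nat_pow_inv.2 (by norm_num))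
  have h1 : Summable fun n : ℕ => hw 2 ((n : ℤ) : ℝ) := by
    refine h0.congr fun n => ?_
    unfold hw
    rw [Int.cast_natCast, abs_of_nonneg (by positivity)]
    push_cast
    ring
  refine summable_int_iff_summable_nat_and_neg.2 ⟨h1, ?_⟩
  refine h1.congr fun n => ?_
  unfold hw
  push_cast
  rw [abs_neg]

/-- an absolute constant -/
def tlB : ℝ := 4 * (1 + ∑' i : ℤ, hw 2 (i : ℝ))

lemma tlB_one : 1 ≤ tlB := by
  unfold tlB
  have : 0 ≤ ∑' i : ℤ, hw 2 (i : ℝ) := tsum_nonneg fun i => (tl_hw_pos 2 _).le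
  linarith

lemma tl_sum1 (A : Finset ℤ) (s : ℝ) : ∑ m ∈ A, hw 2 (m - s) ≤ tlB := by
  have h1 : ∀ m ∈ A, hw 2 ((m : ℝ) - s) ≤ 2 ^ 2 * hw 2 (((m - ⌊s⌋ : ℤ) : ℝ)) := by
    intro m _
    have h := tl_hw_shift 2 ((m : ℝ) - s) (-(Int.fract s)) (by
      rw [abs_neg, abs_of_nonneg (Int.fract_nonneg s)]
      exact (Int.fract_lt_one s).le)
    have e : (m : ℝ) - s - -(Int.fract s) = ((m - ⌊s⌋ : ℤ) : ℝ) := by
      have := Int.self_sub_floor s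
      push_cast
      linarith
    rwa [e] at h
  have h2 : ∑ m ∈ A, hw 2 (((m - ⌊s⌋ : ℤ) : ℝ)) ≤ ∑' i : ℤ, hw 2 (i : ℝ) := by
    have e : ∑ m ∈ A, hw 2 (((m - ⌊s⌋ : ℤ) : ℝ)) =
        ∑ i ∈ A.image (fun m => m - ⌊s⌋), hw 2 (i : ℝ) := by
      rw [Finset.sum_image]
      intro a _ b _ hab
      simpa using hab
    rw [e]
    exact tl_hw_summable.sum_le_tsum _ fun i _ => (tl_hw_pos 2 _).le
  calc _ ≤ ∑ m ∈ A, 2 ^ 2 * hw 2 (((m - ⌊s⌋ : ℤ) : ℝ)) := Finset.sum_le_sum h1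
    _ = 2 ^ 2 * ∑ m ∈ A, hw 2 (((m - ⌊s⌋ : ℤ) : ℝ)) := by rw [Finset.mul_sum]
    _ ≤ _ := by unfold tlB; linarith

lemma tl_fiber (D : ℕ) (hD : 1 ≤ D) (A : Finset ℤ) (j : ℤ) :
    (A.filter fun m => m / (D : ℤ) = j).card ≤ D := by
  have hD' : (0 : ℤ) < D := by exact_mod_cast hD
  have h : (A.filter fun m => m / (D : ℤ) = j) ⊆ Finset.Ico ((D : ℤ) * j) ((D : ℤ) * j + D) := by
    intro m hm
    rw [Finset.mem_filter] at hm
    rw [Finset.mem_Ico, ← hm.2]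
    exact ⟨Int.mul_ediv_self_le hD'.ne', Int.lt_mul_ediv_self_add hD'⟩
  calc _ ≤ (Finset.Ico ((D : ℤ) * j) ((D : ℤ) * j + D)).card := Finset.card_le_card h
    _ = D := by simp

lemma tl_sumD (D : ℕ) (hD : 1 ≤ D) (A : Finset ℤ) (s : ℝ) :
    ∑ m ∈ A, hw 2 ((m : ℝ) / D - s) ≤ 4 * tlB * D := by
  have h1 : ∀ m ∈ A, hw 2 ((m : ℝ) / D - s) ≤ 2 ^ 2 * hw 2 (((m / (D : ℤ) : ℤ) : ℝ) - s) := by
    intro m _
    obtain ⟨a, b⟩ := tl_fl D hD m
    have h := tl_hw_shift 2 ((m : ℝ) / D - s) ((m : ℝ) / D - ((m / (D : ℤ) : ℤ) : ℝ)) (by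
      rw [abs_of_nonneg a]
      exact b)
    have e : (m : ℝ) / D - s - ((m : ℝ) / D - ((m / (D : ℤ) : ℤ) : ℝ)) =
        ((m / (D : ℤ) : ℤ) : ℝ) - s := by ring
    rwa [e] at h
  have h2 : ∑ m ∈ A, hw 2 (((m / (D : ℤ) : ℤ) : ℝ) - s) ≤ D * tlB := by
    rw [← Finset.sum_fiberwise_of_maps_to (g := fun m : ℤ => m / (D : ℤ))
      (t := A.image fun m => m / (D : ℤ)) (fun m hm => Finset.mem_image_of_mem _ hm)]
    calc _ ≤ ∑ j ∈ A.image (fun m => m / (D : ℤ)), (D : ℝ) * hw 2 ((j : ℝ) - s) := by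
          refine Finset.sum_le_sum fun j _ => ?_
          have e : ∑ m ∈ A.filter (fun m => m / (D : ℤ) = j), hw 2 (((m / (D : ℤ) : ℤ) : ℝ) - s) =
              ∑ m ∈ A.filter (fun m => m / (D : ℤ) = j), hw 2 ((j : ℝ) - s) :=
            Finset.sum_congr rfl fun m hm => by rw [(Finset.mem_filter.1 hm).2]
          rw [e, Finset.sum_const, nsmul_eq_mul]
          refine mul_le_mul_of_nonneg_right ?_ (tl_hw_pos 2 _).le
          exact_mod_cast tl_fiber D hD A j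
      _ = D * ∑ j ∈ A.image (fun m => m / (D : ℤ)), hw 2 ((j : ℝ) - s) := by rw [Finset.mul_sum]
      _ ≤ _ := mul_le_mul_of_nonneg_left (tl_sum1 _ s) (by positivity)
  calc _ ≤ ∑ m ∈ A, 2 ^ 2 * hw 2 (((m / (D : ℤ) : ℤ) : ℝ) - s) := Finset.sum_le_sum h1
    _ = 2 ^ 2 * ∑ m ∈ A, hw 2 (((m / (D : ℤ) : ℤ) : ℝ) - s) := by rw [Finset.mul_sum]
    _ ≤ _ := by linarith

/-- W3 -/
lemma tl_W3 (D : ℕ) (hD : 1 ≤ D) (k : ℤ) (T : ℤ × ℤ) (S : Finset (ℤ × ℤ)) :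
    ∑ q ∈ S, cw D k 2 q T ≤ 4 * tlB ^ 2 * D := by
  classical
  have h1 : S ⊆ (S.image Prod.fst) ×ˢ (S.image Prod.snd) := by
    intro q hq
    rw [Finset.mem_product]
    exact ⟨Finset.mem_image_of_mem _ hq, Finset.mem_image_of_mem _ hq⟩
  have hB := tlB_one
  calc _ ≤ ∑ q ∈ (S.image Prod.fst) ×ˢ (S.image Prod.snd), cw D k 2 q T :=
        Finset.sum_le_sum_of_subset_of_nonneg h1 fun _ _ _ => tl_cw_nonneg _ _ _ _ _
    _ = ∑ a ∈ S.image Prod.fst, ∑ b ∈ S.image Prod.snd, cw D k 2 (a, b) T := by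
        rw [Finset.sum_product]
    _ ≤ ∑ a ∈ S.image Prod.fst, hw 2 ((a : ℝ) / D - T.1) * tlB := by
        refine Finset.sum_le_sum fun a _ => ?_
        unfold cw
        dsimp only
        rw [← Finset.mul_sum]
        refine mul_le_mul_of_nonneg_left ?_ (tl_hw_pos 2 _).le
        have := tl_sum1 (S.image Prod.snd) ((k : ℝ) * a / D + T.2)
        refine le_trans (le_of_eq (Finset.sum_congr rfl fun b _ => ?_)) this
        congr 1
        ring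
    _ = (∑ a ∈ S.image Prod.fst, hw 2 ((a : ℝ) / D - T.1)) * tlB := by rw [Finset.sum_mul]
    _ ≤ (4 * tlB * D) * tlB := mul_le_mul_of_nonneg_right (tl_sumD D hD _ _) (by linarith)
    _ = _ := by ring

/-! ### the function `g` -/

lemma tl_int_sq {g : ℝ × ℝ → ℂ} (hg : BCS g) (p : ℕ) (hp : 1 ≤ p) :
    Integrable (fun x => ‖g x‖ ^ p) := by
  obtain ⟨C, hC⟩ := hg.bdd
  obtain ⟨R, hR⟩ := hg.supp
  have hK : IsCompact (Set.Icc (-R) R ×ˢ Set.Icc (-R) R) := isCompact_Icc.prod isCompact_Icc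
  have h1 : IntegrableOn (fun x => ‖g x‖ ^ p) (Set.Icc (-R) R ×ˢ Set.Icc (-R) R) := by
    refine Measure.integrableOn_of_bounded (M := (max C 0) ^ p) hK.measure_lt_top.ne
      ((hg.meas.norm.pow_const p).aestronglyMeasurable) ?_
    refine Filter.Eventually.of_forall fun x => ?_
    rw [Real.norm_of_nonneg (by positivity)]
    exact pow_le_pow_left₀ (norm_nonneg _) ((hC x).trans (le_max_left _ _)) p
  refine (integrableOn_iff_integrable_of_support_subset ?_).1 h1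
  intro x hx
  rw [Function.mem_support] at hx
  have : g x ≠ 0 := by
    intro h
    rw [h, norm_zero, zero_pow (by omega)] at hx
    exact hx rfl
  obtain ⟨a, b⟩ := hR x this
  exact ⟨abs_le.1 a, abs_le.1 b⟩

lemma tl_sum_setInt {g : ℝ × ℝ → ℂ} (hg : BCS g) {E : ℕ → Set (ℝ × ℝ)}
    (hE : ∀ l, MeasurableSet (E l)) (hd : ∀ i j, i ≠ j → Disjoint (E i) (E j)) (M : ℕ) :
    ∑ l ∈ Finset.range M, ∫ x in E l, ‖g x‖ ^ 2 ≤ ∫ x, ‖g x‖ ^ 2 := by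
  have hint := tl_int_sq hg 2 (by norm_num)
  rw [← integral_biUnion_finset (Finset.range M) (fun l _ => hE l) (fun i _ j _ h => hd i j h)
    (fun l _ => hint.integrableOn)]
  exact setIntegral_le_integral hint (Filter.Eventually.of_forall fun x => by positivity)

/-! ### sums of masses -/

section sys

variable {C : ℝ} {d : ℕ} (s : Sys C d)

lemma tl_mu'_nonneg (k : ℤ) (T : ℤ × ℤ) (l : ℕ) : 0 ≤ s.μ' k T l :=
  (s.μ_nonneg k T l).trans (s.μ_le k T l)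

lemma tl_sig_nonneg (l : ℕ) (q : ℤ × ℤ) : 0 ≤ s.sig l q := by
  unfold Sys.sig
  have : 0 ≤ ∑ k ∈ Ks (2 ^ d), s.μ k (tile (2 ^ d) k q) l :=
    Finset.sum_nonneg fun k _ => s.μ_nonneg _ _ _
  positivity

lemma tl_A4sum (M : ℕ) (S : ℕ → Finset (ℤ × (ℤ × ℤ)))
    (hS : ∀ l ∈ Finset.range M, ∀ P ∈ S l, P.1 ∈ Ks (2 ^ d)) :
    ∑ l ∈ Finset.range M, ∑ P ∈ S l, s.μ' P.1 P.2 l ≤ C * ∫ x, ‖s.g x‖ ^ 2 := by
  have hC := s.hC
  calc _ ≤ ∑ l ∈ Finset.range M, C * ∫ x in s.E l, ‖s.g x‖ ^ 2 :=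
        Finset.sum_le_sum fun l hl => s.A4 l (S l) (hS l hl)
    _ = C * ∑ l ∈ Finset.range M, ∫ x in s.E l, ‖s.g x‖ ^ 2 := by rw [Finset.mul_sum]
    _ ≤ _ := mul_le_mul_of_nonneg_left (tl_sum_setInt s.gbcs s.Emeas s.Edisj M) (by linarith)

lemma tl_sigsum (l : ℕ) (S : Finset (ℤ × ℤ)) :
    ∑ q ∈ S, s.sig l q ≤ 4 ^ d * (C * ∫ x in s.E l, ‖s.g x‖ ^ 2) := by
  classical
  have hD : 1 ≤ 2 ^ d := Nat.one_le_two_pow
  set T' : Finset (ℤ × ℤ) := (Ks (2 ^ d)).biUnion fun k => S.image (tile (2 ^ d) k) with hT'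
  have h1 : ∀ k ∈ Ks (2 ^ d), ∑ q ∈ S, s.μ k (tile (2 ^ d) k q) l ≤
      ∑ T ∈ T', 2 ^ d * s.μ k T l := by
    intro k hk
    rw [← Finset.sum_fiberwise_of_maps_to (g := fun q => tile (2 ^ d) k q) (t := T')
      (fun q hq => Finset.mem_biUnion.2 ⟨k, hk, Finset.mem_image_of_mem _ hq⟩)]
    refine Finset.sum_le_sum fun T _ => ?_
    have e : ∑ q ∈ S.filter (fun q => tile (2 ^ d) k q = T), s.μ k (tile (2 ^ d) k q) l =
        ∑ q ∈ S.filter (fun q => tile (2 ^ d) k q = T), s.μ k T l :=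
      Finset.sum_congr rfl fun q hq => by rw [(Finset.mem_filter.1 hq).2]
    rw [e, Finset.sum_const, nsmul_eq_mul]
    refine mul_le_mul_of_nonneg_right ?_ (s.μ_nonneg _ _ _)
    have hsub : S.filter (fun q => tile (2 ^ d) k q = T) ⊆ cells (2 ^ d) k T := by
      intro q hq
      rw [tl_mem_cells _ hD]
      exact (Finset.mem_filter.1 hq).2
    have := (Finset.card_le_card hsub).trans (tl_card_cells (2 ^ d) k T)
    exact_mod_cast this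
  have h2 : ∑ P ∈ Ks (2 ^ d) ×ˢ T', s.μ' P.1 P.2 l ≤ C * ∫ x in s.E l, ‖s.g x‖ ^ 2 :=
    s.A4 l _ fun P hP => (Finset.mem_product.1 hP).1
  have h3 : ∑ k ∈ Ks (2 ^ d), ∑ T ∈ T', s.μ k T l ≤ ∑ P ∈ Ks (2 ^ d) ×ˢ T', s.μ' P.1 P.2 l := by
    rw [Finset.sum_product]
    exact Finset.sum_le_sum fun k _ => Finset.sum_le_sum fun T _ => s.μ_le _ _ _
  calc ∑ q ∈ S, s.sig l q = 2 ^ d * ∑ k ∈ Ks (2 ^ d), ∑ q ∈ S, s.μ k (tile (2 ^ d) k q) l := by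
        unfold Sys.sig
        rw [← Finset.mul_sum, Finset.sum_comm]
    _ ≤ 2 ^ d * ∑ k ∈ Ks (2 ^ d), ∑ T ∈ T', 2 ^ d * s.μ k T l :=
        mul_le_mul_of_nonneg_left (Finset.sum_le_sum h1) (by positivity)
    _ = 4 ^ d * ∑ k ∈ Ks (2 ^ d), ∑ T ∈ T', s.μ k T l := by
        simp_rw [← Finset.mul_sum]
        rw [← mul_assoc, ← mul_pow]
        norm_num
    _ ≤ _ := mul_le_mul_of_nonneg_left (h3.trans h2) (by positivity)

lemma tl_sigTsum (M : ℕ) (S : Finset (ℤ × ℤ)) :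
    ∑ q ∈ S, s.sigT M q ≤ 4 ^ d * (C * ∫ x, ‖s.g x‖ ^ 2) := by
  have hC := s.hC
  calc ∑ q ∈ S, s.sigT M q = ∑ l ∈ Finset.range M, ∑ q ∈ S, s.sig l q := by
        unfold Sys.sigT
        rw [Finset.sum_comm]
    _ ≤ ∑ l ∈ Finset.range M, 4 ^ d * (C * ∫ x in s.E l, ‖s.g x‖ ^ 2) :=
        Finset.sum_le_sum fun l _ => tl_sigsum s l S
    _ = 4 ^ d * (C * ∑ l ∈ Finset.range M, ∫ x in s.E l, ‖s.g x‖ ^ 2) := by
        rw [Finset.mul_sum, Finset.mul_sum]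
    _ ≤ _ := by
        have := tl_sum_setInt s.gbcs s.Emeas s.Edisj M
        gcongr

/-- value of `sig` at the cells of a tile -/
lemma tl_sig_ge (k : ℤ) (hk : k ∈ Ks (2 ^ d)) (T q : ℤ × ℤ) (hq : q ∈ cells (2 ^ d) k T) (l : ℕ) :
    2 ^ d * s.μ k T l ≤ s.sig l q := by
  rw [tl_mem_cells _ Nat.one_le_two_pow] at hq
  unfold Sys.sig
  refine mul_le_mul_of_nonneg_left ?_ (by positivity)
  have := Finset.single_le_sum (f := fun k => s.μ k (tile (2 ^ d) k q) l)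
    (fun k _ => s.μ_nonneg _ _ _) hk
  simpa only [hq] using this

lemma tl_sig_le (l : ℕ) (q : ℤ × ℤ) : s.sig l q ≤ 2 ^ d * (C * ∫ x, ‖s.g x‖ ^ 2) := by
  classical
  have hC := s.hC
  unfold Sys.sig
  refine mul_le_mul_of_nonneg_left ?_ (by positivity)
  have h1 := s.A4 l ((Ks (2 ^ d)).image fun k => (k, tile (2 ^ d) k q)) (by
    intro P hP
    obtain ⟨k, hk, rfl⟩ := Finset.mem_image.1 hP
    exact hk)
  rw [Finset.sum_image (fun a _ b _ h => congrArg Prod.fst h)] at h1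
  have h2 : ∫ x in s.E l, ‖s.g x‖ ^ 2 ≤ ∫ x, ‖s.g x‖ ^ 2 :=
    setIntegral_le_integral (tl_int_sq s.gbcs 2 (by norm_num))
      (Filter.Eventually.of_forall fun x => by positivity)
  calc _ ≤ ∑ k ∈ Ks (2 ^ d), s.μ' k (tile (2 ^ d) k q) l :=
        Finset.sum_le_sum fun k _ => s.μ_le _ _ _
    _ ≤ _ := h1
    _ ≤ _ := mul_le_mul_of_nonneg_left h2 (by linarith)

/-! ### the fourth powers -/

/-- the overlap of two packets -/
def tlI (d : ℕ) (P P' : ℤ × (ℤ × ℤ)) : ℝ :=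
  ∫ y : ℝ × ℝ, wk (2 ^ d) P.1 4 (y - xT (2 ^ d) P.1 P.2) *
    wk (2 ^ d) P'.1 4 (y - xT (2 ^ d) P'.1 P'.2)

lemma tlI_nonneg (d : ℕ) (P P' : ℤ × (ℤ × ℤ)) : 0 ≤ tlI d P P' :=
  integral_nonneg fun y => mul_nonneg (tl_wk_nonneg _ _ _ _) (tl_wk_nonneg _ _ _ _)

/-- the inner part of `KBound` -/
def tlK (CK : ℝ) : Prop := ∀ D : ℕ, 1 ≤ D → ∀ k ∈ Ks D, ∀ k' ∈ Ks D, ∀ x x' : ℝ × ℝ,
    Integrable (fun y : ℝ × ℝ => wk D k 4 (y - x) * wk D k' 4 (y - x')) ∧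
    ∫ y : ℝ × ℝ, wk D k 4 (y - x) * wk D k' 4 (y - x') ≤ CK * MM D k (x' - x)

/-- the inner part of `MMSum` -/
def tlM (CM : ℝ) : Prop := ∀ d : ℕ, ∀ k ∈ Ks (2 ^ d), ∀ (y : ℝ × ℝ) (S : Finset (ℤ × ℤ)),
    ∑ q ∈ S, MM (2 ^ d) k (((q.1 : ℝ) / 2 ^ d, (q.2 : ℝ) / 2 ^ d) - y)
      ≤ CM * (d + 1) * 4 ^ d

/-- the inner part of `NikClaim` -/
def tlN (CN : ℝ) : Prop := ∀ d : ℕ, ∀ (X V : Finset (ℤ × ℤ)) (δ : ℝ), 0 < δ →
    (∀ q ∈ X, ∃ k ∈ Ks (2 ^ d), δ * 4 ^ d ≤ ∑ v ∈ V,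
      wk (2 ^ d) k 4 (((q.1 - v.1 : ℤ) : ℝ) / 2 ^ d, ((q.2 - v.2 : ℤ) : ℝ) / 2 ^ d)) →
    (X.card : ℝ) ≤ CN * (d + 1) / δ ^ 2 * V.card

lemma tl_Ibound {CK : ℝ} (hK : tlK CK) (P P' : ℤ × (ℤ × ℤ)) (hP : P.1 ∈ Ks (2 ^ d))
    (hP' : P'.1 ∈ Ks (2 ^ d)) (q : ℤ × ℤ) (hq : q ∈ cells (2 ^ d) P'.1 P'.2) :
    tlI d P P' ≤ 2 ^ 8 * CK *
      MM (2 ^ d) P.1 (((q.1 : ℝ) / 2 ^ d, (q.2 : ℝ) / 2 ^ d) - xT (2 ^ d) P.1 P.2) := by
  have hD : 1 ≤ 2 ^ d := Nat.one_le_two_pow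
  obtain ⟨i1, -⟩ := hK (2 ^ d) hD P.1 hP P'.1 hP' (xT (2 ^ d) P.1 P.2) (xT (2 ^ d) P'.1 P'.2)
  obtain ⟨i2, b2⟩ := hK (2 ^ d) hD P.1 hP P'.1 hP' (xT (2 ^ d) P.1 P.2)
    ((q.1 : ℝ) / (2 ^ d : ℕ), (q.2 : ℝ) / (2 ^ d : ℕ))
  have h1 : tlI d P P' ≤ ∫ y : ℝ × ℝ, 2 ^ 8 * (wk (2 ^ d) P.1 4 (y - xT (2 ^ d) P.1 P.2) *
      wk (2 ^ d) P'.1 4 (y - ((q.1 : ℝ) / (2 ^ d : ℕ), (q.2 : ℝ) / (2 ^ d : ℕ)))) := by
    refine integral_mono i1 (i2.const_mul _) fun y => ?_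
    have h := tl_W1 (2 ^ d) hD P'.1 P'.2 q hq y
    have h0 := tl_wk_nonneg (2 ^ d) P.1 4 (y - xT (2 ^ d) P.1 P.2)
    calc _ ≤ _ := mul_le_mul_of_nonneg_left h h0
      _ = _ := by ring
  rw [integral_const_mul] at h1
  refine h1.trans ?_
  rw [mul_assoc]
  refine mul_le_mul_of_nonneg_left ?_ (by norm_num)
  simpa using b2

lemma tl_quart {CK CM : ℝ} (hCK : 1 ≤ CK) (hCM : 1 ≤ CM) (hK : tlK CK) (hM : tlM CM) (l : ℕ)
    (S : Finset (ℤ × (ℤ × ℤ))) (hS : ∀ P ∈ S, P.1 ∈ Ks (2 ^ d)) (t β : ℝ) (ht : 0 < t)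
    (hβ : 0 < β)
    (h2 : ∀ P ∈ S, β * 2 ^ d / 2 ≤
      (((cells (2 ^ d) P.1 P.2).filter (fun q => s.sig l q ≤ t)).card : ℝ))
    (P : ℤ × (ℤ × ℤ)) (hP : P ∈ S) :
    ∑ P' ∈ S, s.μ P'.1 P'.2 l * tlI d P P' ≤ 2 ^ 9 * CK * CM * (t * (d + 1) / β) := by
  classical
  have hD : 1 ≤ 2 ^ d := Nat.one_le_two_pow
  set F : ℤ × ℤ → ℝ := fun q =>
    MM (2 ^ d) P.1 (((q.1 : ℝ) / 2 ^ d, (q.2 : ℝ) / 2 ^ d) - xT (2 ^ d) P.1 P.2) with hF
  have hF0 : ∀ q, 0 ≤ F q := fun q => tl_MM_nonneg _ _ _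
  set cl : ℤ × (ℤ × ℤ) → Finset (ℤ × ℤ) := fun P' =>
    (cells (2 ^ d) P'.1 P'.2).filter (fun q => s.sig l q ≤ t) with hcl
  have h3 : ∀ P' ∈ S, (β * 2 ^ d / 2) * (s.μ P'.1 P'.2 l * tlI d P P') ≤
      ∑ q ∈ cl P', s.μ P'.1 P'.2 l * (2 ^ 8 * CK * F q) := by
    intro P' hP'
    have h0 : 0 ≤ s.μ P'.1 P'.2 l * tlI d P P' := mul_nonneg (s.μ_nonneg _ _ _) (tlI_nonneg _ _ _)
    calc _ ≤ ((cl P').card : ℝ) * (s.μ P'.1 P'.2 l * tlI d P P') :=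
          mul_le_mul_of_nonneg_right (h2 P' hP') h0
      _ = ∑ q ∈ cl P', s.μ P'.1 P'.2 l * tlI d P P' := by
          rw [Finset.sum_const, nsmul_eq_mul]
      _ ≤ _ := Finset.sum_le_sum fun q hq => mul_le_mul_of_nonneg_left
          (tl_Ibound hK P P' (hS P hP) (hS P' hP') q (Finset.mem_filter.1 hq).1)
          (s.μ_nonneg _ _ _)
  have h4 : ∑ P' ∈ S, ∑ q ∈ cl P', s.μ P'.1 P'.2 l * (2 ^ 8 * CK * F q) ≤
      2 ^ 8 * CK * (t / 2 ^ d) * (CM * (d + 1) * 4 ^ d) := by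
    rw [Finset.sum_comm' (t' := S.biUnion cl) (s' := fun q => S.filter fun P' => q ∈ cl P') (by
      intro P' q
      simp only [Finset.mem_filter, Finset.mem_biUnion]
      constructor
      · rintro ⟨a, b⟩
        exact ⟨⟨a, b⟩, P', a, b⟩
      · rintro ⟨⟨a, b⟩, -⟩
        exact ⟨a, b⟩)]
    have h5 : ∀ q ∈ S.biUnion cl, ∑ P' ∈ S.filter (fun P' => q ∈ cl P'),
        s.μ P'.1 P'.2 l * (2 ^ 8 * CK * F q) ≤ 2 ^ 8 * CK * (t / 2 ^ d) * F q := by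
      intro q hq
      obtain ⟨P₀, hP₀, hq₀⟩ := Finset.mem_biUnion.1 hq
      have hqt : s.sig l q ≤ t := (Finset.mem_filter.1 hq₀).2
      have h6 : ∑ P' ∈ S.filter (fun P' => q ∈ cl P'), s.μ P'.1 P'.2 l ≤ t / 2 ^ d := by
        have hsub : S.filter (fun P' => q ∈ cl P') ⊆
            (Ks (2 ^ d)).image fun k => (k, tile (2 ^ d) k q) := by
          intro P' hP'
          obtain ⟨a, b⟩ := Finset.mem_filter.1 hP'
          refine Finset.mem_image.2 ⟨P'.1, hS P' a, ?_⟩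
          have := (tl_mem_cells (2 ^ d) hD P'.1 P'.2 q).1 (Finset.mem_filter.1 b).1
          rw [this]
        calc _ ≤ ∑ P' ∈ (Ks (2 ^ d)).image (fun k => (k, tile (2 ^ d) k q)),
              s.μ P'.1 P'.2 l :=
              Finset.sum_le_sum_of_subset_of_nonneg hsub fun _ _ _ => s.μ_nonneg _ _ _
          _ = ∑ k ∈ Ks (2 ^ d), s.μ k (tile (2 ^ d) k q) l := by
              rw [Finset.sum_image (fun a _ b _ h => congrArg Prod.fst h)]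
          _ = s.sig l q / 2 ^ d := by
              unfold Sys.sig
              field_simp
          _ ≤ _ := by gcongr
      rw [← Finset.sum_mul]
      have h7 : 0 ≤ 2 ^ 8 * CK * F q := mul_nonneg (by positivity) (hF0 q)
      calc _ ≤ (t / 2 ^ d) * (2 ^ 8 * CK * F q) := mul_le_mul_of_nonneg_right h6 h7
        _ = _ := by ring
    calc _ ≤ ∑ q ∈ S.biUnion cl, 2 ^ 8 * CK * (t / 2 ^ d) * F q := Finset.sum_le_sum h5
      _ = 2 ^ 8 * CK * (t / 2 ^ d) * ∑ q ∈ S.biUnion cl, F q := by rw [Finset.mul_sum]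
      _ ≤ _ := mul_le_mul_of_nonneg_left (hM d P.1 (hS P hP) _ _) (by positivity)
  have h8 : (β * 2 ^ d / 2) * ∑ P' ∈ S, s.μ P'.1 P'.2 l * tlI d P P' ≤
      2 ^ 8 * CK * (t / 2 ^ d) * (CM * (d + 1) * 4 ^ d) := by
    rw [Finset.mul_sum]
    exact (Finset.sum_le_sum h3).trans h4
  have h9 : (0 : ℝ) < β * 2 ^ d / 2 := by positivity
  rw [← mul_le_mul_iff_right₀ h9]
  refine h8.trans (le_of_eq ?_)
  have e : (4 : ℝ) ^ d = 2 ^ d * 2 ^ d := by rw [← mul_pow]; norm_num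
  rw [e]
  field_simp

end sys

/-! ### cells -/

lemma tl_cell_eq (D : ℕ) (hD : 1 ≤ D) (q : ℤ × ℤ) :
    cell D q = Set.Ico ((q.1 : ℝ) / D) (((q.1 : ℝ) + 1) / D) ×ˢ
      Set.Ico ((q.2 : ℝ) / D) (((q.2 : ℝ) + 1) / D) := by
  have hD0 : (0 : ℝ) < D := by exact_mod_cast hD
  ext x
  unfold cell
  simp only [Set.mem_ofPred_eq, Set.mem_prod, Set.mem_Ico, div_le_iff₀ hD0, lt_div_iff₀ hD0]
  constructor
  · rintro ⟨a, b, c, e⟩
    refine ⟨⟨?_, ?_⟩, ?_, ?_⟩ <;> linarith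
  · rintro ⟨⟨a, b⟩, c, e⟩
    refine ⟨?_, ?_, ?_, ?_⟩ <;> linarith

lemma tl_cell_meas (D : ℕ) (hD : 1 ≤ D) (q : ℤ × ℤ) : MeasurableSet (cell D q) := by
  rw [tl_cell_eq D hD]
  exact measurableSet_Ico.prod measurableSet_Ico

lemma tl_cell_vol' (D : ℕ) (hD : 1 ≤ D) (q : ℤ × ℤ) :
    volume (cell D q) = ENNReal.ofReal (1 / D) * ENNReal.ofReal (1 / D) := by
  rw [tl_cell_eq D hD, Measure.volume_eq_prod, Measure.prod_prod, Real.volume_Ico, Real.volume_Ico]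
  congr 2 <;> ring

lemma tl_cell_vol (D : ℕ) (hD : 1 ≤ D) (q : ℤ × ℤ) : volume.real (cell D q) = 1 / (D : ℝ) ^ 2 := by
  rw [Measure.real, tl_cell_vol' D hD, ENNReal.toReal_mul, ENNReal.toReal_ofReal (by positivity)]
  ring

lemma tl_cell_fin (D : ℕ) (hD : 1 ≤ D) (q : ℤ × ℤ) : volume (cell D q) ≠ ⊤ := by
  rw [tl_cell_vol' D hD]
  exact ENNReal.mul_ne_top ENNReal.ofReal_ne_top ENNReal.ofReal_ne_top

lemma tl_cell_int (D : ℕ) (hD : 1 ≤ D) (q : ℤ × ℤ) {f : ℝ × ℝ → ℝ} (hf : Continuous f) :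
    IntegrableOn f (cell D q) := by
  have hK : IsCompact (Set.Icc ((q.1 : ℝ) / D) (((q.1 : ℝ) + 1) / D) ×ˢ
      Set.Icc ((q.2 : ℝ) / D) (((q.2 : ℝ) + 1) / D)) := isCompact_Icc.prod isCompact_Icc
  refine (hf.continuousOn.integrableOn_compact hK).mono_set ?_
  rw [tl_cell_eq D hD]
  exact Set.prod_mono Set.Ico_subset_Icc_self Set.Ico_subset_Icc_self

lemma tl_cover (D : ℕ) {g : ℝ × ℝ → ℂ} (hg : BCS g) :
    ∃ Q : Finset (ℤ × ℤ), ∀ x, g x ≠ 0 → ∃ q ∈ Q, x ∈ cell D q := by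
  obtain ⟨R, hR⟩ := hg.supp
  obtain ⟨N, hN⟩ := exists_nat_gt ((D : ℝ) * R + 1)
  refine ⟨Finset.Icc (-(N : ℤ)) N ×ˢ Finset.Icc (-(N : ℤ)) N, fun x hx => ?_⟩
  obtain ⟨h1, h2⟩ := hR x hx
  have key : ∀ y : ℝ, |y| ≤ R → ⌊(D : ℝ) * y⌋ ∈ Finset.Icc (-(N : ℤ)) N := by
    intro y hy
    obtain ⟨a, b⟩ := abs_le.1 hy
    have hD0 : (0 : ℝ) ≤ D := by positivity
    have h3 : (D : ℝ) * y ≤ D * R := mul_le_mul_of_nonneg_left b hD0
    have h4 : -(D * R) ≤ (D : ℝ) * y := by nlinarith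
    rw [Finset.mem_Icc]
    constructor
    · rw [Int.le_floor]
      push_cast
      linarith
    · have := Int.floor_le ((D : ℝ) * y)
      have h5 : ((⌊(D : ℝ) * y⌋ : ℤ) : ℝ) ≤ ((N : ℤ) : ℝ) := by
        push_cast
        linarith
      exact_mod_cast h5
  refine ⟨(⌊(D : ℝ) * x.1⌋, ⌊(D : ℝ) * x.2⌋), Finset.mem_product.2 ⟨key _ h1, key _ h2⟩, ?_⟩
  exact ⟨Int.floor_le _, Int.lt_floor_add_one _, Int.floor_le _, Int.lt_floor_add_one _⟩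

/-- the union of the cells of `X` -/
def tlU (D : ℕ) (X : Finset (ℤ × ℤ)) : Set (ℝ × ℝ) := ⋃ q ∈ X, cell D q

lemma tlU_meas (D : ℕ) (hD : 1 ≤ D) (X : Finset (ℤ × ℤ)) : MeasurableSet (tlU D X) :=
  Finset.measurableSet_biUnion _ fun q _ => tl_cell_meas D hD q

lemma tlU_fin (D : ℕ) (hD : 1 ≤ D) (X : Finset (ℤ × ℤ)) : volume (tlU D X) ≠ ⊤ := by
  refine ne_top_of_le_ne_top ?_ (measure_biUnion_finset_le X (cell D))
  exact ENNReal.sum_ne_top.2 fun q _ => tl_cell_fin D hD q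

lemma tlU_vol (D : ℕ) (hD : 1 ≤ D) (X : Finset (ℤ × ℤ)) :
    volume.real (tlU D X) ≤ X.card / (D : ℝ) ^ 2 := by
  refine (measureReal_biUnion_finset_le X (cell D)).trans (le_of_eq ?_)
  simp only [tl_cell_vol D hD, Finset.sum_const, nsmul_eq_mul]
  ring

lemma tlU_sum (D : ℕ) (hD : 1 ≤ D) (X : Finset (ℤ × ℤ)) {E : ℕ → Set (ℝ × ℝ)}
    (hE : ∀ l, MeasurableSet (E l)) (hd : ∀ i j, i ≠ j → Disjoint (E i) (E j)) (M : ℕ) :
    ∑ l ∈ Finset.range M, volume.real (E l ∩ tlU D X) ≤ X.card / (D : ℝ) ^ 2 := by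
  have h1 : volume.real (⋃ l ∈ Finset.range M, E l ∩ tlU D X) =
      ∑ l ∈ Finset.range M, volume.real (E l ∩ tlU D X) := by
    refine measureReal_biUnion_finset ?_ (fun l _ => (hE l).inter (tlU_meas D hD X)) ?_
    · intro i _ j _ h
      exact (hd i j h).mono Set.inter_subset_left Set.inter_subset_left
    · intro l _
      exact ne_top_of_le_ne_top (tlU_fin D hD X) (measure_mono Set.inter_subset_right)
  rw [← h1]
  refine le_trans (measureReal_mono ?_ (tlU_fin D hD X)) (tlU_vol D hD X)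
  exact Set.iUnion₂_subset fun l _ => Set.inter_subset_right

/-! ### the integral bound for one window -/

lemma tl_intbd (D : ℕ) (hD : 1 ≤ D) {g G : ℝ × ℝ → ℂ} (hg : BCS g) (hG : Continuous G)
    (hG4 : Integrable (fun x => ‖G x‖ ^ 4)) {E : Set (ℝ × ℝ)} (Q X : Finset (ℤ × ℤ))
    (hQ : ∀ x, g x ≠ 0 → ∃ q ∈ Q, x ∈ cell D q) (η lam : ℝ) (hη : 0 < η) (hl : 0 < lam) :
    ∫ x in E, ‖g x‖ * ‖G x‖ ≤ η / 2 * (∫ x in E, ‖g x‖ ^ 2) +
      1 / (2 * η) * (lam / 2 * volume.real (E ∩ tlU D X) + 1 / (2 * lam) * (∫ x, ‖G x‖ ^ 4) +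
        ∑ q ∈ Q \ X, ∫ x in cell D q, ‖G x‖ ^ 2) := by
  classical
  set h1 : ℝ × ℝ → ℝ := (tlU D X).indicator fun _ => lam / 2 with hh1
  set h3 : ℤ × ℤ → ℝ × ℝ → ℝ := fun q => (cell D q).indicator fun x => ‖G x‖ ^ 2 with hh3
  have i1 : Integrable h1 := by
    rw [hh1, integrable_indicator_iff (tlU_meas D hD X)]
    exact integrableOn_const (tlU_fin D hD X)
  have i3 : ∀ q, Integrable (h3 q) := by
    intro q
    rw [hh3]
    simp only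
    rw [integrable_indicator_iff (tl_cell_meas D hD q)]
    exact tl_cell_int D hD q (hG.norm.pow 2)
  have i3s : Integrable fun x => ∑ q ∈ Q \ X, h3 q x := integrable_finsetSum _ fun q _ => i3 q
  have i2 : Integrable fun x => 1 / (2 * lam) * ‖G x‖ ^ 4 := hG4.const_mul _
  have i0 : Integrable fun x => η / 2 * ‖g x‖ ^ 2 := (tl_int_sq hg 2 (by norm_num)).const_mul _
  have n3 : ∀ q x, 0 ≤ h3 q x := fun q x => Set.indicator_nonneg (fun _ _ => by positivity) x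
  have n1 : ∀ x, 0 ≤ h1 x := fun x => Set.indicator_nonneg (fun _ _ => by positivity) x
  have key : ∀ x, ‖g x‖ * ‖G x‖ ≤ η / 2 * ‖g x‖ ^ 2 + 1 / (2 * η) * (h1 x +
      1 / (2 * lam) * ‖G x‖ ^ 4 + ∑ q ∈ Q \ X, h3 q x) := by
    intro x
    have hs : 0 ≤ ∑ q ∈ Q \ X, h3 q x := Finset.sum_nonneg fun q _ => n3 q x
    have h4 : 0 ≤ 1 / (2 * lam) * ‖G x‖ ^ 4 := by positivity
    by_cases hgx : g x = 0
    · rw [hgx, norm_zero, zero_mul]
      have := n1 x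
      positivity
    · obtain ⟨q, hq, hxq⟩ := hQ x hgx
      have h5 : ‖G x‖ ^ 2 ≤ h1 x + 1 / (2 * lam) * ‖G x‖ ^ 4 + ∑ q ∈ Q \ X, h3 q x := by
        by_cases hqX : q ∈ X
        · have h6 : h1 x = lam / 2 := by
            rw [hh1, Set.indicator_of_mem]
            exact Set.mem_iUnion₂.2 ⟨q, hqX, hxq⟩
          rw [h6]
          have h7 : ‖G x‖ ^ 2 ≤ lam / 2 + 1 / (2 * lam) * ‖G x‖ ^ 4 := by
            have h8 : lam / 2 + 1 / (2 * lam) * ‖G x‖ ^ 4 - ‖G x‖ ^ 2 =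
                (lam - ‖G x‖ ^ 2) ^ 2 / (2 * lam) := by
              field_simp
              ring
            have h9 : 0 ≤ (lam - ‖G x‖ ^ 2) ^ 2 / (2 * lam) := by positivity
            linarith
          linarith
        · have h6 : h3 q x = ‖G x‖ ^ 2 := by
            rw [hh3]
            exact Set.indicator_of_mem hxq _
          have h7 : h3 q x ≤ ∑ q ∈ Q \ X, h3 q x :=
            Finset.single_le_sum (f := fun q => h3 q x) (fun q _ => n3 q x)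
              (Finset.mem_sdiff.2 ⟨hq, hqX⟩)
          have := n1 x
          linarith
      have h10 : ‖g x‖ * ‖G x‖ ≤ η / 2 * ‖g x‖ ^ 2 + 1 / (2 * η) * ‖G x‖ ^ 2 := by
        have h8 : η / 2 * ‖g x‖ ^ 2 + 1 / (2 * η) * ‖G x‖ ^ 2 - ‖g x‖ * ‖G x‖ =
            (η * ‖g x‖ - ‖G x‖) ^ 2 / (2 * η) := by
          field_simp
          ring
        have h9 : 0 ≤ (η * ‖g x‖ - ‖G x‖) ^ 2 / (2 * η) := by positivity
        linarith
      have h11 : 1 / (2 * η) * ‖G x‖ ^ 2 ≤ 1 / (2 * η) * (h1 x +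
          1 / (2 * lam) * ‖G x‖ ^ 4 + ∑ q ∈ Q \ X, h3 q x) :=
        mul_le_mul_of_nonneg_left h5 (by positivity)
      linarith
  have i12 : Integrable fun x => h1 x + 1 / (2 * lam) * ‖G x‖ ^ 4 := i1.add i2
  have i123 : Integrable fun x => h1 x + 1 / (2 * lam) * ‖G x‖ ^ 4 + ∑ q ∈ Q \ X, h3 q x :=
    i12.add i3s
  have i4 : Integrable fun x => 1 / (2 * η) * (h1 x + 1 / (2 * lam) * ‖G x‖ ^ 4 +
      ∑ q ∈ Q \ X, h3 q x) := i123.const_mul _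
  have iR : Integrable fun x => η / 2 * ‖g x‖ ^ 2 + 1 / (2 * η) * (h1 x +
      1 / (2 * lam) * ‖G x‖ ^ 4 + ∑ q ∈ Q \ X, h3 q x) := i0.add i4
  have iL : Integrable fun x => ‖g x‖ * ‖G x‖ := by
    refine iR.mono' ?_ (Filter.Eventually.of_forall fun x => ?_)
    · exact (hg.meas.norm.mul hG.measurable.norm).aestronglyMeasurable
    · rw [Real.norm_of_nonneg (by positivity)]
      exact key x
  calc ∫ x in E, ‖g x‖ * ‖G x‖ ≤ ∫ x in E, (η / 2 * ‖g x‖ ^ 2 + 1 / (2 * η) * (h1 x +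
      1 / (2 * lam) * ‖G x‖ ^ 4 + ∑ q ∈ Q \ X, h3 q x)) :=
        integral_mono iL.integrableOn iR.integrableOn key
    _ = η / 2 * (∫ x in E, ‖g x‖ ^ 2) + 1 / (2 * η) * ((∫ x in E, h1 x) +
        1 / (2 * lam) * (∫ x in E, ‖G x‖ ^ 4) + ∑ q ∈ Q \ X, ∫ x in E, h3 q x) := by
        rw [integral_add i0.integrableOn i4.integrableOn, integral_const_mul, integral_const_mul,
          integral_add i12.integrableOn i3s.integrableOn,
          integral_add i1.integrableOn i2.integrableOn, integral_const_mul,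
          integral_finsetSum _ fun q _ => (i3 q).integrableOn]
    _ ≤ _ := by
        have e1 : ∫ x in E, h1 x = lam / 2 * volume.real (E ∩ tlU D X) := by
          rw [hh1, setIntegral_indicator (tlU_meas D hD X), setIntegral_const, smul_eq_mul, mul_comm]
        have e2 : ∫ x in E, ‖G x‖ ^ 4 ≤ ∫ x, ‖G x‖ ^ 4 :=
          setIntegral_le_integral hG4 (Filter.Eventually.of_forall fun x => by positivity)
        have e3 : ∀ q ∈ Q \ X, ∫ x in E, h3 q x ≤ ∫ x in cell D q, ‖G x‖ ^ 2 := by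
          intro q _
          have : ∫ x in cell D q, ‖G x‖ ^ 2 = ∫ x, h3 q x := by
            rw [hh3]
            exact (integral_indicator (tl_cell_meas D hD q)).symm
          rw [this]
          exact setIntegral_le_integral (i3 q) (Filter.Eventually.of_forall fun x => n3 q x)
        rw [e1]
        have e4 := Finset.sum_le_sum e3
        gcongr

/-! ### one level -/

section level

variable {C : ℝ} {d : ℕ} (s : Sys C d)

/-- off the Nikodym set -/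
lemma tl_off (M : ℕ) (l : ℕ) (S : Finset (ℤ × (ℤ × ℤ))) (V Y : Finset (ℤ × ℤ))
    (K' β δ : ℝ) (hβ : 0 < β) (hδ : 0 < δ) (hK' : 1 ≤ K') (th : ℝ)
    (h1 : ∀ P ∈ S, s.μ' P.1 P.2 l ≤ K' * s.μ P.1 P.2 l)
    (h3 : ∀ P ∈ S, β * 2 ^ d / 2 ≤
      (((cells (2 ^ d) P.1 P.2).filter (fun q => th < s.sigT M q)).card : ℝ))
    (hV : ∀ P ∈ S, (cells (2 ^ d) P.1 P.2).filter (fun q => th < s.sigT M q) ⊆ V)
    (hY : ∀ q ∈ Y, ∀ P ∈ S, ∑ v ∈ V,
      wk (2 ^ d) P.1 4 (((q.1 - v.1 : ℤ) : ℝ) / 2 ^ d, ((q.2 - v.2 : ℤ) : ℝ) / 2 ^ d) ≤ δ * 4 ^ d)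
    (G : ℝ × ℝ → ℂ)
    (hG : ∀ q : ℤ × ℤ, ∫ x in cell (2 ^ d) q, ‖G x‖ ^ 2
        ≤ C / 2 ^ d * ∑ P ∈ S, s.μ' P.1 P.2 l * cw (2 ^ d) P.1 6 q P.2) :
    ∑ q ∈ Y, ∫ x in cell (2 ^ d) q, ‖G x‖ ^ 2 ≤
      C * K' * (2 ^ 9 * (δ / β)) * (4 * tlB ^ 2) * ∑ P ∈ S, s.μ P.1 P.2 l := by
  classical
  have hC := s.hC
  have hD : 1 ≤ 2 ^ d := Nat.one_le_two_pow
  have h2d : (0 : ℝ) < 2 ^ d := by positivity
  have e4 : (4 : ℝ) ^ d = 2 ^ d * 2 ^ d := by rw [← mul_pow]; norm_num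
  have hcw : ∀ q ∈ Y, ∀ P ∈ S, cw (2 ^ d) P.1 4 q P.2 ≤ 2 ^ 9 * (δ / β) := by
    intro q hq P hP
    set W := (cells (2 ^ d) P.1 P.2).filter (fun q => th < s.sigT M q) with hW
    have a1 : (W.card : ℝ) * (2 ^ d * cw (2 ^ d) P.1 4 q P.2) ≤ 2 ^ 8 * (δ * 4 ^ d) := by
      calc _ = ∑ v ∈ W, 2 ^ d * cw (2 ^ d) P.1 4 q P.2 := by
            rw [Finset.sum_const, nsmul_eq_mul]
        _ ≤ ∑ v ∈ W, 2 ^ 8 * wk (2 ^ d) P.1 4
              (((q.1 - v.1 : ℤ) : ℝ) / 2 ^ d, ((q.2 - v.2 : ℤ) : ℝ) / 2 ^ d) := by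
            refine Finset.sum_le_sum fun v hv => ?_
            have := tl_W2 (2 ^ d) hD P.1 P.2 q v (Finset.mem_filter.1 hv).1
            simpa using this
        _ = 2 ^ 8 * ∑ v ∈ W, wk (2 ^ d) P.1 4
              (((q.1 - v.1 : ℤ) : ℝ) / 2 ^ d, ((q.2 - v.2 : ℤ) : ℝ) / 2 ^ d) := by
            rw [Finset.mul_sum]
        _ ≤ 2 ^ 8 * ∑ v ∈ V, wk (2 ^ d) P.1 4
              (((q.1 - v.1 : ℤ) : ℝ) / 2 ^ d, ((q.2 - v.2 : ℤ) : ℝ) / 2 ^ d) := by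
            refine mul_le_mul_of_nonneg_left ?_ (by norm_num)
            exact Finset.sum_le_sum_of_subset_of_nonneg (hV P hP) fun _ _ _ => tl_wk_nonneg _ _ _ _
        _ ≤ _ := mul_le_mul_of_nonneg_left (hY q hq P hP) (by norm_num)
    have a2 := tl_cw_nonneg (2 ^ d) P.1 4 q P.2
    have a3 : (β * 2 ^ d / 2) * (2 ^ d * cw (2 ^ d) P.1 4 q P.2) ≤ 2 ^ 8 * (δ * 4 ^ d) :=
      (mul_le_mul_of_nonneg_right (h3 P hP) (by positivity)).trans a1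
    rw [e4] at a3
    have a4 : (β * cw (2 ^ d) P.1 4 q P.2) * (2 ^ d * 2 ^ d) ≤ (2 ^ 9 * δ) * (2 ^ d * 2 ^ d) := by
      calc _ = 2 * ((β * 2 ^ d / 2) * (2 ^ d * cw (2 ^ d) P.1 4 q P.2)) := by ring
        _ ≤ 2 * (2 ^ 8 * (δ * (2 ^ d * 2 ^ d))) := by linarith
        _ = _ := by ring
    have a5 := le_of_mul_le_mul_right a4 (by positivity)
    rw [← mul_div_assoc, le_div_iff₀ hβ]
    linarith
  calc _ ≤ ∑ q ∈ Y, C / 2 ^ d * ∑ P ∈ S, s.μ' P.1 P.2 l * cw (2 ^ d) P.1 6 q P.2 :=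
        Finset.sum_le_sum fun q _ => hG q
    _ ≤ ∑ q ∈ Y, C / 2 ^ d * ∑ P ∈ S, (K' * s.μ P.1 P.2 l) *
          ((2 ^ 9 * (δ / β)) * cw (2 ^ d) P.1 2 q P.2) := by
        refine Finset.sum_le_sum fun q hq => mul_le_mul_of_nonneg_left ?_ (by positivity)
        refine Finset.sum_le_sum fun P hP => ?_
        rw [tl_cw_mul]
        have b1 := tl_cw_nonneg (2 ^ d) P.1 4 q P.2
        have b2 := tl_cw_nonneg (2 ^ d) P.1 2 q P.2
        have b3 := s.μ_nonneg P.1 P.2 l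
        have b4 := hcw q hq P hP
        refine mul_le_mul (h1 P hP) (mul_le_mul_of_nonneg_right b4 b2) (by positivity)
          (by positivity)
    _ = C / 2 ^ d * (K' * (2 ^ 9 * (δ / β))) * ∑ P ∈ S, s.μ P.1 P.2 l *
          ∑ q ∈ Y, cw (2 ^ d) P.1 2 q P.2 := by
        rw [← Finset.mul_sum, Finset.sum_comm, mul_assoc]
        congr 1
        rw [Finset.mul_sum]
        refine Finset.sum_congr rfl fun P _ => ?_
        rw [Finset.mul_sum, Finset.mul_sum]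
        refine Finset.sum_congr rfl fun q _ => ?_
        ring
    _ ≤ C / 2 ^ d * (K' * (2 ^ 9 * (δ / β))) * ∑ P ∈ S, s.μ P.1 P.2 l *
          (4 * tlB ^ 2 * 2 ^ d) := by
        refine mul_le_mul_of_nonneg_left ?_ (by positivity)
        refine Finset.sum_le_sum fun P _ => mul_le_mul_of_nonneg_left ?_ (s.μ_nonneg _ _ _)
        have := tl_W3 (2 ^ d) hD P.1 P.2 Y
        simpa using this
    _ = _ := by
        rw [← Finset.sum_mul]
        field_simp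

lemma tl_level {CK CM CN : ℝ} (hCK : 1 ≤ CK) (hCM : 1 ≤ CM) (hCN : 1 ≤ CN) (hK : tlK CK)
    (hM : tlM CM) (hN : tlN CN) (M : ℕ) (S : ℕ → Finset (ℤ × (ℤ × ℤ)))
    (hS : ∀ l ∈ Finset.range M, ∀ P ∈ S l, P.1 ∈ Ks (2 ^ d))
    (t K β K' η : ℝ) (ht : 0 < t) (hKp : 0 < K) (hβ : 0 < β) (hK' : 1 ≤ K') (hη : 0 < η)
    (h1 : ∀ l ∈ Finset.range M, ∀ P ∈ S l, s.μ' P.1 P.2 l ≤ K' * s.μ P.1 P.2 l)
    (h2 : ∀ l ∈ Finset.range M, ∀ P ∈ S l, β * 2 ^ d / 2 ≤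
      (((cells (2 ^ d) P.1 P.2).filter (fun q => s.sig l q ≤ t)).card : ℝ))
    (h3 : ∀ l ∈ Finset.range M, ∀ P ∈ S l, β * 2 ^ d / 2 ≤
      (((cells (2 ^ d) P.1 P.2).filter (fun q => K * t / 2 < s.sigT M q)).card : ℝ))
    (hbig : 2 ^ 20 * (C ^ 4 * K' ^ 4 * (2 ^ 9 * CK * CM) * (4 * tlB ^ 2) ^ 2 * CN *
      (d + 1) ^ 2) ≤ K * (β ^ 3 * η ^ 5)) :
    ∑ l ∈ Finset.range M, ∑ P ∈ S l, s.μ P.1 P.2 l ≤ 2 * η * ∫ x, ‖s.g x‖ ^ 2 := by
  classical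
  have hC := s.hC
  have hC0 : 0 < C := by linarith
  have hK'0 : 0 < K' := by linarith
  have hB := tlB_one
  have hD : 1 ≤ 2 ^ d := Nat.one_le_two_pow
  set G2 := ∫ x, ‖s.g x‖ ^ 2 with hG2
  have hG20 : 0 ≤ G2 := integral_nonneg fun x => by positivity
  set C5 := 2 ^ 9 * CK * CM with hC5
  have hC50 : 0 < C5 := by positivity
  set C2 := 4 * tlB ^ 2 with hC2
  have hC20 : 0 < C2 := by positivity
  set δ := η * β / (2 ^ 10 * C * K' * C2) with hδ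
  have hδ0 : 0 < δ := by positivity
  set lam := C * K' ^ 2 * C5 * t * (d + 1) / (β * η) with hlam
  have hlam0 : 0 < lam := by positivity
  -- the dual functions
  have hA : ∀ l, ∃ G : ℝ × ℝ → ℂ, l ∈ Finset.range M → (Continuous G ∧
      ∑ P ∈ S l, s.μ P.1 P.2 l ≤ ∫ x in s.E l, ‖s.g x‖ * ‖G x‖ ∧
      (∀ q : ℤ × ℤ, ∫ x in cell (2 ^ d) q, ‖G x‖ ^ 2
        ≤ C / 2 ^ d * ∑ P ∈ S l, s.μ' P.1 P.2 l * cw (2 ^ d) P.1 6 q P.2) ∧
      Integrable (fun x => ‖G x‖ ^ 4) ∧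
      ∫ x, ‖G x‖ ^ 4 ≤ C * ∑ P ∈ S l, ∑ P' ∈ S l, s.μ' P.1 P.2 l * s.μ' P'.1 P'.2 l *
        tlI d P P') := by
    intro l
    by_cases hl : l ∈ Finset.range M
    · obtain ⟨G, hG⟩ := s.A5 l (S l) (hS l hl)
      exact ⟨G, fun _ => hG⟩
    · exact ⟨0, fun h => absurd h hl⟩
  choose G hG using hA
  -- the sets
  set V : Finset (ℤ × ℤ) := (Finset.range M).biUnion fun l => (S l).biUnion fun P =>
    (cells (2 ^ d) P.1 P.2).filter (fun q => K * t / 2 < s.sigT M q) with hVdef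
  obtain ⟨Q, hQ⟩ := tl_cover (2 ^ d) s.gbcs
  obtain ⟨X, hXm⟩ : ∃ X : Finset (ℤ × ℤ), ∀ q, q ∈ X ↔ (q ∈ Q ∧ ∃ k ∈ Ks (2 ^ d), δ * 4 ^ d ≤
      ∑ v ∈ V, wk (2 ^ d) k 4
        (((q.1 - v.1 : ℤ) : ℝ) / 2 ^ d, ((q.2 - v.2 : ℤ) : ℝ) / 2 ^ d)) :=
    ⟨@Finset.filter _ _ (Classical.decPred _) Q, fun q => @Finset.mem_filter _ _
      (Classical.decPred _) Q q⟩
  have hX : (X.card : ℝ) ≤ CN * (d + 1) / δ ^ 2 * V.card :=
    hN d X V δ hδ0 fun q hq => ((hXm q).1 hq).2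
  have hVc : (V.card : ℝ) * (K * t / 2) ≤ 4 ^ d * (C * G2) := by
    calc _ = ∑ q ∈ V, K * t / 2 := by rw [Finset.sum_const, nsmul_eq_mul]
      _ ≤ ∑ q ∈ V, s.sigT M q := by
          refine Finset.sum_le_sum fun q hq => ?_
          obtain ⟨l, _, hq⟩ := Finset.mem_biUnion.1 hq
          obtain ⟨P, _, hq⟩ := Finset.mem_biUnion.1 hq
          exact (Finset.mem_filter.1 hq).2.le
      _ ≤ _ := tl_sigTsum s M V
  -- one window
  set m : ℕ → ℝ := fun l => ∑ P ∈ S l, s.μ P.1 P.2 l with hm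
  have hm0 : ∀ l, 0 ≤ m l := fun l => Finset.sum_nonneg fun P _ => s.μ_nonneg _ _ _
  have hone : ∀ l ∈ Finset.range M, m l ≤ η / 2 * (∫ x in s.E l, ‖s.g x‖ ^ 2) +
      1 / (2 * η) * (lam / 2 * volume.real (s.E l ∩ tlU (2 ^ d) X) +
        1 / (2 * lam) * (C * (K' ^ 2 * (C5 * (t * (d + 1) / β)) * m l)) +
        C * K' * (2 ^ 9 * (δ / β)) * C2 * m l) := by
    intro l hl
    obtain ⟨g1, g2, g3, g4, g5⟩ := hG l hl
    have b1 := tl_intbd (2 ^ d) hD s.gbcs g1 g4 (E := s.E l) Q X hQ η lam hη hlam0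
    have b2 : ∫ x, ‖G l x‖ ^ 4 ≤ C * (K' ^ 2 * (C5 * (t * (d + 1) / β)) * m l) := by
      refine g5.trans (mul_le_mul_of_nonneg_left ?_ hC0.le)
      calc _ ≤ ∑ P ∈ S l, ∑ P' ∈ S l, (K' * s.μ P.1 P.2 l) * (K' * s.μ P'.1 P'.2 l) *
            tlI d P P' := by
            refine Finset.sum_le_sum fun P hP => Finset.sum_le_sum fun P' hP' => ?_
            refine mul_le_mul_of_nonneg_right ?_ (tlI_nonneg _ _ _)
            exact mul_le_mul (h1 l hl P hP) (h1 l hl P' hP') (tl_mu'_nonneg s _ _ _)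
              (mul_nonneg hK'0.le (s.μ_nonneg _ _ _))
        _ = ∑ P ∈ S l, K' ^ 2 * s.μ P.1 P.2 l * ∑ P' ∈ S l, s.μ P'.1 P'.2 l * tlI d P P' := by
            refine Finset.sum_congr rfl fun P _ => ?_
            rw [Finset.mul_sum]
            refine Finset.sum_congr rfl fun P' _ => ?_
            ring
        _ ≤ ∑ P ∈ S l, K' ^ 2 * s.μ P.1 P.2 l * (C5 * (t * (d + 1) / β)) := by
            refine Finset.sum_le_sum fun P hP => mul_le_mul_of_nonneg_left ?_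
              (mul_nonneg (by positivity) (s.μ_nonneg _ _ _))
            exact tl_quart s hCK hCM hK hM l (S l) (hS l hl) t β ht hβ (h2 l hl) P hP
        _ = _ := by
            rw [← Finset.sum_mul, ← Finset.mul_sum]
            ring
    have b3 : ∑ q ∈ Q \ X, ∫ x in cell (2 ^ d) q, ‖G l x‖ ^ 2 ≤
        C * K' * (2 ^ 9 * (δ / β)) * C2 * m l := by
      refine tl_off s M l (S l) V (Q \ X) K' β δ hβ hδ0 hK' (K * t / 2) (h1 l hl) (h3 l hl)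
        ?_ ?_ (G l) g3
      · intro P hP q hq
        exact Finset.mem_biUnion.2 ⟨l, hl, Finset.mem_biUnion.2 ⟨P, hP, hq⟩⟩
      · intro q hq P hP
        obtain ⟨q1, q2⟩ := Finset.mem_sdiff.1 hq
        by_contra hcon
        push Not at hcon
        exact q2 ((hXm q).2 ⟨q1, P.1, hS l hl P hP, hcon.le⟩)
    refine g2.trans (b1.trans ?_)
    gcongr
  -- the sum
  have hsum := Finset.sum_le_sum hone
  set m0 := ∑ l ∈ Finset.range M, m l with hm0def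
  have hm00 : 0 ≤ m0 := Finset.sum_nonneg fun l _ => hm0 l
  have c1 := tl_sum_setInt s.gbcs s.Emeas s.Edisj M
  have c2 := tlU_sum (2 ^ d) hD X s.Emeas s.Edisj M
  have c3 : ∑ l ∈ Finset.range M, (η / 2 * (∫ x in s.E l, ‖s.g x‖ ^ 2) +
      1 / (2 * η) * (lam / 2 * volume.real (s.E l ∩ tlU (2 ^ d) X) +
        1 / (2 * lam) * (C * (K' ^ 2 * (C5 * (t * (d + 1) / β)) * m l)) +
        C * K' * (2 ^ 9 * (δ / β)) * C2 * m l)) =
      η / 2 * (∑ l ∈ Finset.range M, ∫ x in s.E l, ‖s.g x‖ ^ 2) +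
      1 / (2 * η) * (lam / 2 * (∑ l ∈ Finset.range M, volume.real (s.E l ∩ tlU (2 ^ d) X)) +
        1 / (2 * lam) * (C * (K' ^ 2 * (C5 * (t * (d + 1) / β)) * m0)) +
        C * K' * (2 ^ 9 * (δ / β)) * C2 * m0) := by
    rw [hm0def]
    simp only [Finset.mul_sum, ← Finset.sum_add_distrib]
  rw [c3] at hsum
  have c4 : η / 2 * (∑ l ∈ Finset.range M, ∫ x in s.E l, ‖s.g x‖ ^ 2) ≤ η / 2 * G2 := by
    gcongr
  have c5 : 1 / (2 * η) * (1 / (2 * lam) * (C * (K' ^ 2 * (C5 * (t * (d + 1) / β)) * m0))) =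
      m0 / 4 := by
    rw [hlam]
    field_simp
    ring
  have c6 : 1 / (2 * η) * (C * K' * (2 ^ 9 * (δ / β)) * C2 * m0) = m0 / 4 := by
    rw [hδ]
    field_simp
    ring
  have c7 : 1 / (2 * η) * (lam / 2 * (∑ l ∈ Finset.range M,
      volume.real (s.E l ∩ tlU (2 ^ d) X))) ≤ η / 2 * G2 := by
    have d1 : (X.card : ℝ) / ((2 ^ d : ℕ) : ℝ) ^ 2 ≤ CN * (d + 1) / δ ^ 2 * (2 * (C * G2) / (K * t)) := by
      have d2 : (V.card : ℝ) ≤ 4 ^ d * (2 * (C * G2) / (K * t)) := by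
        rw [← mul_div_assoc, le_div_iff₀ (by positivity)]
        linarith
      have d3 : (((2 ^ d : ℕ) : ℝ)) ^ 2 = 4 ^ d := by
        push_cast
        rw [← pow_mul, mul_comm, pow_mul]
        norm_num
      rw [d3, div_le_iff₀ (by positivity)]
      calc (X.card : ℝ) ≤ CN * (d + 1) / δ ^ 2 * V.card := hX
        _ ≤ CN * (d + 1) / δ ^ 2 * (4 ^ d * (2 * (C * G2) / (K * t))) :=
            mul_le_mul_of_nonneg_left d2 (by positivity)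
        _ = _ := by ring
    have d4 : 1 / (2 * η) * (lam / 2 * (CN * (d + 1) / δ ^ 2 * (2 * (C * G2) / (K * t)))) ≤
        η / 2 * G2 := by
      have e1 : 1 / (2 * η) * (lam / 2 * (CN * (d + 1) / δ ^ 2 * (2 * (C * G2) / (K * t)))) =
          (2 ^ 20 * (C ^ 4 * K' ^ 4 * C5 * C2 ^ 2 * CN * (d + 1) ^ 2)) /
            (2 * β ^ 3 * η ^ 4 * K) * G2 := by
        rw [hlam, hδ]
        field_simp
      rw [e1]
      refine mul_le_mul_of_nonneg_right ?_ hG20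
      rw [div_le_div_iff₀ (by positivity) (by norm_num)]
      calc _ ≤ (K * (β ^ 3 * η ^ 5)) * 2 := mul_le_mul_of_nonneg_right hbig (by norm_num)
        _ = _ := by ring
    refine le_trans ?_ d4
    have d5 := c2.trans d1
    gcongr
  have c8 : m0 ≤ η / 2 * G2 + η / 2 * G2 + m0 / 4 + m0 / 4 := by
    refine hsum.trans ?_
    rw [mul_add, mul_add, c5, c6]
    linarith
  show m0 ≤ 2 * η * G2
  linarith

/-- the two conditions at level `t` -/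
def tlGood (M : ℕ) (K β t : ℝ) (p : ℤ × (ℤ × ℤ) × ℕ) : Prop :=
  β * 2 ^ d / 2 ≤ (((cells (2 ^ d) p.1 p.2.1).filter (fun q => s.sig p.2.2 q ≤ t)).card : ℝ) ∧
  β * 2 ^ d / 2 ≤ (((cells (2 ^ d) p.1 p.2.1).filter (fun q => K * t / 2 < s.sigT M q)).card : ℝ)

/-- every packet which is not very small is good at one of the levels -/
lemma tl_exists_level (M : ℕ) (K β t₀ : ℝ) (hK : 0 < K) (ht : 0 < t₀)
    (L : ℕ) (hL : 2 ^ d * (C * ∫ x, ‖s.g x‖ ^ 2) ≤ 2 ^ L * t₀) (k : ℤ) (hk : k ∈ Ks (2 ^ d))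
    (T : ℤ × ℤ) (l : ℕ) (hμ : t₀ < s.μ k T l)
    (hlow : β * 2 ^ d ≤ ((s.low M K k T l).card : ℝ)) :
    ∃ i ∈ Finset.range (L + 1), tlGood s M K β (2 ^ i * t₀) (k, T, l) := by
  classical
  set W := s.low M K k T l with hW
  have hWc : W ⊆ cells (2 ^ d) k T := Finset.filter_subset _ _
  have hWK : ∀ q ∈ W, K * s.sig l q < s.sigT M q := fun q hq => (Finset.mem_filter.1 hq).2
  have hex : ∃ i, (W.card : ℝ) / 2 ≤ ((W.filter fun q => s.sig l q ≤ 2 ^ i * t₀).card : ℝ) := by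
    refine ⟨L, ?_⟩
    have : W.filter (fun q => s.sig l q ≤ 2 ^ L * t₀) = W :=
      Finset.filter_true_of_mem fun q _ => (tl_sig_le s l q).trans hL
    rw [this]
    have h0 : (0 : ℝ) ≤ W.card := by positivity
    linarith
  have hfind := Nat.find_spec hex
  set i := Nat.find hex with hi
  have hiL : i ≤ L := by
    refine Nat.find_min' hex ?_
    have : W.filter (fun q => s.sig l q ≤ 2 ^ L * t₀) = W :=
      Finset.filter_true_of_mem fun q _ => (tl_sig_le s l q).trans hL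
    rw [this]
    have h0 : (0 : ℝ) ≤ W.card := by positivity
    linarith
  refine ⟨i, Finset.mem_range.2 (by omega), ?_, ?_⟩
  · have h1 : W.filter (fun q => s.sig l q ≤ 2 ^ i * t₀) ⊆
        (cells (2 ^ d) k T).filter (fun q => s.sig l q ≤ 2 ^ i * t₀) :=
      Finset.filter_subset_filter _ hWc
    have h2 : ((W.filter (fun q => s.sig l q ≤ 2 ^ i * t₀)).card : ℝ) ≤
        (((cells (2 ^ d) k T).filter (fun q => s.sig l q ≤ 2 ^ i * t₀)).card : ℝ) := by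
      exact_mod_cast Finset.card_le_card h1
    show β * 2 ^ d / 2 ≤ _
    linarith
  · have h0 : (W.card : ℝ) / 2 ≤
        ((W.filter fun q => 2 ^ i * t₀ / 2 < s.sig l q).card : ℝ) := by
      rcases Nat.eq_zero_or_pos i with h0 | h0
      · have h3 : W.filter (fun q => 2 ^ i * t₀ / 2 < s.sig l q) = W := by
          refine Finset.filter_true_of_mem fun q hq => ?_
          have h4 := tl_sig_ge s k hk T q (hWc hq) l
          have h5 : (1 : ℝ) ≤ 2 ^ d := one_le_pow₀ (by norm_num)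
          have h6 : s.μ k T l ≤ 2 ^ d * s.μ k T l := le_mul_of_one_le_left (s.μ_nonneg _ _ _) h5
          rw [h0, pow_zero, one_mul]
          linarith
        rw [h3]
        have h0 : (0 : ℝ) ≤ W.card := by positivity
        linarith
      · have h3 := Nat.find_min hex (m := i - 1) (by omega)
        rw [not_le] at h3
        have h4 := Finset.card_filter_add_card_filter_not (s := W)
          (fun q => s.sig l q ≤ 2 ^ (i - 1) * t₀)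
        have h5 : (W.filter fun q => ¬ s.sig l q ≤ 2 ^ (i - 1) * t₀) =
            W.filter fun q => 2 ^ i * t₀ / 2 < s.sig l q := by
          refine Finset.filter_congr fun q _ => ?_
          rw [not_le]
          have e : (2 : ℝ) ^ i * t₀ / 2 = 2 ^ (i - 1) * t₀ := by
            obtain ⟨j, hj⟩ : ∃ j, i = j + 1 := ⟨i - 1, by omega⟩
            rw [hj, Nat.add_sub_cancel, pow_succ]
            ring
          rw [e]
        rw [h5] at h4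
        have h6 : ((W.filter (fun q => s.sig l q ≤ 2 ^ (i - 1) * t₀)).card : ℝ) +
            ((W.filter fun q => 2 ^ i * t₀ / 2 < s.sig l q).card : ℝ) = W.card := by
          exact_mod_cast h4
        linarith
    have h1 : W.filter (fun q => 2 ^ i * t₀ / 2 < s.sig l q) ⊆
        (cells (2 ^ d) k T).filter (fun q => K * (2 ^ i * t₀) / 2 < s.sigT M q) := by
      intro q hq
      obtain ⟨a, b⟩ := Finset.mem_filter.1 hq
      refine Finset.mem_filter.2 ⟨hWc a, ?_⟩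
      have h3 := hWK q a
      have h4 : K * (2 ^ i * t₀ / 2) < K * s.sig l q := mul_lt_mul_of_pos_left b hK
      linarith
    have h2 : ((W.filter (fun q => 2 ^ i * t₀ / 2 < s.sig l q)).card : ℝ) ≤
        (((cells (2 ^ d) k T).filter (fun q => K * (2 ^ i * t₀) / 2 < s.sigT M q)).card : ℝ) := by
      exact_mod_cast Finset.card_le_card h1
    show β * 2 ^ d / 2 ≤ _
    linarith

lemma tl_mu_le (k : ℤ) (hk : k ∈ Ks (2 ^ d)) (T : ℤ × ℤ) (l : ℕ) :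
    s.μ k T l ≤ C * ∫ x, ‖s.g x‖ ^ 2 := by
  have hC := s.hC
  have h1 := s.A4 l {(k, T)} (by
    intro P hP
    rw [Finset.mem_singleton.1 hP]
    exact hk)
  rw [Finset.sum_singleton] at h1
  have h2 : ∫ x in s.E l, ‖s.g x‖ ^ 2 ≤ ∫ x, ‖s.g x‖ ^ 2 :=
    setIntegral_le_integral (tl_int_sq s.gbcs 2 (by norm_num))
      (Filter.Eventually.of_forall fun x => by positivity)
  calc _ ≤ s.μ' k T l := s.μ_le _ _ _
    _ ≤ _ := h1
    _ ≤ _ := mul_le_mul_of_nonneg_left h2 (by linarith)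

/-- the packets which are good at level `t` -/
lemma tl_level' {CK CM CN : ℝ} (hCK : 1 ≤ CK) (hCM : 1 ≤ CM) (hCN : 1 ≤ CN) (hK : tlK CK)
    (hM : tlM CM) (hN : tlN CN) (M : ℕ) (P : Finset (ℤ × (ℤ × ℤ) × ℕ))
    (hP : ∀ p ∈ P, p.1 ∈ Ks (2 ^ d) ∧ p.2.2 < M)
    (t K β K' η : ℝ) (ht : 0 < t) (hKp : 0 < K) (hβ : 0 < β) (hK' : 1 ≤ K') (hη : 0 < η)
    (h1 : ∀ p ∈ P, s.μ' p.1 p.2.1 p.2.2 ≤ K' * s.μ p.1 p.2.1 p.2.2)
    (h2 : ∀ p ∈ P, tlGood s M K β t p)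
    (hbig : 2 ^ 20 * (C ^ 4 * K' ^ 4 * (2 ^ 9 * CK * CM) * (4 * tlB ^ 2) ^ 2 * CN *
      (d + 1) ^ 2) ≤ K * (β ^ 3 * η ^ 5)) :
    ∑ p ∈ P, s.μ p.1 p.2.1 p.2.2 ≤ 2 * η * ∫ x, ‖s.g x‖ ^ 2 := by
  classical
  set S : ℕ → Finset (ℤ × (ℤ × ℤ)) := fun l =>
    (P.filter fun p => p.2.2 = l).image fun p => (p.1, p.2.1) with hSdef
  have hmem : ∀ l, ∀ R ∈ S l, (R.1, R.2, l) ∈ P := by
    intro l R hR
    obtain ⟨p, hp, rfl⟩ := Finset.mem_image.1 hR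
    obtain ⟨a, b⟩ := Finset.mem_filter.1 hp
    subst b
    exact a
  have hconv : ∑ p ∈ P, s.μ p.1 p.2.1 p.2.2 =
      ∑ l ∈ Finset.range M, ∑ R ∈ S l, s.μ R.1 R.2 l := by
    rw [← Finset.sum_fiberwise_of_maps_to (g := fun p : ℤ × (ℤ × ℤ) × ℕ => p.2.2)
      (t := Finset.range M) (fun p hp => Finset.mem_range.2 (hP p hp).2)]
    refine Finset.sum_congr rfl fun l _ => ?_
    rw [hSdef]
    simp only
    rw [Finset.sum_image]
    · refine Finset.sum_congr rfl fun p hp => ?_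
      rw [(Finset.mem_filter.1 hp).2]
    · intro p hp p' hp' h
      have e1 := (Finset.mem_filter.1 hp).2
      have e2 := (Finset.mem_filter.1 hp').2
      simp only [Prod.mk.injEq] at h
      refine Prod.ext h.1 (Prod.ext h.2 (e1.trans e2.symm))
  rw [hconv]
  exact tl_level s hCK hCM hCN hK hM hN M S (fun l _ R hR => (hP _ (hmem l R hR)).1) t K β K' η
    ht hKp hβ hK' hη (fun l _ R hR => h1 _ (hmem l R hR)) (fun l _ R hR => (h2 _ (hmem l R hR)).1)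
    (fun l _ R hR => (h2 _ (hmem l R hR)).2) hbig

end level

/-- **Module 2.** -/
theorem tail_claim (hK : KBound) (hM : MMSum) (hN : NikClaim) : TailClaim := by
  classical
  intro C
  by_cases hC1 : 1 ≤ C
  swap
  · exact ⟨1, le_rfl, fun n d _ s => absurd s.hC hC1⟩
  obtain ⟨CK, hCK, hK⟩ := hK
  obtain ⟨CM, hCM, hM⟩ := hM
  obtain ⟨CN, hCN, hN⟩ := hN
  obtain ⟨a, ha⟩ := pow_unbounded_of_one_lt C (by norm_num : (1 : ℝ) < 2)
  have hB := tlB_one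
  set A : ℝ := 2 ^ 20 * (C ^ 4 * (2 ^ 9 * CK * CM) * (4 * tlB ^ 2) ^ 2 * CN) with hA
  have hA1 : 1 ≤ A := by
    have e1 : (1 : ℝ) ≤ C ^ 4 := one_le_pow₀ hC1
    have e2 : (1 : ℝ) ≤ 2 ^ 9 * CK * CM := by nlinarith
    have e3 : (1 : ℝ) ≤ (4 * tlB ^ 2) ^ 2 := one_le_pow₀ (by nlinarith)
    have e4 : (1 : ℝ) ≤ C ^ 4 * (2 ^ 9 * CK * CM) := one_le_mul_of_one_le_of_one_le e1 e2
    have e5 := one_le_mul_of_one_le_of_one_le e4 e3
    have e6 := one_le_mul_of_one_le_of_one_le e5 hCN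
    rw [hA]
    linarith
  set c : ℝ := 52 + a with hc
  have hc1 : 1 ≤ c := by
    have : (0 : ℝ) ≤ a := by positivity
    linarith
  refine ⟨A * (3 ^ 5 * c ^ 5), ?_, ?_⟩
  · have e1 : (1 : ℝ) ≤ c ^ 5 := one_le_pow₀ hc1
    nlinarith
  intro n d hdn s M hM64 P hPc hP K β K' ε hβ hβ1 hK' hε hε1 hεn hKb h1 hlow
  set G2 := ∫ x, ‖s.g x‖ ^ 2 with hG2
  have hG20 : 0 ≤ G2 := integral_nonneg fun x => by positivity
  have hn1 : (1 : ℝ) ≤ n + 1 := by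
    have : (0 : ℝ) ≤ n := by positivity
    linarith
  have hK'0 : 0 < K' := by linarith
  have hA0 : 0 < A := by linarith
  have hc0 : 0 < c := by linarith
  have hKp : 0 < K := lt_of_lt_of_le (by positivity) hKb
  rcases hG20.eq_or_lt with h0 | hpos
  · have : ∀ p ∈ P, s.μ p.1 p.2.1 p.2.2 ≤ 0 := by
      intro p hp
      have := tl_mu_le s p.1 (hP p hp).1 p.2.1 p.2.2
      rw [← hG2, ← h0, mul_zero] at this
      exact this
    rw [← h0, mul_zero]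
    exact Finset.sum_nonpos this
  -- the levels
  set t₀ : ℝ := (2 ^ (50 * (n + 1)))⁻¹ * G2 with ht₀
  have ht0 : 0 < t₀ := by positivity
  set L : ℕ := 51 * (n + 1) + a with hL
  have hLb : 2 ^ d * (C * G2) ≤ 2 ^ L * t₀ := by
    have e1 : (2 : ℝ) ^ L * t₀ = 2 ^ (n + 1) * 2 ^ a * G2 := by
      rw [ht₀, hL]
      have : (2 : ℝ) ^ (51 * (n + 1) + a) = 2 ^ (50 * (n + 1)) * 2 ^ (n + 1) * 2 ^ a := by
        rw [← pow_add, ← pow_add]
        congr 1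
        ring
      rw [this]
      field_simp
    rw [e1]
    have e2 : (2 : ℝ) ^ d ≤ 2 ^ (n + 1) := pow_le_pow_right₀ (by norm_num) (by omega)
    calc (2 : ℝ) ^ d * (C * G2) ≤ 2 ^ (n + 1) * (2 ^ a * G2) := by
          have e3 : C ≤ 2 ^ a := ha.le
          gcongr
      _ = _ := by ring
  set η : ℝ := ε / (3 * (L + 1)) with hη
  have hL1 : (0 : ℝ) < (L : ℝ) + 1 := by positivity
  have hη0 : 0 < η := by positivity
  have hLc : (L : ℝ) + 1 ≤ c * (n + 1) := by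
    rw [hL, hc]
    push_cast
    have : (0 : ℝ) ≤ a := by positivity
    have h2 : (0 : ℝ) ≤ n := by positivity
    nlinarith
  have hbig : 2 ^ 20 * (C ^ 4 * K' ^ 4 * (2 ^ 9 * CK * CM) * (4 * tlB ^ 2) ^ 2 * CN *
      (d + 1) ^ 2) ≤ K * (β ^ 3 * η ^ 5) := by
    have e1 : β ^ 3 * η ^ 5 = (β ^ 3 * ε ^ 5) / (3 ^ 5 * ((L : ℝ) + 1) ^ 5) := by
      rw [hη]
      field_simp
    rw [e1, ← mul_div_assoc, le_div_iff₀ (by positivity)]
    rw [div_le_iff₀ (by positivity)] at hKb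
    refine le_trans ?_ hKb
    have e2 : ((d : ℝ) + 1) ^ 2 ≤ (n + 1) ^ 2 := by
      have : (d : ℝ) ≤ n := by exact_mod_cast hdn
      gcongr
    have e3 : ((L : ℝ) + 1) ^ 5 ≤ (c * (n + 1)) ^ 5 := by gcongr
    calc 2 ^ 20 * (C ^ 4 * K' ^ 4 * (2 ^ 9 * CK * CM) * (4 * tlB ^ 2) ^ 2 * CN *
          (d + 1) ^ 2) * (3 ^ 5 * ((L : ℝ) + 1) ^ 5) =
          A * K' ^ 4 * 3 ^ 5 * (((d : ℝ) + 1) ^ 2 * ((L : ℝ) + 1) ^ 5) := by
          rw [hA]
          ring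
      _ ≤ A * K' ^ 4 * 3 ^ 5 * (((n : ℝ) + 1) ^ 2 * (c * (n + 1)) ^ 5) := by gcongr
      _ = _ := by ring
  -- splitting
  have hμ0 : ∀ p : ℤ × (ℤ × ℤ) × ℕ, 0 ≤ s.μ p.1 p.2.1 p.2.2 := fun p => s.μ_nonneg _ _ _
  have hsplit : ∑ p ∈ P, s.μ p.1 p.2.1 p.2.2 ≤ ∑ p ∈ P, t₀ +
      ∑ i ∈ Finset.range (L + 1), ∑ p ∈ P.filter (fun p => tlGood s M K β (2 ^ i * t₀) p),
        s.μ p.1 p.2.1 p.2.2 := by
    have e1 : ∀ i, ∑ p ∈ P.filter (fun p => tlGood s M K β (2 ^ i * t₀) p),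
        s.μ p.1 p.2.1 p.2.2 = ∑ p ∈ P, if tlGood s M K β (2 ^ i * t₀) p then
          s.μ p.1 p.2.1 p.2.2 else 0 := fun i => Finset.sum_filter _ _
    simp_rw [e1]
    rw [Finset.sum_comm, ← Finset.sum_add_distrib]
    refine Finset.sum_le_sum fun p hp => ?_
    have hnn : ∀ i ∈ Finset.range (L + 1), 0 ≤ (if tlGood s M K β (2 ^ i * t₀) p then
          s.μ p.1 p.2.1 p.2.2 else 0) := by
      intro i _
      split_ifs
      · exact hμ0 p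
      · exact le_rfl
    by_cases hsm : s.μ p.1 p.2.1 p.2.2 ≤ t₀
    · have := Finset.sum_nonneg hnn
      linarith
    · rw [not_le] at hsm
      obtain ⟨i, hi, hgood⟩ := tl_exists_level s M K β t₀ hKp ht0 L hLb p.1 (hP p hp).1 p.2.1
        p.2.2 hsm (hlow p hp)
      have h2 := Finset.single_le_sum hnn hi
      rw [if_pos hgood] at h2
      linarith
  have hlev : ∀ i ∈ Finset.range (L + 1),
      ∑ p ∈ P.filter (fun p => tlGood s M K β (2 ^ i * t₀) p), s.μ p.1 p.2.1 p.2.2 ≤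
        2 * η * G2 := by
    intro i _
    refine tl_level' s hCK hCM hCN hK hM hN M _ ?_ (2 ^ i * t₀) K β K' η (by positivity) hKp hβ
      hK' hη0 ?_ ?_ hbig
    · intro p hp
      exact hP p (Finset.mem_filter.1 hp).1
    · intro p hp
      exact h1 p (Finset.mem_filter.1 hp).1
    · intro p hp
      exact (Finset.mem_filter.1 hp).2
  have hsmall : ∑ p ∈ P, t₀ ≤ ε / 3 * G2 := by
    rw [Finset.sum_const, nsmul_eq_mul]
    calc (P.card : ℝ) * t₀ ≤ 2 ^ (40 * (n + 1)) * t₀ := mul_le_mul_of_nonneg_right hPc ht0.le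
      _ = (2 ^ (10 * (n + 1)))⁻¹ * G2 := by
          rw [ht₀]
          have : (2 : ℝ) ^ (50 * (n + 1)) = 2 ^ (40 * (n + 1)) * 2 ^ (10 * (n + 1)) := by
            rw [← pow_add]
            congr 1
            ring
          rw [this]
          field_simp
      _ ≤ ε / 3 * G2 := by
          refine mul_le_mul_of_nonneg_right ?_ hG20
          have h5 : 3 * ((n : ℝ) + 1) ^ 2 ≤ 2 ^ (10 * (n + 1)) := by
            have h6 : ((n : ℝ) + 1) ≤ 2 ^ (n + 1) := by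
              have : n + 1 < 2 ^ (n + 1) := Nat.lt_two_pow_self
              exact_mod_cast this.le
            have h7 : ((n : ℝ) + 1) ^ 2 ≤ (2 ^ (n + 1)) ^ 2 := by gcongr
            have h8 : (3 : ℝ) ≤ (2 ^ (n + 1)) ^ 8 := by
              have : (2 : ℝ) ≤ 2 ^ (n + 1) := by
                calc (2 : ℝ) = 2 ^ 1 := by norm_num
                  _ ≤ _ := pow_le_pow_right₀ (by norm_num) (by omega)
              calc (3 : ℝ) ≤ 2 ^ 8 := by norm_num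
                _ ≤ _ := by gcongr
            calc 3 * ((n : ℝ) + 1) ^ 2 ≤ (2 ^ (n + 1)) ^ 8 * (2 ^ (n + 1)) ^ 2 := by gcongr
              _ = 2 ^ (10 * (n + 1)) := by
                rw [← pow_add, ← pow_mul, mul_comm (n + 1)]
          have h9 : (2 ^ (10 * (n + 1)))⁻¹ ≤ 1 / (3 * ((n : ℝ) + 1) ^ 2) := by
            rw [inv_eq_one_div]
            exact one_div_le_one_div_of_le (by positivity) h5
          refine h9.trans ?_
          have h10 : 1 / (3 * ((n : ℝ) + 1) ^ 2) = 1 / (n + 1 : ℝ) ^ 2 / 3 := by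
            field_simp
          rw [h10]
          linarith
  have hfin : ∑ i ∈ Finset.range (L + 1),
      ∑ p ∈ P.filter (fun p => tlGood s M K β (2 ^ i * t₀) p), s.μ p.1 p.2.1 p.2.2 ≤
        2 * ε / 3 * G2 := by
    refine (Finset.sum_le_sum hlev).trans (le_of_eq ?_)
    rw [Finset.sum_const, Finset.card_range, nsmul_eq_mul, hη]
    push_cast
    field_simp
  calc _ ≤ _ := hsplit
    _ ≤ ε / 3 * G2 + 2 * ε / 3 * G2 := add_le_add hsmall hfin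
    _ = ε * G2 := by ring

end

end Pool.Agent.Helper32.KS
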