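import Pool.Agent.Helper32.KS.Wt
import Pool.Agent.Helper32.KS.Geo
import Pool.Agent.Helper32.KS.NK

/-!
# Wave packets: orthogonality on cells and tiles (helper32)
-/

set_option autoImplicit false

open MeasureTheory
open scoped BigOperators Real ContDiff

namespace Pool.Agent.Helper32.KS

noncomputable section

/-! ### discrete sums of weights -/

lemma sum_hw2 (D : ℕ) (hD : 1 ≤ D) (y : ℝ) (S : Finset ℤ) :
    ∑ m ∈ S, hw 2 (((m : ℝ) - y) / D) ≤ 16 * D := by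
  have hD1 : (1 : ℝ) ≤ D := by exact_mod_cast hD
  have h1 : ∀ m : ℤ, hw 2 (((m : ℝ) - y) / D) ≤ 4 * hw 2 (((m - ⌊y⌋).natAbs : ℝ) / D) := by
    intro m
    have h2 : hw 2 (((m - ⌊y⌋).natAbs : ℝ) / D) = hw 2 (((m : ℝ) - ⌊y⌋) / D) := by
      have : ((m - ⌊y⌋).natAbs : ℝ) = |(m : ℝ) - ⌊y⌋| := by
        rw [Nat.cast_natAbs]
        push_cast
        rfl
      rw [this]
      unfold hw
      rw [abs_div, abs_div, abs_abs]
    rw [h2]
    apply nk_hw2_shift hD1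
    have := Int.floor_le y
    have := Int.lt_floor_add_one y
    rw [abs_le]
    constructor <;> linarith
  calc ∑ m ∈ S, hw 2 (((m : ℝ) - y) / D) ≤ ∑ m ∈ S, 4 * hw 2 (((m - ⌊y⌋).natAbs : ℝ) / D) :=
        Finset.sum_le_sum fun m _ => h1 m
    _ = 4 * ∑ m ∈ S, hw 2 (((m - ⌊y⌋).natAbs : ℝ) / D) := by rw [Finset.mul_sum]
    _ ≤ 4 * (2 * (2 * D)) := by
        gcongr
        exact nk_int_sum (fun i => hw 2 ((i : ℝ) / D)) (fun i => hw_nonneg _ _) ⌊y⌋ S (2 * D)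
          (fun N => nk_partial2 D hD N)
    _ = 16 * D := by ring

lemma sum_hw2' (y : ℝ) (S : Finset ℤ) : ∑ m ∈ S, hw 2 (y - m) ≤ 16 := by
  have := sum_hw2 1 le_rfl y S
  simp only [Nat.cast_one, div_one, mul_one] at this
  simpa only [hw_sub_comm 2 y] using this

/-! ### the weights -/

/-- the cell weight -/
def cellW (D : ℝ) (q : ℤ × ℤ) (x : ℝ × ℝ) : ℝ :=
  ‖sc (D * x.1 - q.1 - 1/2) ^ 14 * sc (D * x.2 - q.2 - 1/2) ^ 14‖ ^ 2

/-- the tile weight -/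
def tileH (p : ℕ) (D : ℝ) (k : ℤ) (T : ℤ × ℤ) (x : ℝ × ℝ) : ℝ :=
  hw p (x.1 - T.1) * hw p (D * x.2 - k * x.1 - T.2)

lemma sc_cont : Continuous sc := by
  unfold sc
  apply continuous_parametric_integral_of_continuous
  · fun_prop
  · exact isCompact_Icc

@[fun_prop]
lemma sc_cont' {X : Type*} [TopologicalSpace X] {f : X → ℝ} (hf : Continuous f) :
    Continuous fun x => sc (f x) := sc_cont.comp hf

lemma cellW_cont (D : ℝ) (q : ℤ × ℤ) : Continuous (cellW D q) := by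
  unfold cellW
  fun_prop

lemma tileH_cont (p : ℕ) (D : ℝ) (k : ℤ) (T : ℤ × ℤ) : Continuous (tileH p D k T) := by
  unfold tileH
  fun_prop

lemma cellW_nonneg (D : ℝ) (q : ℤ × ℤ) (x : ℝ × ℝ) : 0 ≤ cellW D q x := by
  unfold cellW; positivity

lemma tileH_nonneg (p : ℕ) (D : ℝ) (k : ℤ) (T : ℤ × ℤ) (x : ℝ × ℝ) : 0 ≤ tileH p D k T x :=
  mul_nonneg (hw_nonneg _ _) (hw_nonneg _ _)

lemma cellW_le (D : ℝ) (q : ℤ × ℤ) (x : ℝ × ℝ) :
    cellW D q x ≤ 9 ^ 14 * 9 ^ 14 * (hw 28 (D * x.1 - q.1) * hw 28 (D * x.2 - q.2)) := by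
  unfold cellW
  rw [norm_mul, mul_pow]
  calc ‖sc (D * x.1 - q.1 - 1/2) ^ 14‖ ^ 2 * ‖sc (D * x.2 - q.2 - 1/2) ^ 14‖ ^ 2
      ≤ (9 ^ 14 * hw (2 * 14) (D * x.1 - q.1)) * (9 ^ 14 * hw (2 * 14) (D * x.2 - q.2)) := by
        gcongr
        · exact mul_nonneg (by norm_num) (hw_nonneg _ _)
        · exact sc_pow_shift_le 14 _
        · exact sc_pow_shift_le 14 _
    _ = _ := by ring

lemma cellW_le_one (D : ℝ) (q : ℤ × ℤ) (x : ℝ × ℝ) : cellW D q x ≤ 1 := by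
  unfold cellW
  rw [norm_mul, norm_pow, norm_pow]
  have h1 := sc_norm_le_one (D * x.1 - q.1 - 1/2)
  have h2 := sc_norm_le_one (D * x.2 - q.2 - 1/2)
  have h3 : ‖sc (D * x.1 - q.1 - 1/2)‖ ^ 14 ≤ 1 := pow_le_one₀ (norm_nonneg _) h1
  have h4 : ‖sc (D * x.2 - q.2 - 1/2)‖ ^ 14 ≤ 1 := pow_le_one₀ (norm_nonneg _) h2
  apply pow_le_one₀ (by positivity)
  exact mul_le_one₀ h3 (by positivity) h4

lemma tileH_le_one (p : ℕ) (D : ℝ) (k : ℤ) (T : ℤ × ℤ) (x : ℝ × ℝ) : tileH p D k T x ≤ 1 :=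
  mul_le_one₀ (hw_le_one _ _) (hw_nonneg _ _) (hw_le_one _ _)

lemma tileH_anti {p p' : ℕ} (h : p ≤ p') (D : ℝ) (k : ℤ) (T : ℤ × ℤ) (x : ℝ × ℝ) :
    tileH p' D k T x ≤ tileH p D k T x := by
  unfold tileH
  exact mul_le_mul (hw_anti h _) (hw_anti h _) (hw_nonneg _ _) (hw_nonneg _ _)

/-- on the cell the cell weight is bounded below -/
lemma one_le_cellW (D : ℕ) (q : ℤ × ℤ) {x : ℝ × ℝ} (hx : x ∈ cell D q) :
    1 ≤ 2 ^ 56 * cellW D q x := by
  obtain ⟨h1, h2, h3, h4⟩ := hx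
  have a1 : 1/2 ≤ ‖sc ((D : ℝ) * x.1 - q.1 - 1/2)‖ := by
    apply sc_lower
    rw [abs_le]
    constructor <;> linarith
  have a2 : 1/2 ≤ ‖sc ((D : ℝ) * x.2 - q.2 - 1/2)‖ := by
    apply sc_lower
    rw [abs_le]
    constructor <;> linarith
  have a3 : (1/2 : ℝ) ^ 14 ≤ ‖sc ((D : ℝ) * x.1 - q.1 - 1/2)‖ ^ 14 := by gcongr
  have a4 : (1/2 : ℝ) ^ 14 ≤ ‖sc ((D : ℝ) * x.2 - q.2 - 1/2)‖ ^ 14 := by gcongr
  unfold cellW
  rw [norm_mul, norm_pow, norm_pow]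
  calc (1 : ℝ) = 2 ^ 56 * ((1/2) ^ 14 * (1/2) ^ 14) ^ 2 := by norm_num
    _ ≤ _ := by gcongr

/-- cells of a tile: coordinates of the corner -/
lemma mem_cells {D : ℕ} (hD : 1 ≤ D) {k : ℤ} {T q : ℤ × ℤ} :
    q ∈ cells D k T ↔ tile D k q = T := by
  have hD0 : (0 : ℤ) < D := by exact_mod_cast hD
  unfold cells tile
  simp only [Finset.mem_image, Finset.mem_range]
  constructor
  · rintro ⟨i, hi, rfl⟩
    have h1 : ((D : ℤ) * T.1 + i) / D = T.1 := by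
      rw [Int.add_comm, Int.add_mul_ediv_left _ _ hD0.ne', Int.ediv_eq_zero_of_lt (by positivity)
        (by exact_mod_cast hi), zero_add]
    ext
    · exact h1
    · simp
  · intro h
    have h1 : q.1 / D = T.1 := by rw [← h]
    have h2 : q.2 + (-k * q.1) / D = T.2 := by rw [← h]
    have h3 := Int.emod_nonneg q.1 hD0.ne'
    have h4 := Int.emod_lt_of_pos q.1 hD0
    have h5 := Int.mul_ediv_add_emod q.1 D
    refine ⟨(q.1 % D).toNat, by omega, ?_⟩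
    have h6 : (D : ℤ) * T.1 + ((q.1 % D).toNat : ℤ) = q.1 := by
      rw [Int.toNat_of_nonneg h3, ← h1]
      exact h5
    ext
    · exact h6
    · simp only
      rw [h6, ← h2]
      ring

lemma card_cells {D : ℕ} (k : ℤ) (T : ℤ × ℤ) : (cells D k T).card = D := by
  unfold cells
  rw [Finset.card_image_of_injective, Finset.card_range]
  intro i j hij
  simp only [Prod.mk.injEq] at hij
  have := hij.1
  omega

/-- real coordinates of the corner in its tile -/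
lemma tile_coord {D : ℕ} (hD : 1 ≤ D) {k : ℤ} {T q : ℤ × ℤ} (h : tile D k q = T) :
    0 ≤ (q.1 : ℝ) / D - T.1 ∧ (q.1 : ℝ) / D - T.1 < 1 ∧
    0 ≤ (q.2 : ℝ) - k * q.1 / D - T.2 ∧ (q.2 : ℝ) - k * q.1 / D - T.2 < 1 := by
  have hD0 : (0 : ℤ) < D := by exact_mod_cast hD
  have hDr : (0 : ℝ) < D := by exact_mod_cast hD
  have h1 : q.1 / D = T.1 := by rw [← h]; rfl
  have h2 : q.2 + (-k * q.1) / D = T.2 := by rw [← h]; rfl
  have h3 := Int.emod_nonneg q.1 hD0.ne'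
  have h4 := Int.emod_lt_of_pos q.1 hD0
  have h5 := Int.mul_ediv_add_emod q.1 D
  have g3 := Int.emod_nonneg (-k * q.1) hD0.ne'
  have g4 := Int.emod_lt_of_pos (-k * q.1) hD0
  have g5 := Int.mul_ediv_add_emod (-k * q.1) D
  have e1 : (q.1 : ℝ) / D - T.1 = ((q.1 % D : ℤ) : ℝ) / D := by
    rw [← h1]
    field_simp
    have : (q.1 : ℝ) = D * ((q.1 / D : ℤ) : ℝ) + ((q.1 % D : ℤ) : ℝ) := by exact_mod_cast h5.symm
    linarith
  have e2 : (q.2 : ℝ) - k * q.1 / D - T.2 = ((-k * q.1 % D : ℤ) : ℝ) / D := by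
    rw [← h2]
    field_simp
    have : ((-k * q.1 : ℤ) : ℝ) = D * ((-k * q.1 / D : ℤ) : ℝ) + ((-k * q.1 % D : ℤ) : ℝ) := by
      exact_mod_cast g5.symm
    push_cast at this ⊢
    linarith
  rw [e1, e2]
  refine ⟨by positivity, ?_, by positivity, ?_⟩
  · rw [div_lt_one hDr]
    exact_mod_cast h4
  · rw [div_lt_one hDr]
    exact_mod_cast g4

lemma abs_k_le {D : ℕ} {k : ℤ} (hk : k ∈ Ks D) : |(k : ℝ)| ≤ 9 * D := by
  unfold Ks at hk
  rw [Finset.mem_Icc] at hk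
  rw [abs_le]
  constructor
  · have : ((-9 * D : ℤ) : ℝ) ≤ k := by exact_mod_cast hk.1
    push_cast at this
    linarith
  · have : (k : ℝ) ≤ ((9 * D : ℤ) : ℝ) := by exact_mod_cast hk.2
    push_cast at this
    linarith

/-- one cell of the tile: `hw28 hw28` is bounded by tile weight times a summable factor -/
lemma cell_to_tile {D : ℕ} (hD : 1 ≤ D) {k : ℤ} (hk : k ∈ Ks D) {T q : ℤ × ℤ}
    (h : tile D k q = T) (x : ℝ × ℝ) :
    hw 28 (D * x.1 - q.1) * hw 28 (D * x.2 - q.2) ≤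
      20 ^ 14 * (hw 2 (D * x.1 - q.1) * tileH 12 D k T x) := by
  have hDr : (1 : ℝ) ≤ D := by exact_mod_cast hD
  have hD0 : (0 : ℝ) < D := by linarith
  obtain ⟨c1, c2, c3, c4⟩ := tile_coord hD h
  have hk' := abs_k_le hk
  set A : ℝ := D * x.1 - q.1 with hA
  set B : ℝ := D * x.2 - q.2 with hB
  have hκ : |(k : ℝ) / D| ≤ 9 := by
    rw [abs_div, abs_of_pos hD0, div_le_iff₀ hD0]
    exact hk'
  -- v coordinate
  have e1 : D * x.2 - k * x.1 - T.2 = B - k / D * A + (q.2 - k * q.1 / D - T.2) := by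
    rw [hA, hB]
    field_simp
    ring
  have b1 : 1 + |D * x.2 - k * x.1 - T.2| ≤ 10 * ((1 + |A|) * (1 + |B|)) := by
    rw [e1]
    have : |B - k / D * A + (q.2 - k * q.1 / D - T.2)| ≤ |B| + 9 * |A| + 1 := by
      refine (abs_add_le _ _).trans ?_
      have t1 : |B - k / D * A| ≤ |B| + 9 * |A| := by
        refine (abs_sub _ _).trans ?_
        rw [abs_mul]
        gcongr
      have t2 : |(q.2 : ℝ) - k * q.1 / D - T.2| ≤ 1 := by
        rw [abs_le]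
        constructor <;> linarith
      linarith
    nlinarith [abs_nonneg A, abs_nonneg B, mul_nonneg (abs_nonneg A) (abs_nonneg B)]
  have e2 : x.1 - T.1 = A / D + (q.1 / D - T.1) := by
    rw [hA]
    field_simp
    ring
  have b2 : 1 + |x.1 - T.1| ≤ 2 * (1 + |A|) := by
    rw [e2]
    have t1 : |A / D| ≤ |A| := by
      rw [abs_div, abs_of_pos hD0]
      exact div_le_self (abs_nonneg _) hDr
    have t2 : |(q.1 : ℝ) / D - T.1| ≤ 1 := by
      rw [abs_le]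
      constructor <;> linarith
    have := abs_add_le (A / D) (q.1 / D - T.1)
    linarith [abs_nonneg A]
  -- multiply
  have b3 : ((1 + |x.1 - T.1|) * (1 + |D * x.2 - k * x.1 - T.2|)) ^ 12 ≤
      20 ^ 14 * ((1 + |A|) ^ 26 * (1 + |B|) ^ 28) := by
    have h1 : (1 + |x.1 - T.1|) * (1 + |D * x.2 - k * x.1 - T.2|) ≤
        20 * ((1 + |A|) ^ 2 * (1 + |B|)) := by
      calc (1 + |x.1 - T.1|) * (1 + |D * x.2 - k * x.1 - T.2|)
          ≤ (2 * (1 + |A|)) * (10 * ((1 + |A|) * (1 + |B|))) := by gcongr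
        _ = 20 * ((1 + |A|) ^ 2 * (1 + |B|)) := by ring
    calc ((1 + |x.1 - T.1|) * (1 + |D * x.2 - k * x.1 - T.2|)) ^ 12
        ≤ (20 * ((1 + |A|) ^ 2 * (1 + |B|))) ^ 12 := by gcongr
      _ = 20 ^ 12 * ((1 + |A|) ^ 24 * (1 + |B|) ^ 12) := by ring
      _ ≤ 20 ^ 14 * ((1 + |A|) ^ 26 * (1 + |B|) ^ 28) := by
          have hA1 : 1 ≤ 1 + |A| := by linarith [abs_nonneg A]
          have hB1 : 1 ≤ 1 + |B| := by linarith [abs_nonneg B]
          gcongr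
          · norm_num
          · norm_num
          · norm_num
          · norm_num
  unfold tileH hw
  rw [← mul_inv, ← mul_inv, ← mul_inv, ← mul_pow (1 + |x.1 - T.1|), ← div_eq_mul_inv,
    le_div_iff₀ (by positivity), inv_mul_le_iff₀ (by positivity)]
  calc (1 + |A|) ^ 2 * ((1 + |x.1 - T.1|) * (1 + |D * x.2 - k * x.1 - T.2|)) ^ 12
      ≤ (1 + |A|) ^ 2 * (20 ^ 14 * ((1 + |A|) ^ 26 * (1 + |B|) ^ 28)) := by gcongr
    _ = _ := by ring

/-- the cell weights of a tile sum to a multiple of the tile weight -/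
lemma sum_cellW {D : ℕ} (hD : 1 ≤ D) {k : ℤ} (hk : k ∈ Ks D) (T : ℤ × ℤ) (x : ℝ × ℝ) :
    ∑ q ∈ cells D k T, cellW D q x ≤ (9 ^ 14 * 9 ^ 14 * 20 ^ 14 * 16) * tileH 12 D k T x := by
  have h1 : ∀ q ∈ cells D k T, cellW D q x ≤
      (9 ^ 14 * 9 ^ 14 * 20 ^ 14 * tileH 12 D k T x) * hw 2 (D * x.1 - q.1) := by
    intro q hq
    rw [mem_cells hD] at hq
    refine (cellW_le D q x).trans ?_
    calc 9 ^ 14 * 9 ^ 14 * (hw 28 (D * x.1 - q.1) * hw 28 (D * x.2 - q.2))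
        ≤ 9 ^ 14 * 9 ^ 14 * (20 ^ 14 * (hw 2 (D * x.1 - q.1) * tileH 12 D k T x)) := by
          exact mul_le_mul_of_nonneg_left (cell_to_tile hD hk hq x) (by norm_num)
      _ = _ := by ring
  refine (Finset.sum_le_sum h1).trans ?_
  rw [← Finset.mul_sum]
  have h2 : ∑ q ∈ cells D k T, hw 2 (D * x.1 - q.1) ≤ 16 := by
    have h3 : ∑ q ∈ cells D k T, hw 2 (D * x.1 - q.1) =
        ∑ m ∈ (cells D k T).image Prod.fst, hw 2 (D * x.1 - m) := by
      rw [Finset.sum_image]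
      intro a ha b hb hab
      simp only [Finset.mem_coe] at ha hb
      rw [mem_cells hD] at ha hb
      have : (tile D k a).2 = (tile D k b).2 := by rw [ha, hb]
      unfold tile at this
      simp only at this
      ext
      · exact hab
      · rw [hab] at this
        linarith
    rw [h3]
    exact sum_hw2' _ _
  have h4 : 0 ≤ 9 ^ 14 * 9 ^ 14 * 20 ^ 14 * tileH 12 D k T x :=
    mul_nonneg (by norm_num) (tileH_nonneg _ _ _ _ _)
  nlinarith

end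

end Pool.Agent.Helper32.KS
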