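import Pool.Agent.Helper32.KS.Wave

/-!
# Wave packets: the packets `F_{l,k}` and the inequalities A1 - A4 (helper32)
-/

set_option autoImplicit false

open MeasureTheory
open scoped BigOperators Real ContDiff

namespace Pool.Agent.Helper32.KS

noncomputable section

/-! ### bounds of the multipliers -/

lemma st_le_one (t : ℝ) : Real.smoothTransition t ≤ 1 := Real.smoothTransition.le_one t

lemma st_nonneg (t : ℝ) : 0 ≤ Real.smoothTransition t := Real.smoothTransition.nonneg t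

lemma st_cont : Continuous Real.smoothTransition := Real.smoothTransition.continuous

lemma cut_bdd (D : ℝ) (ξ : ℝ × ℝ) : 0 ≤ cut D ξ ∧ cut D ξ ≤ 1 := by
  unfold cut cutA cutB
  have h1 := st_nonneg
  have h2 := st_le_one
  constructor
  · exact mul_nonneg (mul_nonneg (h1 _) (h1 _)) (mul_nonneg (h1 _) (h1 _))
  · have a1 := mul_le_one₀ (h2 (5 * (ξ.1 / D ^ 2) - 5/2)) (h1 (5 - ξ.1 / D ^ 2)) (h2 _)
    have a2 := mul_le_one₀ (h2 (4 - (ξ.2 / D ^ 2))) (h1 (4 + ξ.2 / D ^ 2)) (h2 _)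
    exact mul_le_one₀ a1 (mul_nonneg (h1 _) (h1 _)) a2

lemma bet_bdd (s : ℝ) : |bet s| ≤ 1 := by
  unfold bet
  rw [abs_le]
  constructor <;> linarith [st_nonneg (s+1), st_nonneg s, st_le_one (s+1), st_le_one s]

lemma Win.bdd {φ : ℝ → ℝ} (h : Win φ) : ∃ C : ℝ, 1 ≤ C ∧ ∀ s, |φ s| ≤ C := by
  have h1 : HasCompactSupport φ := by
    apply HasCompactSupport.of_support_subset_isCompact (isCompact_Icc : IsCompact (Set.Icc (1:ℝ) 8))
    intro s hs
    exact h.supp s hs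
  obtain ⟨C, hC⟩ := h1.exists_bound_of_continuous h.smooth.continuous
  refine ⟨|C| + 1, by linarith [abs_nonneg C], fun s => ?_⟩
  have := hC s
  rw [Real.norm_eq_abs] at this
  linarith [le_abs_self C]

lemma cut_meas (D : ℝ) : Measurable (cut D) := by
  unfold cut cutA cutB
  have := st_cont
  fun_prop

lemma pp_meas (D : ℝ) : Measurable (pp D) := by
  unfold pp
  fun_prop

lemma bet_cont : Continuous bet := by
  unfold bet
  have := st_cont
  fun_prop

lemma mulw_meas {φ : ℝ → ℝ} (h : Win φ) (D u₀ : ℝ) (l : ℕ) : Measurable (mulw φ D u₀ l) := by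
  unfold mulw
  have h1 := h.smooth.continuous.measurable
  have h2 := cut_meas D
  have h3 := pp_meas D
  exact (h1.comp (by fun_prop)).mul (h2.pow_const 2)

lemma mulk_meas {φ : ℝ → ℝ} (h : Win φ) (D u₀ : ℝ) (l : ℕ) (k : ℤ) :
    Measurable (mulk φ D u₀ l k) := by
  unfold mulk
  apply (mulw_meas h D u₀ l).mul
  apply bet_cont.measurable.comp
  fun_prop

lemma mulw_le {φ : ℝ → ℝ} {C : ℝ} (hC : ∀ s, |φ s| ≤ C) (D u₀ : ℝ) (l : ℕ)
    (ξ : ℝ × ℝ) : |mulw φ D u₀ l ξ| ≤ C := by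
  unfold mulw
  obtain ⟨h1, h2⟩ := cut_bdd D ξ
  rw [abs_mul, abs_of_nonneg (by positivity : 0 ≤ cut D ξ ^ 2)]
  have h3 : cut D ξ ^ 2 ≤ 1 := pow_le_one₀ h1 h2
  have h0 := abs_nonneg (φ (l + u₀ - pp D ξ))
  calc |φ (l + u₀ - pp D ξ)| * cut D ξ ^ 2 ≤ |φ (l + u₀ - pp D ξ)| * 1 := by gcongr
    _ ≤ C := by rw [mul_one]; exact hC _

lemma mulk_le {φ : ℝ → ℝ} {C : ℝ} (hC : ∀ s, |φ s| ≤ C) (D u₀ : ℝ) (l : ℕ) (k : ℤ)
    (ξ : ℝ × ℝ) : |mulk φ D u₀ l k ξ| ≤ C * |bet (D * ξ.2 / ξ.1 - k)| := by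
  unfold mulk
  rw [abs_mul]
  gcongr
  exact mulw_le hC D u₀ l ξ

lemma mulk_le' {φ : ℝ → ℝ} {C : ℝ} (hC : ∀ s, |φ s| ≤ C) (hC0 : 0 ≤ C) (D u₀ : ℝ) (l : ℕ)
    (k : ℤ) (ξ : ℝ × ℝ) : |mulk φ D u₀ l k ξ| ≤ C := by
  refine (mulk_le hC D u₀ l k ξ).trans ?_
  calc C * |bet (D * ξ.2 / ξ.1 - k)| ≤ C * 1 := by
        gcongr
        exact bet_bdd _
    _ = C := mul_one C

/-- `∑_k bet(s-k)² ≤ 3` -/
lemma bet_sq_sum (s : ℝ) (K : Finset ℤ) : ∑ k ∈ K, |bet (s - k)| ^ 2 ≤ 3 := by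
  classical
  have h1 : ∑ k ∈ K, |bet (s - k)| ^ 2 ≤ ∑ k ∈ K.filter (fun k : ℤ => bet (s - k) ≠ 0), 1 := by
    rw [Finset.sum_filter]
    apply Finset.sum_le_sum
    intro k _
    split_ifs with h
    · have := bet_bdd (s - k)
      exact pow_le_one₀ (abs_nonneg _) this
    · push Not at h
      rw [h]
      simp
  refine h1.trans ?_
  rw [Finset.sum_const, nsmul_eq_mul, mul_one]
  have : (K.filter (fun k : ℤ => bet (s - k) ≠ 0)).card ≤ 2 + 1 := by
    apply card_le_of_diam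
    intro a ha b hb
    rw [Finset.mem_filter] at ha hb
    have h2 := bet_supp ha.2
    have h3 := bet_supp hb.2
    have h4 : |(a : ℝ) - b| < 2 := by
      rw [abs_lt]
      constructor <;> linarith
    have h5 : |a - b| < (2 : ℤ) := by
      have : ((|a - b| : ℤ) : ℝ) < 2 := by
        push_cast
        exact h4
      exact_mod_cast this
    exact_mod_cast h5.le
  exact_mod_cast this

/-- partition of unity -/
lemma bet_sum (s : ℝ) (K : ℕ) (hs : |s| ≤ K) :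
    ∑ k ∈ Finset.Icc (-(K : ℤ)) K, bet (s - k) = 1 := by
  have key : ∀ n : ℕ, ∑ k ∈ Finset.Icc (-(K : ℤ)) (-(K:ℤ) + n), bet (s - k) =
      Real.smoothTransition (s + K + 1) - Real.smoothTransition (s + K - n) := by
    intro n
    induction n with
    | zero =>
      simp only [Nat.cast_zero, add_zero, Finset.Icc_self, Finset.sum_singleton, sub_zero]
      unfold bet
      push_cast
      congr 2
      ring
      ring
    | succ n ih =>
      have h1 : Finset.Icc (-(K : ℤ)) (-(K:ℤ) + (n + 1 : ℕ)) =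
          insert (-(K:ℤ) + (n + 1 : ℕ)) (Finset.Icc (-(K : ℤ)) (-(K:ℤ) + n)) := by
        ext x
        simp only [Finset.mem_Icc, Finset.mem_insert]
        push_cast
        omega
      rw [h1, Finset.sum_insert, ih]
      · unfold bet
        push_cast
        have e1 : s - (-(K:ℝ) + (n + 1)) + 1 = s + K - n := by ring
        have e2 : s - (-(K:ℝ) + (n + 1)) = s + K - (n + 1) := by ring
        rw [e1, e2]
        ring
      · simp only [Finset.mem_Icc]
        push_cast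
        omega
  have h := key (2 * K)
  have h2 : -(K : ℤ) + (2 * K : ℕ) = K := by push_cast; ring
  rw [h2] at h
  rw [h, Real.smoothTransition.one_of_one_le, Real.smoothTransition.zero_of_nonpos, sub_zero]
  · push_cast
    have := abs_le.1 hs
    linarith [this.2]
  · have := abs_le.1 hs
    linarith [this.1]

/-! ### configuration -/

/-- the data: window `φ` with bound `Cφ`, `D = 2^d`, `u₀`, `g`, `E` -/
structure Cfg (φ : ℝ → ℝ) (d : ℕ) where
  /-- shift -/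
  u₀ : ℝ
  hu0 : 0 ≤ u₀
  hu1 : u₀ ≤ 1
  /-- function -/
  g : ℝ × ℝ → ℂ
  hg : BCS g
  /-- sets -/
  E : ℕ → Set (ℝ × ℝ)
  hE : ∀ l, MeasurableSet (E l)
  hEd : ∀ i j, i ≠ j → Disjoint (E i) (E j)

variable {φ : ℝ → ℝ} {d : ℕ}

/-- packet amplitude in frequency -/
def Cfg.a (c : Cfg φ d) (l : ℕ) (k : ℤ) (ξ : ℝ × ℝ) : ℂ :=
  (mulk φ (2 ^ d) c.u₀ l k ξ : ℂ) * fwd ((c.E l).indicator c.g) ξ

/-- packets -/
def Cfg.F (c : Cfg φ d) (l : ℕ) (k : ℤ) : ℝ × ℝ → ℂ := inv (c.a l k)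

lemma twod_pos (d : ℕ) : (0 : ℝ) < 2 ^ d := by positivity

lemma Slk_supp {D u₀ : ℝ} {l : ℕ} {k : ℤ} {ξ : ℝ × ℝ} (h : ξ ∈ Slk D u₀ l k) :
    |ξ.1| ≤ 5 * D ^ 2 ∧ |ξ.2| ≤ 5 * D ^ 2 := by
  obtain ⟨⟨h1, h2, h3, h4⟩, -, -⟩ := h
  have := sq_nonneg D
  constructor
  · rw [abs_of_nonneg (by linarith)]
    exact h2
  · linarith

lemma Cfg.a_bcs (c : Cfg φ d) (hφ : Win φ) (l : ℕ) (k : ℤ) : BCS (c.a l k) := by
  obtain ⟨C, hC1, hC⟩ := hφ.bdd
  have hf : Continuous (fwd ((c.E l).indicator c.g)) := fwd_cont (c.hg.indicator (c.hE l)).integrable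
  refine ⟨?_, ⟨C * ∫ x, ‖(c.E l).indicator c.g x‖, fun ξ => ?_⟩, ⟨5 * (2 ^ d) ^ 2, fun ξ hξ => ?_⟩⟩
  · exact (Complex.continuous_ofReal.measurable.comp (mulk_meas hφ _ _ _ _)).mul hf.measurable
  · unfold Cfg.a
    rw [norm_mul, Complex.norm_real, Real.norm_eq_abs]
    exact mul_le_mul (mulk_le' hC (by linarith) _ _ _ _ _) (fwd_norm_le _ _) (norm_nonneg _)
      (by linarith)
  · unfold Cfg.a at hξ
    have h1 := left_ne_zero_of_mul hξ
    have h2 : mulk φ (2 ^ d) c.u₀ l k ξ ≠ 0 := by exact_mod_cast h1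
    exact Slk_supp (mulk_supp hφ (twod_pos d) h2)

lemma Cfg.F_band (c : Cfg φ d) (hφ : Win φ) (l : ℕ) (k : ℤ) :
    Band (Slk (2 ^ d) c.u₀ l k) (c.F l k) := by
  refine ⟨c.a l k, c.a_bcs hφ l k, fun ξ hξ => ?_, rfl⟩
  unfold Cfg.a at hξ
  have h1 := left_ne_zero_of_mul hξ
  have h2 : mulk φ (2 ^ d) c.u₀ l k ξ ≠ 0 := by exact_mod_cast h1
  exact mulk_supp hφ (twod_pos d) h2

/-- integrability with bounded weights -/
lemma Band.weight_integrable {S : Set (ℝ × ℝ)} {F : ℝ × ℝ → ℂ} (h : Band S F)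
    {W : ℝ × ℝ → ℝ} (hW : Measurable W) {C : ℝ} (hC : ∀ x, |W x| ≤ C) :
    Integrable fun x => W x * ‖F x‖ ^ 2 := by
  refine (h.sq_integrable.const_mul C).mono' ?_ (Filter.Eventually.of_forall fun x => ?_)
  · exact (hW.mul (h.cont.measurable.norm.pow_const 2)).aestronglyMeasurable
  · rw [Real.norm_eq_abs, abs_mul, abs_of_nonneg (by positivity : 0 ≤ ‖F x‖ ^ 2)]
    gcongr
    exact hC x

lemma cellW_int {S : Set (ℝ × ℝ)} {F : ℝ × ℝ → ℂ} (h : Band S F) (D : ℝ) (q : ℤ × ℤ) :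
    Integrable fun x => cellW D q x * ‖F x‖ ^ 2 :=
  h.weight_integrable (cellW_cont D q).measurable (C := 1) fun x => by
    rw [abs_of_nonneg (cellW_nonneg D q x)]
    exact cellW_le_one D q x

lemma tileH_int {S : Set (ℝ × ℝ)} {F : ℝ × ℝ → ℂ} (h : Band S F) (p : ℕ) (D : ℝ) (k : ℤ)
    (T : ℤ × ℤ) : Integrable fun x => tileH p D k T x * ‖F x‖ ^ 2 :=
  h.weight_integrable (tileH_cont p D k T).measurable (C := 1) fun x => by
    rw [abs_of_nonneg (tileH_nonneg p D k T x)]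
    exact tileH_le_one p D k T x

/-! ### A1 -/

/-- **orthogonality of sectors on a cell** -/
lemma cell_orth {D : ℕ} (hD : 1 ≤ D) (q : ℤ × ℤ) (K : Finset ℤ) (H : ℤ → ℝ × ℝ → ℂ)
    (hH : ∀ k ∈ K, Band (Sk D k) (H k)) :
    ∫ x in cell D q, ‖∑ k ∈ K, H k x‖ ^ 2 ≤
      2 ^ 56 * 507 * ∑ k ∈ K, ∫ x, cellW D q x * ‖H k x‖ ^ 2 := by
  classical
  have hDr : (1 : ℝ) ≤ D := by exact_mod_cast hD
  have hD0 : (0 : ℝ) < D := by linarith
  have hsumB : Band (⋃ k ∈ K, Sk D k) (fun x => ∑ k ∈ K, H k x) := by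
    apply Band.sum
    intro k hk
    refine (hH k hk).mono ?_
    intro ξ hξ
    simp only [Set.mem_iUnion]
    exact ⟨k, hk, hξ⟩
  -- first bound by the weight
  have h1 : ∫ x in cell D q, ‖∑ k ∈ K, H k x‖ ^ 2 ≤
      2 ^ 56 * ∫ x, cellW D q x * ‖∑ k ∈ K, H k x‖ ^ 2 := by
    have hm : MeasurableSet (cell D q) := (nk_cell_vol D hD q).2
    rw [← integral_indicator hm, ← integral_const_mul]
    apply integral_mono
    · exact hsumB.sq_integrable.indicator hm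
    · exact (cellW_int hsumB D q).const_mul _
    · intro x
      simp only
      by_cases hx : x ∈ cell D q
      · rw [Set.indicator_of_mem hx]
        have := one_le_cellW D q hx
        have h0 : 0 ≤ ‖∑ k ∈ K, H k x‖ ^ 2 := by positivity
        nlinarith
      · rw [Set.indicator_of_notMem hx]
        have := cellW_nonneg D q x
        positivity
  refine h1.trans ?_
  rw [mul_assoc]
  apply mul_le_mul_of_nonneg_left _ (by norm_num)
  -- multiply by sinc powers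
  set Ψ : ℝ × ℝ → ℂ := fun x => sc (D * x.1 - q.1 - 1/2) ^ 14 * sc (D * x.2 - q.2 - 1/2) ^ 14
    with hΨ
  set S : ℤ → Set (ℝ × ℝ) := fun k => {ξ | ∃ s t : ℝ, |s| ≤ 7 ∧ |t| ≤ 7 ∧
    (ξ.1 - D * s, ξ.2 - D * t) ∈ Sk D k} with hS
  have hB : ∀ k ∈ K, Band (S k) (fun x => Ψ x * H k x) := by
    intro k hk
    have b1 := (hH k hk).mul_sc_pow (0, (D : ℝ)) (q.2 + 1/2) 14
    have b2 := b1.mul_sc_pow ((D : ℝ), 0) (q.1 + 1/2) 14
    have e : (fun x : ℝ × ℝ => Ψ x * H k x) = fun x =>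
        sc (((D : ℝ), (0:ℝ)).1 * x.1 + ((D : ℝ), (0:ℝ)).2 * x.2 - (q.1 + 1/2)) ^ 14 *
        (sc (((0:ℝ), (D : ℝ)).1 * x.1 + ((0:ℝ), (D : ℝ)).2 * x.2 - (q.2 + 1/2)) ^ 14 * H k x) := by
      funext x
      simp only [hΨ, zero_mul, add_zero, zero_add]
      rw [show (D : ℝ) * x.1 - q.1 - 1/2 = D * x.1 - (q.1 + 1/2) by ring,
        show (D : ℝ) * x.2 - q.2 - 1/2 = D * x.2 - (q.2 + 1/2) by ring]
      ring
    rw [e]
    refine b2.mono ?_
    rintro ξ ⟨s, hs, t, ht, h3⟩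
    refine ⟨s, t, by norm_num at hs; linarith, by norm_num at ht; linarith, ?_⟩
    convert h3 using 1
    ext
    · simp [mul_comm]
    · simp [mul_comm]
  have hov := band_overlap K S (fun k x => Ψ x * H k x) hB 507 (by
    intro ξ
    apply card_le_of_diam (c := 506)
    intro a ha b hb
    rw [Finset.mem_filter] at ha hb
    obtain ⟨s, t, hs, ht, h1⟩ := ha.2
    obtain ⟨s', t', hs', ht', h2⟩ := hb.2
    have h3 := sector_overlap (m := 28) hD0 (by norm_num) h1 h2 (by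
      simp only
      rw [show ξ.1 - D * s - (ξ.1 - D * s') = (s' - s) * D by ring, abs_mul, abs_of_pos hD0]
      gcongr
      rw [abs_le] at hs hs' ⊢
      constructor <;> linarith) (by
      simp only
      rw [show ξ.2 - D * t - (ξ.2 - D * t') = (t' - t) * D by ring, abs_mul, abs_of_pos hD0]
      gcongr
      rw [abs_le] at ht ht' ⊢
      constructor <;> linarith)
    have h4 : ((|a - b| : ℤ) : ℝ) ≤ 506 := by
      push_cast
      linarith
    exact_mod_cast h4)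
  have e1 : ∀ x, cellW D q x * ‖∑ k ∈ K, H k x‖ ^ 2 = ‖∑ k ∈ K, Ψ x * H k x‖ ^ 2 := by
    intro x
    rw [← Finset.mul_sum, norm_mul, mul_pow]
    rfl
  have e2 : ∀ k x, cellW D q x * ‖H k x‖ ^ 2 = ‖Ψ x * H k x‖ ^ 2 := by
    intro k x
    rw [norm_mul, mul_pow]
    rfl
  simp_rw [e1, e2]
  exact_mod_cast hov

/-! ### A2 -/

/-- **orthogonality of windows on a tile** -/
lemma tile_orth {D : ℕ} (hD : 1 ≤ D) {u₀ : ℝ} {k : ℤ} (hk : k ∈ Ks D) (T : ℤ × ℤ) (A : Finset ℕ)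
    (F : ℕ → ℝ × ℝ → ℂ) (hF : ∀ l ∈ A, Band (Slk D u₀ l k) (F l)) :
    ∫ x, tileH 12 D k T x * ‖∑ l ∈ A, F l x‖ ^ 2 ≤
      (4 * 25 ^ 6 * 25 ^ 6 * 13000 * 9 ^ 6 * 9 ^ 6) *
        ∑ l ∈ A, ∫ x, tileH 12 D k T x * ‖F l x‖ ^ 2 := by
  classical
  have hDr : (1 : ℝ) ≤ D := by exact_mod_cast hD
  have hD0 : (0 : ℝ) < D := by linarith
  have hk' := abs_k_le hk
  -- the four weights
  set Ψ : Fin 2 → Fin 2 → ℝ × ℝ → ℂ := fun i j x =>
    sc (x.1 - T.1 - i.val * (1/2)) ^ 6 * sc (D * x.2 - k * x.1 - T.2 - j.val * (1/2)) ^ 6 with hΨ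
  set S : ℕ → Set (ℝ × ℝ) := fun l => {ξ | ∃ s t : ℝ, |s| ≤ 3 ∧ |t| ≤ 3 ∧
    (ξ.1 - s + k * t, ξ.2 - D * t) ∈ Slk D u₀ l k} with hS
  have hB : ∀ i j, ∀ l ∈ A, Band (S l) (fun x => Ψ i j x * F l x) := by
    intro i j l hl
    have b1 := (hF l hl).mul_sc_pow (-(k : ℝ), (D : ℝ)) (T.2 + j.val * (1/2)) 6
    have b2 := b1.mul_sc_pow ((1 : ℝ), 0) (T.1 + i.val * (1/2)) 6
    have e : (fun x : ℝ × ℝ => Ψ i j x * F l x) = fun x =>
        sc (((1 : ℝ), (0:ℝ)).1 * x.1 + ((1 : ℝ), (0:ℝ)).2 * x.2 - (T.1 + i.val * (1/2))) ^ 6 *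
        (sc ((-(k:ℝ), (D : ℝ)).1 * x.1 + (-(k:ℝ), (D : ℝ)).2 * x.2 - (T.2 + j.val * (1/2))) ^ 6
          * F l x) := by
      funext x
      simp only [hΨ, zero_mul, add_zero, one_mul]
      rw [show x.1 - (T.1:ℝ) - i.val * (1/2) = x.1 - (T.1 + i.val * (1/2)) by ring,
        show (D : ℝ) * x.2 - k * x.1 - T.2 - j.val * (1/2) =
          -(k:ℝ) * x.1 + D * x.2 - (T.2 + j.val * (1/2)) by ring]
      ring
    rw [e]
    refine b2.mono ?_
    rintro ξ ⟨s, hs, t, ht, h3⟩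
    refine ⟨s, t, by norm_num at hs; linarith, by norm_num at ht; linarith, ?_⟩
    convert h3 using 1
    ext
    · simp
      ring
    · simp [mul_comm]
  have hov : ∀ i j, ∫ x, ‖∑ l ∈ A, Ψ i j x * F l x‖ ^ 2 ≤
      13000 * ∑ l ∈ A, ∫ x, ‖Ψ i j x * F l x‖ ^ 2 := by
    intro i j
    have := band_overlap A S (fun l x => Ψ i j x * F l x) (hB i j) 13000 (by
      intro ξ
      refine (card_le_of_diam' (c := 3056) ?_).trans (by norm_num)
      intro a ha b hb
      rw [Finset.mem_filter] at ha hb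
      obtain ⟨s, t, hs, ht, h1⟩ := ha.2
      obtain ⟨s', t', hs', ht', h2⟩ := hb.2
      have h3 := window_overlap (m := 6) (s := s - s') (t := t - t') hDr hk' (by norm_num) h1 h2
        (by
          rw [abs_le] at hs hs' ⊢
          constructor <;> linarith) (by
          rw [abs_le] at ht ht' ⊢
          constructor <;> linarith) (by simp only; ring) (by simp only; ring)
      refine h3.trans ?_
      norm_num)
    exact_mod_cast this
  -- pointwise comparison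
  have hup : ∀ i j x, ‖Ψ i j x‖ ^ 2 ≤ 9 ^ 6 * 9 ^ 6 * tileH 12 D k T x := by
    intro i j x
    have key : ∀ (i : Fin 2) (t : ℝ), ‖sc (t - i.val * (1/2)) ^ 6‖ ^ 2 ≤ 9 ^ 6 * hw 12 t := by
      intro i t
      fin_cases i
      · simp only [Nat.cast_zero, zero_mul, sub_zero]
        refine (sc_pow_le 6 t).trans ?_
        have := hw_nonneg (2 * 6) t
        norm_num at this ⊢
        linarith
      · simp only [Nat.cast_one, one_mul]
        exact sc_pow_shift_le 6 t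
    simp only [hΨ]
    rw [norm_mul, mul_pow]
    unfold tileH
    calc ‖sc (x.1 - T.1 - i.val * (1/2)) ^ 6‖ ^ 2 *
          ‖sc (D * x.2 - k * x.1 - T.2 - j.val * (1/2)) ^ 6‖ ^ 2
        ≤ (9 ^ 6 * hw 12 (x.1 - T.1)) * (9 ^ 6 * hw 12 (D * x.2 - k * x.1 - T.2)) := by
          apply mul_le_mul (key i _) (key j _) (by positivity)
          exact mul_nonneg (by norm_num) (hw_nonneg _ _)
      _ = _ := by ring
  have hlow : ∀ x, tileH 12 D k T x ≤ 25 ^ 6 * 25 ^ 6 * ∑ i, ∑ j, ‖Ψ i j x‖ ^ 2 := by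
    intro x
    have h1 := hw_le_sc 6 (x.1 - T.1)
    have h2 := hw_le_sc 6 (D * x.2 - k * x.1 - T.2)
    unfold tileH
    calc hw 12 (x.1 - T.1) * hw 12 (D * x.2 - k * x.1 - T.2)
        ≤ (25 ^ 6 * (‖sc (x.1 - T.1) ^ 6‖ ^ 2 + ‖sc (x.1 - T.1 - 1/2) ^ 6‖ ^ 2)) *
          (25 ^ 6 * (‖sc (D * x.2 - k * x.1 - T.2) ^ 6‖ ^ 2 +
            ‖sc (D * x.2 - k * x.1 - T.2 - 1/2) ^ 6‖ ^ 2)) := by
          apply mul_le_mul h1 h2 (hw_nonneg _ _)
          positivity
      _ = _ := by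
          simp only [Fin.sum_univ_two, hΨ, norm_mul, mul_pow]
          simp only [Fin.val_zero, Nat.cast_zero, zero_mul, sub_zero, Fin.val_one, Nat.cast_one,
            one_mul]
          ring
  -- integrate
  have hsB : ∀ i j, Band (⋃ l ∈ A, S l) (fun x => ∑ l ∈ A, Ψ i j x * F l x) := by
    intro i j
    apply Band.sum
    intro l hl
    refine (hB i j l hl).mono ?_
    intro ξ hξ
    simp only [Set.mem_iUnion]
    exact ⟨l, hl, hξ⟩
  have hsF : Band (⋃ l ∈ A, Slk D u₀ l k) (fun x => ∑ l ∈ A, F l x) := by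
    apply Band.sum
    intro l hl
    refine (hF l hl).mono ?_
    intro ξ hξ
    simp only [Set.mem_iUnion]
    exact ⟨l, hl, hξ⟩
  calc ∫ x, tileH 12 D k T x * ‖∑ l ∈ A, F l x‖ ^ 2
      ≤ ∫ x, 25 ^ 6 * 25 ^ 6 * ∑ i, ∑ j, ‖∑ l ∈ A, Ψ i j x * F l x‖ ^ 2 := by
        apply integral_mono (tileH_int hsF 12 D k T)
        · apply Integrable.const_mul
          apply integrable_finsetSum
          intro i _
          apply integrable_finsetSum
          intro j _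
          exact (hsB i j).sq_integrable
        · intro x
          simp only
          have e : ∀ i j, ‖∑ l ∈ A, Ψ i j x * F l x‖ ^ 2 =
              ‖Ψ i j x‖ ^ 2 * ‖∑ l ∈ A, F l x‖ ^ 2 := by
            intro i j
            rw [← Finset.mul_sum, norm_mul, mul_pow]
          simp_rw [e, ← Finset.sum_mul]
          rw [← mul_assoc]
          gcongr
          exact hlow x
    _ = 25 ^ 6 * 25 ^ 6 * ∑ i, ∑ j, ∫ x, ‖∑ l ∈ A, Ψ i j x * F l x‖ ^ 2 := by
        rw [integral_const_mul, integral_finsetSum]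
        · congr 1
          refine Finset.sum_congr rfl fun i _ => ?_
          rw [integral_finsetSum]
          intro j _
          exact (hsB i j).sq_integrable
        · intro i _
          apply integrable_finsetSum
          intro j _
          exact (hsB i j).sq_integrable
    _ ≤ 25 ^ 6 * 25 ^ 6 * ∑ i : Fin 2, ∑ j : Fin 2,
          (13000 * ∑ l ∈ A, (9 ^ 6 * 9 ^ 6 * ∫ x, tileH 12 D k T x * ‖F l x‖ ^ 2)) := by
        apply mul_le_mul_of_nonneg_left _ (by norm_num)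
        refine Finset.sum_le_sum fun i _ => Finset.sum_le_sum fun j _ => ?_
        refine (hov i j).trans ?_
        apply mul_le_mul_of_nonneg_left _ (by norm_num)
        refine Finset.sum_le_sum fun l hl => ?_
        rw [← integral_const_mul]
        apply integral_mono (hB i j l hl).sq_integrable
        · exact (tileH_int (hF l hl) 12 D k T).const_mul _
        · intro x
          simp only
          rw [norm_mul, mul_pow, ← mul_assoc]
          gcongr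
          exact hup i j x
    _ = _ := by
        simp only [Finset.sum_const, Finset.card_univ, Fintype.card_fin, nsmul_eq_mul,
          ← Finset.mul_sum]
        push_cast
        ring

end

end Pool.Agent.Helper32.KS
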