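import Pool.Agent.Helper32.KS.Wave2

/-!
# Wave packets: A3, A3', A4 (helper32)
-/

set_option autoImplicit false

open MeasureTheory
open scoped BigOperators Real ContDiff

namespace Pool.Agent.Helper32.KS

noncomputable section

/-- pointwise bound of a packet by its mass on a tile -/
lemma packet_sup {D : ℕ} (hD : 1 ≤ D) {u₀ : ℝ} {k : ℤ} (hk : k ∈ Ks D) {l : ℕ}
    {F : ℝ × ℝ → ℂ} (hF : Band (Slk D u₀ l k) F) (T : ℤ × ℤ) (x : ℝ × ℝ) :
    ‖F x‖ ^ 2 ≤ (4 * 2803 * 25303 * 4 ^ 12) * D *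
      ((1 + |x.1 - T.1|) ^ 12 * (1 + |D * x.2 - k * x.1 - T.2|) ^ 12) *
        ∫ y, tileH 12 D k T y * ‖F y‖ ^ 2 := by
  have hDr : (1 : ℝ) ≤ D := by exact_mod_cast hD
  have hD0 : (0 : ℝ) < D := by linarith
  have hk' := abs_k_le hk
  set Ψ : ℝ × ℝ → ℂ := fun y =>
    sc (y.1 - x.1) ^ 6 * sc (D * y.2 - k * y.1 - (D * x.2 - k * x.1)) ^ 6 with hΨ
  have hB : Band {ξ | ∃ s t : ℝ, |s| ≤ 3 ∧ |t| ≤ 3 ∧
      (ξ.1 - s + k * t, ξ.2 - D * t) ∈ Slk D u₀ l k} (fun y => Ψ y * F y) := by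
    have b1 := hF.mul_sc_pow (-(k : ℝ), (D : ℝ)) (D * x.2 - k * x.1) 6
    have b2 := b1.mul_sc_pow ((1 : ℝ), 0) (x.1) 6
    have e : (fun y : ℝ × ℝ => Ψ y * F y) = fun y =>
        sc (((1 : ℝ), (0:ℝ)).1 * y.1 + ((1 : ℝ), (0:ℝ)).2 * y.2 - x.1) ^ 6 *
        (sc ((-(k:ℝ), (D : ℝ)).1 * y.1 + (-(k:ℝ), (D : ℝ)).2 * y.2 - (D * x.2 - k * x.1)) ^ 6
          * F y) := by
      funext y
      simp only [hΨ, zero_mul, add_zero, one_mul]
      rw [show (D : ℝ) * y.2 - k * y.1 - (D * x.2 - k * x.1) =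
          -(k:ℝ) * y.1 + D * y.2 - (D * x.2 - k * x.1) by ring]
      ring
    rw [e]
    refine b2.mono ?_
    rintro ξ ⟨s, hs, t, ht, h3⟩
    refine ⟨s, t, by norm_num at hs; linarith, by norm_num at ht; linarith, ?_⟩
    convert h3 using 1
    ext
    · simp
      ring
    · simp [mul_comm]
  -- pointwise
  have hup : ∀ y, ‖Ψ y‖ ^ 2 ≤ 4 ^ 12 *
      ((1 + |x.1 - T.1|) ^ 12 * (1 + |D * x.2 - k * x.1 - T.2|) ^ 12) * tileH 12 D k T y := by
    intro y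
    simp only [hΨ]
    rw [norm_mul, mul_pow]
    have h1 := sc_pow_le 6 (y.1 - x.1)
    have h2 := sc_pow_le 6 (D * y.2 - k * y.1 - (D * x.2 - k * x.1))
    have h3 : hw 12 (y.1 - x.1) ≤ (1 + |x.1 - T.1|) ^ 12 * hw 12 (y.1 - T.1) := by
      have := hw_slow 12 (y.1 - x.1) (x.1 - T.1)
      rwa [sub_add_sub_cancel] at this
    have h4 : hw 12 (D * y.2 - k * y.1 - (D * x.2 - k * x.1)) ≤
        (1 + |D * x.2 - k * x.1 - T.2|) ^ 12 * hw 12 (D * y.2 - k * y.1 - T.2) := by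
      have := hw_slow 12 (D * y.2 - k * y.1 - (D * x.2 - k * x.1)) (D * x.2 - k * x.1 - T.2)
      rwa [sub_add_sub_cancel] at this
    unfold tileH
    norm_num at h1 h2
    calc ‖sc (y.1 - x.1) ^ 6‖ ^ 2 * ‖sc (D * y.2 - k * y.1 - (D * x.2 - k * x.1)) ^ 6‖ ^ 2
        ≤ (4096 * hw 12 (y.1 - x.1)) * (4096 * hw 12 (D * y.2 - k * y.1 - (D * x.2 - k * x.1))) := by
          rw [norm_pow, norm_pow]
          apply mul_le_mul h1 h2 (by positivity)
          exact mul_nonneg (by norm_num) (hw_nonneg _ _)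
      _ ≤ (4096 * ((1 + |x.1 - T.1|) ^ 12 * hw 12 (y.1 - T.1))) *
          (4096 * ((1 + |D * x.2 - k * x.1 - T.2|) ^ 12 * hw 12 (D * y.2 - k * y.1 - T.2))) := by
          have n1 := hw_nonneg 12 (y.1 - T.1)
          have n2 := hw_nonneg 12 (D * y.2 - k * y.1 - T.2)
          have n3 := hw_nonneg 12 (D * y.2 - k * y.1 - (D * x.2 - k * x.1))
          gcongr
      _ = _ := by ring
  have hint : ∫ y, ‖Ψ y * F y‖ ^ 2 ≤ 4 ^ 12 *
      ((1 + |x.1 - T.1|) ^ 12 * (1 + |D * x.2 - k * x.1 - T.2|) ^ 12) *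
        ∫ y, tileH 12 D k T y * ‖F y‖ ^ 2 := by
    rw [← integral_const_mul]
    apply integral_mono hB.sq_integrable ((tileH_int hF 12 D k T).const_mul _)
    intro y
    simp only
    rw [norm_mul, mul_pow, ← mul_assoc]
    gcongr
    exact hup y
  have hΨx : Ψ x * F x = F x := by
    simp [hΨ, sc_zero]
  have hnn : 0 ≤ ∫ y, tileH 12 D k T y * ‖F y‖ ^ 2 :=
    integral_nonneg fun y => mul_nonneg (tileH_nonneg _ _ _ _ _) (by positivity)
  -- sup bound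
  have hsup : ‖F x‖ ^ 2 ≤ (4 * 2803 * (25303 * D)) * ∫ y, ‖Ψ y * F y‖ ^ 2 := by
    by_cases hne : ∃ η, η ∈ Slk D u₀ l k
    · obtain ⟨η, hη⟩ := hne
      have hsub : {ξ : ℝ × ℝ | ∃ s t : ℝ, |s| ≤ 3 ∧ |t| ≤ 3 ∧
          (ξ.1 - s + k * t, ξ.2 - D * t) ∈ Slk D u₀ l k} ⊆
          Par D k (η.1 + k / D * η.2, η.2) 2803 (25303 * D) := by
        rintro ξ ⟨s, t, hs, ht, h⟩
        obtain ⟨b1, b2⟩ := Slk_box hDr hk' h hη
        simp only at b1 b2
        constructor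
        · simp only
          have e1 : ξ.1 + k / D * ξ.2 - (η.1 + k / D * η.2) =
              (ξ.1 - s + k * t + k / D * (ξ.2 - D * t) - (η.1 + k / D * η.2)) + s := by
            field_simp
            ring
          rw [e1]
          refine (abs_add_le _ _).trans ?_
          linarith
        · simp only
          have e1 : ξ.2 - η.2 = (ξ.2 - D * t - η.2) + D * t := by ring
          rw [e1]
          refine (abs_add_le _ _).trans ?_
          rw [abs_mul, abs_of_pos hD0]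
          have : D * |t| ≤ D * 3 := by gcongr
          linarith
      obtain ⟨v1, v2⟩ := Par_vol D k (η.1 + k / D * η.2, η.2) (A := 2803) (B := 25303 * D)
        (by norm_num) (by positivity)
      have := hB.sup_le (Par_meas _ _ _ _ _) hsub v1 v2 x
      rwa [hΨx] at this
    · -- empty support: F = 0
      push Not at hne
      obtain ⟨f, hf, h1, h2⟩ := hF
      have hf0 : f = fun _ => 0 := by
        funext ξ
        by_contra h
        exact hne ξ (h1 ξ h)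
      have : F x = 0 := by
        rw [h2, hf0]
        simp [inv]
      rw [this]
      simp only [norm_zero, ne_eq, OfNat.ofNat_ne_zero, not_false_eq_true, zero_pow]
      apply mul_nonneg (by positivity)
      exact integral_nonneg fun y => by positivity
  calc ‖F x‖ ^ 2 ≤ (4 * 2803 * (25303 * D)) * ∫ y, ‖Ψ y * F y‖ ^ 2 := hsup
    _ ≤ (4 * 2803 * (25303 * D)) * (4 ^ 12 *
      ((1 + |x.1 - T.1|) ^ 12 * (1 + |D * x.2 - k * x.1 - T.2|) ^ 12) *
        ∫ y, tileH 12 D k T y * ‖F y‖ ^ 2) := by gcongr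
    _ = _ := by ring

/-- `∫ hw2(Dx₁-a) hw2(Dx₂-b) = D^{-2} (∫ hw2)²` -/
lemma int_cell_hw {D : ℝ} (hD : 0 < D) (a b : ℝ) :
    Integrable (fun x : ℝ × ℝ => hw 2 (D * x.1 - a) * hw 2 (D * x.2 - b)) ∧
    ∫ x : ℝ × ℝ, hw 2 (D * x.1 - a) * hw 2 (D * x.2 - b) = nkc ^ 2 / D ^ 2 := by
  have h1 : ∀ c : ℝ, Integrable fun s : ℝ => hw 2 (D * s - c) := by
    intro c
    exact (nk_hw2_int.comp_sub_right c).comp_mul_left' hD.ne'
  have h2 : ∀ c : ℝ, ∫ s : ℝ, hw 2 (D * s - c) = nkc / D := by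
    intro c
    have e1 := Measure.integral_comp_mul_left (fun s => hw 2 (s - c)) D
    rw [e1, integral_sub_right_eq_self (fun s => hw 2 s) c, abs_of_pos (by positivity), smul_eq_mul]
    unfold nkc
    field_simp
  constructor
  · exact (h1 a).mul_prod (h1 b)
  · have := integral_prod_mul (μ := (volume : Measure ℝ)) (ν := (volume : Measure ℝ))
      (fun s : ℝ => hw 2 (D * s - a)) (fun s : ℝ => hw 2 (D * s - b))
    rw [Measure.volume_eq_prod, this, h2, h2]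
    field_simp

lemma cell_aux {c1 c2 c3 h1 h2 D μ X P Q : ℝ} (hc1 : 0 ≤ c1) (hc2 : 0 ≤ c2)
    (hh1 : 0 ≤ h1) (hh2 : 0 ≤ h2) (hD : 0 ≤ D) (hμ : 0 ≤ μ) (hX : X ≤ c3 * (P * Q)) :
    (c1 * (h1 * h2)) * (c2 * D * X * μ) ≤ (c2 * (c1 * c3) * D * μ) * ((h1 * P) * (h2 * Q)) := by
  calc (c1 * (h1 * h2)) * (c2 * D * X * μ) = (c1 * (h1 * h2) * (c2 * D) * μ) * X := by ring
    _ ≤ (c1 * (h1 * h2) * (c2 * D) * μ) * (c3 * (P * Q)) := by
        apply mul_le_mul_of_nonneg_left hX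
        positivity
    _ = _ := by ring

/-- **the mass of a packet is spread over its tile** -/
lemma cell_mass_le {D : ℕ} (hD : 1 ≤ D) {u₀ : ℝ} {k : ℤ} (hk : k ∈ Ks D) {l : ℕ}
    {F : ℝ × ℝ → ℂ} (hF : Band (Slk D u₀ l k) F) (q : ℤ × ℤ) :
    ∫ x, cellW D q x * ‖F x‖ ^ 2 ≤
      ((4 * 2803 * 25303 * 4 ^ 12) * (9 ^ 14 * 9 ^ 14 * 20 ^ 12) * nkc ^ 2) / D *
        ∫ y, tileH 12 D k (tile D k q) y * ‖F y‖ ^ 2 := by
  have hDr : (1 : ℝ) ≤ D := by exact_mod_cast hD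
  have hD0 : (0 : ℝ) < D := by linarith
  have hk' := abs_k_le hk
  set T := tile D k q with hT
  set μ := ∫ y, tileH 12 D k T y * ‖F y‖ ^ 2 with hμ
  have hnn : 0 ≤ μ :=
    integral_nonneg fun y => mul_nonneg (tileH_nonneg _ _ _ _ _) (by positivity)
  obtain ⟨c1, c2, c3, c4⟩ := tile_coord hD (rfl : tile D k q = T)
  have hκ : |(k : ℝ) / D| ≤ 9 := by
    rw [abs_div, abs_of_pos hD0, div_le_iff₀ hD0]
    exact hk'
  obtain ⟨i1, i2⟩ := int_cell_hw hD0 (q.1 : ℝ) (q.2 : ℝ)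
  -- pointwise
  have hpt : ∀ x : ℝ × ℝ, cellW D q x * ‖F x‖ ^ 2 ≤
      ((4 * 2803 * 25303 * 4 ^ 12) * (9 ^ 14 * 9 ^ 14 * 20 ^ 12) * D * μ) *
        (hw 2 (D * x.1 - q.1) * hw 2 (D * x.2 - q.2)) := by
    intro x
    set A : ℝ := D * x.1 - q.1 with hA
    set B : ℝ := D * x.2 - q.2 with hB
    have e1 : D * x.2 - k * x.1 - T.2 = B - k / D * A + (q.2 - k * q.1 / D - T.2) := by
      rw [hA, hB]
      field_simp
      ring
    have b1 : 1 + |D * x.2 - k * x.1 - T.2| ≤ 10 * ((1 + |A|) * (1 + |B|)) := by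
      rw [e1]
      have : |B - k / D * A + (q.2 - k * q.1 / D - T.2)| ≤ |B| + 9 * |A| + 1 := by
        refine (abs_add_le _ _).trans ?_
        have t1 : |B - k / D * A| ≤ |B| + 9 * |A| := by
          refine (abs_sub _ _).trans ?_
          rw [abs_mul]
          gcongr
        have t2 : |(q.2 : ℝ) - k * q.1 / D - T.2| ≤ 1 := by
          rw [abs_le]
          constructor <;> linarith
        linarith
      nlinarith [abs_nonneg A, abs_nonneg B, mul_nonneg (abs_nonneg A) (abs_nonneg B)]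
    have e2 : x.1 - T.1 = A / D + (q.1 / D - T.1) := by
      rw [hA]
      field_simp
      ring
    have b2 : 1 + |x.1 - T.1| ≤ 2 * (1 + |A|) := by
      rw [e2]
      have t1 : |A / D| ≤ |A| := by
        rw [abs_div, abs_of_pos hD0]
        exact div_le_self (abs_nonneg _) hDr
      have t2 : |(q.1 : ℝ) / D - T.1| ≤ 1 := by
        rw [abs_le]
        constructor <;> linarith
      have := abs_add_le (A / D) (q.1 / D - T.1)
      linarith [abs_nonneg A]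
    have b3 : (1 + |x.1 - T.1|) ^ 12 * (1 + |D * x.2 - k * x.1 - T.2|) ^ 12 ≤
        20 ^ 12 * ((1 + |A|) ^ 26 * (1 + |B|) ^ 26) := by
      calc (1 + |x.1 - T.1|) ^ 12 * (1 + |D * x.2 - k * x.1 - T.2|) ^ 12
          ≤ (2 * (1 + |A|)) ^ 12 * (10 * ((1 + |A|) * (1 + |B|))) ^ 12 := by gcongr
        _ = 20 ^ 12 * ((1 + |A|) ^ 24 * (1 + |B|) ^ 12) := by ring
        _ ≤ _ := by
          have hA1 : 1 ≤ 1 + |A| := by linarith [abs_nonneg A]
          have hB1 : 1 ≤ 1 + |B| := by linarith [abs_nonneg B]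
          gcongr
          · norm_num
          · norm_num
    have b4 : hw 28 A * (1 + |A|) ^ 26 = hw 2 A := by
      unfold hw
      rw [show (28 : ℕ) = 2 + 26 by norm_num, pow_add, mul_inv, mul_assoc, inv_mul_cancel₀, mul_one]
      positivity
    have b5 : hw 28 B * (1 + |B|) ^ 26 = hw 2 B := by
      unfold hw
      rw [show (28 : ℕ) = 2 + 26 by norm_num, pow_add, mul_inv, mul_assoc, inv_mul_cancel₀, mul_one]
      positivity
    have n1 := hw_nonneg 28 A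
    have n2 := hw_nonneg 28 B
    have s1 : cellW D q x * ‖F x‖ ^ 2
        ≤ (9 ^ 14 * 9 ^ 14 * (hw 28 A * hw 28 B)) * ((4 * 2803 * 25303 * 4 ^ 12) * D *
          ((1 + |x.1 - T.1|) ^ 12 * (1 + |D * x.2 - k * x.1 - T.2|) ^ 12) * μ) := by
      apply mul_le_mul (cellW_le D q x) (packet_sup hD hk hF T x) (by positivity)
      exact mul_nonneg (by norm_num) (mul_nonneg n1 n2)
    rw [← b4, ← b5]
    exact s1.trans (cell_aux (by norm_num) (by norm_num) n1 n2 hD0.le hnn b3)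
  calc ∫ x, cellW D q x * ‖F x‖ ^ 2
      ≤ ∫ x : ℝ × ℝ, ((4 * 2803 * 25303 * 4 ^ 12) * (9 ^ 14 * 9 ^ 14 * 20 ^ 12) * D * μ) *
        (hw 2 (D * x.1 - q.1) * hw 2 (D * x.2 - q.2)) :=
        integral_mono (cellW_int hF D q) (i1.const_mul _) hpt
    _ = _ := by
        rw [integral_const_mul, i2]
        field_simp

/-! ### A3' -/

lemma cell_cs {S : Set (ℝ × ℝ)} (D : ℝ) (q : ℤ × ℤ) (F : ℕ → ℝ × ℝ → ℂ) (I : Finset ℕ)
    (A : ℕ → Finset ℕ) (hd : ∀ i ∈ I, ∀ j ∈ I, i ≠ j → Disjoint (A i) (A j))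
    (hF : ∀ l, Band S (F l)) :
    ∫ x, cellW D q x * ‖∑ l ∈ I.biUnion A, F l x‖ ^ 2 ≤
      I.card * ∑ i ∈ I, ∫ x, cellW D q x * ‖∑ l ∈ A i, F l x‖ ^ 2 := by
  have hs : ∀ B : Finset ℕ, Band S (fun x => ∑ l ∈ B, F l x) := fun B =>
    Band.sum B fun l _ => hF l
  rw [← integral_finsetSum I fun i _ => cellW_int (hs (A i)) D q, ← integral_const_mul]
  apply integral_mono (cellW_int (hs _) D q)
  · exact (integrable_finsetSum I fun i _ => cellW_int (hs (A i)) D q).const_mul _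
  · intro x
    simp only
    rw [Finset.sum_biUnion (fun i hi j hj hij => hd i hi j hj hij)]
    have h1 : ‖∑ i ∈ I, ∑ l ∈ A i, F l x‖ ^ 2 ≤ I.card * ∑ i ∈ I, ‖∑ l ∈ A i, F l x‖ ^ 2 := by
      calc ‖∑ i ∈ I, ∑ l ∈ A i, F l x‖ ^ 2 ≤ (∑ i ∈ I, ‖∑ l ∈ A i, F l x‖) ^ 2 := by
            gcongr
            exact norm_sum_le _ _
        _ ≤ _ := sq_sum_le_card_mul_sum_sq
    calc cellW D q x * ‖∑ i ∈ I, ∑ l ∈ A i, F l x‖ ^ 2
        ≤ cellW D q x * (I.card * ∑ i ∈ I, ‖∑ l ∈ A i, F l x‖ ^ 2) := by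
          gcongr
          exact cellW_nonneg D q x
      _ = _ := by rw [mul_left_comm, Finset.mul_sum]

/-! ### A4 -/

lemma sum_tileH (D : ℝ) (k : ℤ) (S : Finset (ℤ × ℤ)) (x : ℝ × ℝ) :
    ∑ T ∈ S, tileH 6 D k T x ≤ 256 := by
  classical
  have h1 : ∑ T ∈ S, tileH 6 D k T x ≤
      ∑ T ∈ (S.image Prod.fst) ×ˢ (S.image Prod.snd), tileH 6 D k T x := by
    apply Finset.sum_le_sum_of_subset_of_nonneg
    · intro T hT
      rw [Finset.mem_product]
      exact ⟨Finset.mem_image_of_mem _ hT, Finset.mem_image_of_mem _ hT⟩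
    · intro T _ _
      exact tileH_nonneg _ _ _ _ _
  refine h1.trans ?_
  unfold tileH
  rw [Finset.sum_product]
  simp only
  simp_rw [← Finset.mul_sum]
  rw [← Finset.sum_mul]
  have a1 : ∀ (y : ℝ) (A : Finset ℤ), ∑ m ∈ A, hw 6 (y - m) ≤ 16 := by
    intro y A
    exact (Finset.sum_le_sum fun m _ => hw_anti (by norm_num) _).trans (sum_hw2' y A)
  calc (∑ m ∈ S.image Prod.fst, hw 6 (x.1 - m)) *
        ∑ m ∈ S.image Prod.snd, hw 6 (D * x.2 - k * x.1 - m)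
      ≤ 16 * 16 := by
        apply mul_le_mul (a1 _ _) (a1 _ _) (Finset.sum_nonneg fun m _ => hw_nonneg _ _) (by norm_num)
    _ = 256 := by norm_num

variable {φ : ℝ → ℝ} {d : ℕ}

lemma Cfg.F_l2 (c : Cfg φ d) (hφ : Win φ) {Cφ : ℝ} (hC : ∀ s, |φ s| ≤ Cφ) (l : ℕ)
    (K : Finset ℤ) : ∑ k ∈ K, ∫ x, ‖c.F l k x‖ ^ 2 ≤ 3 * Cφ ^ 2 * ∫ x in c.E l, ‖c.g x‖ ^ 2 := by
  have hC0 : 0 ≤ Cφ := (abs_nonneg _).trans (hC 0)
  have hb := c.hg.indicator (c.hE l)
  have e1 : ∫ x in c.E l, ‖c.g x‖ ^ 2 = ∫ ξ, ‖fwd ((c.E l).indicator c.g) ξ‖ ^ 2 := by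
    rw [(planch_fwd hb).2, ← integral_indicator (c.hE l)]
    congr 1
    funext x
    by_cases h : x ∈ c.E l
    · rw [Set.indicator_of_mem h, Set.indicator_of_mem h]
    · rw [Set.indicator_of_notMem h, Set.indicator_of_notMem h, norm_zero]
      norm_num
  have e2 : ∀ k, ∫ x, ‖c.F l k x‖ ^ 2 = ∫ ξ, ‖c.a l k ξ‖ ^ 2 := fun k =>
    (planch_inv (c.a_bcs hφ l k)).2
  simp_rw [e2]
  rw [e1, ← integral_finsetSum K fun k _ => (c.a_bcs hφ l k).sq_integrable, ← integral_const_mul]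
  apply integral_mono
  · exact integrable_finsetSum K fun k _ => (c.a_bcs hφ l k).sq_integrable
  · exact (planch_fwd hb).1.const_mul _
  · intro ξ
    simp only
    have h1 : ∀ k ∈ K, ‖c.a l k ξ‖ ^ 2 ≤
        (Cφ ^ 2 * ‖fwd ((c.E l).indicator c.g) ξ‖ ^ 2) *
          |bet (2 ^ d * ξ.2 / ξ.1 - k)| ^ 2 := by
      intro k _
      unfold Cfg.a
      rw [norm_mul, Complex.norm_real, Real.norm_eq_abs, mul_pow]
      calc |mulk φ (2 ^ d) c.u₀ l k ξ| ^ 2 * ‖fwd ((c.E l).indicator c.g) ξ‖ ^ 2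
          ≤ (Cφ * |bet (2 ^ d * ξ.2 / ξ.1 - k)|) ^ 2 *
            ‖fwd ((c.E l).indicator c.g) ξ‖ ^ 2 := by
            gcongr
            exact mulk_le hC _ _ _ _ _
        _ = _ := by ring
    refine (Finset.sum_le_sum h1).trans ?_
    rw [← Finset.mul_sum]
    have := bet_sq_sum (2 ^ d * ξ.2 / ξ.1) K
    have h0 : 0 ≤ Cφ ^ 2 * ‖fwd ((c.E l).indicator c.g) ξ‖ ^ 2 := by positivity
    nlinarith

/-- **total mass** -/
lemma Cfg.total_mass (c : Cfg φ d) (hφ : Win φ) {Cφ : ℝ} (hC : ∀ s, |φ s| ≤ Cφ) (l : ℕ)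
    (D : ℝ) (S : Finset (ℤ × (ℤ × ℤ))) :
    ∑ P ∈ S, ∫ x, tileH 6 D P.1 P.2 x * ‖c.F l P.1 x‖ ^ 2 ≤
      256 * (3 * Cφ ^ 2) * ∫ x in c.E l, ‖c.g x‖ ^ 2 := by
  classical
  have h0 : ∀ (k : ℤ) (T : ℤ × ℤ), 0 ≤ ∫ x, tileH 6 D k T x * ‖c.F l k x‖ ^ 2 := fun k T =>
    integral_nonneg fun x => mul_nonneg (tileH_nonneg _ _ _ _ _) (by positivity)
  have h1 : ∑ P ∈ S, ∫ x, tileH 6 D P.1 P.2 x * ‖c.F l P.1 x‖ ^ 2 ≤
      ∑ P ∈ (S.image Prod.fst) ×ˢ (S.image Prod.snd),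
        ∫ x, tileH 6 D P.1 P.2 x * ‖c.F l P.1 x‖ ^ 2 := by
    apply Finset.sum_le_sum_of_subset_of_nonneg
    · intro T hT
      rw [Finset.mem_product]
      exact ⟨Finset.mem_image_of_mem _ hT, Finset.mem_image_of_mem _ hT⟩
    · intro P _ _
      exact h0 _ _
  refine h1.trans ?_
  rw [Finset.sum_product]
  simp only
  have h2 : ∀ k ∈ S.image Prod.fst, ∑ T ∈ S.image Prod.snd,
      ∫ x, tileH 6 D k T x * ‖c.F l k x‖ ^ 2 ≤ 256 * ∫ x, ‖c.F l k x‖ ^ 2 := by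
    intro k _
    have hB := c.F_band hφ l k
    rw [← integral_finsetSum _ fun T _ => tileH_int hB 6 D k T, ← integral_const_mul]
    apply integral_mono
    · exact integrable_finsetSum _ fun T _ => tileH_int hB 6 D k T
    · exact hB.sq_integrable.const_mul _
    · intro x
      simp only
      rw [← Finset.sum_mul]
      gcongr
      exact sum_tileH D k _ x
  refine (Finset.sum_le_sum h2).trans ?_
  rw [← Finset.mul_sum, mul_assoc]
  apply mul_le_mul_of_nonneg_left _ (by norm_num)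
  exact c.F_l2 hφ hC l _

end

end Pool.Agent.Helper32.KS
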