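import Pool.Agent.Helper32.KS.Band2

/-!
# Weights: powers of sinc and `hw` (helper32)
-/

set_option autoImplicit false

open MeasureTheory
open scoped BigOperators Real

namespace Pool.Agent.Helper32.KS

noncomputable section

/-! ### hw -/

lemma hw_pos (p : ℕ) (s : ℝ) : 0 < hw p s := by unfold hw; positivity

lemma hw_nonneg (p : ℕ) (s : ℝ) : 0 ≤ hw p s := (hw_pos p s).le

lemma hw_le_one (p : ℕ) (s : ℝ) : hw p s ≤ 1 := by
  unfold hw
  apply inv_le_one_of_one_le₀
  exact one_le_pow₀ (by linarith [abs_nonneg s])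

lemma hw_neg (p : ℕ) (s : ℝ) : hw p (-s) = hw p s := by unfold hw; rw [abs_neg]

lemma hw_sub_comm (p : ℕ) (s t : ℝ) : hw p (s - t) = hw p (t - s) := by
  rw [← hw_neg p (s - t), neg_sub]

lemma hw_add (p q : ℕ) (s : ℝ) : hw (p + q) s = hw p s * hw q s := by
  unfold hw
  rw [pow_add, mul_inv]

lemma hw_anti {p q : ℕ} (h : p ≤ q) (s : ℝ) : hw q s ≤ hw p s := by
  obtain ⟨r, rfl⟩ := Nat.exists_eq_add_of_le h
  rw [hw_add]
  calc hw p s * hw r s ≤ hw p s * 1 :=
        mul_le_mul_of_nonneg_left (hw_le_one r s) (hw_nonneg p s)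
    _ = hw p s := mul_one _

/-- `hw p a * hw p b ≤ hw p (a + b)` -/
lemma hw_mul_le (p : ℕ) (a b : ℝ) : hw p a * hw p b ≤ hw p (a + b) := by
  unfold hw
  rw [← mul_inv, ← mul_pow]
  apply inv_anti₀ (by positivity)
  apply pow_le_pow_left₀ (by positivity)
  have := abs_add_le a b
  nlinarith [abs_nonneg a, abs_nonneg b]

/-- slow variation: `hw p s ≤ (1 + |t|)^p * hw p (s + t)` -/
lemma hw_slow (p : ℕ) (s t : ℝ) : hw p s ≤ (1 + |t|) ^ p * hw p (s + t) := by
  have h := hw_mul_le p s t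
  have h2 : (1 + |t|) ^ p * hw p t = 1 := by
    unfold hw
    rw [mul_inv_cancel₀]
    positivity
  calc hw p s = (1 + |t|) ^ p * (hw p s * hw p t) := by rw [mul_left_comm, h2, mul_one]
    _ ≤ (1 + |t|) ^ p * hw p (s + t) := by gcongr

lemma hw_slow' (p : ℕ) {s t K : ℝ} (hK : |s - t| ≤ K) : hw p s ≤ (1 + K) ^ p * hw p t := by
  have h := hw_slow p s (t - s)
  rw [add_sub_cancel] at h
  refine h.trans ?_
  have : |t - s| ≤ K := by rwa [abs_sub_comm]
  gcongr
  exact hw_nonneg p t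

lemma hw_cont (p : ℕ) : Continuous (hw p) := by
  unfold hw
  apply Continuous.inv₀
  · fun_prop
  · intro s
    positivity

@[fun_prop]
lemma hw_cont' (p : ℕ) {X : Type*} [TopologicalSpace X] {f : X → ℝ} (hf : Continuous f) :
    Continuous fun x => hw p (f x) := (hw_cont p).comp hf

@[fun_prop]
lemma hw_meas' (p : ℕ) {X : Type*} [MeasurableSpace X] {f : X → ℝ} (hf : Measurable f) :
    Measurable fun x => hw p (f x) := (hw_cont p).measurable.comp hf

lemma hw_integrable {p : ℕ} (hp : 2 ≤ p) : Integrable (hw p) := by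
  have h1 : Integrable (fun s : ℝ => (1 + ‖s‖) ^ (-(2 : ℝ))) :=
    integrable_one_add_norm (by norm_num)
  refine h1.mono' (hw_cont p).aestronglyMeasurable (Filter.Eventually.of_forall fun s => ?_)
  rw [Real.norm_of_nonneg (hw_nonneg p s)]
  refine (hw_anti hp s).trans (le_of_eq ?_)
  unfold hw
  rw [Real.norm_eq_abs, Real.rpow_neg (by positivity), Real.rpow_two]

/-! ### sinc -/

lemma sc_zero : sc 0 = 1 := by
  unfold sc
  simp only [zero_mul, e_zero]
  rw [setIntegral_const]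
  simp [measureReal_def]
  norm_num

lemma sc_eq {t : ℝ} (ht : t ≠ 0) : sc t = ((Real.sin (π * t) / (π * t) : ℝ) : ℂ) := by
  unfold sc
  rw [integral_Icc_eq_integral_Ioc, ← intervalIntegral.integral_of_le (by norm_num)]
  unfold e
  have h1 : ∀ s : ℝ, (2 * π * Complex.I * ((t * s : ℝ) : ℂ)) = (2 * π * Complex.I * t) * s := by
    intro s; push_cast; ring
  simp only [h1]
  have hc : (2 * π * Complex.I * t : ℂ) ≠ 0 := by
    have : (t : ℂ) ≠ 0 := by exact_mod_cast ht
    have : (π : ℂ) ≠ 0 := by exact_mod_cast Real.pi_ne_zero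
    simp [*]
  rw [integral_exp_mul_complex hc]
  have h2 : Complex.exp (2 * π * Complex.I * t * ((1/2 : ℝ) : ℂ)) -
      Complex.exp (2 * π * Complex.I * t * ((-1/2 : ℝ) : ℂ)) =
      2 * Complex.I * Complex.sin (π * t) := by
    rw [Complex.sin]
    have e1 : (2 * π * Complex.I * t * ((1/2 : ℝ) : ℂ)) = (π * t) * Complex.I := by
      push_cast; ring
    have e2 : (2 * π * Complex.I * t * ((-1/2 : ℝ) : ℂ)) = -(π * t) * Complex.I := by
      push_cast; ring
    rw [e1, e2]
    field_simp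
    rw [Complex.I_sq]
    ring
  rw [h2]
  have : (t : ℂ) ≠ 0 := by exact_mod_cast ht
  have : (π : ℂ) ≠ 0 := by exact_mod_cast Real.pi_ne_zero
  push_cast
  field_simp

lemma sc_norm {t : ℝ} (ht : t ≠ 0) : ‖sc t‖ = |Real.sin (π * t)| / (π * |t|) := by
  rw [sc_eq ht, Complex.norm_real, Real.norm_eq_abs, abs_div, abs_mul, abs_of_pos Real.pi_pos]

lemma sc_norm_le_one (t : ℝ) : ‖sc t‖ ≤ 1 := by
  unfold sc
  refine (norm_setIntegral_le_of_norm_le_const (C := 1) (by simp) fun s hs => ?_).trans ?_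
  · rw [e_norm]
  · simp only [measureReal_def, Real.volume_Icc]
    rw [ENNReal.toReal_ofReal (by norm_num)]
    norm_num

lemma sc_norm_le (t : ℝ) : ‖sc t‖ ≤ 2 / (1 + |t|) := by
  by_cases h : |t| ≤ 1
  · refine (sc_norm_le_one t).trans ?_
    rw [le_div_iff₀ (by positivity)]
    linarith
  · push Not at h
    have ht : t ≠ 0 := by
      rintro rfl
      simp at h
      linarith
    rw [sc_norm ht]
    calc |Real.sin (π * t)| / (π * |t|) ≤ 1 / (π * |t|) := by
          gcongr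
          exact Real.abs_sin_le_one _
      _ ≤ 2 / (1 + |t|) := by
          rw [div_le_div_iff₀ (by positivity) (by positivity)]
          nlinarith [Real.pi_gt_three]

/-- on `[-1/2, 1/2]` -/
lemma sc_lower {t : ℝ} (ht : |t| ≤ 1/2) : 1/2 ≤ ‖sc t‖ := by
  by_cases h : t = 0
  · rw [h, sc_zero]; norm_num
  · rw [sc_norm h]
    have h1 : |Real.sin (π * t)| = Real.sin (π * |t|) := by
      rcases le_or_gt 0 t with h0 | h0
      · rw [abs_of_nonneg h0, abs_of_nonneg]
        rw [abs_of_nonneg h0] at ht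
        apply Real.sin_nonneg_of_nonneg_of_le_pi
        · positivity
        · nlinarith [Real.pi_pos]
      · rw [abs_of_neg h0] at ht ⊢
        rw [show π * t = -(π * -t) by ring, Real.sin_neg, abs_neg, abs_of_nonneg]
        apply Real.sin_nonneg_of_nonneg_of_le_pi
        · have := Real.pi_pos
          nlinarith
        · nlinarith [Real.pi_pos]
    rw [h1]
    have h2 : 2 / π * (π * |t|) ≤ Real.sin (π * |t|) := by
      apply Real.mul_le_sin
      · positivity
      · nlinarith [Real.pi_pos]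
    have h3 : 0 < |t| := abs_pos.2 h
    rw [le_div_iff₀ (by positivity)]
    have h4 : 2 / π * (π * |t|) = 2 * |t| := by field_simp
    rw [h4] at h2
    have := Real.pi_lt_four
    nlinarith

/-- either `sc t` or `sc (t - 1/2)` is large -/
lemma sc_max (t : ℝ) : 1 / (5 * (1 + |t|)) ≤ ‖sc t‖ ∨ 1 / (5 * (1 + |t|)) ≤ ‖sc (t - 1/2)‖ := by
  have hsq := Real.sin_sq_add_cos_sq (π * t)
  have hpi := Real.pi_gt_three
  have hpi2 : π < 3.15 := Real.pi_lt_d2
  rcases le_total (1/2) (Real.sin (π * t) ^ 2) with h | h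
  · left
    have h1 : (7:ℝ)/10 ≤ |Real.sin (π * t)| := by
      by_contra hcon
      push Not at hcon
      have h0 := abs_nonneg (Real.sin (π * t))
      rw [← sq_abs] at h
      nlinarith
    have ht : t ≠ 0 := by
      rintro rfl
      simp at h1
      linarith
    rw [sc_norm ht]
    have h3 : 0 < |t| := abs_pos.2 ht
    rw [div_le_div_iff₀ (by positivity) (by positivity)]
    nlinarith
  · right
    have h1 : (7:ℝ)/10 ≤ |Real.cos (π * t)| := by
      by_contra hcon
      push Not at hcon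
      have h0 := abs_nonneg (Real.cos (π * t))
      have h2 : 1/2 ≤ Real.cos (π * t) ^ 2 := by linarith
      rw [← sq_abs] at h2
      nlinarith
    have hs : Real.sin (π * (t - 1/2)) = -Real.cos (π * t) := by
      rw [show π * (t - 1/2) = π * t - π/2 by ring, Real.sin_sub_pi_div_two]
    have ht : t - 1/2 ≠ 0 := by
      intro h0
      rw [h0] at hs
      simp at hs
      rw [hs] at h1
      simp at h1
      linarith
    rw [sc_norm ht, hs, abs_neg]
    have h3 : 0 < |t - 1/2| := abs_pos.2 ht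
    have h4 : |t - 1/2| ≤ |t| + 1/2 := by
      have := abs_sub t (1/2)
      rw [abs_of_pos (by norm_num : (0:ℝ) < 1/2)] at this
      exact this
    rw [div_le_div_iff₀ (by positivity) (by positivity)]
    nlinarith [abs_nonneg t]

lemma sc_pow_le (m : ℕ) (t : ℝ) : ‖sc t ^ m‖ ^ 2 ≤ 4 ^ m * hw (2 * m) t := by
  rw [norm_pow, ← pow_mul, mul_comm m 2, pow_mul]
  have h := sc_norm_le t
  unfold hw
  rw [pow_mul, ← inv_pow, ← mul_pow]
  apply pow_le_pow_left₀ (by positivity)
  calc ‖sc t‖ ^ 2 ≤ (2 / (1 + |t|)) ^ 2 := by gcongr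
    _ = 4 * ((1 + |t|) ^ 2)⁻¹ := by rw [div_pow]; ring

/-- two-sided comparison with `hw (2m)` -/
lemma hw_le_sc (m : ℕ) (t : ℝ) :
    hw (2 * m) t ≤ 25 ^ m * (‖sc t ^ m‖ ^ 2 + ‖sc (t - 1/2) ^ m‖ ^ 2) := by
  have key : ∀ r : ℝ, 0 ≤ r → 1 / (5 * (1 + |t|)) ≤ r → hw (2 * m) t ≤ 25 ^ m * (r ^ m) ^ 2 := by
    intro r hr h
    unfold hw
    rw [← pow_mul, mul_comm m 2, pow_mul, pow_mul, ← inv_pow, ← mul_pow]
    apply pow_le_pow_left₀ (by positivity)
    have h2 : (1 / (5 * (1 + |t|))) ^ 2 ≤ r ^ 2 := by gcongr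
    calc ((1 + |t|) ^ 2)⁻¹ = 25 * (1 / (5 * (1 + |t|))) ^ 2 := by
          field_simp
          ring
      _ ≤ 25 * r ^ 2 := by gcongr
  rcases sc_max t with h | h
  · refine (key _ (norm_nonneg _) h).trans ?_
    rw [← norm_pow]
    have : 0 ≤ ‖sc (t - 1/2) ^ m‖ ^ 2 := by positivity
    gcongr
    linarith
  · refine (key _ (norm_nonneg _) h).trans ?_
    rw [← norm_pow]
    have : 0 ≤ ‖sc t ^ m‖ ^ 2 := by positivity
    gcongr
    linarith

lemma sc_pow_shift_le (m : ℕ) (t : ℝ) : ‖sc (t - 1/2) ^ m‖ ^ 2 ≤ 9 ^ m * hw (2 * m) t := by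
  have h := sc_pow_le m (t - 1/2)
  refine h.trans ?_
  have h2 : hw (2 * m) (t - 1/2) ≤ (1 + 1/2) ^ (2 * m) * hw (2 * m) t := by
    apply hw_slow'
    rw [show t - 1/2 - t = -(1/2) by ring, abs_neg, abs_of_pos (by norm_num)]
  calc 4 ^ m * hw (2 * m) (t - 1/2) ≤ 4 ^ m * ((1 + 1/2) ^ (2 * m) * hw (2 * m) t) := by gcongr
    _ = 9 ^ m * hw (2 * m) t := by
        rw [← mul_assoc, pow_mul, ← mul_pow]
        norm_num

end

end Pool.Agent.Helper32.KS
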